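import Mathlib
import Pool.Agent.Helper475.Kuhn

set_option autoImplicit false

/-!
Lower bound of asymptotic dimension from a coarsely embedded orthant, by Kuhn's lemma.
-/

namespace Pool.Agent.Helper475.Asdim

theorem asdim_lower {G : Type} (Γ : SimpleGraph G) (n : ℕ) (P : (ℕ → ℕ) → G) (c : ℕ)
    (hup : ∀ x y : ℕ → ℕ, (∀ i, i < n → y i = x i ∨ y i = x i + 1) → Γ.dist (P x) (P y) ≤ c)
    (hlow : ∀ x y : ℕ → ℕ, ∀ i, i < n → ((x i : ℤ) - y i).natAbs ≤ Γ.dist (P x) (P y)) :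
    ¬ ∀ r : ℕ, ∃ (ι : Type) (U : ι → Set G) (D : ℕ),
      (∀ x : G, ∃ i, x ∈ U i) ∧
      (∀ i, ∀ x ∈ U i, ∀ y ∈ U i, Γ.dist x y ≤ D) ∧
      ∀ x : G, {i : ι | ∃ y ∈ U i, Γ.dist x y ≤ r}.encard ≤ (n : ℕ∞) := by
  classical
  intro h
  obtain ⟨ι, U, D, hcov, hdiam, hmult⟩ := h c
  choose u hu using hcov
  let L : ι → ℕ := fun j =>
    if h : ∃ i, i < n ∧ ¬ ∃ z : ℕ → ℕ, z i = 0 ∧ P z ∈ U j then Nat.find h else n
  have L_le : ∀ j, L j ≤ n := by
    intro j
    simp only [L]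
    split_ifs with h
    · exact (Nat.find_spec h).1.le
    · exact le_rfl
  obtain ⟨x, hx, hall⟩ := Kuhn.kuhn n (D + 1) (fun x => L (u (P x)))
    (fun x _ => L_le _)
    (by
      intro i hi x _ hxi hL
      simp only [L] at hL
      split_ifs at hL with h
      · have := (Nat.find_spec h).2
        rw [hL] at this
        exact this ⟨x, hxi, hu _⟩
      · omega)
    (by
      intro i hi x _ hxi
      have hC : i < n ∧ ¬ ∃ z : ℕ → ℕ, z i = 0 ∧ P z ∈ U (u (P x)) := by
        refine ⟨hi, ?_⟩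
        rintro ⟨z, hz, hzU⟩
        have h1 := hdiam _ _ (hu (P x)) _ hzU
        have h2 := hlow x z i hi
        rw [hxi, hz] at h2
        simp only [Nat.cast_add, Nat.cast_one, CharP.cast_eq_zero, sub_zero] at h2
        omega
      simp only [L]
      rw [dif_pos ⟨i, hC⟩]
      exact Nat.find_min' _ hC)
  choose y hy _ hlam using fun j : Fin (n + 1) => hall j (Nat.lt_succ_iff.1 j.2)
  have hinj : Function.Injective (fun j : Fin (n + 1) => u (P (y j))) := by
    intro j j' hjj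
    have h1 := hlam j
    have h2 := hlam j'
    simp only at hjj
    rw [hjj] at h1
    exact Fin.ext (h1.symm.trans h2)
  have hsub : Set.range (fun j : Fin (n + 1) => u (P (y j))) ⊆
      {i : ι | ∃ z ∈ U i, Γ.dist (P x) z ≤ c} := by
    rintro _ ⟨j, rfl⟩
    exact ⟨P (y j), hu _, hup x (y j) (hy j)⟩
  have h1 := Set.encard_le_encard hsub
  have h2 : (Set.range (fun j : Fin (n + 1) => u (P (y j)))).encard = ((n + 1 : ℕ) : ℕ∞) := by
    rw [← Set.image_univ, hinj.encard_image, Set.encard_univ]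
    simp
  rw [h2] at h1
  have h3 := h1.trans (hmult (P x))
  have h4 : n + 1 ≤ n := by exact_mod_cast h3
  omega

end Pool.Agent.Helper475.Asdim
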