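import Pool.Agent.Helper475.DLBase
set_option autoImplicit false
namespace Pool.Agent.Helper475.DL


/-- general position: a continuous map from the disk (a plane) to `ℂ × ℝ` (three dimensional) is
uniformly close, on the closed ball, to a continuous map avoiding the origin. -/
theorem ball_avoid (c : E2 → ℂ) (r : E2 → ℝ) (hc : Continuous c) (hr : Continuous r)
    (η : ℝ) (hη : 0 < η) :
    ∃ c' : E2 → ℂ, ∃ r' : E2 → ℝ, Continuous c' ∧ Continuous r' ∧
      (∀ y ∈ Metric.closedBall (0 : E2) 1, c' y ≠ 0 ∨ r' y ≠ 0) ∧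
      ∀ y ∈ Metric.closedBall (0 : E2) 1, ‖c' y - c y‖ < η ∧ |r' y - r y| < η := by
  have hG : Continuous (fun y => (c y, r y)) := hc.prodMk hr
  obtain ⟨F, hF⟩ := exists_contMDiffMap_forall_mem_convex_of_local_const
    (n := (⊤ : ℕ∞)) (modelWithCornersSelf ℝ E2)
    (t := fun y : E2 => Metric.ball ((c y, r y) : ℂ × ℝ) (η / 2))
    (fun y => convex_ball _ _) (fun x => ⟨(c x, r x), by
      have h1 : ∀ᶠ y in nhds x, dist (c y, r y) (c x, r x) < η / 2 :=
        (Metric.continuous_iff'.1 hG) x (η / 2) (half_pos hη)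
      filter_upwards [h1] with y hy
      rw [Metric.mem_ball, dist_comm]
      exact hy⟩)
  have hFc : ContDiff ℝ 1 F := F.contMDiff.contDiff.of_le (by exact_mod_cast le_top)
  have hdim : Module.finrank ℝ E2 < Module.finrank ℝ (ℂ × ℝ) := by
    rw [Module.finrank_prod, Complex.finrank_real_complex, Module.finrank_self]
    simp
  have hd := hFc.dense_compl_range_of_finrank_lt_finrank hdim
  obtain ⟨s, hs1, hs2⟩ := hd.exists_mem_open (Metric.isOpen_ball (x := (0 : ℂ × ℝ)) (ε := η / 2))
    ⟨0, Metric.mem_ball_self (half_pos hη)⟩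
  have hs3 : ‖s‖ < η / 2 := by simpa using hs2
  have hb : ∀ y, ‖F y - s - (c y, r y)‖ < η := by
    intro y
    have h1 : ‖F y - (c y, r y)‖ < η / 2 := by
      have := hF y
      rwa [Metric.mem_ball, dist_eq_norm] at this
    calc ‖F y - s - (c y, r y)‖ = ‖(F y - (c y, r y)) - s‖ := by congr 1; abel
      _ ≤ ‖F y - (c y, r y)‖ + ‖s‖ := norm_sub_le _ _
      _ < η / 2 + η / 2 := add_lt_add h1 hs3
      _ = η := by ring
  refine ⟨fun y => (F y - s).1, fun y => (F y - s).2, ?_, ?_, ?_, ?_⟩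
  · exact continuous_fst.comp (hFc.continuous.sub continuous_const)
  · exact continuous_snd.comp (hFc.continuous.sub continuous_const)
  · intro y _
    by_contra h
    push Not at h
    apply hs1
    refine ⟨y, ?_⟩
    have : F y - s = 0 := Prod.ext h.1 h.2
    exact sub_eq_zero.1 this
  · intro y _
    have h1 := hb y
    have h2 : ‖(F y - s - (c y, r y)).1‖ ≤ ‖F y - s - (c y, r y)‖ := norm_fst_le _
    have h3 : ‖(F y - s - (c y, r y)).2‖ ≤ ‖F y - s - (c y, r y)‖ := norm_snd_le _
    exact ⟨lt_of_le_of_lt h2 h1, lt_of_le_of_lt h3 h1⟩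

end Pool.Agent.Helper475.DL
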