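import Pool.Agent.Helper475.DLBase
set_option autoImplicit false
namespace Pool.Agent.Helper475.DL

/-- extension of nonvanishing maps from closed subsets, from the density of nonvanishing maps -/
theorem ext_of_dense {X : Type} [MetricSpace X] [CompactSpace X]
    (hdense : ∀ (c : X → ℂ) (r : X → ℝ), Continuous c → Continuous r → ∀ η : ℝ, 0 < η →
      ∃ c' : X → ℂ, ∃ r' : X → ℝ, Continuous c' ∧ Continuous r' ∧
        (∀ x, c' x ≠ 0 ∨ r' x ≠ 0) ∧ ∀ x, ‖c' x - c x‖ < η ∧ |r' x - r x| < η)
    (D : Set X) (hD : IsClosed D) (c : X → ℂ) (r : X → ℝ)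
    (hc : ContinuousOn c D) (hr : ContinuousOn r D) (h0 : ∀ x ∈ D, c x ≠ 0 ∨ r x ≠ 0) :
    ∃ c' : X → ℂ, ∃ r' : X → ℝ, Continuous c' ∧ Continuous r' ∧
      (∀ x, c' x ≠ 0 ∨ r' x ≠ 0) ∧ ∀ x ∈ D, c' x = c x ∧ r' x = r x := by
  classical
  -- Tietze extensions
  obtain ⟨c1, hc1⟩ := ContinuousMap.exists_restrict_eq hD
    (⟨D.domRestrict c, continuousOn_iff_continuous_domRestrict.mp hc⟩ : C(D, ℂ))
  obtain ⟨r1, hr1⟩ := ContinuousMap.exists_restrict_eq hD
    (⟨D.domRestrict r, continuousOn_iff_continuous_domRestrict.mp hr⟩ : C(D, ℝ))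
  have ec : ∀ x ∈ D, c1 x = c x := by
    intro x hx
    have := congrArg (fun f : C(D, ℂ) => f ⟨x, hx⟩) hc1
    exact this
  have er : ∀ x ∈ D, r1 x = r x := by
    intro x hx
    have := congrArg (fun f : C(D, ℝ) => f ⟨x, hx⟩) hr1
    exact this
  rcases D.eq_empty_or_nonempty with hE | hne
  · obtain ⟨c', r', h1, h2, h3, _⟩ := hdense (fun x => c1 x) (fun x => r1 x)
      c1.continuous r1.continuous 1 one_pos
    refine ⟨c', r', h1, h2, h3, ?_⟩
    intro x hx
    rw [hE] at hx
    exact absurd hx (Set.notMem_empty x)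
  have hmc : Continuous (fun x : X => max ‖c1 x‖ |r1 x|) :=
    (c1.continuous.norm).max (r1.continuous.abs)
  obtain ⟨x0, hx0, hmin⟩ := hD.isCompact.exists_isMinOn hne hmc.continuousOn
  set τ : ℝ := max ‖c1 x0‖ |r1 x0| with hτ
  have hτpos : 0 < τ := by
    rcases h0 x0 hx0 with h | h
    · rw [← ec x0 hx0] at h
      exact lt_of_lt_of_le (norm_pos_iff.mpr h) (le_max_left _ _)
    · rw [← er x0 hx0] at h
      exact lt_of_lt_of_le (abs_pos.mpr h) (le_max_right _ _)
  obtain ⟨c2, r2, h1, h2, h3, h4⟩ := hdense (fun x => c1 x) (fun x => r1 x)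
    c1.continuous r1.continuous (τ / 4) (by positivity)
  set chi : X → ℝ := fun x => max 0 (min 1 (2 * (max ‖c1 x‖ |r1 x|) / τ - 1)) with hchi
  have hchic : Continuous chi := by
    apply Continuous.max continuous_const
    apply Continuous.min continuous_const
    exact ((continuous_const.mul hmc).div_const τ).sub continuous_const
  have hchi0 : ∀ x, 0 ≤ chi x := fun x => le_max_left _ _
  have hchi1 : ∀ x, chi x ≤ 1 := fun x => max_le zero_le_one (min_le_left _ _)
  refine ⟨fun x => c2 x + (chi x : ℂ) * (c1 x - c2 x), fun x => r2 x + chi x * (r1 x - r2 x),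
    ?_, ?_, ?_, ?_⟩
  · exact h1.add ((Complex.continuous_ofReal.comp hchic).mul (c1.continuous.sub h1))
  · exact h2.add (hchic.mul (r1.continuous.sub h2))
  · intro x
    by_cases hx : max ‖c1 x‖ |r1 x| ≤ τ / 2
    · have hz : chi x = 0 := by
        simp only [hchi]
        apply max_eq_left
        refine le_trans (min_le_right _ _) ?_
        rw [sub_nonpos, div_le_one hτpos]
        linarith
      simp only [hz]
      simpa using h3 x
    · push Not at hx
      by_contra hcon
      push Not at hcon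
      obtain ⟨ha, hb⟩ := hcon
      obtain ⟨h5, h6⟩ := h4 x
      have hca : ‖c1 x‖ ≤ τ / 4 := by
        have : c1 x = (1 - (chi x : ℂ)) * (c1 x - c2 x) := by
          linear_combination ha
        rw [this, norm_mul]
        have hn : ‖(1 - (chi x : ℂ))‖ ≤ 1 := by
          have : (1 - (chi x : ℂ)) = ((1 - chi x : ℝ) : ℂ) := by push_cast; ring
          rw [this, Complex.norm_real, Real.norm_eq_abs, abs_le]
          constructor <;> linarith [hchi0 x, hchi1 x]
        have h5' : ‖c1 x - c2 x‖ ≤ τ / 4 := by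
          rw [norm_sub_rev]; exact h5.le
        calc ‖(1 - (chi x : ℂ))‖ * ‖c1 x - c2 x‖ ≤ 1 * (τ / 4) := by
              apply mul_le_mul hn h5' (norm_nonneg _) zero_le_one
          _ = τ / 4 := one_mul _
      have hra : |r1 x| ≤ τ / 4 := by
        have : r1 x = (1 - chi x) * (r1 x - r2 x) := by
          linear_combination hb
        rw [this, abs_mul]
        have hn : |1 - chi x| ≤ 1 := by
          rw [abs_le]
          constructor <;> linarith [hchi0 x, hchi1 x]
        have h6' : |r1 x - r2 x| ≤ τ / 4 := by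
          rw [abs_sub_comm]; exact h6.le
        calc |1 - chi x| * |r1 x - r2 x| ≤ 1 * (τ / 4) := by
              apply mul_le_mul hn h6' (abs_nonneg _) zero_le_one
          _ = τ / 4 := one_mul _
      have := max_le hca hra
      linarith
  · intro x hx
    have hm : τ ≤ max ‖c1 x‖ |r1 x| := hmin hx
    have hone : chi x = 1 := by
      simp only [hchi]
      rw [min_eq_left, max_eq_right zero_le_one]
      rw [le_sub_iff_add_le, le_div_iff₀ hτpos]
      linarith
    simp only [hone, ← ec x hx, ← er x hx]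
    constructor
    · push_cast; ring
    · ring

end Pool.Agent.Helper475.DL
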