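import Pool.Agent.Helper475.DLBase
set_option autoImplicit false
namespace Pool.Agent.Helper475.DL



theorem hopf_alg (A B c' : ℂ) (r' N : ℝ) (hN : N ^ 2 = Complex.normSq c' + r' ^ 2) :
    2 * (((N + r' : ℝ) : ℂ) * A + c' * B) * (starRingEnd ℂ)
      ((starRingEnd ℂ) c' * A + ((N - r' : ℝ) : ℂ) * B) =
      ((2 * ((N + r') * Complex.normSq A + (N - r') * Complex.normSq B +
        2 * ((starRingEnd ℂ) c' * (A * (starRingEnd ℂ) B)).re) : ℝ) : ℂ) * c' ∧
    Complex.normSq (((N + r' : ℝ) : ℂ) * A + c' * B) -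
      Complex.normSq ((starRingEnd ℂ) c' * A + ((N - r' : ℝ) : ℂ) * B) =
      (2 * ((N + r') * Complex.normSq A + (N - r') * Complex.normSq B +
        2 * ((starRingEnd ℂ) c' * (A * (starRingEnd ℂ) B)).re)) * r' := by
  obtain ⟨a1, a2⟩ := A
  obtain ⟨b1, b2⟩ := B
  obtain ⟨x, y⟩ := c'
  rw [Complex.normSq_apply] at hN
  simp only at hN
  constructor
  · apply Complex.ext
    · simp [Complex.normSq_apply]
      linear_combination (2 * (a1 * b1 + a2 * b2)) * hN
    · simp [Complex.normSq_apply]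
      linear_combination (2 * (a2 * b1 - a1 * b2)) * hN
  · simp [Complex.normSq_apply]
    linear_combination (a1 ^ 2 + a2 ^ 2 - b1 ^ 2 - b2 ^ 2) * hN

theorem hopf_pos (A B c c' : ℂ) (r r' N l : ℝ) (hN : 0 ≤ N) (hl : 0 < l)
    (h1 : 2 * A * (starRingEnd ℂ) B = l * c)
    (h2 : Complex.normSq A - Complex.normSq B = l * r)
    (hclose : Complex.normSq (c' - c) + (r' - r) ^ 2 < Complex.normSq c + r ^ 2) :
    0 < (N + r') * Complex.normSq A + (N - r') * Complex.normSq B +
        2 * ((starRingEnd ℂ) c' * (A * (starRingEnd ℂ) B)).re := by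
  have h3 : 2 * ((starRingEnd ℂ) c' * (A * (starRingEnd ℂ) B)).re =
      l * ((starRingEnd ℂ) c' * c).re := by
    have h4 : (starRingEnd ℂ) c' * (2 * A * (starRingEnd ℂ) B) =
        (starRingEnd ℂ) c' * (l * c) := by rw [h1]
    have h5 := congrArg Complex.re h4
    have h6 : (starRingEnd ℂ) c' * (2 * A * (starRingEnd ℂ) B) =
        ((2 : ℝ) : ℂ) * ((starRingEnd ℂ) c' * (A * (starRingEnd ℂ) B)) := by
      push_cast
      ring
    have h7 : (starRingEnd ℂ) c' * (l * c) = (l : ℂ) * ((starRingEnd ℂ) c' * c) := by ring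
    rw [h6, h7, Complex.re_ofReal_mul, Complex.re_ofReal_mul] at h5
    exact h5
  have h4 : 0 < r * r' + ((starRingEnd ℂ) c' * c).re := by
    have h5 : Complex.normSq (c' - c) = Complex.normSq c' + Complex.normSq c -
        2 * ((starRingEnd ℂ) c' * c).re := by
      simp [Complex.normSq_apply]
      ring
    have h6 := Complex.normSq_nonneg c'
    nlinarith [sq_nonneg r']
  have hA := Complex.normSq_nonneg A
  have hB := Complex.normSq_nonneg B
  have h5 : (N + r') * Complex.normSq A + (N - r') * Complex.normSq B +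
        2 * ((starRingEnd ℂ) c' * (A * (starRingEnd ℂ) B)).re =
      N * (Complex.normSq A + Complex.normSq B) + l * (r * r' + ((starRingEnd ℂ) c' * c).re) := by
    rw [h3]
    linear_combination r' * h2
  rw [h5]
  have h6 : 0 ≤ N * (Complex.normSq A + Complex.normSq B) := by positivity
  have h7 : 0 < l * (r * r' + ((starRingEnd ℂ) c' * c).re) := mul_pos hl h4
  linarith

/-- one step: if `(c,r)` lifts and `(c',r')` is close to `(c,r)` (hence not antipodal), `(c',r')` lifts.
The new lift is `A' = ((N + r') A + c' B)`, `B' = (conj c' A + (N - r') B)`, `N = sqrt (|c'|^2 + r'^2)`. -/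
theorem hopf_step {Y : Type} [TopologicalSpace Y] (S : Set Y) (c c' : Y → ℂ) (r r' : Y → ℝ)
    (hc' : ContinuousOn c' S) (hr' : ContinuousOn r' S)
    (h0 : ∀ y ∈ S, c y ≠ 0 ∨ r y ≠ 0)
    (hclose : ∀ y ∈ S, Complex.normSq (c' y - c y) + (r' y - r y) ^ 2 <
      Complex.normSq (c y) + (r y) ^ 2)
    (h : HopfLift S c r) : HopfLift S c' r' := by
  obtain ⟨A, B, hA, hB, hAB⟩ := h
  have hNc : ContinuousOn (fun y => Real.sqrt (Complex.normSq (c' y) + r' y ^ 2)) S := by
    apply ContinuousOn.sqrt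
    exact (Complex.continuous_normSq.comp_continuousOn hc').add (hr'.pow 2)
  refine ⟨fun y => ((Real.sqrt (Complex.normSq (c' y) + r' y ^ 2) + r' y : ℝ) : ℂ) * A y +
      c' y * B y,
    fun y => (starRingEnd ℂ) (c' y) * A y +
      ((Real.sqrt (Complex.normSq (c' y) + r' y ^ 2) - r' y : ℝ) : ℂ) * B y, ?_, ?_, ?_⟩
  · exact ((Complex.continuous_ofReal.comp_continuousOn (hNc.add hr')).mul hA).add (hc'.mul hB)
  · exact ((Complex.continuous_conj.comp_continuousOn hc').mul hA).add
      ((Complex.continuous_ofReal.comp_continuousOn (hNc.sub hr')).mul hB)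
  · intro y hy
    obtain ⟨l, hl, h1, h2⟩ := hAB y hy
    have hnn : 0 ≤ Complex.normSq (c' y) + r' y ^ 2 := by
      have := Complex.normSq_nonneg (c' y)
      positivity
    have hpos := hopf_pos (A y) (B y) (c y) (c' y) (r y) (r' y)
      (Real.sqrt (Complex.normSq (c' y) + r' y ^ 2)) l (Real.sqrt_nonneg _) hl h1 h2 (hclose y hy)
    obtain ⟨e1, e2⟩ := hopf_alg (A y) (B y) (c' y) (r' y)
      (Real.sqrt (Complex.normSq (c' y) + r' y ^ 2)) (Real.sq_sqrt hnn)
    exact ⟨_, mul_pos two_pos hpos, e1, e2⟩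

theorem const_hopf (c0 : ℂ) (r0 : ℝ) (h0 : c0 ≠ 0 ∨ r0 ≠ 0) (S : Set E2) :
    HopfLift S (fun _ => c0) (fun _ => r0) := by
  have hnn : 0 < Complex.normSq c0 + r0 ^ 2 := by
    rcases h0 with h | h
    · have := Complex.normSq_pos.mpr h
      positivity
    · have := Complex.normSq_nonneg c0
      positivity
  set N := Real.sqrt (Complex.normSq c0 + r0 ^ 2) with hN
  have hN2 : N ^ 2 = Complex.normSq c0 + r0 ^ 2 := Real.sq_sqrt hnn.le
  have hNpos : 0 < N := Real.sqrt_pos.mpr hnn
  have hc0 := Complex.normSq_nonneg c0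
  have hge : 0 ≤ N + r0 := by
    by_contra h
    push Not at h
    nlinarith
  rcases hge.eq_or_lt with h | h
  · have hr0 : r0 = -N := by linarith
    have hcz : Complex.normSq c0 = 0 := by
      rw [hr0] at hN2
      nlinarith
    have hc : c0 = 0 := Complex.normSq_eq_zero.mp hcz
    refine ⟨fun _ => 0, fun _ => 1, continuousOn_const, continuousOn_const, fun y _ => ?_⟩
    refine ⟨N⁻¹, by positivity, ?_, ?_⟩
    · simp [hc]
    · rw [hr0]
      simp
      field_simp
  · refine ⟨fun _ => ((N + r0 : ℝ) : ℂ), fun _ => (starRingEnd ℂ) c0, continuousOn_const,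
      continuousOn_const, fun y _ => ?_⟩
    refine ⟨2 * (N + r0), by positivity, ?_, ?_⟩
    · rw [Complex.conj_conj]
      push_cast
      ring
    · rw [Complex.normSq_conj, Complex.normSq_ofReal]
      linear_combination hN2

/-- every nonvanishing continuous map from the closed disk to `ℂ × ℝ` has a Hopf lift -/
theorem ball_hopf (c : E2 → ℂ) (r : E2 → ℝ)
    (hc : ContinuousOn c (Metric.closedBall (0 : E2) 1))
    (hr : ContinuousOn r (Metric.closedBall (0 : E2) 1))
    (h0 : ∀ y ∈ Metric.closedBall (0 : E2) 1, c y ≠ 0 ∨ r y ≠ 0) :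
    HopfLift (Metric.closedBall (0 : E2) 1) c r := by
  set S := Metric.closedBall (0 : E2) 1 with hS
  have hScomp : IsCompact S := isCompact_closedBall _ _
  have hSne : S.Nonempty := ⟨0, by simp [hS]⟩
  -- lower bound
  have hpsi : ContinuousOn (fun y => Complex.normSq (c y) + r y ^ 2) S :=
    (Complex.continuous_normSq.comp_continuousOn hc).add (hr.pow 2)
  obtain ⟨y0, hy0, hmin⟩ := hScomp.exists_isMinOn hSne hpsi
  set μ := Complex.normSq (c y0) + r y0 ^ 2 with hμ
  have hμpos : 0 < μ := by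
    rcases h0 y0 hy0 with h | h
    · have := Complex.normSq_pos.mpr h
      positivity
    · have := Complex.normSq_nonneg (c y0)
      positivity
  have hμle : ∀ y ∈ S, μ ≤ Complex.normSq (c y) + r y ^ 2 := fun y hy => hmin hy
  -- uniform continuity
  have huc := hScomp.uniformContinuousOn_of_continuous (hc.prodMk hr)
  rw [Metric.uniformContinuousOn_iff] at huc
  obtain ⟨δ, hδ, hδ'⟩ := huc (Real.sqrt (μ / 2)) (Real.sqrt_pos.mpr (by positivity))
  have hclose : ∀ y ∈ S, ∀ y' ∈ S, dist y y' < δ →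
      Complex.normSq (c y - c y') + (r y - r y') ^ 2 < μ := by
    intro y hy y' hy' hd
    have h1 := hδ' y hy y' hy' hd
    rw [Prod.dist_eq, max_lt_iff] at h1
    obtain ⟨h2, h3⟩ := h1
    simp only at h2 h3
    rw [dist_eq_norm] at h2 h3
    have h4 : Complex.normSq (c y - c y') < μ / 2 := by
      rw [Complex.normSq_eq_norm_sq]
      exact (Real.lt_sqrt (norm_nonneg _)).mp h2
    have h5 : (r y - r y') ^ 2 < μ / 2 := by
      have h6 := (Real.lt_sqrt (norm_nonneg _)).mp h3
      rwa [Real.norm_eq_abs, sq_abs] at h6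
    linarith
  obtain ⟨m, hm⟩ := exists_nat_gt (1 / δ)
  have hmpos : (0 : ℝ) < m := lt_trans (by positivity) hm
  have hmδ : 1 / (m : ℝ) < δ := by
    rw [div_lt_iff₀ hδ] at hm
    rw [div_lt_iff₀ hmpos]
    linarith
  have hmap : ∀ t : ℝ, 0 ≤ t → t ≤ 1 → ∀ y ∈ S, t • y ∈ S := by
    intro t ht0 ht1 y hy
    rw [hS, mem_closedBall_zero_iff] at hy ⊢
    rw [norm_smul, Real.norm_of_nonneg ht0]
    nlinarith [norm_nonneg y]
  have key : ∀ j : ℕ, j ≤ m → HopfLift S (fun y => c (((j : ℝ) / m) • y))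
      (fun y => r (((j : ℝ) / m) • y)) := by
    intro j
    induction j with
    | zero =>
      intro _
      have h1 := const_hopf (c 0) (r 0) (h0 0 (by simp [hS])) S
      simpa using h1
    | succ j ih =>
      intro hj
      have hj1 : (((j + 1 : ℕ) : ℝ)) / m ≤ 1 := by
        rw [div_le_one hmpos]
        exact_mod_cast hj
      have hj0 : 0 ≤ (((j + 1 : ℕ) : ℝ)) / m := by positivity
      have hj2 : ((j : ℝ)) / m ≤ 1 := by
        rw [div_le_one hmpos]
        exact_mod_cast (by omega : j ≤ m)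
      have hj3 : 0 ≤ ((j : ℝ)) / m := by positivity
      refine hopf_step S _ _ _ _ ?_ ?_ ?_ ?_ (ih (by omega))
      · exact hc.comp (by fun_prop) (fun y hy => hmap _ hj0 hj1 y hy)
      · exact hr.comp (by fun_prop) (fun y hy => hmap _ hj0 hj1 y hy)
      · intro y hy
        exact h0 _ (hmap _ hj3 hj2 y hy)
      · intro y hy
        refine lt_of_lt_of_le (hclose _ (hmap _ hj0 hj1 y hy) _ (hmap _ hj3 hj2 y hy) ?_)
          (hμle _ (hmap _ hj3 hj2 y hy))
        rw [dist_eq_norm, ← sub_smul, norm_smul]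
        have h1 : (((j + 1 : ℕ) : ℝ)) / m - (j : ℝ) / m = 1 / m := by
          push_cast
          ring
        rw [h1, Real.norm_of_nonneg (by positivity)]
        have h2 : ‖y‖ ≤ 1 := by
          rw [hS, mem_closedBall_zero_iff] at hy
          exact hy
        have h3 : 1 / (m : ℝ) * ‖y‖ ≤ 1 / m := mul_le_of_le_one_right (by positivity) h2
        linarith
  have hfin := key m le_rfl
  rw [div_self hmpos.ne'] at hfin
  simpa using hfin

end Pool.Agent.Helper475.DL
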