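import Pool.Agent.Helper475.DLBase
set_option autoImplicit false
namespace Pool.Agent.Helper475.DL


open unitInterval in
/-- small-step homotopy along radii of a ball: logarithms of nonvanishing functions -/
theorem ball_log (u : E2 → ℂ) (hu : ContinuousOn u (Metric.closedBall (0 : E2) 1))
    (h0 : ∀ y ∈ Metric.closedBall (0 : E2) 1, u y ≠ 0) :
    ∃ L : E2 → ℂ, ContinuousOn L (Metric.closedBall (0 : E2) 1) ∧
      ∀ y ∈ Metric.closedBall (0 : E2) 1, Complex.exp (L y) = u y := by
  classical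
  have hmem : ∀ q : I × (Metric.closedBall (0 : E2) 1), (q.1 : ℝ) • (q.2 : E2) ∈
      Metric.closedBall (0 : E2) 1 := by
    rintro ⟨t, y⟩
    have hy := mem_closedBall_zero_iff.1 y.2
    rw [mem_closedBall_zero_iff, norm_smul, Real.norm_of_nonneg t.2.1]
    exact mul_le_one₀ t.2.2 (norm_nonneg _) hy
  let H : C(I × (Metric.closedBall (0 : E2) 1), {z : ℂ // z ≠ 0}) :=
    ⟨fun q => ⟨u ((q.1 : ℝ) • (q.2 : E2)), h0 _ (hmem q)⟩, by
      apply Continuous.subtype_mk
      exact hu.comp_continuous (by fun_prop) hmem⟩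
  have hz : (0 : E2) ∈ Metric.closedBall (0 : E2) 1 := by simp
  let f : C((Metric.closedBall (0 : E2) 1), ℂ) := ContinuousMap.const _ (Complex.log (u 0))
  have H0 : ∀ a, H (0, a) = (fun z : ℂ => (⟨_, z.exp_ne_zero⟩ : {z : ℂ // z ≠ 0})) (f a) := by
    intro a
    apply Subtype.ext
    show u (((0 : I) : ℝ) • (a : E2)) = Complex.exp (Complex.log (u 0))
    rw [Complex.exp_log (h0 0 hz)]
    simp
  obtain ⟨G, hG⟩ : ∃ G : C(I × (Metric.closedBall (0 : E2) 1), ℂ),
      ∀ q, Complex.exp (G q) = u ((q.1 : ℝ) • (q.2 : E2)) := by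
    refine ⟨Complex.isCoveringMap_exp.liftHomotopy H f H0, fun q => ?_⟩
    have := congrFun (Complex.isCoveringMap_exp.liftHomotopy_lifts H f H0) q
    exact congrArg Subtype.val this
  refine ⟨fun y => if h : y ∈ Metric.closedBall (0 : E2) 1 then G (1, ⟨y, h⟩) else 0, ?_, ?_⟩
  · rw [continuousOn_iff_continuous_domRestrict]
    have : (Metric.closedBall (0 : E2) 1).domRestrict
        (fun y => if h : y ∈ Metric.closedBall (0 : E2) 1 then G (1, ⟨y, h⟩) else 0) =
        fun y => G (1, y) := by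
      funext y
      simp only [Set.domRestrict_apply]
      rw [dif_pos y.2]
    rw [this]
    fun_prop
  · intro y hy
    show Complex.exp (if h : y ∈ Metric.closedBall (0 : E2) 1 then G (1, ⟨y, h⟩) else 0) = u y
    rw [dif_pos hy, hG]
    simp

end Pool.Agent.Helper475.DL
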