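import Pool.Agent.Helper475.DLBase
set_option autoImplicit false
namespace Pool.Agent.Helper475.DL


/-- extension over one orbit of a closed set with disjoint translates -/
theorem piece_ext {X : Type} [MetricSpace X] [CompactSpace X]
    (hext : ∀ (D : Set X), IsClosed D → ∀ (c : X → ℂ) (r : X → ℝ),
      ContinuousOn c D → ContinuousOn r D → (∀ x ∈ D, c x ≠ 0 ∨ r x ≠ 0) →
      ∃ c' : X → ℂ, ∃ r' : X → ℝ, Continuous c' ∧ Continuous r' ∧
        (∀ x, c' x ≠ 0 ∨ r' x ≠ 0) ∧ ∀ x ∈ D, c' x = c x ∧ r' x = r x)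
    (g : X ≃ₜ X) (m : ℕ) (hm : 0 < m) (ζ : ℂ) (hζ : ζ ^ m = 1)
    (D : Set X) (hD : IsClosed D) (hDg : ∀ x, g x ∈ D ↔ x ∈ D)
    (A : Set X) (hA : IsClosed A) (hAm : ∀ x ∈ A, g^[m] x = x)
    (hdisj : ∀ j, 0 < j → j < m → ∀ x ∈ A, g^[j] x ∉ A)
    (c : X → ℂ) (r : X → ℝ) (h : EqPair g ζ D c r) :
    ∃ c' : X → ℂ, ∃ r' : X → ℝ,
      EqPair g ζ (D ∪ {x | ∃ j < m, ∃ a ∈ A, g^[j] a = x}) c' r' ∧
      ∀ x ∈ D, c' x = c x ∧ r' x = r x := by
  classical
  obtain ⟨hc, hr, hne, heq⟩ := h
  obtain ⟨cs, rs, hcs, hrs, hnes, hag⟩ := hext (D ∩ A) (hD.inter hA) c r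
    (hc.mono Set.inter_subset_left) (hr.mono Set.inter_subset_left) (fun x hx => hne x hx.1)
  have hζ0 : ζ ≠ 0 := by
    rintro rfl
    rw [zero_pow hm.ne'] at hζ
    exact zero_ne_one hζ
  have hinv : ∀ j x, g.symm^[j] (g^[j] x) = x := fun j x =>
    Function.LeftInverse.iterate g.symm_apply_apply j x
  have hinv' : ∀ j x, g^[j] (g.symm^[j] x) = x := fun j x =>
    Function.LeftInverse.iterate g.apply_symm_apply j x
  have hinj : ∀ j, Function.Injective (g^[j]) := fun j => g.injective.iterate j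
  have hcont : ∀ j, Continuous (g.symm^[j]) := fun j => g.symm.continuous.iterate j
  -- invariance of D
  have hDj : ∀ j x, g^[j] x ∈ D ↔ x ∈ D := by
    intro j
    induction j with
    | zero => intro x; rfl
    | succ j ih =>
      intro x
      rw [Function.iterate_succ_apply', hDg, ih]
  have hcj : ∀ j x, x ∈ D → c (g^[j] x) = ζ ^ j * c x ∧ r (g^[j] x) = r x := by
    intro j
    induction j with
    | zero => intro x _; simp
    | succ j ih =>
      intro x hx
      have h1 := ih x hx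
      have h2 := heq (g^[j] x) ((hDj j x).2 hx)
      rw [Function.iterate_succ_apply']
      refine ⟨?_, h2.2.trans h1.2⟩
      rw [h2.1, h1.1, pow_succ]; ring
  -- uniqueness of the representation
  have huniq : ∀ i j a b, i < m → j < m → a ∈ A → b ∈ A → g^[i] a = g^[j] b → i = j ∧ a = b := by
    have aux : ∀ i j a b, i < j → j < m → a ∈ A → b ∈ A → g^[i] a = g^[j] b → False := by
      intro i j a b hij hj ha hb hab
      have e : g^[j] b = g^[i] (g^[j - i] b) := by
        rw [← Function.iterate_add_apply]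
        congr 2; omega
      rw [e] at hab
      have := hinj i hab
      exact hdisj (j - i) (by omega) (by omega) b hb (this ▸ ha)
    intro i j a b hi hj ha hb hab
    rcases lt_trichotomy i j with h | h | h
    · exact (aux i j a b h hj ha hb hab).elim
    · subst h
      exact ⟨rfl, hinj i hab⟩
    · exact (aux j i b a h hi hb ha hab.symm).elim
  let P : X → Prop := fun x => ∃ p : ℕ × X, p.1 < m ∧ p.2 ∈ A ∧ g^[p.1] p.2 = x
  let c' : X → ℂ := fun x => if x ∈ D then c x else
    if h : P x then ζ ^ (h.choose.1) * cs h.choose.2 else 0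
  let r' : X → ℝ := fun x => if x ∈ D then r x else
    if h : P x then rs h.choose.2 else 0
  have hkey : ∀ j a, j < m → a ∈ A → c' (g^[j] a) = ζ ^ j * cs a ∧ r' (g^[j] a) = rs a := by
    intro j a hj ha
    by_cases hx : g^[j] a ∈ D
    · have haD : a ∈ D := (hDj j a).1 hx
      have h1 := hcj j a haD
      have h2 := hag a ⟨haD, ha⟩
      constructor
      · show (if g^[j] a ∈ D then c (g^[j] a) else _) = _
        rw [if_pos hx, h1.1, h2.1]
      · show (if g^[j] a ∈ D then r (g^[j] a) else _) = _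
        rw [if_pos hx, h1.2, h2.2]
    · have hP : P (g^[j] a) := ⟨(j, a), hj, ha, rfl⟩
      obtain ⟨e1, e2, e3⟩ := hP.choose_spec
      obtain ⟨e4, e5⟩ := huniq _ _ _ _ e1 hj e2 ha e3
      constructor
      · show (if g^[j] a ∈ D then c (g^[j] a) else
          if h : P (g^[j] a) then ζ ^ (h.choose.1) * cs h.choose.2 else 0) = _
        rw [if_neg hx, dif_pos hP, e4, e5]
      · show (if g^[j] a ∈ D then r (g^[j] a) else
          if h : P (g^[j] a) then rs h.choose.2 else 0) = _
        rw [if_neg hx, dif_pos hP, e5]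
  have hkeyD : ∀ x ∈ D, c' x = c x ∧ r' x = r x := by
    intro x hx
    constructor
    · show (if x ∈ D then c x else _) = _
      rw [if_pos hx]
    · show (if x ∈ D then r x else _) = _
      rw [if_pos hx]
  -- the closed cover
  let F : Option (Fin m) → Set X := fun o => o.elim D (fun j => g.symm^[(j:ℕ)] ⁻¹' A)
  have hFcl : ∀ o, IsClosed (F o) := by
    intro o
    cases o with
    | none => exact hD
    | some j => exact hA.preimage (hcont j)
  have hU : D ∪ {x | ∃ j < m, ∃ a ∈ A, g^[j] a = x} = ⋃ o, F o := by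
    ext x
    rw [Set.mem_iUnion]
    constructor
    · rintro (hx | ⟨j, hj, a, ha, rfl⟩)
      · exact ⟨none, hx⟩
      · refine ⟨some ⟨j, hj⟩, ?_⟩
        show g.symm^[j] (g^[j] a) ∈ A
        rw [hinv]; exact ha
    · rintro ⟨o, ho⟩
      cases o with
      | none => exact Or.inl ho
      | some j => exact Or.inr ⟨j, j.2, g.symm^[(j:ℕ)] x, ho, hinv' _ _⟩
  have hFkey : ∀ (j : Fin m), ∀ x ∈ F (some j),
      c' x = ζ ^ (j:ℕ) * cs (g.symm^[(j:ℕ)] x) ∧ r' x = rs (g.symm^[(j:ℕ)] x) := by
    intro j x hx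
    have := hkey j (g.symm^[(j:ℕ)] x) j.2 hx
    rwa [hinv'] at this
  have hlf : LocallyFinite F := locallyFinite_of_finite F
  have hc' : ContinuousOn c' (⋃ o, F o) := by
    refine hlf.continuousOn_iUnion hFcl ?_
    intro o
    cases o with
    | none => exact hc.congr fun x hx => (hkeyD x hx).1
    | some j =>
      refine ContinuousOn.congr (f := fun x => ζ ^ (j:ℕ) * cs (g.symm^[(j:ℕ)] x)) ?_
        fun x hx => (hFkey j x hx).1
      exact (continuous_const.mul (hcs.comp (hcont j))).continuousOn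
  have hr' : ContinuousOn r' (⋃ o, F o) := by
    refine hlf.continuousOn_iUnion hFcl ?_
    intro o
    cases o with
    | none => exact hr.congr fun x hx => (hkeyD x hx).2
    | some j =>
      refine ContinuousOn.congr (f := fun x => rs (g.symm^[(j:ℕ)] x)) ?_
        fun x hx => (hFkey j x hx).2
      exact (hrs.comp (hcont j)).continuousOn
  refine ⟨c', r', ⟨?_, ?_, ?_, ?_⟩, hkeyD⟩
  · rw [hU]; exact hc'
  · rw [hU]; exact hr'
  · rintro x (hx | ⟨j, hj, a, ha, rfl⟩)
    · rw [(hkeyD x hx).1, (hkeyD x hx).2]; exact hne x hx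
    · rw [(hkey j a hj ha).1, (hkey j a hj ha).2]
      rcases hnes a with h | h
      · exact Or.inl (mul_ne_zero (pow_ne_zero _ hζ0) h)
      · exact Or.inr h
  · rintro x (hx | ⟨j, hj, a, ha, rfl⟩)
    · rw [(hkeyD x hx).1, (hkeyD x hx).2, (hkeyD (g x) ((hDg x).2 hx)).1,
        (hkeyD (g x) ((hDg x).2 hx)).2]
      exact heq x hx
    · rw [(hkey j a hj ha).1, (hkey j a hj ha).2, ← Function.iterate_succ_apply' g j a]
      by_cases hjm : j + 1 < m
      · rw [Nat.succ_eq_add_one, (hkey (j+1) a hjm ha).1, (hkey (j+1) a hjm ha).2]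
        exact ⟨by rw [pow_succ]; ring, rfl⟩
      · have hjm' : j + 1 = m := by omega
        have h0 := hkey 0 a hm ha
        rw [Nat.succ_eq_add_one, hjm', hAm a ha]
        have h0' : c' a = ζ ^ 0 * cs a ∧ r' a = rs a := h0
        rw [h0'.1, h0'.2]
        refine ⟨?_, rfl⟩
        rw [pow_zero, one_mul, ← mul_assoc, ← pow_succ', hjm', hζ, one_mul]

end Pool.Agent.Helper475.DL
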