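import Pool.Agent.Helper475.DLBase
set_option autoImplicit false
namespace Pool.Agent.Helper475.DL


/-- norm identity for Hopf lifts -/
theorem hopf_sq (a b : ℂ) : (Complex.normSq a + Complex.normSq b) ^ 2 =
    (Complex.normSq a - Complex.normSq b) ^ 2 +
      Complex.normSq (2 * a * (starRingEnd ℂ) b) := by
  rw [Complex.normSq_mul, Complex.normSq_mul, Complex.normSq_conj]
  have : Complex.normSq 2 = 4 := by
    simp
    norm_num
  rw [this]
  ring

/-- two Hopf lifts of positively proportional vectors differ by a complex factor -/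
theorem hopf_unique (a b a' b' : ℂ) (k : ℝ) (hk : 0 < k)
    (h1 : 2 * a' * (starRingEnd ℂ) b' = k * (2 * a * (starRingEnd ℂ) b))
    (h2 : Complex.normSq a' - Complex.normSq b' = k * (Complex.normSq a - Complex.normSq b))
    (hN : 0 < Complex.normSq a + Complex.normSq b) :
    (a' * (starRingEnd ℂ) a + b' * (starRingEnd ℂ) b) /
        ((Complex.normSq a + Complex.normSq b : ℝ) : ℂ) * a = a' ∧
      (a' * (starRingEnd ℂ) a + b' * (starRingEnd ℂ) b) /
        ((Complex.normSq a + Complex.normSq b : ℝ) : ℂ) * b = b' ∧ (a' ≠ 0 ∨ b' ≠ 0) := by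
  have e1 := hopf_sq a b
  have e2 := hopf_sq a' b'
  have e3 : Complex.normSq (2 * a' * (starRingEnd ℂ) b') =
      k ^ 2 * Complex.normSq (2 * a * (starRingEnd ℂ) b) := by
    rw [h1, Complex.normSq_mul, Complex.normSq_ofReal]
    ring
  have e4 : (Complex.normSq a' + Complex.normSq b') ^ 2 =
      (k * (Complex.normSq a + Complex.normSq b)) ^ 2 := by
    rw [e2, h2, e3, mul_pow, mul_pow, e1]
    ring
  have e5 : Complex.normSq a' + Complex.normSq b' =
      k * (Complex.normSq a + Complex.normSq b) := by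
    have p1 : 0 ≤ Complex.normSq a' + Complex.normSq b' :=
      add_nonneg (Complex.normSq_nonneg _) (Complex.normSq_nonneg _)
    have p2 : 0 ≤ k * (Complex.normSq a + Complex.normSq b) := by positivity
    exact (pow_left_inj₀ p1 p2 two_ne_zero).1 e4
  have ea : Complex.normSq a' = k * Complex.normSq a := by linarith
  have eb : Complex.normSq b' = k * Complex.normSq b := by linarith
  have hkC : (k : ℂ) ≠ 0 := by exact_mod_cast hk.ne'
  have ca : a' * (starRingEnd ℂ) a' = (k : ℂ) * (a * (starRingEnd ℂ) a) := by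
    rw [Complex.mul_conj, Complex.mul_conj, ea]
    push_cast
    ring
  have cb : b' * (starRingEnd ℂ) b' = (k : ℂ) * (b * (starRingEnd ℂ) b) := by
    rw [Complex.mul_conj, Complex.mul_conj, eb]
    push_cast
    ring
  have h1' : a' * (starRingEnd ℂ) b' = k * (a * (starRingEnd ℂ) b) := by
    have h2' : (2 : ℂ) ≠ 0 := two_ne_zero
    apply mul_left_cancel₀ h2'
    linear_combination h1
  have h1c : (starRingEnd ℂ) a' * b' = k * ((starRingEnd ℂ) a * b) := by
    have := congrArg (starRingEnd ℂ) h1'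
    simpa [map_mul] using this
  have f1 : a' * (b * (starRingEnd ℂ) b) = a * (starRingEnd ℂ) b * b' := by
    apply mul_left_cancel₀ hkC
    linear_combination (-a') * cb + b' * h1'
  have f2 : b' * (a * (starRingEnd ℂ) a) = (starRingEnd ℂ) a * b * a' := by
    apply mul_left_cancel₀ hkC
    linear_combination (-b') * ca + a' * h1c
  have hNC : ((Complex.normSq a + Complex.normSq b : ℝ) : ℂ) ≠ 0 := by exact_mod_cast hN.ne'
  have hNe : ((Complex.normSq a + Complex.normSq b : ℝ) : ℂ) =
      a * (starRingEnd ℂ) a + b * (starRingEnd ℂ) b := by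
    rw [Complex.mul_conj, Complex.mul_conj]
    push_cast
    ring
  refine ⟨?_, ?_, ?_⟩
  · rw [div_mul_eq_mul_div, div_eq_iff hNC, hNe]
    linear_combination (-1 : ℂ) * f1
  · rw [div_mul_eq_mul_div, div_eq_iff hNC, hNe]
    linear_combination (-1 : ℂ) * f2
  · by_contra hcon
    push Not at hcon
    rw [hcon.1, hcon.2] at e5
    simp only [map_zero, add_zero] at e5
    have : 0 < k * (Complex.normSq a + Complex.normSq b) := by positivity
    linarith

/-- The fixed point set of a homeomorphism of prime power period is connected, if (a) equivariant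
pairs extend over strata, (b) nonvanishing maps to `ℂ × ℝ` have Hopf lifts, (c) nonvanishing complex
functions have logarithms. -/
theorem fix_preconnected {X : Type} [MetricSpace X] [CompactSpace X] [ConnectedSpace X]
    (hstrat : ∀ (g : X ≃ₜ X) (m : ℕ), 0 < m → ∀ (ζ : ℂ), ζ ^ m = 1 →
      ∀ (Y Y' : Set X), Y' ⊆ Y → IsClosed Y → IsClosed Y' →
      (∀ x, g x ∈ Y ↔ x ∈ Y) → (∀ x, g x ∈ Y' ↔ x ∈ Y') →
      (∀ x ∈ Y, g^[m] x = x) →
      (∀ x ∈ Y, x ∉ Y' → ∀ j, 0 < j → j < m → g^[j] x ≠ x) →
      ∀ (c : X → ℂ) (r : X → ℝ), EqPair g ζ Y' c r →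
      ∃ c' : X → ℂ, ∃ r' : X → ℝ, EqPair g ζ Y c' r' ∧ ∀ x ∈ Y', c' x = c x ∧ r' x = r x)
    (hhopf : ∀ (c : X → ℂ) (r : X → ℝ), Continuous c → Continuous r →
      (∀ x, c x ≠ 0 ∨ r x ≠ 0) →
      ∃ A B : X → ℂ, Continuous A ∧ Continuous B ∧ ∀ x, ∃ l : ℝ, 0 < l ∧
        2 * A x * (starRingEnd ℂ) (B x) = l * c x ∧
        Complex.normSq (A x) - Complex.normSq (B x) = l * r x)
    (hlog : ∀ u : X → ℂ, Continuous u → (∀ x, u x ≠ 0) →
      ∃ L : X → ℂ, Continuous L ∧ ∀ x, Complex.exp (L x) = u x)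
    (g : X ≃ₜ X) (p : ℕ) (hp : p.Prime) (a : ℕ) (hg : ∀ x, g^[p ^ a] x = x) :
    IsPreconnected {x : X | g x = x} := by
  classical
  rcases Nat.eq_zero_or_pos a with ha | ha
  · subst ha
    have : {x : X | g x = x} = Set.univ := by
      ext x
      have := hg x
      simpa using this
    rw [this]
    exact isPreconnected_univ
  rw [isPreconnected_closed_iff]
  intro K1 K2 hK1 hK2 hcov hn1 hn2
  by_contra hemp
  obtain ⟨x1, hx1, hx1K⟩ := hn1
  obtain ⟨x2, hx2, hx2K⟩ := hn2
  have hdisj : ∀ x, g x = x → x ∈ K1 → x ∉ K2 := fun x hx h1 h2 => hemp ⟨x, hx, h1, h2⟩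
  have hcov' : ∀ x, g x = x → x ∈ K1 ∨ x ∈ K2 := fun x hx => hcov hx
  have hgc : ∀ n : ℕ, Continuous (g^[n]) := fun n => g.continuous.iterate n
  -- the root of unity
  obtain ⟨ζ, hζ⟩ : ∃ ζ : ℂ, IsPrimitiveRoot ζ p := ⟨_, Complex.isPrimitiveRoot_exp p hp.ne_zero⟩
  have hζ1 : ζ ≠ 1 := hζ.ne_one hp.one_lt
  have hζp : ζ ^ p = 1 := hζ.pow_eq_one
  have hζn : ‖ζ‖ = 1 := Complex.norm_eq_one_of_pow_eq_one hζp hp.ne_zero
  have hζns : Complex.normSq ζ = 1 := by
    rw [Complex.normSq_eq_norm_sq, hζn, one_pow]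
  have hζpow : ∀ b : ℕ, 0 < b → ζ ^ (p ^ b) = 1 := by
    intro b hb
    obtain ⟨b', rfl⟩ := Nat.exists_eq_succ_of_ne_zero hb.ne'
    rw [pow_succ', pow_mul, hζp, one_pow]
  -- the sets F b
  set F : ℕ → Set X := fun b => {x | g^[p ^ b] x = x} with hF
  have hFc : ∀ b, IsClosed (F b) := fun b => isClosed_eq (hgc _) continuous_id
  have hFi : ∀ b x, g x ∈ F b ↔ x ∈ F b := by
    intro b x
    simp only [hF, Set.mem_ofPred_eq]
    rw [← Function.iterate_succ_apply, Function.iterate_succ_apply']
    exact g.injective.eq_iff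
  have hFm : ∀ b b', b ≤ b' → F b ⊆ F b' := by
    intro b b' hbb x hx
    have h : Function.IsPeriodicPt g (p ^ b) x := hx
    exact h.trans_dvd (pow_dvd_pow p hbb)
  have hF0 : ∀ x, x ∈ F 0 ↔ g x = x := by
    intro x
    simp [hF]
  set r0 : X → ℝ := fun x => if x ∈ K1 then -1 else 1 with hr0
  have key : ∀ b, ∃ (c : X → ℂ) (r : X → ℝ), EqPair g ζ (F b) c r ∧
      ∀ x, g x = x → c x = 0 ∧ r x = r0 x := by
    intro b
    induction b with
    | zero =>
      refine ⟨fun _ => 0, r0, ⟨continuousOn_const, ?_, ?_, ?_⟩, fun x _ => ⟨rfl, rfl⟩⟩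
      · intro x hx
        have hx' : g x = x := (hF0 x).1 hx
        by_cases h1 : x ∈ K1
        · have h2 := hdisj x hx' h1
          have hev : r0 =ᶠ[nhdsWithin x (F 0)] fun _ => (-1 : ℝ) := by
            filter_upwards [self_mem_nhdsWithin,
              nhdsWithin_le_nhds (hK2.isOpen_compl.mem_nhds h2)] with y hy hy2
            have : y ∈ K1 := (hcov' y ((hF0 y).1 hy)).resolve_right hy2
            simp [hr0, this]
          exact continuousWithinAt_const.congr_of_eventuallyEq hev (by simp [hr0, h1])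
        · have hev : r0 =ᶠ[nhdsWithin x (F 0)] fun _ => (1 : ℝ) := by
            filter_upwards [nhdsWithin_le_nhds (hK1.isOpen_compl.mem_nhds h1)] with y hy
            have : y ∉ K1 := hy
            simp [hr0, this]
          exact continuousWithinAt_const.congr_of_eventuallyEq hev (by simp [hr0, h1])
      · intro x _
        right
        simp only [hr0]
        split_ifs <;> norm_num
      · intro x hx
        rw [(hF0 x).1 hx]
        simp
    | succ b ih =>
      obtain ⟨c, r, hE, h0⟩ := ih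
      obtain ⟨c', r', hE', h1⟩ := hstrat g (p ^ (b + 1)) (pow_pos hp.pos _) ζ
        (hζpow _ (Nat.succ_pos b)) (F (b + 1)) (F b) (hFm b (b + 1) (Nat.le_succ b)) (hFc _) (hFc _)
        (hFi _) (hFi _) (fun x hx => hx) (by
          intro x hxY hxY' j hj hjm hfix
          have h1 : Function.IsPeriodicPt g j x := hfix
          have h2 : Function.IsPeriodicPt g (p ^ (b + 1)) x := hxY
          have h3 := h1.gcd h2
          obtain ⟨c, hc, hce⟩ := (Nat.dvd_prime_pow hp).1 (Nat.gcd_dvd_right j (p ^ (b + 1)))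
          rcases Nat.lt_or_ge b c with hbc | hbc
          · have hcb : c = b + 1 := by omega
            rw [hcb] at hce
            have : p ^ (b + 1) ∣ j := hce ▸ Nat.gcd_dvd_left j (p ^ (b + 1))
            exact absurd (Nat.le_of_dvd hj this) (not_le.2 hjm)
          · rw [hce] at h3
            exact hxY' (h3.trans_dvd (pow_dvd_pow p hbc))) c r hE
      refine ⟨c', r', hE', fun x hx => ?_⟩
      have hxb : x ∈ F b := hFm 0 b (Nat.zero_le b) ((hF0 x).2 hx)
      rw [(h1 x hxb).1, (h1 x hxb).2]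
      exact h0 x hx
  obtain ⟨c, r, ⟨hcc, hrc, hnz, heq⟩, h0⟩ := key a
  have hFa : F a = Set.univ := by
    ext x
    simp only [hF, Set.mem_ofPred_eq, Set.mem_univ, iff_true]
    exact hg x
  rw [hFa] at hcc hrc hnz heq
  obtain ⟨A, B, hA, hB, hAB⟩ := hhopf c r (continuousOn_univ.1 hcc) (continuousOn_univ.1 hrc)
    (fun x => hnz x trivial)
  have hN : ∀ x, 0 < Complex.normSq (A x) + Complex.normSq (B x) := by
    intro x
    obtain ⟨l, hl, h1, h2⟩ := hAB x
    have h3 := hopf_sq (A x) (B x)
    rw [h1, h2, Complex.normSq_mul, Complex.normSq_ofReal] at h3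
    have h4 : 0 < (l * r x) ^ 2 + l * l * Complex.normSq (c x) := by
      rcases hnz x trivial with h | h
      · have : 0 < Complex.normSq (c x) := Complex.normSq_pos.2 h
        positivity
      · have : 0 < (l * r x) ^ 2 := by positivity
        have h5 : 0 ≤ l * l * Complex.normSq (c x) :=
          mul_nonneg (by positivity) (Complex.normSq_nonneg _)
        linarith
    rw [← h3] at h4
    have p1 : 0 ≤ Complex.normSq (A x) + Complex.normSq (B x) :=
      add_nonneg (Complex.normSq_nonneg _) (Complex.normSq_nonneg _)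
    exact lt_of_le_of_ne p1 (fun h => by rw [← h] at h4; norm_num at h4)
  have hζA : ∀ x, Complex.normSq (ζ * A x) = Complex.normSq (A x) := by
    intro x
    rw [Complex.normSq_mul, hζns, one_mul]
  set W : X → ℂ := fun x => (A (g x) * (starRingEnd ℂ) (ζ * A x) + B (g x) * (starRingEnd ℂ) (B x)) /
    ((Complex.normSq (ζ * A x) + Complex.normSq (B x) : ℝ) : ℂ) with hW
  have hWp : ∀ x, W x * (ζ * A x) = A (g x) ∧ W x * B x = B (g x) ∧ (A (g x) ≠ 0 ∨ B (g x) ≠ 0) := by
    intro x
    obtain ⟨l, hl, h1, h2⟩ := hAB x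
    obtain ⟨l', hl', h1', h2'⟩ := hAB (g x)
    refine hopf_unique (ζ * A x) (B x) (A (g x)) (B (g x)) (l' / l) (div_pos hl' hl) ?_ ?_ ?_
    · rw [h1', (heq x trivial).1]
      have : 2 * (ζ * A x) * (starRingEnd ℂ) (B x) = ζ * (l * c x) := by
        rw [← h1]; ring
      rw [this]
      have hlC : (l : ℂ) ≠ 0 := by exact_mod_cast hl.ne'
      push_cast
      field_simp
    · rw [h2', hζA, h2, (heq x trivial).2]
      field_simp
    · rw [hζA]
      exact hN x
  have hWc : Continuous W := by
    have hgc1 : Continuous g := g.continuous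
    have hden : Continuous fun x => ((Complex.normSq (ζ * A x) + Complex.normSq (B x) : ℝ) : ℂ) :=
      Complex.continuous_ofReal.comp
        ((Complex.continuous_normSq.comp (continuous_const.mul hA)).add
          (Complex.continuous_normSq.comp hB))
    refine Continuous.div ?_ hden ?_
    · exact ((hA.comp hgc1).mul (Complex.continuous_conj.comp (continuous_const.mul hA))).add
        ((hB.comp hgc1).mul (Complex.continuous_conj.comp hB))
    · intro x
      rw [hζA]
      exact_mod_cast (hN x).ne'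
  have hW0 : ∀ x, W x ≠ 0 := by
    intro x h
    obtain ⟨h1, h2, h3⟩ := hWp x
    rw [h, zero_mul] at h1 h2
    rcases h3 with h3 | h3
    · exact h3 h1.symm
    · exact h3 h2.symm
  obtain ⟨w, hwc, hw⟩ := hlog W hWc hW0
  set m := p ^ a with hm
  have hmpos : 0 < m := pow_pos hp.pos _
  have hprod : ∀ x, ∀ k : ℕ, A (g^[k] x) = (∏ i ∈ Finset.range k, W (g^[i] x)) * (ζ ^ k * A x) ∧
      B (g^[k] x) = (∏ i ∈ Finset.range k, W (g^[i] x)) * B x := by
    intro x k
    induction k with
    | zero => simp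
    | succ k ih =>
      rw [Function.iterate_succ_apply', Finset.prod_range_succ, ← (hWp (g^[k] x)).1,
        ← (hWp (g^[k] x)).2.1, ih.1, ih.2]
      constructor <;> ring
  have hprod1 : ∀ x, ∏ i ∈ Finset.range m, W (g^[i] x) = 1 := by
    intro x
    obtain ⟨h1, h2⟩ := hprod x m
    rw [hg x, hζpow a ha, one_mul] at h1
    rw [hg x] at h2
    have hne : A x ≠ 0 ∨ B x ≠ 0 := by
      by_contra hcon
      push Not at hcon
      have := hN x
      rw [hcon.1, hcon.2] at this
      simp at this
    rcases hne with h | h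
    · have : (∏ i ∈ Finset.range m, W (g^[i] x)) * A x = 1 * A x := by rw [← h1, one_mul]
      exact mul_right_cancel₀ h this
    · have : (∏ i ∈ Finset.range m, W (g^[i] x)) * B x = 1 * B x := by rw [← h2, one_mul]
      exact mul_right_cancel₀ h this
  set S : X → ℂ := fun x => ∑ i ∈ Finset.range m, w (g^[i] x) with hS
  have hSc : Continuous S := continuous_finsetSum _ fun i _ => hwc.comp (hgc i)
  have hexp : ∀ x, Complex.exp (S x) = 1 := by
    intro x
    rw [hS]
    simp only
    rw [Complex.exp_sum]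
    simp only [hw]
    exact hprod1 x
  have hint : ∀ x, ∃ n : ℤ, S x = n * (2 * Real.pi * Complex.I) := fun x =>
    Complex.exp_eq_one_iff.1 (hexp x)
  choose n hn using hint
  have hnc : Continuous n := by
    rw [Int.isClosedEmbedding_coe_real.isEmbedding.continuous_iff]
    have : (((↑) : ℤ → ℝ) ∘ n) = fun x => (S x / (2 * Real.pi * Complex.I)).re := by
      funext x
      rw [Function.comp_apply, hn x, mul_div_assoc, div_self Complex.two_pi_I_ne_zero, mul_one]
      simp
    rw [this]
    exact Complex.continuous_re.comp (hSc.div_const _)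
  have hnconst : n x1 = n x2 := PreconnectedSpace.constant inferInstance hnc
  have hSx : ∀ x, g x = x → S x = m * w x := by
    intro x hx
    rw [hS]
    simp only
    rw [Finset.sum_congr rfl (fun i _ => by rw [Function.iterate_fixed hx i]), Finset.sum_const,
      Finset.card_range, nsmul_eq_mul]
  have hww : w x1 = w x2 := by
    have h1 : S x1 = S x2 := by rw [hn x1, hn x2, hnconst]
    rw [hSx x1 hx1, hSx x2 hx2] at h1
    have hmC : (m : ℂ) ≠ 0 := by exact_mod_cast hmpos.ne'
    exact mul_left_cancel₀ hmC h1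
  have hWW : W x1 = W x2 := by rw [← hw x1, ← hw x2, hww]
  have hg1 : g x1 = x1 := hx1
  have hg2 : g x2 = x2 := hx2
  have hW1 : W x1 = 1 := by
    obtain ⟨l, hl, h1, h2⟩ := hAB x1
    have hr : r x1 = -1 := by rw [(h0 x1 hg1).2, hr0]; simp [hx1K]
    rw [hr] at h2
    have hB0 : B x1 ≠ 0 := by
      intro h
      rw [h, map_zero, sub_zero] at h2
      have := Complex.normSq_nonneg (A x1)
      linarith
    have h3 := (hWp x1).2.1
    rw [hg1] at h3
    exact mul_right_cancel₀ hB0 (by rw [h3, one_mul])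
  have hW2 : W x2 * ζ = 1 := by
    obtain ⟨l, hl, h1, h2⟩ := hAB x2
    have hx2K1 : x2 ∉ K1 := fun h => hdisj x2 hg2 h hx2K
    have hr : r x2 = 1 := by rw [(h0 x2 hg2).2, hr0]; simp [hx2K1]
    rw [hr] at h2
    have hA0 : A x2 ≠ 0 := by
      intro h
      rw [h, map_zero, zero_sub] at h2
      have := Complex.normSq_nonneg (B x2)
      linarith
    have h3 := (hWp x2).1
    rw [hg2] at h3
    exact mul_right_cancel₀ hA0 (by rw [mul_assoc, h3, one_mul])
  rw [← hWW, hW1, one_mul] at hW2
  exact hζ1 hW2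

end Pool.Agent.Helper475.DL
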