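import Pool.Agent.Helper475.DLBase
set_option autoImplicit false
namespace Pool.Agent.Helper475.DL


open Filter Topology

/-- averaging over the cyclic group -/
theorem avg_exists {X : Type} [TopologicalSpace X] {𝕜 : Type} [RCLike 𝕜] (g : X ≃ₜ X) (m : ℕ)
    (hm : 0 < m) (ζ : 𝕜) (hζ : ζ ^ m = 1) (f : X → 𝕜) (hf : Continuous f) :
    ∃ F : X → 𝕜, Continuous F ∧ (∀ x, g^[m] x = x → F (g x) = ζ * F x) ∧
      ∀ x, (∀ j : ℕ, f (g^[j] x) = ζ ^ j * f x) → F x = f x := by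
  have hζ0 : ζ ≠ 0 := by
    rintro rfl
    rw [zero_pow hm.ne'] at hζ
    exact zero_ne_one hζ
  have hm0 : (m : 𝕜) ≠ 0 := by exact_mod_cast hm.ne'
  refine ⟨fun x => (m : 𝕜)⁻¹ * ∑ j ∈ Finset.range m, (ζ⁻¹) ^ j * f (g^[j] x), ?_, ?_, ?_⟩
  · refine continuous_const.mul (continuous_finsetSum _ fun j _ => continuous_const.mul ?_)
    exact hf.comp (g.continuous.iterate j)
  · intro x hx
    have h1 : ∑ j ∈ Finset.range m, (ζ⁻¹) ^ (j + 1) * f (g^[j + 1] x) =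
        ∑ j ∈ Finset.range m, (ζ⁻¹) ^ j * f (g^[j] x) := by
      have h2 := Finset.sum_range_succ (fun j => (ζ⁻¹) ^ j * f (g^[j] x)) m
      have h3 := Finset.sum_range_succ' (fun j => (ζ⁻¹) ^ j * f (g^[j] x)) m
      rw [h2] at h3
      rw [hx, inv_pow, hζ, inv_one] at h3
      simp only [pow_zero, Function.iterate_zero, id_eq] at h3
      exact (add_right_cancel h3).symm
    show (m : 𝕜)⁻¹ * ∑ j ∈ Finset.range m, (ζ⁻¹) ^ j * f (g^[j] (g x)) =
      ζ * ((m : 𝕜)⁻¹ * ∑ j ∈ Finset.range m, (ζ⁻¹) ^ j * f (g^[j] x))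
    rw [← h1, ← mul_assoc, mul_comm ζ, mul_assoc]
    congr 1
    rw [Finset.mul_sum]
    refine Finset.sum_congr rfl fun j _ => ?_
    rw [← Function.iterate_succ_apply, pow_succ]
    field_simp
  · intro x hx
    have h1 : ∀ j ∈ Finset.range m, (ζ⁻¹) ^ j * f (g^[j] x) = f x := by
      intro j _
      rw [hx j, ← mul_assoc, ← mul_pow, inv_mul_cancel₀ hζ0, one_pow, one_mul]
    show (m : 𝕜)⁻¹ * ∑ j ∈ Finset.range m, (ζ⁻¹) ^ j * f (g^[j] x) = f x
    rw [Finset.sum_congr rfl h1, Finset.sum_const, Finset.card_range, nsmul_eq_mul, ← mul_assoc,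
      inv_mul_cancel₀ hm0, one_mul]

theorem closed_nhd_exists {X : Type} [MetricSpace X] (g : X ≃ₜ X) (m : ℕ) (x : X)
    (hx : ∀ j, 0 < j → j < m → g^[j] x ≠ x) :
    ∃ N ∈ 𝓝 x, IsClosed N ∧ ∀ j, 0 < j → j < m → ∀ y ∈ N, g^[j] y ∉ N := by
  have h1 : ∀ j ∈ Finset.range m, ∃ W ∈ 𝓝 x, 0 < j → ∀ y ∈ W, g^[j] y ∉ W := by
    intro j hj
    rcases Nat.eq_zero_or_pos j with h0 | h0
    · exact ⟨Set.univ, univ_mem, fun h => absurd h0 h.ne'⟩
    · obtain ⟨U, V, hU, hV, hxU, hxV, hd⟩ :=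
        t2_separation (hx j h0 (Finset.mem_range.1 hj)).symm
      refine ⟨U ∩ g^[j] ⁻¹' V, inter_mem (hU.mem_nhds hxU)
        ((g.continuous.iterate j).continuousAt.preimage_mem_nhds (hV.mem_nhds hxV)), ?_⟩
      intro _ y hy hy'
      exact Set.disjoint_left.1 hd hy'.1 hy.2
  choose! W hW1 hW2 using h1
  have h2 : (⋂ j ∈ Finset.range m, W j) ∈ 𝓝 x :=
    (Filter.biInter_finset_mem _).2 fun j hj => hW1 j hj
  obtain ⟨N, hN, hNc, hNW⟩ := exists_mem_nhds_isClosed_subset h2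
  refine ⟨N, hN, hNc, ?_⟩
  intro j h0 hj y hy hy'
  have hj' := Finset.mem_range.2 hj
  exact hW2 j hj' h0 y (Set.mem_iInter₂.1 (hNW hy) j hj') (Set.mem_iInter₂.1 (hNW hy') j hj')

/-- extension of an equivariant pair from a closed invariant set `Y'` to a closed invariant `Y`
such that the orbits in `Y \ Y'` have exactly `m` points. -/
theorem stratum_ext {X : Type} [MetricSpace X] [CompactSpace X]
    (g : X ≃ₜ X) (m : ℕ) (hm : 0 < m) (ζ : ℂ) (hζ : ζ ^ m = 1)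
    (hpiece : ∀ (D : Set X), IsClosed D → (∀ x, g x ∈ D ↔ x ∈ D) →
      ∀ (A : Set X), IsClosed A → (∀ x ∈ A, g^[m] x = x) →
      (∀ j, 0 < j → j < m → ∀ x ∈ A, g^[j] x ∉ A) →
      ∀ (c : X → ℂ) (r : X → ℝ), EqPair g ζ D c r →
      ∃ c' : X → ℂ, ∃ r' : X → ℝ,
        EqPair g ζ (D ∪ {x | ∃ j < m, ∃ a ∈ A, g^[j] a = x}) c' r' ∧
        ∀ x ∈ D, c' x = c x ∧ r' x = r x)
    (Y Y' : Set X) (hYY : Y' ⊆ Y) (hY : IsClosed Y) (hY' : IsClosed Y')
    (hYg : ∀ x, g x ∈ Y ↔ x ∈ Y) (hYg' : ∀ x, g x ∈ Y' ↔ x ∈ Y')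
    (hYm : ∀ x ∈ Y, g^[m] x = x)
    (hfree : ∀ x ∈ Y, x ∉ Y' → ∀ j, 0 < j → j < m → g^[j] x ≠ x)
    (c : X → ℂ) (r : X → ℝ) (h : EqPair g ζ Y' c r) :
    ∃ c' : X → ℂ, ∃ r' : X → ℝ, EqPair g ζ Y c' r' ∧ ∀ x ∈ Y', c' x = c x ∧ r' x = r x := by
  obtain ⟨hc, hr, hne, heq⟩ := h
  have hζ1 : ‖ζ‖ = 1 := by
    have h1 : ‖ζ‖ ^ m = 1 := by rw [← norm_pow, hζ, norm_one]
    exact (pow_eq_one_iff_of_nonneg (norm_nonneg _) hm.ne').1 h1
  -- Tietze
  obtain ⟨C1, hC1⟩ := ContinuousMap.exists_restrict_eq hY' (⟨Y'.domRestrict c,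
    continuousOn_iff_continuous_domRestrict.1 hc⟩ : C(Y', ℂ))
  obtain ⟨R1, hR1⟩ := ContinuousMap.exists_restrict_eq hY' (⟨Y'.domRestrict r,
    continuousOn_iff_continuous_domRestrict.1 hr⟩ : C(Y', ℝ))
  have hC1' : ∀ x ∈ Y', C1 x = c x := fun x hx => DFunLike.congr_fun hC1 ⟨x, hx⟩
  have hR1' : ∀ x ∈ Y', R1 x = r x := fun x hx => DFunLike.congr_fun hR1 ⟨x, hx⟩
  obtain ⟨c2, hc2, hc2g, hc2e⟩ := avg_exists g m hm ζ hζ C1 C1.continuous
  obtain ⟨r2, hr2, hr2g, hr2e⟩ := avg_exists g m hm (1 : ℝ) (one_pow m) R1 R1.continuous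
  have hit : ∀ j : ℕ, ∀ x ∈ Y', g^[j] x ∈ Y' ∧ c (g^[j] x) = ζ ^ j * c x ∧ r (g^[j] x) = r x := by
    intro j x hx
    induction j with
    | zero => exact ⟨hx, by simp, rfl⟩
    | succ j ih =>
      obtain ⟨h1, h2, h3⟩ := ih
      rw [Function.iterate_succ_apply']
      refine ⟨(hYg' _).2 h1, ?_, ?_⟩
      · rw [(heq _ h1).1, h2, pow_succ]
        ring
      · rw [(heq _ h1).2, h3]
  have hc2' : ∀ x ∈ Y', c2 x = c x := by
    intro x hx
    rw [hc2e x (fun j => by rw [hC1' _ (hit j x hx).1, hC1' _ hx, (hit j x hx).2.1]), hC1' _ hx]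
  have hr2' : ∀ x ∈ Y', r2 x = r x := by
    intro x hx
    rw [hr2e x (fun j => by
      rw [hR1' _ (hit j x hx).1, hR1' _ hx, (hit j x hx).2.2, one_pow, one_mul]), hR1' _ hx]
  have hc2Y : ∀ x ∈ Y, c2 (g x) = ζ * c2 x := fun x hx => hc2g x (hYm x hx)
  have hr2Y : ∀ x ∈ Y, r2 (g x) = r2 x := fun x hx => by rw [hr2g x (hYm x hx), one_mul]
  set F : X → ℝ := fun x => ‖c2 x‖ ^ 2 + r2 x ^ 2 with hF
  have hFc : Continuous F := (hc2.norm.pow 2).add (hr2.pow 2)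
  have hFg : ∀ x ∈ Y, F (g x) = F x := by
    intro x hx
    simp only [hF]
    rw [hc2Y x hx, hr2Y x hx, norm_mul, hζ1, one_mul]
  have hFpos : ∀ x ∈ Y', 0 < F x := by
    intro x hx
    simp only [hF]
    rw [hc2' x hx, hr2' x hx]
    rcases hne x hx with h1 | h1
    · have := norm_pos_iff.2 h1
      positivity
    · have := sq_pos_of_ne_zero h1
      positivity
  obtain ⟨τ, hτ0, hτ⟩ : ∃ τ : ℝ, 0 < τ ∧ ∀ x ∈ Y', τ < F x := by
    rcases Y'.eq_empty_or_nonempty with h0 | h0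
    · exact ⟨1, one_pos, fun x hx => by rw [h0] at hx; exact absurd hx (Set.notMem_empty x)⟩
    · obtain ⟨x0, hx0, hmin⟩ := hY'.isCompact.exists_isMinOn h0 hFc.continuousOn
      refine ⟨F x0 / 2, half_pos (hFpos x0 hx0), fun x hx => ?_⟩
      have := isMinOn_iff.1 hmin x hx
      linarith [hFpos x0 hx0]
  have hYit : ∀ j : ℕ, ∀ x ∈ Y, g^[j] x ∈ Y := by
    intro j x hx
    induction j with
    | zero => exact hx
    | succ j ih =>
      rw [Function.iterate_succ_apply']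
      exact (hYg _).2 ih
  -- the main induction
  have hind : ∀ S : Set X, IsCompact S → S ⊆ Y → Disjoint S Y' →
      ∀ (D : Set X), IsClosed D → (∀ x, g x ∈ D ↔ x ∈ D) → D ⊆ Y →
      ∀ (c : X → ℂ) (r : X → ℝ), EqPair g ζ D c r →
      ∃ D' : Set X, IsClosed D' ∧ (∀ x, g x ∈ D' ↔ x ∈ D') ∧ D ⊆ D' ∧ D' ⊆ Y ∧ S ⊆ D' ∧
        ∃ c' : X → ℂ, ∃ r' : X → ℝ, EqPair g ζ D' c' r' ∧ ∀ x ∈ D, c' x = c x ∧ r' x = r x := by
    intro S hS hSY hSd
    refine hS.induction_on (p := fun S : Set X =>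
      ∀ (D : Set X), IsClosed D → (∀ x, g x ∈ D ↔ x ∈ D) → D ⊆ Y →
      ∀ (c : X → ℂ) (r : X → ℝ), EqPair g ζ D c r →
      ∃ D' : Set X, IsClosed D' ∧ (∀ x, g x ∈ D' ↔ x ∈ D') ∧ D ⊆ D' ∧ D' ⊆ Y ∧ S ⊆ D' ∧
        ∃ c' : X → ℂ, ∃ r' : X → ℝ, EqPair g ζ D' c' r' ∧ ∀ x ∈ D, c' x = c x ∧ r' x = r x)
      ?_ ?_ ?_ ?_
    · intro D h1 h2 h3 c r h4
      exact ⟨D, h1, h2, le_rfl, h3, Set.empty_subset _, c, r, h4, fun x _ => ⟨rfl, rfl⟩⟩
    · intro s t hst ht D h1 h2 h3 c r h4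
      obtain ⟨D', a1, a2, a3, a4, a5, a6⟩ := ht D h1 h2 h3 c r h4
      exact ⟨D', a1, a2, a3, a4, hst.trans a5, a6⟩
    · intro s t hs ht D h1 h2 h3 c r h4
      obtain ⟨D', a1, a2, a3, a4, a5, c', r', a6, a7⟩ := hs D h1 h2 h3 c r h4
      obtain ⟨D'', b1, b2, b3, b4, b5, c'', r'', b6, b7⟩ := ht D' a1 a2 a4 c' r' a6
      refine ⟨D'', b1, b2, a3.trans b3, b4, Set.union_subset (a5.trans b3) b5, c'', r'', b6, ?_⟩
      intro x hx
      rw [(b7 x (a3 hx)).1, (b7 x (a3 hx)).2]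
      exact a7 x hx
    · intro x hx
      obtain ⟨N, hN, hNc, hNf⟩ := closed_nhd_exists g m x
        (hfree x (hSY hx) (Set.disjoint_left.1 hSd hx))
      refine ⟨N ∩ Y, inter_mem (mem_nhdsWithin_of_mem_nhds hN)
        (mem_of_superset self_mem_nhdsWithin hSY), ?_⟩
      intro D h1 h2 h3 c r h4
      obtain ⟨c', r', h5, h6⟩ := hpiece D h1 h2 (N ∩ Y) (hNc.inter hY) (fun y hy => hYm y hy.2)
        (fun j j0 jm y hy hy' => hNf j j0 jm y hy.1 hy'.1) c r h4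
      refine ⟨D ∪ {x | ∃ j < m, ∃ a ∈ N ∩ Y, g^[j] a = x}, ?_, ?_, Set.subset_union_left, ?_, ?_,
        c', r', h5, h6⟩
      · have h7 : {x | ∃ j < m, ∃ a ∈ N ∩ Y, g^[j] a = x} =
            ⋃ j ∈ Finset.range m, g^[j] '' (N ∩ Y) := by
          ext y
          simp only [Set.mem_iUnion, Finset.mem_range, Set.mem_image, exists_prop]
          rfl
        rw [h7]
        refine h1.union (isClosed_biUnion_finset fun j _ => ?_)
        exact ((hNc.inter hY).isCompact.image (g.continuous.iterate j)).isClosed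
      · intro y
        have hO : g y ∈ {x | ∃ j < m, ∃ a ∈ N ∩ Y, g^[j] a = x} ↔
            y ∈ {x | ∃ j < m, ∃ a ∈ N ∩ Y, g^[j] a = x} := by
          constructor
          · rintro ⟨j, hj, a, ha, hja⟩
            rcases Nat.eq_zero_or_pos j with h0 | h0
            · refine ⟨m - 1, by omega, a, ha, ?_⟩
              apply g.injective
              rw [← Function.iterate_succ_apply' g, Nat.succ_eq_add_one, Nat.sub_add_cancel hm,
                hYm a ha.2, ← hja, h0]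
              rfl
            · refine ⟨j - 1, by omega, a, ha, ?_⟩
              apply g.injective
              rw [← Function.iterate_succ_apply' g, Nat.succ_eq_add_one, Nat.sub_add_cancel h0, hja]
          · rintro ⟨j, hj, a, ha, hja⟩
            rcases Nat.lt_or_ge (j + 1) m with h0 | h0
            · refine ⟨j + 1, h0, a, ha, ?_⟩
              rw [Function.iterate_succ_apply', hja]
            · refine ⟨0, hm, a, ha, ?_⟩
              have hj1 : j + 1 = m := by omega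
              rw [← hja, ← Function.iterate_succ_apply' g, Nat.succ_eq_add_one, hj1, hYm a ha.2]
              rfl
        rw [Set.mem_union, Set.mem_union, h2 y, hO]
      · rintro y (hy | ⟨j, hj, a, ha, rfl⟩)
        · exact h3 hy
        · exact hYit j a ha.2
      · intro y hy
        exact Or.inr ⟨0, hm, y, hy, rfl⟩
  have hD0c : IsClosed {x | x ∈ Y ∧ τ ≤ F x} := hY.inter (isClosed_le continuous_const hFc)
  have hEc : IsClosed {x | x ∈ Y ∧ F x ≤ τ} := hY.inter (isClosed_le hFc continuous_const)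
  obtain ⟨D', a1, a2, a3, a4, a5, c', r', a6, a7⟩ := hind {x | x ∈ Y ∧ F x ≤ τ} hEc.isCompact
    (fun x hx => hx.1) (Set.disjoint_left.2 fun x hx hx' => absurd hx.2 (not_le.2 (hτ x hx')))
    {x | x ∈ Y ∧ τ ≤ F x} hD0c (by
      intro x
      constructor
      · rintro ⟨h1, h2⟩
        have h3 := (hYg x).1 h1
        exact ⟨h3, by rwa [hFg x h3] at h2⟩
      · rintro ⟨h1, h2⟩
        exact ⟨(hYg x).2 h1, by rw [hFg x h1]; exact h2⟩) (fun x hx => hx.1) c2 r2 (by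
      refine ⟨hc2.continuousOn, hr2.continuousOn, ?_, ?_⟩
      · rintro x ⟨h1, h2⟩
        by_contra hcon
        push Not at hcon
        have : F x = 0 := by
          simp only [hF]
          rw [hcon.1, hcon.2]
          simp
        linarith
      · intro x hx
        exact ⟨hc2Y x hx.1, hr2Y x hx.1⟩)
  have hD' : D' = Y := by
    refine Set.Subset.antisymm a4 fun x hx => ?_
    rcases le_total (F x) τ with h1 | h1
    · exact a5 ⟨hx, h1⟩
    · exact a3 ⟨hx, h1⟩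
  rw [hD'] at a6
  refine ⟨c', r', a6, fun x hx => ?_⟩
  have h1 := a7 x ⟨hYY hx, (hτ x hx).le⟩
  rw [h1.1, h1.2]
  exact ⟨hc2' x hx, hr2' x hx⟩

end Pool.Agent.Helper475.DL
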