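import Pool.Agent.Helper475.DLFactor
import Pool.Agent.Helper475.DLLog
import Pool.Agent.Helper475.DLHopf
import Pool.Agent.Helper475.DLAvoid
import Pool.Agent.Helper475.DLExt
import Pool.Agent.Helper475.DLPiece
import Pool.Agent.Helper475.DLStratum
import Pool.Agent.Helper475.DLSmith
set_option autoImplicit false
namespace Pool.Agent.Helper475.DL

variable {X : Type} [MetricSpace X] [CompactSpace X]

theorem dl_log [Nonempty X] (hX : DiskLike X) (u : X → ℂ) (hu : Continuous u) (h0 : ∀ x, u x ≠ 0) :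
    ∃ L : X → ℂ, Continuous L ∧ ∀ x, Complex.exp (L x) = u x := by
  obtain ⟨x0, -, hx0⟩ := isCompact_univ.exists_isMinOn (Set.univ_nonempty (α := X))
    (hu.norm.continuousOn)
  have hx0' : ∀ x, ‖u x0‖ ≤ ‖u x‖ := fun x => hx0 (Set.mem_univ x)
  have hτ : 0 < ‖u x0‖ := norm_pos_iff.mpr (h0 x0)
  obtain ⟨f, v, hf, hfr, hv, hclose⟩ := approx_factor hX u hu (‖u x0‖ / 2) (by positivity)
  have hv0 : ∀ x, ‖u x0‖ / 2 < ‖v (f x)‖ := by
    intro x
    have h1 := hclose x
    have h2 := hx0' x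
    have h3 : ‖u x‖ ≤ ‖v (f x)‖ + ‖v (f x) - u x‖ := by
      have := norm_sub_le (v (f x)) (v (f x) - u x)
      simpa using this
    linarith
  have hmem : ∀ x, f x ∈ Metric.closedBall (0 : E2) 1 := fun x => hfr ▸ Set.mem_range_self x
  obtain ⟨L', hL'c, hL'⟩ := ball_log v hv.continuousOn (by
    intro y hy
    rw [← hfr] at hy
    obtain ⟨x, rfl⟩ := hy
    intro h
    have := hv0 x
    rw [h, norm_zero] at this
    linarith)
  have hvne : ∀ x, v (f x) ≠ 0 := by
    intro x h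
    have := hv0 x
    rw [h, norm_zero] at this
    linarith
  have hslit : ∀ x, u x / v (f x) ∈ Complex.slitPlane := by
    intro x
    have h1 : ‖u x / v (f x) - 1‖ < 1 := by
      have : u x / v (f x) - 1 = -((v (f x) - u x) / v (f x)) := by
        field_simp [hvne x]; ring
      rw [this, norm_neg, norm_div, div_lt_one (norm_pos_iff.mpr (hvne x))]
      exact (hclose x).trans (hv0 x)
    left
    have h2 := Complex.abs_re_le_norm (u x / v (f x) - 1)
    have h3 := abs_lt.mp (h2.trans_lt h1)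
    simp only [Complex.sub_re, Complex.one_re] at h3
    linarith [h3.1]
  refine ⟨fun x => L' (f x) + Complex.log (u x / v (f x)), ?_, ?_⟩
  · refine Continuous.add ?_ ?_
    · exact hL'c.comp_continuous hf hmem
    · refine Continuous.clog ?_ hslit
      exact hu.div (hv.comp hf) hvne
  · intro x
    rw [Complex.exp_add, hL' _ (hmem x), Complex.exp_log]
    · field_simp [hvne x]
    · exact div_ne_zero (h0 x) (hvne x)

theorem dl_hopf [Nonempty X] (hX : DiskLike X) (c : X → ℂ) (r : X → ℝ) (hc : Continuous c)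
    (hr : Continuous r) (h0 : ∀ x, c x ≠ 0 ∨ r x ≠ 0) :
    ∃ A B : X → ℂ, Continuous A ∧ Continuous B ∧ ∀ x, ∃ l : ℝ, 0 < l ∧
        2 * A x * (starRingEnd ℂ) (B x) = l * c x ∧
        Complex.normSq (A x) - Complex.normSq (B x) = l * r x := by
  have hcont : Continuous (fun x => ‖(c x, r x)‖) := (hc.prodMk hr).norm
  obtain ⟨x0, -, hx0⟩ := isCompact_univ.exists_isMinOn (Set.univ_nonempty (α := X))
    hcont.continuousOn
  have hx0' : ∀ x, ‖(c x0, r x0)‖ ≤ ‖(c x, r x)‖ := fun x => hx0 (Set.mem_univ x)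
  set τ := ‖(c x0, r x0)‖ with hτdef
  have hτ : 0 < τ := by
    rw [hτdef, norm_pos_iff]
    intro h
    rw [Prod.mk_eq_zero] at h
    rcases h0 x0 with h' | h'
    · exact h' h.1
    · exact h' h.2
  obtain ⟨f, v, hf, hfr, hv, hclose⟩ := approx_factor hX (fun x => (c x, r x)) (hc.prodMk hr)
    (τ / 4) (by positivity)
  have hmem : ∀ x, f x ∈ Metric.closedBall (0 : E2) 1 := fun x => hfr ▸ Set.mem_range_self x
  have hbig : ∀ x, 3 * τ / 4 < ‖v (f x)‖ := by
    intro x
    have h1 := hclose x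
    have h2 := hx0' x
    have h3 : ‖(c x, r x)‖ ≤ ‖v (f x)‖ + ‖v (f x) - (c x, r x)‖ := by
      have := norm_sub_le (v (f x)) (v (f x) - (c x, r x))
      simpa using this
    linarith
  have key : ∀ (z : ℂ × ℝ), ‖z‖ ^ 2 ≤ Complex.normSq z.1 + z.2 ^ 2 := by
    intro z
    rw [Prod.norm_def, Complex.normSq_eq_norm_sq]
    rcases max_cases ‖z.1‖ ‖z.2‖ with ⟨h, _⟩ | ⟨h, _⟩
    · rw [h]; nlinarith [sq_nonneg z.2]
    · rw [h, Real.norm_eq_abs, sq_abs]; nlinarith [sq_nonneg ‖z.1‖]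
  have key2 : ∀ (z : ℂ × ℝ), Complex.normSq z.1 + z.2 ^ 2 ≤ 2 * ‖z‖ ^ 2 := by
    intro z
    have h1 : ‖z.1‖ ≤ ‖z‖ := norm_fst_le z
    have h2 : ‖z.2‖ ≤ ‖z‖ := norm_snd_le z
    rw [Complex.normSq_eq_norm_sq]
    rw [Real.norm_eq_abs] at h2
    have h3 : z.2 ^ 2 ≤ ‖z‖ ^ 2 := by
      rw [← sq_abs z.2]; exact pow_le_pow_left₀ (abs_nonneg _) h2 2
    have h4 : ‖z.1‖ ^ 2 ≤ ‖z‖ ^ 2 := pow_le_pow_left₀ (norm_nonneg _) h1 2
    linarith
  have hball : HopfLift (Metric.closedBall (0 : E2) 1) (fun y => (v y).1) (fun y => (v y).2) := by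
    apply ball_hopf
    · exact (continuous_fst.comp hv).continuousOn
    · exact (continuous_snd.comp hv).continuousOn
    · intro y hy
      rw [← hfr] at hy
      obtain ⟨x, rfl⟩ := hy
      by_contra hcon
      push Not at hcon
      have h1 : v (f x) = 0 := Prod.ext hcon.1 hcon.2
      have := hbig x
      rw [h1, norm_zero] at this
      linarith
  have hpull : HopfLift (Set.univ : Set X) (fun x => (v (f x)).1) (fun x => (v (f x)).2) := by
    obtain ⟨A, B, hA, hB, hAB⟩ := hball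
    refine ⟨fun x => A (f x), fun x => B (f x), ?_, ?_, fun x _ => hAB (f x) (hmem x)⟩
    · exact (hA.comp_continuous hf hmem).continuousOn
    · exact (hB.comp_continuous hf hmem).continuousOn
  have hfin : HopfLift (Set.univ : Set X) c r := by
    refine hopf_step Set.univ _ c _ r hc.continuousOn hr.continuousOn ?_ ?_ hpull
    · intro x _
      by_contra hcon
      push Not at hcon
      have h1 : v (f x) = 0 := Prod.ext hcon.1 hcon.2
      have := hbig x
      rw [h1, norm_zero] at this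
      linarith
    · intro x _
      have h1 := key (v (f x))
      have h2 := key2 ((c x, r x) - v (f x))
      have h3 := hclose x
      have h4 := hbig x
      rw [norm_sub_rev] at h3
      have h5 : ‖(c x, r x) - v (f x)‖ ^ 2 ≤ (τ / 4) ^ 2 :=
        pow_le_pow_left₀ (norm_nonneg _) h3.le 2
      have h6 : (3 * τ / 4) ^ 2 ≤ ‖v (f x)‖ ^ 2 :=
        pow_le_pow_left₀ (by positivity) h4.le 2
      simp only [Prod.fst_sub, Prod.snd_sub] at h2
      nlinarith [sq_pos_of_pos hτ]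
  obtain ⟨A, B, hA, hB, hAB⟩ := hfin
  exact ⟨A, B, continuousOn_univ.mp hA, continuousOn_univ.mp hB, fun x => hAB x (Set.mem_univ x)⟩

theorem dl_dense (hX : DiskLike X) (c : X → ℂ) (r : X → ℝ) (hc : Continuous c)
    (hr : Continuous r) (η : ℝ) (hη : 0 < η) :
    ∃ c' : X → ℂ, ∃ r' : X → ℝ, Continuous c' ∧ Continuous r' ∧
        (∀ x, c' x ≠ 0 ∨ r' x ≠ 0) ∧ ∀ x, ‖c' x - c x‖ < η ∧ |r' x - r x| < η := by
  obtain ⟨f, v, hf, hfr, hv, hclose⟩ := approx_factor hX (fun x => (c x, r x)) (hc.prodMk hr)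
    (η / 2) (by positivity)
  have hmem : ∀ x, f x ∈ Metric.closedBall (0 : E2) 1 := fun x => hfr ▸ Set.mem_range_self x
  obtain ⟨c', r', hc', hr', hne, hcl⟩ := ball_avoid (fun y => (v y).1) (fun y => (v y).2)
    (continuous_fst.comp hv) (continuous_snd.comp hv) (η / 2) (by positivity)
  refine ⟨fun x => c' (f x), fun x => r' (f x), hc'.comp hf, hr'.comp hf,
    fun x => hne _ (hmem x), fun x => ?_⟩
  obtain ⟨h1, h2⟩ := hcl (f x) (hmem x)
  have h3 := hclose x
  have h4 : ‖(v (f x)).1 - c x‖ < η / 2 := lt_of_le_of_lt (norm_fst_le (v (f x) - (c x, r x))) h3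
  have h5 : ‖(v (f x)).2 - r x‖ < η / 2 := lt_of_le_of_lt (norm_snd_le (v (f x) - (c x, r x))) h3
  constructor
  · calc ‖c' (f x) - c x‖ ≤ ‖c' (f x) - (v (f x)).1‖ + ‖(v (f x)).1 - c x‖ :=
          norm_sub_le_norm_sub_add_norm_sub _ _ _
      _ < η := by linarith
  · rw [Real.norm_eq_abs] at h5
    calc |r' (f x) - r x| ≤ |r' (f x) - (v (f x)).2| + |(v (f x)).2 - r x| := abs_sub_le _ _ _
      _ < η := by linarith

theorem dl_fix [ConnectedSpace X] (hX : DiskLike X) (g : X ≃ₜ X) (p : ℕ) (hp : p.Prime) (a : ℕ)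
    (hg : ∀ x, g^[p ^ a] x = x) : IsPreconnected {x : X | g x = x} := by
  have hext : ∀ (D : Set X), IsClosed D → ∀ (c : X → ℂ) (r : X → ℝ),
      ContinuousOn c D → ContinuousOn r D → (∀ x ∈ D, c x ≠ 0 ∨ r x ≠ 0) →
      ∃ c' : X → ℂ, ∃ r' : X → ℝ, Continuous c' ∧ Continuous r' ∧
        (∀ x, c' x ≠ 0 ∨ r' x ≠ 0) ∧ ∀ x ∈ D, c' x = c x ∧ r' x = r x :=
    fun D hD c r hc hr h0 => ext_of_dense (dl_dense hX) D hD c r hc hr h0
  refine fix_preconnected ?_ (dl_hopf hX) (dl_log hX) g p hp a hg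
  intro g m hm ζ hζ Y Y' hYY hY hY' hYg hYg' hYm hfree c r h
  refine stratum_ext g m hm ζ hζ ?_ Y Y' hYY hY hY' hYg hYg' hYm hfree c r h
  intro D hD hDg A hA hAm hdisj c r h
  exact piece_ext hext g m hm ζ hζ D hD hDg A hA hAm hdisj c r h

end Pool.Agent.Helper475.DL
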