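import Pool.Agent.Helper475.DLBurauB
set_option autoImplicit false
namespace Pool.Agent.Helper475.DL

section lc
/-- locally constant functions (uniformly) on preconnected sets are constant -/
theorem lc_const {X S : Type} [MetricSpace X] (K : Set X) (hK : IsPreconnected K) (F : X → S)
    (δ : ℝ) (hδ : 0 < δ) (h : ∀ x ∈ K, ∀ y ∈ K, dist x y < δ → F x = F y)
    (x y : X) (hx : x ∈ K) (hy : y ∈ K) : F x = F y := by
  by_contra hne
  let U : Set X := ⋃ z ∈ {z | z ∈ K ∧ F z = F x}, Metric.ball z (δ / 2)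
  let V : Set X := ⋃ z ∈ {z | z ∈ K ∧ F z ≠ F x}, Metric.ball z (δ / 2)
  have hU : IsOpen U := isOpen_biUnion fun _ _ => Metric.isOpen_ball
  have hV : IsOpen V := isOpen_biUnion fun _ _ => Metric.isOpen_ball
  have hcov : K ⊆ U ∪ V := by
    intro z hz
    by_cases hzx : F z = F x
    · left
      exact Set.mem_biUnion (show z ∈ {z | z ∈ K ∧ F z = F x} from ⟨hz, hzx⟩)
        (Metric.mem_ball_self (by positivity))
    · right
      exact Set.mem_biUnion (show z ∈ {z | z ∈ K ∧ F z ≠ F x} from ⟨hz, hzx⟩)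
        (Metric.mem_ball_self (by positivity))
  obtain ⟨w, hwK, hwU, hwV⟩ := hK U V hU hV hcov
    ⟨x, hx, Set.mem_biUnion (show x ∈ {z | z ∈ K ∧ F z = F x} from ⟨hx, rfl⟩)
        (Metric.mem_ball_self (by positivity))⟩
    ⟨y, hy, Set.mem_biUnion (show y ∈ {z | z ∈ K ∧ F z ≠ F x} from ⟨hy, fun h => hne h.symm⟩)
        (Metric.mem_ball_self (by positivity))⟩
  simp only [U, V, Set.mem_iUnion, Metric.mem_ball] at hwU hwV
  obtain ⟨z, ⟨hzK, hzx⟩, hwz⟩ := hwU
  obtain ⟨z', ⟨hzK', hzx'⟩, hwz'⟩ := hwV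
  have h1 : F w = F z := h w hwK z hzK (by linarith)
  have h2 : F w = F z' := h w hwK z' hzK' (by linarith)
  exact hzx' (h2.symm.trans (h1.trans hzx))
end lc

section keys
/-- horizontal key: lexicographic order -/
def kx (w : E2) : ℝ ×ₗ ℝ := toLex (w 0, w 1)
/-- vertical key -/
def ky (w : E2) : ℝ ×ₗ ℝ := toLex (w 1, w 0)

theorem kx_inj : Function.Injective kx := by
  intro a b h
  have h1 : (a 0, a 1) = (b 0, b 1) := toLex.injective h
  rw [Prod.mk.injEq] at h1
  ext i
  fin_cases i
  · exact h1.1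
  · exact h1.2

theorem ky_inj : Function.Injective ky := by
  intro a b h
  have h1 : (a 1, a 0) = (b 1, b 0) := toLex.injective h
  rw [Prod.mk.injEq] at h1
  ext i
  fin_cases i
  · exact h1.2
  · exact h1.1

theorem kx_le {a b : E2} (h : kx a < kx b) : a 0 ≤ b 0 := by
  rcases (Prod.Lex.toLex_lt_toLex.mp h) with h | h
  · exact h.le
  · exact h.1.le

theorem ky_le {a b : E2} (h : ky a < ky b) : a 1 ≤ b 1 := by
  rcases (Prod.Lex.toLex_lt_toLex.mp h) with h | h
  · exact h.le
  · exact h.1.le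

theorem dist_le_coord (a b : E2) : dist a b ≤ |a 0 - b 0| + |a 1 - b 1| := by
  rw [EuclideanSpace.dist_eq, Fin.sum_univ_two, Real.dist_eq, Real.dist_eq]
  rw [Real.sqrt_le_left (by positivity)]
  nlinarith [abs_nonneg (a 0 - b 0), abs_nonneg (a 1 - b 1)]

theorem coord_le_dist (a b : E2) (i : Fin 2) : |a i - b i| ≤ dist a b := by
  rw [EuclideanSpace.dist_eq, ← Real.dist_eq]
  apply Real.le_sqrt_of_sq_le
  exact Finset.single_le_sum (f := fun i => dist (a i) (b i) ^ 2) (fun _ _ => by positivity)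
    (Finset.mem_univ i)

theorem near_cond {r : ℝ} {a b a' b' a'' b'' : E2} (hr : r ≤ dist a' b')
    (h1 : dist a a' < r / 8) (h2 : dist b b' < r / 8) (h3 : dist a' a'' < r / 8)
    (h4 : dist b' b'' < r / 8) (hx : kx a' < kx b') (hx' : kx b'' < kx a'')
    (hab : a ≠ b) (hab' : a' ≠ b') : (ky a < ky b ↔ ky a' < ky b') := by
  have e1 := kx_le hx
  have e2 := kx_le hx'
  have c1 := (coord_le_dist a' a'' 0).trans_lt h3
  have c2 := (coord_le_dist b' b'' 0).trans_lt h4
  have d1 := (coord_le_dist a a' 1).trans_lt h1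
  have d2 := (coord_le_dist b b' 1).trans_lt h2
  have e3 := hr.trans (dist_le_coord a' b')
  rw [abs_lt] at c1 c2 d1 d2
  have e4 : |a' 0 - b' 0| < r / 4 := by rw [abs_lt]; constructor <;> linarith [c1.1, c1.2, c2.1, c2.2]
  have e5 : r / 4 < |a' 1 - b' 1| := by
    have : 0 < r := by
      have := dist_nonneg (x := a) (y := a')
      linarith
    linarith
  constructor
  · intro h
    rcases lt_or_gt_of_ne (fun hh => hab' (ky_inj hh)) with h' | h'
    · exact h'
    · exfalso
      have f1 := ky_le h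
      have f2 := ky_le h'
      have : |a' 1 - b' 1| ≤ r / 4 := by rw [abs_le]; constructor <;> linarith [d1.1, d1.2, d2.1, d2.2]
      linarith
  · intro h
    rcases lt_or_gt_of_ne (fun hh => hab (ky_inj hh)) with h' | h'
    · exact h'
    · exfalso
      have f1 := ky_le h
      have f2 := ky_le h'
      have : |a' 1 - b' 1| ≤ r / 4 := by rw [abs_le]; constructor <;> linarith [d1.1, d1.2, d2.1, d2.2]
      linarith
end keys

section transport
variable {ι : Type} [Fintype ι] [DecidableEq ι] {R : Type} [CommRing R]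

/-- `GM` as a unit (for injective labellings) -/
noncomputable def GU (t : R) (z z' : ι → E2) : (Matrix ι ι R)ˣ :=
  open Classical in
  if h : IsUnit (GM t (fun k => kx (z k)) (fun k => ky (z' k))) then h.unit else 1

theorem GU_val {t : R} (ht : IsUnit t) {z z' : ι → E2} (hz : Function.Injective z)
    (hz' : Function.Injective z') :
    ((GU t z z' : (Matrix ι ι R)ˣ) : Matrix ι ι R) = GM t (fun k => kx (z k)) (fun k => ky (z' k)) := by
  have h : IsUnit (GM t (fun k => kx (z k)) (fun k => ky (z' k))) :=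
    GM_isUnit t ht _ _ (kx_inj.comp hz) (ky_inj.comp hz')
  unfold GU
  rw [dif_pos h]
  rfl

/-- the transport from `z` to `z'` -/
noncomputable def TU (t : R) (z z' : ι → E2) : (Matrix ι ι R)ˣ := (GU t z' z)⁻¹ * GU t z z

theorem TU_val {t : R} (ht : IsUnit t) {z z' : ι → E2} (hz : Function.Injective z)
    (hz' : Function.Injective z') :
    ((TU t z z' : (Matrix ι ι R)ˣ) : Matrix ι ι R) =
      (GM t (fun k => kx (z' k)) (fun k => ky (z k)))⁻¹ *
        GM t (fun k => kx (z k)) (fun k => ky (z k)) := by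
  unfold TU
  rw [Units.val_mul, Matrix.coe_units_inv, GU_val ht hz' hz, GU_val ht hz hz]

theorem TU_cocycle {t : R} (ht : IsUnit t) {r : ℝ} {z z' z'' : ι → E2}
    (hz : Function.Injective z) (hz' : Function.Injective z') (hz'' : Function.Injective z'')
    (hr : ∀ k l, k ≠ l → r ≤ dist (z' k) (z' l))
    (h1 : ∀ k, dist (z k) (z' k) < r / 8) (h2 : ∀ k, dist (z' k) (z'' k) < r / 8) :
    TU t z z'' = TU t z' z'' * TU t z z' := by
  have key : (GU t z'' z)⁻¹ * GU t z' z = (GU t z'' z')⁻¹ * GU t z' z' := by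
    apply Units.ext
    rw [Units.val_mul, Units.val_mul, Matrix.coe_units_inv, Matrix.coe_units_inv,
      GU_val ht hz'' hz, GU_val ht hz' hz, GU_val ht hz'' hz', GU_val ht hz' hz']
    apply GM_transport t ht _ _ _ _ (kx_inj.comp hz') (kx_inj.comp hz'') (ky_inj.comp hz)
      (ky_inj.comp hz')
    intro k l hkl hkl'
    have hne : k ≠ l := by rintro rfl; exact lt_irrefl _ hkl
    exact near_cond (hr k l hne) (h1 k) (h1 l) (h2 k) (h2 l) hkl hkl'
      (fun h => hne (hz h)) (fun h => hne (hz' h))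
  unfold TU
  rw [show (GU t z'' z')⁻¹ * GU t z' z' * ((GU t z' z)⁻¹ * GU t z z) =
    ((GU t z'' z')⁻¹ * GU t z' z') * (GU t z' z)⁻¹ * GU t z z by group, ← key]
  group

end transport

end Pool.Agent.Helper475.DL
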