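import Pool.Agent.Helper475.DLBase
set_option autoImplicit false
namespace Pool.Agent.Helper475.DL


/-- A discrete local cocycle on the closed ball with values in any group is a coboundary. -/
theorem cocycle_ball {Γ : Type} [Group Γ] (c : E2 → E2 → Γ) (η : ℝ) (hη : 0 < η)
    (hc : ∀ x ∈ Metric.closedBall (0 : E2) 1, ∀ y ∈ Metric.closedBall (0 : E2) 1,
      ∀ z ∈ Metric.closedBall (0 : E2) 1, dist x y < η → dist y z < η → dist x z < η →
        c x z = c y z * c x y) :
    ∃ γ : E2 → Γ, ∃ δ > 0, ∀ x ∈ Metric.closedBall (0 : E2) 1,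
      ∀ y ∈ Metric.closedBall (0 : E2) 1, dist x y < δ → c x y = γ y * (γ x)⁻¹ := by
  have hcxx : ∀ x ∈ Metric.closedBall (0 : E2) 1, c x x = 1 := by
    intro x hx
    have h := hc x hx x hx x hx (by simpa using hη) (by simpa using hη) (by simpa using hη)
    exact (mul_eq_left.1 h.symm)
  obtain ⟨m, hm⟩ := exists_nat_gt (4 / η)
  have hm0 : (0 : ℝ) < m := lt_trans (by positivity) hm
  have hm1 : 1 / (m : ℝ) < η / 4 := by
    rw [div_lt_iff₀ hη] at hm
    rw [div_lt_iff₀ hm0]
    linarith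
  obtain ⟨p, hp⟩ : ∃ p : ℕ → E2 → E2, ∀ j y, p j y = ((j : ℝ) / m) • y := ⟨_, fun _ _ => rfl⟩
  let a : ℕ → E2 → Γ := fun j => Nat.rec (fun _ => 1) (fun j aj y => c (p j y) (p (j + 1) y) * aj y) j
  have ha0 : ∀ y, a 0 y = 1 := fun _ => rfl
  have has : ∀ j y, a (j + 1) y = c (p j y) (p (j + 1) y) * a j y := fun _ _ => rfl
  have hpb : ∀ j : ℕ, j ≤ m → ∀ y ∈ Metric.closedBall (0 : E2) 1,
      p j y ∈ Metric.closedBall (0 : E2) 1 := by
    intro j hj y hy
    rw [mem_closedBall_zero_iff] at *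
    rw [hp, norm_smul, Real.norm_eq_abs, abs_of_nonneg (by positivity)]
    have h1 : (j : ℝ) / m ≤ 1 := by
      rw [div_le_one hm0]
      exact_mod_cast hj
    have h2 : 0 ≤ (j : ℝ) / m := by positivity
    nlinarith [norm_nonneg y]
  have hpd : ∀ j : ℕ, j ≤ m → ∀ y z : E2, dist (p j y) (p j z) ≤ dist y z := by
    intro j hj y z
    rw [hp, hp, dist_eq_norm, dist_eq_norm, ← smul_sub, norm_smul, Real.norm_eq_abs,
      abs_of_nonneg (by positivity)]
    have h1 : (j : ℝ) / m ≤ 1 := by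
      rw [div_le_one hm0]
      exact_mod_cast hj
    nlinarith [norm_nonneg (y - z)]
  have hps : ∀ j : ℕ, ∀ y ∈ Metric.closedBall (0 : E2) 1, dist (p j y) (p (j + 1) y) ≤ 1 / m := by
    intro j y hy
    rw [mem_closedBall_zero_iff] at hy
    rw [hp, hp, dist_eq_norm, ← sub_smul, norm_smul, Real.norm_eq_abs]
    have h1 : (j : ℝ) / m - ((j + 1 : ℕ) : ℝ) / m = -(1 / m) := by
      push_cast
      ring
    rw [h1, abs_neg, abs_of_nonneg (by positivity)]
    have h2 : 0 ≤ 1 / (m : ℝ) := by positivity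
    nlinarith [norm_nonneg y]
  have key : ∀ y ∈ Metric.closedBall (0 : E2) 1, ∀ y' ∈ Metric.closedBall (0 : E2) 1,
      dist y y' < η / 2 → ∀ j : ℕ, j ≤ m → a j y' = c (p j y) (p j y') * a j y := by
    intro y hy y' hy' hd j
    induction j with
    | zero =>
      intro _
      rw [ha0, ha0, hp, hp]
      simp only [Nat.cast_zero, zero_div, zero_smul, mul_one]
      exact (hcxx 0 (by simp)).symm
    | succ j ih =>
      intro hj
      have hj' : j ≤ m := by omega
      have d1 : dist (p j y) (p j y') < η / 2 := (hpd j hj' y y').trans_lt hd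
      have d2 : dist (p (j + 1) y) (p (j + 1) y') < η / 2 := (hpd (j + 1) hj y y').trans_lt hd
      have d3 : dist (p j y) (p (j + 1) y) < η / 4 := (hps j y hy).trans_lt hm1
      have d4 : dist (p j y') (p (j + 1) y') < η / 4 := (hps j y' hy').trans_lt hm1
      have d5 : dist (p j y) (p (j + 1) y') < η := by
        have := dist_triangle (p j y) (p j y') (p (j + 1) y')
        linarith
      have t1 := hc (p j y) (hpb j hj' y hy) (p j y') (hpb j hj' y' hy') (p (j + 1) y')
        (hpb (j + 1) hj y' hy') (by linarith) (by linarith) d5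
      have t2 := hc (p j y) (hpb j hj' y hy) (p (j + 1) y) (hpb (j + 1) hj y hy) (p (j + 1) y')
        (hpb (j + 1) hj y' hy') (by linarith) (by linarith) d5
      rw [has, has, ih hj', ← mul_assoc, ← t1, ← mul_assoc, ← t2]
  refine ⟨a m, η / 2, by positivity, fun x hx y hy hxy => ?_⟩
  have h := key x hx y hy hxy m le_rfl
  have e1 : ∀ z, p m z = z := by
    intro z
    rw [hp, div_self hm0.ne', one_smul]
  rw [e1, e1] at h
  rw [h, mul_inv_cancel_right]


/-- Discrete local cocycles on a disk-like continuum are coboundaries. -/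
theorem cocycle_trivial {X : Type} [MetricSpace X] [CompactSpace X] (hX : DiskLike X)
    {Γ : Type} [Group Γ] (c : X → X → Γ) (ε : ℝ) (hε : 0 < ε)
    (hc : ∀ x y z : X, dist x y < ε → dist y z < ε → dist x z < ε → c x z = c y z * c x y) :
    ∃ γ : X → Γ, ∃ δ > 0, ∀ x y : X, dist x y < δ → c x y = γ y * (γ x)⁻¹ := by
  obtain ⟨f, hf, hrange, hdiam⟩ := hX ε hε
  -- the modulus
  obtain ⟨η, hη, hmod⟩ : ∃ η > 0, ∀ x x' : X, dist (f x) (f x') < η → dist x x' < ε := by
    have hK : IsCompact {q : X × X | ε ≤ dist q.1 q.2} :=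
      (isClosed_le continuous_const continuous_dist).isCompact
    rcases Set.eq_empty_or_nonempty {q : X × X | ε ≤ dist q.1 q.2} with he | hne
    · refine ⟨1, one_pos, fun x x' _ => ?_⟩
      by_contra h
      have : (x, x') ∈ {q : X × X | ε ≤ dist q.1 q.2} := not_lt.1 h
      rw [he] at this
      exact this
    · have hcont : Continuous (fun q : X × X => dist (f q.1) (f q.2)) :=
        (hf.comp continuous_fst).dist (hf.comp continuous_snd)
      obtain ⟨q, hq, hmin⟩ := hK.exists_isMinOn hne hcont.continuousOn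
      have hpos : 0 < dist (f q.1) (f q.2) := by
        rw [dist_pos]
        intro hfq
        have h1 : dist q.1 q.2 ≤ Metric.diam (f ⁻¹' {f q.2}) := by
          refine Metric.dist_le_diam_of_mem ?_ ?_ ?_
          · exact (isCompact_univ.isBounded).subset (Set.subset_univ _)
          · exact hfq
          · exact rfl
        have h2 := hdiam (f q.2)
        have h3 : ε ≤ dist q.1 q.2 := hq
        linarith
      refine ⟨dist (f q.1) (f q.2), hpos, fun x x' hxx => ?_⟩
      by_contra h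
      have h1 : (x, x') ∈ {q : X × X | ε ≤ dist q.1 q.2} := not_lt.1 h
      have h2 := hmin h1
      simp only [Set.mem_ofPred_eq] at h2
      linarith
  -- the section
  have hsec : ∀ y : E2, ∃ x : X, y ∈ Metric.closedBall (0 : E2) 1 → f x = y := by
    intro y
    by_cases hy : y ∈ Metric.closedBall (0 : E2) 1
    · have : y ∈ Set.range f := by rw [hrange]; exact hy
      obtain ⟨x, hx⟩ := this
      exact ⟨x, fun _ => hx⟩
    · have h0 : (0 : E2) ∈ Set.range f := by rw [hrange]; simp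
      obtain ⟨x, _⟩ := h0
      exact ⟨x, fun h => absurd h hy⟩
  choose s hs using hsec
  have hfb : ∀ x, f x ∈ Metric.closedBall (0 : E2) 1 := by
    intro x
    rw [← hrange]
    exact Set.mem_range_self x
  have hsf : ∀ x, f (s (f x)) = f x := fun x => hs _ (hfb x)
  obtain ⟨γ', δ', hδ', hγ'⟩ := cocycle_ball (fun y y' => c (s y) (s y')) η hη (by
    intro x hx y hy z hz hxy hyz hxz
    refine hc _ _ _ (hmod _ _ ?_) (hmod _ _ ?_) (hmod _ _ ?_)
    · rw [hs x hx, hs y hy]; exact hxy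
    · rw [hs y hy, hs z hz]; exact hyz
    · rw [hs x hx, hs z hz]; exact hxz)
  have huc : UniformContinuous f := CompactSpace.uniformContinuous_of_continuous hf
  obtain ⟨δ, hδ, hδf⟩ := Metric.uniformContinuous_iff.1 huc (min η δ') (lt_min hη hδ')
  refine ⟨fun x => c (s (f x)) x * γ' (f x), δ, hδ, fun x y hxy => ?_⟩
  have hd := hδf hxy
  have hd1 : dist (f x) (f y) < η := lt_of_lt_of_le hd (min_le_left _ _)
  have hd2 : dist (f x) (f y) < δ' := lt_of_lt_of_le hd (min_le_right _ _)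
  have g := hγ' (f x) (hfb x) (f y) (hfb y) hd2
  have t1 := hc (s (f x)) (s (f y)) y (hmod _ _ (by rw [hsf, hsf]; exact hd1))
    (hmod _ _ (by rw [hsf, dist_self]; exact hη)) (hmod _ _ (by rw [hsf]; exact hd1))
  have t2 := hc (s (f x)) x y (hmod _ _ (by rw [hsf, dist_self]; exact hη))
    (hmod _ _ hd1) (hmod _ _ (by rw [hsf]; exact hd1))
  have e1 : γ' (f y) = c (s (f x)) (s (f y)) * γ' (f x) := by rw [g, inv_mul_cancel_right]
  show c x y = (c (s (f y)) y * γ' (f y)) * (c (s (f x)) x * γ' (f x))⁻¹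
  rw [e1, ← mul_assoc, ← t1, t2, mul_inv_rev]
  group

/-- two potentials of cocycles which agree along a preconnected set have the same increments -/
theorem increments_eq {X : Type} [MetricSpace X] {Γ : Type} [Group Γ] (K : Set X)
    (hK : IsPreconnected K) (γ γ' : X → Γ) (δ : ℝ) (hδ : 0 < δ)
    (h : ∀ x ∈ K, ∀ y ∈ K, dist x y < δ → γ y * (γ x)⁻¹ = γ' y * (γ' x)⁻¹)
    (N P : X) (hN : N ∈ K) (hP : P ∈ K) (h0 : γ N = γ' N) : γ P = γ' P := by
  by_contra hne
  have hstep : ∀ x ∈ K, ∀ y ∈ K, dist x y < δ → γ x = γ' x → γ y = γ' y := by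
    intro x hx y hy hxy hxe
    have h1 := h x hx y hy hxy
    rw [hxe] at h1
    exact mul_right_cancel h1
  obtain ⟨U, hU⟩ : ∃ U : Set X, U = ⋃ x ∈ {x | x ∈ K ∧ γ x = γ' x}, Metric.ball x δ := ⟨_, rfl⟩
  obtain ⟨V, hV⟩ : ∃ V : Set X, V = ⋃ x ∈ {x | x ∈ K ∧ γ x ≠ γ' x}, Metric.ball x δ := ⟨_, rfl⟩
  have hUo : IsOpen U := by rw [hU]; exact isOpen_biUnion (fun _ _ => Metric.isOpen_ball)
  have hVo : IsOpen V := by rw [hV]; exact isOpen_biUnion (fun _ _ => Metric.isOpen_ball)
  have hUm : ∀ x ∈ K, γ x = γ' x → x ∈ U := by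
    intro x hx hxe
    rw [hU]
    exact Set.mem_biUnion (show x ∈ {x | x ∈ K ∧ γ x = γ' x} from ⟨hx, hxe⟩)
      (Metric.mem_ball_self hδ)
  have hVm : ∀ x ∈ K, γ x ≠ γ' x → x ∈ V := by
    intro x hx hxe
    rw [hV]
    exact Set.mem_biUnion (show x ∈ {x | x ∈ K ∧ γ x ≠ γ' x} from ⟨hx, hxe⟩)
      (Metric.mem_ball_self hδ)
  have hcov : K ⊆ U ∪ V := by
    intro x hx
    by_cases hxe : γ x = γ' x
    · exact Or.inl (hUm x hx hxe)
    · exact Or.inr (hVm x hx hxe)
  obtain ⟨z, hzK, hzU, hzV⟩ := hK U V hUo hVo hcov ⟨N, hN, hUm N hN h0⟩ ⟨P, hP, hVm P hP hne⟩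
  rw [hU, Set.mem_iUnion₂] at hzU
  rw [hV, Set.mem_iUnion₂] at hzV
  obtain ⟨x, hx, hzx⟩ := hzU
  obtain ⟨x', hx', hzx'⟩ := hzV
  have h1 : γ z = γ' z := hstep x hx.1 z hzK (by rw [dist_comm]; exact hzx) hx.2
  exact hx'.2 (hstep z hzK x' hx'.1 hzx' h1)

end Pool.Agent.Helper475.DL
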