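import Pool.Agent.Helper475.DLAsmB
import Pool.Agent.Helper475.DLCocycle
set_option autoImplicit false
namespace Pool.Agent.Helper475.DL

section pot

/-- the tautological function `e^{iθ}` -/
noncomputable def tt : C(ℝ, ℂ) := ⟨fun θ => Complex.exp (θ * Complex.I), by fun_prop⟩

theorem tt_apply (θ : ℝ) : tt θ = Complex.exp (θ * Complex.I) := rfl

theorem tt_isUnit : IsUnit tt := by
  refine IsUnit.of_mul_eq_one ⟨fun θ => Complex.exp (-(θ * Complex.I)), by fun_prop⟩ ?_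
  ext θ
  change Complex.exp (θ * Complex.I) * Complex.exp (-(θ * Complex.I)) = 1
  rw [← Complex.exp_add]
  simp

theorem tt_zero : tt 0 = 1 := by
  rw [tt_apply]; simp

variable {X : Type} [MetricSpace X] [CompactSpace X] {ι : Type} [Fintype ι] [DecidableEq ι]

/-- configuration of the points `π (h^[I k] x)` -/
def ZI (h : X ≃ₜ X) (π : X → E2) (I : ι → ℕ) (x : X) (k : ι) : E2 := π (h^[I k] x)

def Pot (h : X ≃ₜ X) (π : X → E2) (I : ι → ℕ) (γ : X → (Matrix ι ι C(ℝ, ℂ))ˣ) : Prop :=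
  ∃ δ > 0, ∀ x y : X, dist x y < δ → TU tt (ZI h π I x) (ZI h π I y) = γ y * (γ x)⁻¹

theorem ZI_continuous (h : X ≃ₜ X) (π : X → E2) (hπ : Continuous π) (I : ι → ℕ) :
    Continuous (ZI h π I) := by
  refine continuous_pi fun k => ?_
  exact hπ.comp (h.continuous.iterate (I k))

theorem pos_inf {J : Type} [Finite J] (P : J → ℝ → Prop) (hP : ∀ j, ∃ r > 0, ∀ s, s ≤ r → P j s) :
    ∃ r > 0, ∀ j, P j r := by
  have h1 : ∀ j, ∀ᶠ s in nhdsWithin (0 : ℝ) (Set.Ioi 0), P j s := by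
    intro j
    obtain ⟨r, hr, hrs⟩ := hP j
    have : ∀ᶠ s in nhdsWithin (0 : ℝ) (Set.Ioi 0), s ≤ r :=
      nhdsWithin_le_nhds (Iic_mem_nhds hr)
    exact this.mono hrs
  have h2 := (Filter.eventually_all.mpr h1).and (eventually_mem_nhdsWithin)
  obtain ⟨r, hr, hr0⟩ := h2.exists
  exact ⟨r, hr0, hr⟩

theorem pot_exists (hX : DiskLike X) (h : X ≃ₜ X) (π : X → E2) (hπ : Continuous π) (I : ι → ℕ)
    (hinj : ∀ x, Function.Injective (ZI h π I x)) (N : X) :
    ∃ γ : X → (Matrix ι ι C(ℝ, ℂ))ˣ, γ N = 1 ∧ Pot h π I γ := by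
  have hr : ∃ r > 0, ∀ p : ι × ι, p.1 ≠ p.2 → ∀ x, r ≤ dist (ZI h π I x p.1) (ZI h π I x p.2) := by
    apply pos_inf (fun (p : ι × ι) r => p.1 ≠ p.2 → ∀ x, r ≤ dist (ZI h π I x p.1) (ZI h π I x p.2))
    intro p
    by_cases hp : p.1 = p.2
    · exact ⟨1, one_pos, fun s _ hne => absurd hp hne⟩
    · have hc : Continuous (fun x => dist (ZI h π I x p.1) (ZI h π I x p.2)) :=
        ((continuous_apply p.1).comp (ZI_continuous h π hπ I)).dist
          ((continuous_apply p.2).comp (ZI_continuous h π hπ I))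
      obtain ⟨x0, -, hx0⟩ := isCompact_univ.exists_isMinOn ⟨N, Set.mem_univ N⟩ hc.continuousOn
      refine ⟨dist (ZI h π I x0 p.1) (ZI h π I x0 p.2), ?_, fun s hs _ x =>
        hs.trans (hx0 (Set.mem_univ x))⟩
      exact dist_pos.mpr (fun hh => hp (hinj x0 hh))
  obtain ⟨r, hr0, hr⟩ := hr
  obtain ⟨ε, hε, hεr⟩ := Metric.uniformContinuous_iff.mp
    (CompactSpace.uniformContinuous_of_continuous (ZI_continuous h π hπ I)) (r / 8) (by positivity)
  obtain ⟨γ, δ, hδ, hγ⟩ := cocycle_trivial hX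
    (fun x y => TU tt (ZI h π I x) (ZI h π I y)) ε hε (by
      intro x y z hxy hyz hxz
      exact TU_cocycle tt_isUnit (hinj x) (hinj y) (hinj z) (fun k l hkl => hr (k, l) hkl y)
        (fun k => (dist_le_pi_dist _ _ k).trans_lt (hεr hxy))
        (fun k => (dist_le_pi_dist _ _ k).trans_lt (hεr hyz)))
  refine ⟨fun x => γ x * (γ N)⁻¹, by simp, δ, hδ, fun x y hxy => ?_⟩
  have := hγ x y hxy
  rw [this]
  group

theorem pot_eq (h : X ≃ₜ X) (π : X → E2) (I I' : ι → ℕ) (γ γ' : X → (Matrix ι ι C(ℝ, ℂ))ˣ)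
    (hγ : Pot h π I γ) (hγ' : Pot h π I' γ') (K : Set X) (hK : IsPreconnected K)
    (hZ : ∀ x ∈ K, ZI h π I x = ZI h π I' x) (N P : X) (hN : N ∈ K) (hP : P ∈ K)
    (h0 : γ N = γ' N) : γ P = γ' P := by
  obtain ⟨δ, hδ, h1⟩ := hγ
  obtain ⟨δ', hδ', h2⟩ := hγ'
  have := lc_const K hK (fun x => (γ' x)⁻¹ * γ x) (min δ δ') (lt_min hδ hδ') (by
    intro x hx y hy hxy
    have e1 := h1 x y (hxy.trans_le (min_le_left _ _))
    have e2 := h2 x y (hxy.trans_le (min_le_right _ _))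
    rw [hZ x hx, hZ y hy, e2] at e1
    have e3 : γ y = γ' y * (γ' x)⁻¹ * γ x := by rw [e1]; group
    rw [e3]
    group) N P hN hP
  have h3 : (γ' P)⁻¹ * γ P = 1 := by
    rw [← this, h0]; group
  calc γ P = γ' P * ((γ' P)⁻¹ * γ P) := by group
    _ = γ' P := by rw [h3, mul_one]

end pot

end Pool.Agent.Helper475.DL
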