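import Pool.Agent.Helper475.DLAsmA
import Pool.Agent.Helper475.DLAsmC
set_option autoImplicit false
namespace Pool.Agent.Helper475.DL

section dyn
variable {X : Type} [MetricSpace X] [CompactSpace X]

theorem exists_iter (h : X ≃ₜ X) (k : ℕ) : ∃ g : X ≃ₜ X, ∀ x, g x = h^[k] x := by
  induction k with
  | zero => exact ⟨Homeomorph.refl X, fun x => rfl⟩
  | succ k ih =>
    obtain ⟨g, hg⟩ := ih
    refine ⟨h.trans g, fun x => ?_⟩
    rw [Homeomorph.trans_apply, hg, Function.iterate_succ_apply]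

theorem iter_ne (h : X ≃ₜ X) (n : ℕ) (hper : ∀ x, h^[n] x = x) (hfix : ∀ x, h x ≠ x)
    (i j : ℕ) (hij : ∀ p, p.Prime → p ∣ n → ¬ i ≡ j [MOD p]) (x : X) : h^[i] x ≠ h^[j] x := by
  wlog hle : i ≤ j generalizing i j with H
  · exact (H j i (fun p hp hpn hmod => hij p hp hpn hmod.symm) (by omega)).symm
  intro heq
  set y := h^[i] x with hy
  have h1 : Function.IsPeriodicPt h (j - i) y := by
    have : h^[j - i] y = y := by
      rw [hy, ← Function.iterate_add_apply, Nat.sub_add_cancel hle, ← heq]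
    exact this
  have h2 : Function.IsPeriodicPt h n y := hper y
  have h3 := h1.gcd h2
  by_cases hg : Nat.gcd (j - i) n = 1
  · rw [hg] at h3
    exact hfix y h3
  · obtain ⟨p, hp, hpg⟩ := Nat.exists_prime_and_dvd hg
    refine hij p hp (hpg.trans (Nat.gcd_dvd_right _ _)) ?_
    exact (Nat.modEq_iff_dvd' hle).mpr (hpg.trans (Nat.gcd_dvd_left _ _))

theorem exists_sep (h : X ≃ₜ X) (n : ℕ) (hn : 0 < n) (hper : ∀ x, h^[n] x = x) (N : X) :
    ∃ ε > 0, ∀ i j : ℕ, (∀ x, h^[i] x ≠ h^[j] x) → ∀ x, ε ≤ dist (h^[i] x) (h^[j] x) := by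
  have h1 : ∃ ε > 0, ∀ p : Fin n × Fin n, (∀ x, h^[p.1.1] x ≠ h^[p.2.1] x) → ∀ x,
      ε ≤ dist (h^[p.1.1] x) (h^[p.2.1] x) := by
    apply pos_inf (fun (p : Fin n × Fin n) ε => (∀ x, h^[p.1.1] x ≠ h^[p.2.1] x) → ∀ x,
      ε ≤ dist (h^[p.1.1] x) (h^[p.2.1] x))
    intro p
    by_cases hp : ∀ x, h^[p.1.1] x ≠ h^[p.2.1] x
    · have hc : Continuous (fun x => dist (h^[p.1.1] x) (h^[p.2.1] x)) :=
        (h.continuous.iterate _).dist (h.continuous.iterate _)
      obtain ⟨x0, -, hx0⟩ := isCompact_univ.exists_isMinOn ⟨N, Set.mem_univ N⟩ hc.continuousOn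
      exact ⟨dist (h^[p.1.1] x0) (h^[p.2.1] x0), dist_pos.mpr (hp x0), fun s hs _ x =>
        hs.trans (hx0 (Set.mem_univ x))⟩
    · exact ⟨1, one_pos, fun s _ hne => absurd hne hp⟩
  obtain ⟨ε, hε, hh⟩ := h1
  have hmod : ∀ (i : ℕ) (x : X), h^[i % n] x = h^[i] x := fun i x =>
    Function.IsPeriodicPt.iterate_mod_apply (hper x) i
  refine ⟨ε, hε, fun i j hij x => ?_⟩
  have := hh (⟨i % n, Nat.mod_lt _ hn⟩, ⟨j % n, Nat.mod_lt _ hn⟩) (by
    intro y
    simp only [hmod]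
    exact hij y) x
  simpa only [hmod] using this

/-- index tuples: `0 ↦ a`, `k ↦ k` otherwise -/
def Ja (q : ℕ) (a : ℕ) : ZMod q → ℕ := fun k => if k = 0 then a else k.val

theorem Ja_inj (h : X ≃ₜ X) (n : ℕ) (hn : 1 < n) (hper : ∀ x, h^[n] x = x)
    (hfix : ∀ x, h x ≠ x) (π : X → E2)
    (hπ : ∀ i j : ℕ, (∀ x, h^[i] x ≠ h^[j] x) → ∀ x, π (h^[i] x) ≠ π (h^[j] x))
    (a : ℕ) (ha : ∀ p, p.Prime → p ∣ n → a ≡ 0 [MOD p] ∨ a ≡ n.minFac [MOD p]) (x : X) :
    Function.Injective (ZI h π (Ja n.minFac a) x) := by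
  have hq : n.minFac.Prime := Nat.minFac_prime hn.ne'
  haveI : NeZero n.minFac := ⟨hq.ne_zero⟩
  have hval : ∀ k : ZMod n.minFac, k.val < n.minFac := fun k => ZMod.val_lt k
  have hle : ∀ p, p.Prime → p ∣ n → n.minFac ≤ p := fun p hp hpn =>
    Nat.minFac_le_of_dvd hp.two_le hpn
  have key0 : ∀ l : ZMod n.minFac, l ≠ 0 → π (h^[a] x) ≠ π (h^[l.val] x) := by
    intro l hl
    apply hπ
    intro y
    apply iter_ne h n hper hfix
    intro p hp hpn hmod
    have h1 : 0 < l.val := Nat.pos_of_ne_zero (fun h => hl ((ZMod.val_eq_zero l).mp h))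
    have h2 := hval l
    have h3 := hle p hp hpn
    rcases ha p hp hpn with h4 | h4
    · have h5 : 0 ≡ l.val [MOD p] := h4.symm.trans hmod
      have h6 := (Nat.modEq_iff_dvd' (Nat.zero_le _)).mp h5
      have := Nat.le_of_dvd (by omega) h6
      omega
    · have h5 : l.val ≡ n.minFac [MOD p] := hmod.symm.trans h4
      have h6 := (Nat.modEq_iff_dvd' h2.le).mp h5
      have := Nat.le_of_dvd (by omega) h6
      omega
  intro k l hkl
  by_contra hne
  unfold ZI Ja at hkl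
  by_cases hk : k = 0
  · have hl : l ≠ 0 := fun h => hne (hk.trans h.symm)
    rw [if_pos hk, if_neg hl] at hkl
    exact key0 l hl hkl
  · by_cases hl : l = 0
    · rw [if_neg hk, if_pos hl] at hkl
      exact key0 k hk hkl.symm
    · rw [if_neg hk, if_neg hl] at hkl
      refine hπ k.val l.val ?_ x hkl
      intro y
      apply iter_ne h n hper hfix
      intro p hp hpn hmod
      have h3 := hle p hp hpn
      have h4 := Nat.ModEq.eq_of_lt_of_lt hmod (by have := hval k; omega) (by have := hval l; omega)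
      exact hne (ZMod.val_injective _ h4)

end dyn

end Pool.Agent.Helper475.DL
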