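import Pool.Agent.Helper475.DLAsmD
set_option autoImplicit false
namespace Pool.Agent.Helper475.DL

section walk
variable {X : Type} [MetricSpace X] [CompactSpace X]

theorem modEq_lcm {a b q m0 : ℕ} (h1 : a ≡ b [MOD q]) (h2 : a ≡ b [MOD m0]) :
    a ≡ b [MOD Nat.lcm q m0] := by
  rw [Nat.modEq_iff_dvd] at *
  rw [Int.natCast_dvd] at *
  exact Nat.lcm_dvd h1 h2

theorem modEq_of_primes {n p a b : ℕ} (hn : n ≠ 0) (hp : p.Prime)
    (h : ∀ r ∈ n.primeFactors, r ≠ p → a ≡ b [MOD r ^ n.factorization r]) :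
    a ≡ b [MOD n / p ^ n.factorization p] := by
  rw [Nat.modEq_iff_dvd, Int.natCast_dvd]
  set D := ((b : ℤ) - a).natAbs with hD
  have hpos : 0 < p ^ n.factorization p := pow_pos hp.pos _
  have hdvd : p ^ n.factorization p ∣ n := Nat.ordProj_dvd n p
  have h1 : n ∣ p ^ n.factorization p * D := by
    rw [Nat.dvd_iff_prime_pow_dvd_dvd]
    intro r k hr hrk
    by_cases hrp : r = p
    · subst hrp
      exact Dvd.dvd.mul_right (pow_dvd_pow _ ((hp.pow_dvd_iff_le_factorization hn).mp hrk)) _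
    · by_cases hk : k = 0
      · subst hk; simp
      · have hrn : r ∣ n := (dvd_pow_self r hk).trans hrk
        have h2 := h r (Nat.mem_primeFactors.mpr ⟨hr, hrn, hn⟩) hrp
        rw [Nat.modEq_iff_dvd, Int.natCast_dvd] at h2
        exact Dvd.dvd.mul_left
          ((pow_dvd_pow _ ((hr.pow_dvd_iff_le_factorization hn).mp hrk)).trans h2) _
  refine Nat.dvd_of_mul_dvd_mul_left hpos ?_
  rw [Nat.mul_div_cancel' hdvd]
  exact h1

theorem walk [ConnectedSpace X] (hX : DiskLike X) (h : X ≃ₜ X) (n : ℕ) (hn : 1 < n)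
    (hper : ∀ x, h^[n] x = x) (hfix : ∀ x, h x ≠ x) (π : X → E2) (hπc : Continuous π)
    (hπ : ∀ i j : ℕ, (∀ x, h^[i] x ≠ h^[j] x) → ∀ x, π (h^[i] x) ≠ π (h^[j] x))
    [NeZero n.minFac]
    (N : X) (hN : h^[n.minFac] N = N)
    (γ0 : X → (Matrix (ZMod n.minFac) (ZMod n.minFac) C(ℝ, ℂ))ˣ)
    (h0 : Pot h π (Ja n.minFac 0) γ0) (h0N : γ0 N = 1) (j : ℕ) (S : Finset ℕ) :
    S ⊆ n.primeFactors → ∀ a : ℕ,
    (∀ p ∈ n.primeFactors, a ≡ (if p ∈ S then n.minFac else 0) [MOD p ^ n.factorization p]) →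
    ∀ γ : X → (Matrix (ZMod n.minFac) (ZMod n.minFac) C(ℝ, ℂ))ˣ, Pot h π (Ja n.minFac a) γ →
    γ N = 1 → γ0 (h^[j] N) = γ (h^[j] N) := by
  have hn0 : n ≠ 0 := by omega
  have hqp : n.minFac.Prime := Nat.minFac_prime hn.ne'
  have hqn : n.minFac ∈ n.primeFactors := Nat.mem_primeFactors.mpr ⟨hqp, Nat.minFac_dvd n, hn0⟩
  have hfac : ∀ p ∈ n.primeFactors, p ∣ p ^ n.factorization p := by
    intro p hp
    obtain ⟨hp1, hp2, -⟩ := Nat.mem_primeFactors.mp hp
    exact dvd_pow_self p (hp1.factorization_pos_of_dvd hn0 hp2).ne'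
  have hinj : ∀ (T : Finset ℕ) (a : ℕ),
      (∀ p ∈ n.primeFactors, a ≡ (if p ∈ T then n.minFac else 0) [MOD p ^ n.factorization p]) →
      ∀ x, Function.Injective (ZI h π (Ja n.minFac a) x) := by
    intro T a ha x
    apply Ja_inj h n hn hper hfix π hπ
    intro p hp hpn
    have hpm : p ∈ n.primeFactors := Nat.mem_primeFactors.mpr ⟨hp, hpn, hn0⟩
    have h1 := (ha p hpm).of_dvd (hfac p hpm)
    split_ifs at h1
    · exact Or.inr h1
    · exact Or.inl h1
  induction S using Finset.induction_on with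
  | empty =>
    intro _ a ha γ hγ hγN
    refine pot_eq h π _ _ γ0 γ h0 hγ Set.univ isPreconnected_univ ?_ N _ (Set.mem_univ _)
      (Set.mem_univ _) (h0N.trans hγN.symm)
    intro x _
    have hna : n ∣ a := by
      rw [Nat.dvd_iff_prime_pow_dvd_dvd]
      intro r k hr hrk
      by_cases hk : k = 0
      · subst hk; simp
      · have hrn : r ∣ n := (dvd_pow_self r hk).trans hrk
        have h2 := ha r (Nat.mem_primeFactors.mpr ⟨hr, hrn, hn0⟩)
        simp only [Finset.notMem_empty, if_false] at h2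
        exact (pow_dvd_pow _ ((hr.pow_dvd_iff_le_factorization hn0).mp hrk)).trans
          ((Nat.modEq_zero_iff_dvd).mp h2)
    funext k
    unfold ZI Ja
    by_cases hk : k = 0
    · rw [if_pos hk, if_pos hk]
      have : h^[a] x = x := (Function.IsPeriodicPt.trans_dvd (hper x : Function.IsPeriodicPt h n x) hna)
      rw [this]; rfl
    · rw [if_neg hk, if_neg hk]
  | insert p S hpS ih =>
    intro hsub a ha γ hγ hγN
    have hpn : p ∈ n.primeFactors := hsub (Finset.mem_insert_self p S)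
    have hSn : S ⊆ n.primeFactors := fun r hr => hsub (Finset.mem_insert_of_mem hr)
    obtain ⟨hpp, hpdvd, -⟩ := Nat.mem_primeFactors.mp hpn
    obtain ⟨a', ha'⟩ := Nat.chineseRemainderOfFinset (fun r => if r ∈ S then n.minFac else 0)
      (fun r => r ^ n.factorization r) n.primeFactors
      (fun r hr => (pow_pos (Nat.prime_of_mem_primeFactors hr).pos _).ne')
      (by
        intro r hr s hs hrs
        exact Nat.Coprime.pow _ _ ((Nat.coprime_primes (Nat.prime_of_mem_primeFactors hr)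
          (Nat.prime_of_mem_primeFactors hs)).mpr hrs))
    obtain ⟨γ', hγ'N, hγ'⟩ := pot_exists hX h π hπc (Ja n.minFac a') (hinj S a' ha') N
    rw [ih hSn a' ha' γ' hγ' hγ'N]
    -- modulus
    have hmod1 : a' ≡ a [MOD n / p ^ n.factorization p] := by
      apply modEq_of_primes hn0 hpp
      intro r hr hrp
      have e1 := ha' r hr
      have e2 := ha r hr
      have e3 : (if r ∈ insert p S then n.minFac else 0) = (if r ∈ S then n.minFac else 0) := by
        simp only [Finset.mem_insert, hrp, false_or]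
      rw [e3] at e2
      exact e1.trans e2.symm
    have hz : ∀ (T : Finset ℕ) (b : ℕ),
        (∀ p ∈ n.primeFactors, b ≡ (if p ∈ T then n.minFac else 0) [MOD p ^ n.factorization p]) →
        b ≡ 0 [MOD n.minFac] := by
      intro T b hb
      have e1 := (hb _ hqn).of_dvd (hfac _ hqn)
      split_ifs at e1
      · exact e1.trans (Nat.modEq_zero_iff_dvd.mpr dvd_rfl)
      · exact e1
    have hmod2 : a' ≡ a [MOD n.minFac] := (hz S a' ha').trans (hz _ a ha).symm
    have hmod := modEq_lcm hmod2 hmod1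
    set m := Nat.lcm n.minFac (n / p ^ n.factorization p) with hm
    obtain ⟨g, hg⟩ := exists_iter h m
    have hgp : ∀ x, g^[p ^ n.factorization p] x = x := by
      intro x
      have e1 : ⇑g = h^[m] := funext hg
      rw [e1, ← Function.iterate_mul]
      refine Function.IsPeriodicPt.trans_dvd (hper x : Function.IsPeriodicPt h n x) ?_
      calc n = (n / p ^ n.factorization p) * p ^ n.factorization p :=
            (Nat.div_mul_cancel (Nat.ordProj_dvd n p)).symm
        _ ∣ m * p ^ n.factorization p := Nat.mul_dvd_mul_right (Nat.dvd_lcm_right _ _) _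
    have hK : IsPreconnected {x : X | g x = x} := dl_fix hX g p hpp _ hgp
    have hmem : ∀ i, h^[i] N ∈ {x : X | g x = x} := by
      intro i
      change g (h^[i] N) = h^[i] N
      rw [hg, ← Function.iterate_add_apply, add_comm, Function.iterate_add_apply]
      congr 1
      exact Function.IsPeriodicPt.trans_dvd (hN : Function.IsPeriodicPt h n.minFac N)
        (Nat.dvd_lcm_left _ _)
    refine pot_eq h π _ _ γ' γ hγ' hγ _ hK ?_ N _ (hmem 0) (hmem j) (hγ'N.trans hγN.symm)
    intro x hx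
    have hxm : Function.IsPeriodicPt h m x := by
      have : g x = x := hx
      rw [hg] at this
      exact this
    funext k
    unfold ZI Ja
    by_cases hk : k = 0
    · rw [if_pos hk, if_pos hk, ← hxm.iterate_mod_apply a', ← hxm.iterate_mod_apply a]
      rw [show a' % m = a % m from hmod]
    · rw [if_neg hk, if_neg hk]

theorem walk_full [ConnectedSpace X] (hX : DiskLike X) (h : X ≃ₜ X) (n : ℕ) (hn : 1 < n)
    (hper : ∀ x, h^[n] x = x) (hfix : ∀ x, h x ≠ x) (π : X → E2) (hπc : Continuous π)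
    (hπ : ∀ i j : ℕ, (∀ x, h^[i] x ≠ h^[j] x) → ∀ x, π (h^[i] x) ≠ π (h^[j] x))
    [NeZero n.minFac]
    (N : X) (hN : h^[n.minFac] N = N)
    (γ0 γ : X → (Matrix (ZMod n.minFac) (ZMod n.minFac) C(ℝ, ℂ))ˣ)
    (h0 : Pot h π (Ja n.minFac 0) γ0) (h0N : γ0 N = 1)
    (h1 : Pot h π (Ja n.minFac n.minFac) γ) (h1N : γ N = 1) (j : ℕ) :
    γ0 (h^[j] N) = γ (h^[j] N) := by
  refine walk hX h n hn hper hfix π hπc hπ N hN γ0 h0 h0N j n.primeFactors (Finset.Subset.refl _)
    n.minFac ?_ γ h1 h1N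
  intro p hp
  rw [if_pos hp]

end walk

end Pool.Agent.Helper475.DL
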