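import Pool.Agent.Helper475.DLAsmE
set_option autoImplicit false
namespace Pool.Agent.Helper475.DL

section shift

variable {R : Type} [CommRing R] (q : ℕ) [NeZero q]

/-- cyclic permutation matrix -/
def PMat : Matrix (ZMod q) (ZMod q) R := Matrix.of fun k l => if k = l + 1 then 1 else 0
def QMat : Matrix (ZMod q) (ZMod q) R := Matrix.of fun k l => if l = k + 1 then 1 else 0

theorem PMat_mul (M : Matrix (ZMod q) (ZMod q) R) (k l : ZMod q) :
    ((PMat q : Matrix (ZMod q) (ZMod q) R) * M) k l = M (k - 1) l := by
  rw [Matrix.mul_apply, Finset.sum_eq_single (k - 1)]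
  · simp [PMat]
  · intro b _ hb
    have : ¬ k = b + 1 := by
      intro h; apply hb; rw [h]; ring
    simp [PMat, this]
  · intro h; exact absurd (Finset.mem_univ _) h

theorem mul_QMat (M : Matrix (ZMod q) (ZMod q) R) (k l : ZMod q) :
    (M * (QMat q : Matrix (ZMod q) (ZMod q) R)) k l = M k (l - 1) := by
  rw [Matrix.mul_apply, Finset.sum_eq_single (l - 1)]
  · simp [QMat]
  · intro b _ hb
    have : ¬ l = b + 1 := by
      intro h; apply hb; rw [h]; ring
    simp [QMat, this]
  · intro h; exact absurd (Finset.mem_univ _) h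

theorem PQ : (PMat q : Matrix (ZMod q) (ZMod q) R) * QMat q = 1 := by
  ext k l
  rw [PMat_mul]
  simp only [QMat, Matrix.of_apply, Matrix.one_apply, sub_add_cancel]
  by_cases h : k = l
  · simp [h]
  · simp [h, Ne.symm h]

theorem QP : (QMat q : Matrix (ZMod q) (ZMod q) R) * PMat q = 1 := by
  exact mul_eq_one_comm.mp (PQ q)

/-- the cyclic permutation matrix as a unit -/
def PU : (Matrix (ZMod q) (ZMod q) R)ˣ := ⟨PMat q, QMat q, PQ q, QP q⟩

theorem PMat_pow (j : ℕ) (k l : ZMod q) :
    ((PMat q : Matrix (ZMod q) (ZMod q) R) ^ j) k l = if k = l + j then 1 else 0 := by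
  induction j generalizing k with
  | zero => simp [Matrix.one_apply]
  | succ j ih =>
    rw [pow_succ', PMat_mul, ih]
    have : (k - 1 = l + (j : ZMod q)) ↔ (k = l + ((j + 1 : ℕ) : ZMod q)) := by
      push_cast
      constructor
      · intro h
        have : k = (k - 1) + 1 := by ring
        rw [this, h]; ring
      · intro h; rw [h]; ring
    simp only [this]

theorem PU_pow : (PU q : (Matrix (ZMod q) (ZMod q) R)ˣ) ^ q = 1 := by
  apply Units.ext
  rw [Units.val_pow_eq_pow_val]
  ext k l
  change ((PMat q : Matrix (ZMod q) (ZMod q) R) ^ q) k l = _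
  rw [PMat_pow]
  simp [Matrix.one_apply]

theorem GU_shift {t : R} (ht : IsUnit t) {z z' : ZMod q → E2} (hz : Function.Injective z)
    (hz' : Function.Injective z') :
    GU t (fun k => z (k - 1)) (fun k => z' (k - 1)) = PU q * GU t z z' * (PU q)⁻¹ := by
  have hs : Function.Injective (fun k : ZMod q => k - 1) := fun a b h => by simpa using h
  apply Units.ext
  refine (GU_val ht (z := fun k => z (k - 1)) (z' := fun k => z' (k - 1)) (hz.comp hs)
    (hz'.comp hs)).trans ?_
  rw [Units.val_mul, Units.val_mul, GU_val ht hz hz']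
  change _ = (PMat q : Matrix (ZMod q) (ZMod q) R) * _ * (QMat q : Matrix (ZMod q) (ZMod q) R)
  ext k l
  rw [mul_QMat, PMat_mul]
  exact congrFun (congrFun (GM_submatrix t (fun k => kx (z k)) (fun k => ky (z' k))
    (Equiv.subRight (1 : ZMod q))) k) l

theorem TU_shift {t : R} (ht : IsUnit t) {z z' : ZMod q → E2} (hz : Function.Injective z)
    (hz' : Function.Injective z') :
    TU t (fun k => z (k - 1)) (fun k => z' (k - 1)) = PU q * TU t z z' * (PU q)⁻¹ := by
  unfold TU
  rw [GU_shift q ht hz' hz, GU_shift q ht hz hz]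
  group

theorem val_pred (hq : 1 < q) (k : ZMod q) : (k - 1).val + 1 = if k = 0 then q else k.val := by
  have : Fact (1 < q) := ⟨hq⟩
  split_ifs with hk
  · subst hk
    rw [zero_sub]
    obtain ⟨m, rfl⟩ : ∃ m, q = m + 1 := ⟨q - 1, by omega⟩
    rw [ZMod.val_neg_one]
  · have h1 : 0 < k.val := Nat.pos_of_ne_zero (fun h => hk ((ZMod.val_eq_zero k).mp h))
    rw [ZMod.val_sub (by rw [ZMod.val_one]; omega), ZMod.val_one]
    omega

end shift

section rank

theorem sum_rank {ι α : Type} [Fintype ι] [DecidableEq ι] [LinearOrder α] (x : ι → α)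
    (hx : Function.Injective x) (f : ℕ → ℂ) :
    ∑ k, f ((Finset.univ.filter (fun m => x m < x k)).card) =
      ∑ i ∈ Finset.range (Fintype.card ι), f i := by
  have hinj : Function.Injective (fun k => (Finset.univ.filter (fun m => x m < x k)).card) := by
    have hlt : ∀ k l, x k < x l → (Finset.univ.filter (fun m => x m < x k)).card <
        (Finset.univ.filter (fun m => x m < x l)).card := by
      intro k l hkl
      apply Finset.card_lt_card
      rw [Finset.ssubset_iff_of_subset]
      · exact ⟨k, by simp [hkl], by simp⟩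
      · intro m hm
        simp only [Finset.mem_filter, Finset.mem_univ, true_and] at hm ⊢
        exact hm.trans hkl
    intro k l hkl
    by_contra hne
    rcases lt_or_gt_of_ne (fun h => hne (hx h)) with h | h
    · exact (hlt _ _ h).ne hkl
    · exact (hlt _ _ h).ne' hkl
  have himg : Finset.univ.image (fun k => (Finset.univ.filter (fun m => x m < x k)).card) =
      Finset.range (Fintype.card ι) := by
    apply Finset.eq_of_subset_of_card_le
    · intro i hi
      obtain ⟨k, -, rfl⟩ := Finset.mem_image.mp hi
      rw [Finset.mem_range]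
      calc _ < (Finset.univ : Finset ι).card := by
            apply Finset.card_lt_card
            rw [Finset.ssubset_iff_of_subset (Finset.filter_subset _ _)]
            exact ⟨k, Finset.mem_univ _, by simp⟩
        _ = _ := Finset.card_univ
    · rw [Finset.card_image_of_injective _ hinj, Finset.card_range, Finset.card_univ]
  rw [← himg, Finset.sum_image (fun a _ b _ h => hinj h)]

end rank

end Pool.Agent.Helper475.DL
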