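import Pool.Agent.Helper475.DLBase
set_option autoImplicit false
namespace Pool.Agent.Helper475.DL

/-- averaged matrix -/
noncomputable def nmP (q : ℕ) [Fact q.Prime] (A : Matrix (ZMod q) (ZMod q) ℂ) :
    Matrix (ZMod q) (ZMod q) ℂ := (1 / (q : ℂ)) • ∑ j ∈ Finset.range q, A ^ j

lemma nm_q (q : ℕ) [hq : Fact q.Prime] : (q : ℂ) ≠ 0 := by
  exact_mod_cast hq.out.ne_zero

lemma nmP_mul (q : ℕ) [Fact q.Prime] {A : Matrix (ZMod q) (ZMod q) ℂ} (hA : A ^ q = 1) :
    A * nmP q A = nmP q A := by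
  unfold nmP
  rw [Matrix.mul_smul, Finset.mul_sum]
  congr 1
  have h1 : ∑ j ∈ Finset.range q, A * A ^ j = ∑ j ∈ Finset.range q, A ^ (j + 1) :=
    Finset.sum_congr rfl fun j _ => (pow_succ' A j).symm
  have h2 := Finset.sum_range_succ' (fun j => A ^ j) q
  have h3 := Finset.sum_range_succ (fun j => A ^ j) q
  rw [h3, hA, pow_zero] at h2
  rw [h1]
  exact (add_right_cancel h2).symm

lemma nmP_pow_mul (q : ℕ) [Fact q.Prime] {A : Matrix (ZMod q) (ZMod q) ℂ} (hA : A ^ q = 1)
    (j : ℕ) : A ^ j * nmP q A = nmP q A := by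
  induction j with
  | zero => rw [pow_zero, one_mul]
  | succ j ih => rw [pow_succ, mul_assoc, nmP_mul q hA, ih]

lemma nmP_idem (q : ℕ) [Fact q.Prime] {A : Matrix (ZMod q) (ZMod q) ℂ} (hA : A ^ q = 1) :
    nmP q A * nmP q A = nmP q A := by
  have h1 : nmP q A * nmP q A = (1 / (q : ℂ)) • ∑ j ∈ Finset.range q, A ^ j * nmP q A := by
    conv_lhs =>
      lhs
      unfold nmP
    rw [Matrix.smul_mul, Finset.sum_mul]
  rw [h1, Finset.sum_congr rfl fun j _ => nmP_pow_mul q hA j, Finset.sum_const, Finset.card_range,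
    ← Nat.cast_smul_eq_nsmul ℂ, smul_smul, one_div, inv_mul_cancel₀ (nm_q q), one_smul]

lemma nmP_mulVec (q : ℕ) [Fact q.Prime] {A : Matrix (ZMod q) (ZMod q) ℂ} {v : ZMod q → ℂ}
    (h : A.mulVec v = v) : (nmP q A).mulVec v = v := by
  have h1 : ∀ j, (A ^ j).mulVec v = v := by
    intro j
    induction j with
    | zero => rw [pow_zero, Matrix.one_mulVec]
    | succ j ih => rw [pow_succ, ← Matrix.mulVec_mulVec, h, ih]
  unfold nmP
  rw [Matrix.smul_mulVec, Matrix.sum_mulVec, Finset.sum_congr rfl fun j _ => h1 j,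
    Finset.sum_const, Finset.card_range, ← Nat.cast_smul_eq_nsmul ℂ, smul_smul, one_div,
    inv_mul_cancel₀ (nm_q q), one_smul]

lemma nmP_vecMul (q : ℕ) [Fact q.Prime] {A : Matrix (ZMod q) (ZMod q) ℂ} {v : ZMod q → ℂ}
    (h : Matrix.vecMul v A = v) : Matrix.vecMul v (nmP q A) = v := by
  have h1 : ∀ j, Matrix.vecMul v (A ^ j) = v := by
    intro j
    induction j with
    | zero => rw [pow_zero, Matrix.vecMul_one]
    | succ j ih => rw [pow_succ, ← Matrix.vecMul_vecMul, ih, h]
  unfold nmP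
  rw [Matrix.vecMul_smul, Matrix.vecMul_sum, Finset.sum_congr rfl fun j _ => h1 j,
    Finset.sum_const, Finset.card_range, ← Nat.cast_smul_eq_nsmul ℂ, smul_smul, one_div,
    inv_mul_cancel₀ (nm_q q), one_smul]

lemma nm_trace_nat {n : Type} [Fintype n] [DecidableEq n] {P : Matrix n n ℂ} (hP : P * P = P) :
    P.trace = (Module.finrank ℂ (LinearMap.range P.toLin') : ℂ) := by
  have h1 : IsIdempotentElem P.toLin' := by
    show P.toLin' * P.toLin' = P.toLin'
    rw [Module.End.mul_eq_comp, ← Matrix.toLin'_mul, hP]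
  rw [← Matrix.trace_toLin'_eq, (LinearMap.IsIdempotentElem.isProj_range _ h1).trace]

lemma nm_const {f : ℝ → ℂ} (hf : Continuous f) (hn : ∀ t, ∃ n : ℕ, f t = n) (s t : ℝ) :
    f s = f t := by
  have hre : Continuous fun t => (f t).re := Complex.continuous_re.comp hf
  have key : ∀ s t : ℝ, ∀ m n : ℕ, f s = m → f t = n → ¬ m < n := by
    intro s t m n hm hn' hlt
    have h1 : ((m : ℝ) + 1 / 2) ∈ Set.range fun t => (f t).re := by
      refine mem_range_of_exists_le_of_exists_ge hre ⟨s, ?_⟩ ⟨t, ?_⟩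
      · rw [hm, Complex.natCast_re]; linarith
      · rw [hn', Complex.natCast_re]
        have : (m : ℝ) + 1 ≤ n := by exact_mod_cast hlt
        linarith
    obtain ⟨u, hu⟩ := h1
    obtain ⟨k, hk⟩ := hn u
    have hu' : (f u).re = (m : ℝ) + 1 / 2 := hu
    rw [hk, Complex.natCast_re] at hu'
    have h2 : ((2 * k : ℕ) : ℝ) = ((2 * m + 1 : ℕ) : ℝ) := by push_cast; linarith
    have h3 : 2 * k = 2 * m + 1 := by exact_mod_cast h2
    omega
  obtain ⟨m, hm⟩ := hn s
  obtain ⟨n, hn'⟩ := hn t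
  have h1 := key s t m n hm hn'
  have h2 := key t s n m hn' hm
  have h3 : m = n := by omega
  rw [hm, hn', h3]

/-- evaluation -/
noncomputable def nmE (t : ℝ) : C(ℝ, ℂ) →+* ℂ where
  toFun f := f t
  map_one' := rfl
  map_mul' _ _ := rfl
  map_zero' := rfl
  map_add' _ _ := rfl

/-- The linear algebra contradiction: a matrix over the ring of continuous functions on the line,
of order dividing `q`, which at `0` is the cyclic permutation matrix, fixes the all-one vector and a
linear functional `φ` such that at `θ = 2π/q` the functional is nonzero but kills the all-one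
vector, does not exist. -/
theorem no_matrix (q : ℕ) [Fact q.Prime] (M : Matrix (ZMod q) (ZMod q) C(ℝ, ℂ)) (hM : M ^ q = 1)
    (h0 : ∀ k l : ZMod q, (M k l) 0 = if k = l + 1 then 1 else 0)
    (hv : M.mulVec (fun _ => (1 : C(ℝ, ℂ))) = fun _ => 1)
    (φ : ZMod q → C(ℝ, ℂ)) (hφ : Matrix.vecMul φ M = φ) (θ : ℝ)
    (hφ0 : ∑ k, (φ k) θ = 0) (hφ1 : ∃ k, (φ k) θ ≠ 0) : False := by
  classical
  have hq0 : q ≠ 0 := (Fact.out : q.Prime).ne_zero
  obtain ⟨N, hN⟩ : ∃ N : ℝ → Matrix (ZMod q) (ZMod q) ℂ, N = fun t => (nmE t).mapMatrix M :=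
    ⟨_, rfl⟩
  have hNa : ∀ t k l, N t k l = (M k l) t := by
    intro t k l
    rw [hN]
    rfl
  have hNq : ∀ t, N t ^ q = 1 := by
    intro t
    rw [hN]
    show (nmE t).mapMatrix M ^ q = 1
    rw [← map_pow, hM, map_one]
  have hNp : ∀ t j k l, (N t ^ j) k l = ((M ^ j) k l) t := by
    intro t j k l
    rw [hN]
    show ((nmE t).mapMatrix M ^ j) k l = _
    rw [← map_pow]
    rfl
  have htr : ∀ t, (nmP q (N t)).trace = (1 / (q : ℂ)) * ∑ j ∈ Finset.range q,
      ∑ k, ((M ^ j) k k) t := by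
    intro t
    unfold nmP
    rw [Matrix.trace_smul, Matrix.trace_sum, smul_eq_mul]
    congr 1
    refine Finset.sum_congr rfl fun j _ => ?_
    unfold Matrix.trace
    refine Finset.sum_congr rfl fun k _ => ?_
    rw [Matrix.diag_apply, hNp]
  have hcont : Continuous fun t => (nmP q (N t)).trace := by
    simp only [htr]
    refine continuous_const.mul ?_
    refine continuous_finsetSum _ fun j _ => continuous_finsetSum _ fun k _ => ?_
    exact ((M ^ j) k k).continuous
  have hnat : ∀ t, ∃ n : ℕ, (nmP q (N t)).trace = n :=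
    fun t => ⟨_, nm_trace_nat (nmP_idem q (hNq t))⟩
  -- value at zero
  have hpow0 : ∀ j : ℕ, ∀ k l : ZMod q, (N 0 ^ j) k l = if k = l + j then 1 else 0 := by
    intro j
    induction j with
    | zero =>
      intro k l
      rw [pow_zero, Nat.cast_zero, add_zero, Matrix.one_apply]
    | succ j ih =>
      intro k l
      rw [pow_succ, Matrix.mul_apply, Finset.sum_eq_single (l + 1)]
      · rw [ih, hNa, h0, if_pos rfl, mul_one]
        have e : l + 1 + (j : ZMod q) = l + ((j + 1 : ℕ) : ZMod q) := by push_cast; ring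
        rw [e]
      · intro m _ hm
        rw [hNa, h0, if_neg hm, mul_zero]
      · intro h
        exact absurd (Finset.mem_univ _) h
  have htr0 : (nmP q (N 0)).trace = 1 := by
    rw [htr]
    have h1 : ∑ j ∈ Finset.range q, ∑ k, ((M ^ j) k k) 0 = (q : ℂ) := by
      rw [Finset.sum_eq_single 0]
      · simp only [pow_zero, Matrix.one_apply_eq, Finset.sum_const, Finset.card_univ,
          ZMod.card, nsmul_eq_mul, ContinuousMap.one_apply, mul_one]
      · intro j hj hj0
        refine Finset.sum_eq_zero fun k _ => ?_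
        rw [← hNp, hpow0, if_neg]
        intro h
        have h2 : (j : ZMod q) = 0 := by
          have h3 : k + (j : ZMod q) = k + 0 := by rw [add_zero]; exact h.symm
          exact add_left_cancel h3
        rw [ZMod.natCast_eq_zero_iff] at h2
        have h3 := Nat.le_of_dvd (Nat.pos_of_ne_zero hj0) h2
        have h4 := Finset.mem_range.1 hj
        omega
      · intro h
        exact absurd (Finset.mem_range.2 (Nat.pos_of_ne_zero hq0)) h
    rw [h1, one_div, inv_mul_cancel₀ (nm_q q)]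
  have htrθ : (nmP q (N θ)).trace = 1 := by
    rw [← htr0]
    exact nm_const hcont hnat θ 0
  -- rank one
  obtain ⟨P, hP⟩ : ∃ P, P = nmP q (N θ) := ⟨_, rfl⟩
  have hPid : P * P = P := by rw [hP]; exact nmP_idem q (hNq θ)
  have hrank : Module.finrank ℂ (LinearMap.range P.toLin') = 1 := by
    have h1 := nm_trace_nat hPid
    rw [hP, htrθ, ← hP] at h1
    exact_mod_cast h1.symm
  have hNv : (N θ).mulVec (fun _ => 1) = fun _ => 1 := by
    funext k
    have h1 := congrArg (fun f : C(ℝ, ℂ) => f θ) (congrFun hv k)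
    simp only [Matrix.mulVec, dotProduct, ContinuousMap.coe_sum, Finset.sum_apply,
      ContinuousMap.mul_apply, ContinuousMap.one_apply] at h1
    simp only [Matrix.mulVec, dotProduct, hNa]
    exact h1
  have hNφ : Matrix.vecMul (fun k => (φ k) θ) (N θ) = fun k => (φ k) θ := by
    funext k
    have h1 := congrArg (fun f : C(ℝ, ℂ) => f θ) (congrFun hφ k)
    simp only [Matrix.vecMul, dotProduct, ContinuousMap.coe_sum, Finset.sum_apply,
      ContinuousMap.mul_apply] at h1
    simp only [Matrix.vecMul, dotProduct, hNa]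
    exact h1
  have hPv : P.mulVec (fun _ => 1) = fun _ => 1 := by rw [hP]; exact nmP_mulVec q hNv
  have hPφ : Matrix.vecMul (fun k => (φ k) θ) P = fun k => (φ k) θ := by
    rw [hP]; exact nmP_vecMul q hNφ
  have hv0mem : (fun _ => 1 : ZMod q → ℂ) ∈ LinearMap.range P.toLin' :=
    ⟨fun _ => 1, by rw [Matrix.toLin'_apply]; exact hPv⟩
  have hv0ne : (⟨fun _ => 1, hv0mem⟩ : LinearMap.range P.toLin') ≠ 0 := by
    intro h
    have h1 := congrFun (congrArg Subtype.val h) 0
    exact one_ne_zero h1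
  have hall := (finrank_eq_one_iff_of_nonzero' _ hv0ne).1 hrank
  obtain ⟨k, hk⟩ := hφ1
  apply hk
  obtain ⟨c, hc⟩ := hall ⟨P.mulVec (Pi.single k 1), ⟨Pi.single k 1, by rw [Matrix.toLin'_apply]⟩⟩
  have hc' : (c • (fun _ => 1 : ZMod q → ℂ)) = P.mulVec (Pi.single k 1) :=
    congrArg Subtype.val hc
  have h1 : (fun k => (φ k) θ) ⬝ᵥ P.mulVec (Pi.single k 1) = (φ k) θ := by
    rw [Matrix.dotProduct_mulVec, hPφ, dotProduct_single, mul_one]
  rw [← hc'] at h1
  rw [← h1, dotProduct_smul]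
  have h2 : (fun k => (φ k) θ) ⬝ᵥ (fun _ => 1 : ZMod q → ℂ) = 0 := by
    simp only [dotProduct, mul_one]
    exact hφ0
  rw [h2, smul_zero]

end Pool.Agent.Helper475.DL
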