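import Pool.Agent.Helper475.DLAsmF
import Pool.Agent.Helper475.DLLin
set_option autoImplicit false
namespace Pool.Agent.Helper475.DL

section fin
variable {X : Type} [MetricSpace X] [CompactSpace X]

/-- evaluation at `0` on matrix units -/
noncomputable def ev0 (ι : Type) [Fintype ι] [DecidableEq ι] :
    (Matrix ι ι C(ℝ, ℂ))ˣ →* (Matrix ι ι ℂ)ˣ :=
  Units.map ((((Pi.evalRingHom (fun _ : ℝ => ℂ) 0).comp
    (ContinuousMap.coeFnRingHom (α := ℝ) (β := ℂ))).mapMatrix : Matrix ι ι C(ℝ, ℂ) →+* Matrix ι ι ℂ) :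
    Matrix ι ι C(ℝ, ℂ) →* Matrix ι ι ℂ)

theorem ev0_apply {ι : Type} [Fintype ι] [DecidableEq ι] (u : (Matrix ι ι C(ℝ, ℂ))ˣ) (k l : ι) :
    (ev0 ι u : Matrix ι ι ℂ) k l = ((u : Matrix ι ι C(ℝ, ℂ)) k l) 0 := rfl

theorem GM_map {ι α β R S : Type} [Fintype ι] [DecidableEq ι] [LinearOrder α] [LinearOrder β]
    [CommRing R] [CommRing S] (f : R →+* S) (t : R) (x : ι → α) (y : ι → β) (k l : ι) :
    f (GM t x y k l) = GM (f t) x y k l := by
  simp only [GM, Matrix.of_apply]
  split_ifs <;> simp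

theorem ev0_GU {ι : Type} [Fintype ι] [DecidableEq ι] (z z' : ι → E2) :
    ev0 ι (GU tt z z') = 1 := by
  unfold GU
  split_ifs with h
  · apply Units.ext
    ext k l
    rw [ev0_apply]
    change ((GM tt (fun k => kx (z k)) (fun k => ky (z' k))) k l) 0 = _
    have e := GM_map ((Pi.evalRingHom (fun _ : ℝ => ℂ) 0).comp
      (ContinuousMap.coeFnRingHom (α := ℝ) (β := ℂ))) tt (fun k => kx (z k)) (fun k => ky (z' k)) k l
    have e2 : ((Pi.evalRingHom (fun _ : ℝ => ℂ) 0).comp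
      (ContinuousMap.coeFnRingHom (α := ℝ) (β := ℂ))) tt = 1 := tt_zero
    rw [e2, GM_one] at e
    exact e
  · exact map_one _

theorem ev0_TU {ι : Type} [Fintype ι] [DecidableEq ι] (z z' : ι → E2) :
    ev0 ι (TU tt z z') = 1 := by
  unfold TU
  rw [map_mul, map_inv, ev0_GU, ev0_GU]
  simp

theorem TU_one {ι : Type} [Fintype ι] [DecidableEq ι] {z z' : ι → E2}
    (hz : Function.Injective z) (hz' : Function.Injective z') :
    Matrix.mulVec ((TU tt z z' : (Matrix ι ι C(ℝ, ℂ))ˣ) : Matrix ι ι C(ℝ, ℂ)) (fun _ => 1) =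
      fun _ => 1 := by
  have hG : ∀ {w w' : ι → E2}, Function.Injective w → Function.Injective w' →
      Matrix.mulVec ((GU tt w w' : (Matrix ι ι C(ℝ, ℂ))ˣ) : Matrix ι ι C(ℝ, ℂ)) (fun _ => 1) =
      fun _ => 1 := by
    intro w w' hw hw'
    rw [GU_val tt_isUnit hw hw']
    exact GM_mulVec_one tt _ _ (kx_inj.comp hw) (ky_inj.comp hw')
  unfold TU
  rw [Units.val_mul, ← Matrix.mulVec_mulVec, hG hz hz]
  conv_lhs => rw [← hG hz' hz, Matrix.mulVec_mulVec]
  rw [← Units.val_mul]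
  simp

/-- the weights of the invariant functional -/
noncomputable def wt {ι : Type} [Fintype ι] (z : ι → E2) : ι → C(ℝ, ℂ) :=
  fun k => tt ^ (Finset.univ.filter (fun m => kx (z m) < kx (z k))).card

theorem TU_wt {ι : Type} [Fintype ι] [DecidableEq ι] {z z' : ι → E2}
    (hz : Function.Injective z) (hz' : Function.Injective z') :
    Matrix.vecMul (wt z') ((TU tt z z' : (Matrix ι ι C(ℝ, ℂ))ˣ) : Matrix ι ι C(ℝ, ℂ)) = wt z := by
  rw [TU_val tt_isUnit hz hz']
  exact GM_functional tt tt_isUnit (fun k => kx (z k)) (fun k => kx (z' k)) (fun k => ky (z k))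
    (kx_inj.comp hz) (kx_inj.comp hz') (ky_inj.comp hz)

theorem core [ConnectedSpace X] (hX : DiskLike X) (h : X ≃ₜ X) (n : ℕ) (hn : 1 < n)
    (hper : ∀ x, h^[n] x = x) (hfix : ∀ x, h x ≠ x) (N : X) (hN : h^[n.minFac] N = N) : False := by
  have hqp : n.minFac.Prime := Nat.minFac_prime hn.ne'
  have hq1 : 1 < n.minFac := hqp.one_lt
  have : Fact n.minFac.Prime := ⟨hqp⟩
  have : NeZero n.minFac := ⟨hqp.ne_zero⟩
  obtain ⟨ε, hε, hsep⟩ := exists_sep h n (by omega) hper N
  obtain ⟨π, hπc, -, hπd⟩ := hX ε hε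
  have hπ : ∀ i j : ℕ, (∀ x, h^[i] x ≠ h^[j] x) → ∀ x, π (h^[i] x) ≠ π (h^[j] x) := by
    intro i j hij x heq
    have h1 := hsep i j hij x
    have h2 : dist (h^[i] x) (h^[j] x) ≤ Metric.diam (π ⁻¹' {π (h^[j] x)}) := by
      apply Metric.dist_le_diam_of_mem
      · exact (isClosed_singleton.preimage hπc).isCompact.isBounded
      · exact heq
      · exact rfl
    have h3 := hπd (π (h^[j] x))
    linarith
  -- the two potentials
  have hinj0 : ∀ x, Function.Injective (ZI h π (Ja n.minFac 0) x) := fun x =>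
    Ja_inj h n hn hper hfix π hπ 0 (fun p _ _ => Or.inl rfl) x
  obtain ⟨γ0, hγ0N, hγ0⟩ := pot_exists hX h π hπc (Ja n.minFac 0) hinj0 N
  have hJ0 : ∀ k : ZMod n.minFac, Ja n.minFac 0 k = k.val := by
    intro k
    unfold Ja
    split_ifs with hk
    · rw [hk, ZMod.val_zero]
    · rfl
  have hshift : ∀ x, ZI h π (Ja n.minFac n.minFac) x =
      fun k => ZI h π (Ja n.minFac 0) (h x) (k - 1) := by
    intro x
    funext k
    unfold ZI
    rw [hJ0, ← Function.iterate_succ_apply]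
    have e := val_pred n.minFac hq1 k
    rw [Nat.succ_eq_add_one, e]
    rfl
  obtain ⟨δ, hδ, hγδ⟩ := hγ0
  obtain ⟨δ', hδ', hδδ⟩ := Metric.uniformContinuous_iff.mp
    (CompactSpace.uniformContinuous_of_continuous h.continuous) δ hδ
  have hγq : Pot h π (Ja n.minFac n.minFac) (fun x => (PU n.minFac :
      (Matrix (ZMod n.minFac) (ZMod n.minFac) C(ℝ, ℂ))ˣ) * γ0 (h x) * (γ0 (h N))⁻¹ *
      (PU n.minFac)⁻¹) := by
    refine ⟨δ', hδ', fun x y hxy => ?_⟩
    rw [hshift, hshift, TU_shift n.minFac tt_isUnit (hinj0 (h x)) (hinj0 (h y)),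
      hγδ _ _ (hδδ hxy)]
    group
  have hwalk : ∀ j, γ0 (h^[j] N) = (PU n.minFac :
      (Matrix (ZMod n.minFac) (ZMod n.minFac) C(ℝ, ℂ))ˣ) * γ0 (h^[j + 1] N) * (γ0 (h N))⁻¹ *
      (PU n.minFac)⁻¹ := by
    intro j
    have := walk_full hX h n hn hper hfix π hπc hπ N hN γ0 _ ⟨δ, hδ, hγδ⟩ hγ0N hγq (by group) j
    rw [this, ← Function.iterate_succ_apply' h j N]
  set P : (Matrix (ZMod n.minFac) (ZMod n.minFac) C(ℝ, ℂ))ˣ := PU n.minFac with hP
  set M : (Matrix (ZMod n.minFac) (ZMod n.minFac) C(ℝ, ℂ))ˣ := P * γ0 (h N) with hM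
  have hpow : ∀ j : ℕ, P ^ j * γ0 (h^[j] N) = M ^ j := by
    intro j
    induction j with
    | zero => simp [hγ0N]
    | succ j ih =>
      rw [pow_succ M, ← ih]
      have e := hwalk j
      have e2 : P * γ0 (h^[j + 1] N) = γ0 (h^[j] N) * P * γ0 (h N) := by
        rw [e]; group
      rw [pow_succ, mul_assoc, e2, hM]
      group
  have hMq : M ^ n.minFac = 1 := by
    rw [← hpow, hN, hγ0N, hP, PU_pow, one_mul]
  -- invariants
  have hev : ∀ x, ev0 (ZMod n.minFac) (γ0 x) = 1 := by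
    intro x
    have := lc_const (X := X) Set.univ isPreconnected_univ (fun x => ev0 (ZMod n.minFac) (γ0 x)) δ hδ
      (by
        intro x _ y _ hxy
        have e := congrArg (ev0 (ZMod n.minFac)) (hγδ x y hxy)
        rw [ev0_TU, map_mul, map_inv] at e
        exact (mul_inv_eq_one.mp e.symm).symm) x N (Set.mem_univ _) (Set.mem_univ _)
    rw [this, hγ0N, map_one]
  have hone : ∀ x, Matrix.mulVec ((γ0 x : (Matrix (ZMod n.minFac) (ZMod n.minFac) C(ℝ, ℂ))ˣ) :
      Matrix (ZMod n.minFac) (ZMod n.minFac) C(ℝ, ℂ)) (fun _ => 1) = fun _ => 1 := by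
    intro x
    have := lc_const (X := X) Set.univ isPreconnected_univ (fun x => Matrix.mulVec
      (((γ0 x)⁻¹ : (Matrix (ZMod n.minFac) (ZMod n.minFac) C(ℝ, ℂ))ˣ) :
      Matrix (ZMod n.minFac) (ZMod n.minFac) C(ℝ, ℂ)) (fun _ => (1 : C(ℝ, ℂ)))) δ hδ
      (by
        intro x _ y _ hxy
        have e := hγδ x y hxy
        have e2 : (γ0 x)⁻¹ = (γ0 y)⁻¹ * TU tt (ZI h π (Ja n.minFac 0) x) (ZI h π (Ja n.minFac 0) y) := by
          rw [e]; group
        rw [e2, Units.val_mul, ← Matrix.mulVec_mulVec, TU_one (hinj0 x) (hinj0 y)])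
      x N (Set.mem_univ _) (Set.mem_univ _)
    rw [hγ0N, inv_one, Units.val_one, Matrix.one_mulVec] at this
    conv_lhs => rw [← this, Matrix.mulVec_mulVec]
    rw [← Units.val_mul]
    simp
  have hwt : Matrix.vecMul (wt (ZI h π (Ja n.minFac 0) (h N)))
      ((γ0 (h N) : (Matrix (ZMod n.minFac) (ZMod n.minFac) C(ℝ, ℂ))ˣ) :
      Matrix (ZMod n.minFac) (ZMod n.minFac) C(ℝ, ℂ)) = wt (ZI h π (Ja n.minFac 0) N) := by
    have := lc_const (X := X) Set.univ isPreconnected_univ (fun x => Matrix.vecMul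
      (wt (ZI h π (Ja n.minFac 0) x))
      ((γ0 x : (Matrix (ZMod n.minFac) (ZMod n.minFac) C(ℝ, ℂ))ˣ) :
      Matrix (ZMod n.minFac) (ZMod n.minFac) C(ℝ, ℂ))) δ hδ
      (by
        intro x _ y _ hxy
        have e := hγδ x y hxy
        have e2 : γ0 y = TU tt (ZI h π (Ja n.minFac 0) x) (ZI h π (Ja n.minFac 0) y) * γ0 x := by
          rw [e]; group
        rw [e2, Units.val_mul, ← Matrix.vecMul_vecMul, TU_wt (hinj0 x) (hinj0 y)])
      (h N) N (Set.mem_univ _) (Set.mem_univ _)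
    simp only [hγ0N, Units.val_one, Matrix.vecMul_one] at this
    exact this
  have hZN : ∀ k, ZI h π (Ja n.minFac 0) N k = ZI h π (Ja n.minFac 0) (h N) (k - 1) := by
    intro k
    have e := congrFun (hshift N) k
    rw [← e]
    unfold ZI Ja
    by_cases hk : k = 0
    · rw [if_pos hk, if_pos hk, hN]; rfl
    · rw [if_neg hk, if_neg hk]
  have hwP : Matrix.vecMul (wt (ZI h π (Ja n.minFac 0) N)) (PMat n.minFac) =
      wt (ZI h π (Ja n.minFac 0) (h N)) := by
    funext j
    have e1 : Matrix.vecMul (wt (ZI h π (Ja n.minFac 0) N)) (PMat n.minFac) j =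
        wt (ZI h π (Ja n.minFac 0) N) (j + 1) := by
      simp only [Matrix.vecMul, dotProduct, PMat, Matrix.of_apply]
      rw [Finset.sum_eq_single (j + 1)]
      · simp
      · intro b _ hb
        simp [hb]
      · intro h; exact absurd (Finset.mem_univ _) h
    rw [e1]
    unfold wt
    congr 1
    rw [Finset.card_filter, Finset.card_filter]
    rw [← Equiv.sum_comp (Equiv.addRight (1 : ZMod n.minFac))]
    apply Finset.sum_congr rfl
    intro m _
    rw [Equiv.coe_addRight, hZN (m + 1), hZN (j + 1), add_sub_cancel_right, add_sub_cancel_right]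
  refine no_matrix n.minFac (M : Matrix (ZMod n.minFac) (ZMod n.minFac) C(ℝ, ℂ)) ?_ ?_ ?_
    (wt (ZI h π (Ja n.minFac 0) N)) ?_ (2 * Real.pi / n.minFac) ?_ ?_
  · rw [← Units.val_pow_eq_pow_val, hMq, Units.val_one]
  · intro k l
    rw [← ev0_apply, hM, map_mul, hev, mul_one, ev0_apply, hP]
    change ((PMat n.minFac : Matrix (ZMod n.minFac) (ZMod n.minFac) C(ℝ, ℂ)) k l) 0 = _
    simp only [PMat, Matrix.of_apply]
    split_ifs <;> rfl
  · rw [hM, Units.val_mul, ← Matrix.mulVec_mulVec, hone]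
    change Matrix.mulVec (PMat n.minFac : Matrix (ZMod n.minFac) (ZMod n.minFac) C(ℝ, ℂ)) _ = _
    funext k
    simp only [Matrix.mulVec, dotProduct, PMat, Matrix.of_apply]
    rw [Finset.sum_eq_single (k - 1)]
    · simp
    · intro b _ hb
      have : ¬ k = b + 1 := by
        intro h; apply hb; rw [h]; ring
      simp [this]
    · intro h; exact absurd (Finset.mem_univ _) h
  · rw [hM, Units.val_mul, ← Matrix.vecMul_vecMul]
    change Matrix.vecMul (Matrix.vecMul (wt (ZI h π (Ja n.minFac 0) N)) (PMat n.minFac)) _ = _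
    rw [hwP, hwt]
  · have hprim := Complex.isPrimitiveRoot_exp n.minFac hqp.ne_zero
    have hgeom := hprim.geom_sum_eq_zero hq1
    have htt : tt (2 * Real.pi / n.minFac) = Complex.exp (2 * Real.pi * Complex.I / n.minFac) := by
      rw [tt_apply]
      congr 1
      push_cast
      ring
    have hsum := sum_rank (fun k => kx (ZI h π (Ja n.minFac 0) N k))
      (kx_inj.comp (hinj0 N)) (fun i => (Complex.exp (2 * Real.pi * Complex.I / n.minFac)) ^ i)
    rw [ZMod.card, hgeom] at hsum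
    rw [← hsum]
    apply Finset.sum_congr rfl
    intro k _
    unfold wt
    rw [ContinuousMap.pow_apply, htt]
  · refine ⟨0, ?_⟩
    unfold wt
    rw [ContinuousMap.pow_apply, tt_apply]
    exact pow_ne_zero _ (Complex.exp_ne_zero _)

theorem main [ConnectedSpace X] (hX : DiskLike X) (n : ℕ) : 0 < n → ∀ h : X ≃ₜ X,
    (∀ x, h^[n] x = x) → ∃ x, h x = x := by
  induction n using Nat.strong_induction_on with
  | _ n ih =>
    intro hn h hper
    by_cases hn1 : n = 1
    · subst hn1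
      obtain ⟨x⟩ := (inferInstance : Nonempty X)
      exact ⟨x, hper x⟩
    · by_contra hcon
      push Not at hcon
      have hn2 : 1 < n := by omega
      have hqp : n.minFac.Prime := Nat.minFac_prime hn1
      obtain ⟨g, hg⟩ := exists_iter h n.minFac
      have hdiv : n.minFac * (n / n.minFac) = n := Nat.mul_div_cancel' (Nat.minFac_dvd n)
      obtain ⟨N, hN⟩ := ih (n / n.minFac) (Nat.div_lt_self hn hqp.one_lt)
        (Nat.div_pos (Nat.minFac_le hn) hqp.pos) g (by
          intro x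
          have e1 : ⇑g = h^[n.minFac] := funext hg
          rw [e1, ← Function.iterate_mul, hdiv]
          exact hper x)
      exact core hX h n hn2 hper hcon N (by rw [← hg]; exact hN)

end fin

end Pool.Agent.Helper475.DL
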