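import Mathlib
set_option autoImplicit false
namespace Pool.Agent.Helper475.DL

abbrev E2 := EuclideanSpace ℝ (Fin 2)

/-- Disk-like: for every `ε > 0` there is an `ε`-map onto the closed unit disk. -/
def DiskLike (X : Type) [MetricSpace X] : Prop :=
  ∀ ε : ℝ, 0 < ε → ∃ f : X → E2, Continuous f ∧
    Set.range f = Metric.closedBall (0 : E2) 1 ∧ ∀ y : E2, Metric.diam (f ⁻¹' {y}) < ε

/-- `(A,B)` is a lift of the direction of `(c,r)` through the Hopf map, on the set `S`. -/
def HopfLift {Y : Type} [TopologicalSpace Y] (S : Set Y) (c : Y → ℂ) (r : Y → ℝ) : Prop :=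
  ∃ A B : Y → ℂ, ContinuousOn A S ∧ ContinuousOn B S ∧ ∀ y ∈ S, ∃ l : ℝ, 0 < l ∧
    2 * A y * (starRingEnd ℂ) (B y) = l * c y ∧
    Complex.normSq (A y) - Complex.normSq (B y) = l * r y

/-- The pair `(c, r)` is a continuous nowhere zero map on `D` to `ℂ × ℝ`, equivariant with respect to
`g` and multiplication of the first coordinate by `ζ`. -/
def EqPair {X : Type} [TopologicalSpace X] (g : X ≃ₜ X) (ζ : ℂ) (D : Set X) (c : X → ℂ) (r : X → ℝ) :
    Prop :=
  ContinuousOn c D ∧ ContinuousOn r D ∧ (∀ x ∈ D, c x ≠ 0 ∨ r x ≠ 0) ∧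
    ∀ x ∈ D, c (g x) = ζ * c x ∧ r (g x) = r x

section
variable {ι α β : Type} [Fintype ι] [DecidableEq ι] [LinearOrder α] [LinearOrder β]
  {R : Type} [CommRing R]

/-- indices in the upper left quadrant of `l` (for the positions `(x k, y k)`) -/
def QuadS (x : ι → α) (y : ι → β) (l : ι) : Finset ι :=
  Finset.univ.filter (fun k => x k < x l ∧ y l < y k)

/-- the change of coordinates from vertical to horizontal generators (Burau form) -/
def GM (t : R) (x : ι → α) (y : ι → β) : Matrix ι ι R :=
  Matrix.of fun l k => if k = l then t ^ (QuadS x y l).card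
    else if k ∈ QuadS x y l then
      (1 - t) * t ^ ((QuadS x y l).filter (fun m => x m < x k)).card
    else 0

/-- elementary move: row `l` becomes `t * (row l) + (1 - t) * (row k)` -/
def RM (t : R) (k l : ι) : Matrix ι ι R :=
  Matrix.of fun i j => if i = l then (if j = l then t else if j = k then 1 - t else 0)
    else (if j = i then 1 else 0)

end

end Pool.Agent.Helper475.DL
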