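import Pool.Agent.Helper475.DLBase
set_option autoImplicit false
namespace Pool.Agent.Helper475.DL

/-- bubble sort induction: to prove `P x` for an injective labelling `x` by elements of a linear
order it suffices to know `P` for labellings ordered like `x'`, and to be able to swap two adjacent
labels which are in the wrong order with respect to `x'`. -/
theorem bubble_induction {ι α α' : Type} [Fintype ι] [DecidableEq ι] [LinearOrder α]
    [LinearOrder α'] (x' : ι → α') (hx' : Function.Injective x') (P : (ι → α) → Prop)
    (h0 : ∀ x : ι → α, Function.Injective x → (∀ i j, x i < x j ↔ x' i < x' j) → P x)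
    (h1 : ∀ x : ι → α, Function.Injective x → ∀ k l, x k < x l →
      (∀ m, ¬ (x k < x m ∧ x m < x l)) → x' l < x' k →
      P (fun i => x (Equiv.swap k l i)) → P x)
    (x : ι → α) (hx : Function.Injective x) : P x := by
  classical
  generalize hn : (Finset.univ.filter (fun p : ι × ι => x p.1 < x p.2 ∧ x' p.2 < x' p.1)).card = n
  induction n using Nat.strong_induction_on generalizing x with
  | _ n ih =>
  by_cases hex : ∃ p : ι × ι, x p.1 < x p.2 ∧ x' p.2 < x' p.1
  · -- choose an inverted pair with the least number of elements in between
    have hne : (Finset.univ.filter (fun p : ι × ι => x p.1 < x p.2 ∧ x' p.2 < x' p.1)).Nonempty := by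
      obtain ⟨p, hp⟩ := hex
      exact ⟨p, by simp [hp]⟩
    obtain ⟨⟨k, l⟩, hkl, hmin⟩ := Finset.exists_min_image _
      (fun p : ι × ι => (Finset.univ.filter (fun m => x p.1 < x m ∧ x m < x p.2)).card) hne
    simp only [Finset.mem_filter, Finset.mem_univ, true_and] at hkl
    obtain ⟨hk1, hk2⟩ := hkl
    have hadj : ∀ m, ¬ (x k < x m ∧ x m < x l) := by
      rintro m ⟨hm1, hm2⟩
      by_cases hc : x' m < x' k
      · have h2 := hmin (k, m) (by simp [hm1, hc])
        have h3 : (Finset.univ.filter (fun i => x k < x i ∧ x i < x m)).card <
            (Finset.univ.filter (fun i => x k < x i ∧ x i < x l)).card := by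
          apply Finset.card_lt_card
          rw [Finset.ssubset_iff_of_subset]
          · exact ⟨m, by simp [hm1, hm2], by simp⟩
          · intro i hi
            simp only [Finset.mem_filter, Finset.mem_univ, true_and] at hi ⊢
            exact ⟨hi.1, hi.2.trans hm2⟩
        simp only at h2
        omega
      · have hc' : x' l < x' m := lt_of_lt_of_le hk2 (not_lt.mp hc)
        have h2 := hmin (m, l) (by simp [hm2, hc'])
        have h3 : (Finset.univ.filter (fun i => x m < x i ∧ x i < x l)).card <
            (Finset.univ.filter (fun i => x k < x i ∧ x i < x l)).card := by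
          apply Finset.card_lt_card
          rw [Finset.ssubset_iff_of_subset]
          · exact ⟨m, by simp [hm1, hm2], by simp⟩
          · intro i hi
            simp only [Finset.mem_filter, Finset.mem_univ, true_and] at hi ⊢
            exact ⟨hm1.trans hi.1, hi.2⟩
        simp only at h2
        omega
    have hkl' : k ≠ l := fun h => by rw [h] at hk1; exact lt_irrefl _ hk1
    refine h1 x hx k l hk1 hadj hk2 (ih _ ?_ _ (hx.comp (Equiv.swap k l).injective) rfl)
    rw [← hn]
    apply Finset.card_lt_card
    rw [Finset.ssubset_iff_of_subset]
    · refine ⟨(k, l), by simp [hk1, hk2], ?_⟩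
      simp only [Finset.mem_filter, Finset.mem_univ, true_and, Equiv.swap_apply_left,
        Equiv.swap_apply_right, not_and]
      intro h
      exact absurd h (not_lt.mpr hk1.le)
    · rintro ⟨a, b⟩ hab
      simp only [Finset.mem_filter, Finset.mem_univ, true_and] at hab ⊢
      obtain ⟨ha, hb⟩ := hab
      refine ⟨?_, hb⟩
      by_cases ak : a = k
      · subst ak
        rw [Equiv.swap_apply_left] at ha
        by_cases ba : b = a
        · subst ba
          rw [Equiv.swap_apply_left] at ha
          exact absurd ha (lt_irrefl _)
        by_cases bl : b = l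
        · subst bl
          rw [Equiv.swap_apply_right] at ha
          exact absurd ha (not_lt.mpr hk1.le)
        rw [Equiv.swap_apply_of_ne_of_ne ba bl] at ha
        exact hk1.trans ha
      by_cases al : a = l
      · subst al
        rw [Equiv.swap_apply_right] at ha
        by_cases bk : b = k
        · subst bk
          exact absurd hb (not_lt.mpr hk2.le)
        by_cases ba : b = a
        · subst ba
          rw [Equiv.swap_apply_right] at ha
          exact absurd ha (lt_irrefl _)
        rw [Equiv.swap_apply_of_ne_of_ne bk ba] at ha
        by_contra hcon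
        have h2 : x b ≠ x a := fun h => ba (hx h)
        exact hadj b ⟨ha, lt_of_le_of_ne (not_lt.mp hcon) h2⟩
      rw [Equiv.swap_apply_of_ne_of_ne ak al] at ha
      by_cases bk : b = k
      · subst bk
        rw [Equiv.swap_apply_left] at ha
        by_contra hcon
        have h2 : x b ≠ x a := fun h => ak (hx h).symm
        exact hadj a ⟨lt_of_le_of_ne (not_lt.mp hcon) h2, ha⟩
      by_cases bl : b = l
      · subst bl
        rw [Equiv.swap_apply_right] at ha
        exact ha.trans hk1
      rwa [Equiv.swap_apply_of_ne_of_ne bk bl] at ha
  · push Not at hex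
    apply h0 x hx
    have hf : ∀ i j, x i < x j → x' i < x' j := by
      intro i j hij
      have h2 := hex (i, j) hij
      have h3 : i ≠ j := fun h => by rw [h] at hij; exact lt_irrefl _ hij
      exact lt_of_le_of_ne h2 (fun h => h3 (hx' h))
    intro i j
    refine ⟨hf i j, fun hij => ?_⟩
    by_contra hcon
    have h3 : x j ≠ x i := fun h => by rw [hx h] at hij; exact lt_irrefl _ hij
    exact absurd (hf j i (lt_of_le_of_ne (not_lt.mp hcon) h3)) (not_lt.mpr hij.le)

end Pool.Agent.Helper475.DL
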