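import Pool.Agent.Helper475.DLBase
set_option autoImplicit false
namespace Pool.Agent.Helper475.DL

section
variable {ι α β : Type} [Fintype ι] [DecidableEq ι] [LinearOrder α] [LinearOrder β]
  {R : Type} [CommRing R]




theorem RM_mul (t : R) (k l : ι) (hkl : k ≠ l) (G : Matrix ι ι R) (i j : ι) :
    (G * RM t k l) i j = if j = l then t * G i l else if j = k then G i k + (1 - t) * G i l else G i j := by
  have h : ∀ m, RM t k l m j = (if m = j then 1 else 0) +
      (if m = l then ((if j = l then t else if j = k then 1 - t else 0) - (if l = j then 1 else 0)) else 0) := by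
    intro m
    unfold RM
    rw [Matrix.of_apply]
    by_cases hm : m = l
    · subst hm
      simp only [if_true]
      ring
    · simp only [if_neg hm, add_zero]
      by_cases hj : j = m
      · rw [if_pos hj, if_pos hj.symm]
      · rw [if_neg hj, if_neg (fun h => hj h.symm)]
  rw [Matrix.mul_apply]
  simp only [h, mul_add, mul_ite, mul_one, mul_zero, Finset.sum_add_distrib, Finset.sum_ite_eq',
    Finset.mem_univ, if_true]
  by_cases h1 : j = l
  · subst h1
    simp only [if_true]
    ring
  · have h1' : ¬ l = j := fun h => h1 h.symm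
    rw [if_neg h1, if_neg h1, if_neg h1']
    by_cases h2 : j = k
    · subst h2
      simp only [if_true]
      ring
    · rw [if_neg h2, if_neg h2]
      ring

theorem GM_apply (t : R) (x : ι → α) (y : ι → β) (l k : ι) :
    GM t x y l k = if k = l then t ^ (QuadS x y l).card
    else if k ∈ QuadS x y l then
      (1 - t) * t ^ ((QuadS x y l).filter (fun m => x m < x k)).card
    else 0 := rfl

theorem mem_QuadS (x : ι → α) (y : ι → β) (l k : ι) :
    k ∈ QuadS x y l ↔ x k < x l ∧ y l < y k := by
  simp [QuadS]

/-- adjacent swap formula -/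
theorem GM_swap (t : R) (x : ι → α) (y : ι → β) (hx : Function.Injective x)
    (hy : Function.Injective y) (k l : ι) (hkl : x k < x l) (hadj : ∀ m, ¬ (x k < x m ∧ x m < x l))
    (hykl : y l < y k) :
    GM t x y = GM t (fun i => x (Equiv.swap k l i)) y * RM t k l := by
  have hne : k ≠ l := fun h => by rw [h] at hkl; exact lt_irrefl _ hkl
  obtain ⟨x1, hx1⟩ : ∃ x1 : ι → α, x1 = fun i => x (Equiv.swap k l i) := ⟨_, rfl⟩
  rw [← hx1]
  have e1 : x1 k = x l := by rw [hx1]; simp
  have e2 : x1 l = x k := by rw [hx1]; simp
  have e3 : ∀ m, m ≠ k → m ≠ l → x1 m = x m := by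
    intro m h1 h2
    rw [hx1]
    simp [Equiv.swap_apply_of_ne_of_ne h1 h2]
  have F4 : ∀ m, m ≠ k → (x m < x l ↔ x m < x k) := by
    intro m hm
    constructor
    · intro h
      have h1 : ¬ x k < x m := fun h1 => hadj m ⟨h1, h⟩
      exact lt_of_le_of_ne (not_lt.1 h1) (fun h2 => hm (hx h2))
    · intro h; exact h.trans hkl
  have F5 : ∀ m, m ≠ l → (x k < x m ↔ x l < x m) := by
    intro m hm
    constructor
    · intro h
      have h1 : ¬ x m < x l := fun h1 => hadj m ⟨h, h1⟩
      exact lt_of_le_of_ne (not_lt.1 h1) (fun h2 => hm (hx h2.symm))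
    · intro h; exact hkl.trans h
  have F2 : x1 l < x1 k := by rw [e1, e2]; exact hkl
  have F3 : ¬ x1 k < x1 l := not_lt.2 F2.le
  have F1 : ∀ i j, ¬ (i = k ∧ j = l) → ¬ (i = l ∧ j = k) → (x1 i < x1 j ↔ x i < x j) := by
    intro i j h1 h2
    by_cases hik : i = k
    · subst hik
      have hjl : j ≠ l := fun h => h1 ⟨rfl, h⟩
      by_cases hji : j = i
      · rw [hji]
        exact ⟨fun h => absurd h (lt_irrefl _), fun h => absurd h (lt_irrefl _)⟩
      · rw [e1, e3 j hji hjl]
        exact (F5 j hjl).symm
    · by_cases hil : i = l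
      · subst hil
        have hjk : j ≠ k := fun h => h2 ⟨rfl, h⟩
        by_cases hji : j = i
        · rw [hji]
          exact ⟨fun h => absurd h (lt_irrefl _), fun h => absurd h (lt_irrefl _)⟩
        · rw [e2, e3 j hjk hji]
          exact F5 j hji
      · rw [e3 i hik hil]
        by_cases hjk : j = k
        · subst hjk
          rw [e1]
          exact F4 i hik
        · by_cases hjl : j = l
          · subst hjl
            rw [e2]
            exact (F4 i hik).symm
          · rw [e3 j hjk hjl]
  clear hx1 e1 e2 e3
  have hQ : ∀ i, i ≠ l → QuadS x1 y i = QuadS x y i := by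
    intro i hi
    ext m
    rw [mem_QuadS, mem_QuadS]
    by_cases h2 : m = l ∧ i = k
    · obtain ⟨rfl, rfl⟩ := h2
      constructor <;> intro h <;> exact absurd h.2 (not_lt.2 hykl.le)
    · rw [F1 m i (fun h => hi h.2) h2]
  have hQl : QuadS x y l = insert k (QuadS x1 y l) := by
    ext m
    rw [Finset.mem_insert, mem_QuadS, mem_QuadS]
    by_cases hm : m = k
    · subst hm
      exact ⟨fun _ => Or.inl rfl, fun _ => ⟨hkl, hykl⟩⟩
    · rw [F1 m l (fun h => hm h.1) (fun h => hne h.2.symm)]
      simp [hm]
  have hkQ : k ∉ QuadS x1 y l := by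
    rw [mem_QuadS]
    exact fun h => F3 h.1
  ext i j
  rw [RM_mul t k l hne]
  by_cases hi : i = l
  · subst hi
    by_cases hj : j = i
    · rw [if_pos hj, hj, GM_apply, GM_apply, if_pos rfl, if_pos rfl, hQl, Finset.card_insert_of_notMem hkQ,
        pow_succ']
    · rw [if_neg hj]
      by_cases hjk : j = k
      · subst hjk
        rw [if_pos rfl, GM_apply, GM_apply t x1, GM_apply t x1, if_neg hj, if_neg hj, if_neg hkQ, if_pos rfl,
          if_pos (by rw [hQl]; exact Finset.mem_insert_self _ _), zero_add]
        congr 2
        apply congrArg Finset.card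
        ext m
        rw [Finset.mem_filter, hQl, Finset.mem_insert]
        constructor
        · rintro ⟨rfl | h, h'⟩
          · exact absurd h' (lt_irrefl _)
          · exact h
        · intro h
          refine ⟨Or.inr h, ?_⟩
          have hmj : m ≠ j := fun h' => hkQ (h' ▸ h)
          have h2 := (mem_QuadS _ _ _ _).1 h
          rw [F1 m i (fun h => hmj h.1) (fun h => hj h.2.symm)] at h2
          exact (F4 m hmj).1 h2.1
      · rw [if_neg hjk, GM_apply, GM_apply, if_neg hj, if_neg hj]
        have hmem : j ∈ QuadS x y i ↔ j ∈ QuadS x1 y i := by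
          rw [hQl, Finset.mem_insert]
          simp [hjk]
        by_cases hjQ : j ∈ QuadS x1 y i
        · rw [if_pos hjQ, if_pos (hmem.2 hjQ)]
          congr 2
          apply congrArg Finset.card
          ext m
          rw [Finset.mem_filter, Finset.mem_filter, hQl, Finset.mem_insert]
          have h3 := (mem_QuadS _ _ _ _).1 hjQ
          rw [F1 j i (fun h => hjk h.1) (fun h => hj h.1)] at h3
          have h4 : x j < x k := (F4 j hjk).1 h3.1
          constructor
          · rintro ⟨rfl | h, h'⟩
            · exact absurd h' (not_lt.2 h4.le)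
            · exact ⟨h, (F1 m j (fun h => hj h.2) (fun h => hjk h.2)).2 h'⟩
          · rintro ⟨h, h'⟩
            exact ⟨Or.inr h, (F1 m j (fun h => hj h.2) (fun h => hjk h.2)).1 h'⟩
        · rw [if_neg hjQ, if_neg (fun h => hjQ (hmem.1 h))]
  · have hQi := hQ i hi
    -- if l is in the quadrant then so is k
    have hlk : l ∈ QuadS x y i → k ∈ QuadS x y i ∧ i ≠ k := by
      intro h
      rw [mem_QuadS] at h
      refine ⟨(mem_QuadS _ _ _ _).2 ⟨hkl.trans h.1, h.2.trans hykl⟩, ?_⟩
      rintro rfl
      exact absurd h.1 (not_lt.2 hkl.le)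
    by_cases hj : j = l
    · have hli : ¬ l = i := fun h => hi h.symm
      rw [if_pos hj, hj, GM_apply, GM_apply, if_neg hli, if_neg hli, hQi]
      by_cases hl : l ∈ QuadS x y i
      · rw [if_pos hl, if_pos hl]
        have h5 : (QuadS x y i).filter (fun m => x m < x l) =
            insert k ((QuadS x y i).filter (fun m => x1 m < x1 l)) := by
          ext m
          rw [Finset.mem_insert, Finset.mem_filter, Finset.mem_filter]
          by_cases hm : m = k
          · subst hm
            exact ⟨fun _ => Or.inl rfl, fun _ => ⟨(hlk hl).1, hkl⟩⟩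
          · rw [F1 m l (fun h => hm h.1) (fun h => hne h.2.symm)]
            simp [hm]
        rw [h5, Finset.card_insert_of_notMem (by
          rw [Finset.mem_filter]
          exact fun h => F3 h.2), pow_succ]
        ring
      · rw [if_neg hl, if_neg hl, mul_zero]
    · rw [if_neg hj]
      by_cases hjk : j = k
      · subst hjk
        have hli : ¬ l = i := fun h => hi h.symm
        rw [if_pos rfl, GM_apply, GM_apply t x1, GM_apply t x1, if_neg hli, hQi]
        by_cases hji : j = i
        · subst hji
          have hl : l ∉ QuadS x y j := fun h => (hlk h).2 rfl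
          rw [if_pos rfl, if_pos rfl, if_neg hl, mul_zero, add_zero]
        · rw [if_neg hji, if_neg hji]
          by_cases hl : l ∈ QuadS x y i
          · have hk := (hlk hl).1
            rw [if_pos hk, if_pos hk, if_pos hl]
            have h5 : (QuadS x y i).filter (fun m => x1 m < x1 j) =
                insert l ((QuadS x y i).filter (fun m => x m < x j)) := by
              ext m
              rw [Finset.mem_insert, Finset.mem_filter, Finset.mem_filter]
              by_cases hm : m = l
              · subst hm
                exact ⟨fun _ => Or.inl rfl, fun _ => ⟨hl, F2⟩⟩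
              · rw [F1 m j (fun h => hne h.2) (fun h => hm h.1)]
                simp [hm]
            have h6 : (QuadS x y i).filter (fun m => x1 m < x1 l) =
                (QuadS x y i).filter (fun m => x m < x j) := by
              ext m
              rw [Finset.mem_filter, Finset.mem_filter]
              by_cases hm : m = j
              · subst hm
                exact ⟨fun h => absurd h.2 F3, fun h => absurd h.2 (lt_irrefl _)⟩
              · rw [F1 m l (fun h => hm h.1) (fun h => hne h.2.symm), F4 m hm]
            rw [h5, h6, Finset.card_insert_of_notMem (by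
              rw [Finset.mem_filter]
              exact fun h => absurd h.2 (not_lt.2 hkl.le)), pow_succ]
            ring
          · rw [if_neg hl, mul_zero, add_zero]
            have h5 : (QuadS x y i).filter (fun m => x1 m < x1 j) =
                (QuadS x y i).filter (fun m => x m < x j) := by
              ext m
              rw [Finset.mem_filter, Finset.mem_filter]
              by_cases hm : m = l
              · subst hm
                exact ⟨fun h => absurd h.1 hl, fun h => absurd h.1 hl⟩
              · rw [F1 m j (fun h => hne h.2) (fun h => hm h.1)]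
            rw [h5]
      · rw [if_neg hjk, GM_apply, GM_apply, hQi]
        have h5 : (QuadS x y i).filter (fun m => x1 m < x1 j) =
            (QuadS x y i).filter (fun m => x m < x j) := by
          ext m
          rw [Finset.mem_filter, Finset.mem_filter, F1 m j (fun h => hj h.2) (fun h => hjk h.2)]
        rw [h5]

/-- `GM` only depends on the order of `x` and of `y` -/
theorem GM_congr {α' β' : Type} [LinearOrder α'] [LinearOrder β'] (t : R) (x : ι → α) (y : ι → β)
    (x' : ι → α') (y' : ι → β') (hx : ∀ i j, x i < x j ↔ x' i < x' j)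
    (hy : ∀ i j, y i < y j ↔ y' i < y' j) : GM t x y = GM t x' y' := by
  have hQ : ∀ i, QuadS x y i = QuadS x' y' i := by
    intro i
    ext m
    rw [mem_QuadS, mem_QuadS, hx, hy]
  ext i j
  rw [GM_apply, GM_apply, hQ]
  have h5 : (QuadS x' y' i).filter (fun m => x m < x j) =
      (QuadS x' y' i).filter (fun m => x' m < x' j) := by
    ext m
    rw [Finset.mem_filter, Finset.mem_filter, hx]
  rw [h5]

/-- if the orders of `x` and of `y` agree then `GM` is the identity -/
theorem GM_of_same (t : R) (x : ι → α) (y : ι → β) (h : ∀ i j, x i < x j ↔ y i < y j) :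
    GM t x y = 1 := by
  have hQ : ∀ i, QuadS x y i = ∅ := by
    intro i
    apply Finset.eq_empty_of_forall_notMem
    intro m hm
    rw [mem_QuadS, h] at hm
    exact absurd hm.1 (not_lt.2 hm.2.le)
  ext i j
  rw [GM_apply, hQ, Matrix.one_apply]
  by_cases hij : j = i
  · rw [if_pos hij, if_pos hij.symm, Finset.card_empty, pow_zero]
  · have hij' : ¬ i = j := fun h => hij h.symm
    rw [if_neg hij, if_neg hij', if_neg (Finset.notMem_empty _)]

/-- equivariance under relabeling -/
theorem GM_submatrix (t : R) (x : ι → α) (y : ι → β) (σ : Equiv.Perm ι) :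
    GM t (fun i => x (σ i)) (fun i => y (σ i)) = (GM t x y).submatrix σ σ := by
  have hm : ∀ i m, m ∈ QuadS (fun i => x (σ i)) (fun i => y (σ i)) i ↔ σ m ∈ QuadS x y (σ i) := by
    intro i m
    rw [mem_QuadS, mem_QuadS]
  ext i j
  rw [Matrix.submatrix_apply, GM_apply, GM_apply]
  have h1 : (QuadS (fun i => x (σ i)) (fun i => y (σ i)) i).card = (QuadS x y (σ i)).card := by
    rw [← Finset.card_map σ.toEmbedding]
    apply congrArg Finset.card
    ext m
    rw [Finset.mem_map]
    constructor
    · rintro ⟨a, ha, rfl⟩
      exact (hm i a).1 ha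
    · intro h
      refine ⟨σ.symm m, (hm i _).2 (by rw [Equiv.apply_symm_apply]; exact h), ?_⟩
      simp
  have h2 : ((QuadS (fun i => x (σ i)) (fun i => y (σ i)) i).filter (fun m => x (σ m) < x (σ j))).card =
      ((QuadS x y (σ i)).filter (fun m => x m < x (σ j))).card := by
    rw [← Finset.card_map σ.toEmbedding]
    apply congrArg Finset.card
    ext m
    rw [Finset.mem_map]
    constructor
    · rintro ⟨a, ha, rfl⟩
      rw [Finset.mem_filter] at ha ⊢
      exact ⟨(hm i a).1 ha.1, ha.2⟩
    · intro h
      rw [Finset.mem_filter] at h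
      refine ⟨σ.symm m, ?_, by simp⟩
      rw [Finset.mem_filter, hm, Equiv.apply_symm_apply]
      exact h
  rw [h1, h2]
  by_cases hij : j = i
  · rw [if_pos hij, if_pos (congrArg σ hij)]
  · rw [if_neg hij, if_neg (fun h => hij (σ.injective h))]
    by_cases hj : σ j ∈ QuadS x y (σ i)
    · rw [if_pos hj, if_pos ((hm i j).2 hj)]
    · rw [if_neg hj, if_neg (fun h => hj ((hm i j).1 h))]

/-- at `t = 1` nothing happens -/
theorem GM_one (x : ι → α) (y : ι → β) : GM (1 : R) x y = 1 := by
  ext i j
  rw [GM_apply, Matrix.one_apply, one_pow, one_pow, sub_self, zero_mul, ite_self]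
  by_cases hij : j = i
  · rw [if_pos hij, if_pos hij.symm]
  · rw [if_neg hij, if_neg (fun h => hij h.symm)]

end

end Pool.Agent.Helper475.DL
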