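import Pool.Agent.Helper475.DLBurau
import Pool.Agent.Helper475.DLBubble
set_option autoImplicit false
namespace Pool.Agent.Helper475.DL

section
variable {ι α β : Type} [Fintype ι] [DecidableEq ι] [LinearOrder α] [LinearOrder β]
  {R : Type} [CommRing R]

theorem RM_isUnit (t : R) (ht : IsUnit t) (k l : ι) (hkl : k ≠ l) : IsUnit (RM t k l) := by
  obtain ⟨u, rfl⟩ := ht
  have h : ∀ s s' : R, s * s' = 1 → RM s k l * RM s' k l = 1 := by
    intro s s' hss
    ext i j
    rw [Matrix.mul_apply, Matrix.one_apply]
    by_cases hi : i = l
    · subst hi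
      rw [Finset.sum_eq_add_of_mem k i (Finset.mem_univ _) (Finset.mem_univ _) hkl]
      · simp only [RM, Matrix.of_apply, hkl, if_true, if_false]
        by_cases hj : j = i
        · subst hj
          simp [Ne.symm hkl, hss]
        · by_cases hj' : j = k
          · subst hj'
            simp only [hj, if_true, if_false, Ne.symm hj]
            linear_combination (-1 : R) * hss
          · simp [hj, hj', Ne.symm hj]
      · intro c _ hc
        simp [RM, hc.1, hc.2]
    · rw [Finset.sum_eq_single i]
      · simp only [RM, Matrix.of_apply, hi, if_false, if_true, one_mul]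
        by_cases hj : j = i
        · simp [hj]
        · simp [hj, Ne.symm hj]
      · intro b _ hb
        simp [RM, hi, hb]
      · intro h; exact absurd (Finset.mem_univ _) h
  exact IsUnit.of_mul_eq_one _ (h _ _ u.mul_inv)

theorem GM_isUnit (t : R) (ht : IsUnit t)
    (x : ι → α) (y : ι → β) (hx : Function.Injective x) (hy : Function.Injective y) :
    IsUnit (GM t x y) := by
  refine bubble_induction y hy (fun x => IsUnit (GM t x y)) ?_ ?_ x hx
  · intro x _ h
    rw [GM_of_same t x y h]
    exact isUnit_one
  · intro x hx k l hkl hadj hyl ih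
    rw [GM_swap t x y hx hy k l hkl hadj hyl]
    exact ih.mul (RM_isUnit t ht k l (fun h => by rw [h] at hkl; exact lt_irrefl _ hkl))

theorem RM_mulVec_one (t : R) (k l : ι) (hkl : k ≠ l) :
    (RM t k l).mulVec (fun _ => (1 : R)) = fun _ => 1 := by
  funext i
  simp only [Matrix.mulVec, dotProduct, mul_one]
  by_cases hi : i = l
  · subst hi
    rw [Finset.sum_eq_add_of_mem k i (Finset.mem_univ _) (Finset.mem_univ _) hkl]
    · simp [RM, hkl]
    · intro c _ hc
      simp [RM, hc.1, hc.2]
  · rw [Finset.sum_eq_single i]
    · simp [RM, hi]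
    · intro b _ hb
      simp [RM, hi, hb]
    · intro h; exact absurd (Finset.mem_univ _) h

theorem GM_mulVec_one (t : R)
    (x : ι → α) (y : ι → β) (hx : Function.Injective x) (hy : Function.Injective y) :
    (GM t x y).mulVec (fun _ => (1 : R)) = fun _ => 1 := by
  refine bubble_induction y hy (fun x => (GM t x y).mulVec (fun _ => (1 : R)) = fun _ => 1) ?_ ?_ x hx
  · intro x _ h
    rw [GM_of_same t x y h, Matrix.one_mulVec]
  · intro x hx k l hkl hadj hyl ih
    rw [GM_swap t x y hx hy k l hkl hadj hyl, ← Matrix.mulVec_mulVec,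
      RM_mulVec_one t k l (fun h => by rw [h] at hkl; exact lt_irrefl _ hkl)]
    exact ih

/-- order of swapped labelling -/
theorem swap_lt (x : ι → α) (hx : Function.Injective x) (k l : ι) (hkl : x k < x l)
    (hadj : ∀ m, ¬ (x k < x m ∧ x m < x l)) (i j : ι)
    (h : x (Equiv.swap k l i) < x (Equiv.swap k l j)) : x i < x j ∨ (i = l ∧ j = k) := by
  have hne : k ≠ l := fun h => by rw [h] at hkl; exact lt_irrefl _ hkl
  have cmp : ∀ m, m ≠ k → m ≠ l → (x m < x k ∨ x l < x m) := by
    intro m hmk hml
    rcases lt_trichotomy (x m) (x k) with h1 | h1 | h1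
    · exact Or.inl h1
    · exact absurd (hx h1) hmk
    · rcases lt_trichotomy (x m) (x l) with h2 | h2 | h2
      · exact absurd ⟨h1, h2⟩ (hadj m)
      · exact absurd (hx h2) hml
      · exact Or.inr h2
  by_cases hik : i = k
  · subst hik
    rw [Equiv.swap_apply_left] at h
    by_cases hjk : j = i
    · subst hjk; rw [Equiv.swap_apply_left] at h; exact absurd h (lt_irrefl _)
    · by_cases hjl : j = l
      · subst hjl; left; exact hkl
      · rw [Equiv.swap_apply_of_ne_of_ne hjk hjl] at h
        left; exact hkl.trans h
  · by_cases hil : i = l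
    · subst hil
      rw [Equiv.swap_apply_right] at h
      by_cases hjk : j = k
      · right; exact ⟨rfl, hjk⟩
      · by_cases hjl : j = i
        · subst hjl; rw [Equiv.swap_apply_right] at h; exact absurd h (lt_irrefl _)
        · rw [Equiv.swap_apply_of_ne_of_ne hjk hjl] at h
          left
          rcases cmp j hjk hjl with h1 | h1
          · exact absurd (h.trans h1) (lt_irrefl _)
          · exact h1
    · rw [Equiv.swap_apply_of_ne_of_ne hik hil] at h
      by_cases hjk : j = k
      · subst hjk
        rw [Equiv.swap_apply_left] at h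
        left
        rcases cmp i hik hil with h1 | h1
        · exact h1
        · exact absurd (h.trans h1) (lt_irrefl _)
      · by_cases hjl : j = l
        · subst hjl
          rw [Equiv.swap_apply_right] at h
          left; exact h.trans hkl
        · rw [Equiv.swap_apply_of_ne_of_ne hjk hjl] at h
          exact Or.inl h

/-- the other elementary formula -/
theorem GM_swap' (t : R) (x : ι → α) (y : ι → β) (hx : Function.Injective x)
    (hy : Function.Injective y) (k l : ι) (hkl : x k < x l) (hadj : ∀ m, ¬ (x k < x m ∧ x m < x l))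
    (hykl : y k < y l) :
    GM t (fun i => x (Equiv.swap k l i)) y = GM t x y * RM t l k := by
  have hne : k ≠ l := fun h => by rw [h] at hkl; exact lt_irrefl _ hkl
  have h := GM_swap t (fun i => x (Equiv.swap k l i)) y (hx.comp (Equiv.injective _)) hy l k
    (by simpa using hkl) (by
      intro m hm
      simp only [Equiv.swap_apply_right, Equiv.swap_apply_left] at hm
      exact hadj _ hm) hykl
  rw [h]
  congr 2
  funext i
  rw [Equiv.swap_comm l k, Equiv.swap_apply_self]

theorem GM_transport (t : R) (ht : IsUnit t)
    (x x' : ι → α) (y y' : ι → β) (hx : Function.Injective x) (hx' : Function.Injective x')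
    (hy : Function.Injective y) (hy' : Function.Injective y')
    (h : ∀ k l, x k < x l → x' l < x' k → (y k < y l ↔ y' k < y' l)) :
    (GM t x' y)⁻¹ * GM t x y = (GM t x' y')⁻¹ * GM t x y' := by
  revert h
  refine bubble_induction x' hx' (fun x => (∀ k l, x k < x l → x' l < x' k →
    (y k < y l ↔ y' k < y' l)) → (GM t x' y)⁻¹ * GM t x y = (GM t x' y')⁻¹ * GM t x y') ?_ ?_ x hx
  · intro x hx hord _
    have e1 : GM t x y = GM t x' y := GM_congr t x y x' y hord (fun i j => Iff.rfl)
    have e2 : GM t x y' = GM t x' y' := GM_congr t x y' x' y' hord (fun i j => Iff.rfl)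
    rw [e1, e2]
    rw [Matrix.nonsing_inv_mul _ ((Matrix.isUnit_iff_isUnit_det _).mp (GM_isUnit t ht x' y hx' hy)),
      Matrix.nonsing_inv_mul _ ((Matrix.isUnit_iff_isUnit_det _).mp (GM_isUnit t ht x' y' hx' hy'))]
  · intro x hx k l hkl hadj hxl ih h
    have hne : k ≠ l := fun h => by rw [h] at hkl; exact lt_irrefl _ hkl
    have ih' := ih (by
      intro i j hij hij'
      rcases swap_lt x hx k l hkl hadj i j hij with h1 | ⟨rfl, rfl⟩
      · exact h i j h1 hij'
      · exact absurd (hij'.trans hxl) (lt_irrefl _))
    rcases lt_or_gt_of_ne (fun h => hne (hy h) : y k ≠ y l) with hy1 | hy1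
    · have hy2 : y' k < y' l := (h k l hkl hxl).mp hy1
      have e1 := GM_swap' t x y hx hy k l hkl hadj hy1
      have e2 := GM_swap' t x y' hx hy' k l hkl hadj hy2
      have hR := RM_isUnit t ht l k hne.symm
      rw [e1, e2, ← Matrix.mul_assoc, ← Matrix.mul_assoc] at ih'
      exact hR.mul_left_injective ih'
    · have hy2 : y' l < y' k := by
        rcases lt_or_gt_of_ne (fun h => hne (hy' h) : y' k ≠ y' l) with h2 | h2
        · exact absurd ((h k l hkl hxl).mpr h2) (lt_asymm hy1)
        · exact h2
      have e1 := GM_swap t x y hx hy k l hkl hadj hy1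
      have e2 := GM_swap t x y' hx hy' k l hkl hadj hy2
      rw [e1, e2, ← Matrix.mul_assoc, ← Matrix.mul_assoc, ih']

theorem rank_swap (x : ι → α) (k l i : ι) :
    (Finset.univ.filter (fun m => x (Equiv.swap k l m) < x (Equiv.swap k l i))).card =
      (Finset.univ.filter (fun m => x m < x (Equiv.swap k l i))).card := by
  rw [Finset.card_filter, Finset.card_filter]
  exact Equiv.sum_comp (Equiv.swap k l) (fun m => if x m < x (Equiv.swap k l i) then 1 else 0)

theorem rank_adj (x : ι → α) (hx : Function.Injective x) (k l : ι) (hkl : x k < x l)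
    (hadj : ∀ m, ¬ (x k < x m ∧ x m < x l)) :
    (Finset.univ.filter (fun m => x m < x l)).card =
      (Finset.univ.filter (fun m => x m < x k)).card + 1 := by
  have : Finset.univ.filter (fun m => x m < x l) =
      insert k (Finset.univ.filter (fun m => x m < x k)) := by
    ext m
    simp only [Finset.mem_filter, Finset.mem_univ, true_and, Finset.mem_insert]
    constructor
    · intro h
      rcases lt_trichotomy (x m) (x k) with h1 | h1 | h1
      · exact Or.inr h1
      · exact Or.inl (hx h1)
      · exact absurd ⟨h1, h⟩ (hadj m)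
    · rintro (rfl | h)
      · exact hkl
      · exact h.trans hkl
  rw [this, Finset.card_insert_of_notMem (by simp)]

theorem vecMul_RM (t : R) (k l : ι) (hkl : k ≠ l) (φ : ι → R) :
    Matrix.vecMul φ (RM t k l) = fun j => if j = l then φ l * t else
      if j = k then φ k + φ l * (1 - t) else φ j := by
  funext j
  simp only [Matrix.vecMul, dotProduct]
  by_cases hjl : j = l
  · subst hjl
    rw [Finset.sum_eq_single j]
    · simp [RM]
    · intro b _ hb
      simp [RM, hb, Ne.symm hb]
    · intro h; exact absurd (Finset.mem_univ _) h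
  · by_cases hjk : j = k
    · subst hjk
      rw [Finset.sum_eq_add_of_mem j l (Finset.mem_univ _) (Finset.mem_univ _) hkl]
      · simp [RM, hkl]
      · intro c _ hc
        simp [RM, hc.2, Ne.symm hc.1]
    · rw [Finset.sum_eq_single j]
      · simp [RM, hjl, hjk]
      · intro b _ hb
        simp only [RM, Matrix.of_apply, hjl, hjk, if_false, Ne.symm hb]
        split_ifs <;> simp
      · intro h; exact absurd (Finset.mem_univ _) h

theorem GM_functional (t : R) (ht : IsUnit t)
    (x x' : ι → α) (y : ι → β) (hx : Function.Injective x) (hx' : Function.Injective x')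
    (hy : Function.Injective y) :
    Matrix.vecMul (fun k => t ^ (Finset.univ.filter (fun m => x' m < x' k)).card)
      ((GM t x' y)⁻¹ * GM t x y) = fun k => t ^ (Finset.univ.filter (fun m => x m < x k)).card := by
  refine bubble_induction x' hx' (fun x => Matrix.vecMul
    (fun k => t ^ (Finset.univ.filter (fun m => x' m < x' k)).card)
      ((GM t x' y)⁻¹ * GM t x y) = fun k => t ^ (Finset.univ.filter (fun m => x m < x k)).card)
    ?_ ?_ x hx
  · intro x hx hord
    have e1 : GM t x y = GM t x' y := GM_congr t x y x' y hord (fun i j => Iff.rfl)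
    rw [e1, Matrix.nonsing_inv_mul _
      ((Matrix.isUnit_iff_isUnit_det _).mp (GM_isUnit t ht x' y hx' hy)), Matrix.vecMul_one]
    funext k
    simp only [hord]
  · intro x hx k l hkl hadj hxl ih
    have hne : k ≠ l := fun h => by rw [h] at hkl; exact lt_irrefl _ hkl
    have hr := rank_adj x hx k l hkl hadj
    have hrk : (Finset.univ.filter (fun m => x (Equiv.swap k l m) < x (Equiv.swap k l k))).card =
        (Finset.univ.filter (fun m => x m < x k)).card + 1 := by
      rw [rank_swap, Equiv.swap_apply_left, hr]
    have hrl : (Finset.univ.filter (fun m => x (Equiv.swap k l m) < x (Equiv.swap k l l))).card =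
        (Finset.univ.filter (fun m => x m < x k)).card := by
      rw [rank_swap, Equiv.swap_apply_right]
    have hrj : ∀ j, j ≠ k → j ≠ l →
        (Finset.univ.filter (fun m => x (Equiv.swap k l m) < x (Equiv.swap k l j))).card =
        (Finset.univ.filter (fun m => x m < x j)).card := by
      intro j hjk hjl
      rw [rank_swap, Equiv.swap_apply_of_ne_of_ne hjk hjl]
    rcases lt_or_gt_of_ne (fun h => hne (hy h) : y k ≠ y l) with hy1 | hy1
    · have e1 := GM_swap' t x y hx hy k l hkl hadj hy1
      have hR := RM_isUnit t ht l k hne.symm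
      rw [e1, ← Matrix.mul_assoc, ← Matrix.vecMul_vecMul] at ih
      have e2 : Matrix.vecMul (fun k => t ^ (Finset.univ.filter (fun m => x m < x k)).card)
          (RM t l k) = fun j =>
            t ^ (Finset.univ.filter (fun m => x (Equiv.swap k l m) < x (Equiv.swap k l j))).card := by
        rw [vecMul_RM t l k hne.symm]
        funext j
        by_cases hjk : j = k
        · subst hjk
          rw [if_pos rfl, hrk, pow_succ]
        · rw [if_neg hjk]
          by_cases hjl : j = l
          · subst hjl
            rw [if_pos rfl, hrl, hr, pow_succ]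
            ring
          · rw [if_neg hjl, hrj j hjk hjl]
      rw [← e2] at ih
      obtain ⟨u, hu⟩ := hR
      have e3 := congrArg (fun v => Matrix.vecMul v ((u⁻¹ : (Matrix ι ι R)ˣ) : Matrix ι ι R)) ih
      simp only [Matrix.vecMul_vecMul, ← hu, mul_assoc, Units.mul_inv, mul_one, Matrix.mul_one,
        Matrix.vecMul_one] at e3
      exact e3
    · have e1 := GM_swap t x y hx hy k l hkl hadj hy1
      rw [e1, ← Matrix.mul_assoc, ← Matrix.vecMul_vecMul, ih, vecMul_RM t k l hne]
      funext j
      by_cases hjl : j = l
      · subst hjl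
        rw [if_pos rfl, hrl, hr, pow_succ]
      · rw [if_neg hjl]
        by_cases hjk : j = k
        · subst hjk
          rw [if_pos rfl, hrl, hrk, pow_succ]
          ring
        · rw [if_neg hjk, hrj j hjk hjl]

end

end Pool.Agent.Helper475.DL
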