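import Pool.Agent.Helper475.DLBase
set_option autoImplicit false
namespace Pool.Agent.Helper475.DL



/-- an `ε`-map separates `ε`-far points uniformly -/
theorem eps_map_uniform {X : Type} [MetricSpace X] [CompactSpace X] (f : X → E2) (hf : Continuous f)
    (ε : ℝ) (hε : 0 < ε) (hd : ∀ y : E2, Metric.diam (f ⁻¹' {y}) < ε) :
    ∃ η > 0, ∀ x x' : X, dist (f x) (f x') < η → dist x x' < ε := by
  have hcl : IsClosed {p : X × X | ε ≤ dist p.1 p.2} :=
    isClosed_le continuous_const (continuous_fst.dist continuous_snd)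
  have hK : IsCompact {p : X × X | ε ≤ dist p.1 p.2} := hcl.isCompact
  by_cases hne : ({p : X × X | ε ≤ dist p.1 p.2}).Nonempty
  · have hg : Continuous (fun p : X × X => dist (f p.1) (f p.2)) :=
      (hf.comp continuous_fst).dist (hf.comp continuous_snd)
    obtain ⟨p0, hp0, hmin⟩ := hK.exists_isMinOn hne hg.continuousOn
    have hp0' : ε ≤ dist p0.1 p0.2 := hp0
    have hpos : 0 < dist (f p0.1) (f p0.2) := by
      rcases (dist_nonneg (x := f p0.1) (y := f p0.2)).lt_or_eq with h | h
      · exact h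
      · exfalso
        have he : f p0.1 = f p0.2 := by
          rw [← dist_eq_zero]; exact h.symm
        have hb : Bornology.IsBounded (f ⁻¹' {f p0.2}) :=
          (isClosed_singleton.preimage hf).isCompact.isBounded
        have h1 : dist p0.1 p0.2 ≤ Metric.diam (f ⁻¹' {f p0.2}) :=
          Metric.dist_le_diam_of_mem hb (by simp [he]) (by simp)
        have h2 := hd (f p0.2)
        linarith
    refine ⟨dist (f p0.1) (f p0.2), hpos, ?_⟩
    intro x x' hlt
    by_contra hcon
    push Not at hcon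
    have hm := hmin (show (x, x') ∈ {p : X × X | ε ≤ dist p.1 p.2} from hcon)
    have hm' : dist (f p0.1) (f p0.2) ≤ dist (f x) (f x') := hm
    linarith
  · refine ⟨1, one_pos, ?_⟩
    intro x x' _
    by_contra hcon
    push Not at hcon
    exact hne ⟨(x, x'), hcon⟩

/-- approximate factorisation of a map through a map onto the disk -/
theorem approx_factor {X : Type} [MetricSpace X] [CompactSpace X] (hX : DiskLike X)
    {E : Type} [NormedAddCommGroup E] [NormedSpace ℝ E] (Ψ : X → E) (hΨ : Continuous Ψ)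
    (η : ℝ) (hη : 0 < η) :
    ∃ f : X → E2, ∃ u : E2 → E, Continuous f ∧ Set.range f = Metric.closedBall (0 : E2) 1 ∧
      Continuous u ∧ ∀ x, ‖u (f x) - Ψ x‖ < η := by
  have huc : UniformContinuous Ψ := CompactSpace.uniformContinuous_of_continuous hΨ
  obtain ⟨ε, hε, hδ⟩ := Metric.uniformContinuous_iff.1 huc η hη
  obtain ⟨f, hf, hr, hd⟩ := hX ε hε
  obtain ⟨δ, hδpos, hsep⟩ := eps_map_uniform f hf ε hε hd
  have hconv : ∀ y : E2, Convex ℝ {c : E | ∀ x, f x = y → ‖c - Ψ x‖ < η} := by
    intro y
    have : {c : E | ∀ x, f x = y → ‖c - Ψ x‖ < η} =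
        ⋂ x : X, ⋂ _ : f x = y, Metric.ball (Ψ x) η := by
      ext c
      simp [Metric.mem_ball, dist_eq_norm]
    rw [this]
    exact convex_iInter fun x => convex_iInter fun _ => convex_ball _ _
  have hloc : ∀ y0 : E2, ∃ c : E, ∀ᶠ y in nhds y0,
      c ∈ {c : E | ∀ x, f x = y → ‖c - Ψ x‖ < η} := by
    intro y0
    by_cases hy : y0 ∈ Set.range f
    · obtain ⟨x0, hx0⟩ := hy
      refine ⟨Ψ x0, ?_⟩
      filter_upwards [Metric.ball_mem_nhds y0 hδpos] with y hy x hx
      have h1 : dist (f x) (f x0) < δ := by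
        rw [hx, hx0]; exact hy
      have h2 := hδ (hsep x x0 h1)
      rw [dist_comm, dist_eq_norm] at h2
      exact h2
    · refine ⟨0, ?_⟩
      have hcl : IsClosed (Set.range f) := (isCompact_range hf).isClosed
      filter_upwards [hcl.isOpen_compl.mem_nhds hy] with y hy x hx
      exact absurd ⟨x, hx⟩ hy
  obtain ⟨g, hg⟩ := exists_continuous_forall_mem_convex_of_local_const hconv hloc
  exact ⟨f, g, hf, hr, g.continuous, fun x => hg (f x) x rfl⟩

end Pool.Agent.Helper475.DL
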