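import Mathlib
import Pool.Agent.Helper475.Miranda

set_option autoImplicit false

/-!
The triangulated plane with flaps and the doubled plane inside its one-skeleton: combinatorics.
-/

namespace Pool.Agent.Helper475.Flap

/-- Vertices: `(x, y, false)` is the lattice point `(x, y)`, `(x, y, true)` is the tip of the flap
at `(x, y)`. -/
abbrev V : Type := ℤ × ℤ × Bool

def T1 (x y : ℤ) : Finset V := {(x, y, false), (x + 1, y, false), (x + 1, y + 1, false)}
def T2 (x y : ℤ) : Finset V := {(x, y, false), (x, y + 1, false), (x + 1, y + 1, false)}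
def F1 (x y : ℤ) : Finset V := {(x - 1, y, false), (x, y, false), (x, y, true)}
def F2 (x y : ℤ) : Finset V := {(x, y, false), (x + 1, y, false), (x, y, true)}

/-- The simplices of the triangulated plane with flaps. -/
def S : Set (Finset V) :=
  {s | s.Nonempty ∧ ∃ x y : ℤ, s ⊆ T1 x y ∨ s ⊆ T2 x y ∨ s ⊆ F1 x y ∨ s ⊆ F2 x y}

theorem S_single (v : V) : ({v} : Finset V) ∈ S := by
  obtain ⟨x, y, b⟩ := v
  refine ⟨by simp, x, y, ?_⟩
  cases b
  · left; simp [T1]
  · right; right; left; simp [F1]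

theorem S_card (s : Finset V) (hs : s ∈ S) : s.Nonempty ∧ s.card ≤ 3 := by
  obtain ⟨h1, x, y, h⟩ := hs
  refine ⟨h1, ?_⟩
  rcases h with h | h | h | h
  · exact (Finset.card_le_card h).trans Finset.card_le_three
  · exact (Finset.card_le_card h).trans Finset.card_le_three
  · exact (Finset.card_le_card h).trans Finset.card_le_three
  · exact (Finset.card_le_card h).trans Finset.card_le_three

theorem S_down (s : Finset V) (hs : s ∈ S) (t : Finset V) (hts : t ⊆ s) (ht : t.Nonempty) :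
    t ∈ S := by
  obtain ⟨_, x, y, h⟩ := hs
  exact ⟨ht, x, y, h.imp (fun h => hts.trans h) (Or.imp (fun h => hts.trans h)
    (Or.imp (fun h => hts.trans h) (fun h => hts.trans h)))⟩

/-- The one-skeleton. -/
abbrev K : SimpleGraph V := SimpleGraph.fromRel (fun u v : V => ∃ s ∈ S, u ∈ s ∧ v ∈ s)

/-- Oriented edges of the doubled plane. -/
def E (u v : V) : Prop :=
  (∃ x y : ℤ, u = (x, y, false) ∧ v = (x, y + 1, false)) ∨
  (∃ x y : ℤ, (x + y) % 2 = 0 ∧ u = (x, y, false) ∧ v = (x + 1, y, true)) ∨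
  (∃ x y : ℤ, (x + y) % 2 = 0 ∧ u = (x + 1, y, true) ∧ v = (x + 2, y, false)) ∨
  (∃ i j : ℤ, (IsSquare i ∨ IsSquare j) ∧ u = (2 * i, 2 * j, false) ∧
    v = (2 * i + 1, 2 * j + 1, false))

theorem E_ne (u v : V) (h : E u v) : u ≠ v := by
  rcases h with ⟨x, y, rfl, rfl⟩ | ⟨x, y, _, rfl, rfl⟩ | ⟨x, y, _, rfl, rfl⟩ | ⟨i, j, _, rfl, rfl⟩
    <;> simp

theorem E_simplex (u v : V) (h : E u v) : ∃ s ∈ S, u ∈ s ∧ v ∈ s := by
  rcases h with ⟨x, y, rfl, rfl⟩ | ⟨x, y, _, rfl, rfl⟩ | ⟨x, y, _, rfl, rfl⟩ | ⟨i, j, _, rfl, rfl⟩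
  · exact ⟨T2 x y, ⟨⟨_, by simp [T2]; left; rfl⟩, x, y, Or.inr (Or.inl (le_refl _))⟩, by simp [T2],
      by simp [T2]⟩
  · refine ⟨F1 (x + 1) y, ⟨⟨(x + 1, y, true), by simp [F1]⟩, x + 1, y,
      Or.inr (Or.inr (Or.inl (le_refl _)))⟩, by simp [F1], by simp [F1]⟩
  · refine ⟨F2 (x + 1) y, ⟨⟨(x + 1, y, true), by simp [F2]⟩, x + 1, y,
      Or.inr (Or.inr (Or.inr (le_refl _)))⟩, by simp [F2], ?_⟩
    simp only [F2, Finset.mem_insert, Finset.mem_singleton, Prod.mk.injEq]
    right; left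
    exact ⟨by ring, by simp⟩
  · exact ⟨T1 (2 * i) (2 * j), ⟨⟨(2 * i, 2 * j, false), by simp [T1]⟩, _, _, Or.inl (le_refl _)⟩,
      by simp [T1], by simp [T1]⟩

/-- The doubled plane, a subgraph of the one-skeleton: all lattice points, and the flap tips
`(x, y, true)` with `x + y` odd. -/
def Y : K.Subgraph where
  verts := {v | v.2.2 = false ∨ (v.1 + v.2.1) % 2 = 1}
  Adj u v := E u v ∨ E v u
  adj_sub := by
    intro u v h
    rw [SimpleGraph.fromRel_adj]
    rcases h with h | h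
    · exact ⟨E_ne _ _ h, Or.inl (E_simplex _ _ h)⟩
    · exact ⟨(E_ne _ _ h).symm, Or.inr (E_simplex _ _ h)⟩
  edge_vert := by
    intro u v h
    rcases h with h | h
    · rcases h with ⟨x, y, rfl, rfl⟩ | ⟨x, y, h, rfl, rfl⟩ | ⟨x, y, h, rfl, rfl⟩ |
        ⟨i, j, _, rfl, rfl⟩
      · left; rfl
      · left; rfl
      · right; change (x + 1 + y) % 2 = 1; omega
      · left; rfl
    · rcases h with ⟨x, y, rfl, rfl⟩ | ⟨x, y, h, rfl, rfl⟩ | ⟨x, y, h, rfl, rfl⟩ |
        ⟨i, j, _, rfl, rfl⟩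
      · left; rfl
      · right; change (x + 1 + y) % 2 = 1; omega
      · left; rfl
      · left; rfl
  symm := ⟨fun _ _ h => h.symm⟩

/-- A lattice point as a vertex of `Y`. -/
def lat (x y : ℤ) : Y.verts := ⟨(x, y, false), Or.inl rfl⟩

theorem adj_of_E (u v : Y.verts) (h : E u.1 v.1) : Y.coe.Adj u v := by
  rw [SimpleGraph.Subgraph.coe_adj]
  exact Or.inl h

theorem adj_vert (x y : ℤ) : Y.coe.Adj (lat x y) (lat x (y + 1)) :=
  adj_of_E _ _ (Or.inl ⟨x, y, rfl, rfl⟩)

/-- A flap tip as a vertex of `Y`. -/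
def tip (x y : ℤ) (h : (x + y) % 2 = 1) : Y.verts := ⟨(x, y, true), Or.inr h⟩

theorem adj_hor1 (x y : ℤ) (h : (x + y) % 2 = 0) :
    Y.coe.Adj (lat x y) (tip (x + 1) y (by omega)) :=
  adj_of_E _ _ (Or.inr (Or.inl ⟨x, y, h, rfl, rfl⟩))

theorem adj_hor2 (x y : ℤ) (h : (x + y) % 2 = 0) :
    Y.coe.Adj (tip (x + 1) y (by omega)) (lat (x + 2) y) :=
  adj_of_E _ _ (Or.inr (Or.inr (Or.inl ⟨x, y, h, rfl, rfl⟩)))

theorem adj_conn (i j : ℤ) (h : IsSquare i ∨ IsSquare j) :
    Y.coe.Adj (lat (2 * i) (2 * j)) (lat (2 * i + 1) (2 * j + 1)) :=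
  adj_of_E _ _ (Or.inr (Or.inr (Or.inr ⟨i, j, h, rfl, rfl⟩)))

theorem reach_vert (x : ℤ) (y y' : ℤ) : Y.coe.Reachable (lat x y) (lat x y') := by
  have h : ∀ y : ℤ, Y.coe.Reachable (lat x 0) (lat x y) := by
    intro y
    induction y using Int.induction_on with
    | zero => exact SimpleGraph.Reachable.refl _
    | succ n ih => exact ih.trans (adj_vert x n).reachable
    | pred n ih =>
      refine ih.trans ?_
      have := adj_vert x (-(n : ℤ) - 1)
      rw [sub_add_cancel] at this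
      exact this.symm.reachable
  exact (h y).symm.trans (h y')

theorem reach_hor (x y : ℤ) (h : (x + y) % 2 = 0) :
    Y.coe.Reachable (lat x y) (lat (x + 2) y) :=
  (adj_hor1 x y h).reachable.trans (adj_hor2 x y h).reachable

theorem Y_connected : Y.Connected := by
  -- everything is reachable from the origin
  have h1 : ∀ k : ℤ, ∀ e : ℤ, (e = 0 ∨ e = 1) →
      Y.coe.Reachable (lat e e) (lat (2 * k + e) e) := by
    intro k e _
    induction k using Int.induction_on with
    | zero => rw [mul_zero, zero_add]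
    | succ n ih =>
      refine ih.trans ?_
      have := reach_hor (2 * n + e) e (by omega)
      have e2 : (2 * (n : ℤ) + e + 2) = 2 * (n + 1) + e := by ring
      rwa [e2] at this
    | pred n ih =>
      refine ih.trans ?_
      have := reach_hor (2 * (-(n : ℤ) - 1) + e) e (by omega)
      have e2 : (2 * (-(n : ℤ) - 1) + e + 2) = 2 * (-(n : ℤ)) + e := by ring
      rw [e2] at this
      exact this.symm
  have h2 : ∀ x y : ℤ, Y.coe.Reachable (lat 0 0) (lat x y) := by
    intro x y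
    rcases Int.emod_two_eq_zero_or_one x with hx | hx
    · have e1 : x = 2 * (x / 2) + 0 := by omega
      have := (h1 (x / 2) 0 (Or.inl rfl)).trans (reach_vert (2 * (x / 2) + 0) 0 y)
      rw [← e1] at this
      exact this
    · have e1 : x = 2 * (x / 2) + 1 := by omega
      have h3 := adj_conn 0 0 (Or.inl (IsSquare.zero))
      have := (h1 (x / 2) 1 (Or.inr rfl)).trans (reach_vert (2 * (x / 2) + 1) 1 y)
      rw [← e1] at this
      exact h3.reachable.trans this
  have h3 : ∀ v : Y.verts, Y.coe.Reachable (lat 0 0) v := by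
    rintro ⟨⟨x, y, b⟩, hv⟩
    cases b
    · exact h2 x y
    · have hv' : (x + y) % 2 = 1 := by
        rcases hv with hv | hv
        · exact absurd hv (by simp)
        · exact hv
      have h4 := adj_hor1 (x - 1) y (by omega)
      have h5 := (h2 (x - 1) y).trans h4.reachable
      have e1 : (tip (x - 1 + 1) y (by omega) : Y.verts) = ⟨(x, y, true), hv⟩ := by
        apply Subtype.ext
        simp [tip]
      rwa [e1] at h5
  constructor
  have : Nonempty Y.verts := ⟨lat 0 0⟩
  refine SimpleGraph.Connected.mk ?_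
  intro u v
  exact (h3 u).symm.trans (h3 v)

theorem Yc : Y.coe.Connected := Y_connected.coe

/-- Hubs: `e = false` for the first sheet, `e = true` for the second sheet. -/
def hub (p : ℤ × ℤ × Bool) : Y.verts :=
  lat (2 * p.1 + (if p.2.2 then 1 else 0)) (2 * p.2.1 + (if p.2.2 then 1 else 0))

theorem dist_vert (x y : ℤ) : Y.coe.dist (lat x y) (lat x (y + 2)) ≤ 2 := by
  have h1 := SimpleGraph.dist_eq_one_iff_adj.2 (adj_vert x y)
  have h2 := SimpleGraph.dist_eq_one_iff_adj.2 (adj_vert x (y + 1))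
  have h3 := Yc.dist_triangle (u := lat x y) (v := lat x (y + 1)) (w := lat x (y + 1 + 1))
  have e1 : y + 1 + 1 = y + 2 := by ring
  rw [e1] at h2 h3
  omega

theorem dist_hor (x y : ℤ) (h : (x + y) % 2 = 0) :
    Y.coe.dist (lat x y) (lat (x + 2) y) ≤ 2 := by
  have h1 := SimpleGraph.dist_eq_one_iff_adj.2 (adj_hor1 x y h)
  have h2 := SimpleGraph.dist_eq_one_iff_adj.2 (adj_hor2 x y h)
  have h3 := Yc.dist_triangle (u := lat x y) (v := tip (x + 1) y (by omega))
    (w := lat (x + 2) y)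
  omega

theorem dist_hub_i (i i' j : ℤ) (e : Bool) (h : |i - i'| ≤ 1) :
    Y.coe.dist (hub (i, j, e)) (hub (i', j, e)) ≤ 2 := by
  have key : ∀ i : ℤ, Y.coe.dist (hub (i, j, e)) (hub (i + 1, j, e)) ≤ 2 := by
    intro i
    simp only [hub]
    have := dist_hor (2 * i + (if e then 1 else 0)) (2 * j + (if e then 1 else 0))
      (by split_ifs <;> omega)
    have e1 : 2 * i + (if e = true then (1 : ℤ) else 0) + 2 =
        2 * (i + 1) + (if e = true then (1 : ℤ) else 0) := by ring
    rwa [e1] at this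
  rw [abs_le] at h
  rcases (by omega : i' = i ∨ i' = i + 1 ∨ i = i' + 1) with h1 | h1 | h1
  · rw [h1, SimpleGraph.dist_self]; omega
  · rw [h1]; exact key i
  · rw [h1, SimpleGraph.dist_comm]; exact key i'

theorem dist_hub_j (i j j' : ℤ) (e : Bool) (h : |j - j'| ≤ 1) :
    Y.coe.dist (hub (i, j, e)) (hub (i, j', e)) ≤ 2 := by
  have key : ∀ j : ℤ, Y.coe.dist (hub (i, j, e)) (hub (i, j + 1, e)) ≤ 2 := by
    intro j
    simp only [hub]
    have := dist_vert (2 * i + (if e then 1 else 0)) (2 * j + (if e then 1 else 0))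
    have e1 : 2 * j + (if e = true then (1 : ℤ) else 0) + 2 =
        2 * (j + 1) + (if e = true then (1 : ℤ) else 0) := by ring
    rwa [e1] at this
  rw [abs_le] at h
  rcases (by omega : j' = j ∨ j' = j + 1 ∨ j = j' + 1) with h1 | h1 | h1
  · rw [h1, SimpleGraph.dist_self]; omega
  · rw [h1]; exact key j
  · rw [h1, SimpleGraph.dist_comm]; exact key j'

theorem dist_hub_e (i j : ℤ) (e e' : Bool) (h : IsSquare i ∨ IsSquare j) :
    Y.coe.dist (hub (i, j, e)) (hub (i, j, e')) ≤ 1 := by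
  have key : Y.coe.dist (hub (i, j, false)) (hub (i, j, true)) = 1 := by
    rw [SimpleGraph.dist_eq_one_iff_adj]
    have := adj_conn i j h
    simpa [hub] using this
  cases e <;> cases e'
  · rw [SimpleGraph.dist_self]; omega
  · exact key.le
  · rw [SimpleGraph.dist_comm]; exact key.le
  · rw [SimpleGraph.dist_self]; omega

/-- The sheet of a vertex, zero or one. -/
def sh (w : V) : ℤ := if w.2.2 then w.2.1 % 2 else w.1 % 2

/-- Height of the pyramid over the square `[2a, 2b]^2`. -/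
def ht (a b q0 q1 : ℤ) : ℤ :=
  max 0 (min (min (q0 - 2 * a) (2 * b - q0)) (min (q1 - 2 * a) (2 * b - q1)))

/-- Position of a vertex relative to the centre of a double pyramid. -/
def pos (a b : ℤ) (w : V) : Fin 3 → ℤ :=
  ![max (2 * a) (min (w.1 - sh w) (2 * b)) - (a + b),
    max (2 * a) (min (w.2.1 - sh w) (2 * b)) - (a + b),
    if sh w = 0 then - ht a b (w.1 - sh w) (w.2.1 - sh w)
      else ht a b (w.1 - sh w) (w.2.1 - sh w)]

theorem ht_lip0 (a b q0 q1 : ℤ) : |ht a b q0 q1 - ht a b (q0 + 1) q1| ≤ 1 := by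
  simp only [ht]
  rw [abs_le]
  omega

theorem ht_lip1 (a b q0 q1 : ℤ) : |ht a b q0 q1 - ht a b q0 (q1 + 1)| ≤ 1 := by
  simp only [ht]
  rw [abs_le]
  omega

theorem sgn_lip0 (a b s q0 q1 q0' q1' : ℤ) (h0 : q0' = q0 + 1) (h1 : q1' = q1) :
    |(if s = 0 then - ht a b q0 q1 else ht a b q0 q1) -
      (if s = 0 then - ht a b q0' q1' else ht a b q0' q1')| ≤ 1 := by
  subst h0 h1
  have := ht_lip0 a b q0 q1'
  split_ifs
  · rw [abs_le] at this ⊢
    omega
  · exact this

theorem sgn_lip1 (a b s q0 q1 q0' q1' : ℤ) (h0 : q0' = q0) (h1 : q1' = q1 + 1) :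
    |(if s = 0 then - ht a b q0 q1 else ht a b q0 q1) -
      (if s = 0 then - ht a b q0' q1' else ht a b q0' q1')| ≤ 1 := by
  subst h0 h1
  have := ht_lip1 a b q0' q1
  split_ifs
  · rw [abs_le] at this ⊢
    omega
  · exact this

theorem pos_lip_E (k : ℤ) (hk : 0 ≤ k) (u v : V) (h : E u v) (c : Fin 3) :
    |pos (k ^ 2) ((k + 1) ^ 2) u c - pos (k ^ 2) ((k + 1) ^ 2) v c| ≤ 1 := by
  have hkk : k ^ 2 ≤ (k + 1) ^ 2 := by nlinarith
  generalize ha : k ^ 2 = a at *
  generalize hb : (k + 1) ^ 2 = b at *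
  rcases h with ⟨x, y, rfl, rfl⟩ | ⟨x, y, h, rfl, rfl⟩ | ⟨x, y, h, rfl, rfl⟩ | ⟨i, j, h, rfl, rfl⟩
  · have e1 : sh (x, y, false) = x % 2 := rfl
    have e2 : sh (x, y + 1, false) = x % 2 := rfl
    fin_cases c
    · simp [pos, e1, e2]
    · simp only [pos, e1, e2, Fin.mk_one, Matrix.cons_val_one, Matrix.cons_val_zero]
      rw [abs_le]
      omega
    · simp only [pos, e1, e2, Fin.reduceFinMk, Matrix.cons_val]
      exact sgn_lip1 _ _ _ _ _ _ _ (by ring) (by ring)
  · have e1 : sh (x, y, false) = x % 2 := rfl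
    have e2 : sh (x + 1, y, true) = y % 2 := rfl
    have e3 : y % 2 = x % 2 := by omega
    rw [e3] at e2
    fin_cases c
    · simp only [pos, e1, e2, Fin.zero_eta, Matrix.cons_val_zero]
      rw [abs_le]
      omega
    · simp only [pos, e1, e2, Fin.mk_one, Matrix.cons_val_one, Matrix.cons_val_zero]
      rw [abs_le]
      omega
    · simp only [pos, e1, e2, Fin.reduceFinMk, Matrix.cons_val]
      exact sgn_lip0 _ _ _ _ _ _ _ (by ring) (by ring)
  · have e1 : sh (x + 1, y, true) = y % 2 := rfl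
    have e2 : sh (x + 2, y, false) = (x + 2) % 2 := rfl
    have e3 : (x + 2) % 2 = y % 2 := by omega
    rw [e3] at e2
    fin_cases c
    · simp only [pos, e1, e2, Fin.zero_eta, Matrix.cons_val_zero]
      rw [abs_le]
      omega
    · simp only [pos, e1, e2, Fin.mk_one, Matrix.cons_val_one, Matrix.cons_val_zero]
      rw [abs_le]
      omega
    · simp only [pos, e1, e2, Fin.reduceFinMk, Matrix.cons_val]
      exact sgn_lip0 _ _ _ _ _ _ _ (by ring) (by ring)
  · have e1 : sh (2 * i, 2 * j, false) = 0 := by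
      change (2 * i) % 2 = 0; omega
    have e2 : sh (2 * i + 1, 2 * j + 1, false) = 1 := by
      change (2 * i + 1) % 2 = 1; omega
    -- a square is not strictly between two consecutive squares
    have sq : ∀ n : ℤ, IsSquare n → n ≤ a ∨ b ≤ n := by
      rintro n ⟨r, rfl⟩
      subst ha hb
      rcases le_or_gt (|r|) k with h1 | h1
      · left
        have := abs_nonneg r
        nlinarith [abs_mul_abs_self r]
      · right
        have h2 : k + 1 ≤ |r| := h1
        nlinarith [abs_mul_abs_self r]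
    have hij : ht a b (2 * i) (2 * j) = 0 := by
      simp only [ht]
      rcases h with h | h
      · rcases sq i h with h1 | h1 <;> omega
      · rcases sq j h with h1 | h1 <;> omega
    have e3 : 2 * i + 1 - 1 = 2 * i := by ring
    have e4 : 2 * j + 1 - 1 = 2 * j := by ring
    fin_cases c
    · simp [pos, e1, e2]
    · simp [pos, e1, e2]
    · simp [pos, e1, e2, e3, e4, hij]

theorem pos_lip (k : ℤ) (hk : 0 ≤ k) (u v : Y.verts) (c : Fin 3) :
    |pos (k ^ 2) ((k + 1) ^ 2) u c - pos (k ^ 2) ((k + 1) ^ 2) v c| ≤ Y.coe.dist u v := by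
  obtain ⟨p, hp⟩ := Yc.exists_walk_length_eq_dist u v
  rw [← hp]
  clear hp
  induction p with
  | nil => simp
  | @cons a b d h q ih =>
    have h1 : |pos (k ^ 2) ((k + 1) ^ 2) a c - pos (k ^ 2) ((k + 1) ^ 2) b c| ≤ 1 := by
      rw [SimpleGraph.Subgraph.coe_adj] at h
      rcases h with h | h
      · exact pos_lip_E k hk _ _ h c
      · rw [abs_sub_comm]
        exact pos_lip_E k hk _ _ h c
    have h2 := abs_sub_le (pos (k ^ 2) ((k + 1) ^ 2) a c) (pos (k ^ 2) ((k + 1) ^ 2) b c)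
      (pos (k ^ 2) ((k + 1) ^ 2) d c)
    rw [SimpleGraph.Walk.length_cons]
    push_cast
    linarith

/-- The image of `pos` avoids a large cube around the centre. -/
theorem pos_far (a b r : ℤ) (hab : 2 * r < b - a) (w : V) :
    ∃ c, r < |pos a b w c| := by
  by_contra hcon
  push Not at hcon
  have h0 := hcon 0
  have h1 := hcon 1
  have h2 := hcon 2
  simp only [pos, Matrix.cons_val_zero, Matrix.cons_val_one, Matrix.cons_val, ht] at h0 h1 h2
  rw [abs_le] at h0 h1 h2
  split_ifs at h2 <;> omega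

theorem pos_bdd (a b : ℤ) (hab : a ≤ b) (w : V) (c : Fin 3) : |pos a b w c| ≤ 2 * (b - a) := by
  fin_cases c
  · simp only [pos, Fin.zero_eta, Matrix.cons_val_zero]
    rw [abs_le]; omega
  · simp only [pos, Fin.mk_one, Matrix.cons_val_one, Matrix.cons_val_zero]
    rw [abs_le]; omega
  · simp only [pos, Fin.reduceFinMk, Matrix.cons_val, ht]
    rw [abs_le]
    split_ifs <;> omega

end Pool.Agent.Helper475.Flap
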