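import Mathlib
import Pool.Agent.Helper475.FlapGraph

set_option autoImplicit false

/-!
Contractibility of the realization of the triangulated plane with flaps.
(Proof by helper552.)
-/

namespace Pool.Agent.Helper475.FlapC

open Pool.Agent.Helper475.Flap (V T1 T2 F1 F2 S)

/-- A maximal simplex. -/
def Mx (m : Finset V) : Prop := ∃ x y : ℤ, m = T1 x y ∨ m = T2 x y ∨ m = F1 x y ∨ m = F2 x y

lemma Mx.mem_S {m : Finset V} (h : Mx m) : m ∈ S := by
  obtain ⟨x, y, h⟩ := h
  refine ⟨?_, x, y, ?_⟩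
  · rcases h with rfl | rfl | rfl | rfl <;> exact ⟨_, Finset.mem_insert_self _ _⟩
  · rcases h with rfl | rfl | rfl | rfl
    · exact Or.inl subset_rfl
    · exact Or.inr (Or.inl subset_rfl)
    · exact Or.inr (Or.inr (Or.inl subset_rfl))
    · exact Or.inr (Or.inr (Or.inr subset_rfl))

lemma exists_Mx {s : Finset V} (h : s ∈ S) : ∃ m, Mx m ∧ s ⊆ m := by
  obtain ⟨-, x, y, h⟩ := h
  rcases h with h | h | h | h
  · exact ⟨_, ⟨x, y, Or.inl rfl⟩, h⟩
  · exact ⟨_, ⟨x, y, Or.inr (Or.inl rfl)⟩, h⟩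
  · exact ⟨_, ⟨x, y, Or.inr (Or.inr (Or.inl rfl))⟩, h⟩
  · exact ⟨_, ⟨x, y, Or.inr (Or.inr (Or.inr rfl))⟩, h⟩

abbrev L : Type := lp (fun _ : V => ℝ) 1

/-- `f` is a point of the (closed) simplex `m`. -/
def On (m : Finset V) (f : V → ℝ) : Prop :=
  (∀ v, 0 ≤ f v) ∧ (∀ v, v ∉ m → f v = 0) ∧ ∑ v ∈ m, f v = 1

abbrev R : Type := {f : L // (∀ v, 0 ≤ f v) ∧ ∃ s ∈ S, (∀ v, v ∉ s → f v = 0) ∧ ∑ v ∈ s, f v = 1}

lemma R.on (f : R) : ∃ m, Mx m ∧ On m (f.1 : V → ℝ) := by
  obtain ⟨f, h0, s, hs, h1, h2⟩ := f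
  obtain ⟨m, hm, hsm⟩ := exists_Mx hs
  refine ⟨m, hm, h0, fun v hv => h1 v fun h => hv (hsm h), ?_⟩
  exact ((Finset.sum_subset hsm fun v _ hv => h1 v hv).symm).trans h2

def mkR {m : Finset V} (hm : Mx m) (f : L) (h : On m (f : V → ℝ)) : R :=
  ⟨f, h.1, m, hm.mem_S, h.2⟩

lemma On.convex {m : Finset V} {f g : V → ℝ} (hf : On m f) (hg : On m g) {t : ℝ} (h0 : 0 ≤ t)
    (h1 : t ≤ 1) : On m (fun v => (1 - t) * f v + t * g v) := by
  refine ⟨fun v => ?_, fun v hv => ?_, ?_⟩
  · exact add_nonneg (mul_nonneg (by linarith) (hf.1 v)) (mul_nonneg h0 (hg.1 v))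
  · simp only [hf.2.1 v hv, hg.2.1 v hv]
    ring
  · rw [Finset.sum_add_distrib, ← Finset.mul_sum, ← Finset.mul_sum, hf.2.2, hg.2.2]
    ring

/-- The hat function. -/
noncomputable def hat (a b : ℝ) : ℝ := max 0 (1 + min (min 0 a) b - max (max 0 a) b)

lemma hat_nonneg (a b : ℝ) : 0 ≤ hat a b := le_max_left _ _

lemma continuous_hat : Continuous (fun p : ℝ × ℝ => hat p.1 p.2) := by
  unfold hat
  fun_prop

lemma hat_ne_zero {a b : ℝ} (h : hat a b ≠ 0) :
    -1 < a ∧ a < 1 ∧ -1 < b ∧ b < 1 ∧ a - b < 1 ∧ b - a < 1 := by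
  have h1 : 0 < 1 + min (min 0 a) b - max (max 0 a) b := by
    by_contra hn
    exact h (max_eq_left (not_lt.1 hn))
  have m1 : min (min 0 a) b ≤ 0 := (min_le_left _ _).trans (min_le_left _ _)
  have m2 : min (min 0 a) b ≤ a := (min_le_left _ _).trans (min_le_right _ _)
  have m3 : min (min 0 a) b ≤ b := min_le_right _ _
  have M1 : 0 ≤ max (max 0 a) b := (le_max_left _ _).trans (le_max_left _ _)
  have M2 : a ≤ max (max 0 a) b := (le_max_right _ _).trans (le_max_left _ _)
  have M3 : b ≤ max (max 0 a) b := le_max_right _ _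
  refine ⟨?_, ?_, ?_, ?_, ?_, ?_⟩ <;> linarith

/-- Barycentric coordinates of a point of the plane. -/
noncomputable def Bf (z : ℝ × ℝ) (v : V) : ℝ :=
  if v.2.2 = true then 0 else hat (z.1 - v.1) (z.2 - v.2.1)

lemma Bf_nonneg (z : ℝ × ℝ) (v : V) : 0 ≤ Bf z v := by
  unfold Bf
  split_ifs
  · exact le_rfl
  · exact hat_nonneg _ _

/-- A finite box of vertices. -/
noncomputable def box (x y : ℤ) : Finset V :=
  (Finset.Icc (x - 3) (x + 3)) ×ˢ ((Finset.Icc (y - 3) (y + 3)) ×ˢ Finset.univ)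

lemma mem_box {x y : ℤ} {v : V} :
    v ∈ box x y ↔ (x - 3 ≤ v.1 ∧ v.1 ≤ x + 3) ∧ (y - 3 ≤ v.2.1 ∧ v.2.1 ≤ y + 3) := by
  simp [box, Finset.mem_product]

lemma Bf_support {z : ℝ × ℝ} {v : V} (h : Bf z v ≠ 0) :
    v.2.2 = false ∧ hat (z.1 - v.1) (z.2 - v.2.1) ≠ 0 := by
  unfold Bf at h
  split_ifs at h with hb
  · exact absurd rfl h
  · exact ⟨by simpa using hb, h⟩

lemma Bf_box {x y : ℤ} {z : ℝ × ℝ} (hx : |z.1 - x| ≤ 1) (hy : |z.2 - y| ≤ 1) {v : V}
    (h : v ∉ box x y) : Bf z v = 0 := by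
  by_contra hne
  obtain ⟨-, h2⟩ := Bf_support hne
  obtain ⟨a1, a2, b1, b2, -, -⟩ := hat_ne_zero h2
  rw [abs_le] at hx hy
  apply h
  rw [mem_box]
  have c1 : ((x : ℝ) - 3) < v.1 := by linarith [hx.1]
  have c2 : (v.1 : ℝ) < x + 3 := by linarith [hx.2]
  have c3 : ((y : ℝ) - 3) < v.2.1 := by linarith [hy.1]
  have c4 : (v.2.1 : ℝ) < y + 3 := by linarith [hy.2]
  have d1 : x - 3 < v.1 := by exact_mod_cast c1
  have d2 : v.1 < x + 3 := by exact_mod_cast c2
  have d3 : y - 3 < v.2.1 := by exact_mod_cast c3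
  have d4 : v.2.1 < y + 3 := by exact_mod_cast c4
  exact ⟨⟨d1.le, d2.le⟩, ⟨d3.le, d4.le⟩⟩

lemma near_floor (t : ℝ) : |t - (⌊t⌋ : ℤ)| ≤ 1 := by
  have h1 := Int.floor_le t
  have h2 := Int.lt_floor_add_one t
  rw [abs_le]
  constructor <;> linarith

lemma memlp (z : ℝ × ℝ) : Memℓp (fun v => Bf z v) (1 : ENNReal) := by
  have h0 : Memℓp (fun v => Bf z v) (0 : ENNReal) := by
    rw [memℓp_zero_iff]
    refine (box ⌊z.1⌋ ⌊z.2⌋).finite_toSet.subset ?_
    intro v hv
    by_contra hne
    exact hv (Bf_box (near_floor _) (near_floor _) hne)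
  exact h0.of_exponent_ge zero_le_one

/-- The point of `ℓ¹` with the given barycentric coordinates. -/
noncomputable def BL (z : ℝ × ℝ) : L := ⟨fun v => Bf z v, memlp z⟩

lemma BL_apply (z : ℝ × ℝ) (v : V) : (BL z : V → ℝ) v = Bf z v := rfl

lemma continuous_Bf (v : V) : Continuous (fun w : ℝ × ℝ => Bf w v) := by
  unfold Bf
  split_ifs
  · exact continuous_const
  · have h : Continuous (fun w : ℝ × ℝ => (w.1 - (v.1 : ℝ), w.2 - (v.2.1 : ℝ))) := by fun_prop
    exact continuous_hat.comp h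

lemma continuous_BL : Continuous BL := by
  rw [continuous_iff_continuousAt]
  intro z
  have hn : ∀ᶠ w : ℝ × ℝ in nhds z, |w.1 - (⌊z.1⌋ : ℤ)| < 1 ∧ |w.2 - (⌊z.2⌋ : ℤ)| < 1 := by
    have h1 := Int.floor_le z.1
    have h2 := Int.lt_floor_add_one z.1
    have h3 := Int.floor_le z.2
    have h4 := Int.lt_floor_add_one z.2
    have c1 : Continuous (fun w : ℝ × ℝ => |w.1 - (⌊z.1⌋ : ℤ)|) := by fun_prop
    have c2 : Continuous (fun w : ℝ × ℝ => |w.2 - (⌊z.2⌋ : ℤ)|) := by fun_prop
    refine ((c1.tendsto z).eventually_lt_const ?_).and ((c2.tendsto z).eventually_lt_const ?_)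
    · rw [abs_lt]; constructor <;> linarith
    · rw [abs_lt]; constructor <;> linarith
  have hc : Continuous (fun w : ℝ × ℝ => ∑ v ∈ box ⌊z.1⌋ ⌊z.2⌋,
      lp.singleContinuousLinearMap ℝ (fun _ : V => ℝ) 1 v (Bf w v)) := by
    refine continuous_finsetSum _ fun v _ => ?_
    exact (lp.singleContinuousLinearMap ℝ (fun _ : V => ℝ) 1 v).continuous.comp (continuous_Bf v)
  refine hc.continuousAt.congr ?_
  filter_upwards [hn] with w hw
  apply lp.ext
  funext u
  rw [lp.coeFn_sum, Finset.sum_apply]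
  simp only [lp.singleContinuousLinearMap_apply, lp.single_apply, Pi.single_apply, BL_apply]
  rw [Finset.sum_ite_eq]
  split_ifs with hu
  · rfl
  · exact (Bf_box hw.1.le hw.2.le hu).symm

lemma cast_lt_helper {k : ℤ} {a : ℝ} (h : a - k < 1) (ha : 0 ≤ a) : 0 ≤ k := by
  have : (-1 : ℝ) < k := by linarith
  have h2 : (-1 : ℤ) < k := by exact_mod_cast this
  omega

lemma cast_gt_helper {k : ℤ} {a : ℝ} (h : -1 < a - k) (ha : a ≤ 1) : k ≤ 1 := by
  have : (k : ℝ) < 2 := by linarith
  have h2 : k < 2 := by exact_mod_cast this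
  omega

/-- Points of the lower triangle. -/
lemma tri1 {z : ℝ × ℝ} {x y : ℤ} (h1 : (y : ℝ) ≤ z.2) (h2 : z.2 - y ≤ z.1 - x)
    (h3 : z.1 ≤ x + 1) : On (T1 x y) (Bf z) := by
  refine ⟨Bf_nonneg z, fun v hv => ?_, ?_⟩
  · by_contra hne
    obtain ⟨hb, h⟩ := Bf_support hne
    obtain ⟨a1, a2, b1, b2, c1, c2⟩ := hat_ne_zero h
    obtain ⟨i, j, b⟩ := v
    simp only at hb a1 a2 b1 b2 c1 c2
    subst hb
    obtain ⟨k, rfl⟩ : ∃ k, i = x + k := ⟨i - x, by ring⟩
    obtain ⟨l, rfl⟩ : ∃ l, j = y + l := ⟨j - y, by ring⟩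
    push_cast at a1 a2 b1 b2 c1 c2
    have k0 : 0 ≤ k := cast_lt_helper (a := z.1 - x) (by linarith) (by linarith)
    have k1 : k ≤ 1 := cast_gt_helper (a := z.1 - x) (by linarith) (by linarith)
    have l0 : 0 ≤ l := cast_lt_helper (a := z.2 - y) (by linarith) (by linarith)
    have l1 : l ≤ 1 := cast_gt_helper (a := z.2 - y) (by linarith) (by linarith)
    have hkl : ¬ (k = 0 ∧ l = 1) := by
      rintro ⟨rfl, rfl⟩
      push_cast at c1
      linarith
    apply hv
    have : (k = 0 ∧ l = 0) ∨ (k = 1 ∧ l = 0) ∨ (k = 1 ∧ l = 1) := by omega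
    rcases this with ⟨rfl, rfl⟩ | ⟨rfl, rfl⟩ | ⟨rfl, rfl⟩ <;> simp [T1]
  · unfold T1
    rw [Finset.sum_insert (by simp), Finset.sum_insert (by simp), Finset.sum_singleton]
    have e1 : Bf z (x, y, false) = 1 - (z.1 - x) := by
      simp only [Bf, Bool.false_eq_true, if_false, hat]
      rw [min_eq_left (a := (0:ℝ)) (b := z.1 - x) (by linarith),
        max_eq_right (a := (0:ℝ)) (b := z.1 - x) (by linarith),
        min_eq_left (a := (0:ℝ)) (b := z.2 - y) (by linarith),
        max_eq_left (a := z.1 - x) (b := z.2 - y) h2, max_eq_right (by linarith)]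
      ring
    have e2 : Bf z (x + 1, y, false) = (z.1 - x) - (z.2 - y) := by
      simp only [Bf, Bool.false_eq_true, if_false, hat]
      push_cast
      rw [min_eq_right (a := (0:ℝ)) (b := z.1 - (x + 1)) (by linarith),
        max_eq_left (a := (0:ℝ)) (b := z.1 - (x + 1)) (by linarith),
        min_eq_left (a := z.1 - (x + 1)) (b := z.2 - y) (by linarith),
        max_eq_right (a := (0:ℝ)) (b := z.2 - y) (by linarith), max_eq_right (by linarith)]
      ring
    have e3 : Bf z (x + 1, y + 1, false) = z.2 - y := by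
      simp only [Bf, Bool.false_eq_true, if_false, hat]
      push_cast
      rw [min_eq_right (a := (0:ℝ)) (b := z.1 - (x + 1)) (by linarith),
        max_eq_left (a := (0:ℝ)) (b := z.1 - (x + 1)) (by linarith),
        min_eq_right (a := z.1 - (x + 1)) (b := z.2 - (y + 1)) (by linarith),
        max_eq_left (a := (0:ℝ)) (b := z.2 - (y + 1)) (by linarith), max_eq_right (by linarith)]
      ring
    rw [e1, e2, e3]
    ring

/-- Points of the upper triangle. -/
lemma tri2 {z : ℝ × ℝ} {x y : ℤ} (h1 : (x : ℝ) ≤ z.1) (h2 : z.1 - x ≤ z.2 - y)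
    (h3 : z.2 ≤ y + 1) : On (T2 x y) (Bf z) := by
  refine ⟨Bf_nonneg z, fun v hv => ?_, ?_⟩
  · by_contra hne
    obtain ⟨hb, h⟩ := Bf_support hne
    obtain ⟨a1, a2, b1, b2, c1, c2⟩ := hat_ne_zero h
    obtain ⟨i, j, b⟩ := v
    simp only at hb a1 a2 b1 b2 c1 c2
    subst hb
    obtain ⟨k, rfl⟩ : ∃ k, i = x + k := ⟨i - x, by ring⟩
    obtain ⟨l, rfl⟩ : ∃ l, j = y + l := ⟨j - y, by ring⟩
    push_cast at a1 a2 b1 b2 c1 c2
    have k0 : 0 ≤ k := cast_lt_helper (a := z.1 - x) (by linarith) (by linarith)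
    have k1 : k ≤ 1 := cast_gt_helper (a := z.1 - x) (by linarith) (by linarith)
    have l0 : 0 ≤ l := cast_lt_helper (a := z.2 - y) (by linarith) (by linarith)
    have l1 : l ≤ 1 := cast_gt_helper (a := z.2 - y) (by linarith) (by linarith)
    have hkl : ¬ (k = 1 ∧ l = 0) := by
      rintro ⟨rfl, rfl⟩
      push_cast at c2
      linarith
    apply hv
    have : (k = 0 ∧ l = 0) ∨ (k = 0 ∧ l = 1) ∨ (k = 1 ∧ l = 1) := by omega
    rcases this with ⟨rfl, rfl⟩ | ⟨rfl, rfl⟩ | ⟨rfl, rfl⟩ <;> simp [T2]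
  · unfold T2
    rw [Finset.sum_insert (by simp), Finset.sum_insert (by simp), Finset.sum_singleton]
    have e1 : Bf z (x, y, false) = 1 - (z.2 - y) := by
      simp only [Bf, Bool.false_eq_true, if_false, hat]
      rw [min_eq_left (a := (0:ℝ)) (b := z.1 - x) (by linarith),
        max_eq_right (a := (0:ℝ)) (b := z.1 - x) (by linarith),
        min_eq_left (a := (0:ℝ)) (b := z.2 - y) (by linarith),
        max_eq_right (a := z.1 - x) (b := z.2 - y) h2, max_eq_right (by linarith)]
      ring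
    have e2 : Bf z (x, y + 1, false) = (z.2 - y) - (z.1 - x) := by
      simp only [Bf, Bool.false_eq_true, if_false, hat]
      push_cast
      rw [min_eq_left (a := (0:ℝ)) (b := z.1 - x) (by linarith),
        max_eq_right (a := (0:ℝ)) (b := z.1 - x) (by linarith),
        min_eq_right (a := (0:ℝ)) (b := z.2 - (y + 1)) (by linarith),
        max_eq_left (a := z.1 - x) (b := z.2 - (y + 1)) (by linarith), max_eq_right (by linarith)]
      ring
    have e3 : Bf z (x + 1, y + 1, false) = z.1 - x := by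
      simp only [Bf, Bool.false_eq_true, if_false, hat]
      push_cast
      rw [min_eq_right (a := (0:ℝ)) (b := z.1 - (x + 1)) (by linarith),
        max_eq_left (a := (0:ℝ)) (b := z.1 - (x + 1)) (by linarith),
        min_eq_left (a := z.1 - (x + 1)) (b := z.2 - (y + 1)) (by linarith),
        max_eq_left (a := (0:ℝ)) (b := z.2 - (y + 1)) (by linarith), max_eq_right (by linarith)]
      ring
    rw [e1, e2, e3]
    ring

/-- Points of a horizontal edge. -/
lemma edge {z : ℝ × ℝ} {x y : ℤ} (h1 : z.2 = y) (h2 : (x : ℝ) ≤ z.1) (h3 : z.1 ≤ x + 1)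
    {m : Finset V} (ha : ((x, y, false) : V) ∈ m) (hb : ((x + 1, y, false) : V) ∈ m) :
    On m (Bf z) := by
  have ht := tri1 (z := z) (x := x) (y := y) h1.ge (by linarith) h3
  have hz : Bf z (x + 1, y + 1, false) = 0 := by
    by_contra hne
    obtain ⟨-, h⟩ := Bf_support hne
    obtain ⟨a1, a2, b1, b2, c1, c2⟩ := hat_ne_zero h
    simp only at b1
    push_cast at b1
    linarith
  have hsum : ∑ v ∈ ({(x, y, false), (x + 1, y, false)} : Finset V), Bf z v = 1 := by
    have := ht.2.2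
    unfold T1 at this
    rw [Finset.sum_insert (by simp), Finset.sum_insert (by simp), Finset.sum_singleton, hz] at this
    rw [Finset.sum_insert (by simp), Finset.sum_singleton]
    linarith
  have hzero : ∀ v, v ∉ ({(x, y, false), (x + 1, y, false)} : Finset V) → Bf z v = 0 := by
    intro v hv
    by_cases hv2 : v ∈ T1 x y
    · simp only [T1, Finset.mem_insert, Finset.mem_singleton] at hv2 hv
      rcases hv2 with rfl | rfl | rfl
      · exact absurd (Or.inl rfl) hv
      · exact absurd (Or.inr rfl) hv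
      · exact hz
    · exact ht.2.1 v hv2
  have hsub : ({(x, y, false), (x + 1, y, false)} : Finset V) ⊆ m := by
    intro v hv
    simp only [Finset.mem_insert, Finset.mem_singleton] at hv
    rcases hv with rfl | rfl
    · exact ha
    · exact hb
  refine ⟨Bf_nonneg z, fun v hv => hzero v fun h => hv (hsub h), ?_⟩
  rw [← hsum]
  exact (Finset.sum_subset hsub fun v _ hv => hzero v hv).symm

lemma exists_on (z : ℝ × ℝ) : ∃ m, Mx m ∧ On m (Bf z) := by
  have h1 := Int.floor_le z.1
  have h2 := Int.lt_floor_add_one z.1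
  have h3 := Int.floor_le z.2
  have h4 := Int.lt_floor_add_one z.2
  rcases le_total (z.2 - ⌊z.2⌋) (z.1 - ⌊z.1⌋) with h | h
  · exact ⟨_, ⟨⌊z.1⌋, ⌊z.2⌋, Or.inl rfl⟩, tri1 h3 h h2.le⟩
  · exact ⟨_, ⟨⌊z.1⌋, ⌊z.2⌋, Or.inr (Or.inl rfl)⟩, tri2 h1 h h4.le⟩

/-- The position in the plane of a point of the realization. -/
noncomputable def A (f : V → ℝ) : ℝ × ℝ := (∑' v, f v * v.1, ∑' v, f v * v.2.1)

lemma A_eq {f : V → ℝ} {m : Finset V} (h : ∀ v, v ∉ m → f v = 0) :
    A f = (∑ v ∈ m, f v * v.1, ∑ v ∈ m, f v * v.2.1) := by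
  unfold A
  rw [tsum_eq_sum (s := m), tsum_eq_sum (s := m)]
  · intro v hv; rw [h v hv, zero_mul]
  · intro v hv; rw [h v hv, zero_mul]

lemma on_BA {f : V → ℝ} {m : Finset V} (hm : Mx m) (h : On m f) : On m (Bf (A f)) := by
  obtain ⟨x, y, hm⟩ := hm
  have hA := A_eq h.2.1
  have hs := h.2.2
  have h0 := h.1
  rcases hm with rfl | rfl | rfl | rfl
  · unfold T1 at hA hs
    rw [Finset.sum_insert (by simp), Finset.sum_insert (by simp), Finset.sum_singleton,
      Finset.sum_insert (by simp), Finset.sum_insert (by simp), Finset.sum_singleton] at hA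
    rw [Finset.sum_insert (by simp), Finset.sum_insert (by simp), Finset.sum_singleton] at hs
    push_cast at hA
    have p1 := h0 (x, y, false)
    have p2 := h0 (x + 1, y, false)
    have p3 := h0 (x + 1, y + 1, false)
    generalize f (x, y, false) = a at *
    generalize f (x + 1, y, false) = b at *
    generalize f (x + 1, y + 1, false) = c at *
    have ha : a = 1 - b - c := by linarith
    subst ha
    apply tri1 <;> rw [hA] <;> simp only <;> nlinarith
  · unfold T2 at hA hs
    rw [Finset.sum_insert (by simp), Finset.sum_insert (by simp), Finset.sum_singleton,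
      Finset.sum_insert (by simp), Finset.sum_insert (by simp), Finset.sum_singleton] at hA
    rw [Finset.sum_insert (by simp), Finset.sum_insert (by simp), Finset.sum_singleton] at hs
    push_cast at hA
    have p1 := h0 (x, y, false)
    have p2 := h0 (x, y + 1, false)
    have p3 := h0 (x + 1, y + 1, false)
    generalize f (x, y, false) = a at *
    generalize f (x, y + 1, false) = b at *
    generalize f (x + 1, y + 1, false) = c at *
    have ha : a = 1 - b - c := by linarith
    subst ha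
    apply tri2 <;> rw [hA] <;> simp only <;> nlinarith
  · have hA2 := hA
    unfold F1 at hA2 hs
    rw [Finset.sum_insert (by simp), Finset.sum_insert (by simp), Finset.sum_singleton,
      Finset.sum_insert (by simp), Finset.sum_insert (by simp), Finset.sum_singleton] at hA2
    rw [Finset.sum_insert (by simp), Finset.sum_insert (by simp), Finset.sum_singleton] at hs
    push_cast at hA2
    have p1 := h0 (x - 1, y, false)
    have p2 := h0 (x, y, false)
    have p3 := h0 (x, y, true)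
    generalize f (x - 1, y, false) = a at *
    generalize f (x, y, false) = b at *
    generalize f (x, y, true) = c at *
    have ha : a = 1 - b - c := by linarith
    subst ha
    apply edge (x := x - 1) (y := y)
    · rw [hA2]; simp only; ring
    · rw [hA2]; simp only; push_cast; nlinarith
    · rw [hA2]; simp only; push_cast; nlinarith
    · simp [F1]
    · simp [F1]
  · have hA2 := hA
    unfold F2 at hA2 hs
    rw [Finset.sum_insert (by simp), Finset.sum_insert (by simp), Finset.sum_singleton,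
      Finset.sum_insert (by simp), Finset.sum_insert (by simp), Finset.sum_singleton] at hA2
    rw [Finset.sum_insert (by simp), Finset.sum_insert (by simp), Finset.sum_singleton] at hs
    push_cast at hA2
    have p1 := h0 (x, y, false)
    have p2 := h0 (x + 1, y, false)
    have p3 := h0 (x, y, true)
    generalize f (x, y, false) = a at *
    generalize f (x + 1, y, false) = b at *
    generalize f (x, y, true) = c at *
    have ha : a = 1 - b - c := by linarith
    subst ha
    apply edge (x := x) (y := y)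
    · rw [hA2]; simp only; ring
    · rw [hA2]; simp only; nlinarith
    · rw [hA2]; simp only; nlinarith
    · simp [F2]
    · simp [F2]

lemma Mx.sub_box {m : Finset V} (hm : Mx m) {v : V} (hv : v ∈ m) : m ⊆ box v.1 v.2.1 := by
  obtain ⟨x, y, h⟩ := hm
  intro w hw
  rw [mem_box]
  rcases h with rfl | rfl | rfl | rfl
  · simp only [T1, Finset.mem_insert, Finset.mem_singleton] at hv hw
    rcases hv with rfl | rfl | rfl <;> rcases hw with rfl | rfl | rfl <;> simp <;> omega
  · simp only [T2, Finset.mem_insert, Finset.mem_singleton] at hv hw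
    rcases hv with rfl | rfl | rfl <;> rcases hw with rfl | rfl | rfl <;> simp <;> omega
  · simp only [F1, Finset.mem_insert, Finset.mem_singleton] at hv hw
    rcases hv with rfl | rfl | rfl <;> rcases hw with rfl | rfl | rfl <;> simp <;> omega
  · simp only [F2, Finset.mem_insert, Finset.mem_singleton] at hv hw
    rcases hv with rfl | rfl | rfl <;> rcases hw with rfl | rfl | rfl <;> simp <;> omega

lemma continuous_eval (v : V) : Continuous (fun f : L => (f : V → ℝ) v) :=
  (lp.evalCLM ℝ (fun _ : V => ℝ) (p := 1) v).continuous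

lemma continuous_A : Continuous (fun f : R => A (f.1 : V → ℝ)) := by
  rw [continuous_iff_continuousAt]
  intro f
  obtain ⟨m, hm, hon⟩ := f.on
  obtain ⟨v0, hv0, hpos⟩ : ∃ v ∈ m, 0 < (f.1 : V → ℝ) v := by
    by_contra hne
    push Not at hne
    have h1 : ∑ v ∈ m, (f.1 : V → ℝ) v ≤ 0 := Finset.sum_nonpos hne
    rw [hon.2.2] at h1
    norm_num at h1
  have hc : Continuous (fun g : R => ((∑ v ∈ box v0.1 v0.2.1, (g.1 : V → ℝ) v * (v.1 : ℝ),
      ∑ v ∈ box v0.1 v0.2.1, (g.1 : V → ℝ) v * (v.2.1 : ℝ)) : ℝ × ℝ)) := by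
    refine Continuous.prodMk ?_ ?_
    · refine continuous_finsetSum _ fun v _ => ?_
      exact ((continuous_eval v).comp continuous_subtype_val).mul continuous_const
    · refine continuous_finsetSum _ fun v _ => ?_
      exact ((continuous_eval v).comp continuous_subtype_val).mul continuous_const
  refine hc.continuousAt.congr ?_
  have hev : ∀ᶠ g : R in nhds f, 0 < (g.1 : V → ℝ) v0 :=
    (((continuous_eval v0).comp continuous_subtype_val).tendsto f).eventually_const_lt hpos
  filter_upwards [hev] with g hg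
  obtain ⟨m', hm', hon'⟩ := g.on
  have hmem : v0 ∈ m' := by
    by_contra hne
    rw [hon'.2.1 v0 hne] at hg
    exact lt_irrefl _ hg
  have hsub := hm'.sub_box hmem
  exact (A_eq fun v hv => hon'.2.1 v fun h => hv (hsub h)).symm

lemma BL_mem (z : ℝ × ℝ) : (∀ v, 0 ≤ (BL z : V → ℝ) v) ∧
    ∃ s ∈ S, (∀ v, v ∉ s → (BL z : V → ℝ) v = 0) ∧ ∑ v ∈ s, (BL z : V → ℝ) v = 1 := by
  obtain ⟨m, hm, h⟩ := exists_on z
  exact ⟨h.1, m, hm.mem_S, h.2⟩

/-- The map from the plane to the realization. -/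
noncomputable def BR : C(ℝ × ℝ, R) where
  toFun z := ⟨BL z, BL_mem z⟩
  continuous_toFun := Continuous.subtype_mk continuous_BL BL_mem

/-- The map from the realization to the plane. -/
noncomputable def AR : C(R, ℝ × ℝ) where
  toFun f := A (f.1 : V → ℝ)
  continuous_toFun := continuous_A

theorem contractible : ContractibleSpace {f : lp (fun _ : V => ℝ) 1 //
    (∀ v, 0 ≤ f v) ∧ ∃ s ∈ S, (∀ v, v ∉ s → f v = 0) ∧ ∑ v ∈ s, f v = 1} := by
  rw [contractible_iff_id_nullhomotopic]
  have H1 : (ContinuousMap.id R).Homotopic (BR.comp AR) := by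
    refine ⟨⟨⟨fun p => ⟨(1 - (p.1 : ℝ)) • p.2.1 + (p.1 : ℝ) • (BR (AR p.2)).1, ?_⟩, ?_⟩, ?_, ?_⟩⟩
    · obtain ⟨m, hm, hon⟩ := p.2.on
      have h2 : On m ((BR (AR p.2)).1 : V → ℝ) := on_BA hm hon
      have h3 := hon.convex h2 p.1.2.1 p.1.2.2
      exact ⟨h3.1, m, hm.mem_S, h3.2⟩
    · refine Continuous.subtype_mk ?_ _
      have c1 : Continuous (fun p : unitInterval × R => (p.1 : ℝ)) := by fun_prop
      have c2 : Continuous (fun p : unitInterval × R => (p.2.1 : L)) := by fun_prop
      have c3 : Continuous (fun p : unitInterval × R => ((BR (AR p.2)).1 : L)) :=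
        continuous_subtype_val.comp (BR.continuous.comp (AR.continuous.comp continuous_snd))
      exact ((continuous_const.sub c1).smul c2).add (c1.smul c3)
    · intro f
      apply Subtype.ext
      simp
    · intro f
      apply Subtype.ext
      simp
  have H2 : (BR.comp AR).Homotopic (ContinuousMap.const R (BR 0)) := by
    refine ⟨⟨⟨fun p => BR ((1 - (p.1 : ℝ)) • AR p.2), ?_⟩, ?_, ?_⟩⟩
    · refine BR.continuous.comp ?_
      have c1 : Continuous (fun p : unitInterval × R => (p.1 : ℝ)) := by fun_prop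
      exact (continuous_const.sub c1).smul (AR.continuous.comp continuous_snd)
    · intro f
      simp
    · intro f
      simp
  exact ⟨BR 0, H1.trans H2⟩

end Pool.Agent.Helper475.FlapC
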