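import Mathlib
import Pool.Agent.Helper475.FlapGraph

set_option autoImplicit false

/-!
The large spheres in the Rips complex of the doubled plane and the obstruction to filling them.
-/

namespace Pool.Agent.Helper475.Flap

open Filter Topology

section Functional

variable {ι : Type}

/-- A bounded function defines a continuous linear functional on `ℓ^1`. -/
theorem exists_functional (q : ι → ℝ) (C : ℝ) (hq : ∀ a, |q a| ≤ C) :
    ∃ L : lp (fun _ : ι => ℝ) 1 →L[ℝ] ℝ, ∀ (f : lp (fun _ : ι => ℝ) 1) (s : Finset ι),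
      (∀ a, a ∉ s → f a = 0) → L f = ∑ a ∈ s, f a * q a := by
  have hs : ∀ f : lp (fun _ : ι => ℝ) 1, Summable (fun a => ‖f a‖) := by
    intro f
    have := (lp.memℓp f).summable (by norm_num)
    simpa using this
  have hs2 : ∀ f : lp (fun _ : ι => ℝ) 1, Summable (fun a => f a * q a) := by
    intro f
    refine Summable.of_norm_bounded ((hs f).mul_left C) (fun a => ?_)
    rw [norm_mul, mul_comm]
    exact mul_le_mul_of_nonneg_right (hq a) (norm_nonneg _)
  have hn : ∀ f : lp (fun _ : ι => ℝ) 1, ‖f‖ = ∑' a, ‖f a‖ := by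
    intro f
    have := lp.norm_eq_tsum_rpow (p := 1) (by norm_num) f
    simpa using this
  let L0 : lp (fun _ : ι => ℝ) 1 →ₗ[ℝ] ℝ :=
    { toFun := fun f => ∑' a, f a * q a
      map_add' := by
        intro f g
        rw [← (hs2 f).tsum_add (hs2 g)]
        apply tsum_congr
        intro a
        simp [add_mul]
      map_smul' := by
        intro c f
        simp only [RingHom.id_apply, smul_eq_mul]
        rw [← tsum_mul_left]
        apply tsum_congr
        intro a
        simp [mul_assoc] }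
  refine ⟨L0.mkContinuous C ?_, ?_⟩
  · intro f
    have hC : 0 ≤ C ∨ IsEmpty ι := by
      rcases isEmpty_or_nonempty ι with h | ⟨⟨a⟩⟩
      · exact Or.inr h
      · exact Or.inl ((abs_nonneg _).trans (hq a))
    calc ‖∑' a, f a * q a‖ ≤ ∑' a, ‖f a * q a‖ := norm_tsum_le_tsum_norm (hs2 f).norm
      _ ≤ ∑' a, C * ‖f a‖ := by
          refine Summable.tsum_le_tsum (fun a => ?_) (hs2 f).norm ((hs f).mul_left C)
          rw [norm_mul, mul_comm]
          exact mul_le_mul_of_nonneg_right (hq a) (norm_nonneg _)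
      _ = C * ‖f‖ := by rw [tsum_mul_left, hn]
  · intro f s hf
    change ∑' a, f a * q a = _
    rw [tsum_eq_sum (s := s)]
    intro a ha
    rw [hf a ha, zero_mul]

end Functional

section Comb

variable {ι κ : Type} [DecidableEq ι]

/-- Finite combination of unit masses. -/
noncomputable def comb (I : Finset κ) (v : κ → ι) (c : κ → ℝ) : lp (fun _ : ι => ℝ) 1 :=
  ∑ p ∈ I, c p • lp.single 1 (v p) (1 : ℝ)

theorem comb_apply (I : Finset κ) (v : κ → ι) (c : κ → ℝ) (a : ι) :
    comb I v c a = ∑ p ∈ I, if v p = a then c p else 0 := by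
  simp only [comb]
  rw [lp.coeFn_sum, Finset.sum_apply]
  refine Finset.sum_congr rfl (fun p _ => ?_)
  rw [lp.coeFn_smul, Pi.smul_apply, lp.single_apply, Pi.single_apply, smul_eq_mul]
  by_cases h : v p = a
  · simp [h]
  · have h' : a ≠ v p := fun e => h e.symm
    simp [h, h']

theorem comb_supp (I : Finset κ) (v : κ → ι) (c : κ → ℝ) (hc : ∀ p, 0 ≤ c p)
    (h1 : ∑ p ∈ I, c p = 1) (d : ι → ι → Prop)
    (hd : ∀ p ∈ I, ∀ q ∈ I, c p ≠ 0 → c q ≠ 0 → d (v p) (v q)) :
    (∀ a, 0 ≤ comb I v c a) ∧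
      ∃ s : Finset ι, (∀ a, a ∉ s → comb I v c a = 0) ∧ ∑ a ∈ s, comb I v c a = 1 ∧
        ∀ a ∈ s, ∀ b ∈ s, d a b := by
  classical
  constructor
  · intro a
    rw [comb_apply]
    apply Finset.sum_nonneg
    intro p _
    split_ifs
    · exact hc p
    · exact le_rfl
  · refine ⟨(I.filter (fun p => c p ≠ 0)).image v, ?_, ?_, ?_⟩
    · intro a ha
      rw [comb_apply]
      apply Finset.sum_eq_zero
      intro p hp
      split_ifs with h
      · by_contra hne
        apply ha
        rw [Finset.mem_image]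
        exact ⟨p, Finset.mem_filter.2 ⟨hp, hne⟩, h⟩
      · rfl
    · simp only [comb_apply]
      rw [Finset.sum_comm, ← h1]
      refine Finset.sum_congr rfl (fun p hp => ?_)
      rw [Finset.sum_ite_eq]
      split_ifs with h
      · rfl
      · by_contra hne
        apply h
        rw [Finset.mem_image]
        exact ⟨p, Finset.mem_filter.2 ⟨hp, fun e => hne e.symm⟩, rfl⟩
    · intro a ha b hb
      rw [Finset.mem_image] at ha hb
      obtain ⟨p, hp, rfl⟩ := ha
      obtain ⟨q, hq, rfl⟩ := hb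
      rw [Finset.mem_filter] at hp hq
      exact hd p hp.1 q hq.1 hp.2 hq.2

theorem functional_comb (L : lp (fun _ : ι => ℝ) 1 →L[ℝ] ℝ) (q : ι → ℝ)
    (hL : ∀ (f : lp (fun _ : ι => ℝ) 1) (s : Finset ι),
      (∀ a, a ∉ s → f a = 0) → L f = ∑ a ∈ s, f a * q a)
    (I : Finset κ) (v : κ → ι) (c : κ → ℝ) :
    L (comb I v c) = ∑ p ∈ I, c p * q (v p) := by
  simp only [comb]
  rw [map_sum]
  refine Finset.sum_congr rfl (fun p _ => ?_)
  rw [map_smul, smul_eq_mul, hL _ {v p}]
  · simp
  · intro a ha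
    rw [Finset.mem_singleton] at ha
    rw [lp.single_apply, Pi.single_apply, if_neg ha]

end Comb

/-- The tent function. -/
noncomputable def tent (r : ℝ) : ℝ := max 0 (1 - |r|)

theorem tent_nonneg (r : ℝ) : 0 ≤ tent r := le_max_left _ _

theorem tent_cont : Continuous tent := by
  unfold tent
  fun_prop

theorem tent_ne (r : ℝ) (h : tent r ≠ 0) : |r| < 1 := by
  by_contra hcon
  push Not at hcon
  apply h
  simp only [tent]
  apply max_eq_left
  linarith

theorem tent_sum (a b : ℤ) (s : ℝ) (h1 : (a : ℝ) ≤ s) (h2 : s ≤ b) :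
    ∑ i ∈ Finset.Icc a b, tent (s - i) = 1 := by
  classical
  have hext : ∑ i ∈ Finset.Icc a b, tent (s - i) = ∑ i ∈ Finset.Icc a (b + 1), tent (s - i) := by
    apply Finset.sum_subset (Finset.Icc_subset_Icc le_rfl (by omega))
    intro i hi hi'
    rw [Finset.mem_Icc] at hi hi'
    have : i = b + 1 := by omega
    by_contra hne
    have h3 := tent_ne _ hne
    rw [this, abs_lt] at h3
    push_cast at h3
    linarith [h3.1]
  rw [hext]
  set n := ⌊s⌋ with hn
  have hn1 : (n : ℝ) ≤ s := Int.floor_le s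
  have hn2 : s < n + 1 := Int.lt_floor_add_one s
  have ha : a ≤ n := Int.le_floor.2 h1
  have hb : n ≤ b := by
    have : (n : ℝ) ≤ b := hn1.trans h2
    exact_mod_cast this
  have hsub : ({n, n + 1} : Finset ℤ) ⊆ Finset.Icc a (b + 1) := by
    intro i hi
    rw [Finset.mem_insert, Finset.mem_singleton] at hi
    rw [Finset.mem_Icc]
    omega
  rw [← Finset.sum_subset hsub]
  · rw [Finset.sum_pair (by omega)]
    simp only [tent]
    push_cast
    rw [abs_of_nonneg (by linarith : 0 ≤ s - n), abs_of_nonpos (by linarith : s - (n + 1) ≤ 0),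
      max_eq_right (by linarith), max_eq_right (by linarith)]
    ring
  · intro i _ hi
    rw [Finset.mem_insert, Finset.mem_singleton, not_or] at hi
    by_contra hne
    have h3 := tent_ne _ hne
    rw [abs_lt] at h3
    have h4 : (i : ℝ) < s + 1 := by linarith [h3.1]
    have h5 : s - 1 < i := by linarith [h3.2]
    have h6 : i < n + 2 := by
      have : (i : ℝ) < ((n + 2 : ℤ) : ℝ) := by push_cast; linarith
      exact_mod_cast this
    have h7 : n - 1 < i := by
      have : ((n - 1 : ℤ) : ℝ) < i := by push_cast; linarith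
      exact_mod_cast this
    omega

/-- The largest absolute value of a coordinate. -/
noncomputable def mx (x : EuclideanSpace ℝ (Fin 3)) : ℝ := max |x 0| (max |x 1| |x 2|)

theorem mx_cont : Continuous mx := by
  unfold mx
  fun_prop

theorem le_mx (x : EuclideanSpace ℝ (Fin 3)) (i : Fin 3) : |x i| ≤ mx x := by
  fin_cases i
  · exact le_max_left _ _
  · exact (le_max_left _ _).trans (le_max_right _ _)
  · exact (le_max_right _ _).trans (le_max_right _ _)

theorem mx_pos (x : EuclideanSpace ℝ (Fin 3)) (hx : ‖x‖ = 1) : 0 < mx x := by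
  by_contra hcon
  push Not at hcon
  have h : x = 0 := by
    ext i
    have := (le_mx x i).trans hcon
    simpa using abs_nonpos_iff.1 this
  rw [h, norm_zero] at hx
  exact zero_ne_one hx

/-- Normalised coordinate. -/
noncomputable def uc (x : EuclideanSpace ℝ (Fin 3)) (i : Fin 3) : ℝ := x i / mx x

theorem uc_abs (x : EuclideanSpace ℝ (Fin 3)) (hx : ‖x‖ = 1) (i : Fin 3) : |uc x i| ≤ 1 := by
  simp only [uc]
  rw [abs_div, abs_of_pos (mx_pos x hx), div_le_one (mx_pos x hx)]
  exact le_mx x i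

theorem uc_cont (i : Fin 3) :
    ContinuousOn (fun x => uc x i) (Metric.sphere (0 : EuclideanSpace ℝ (Fin 3)) 1) := by
  unfold uc
  apply ContinuousOn.div
  · fun_prop
  · exact mx_cont.continuousOn
  · intro x hx
    exact (mx_pos x (by simpa using hx)).ne'

theorem uc_max (x : EuclideanSpace ℝ (Fin 3)) (hx : ‖x‖ = 1) :
    |uc x 0| = 1 ∨ |uc x 1| = 1 ∨ |uc x 2| = 1 := by
  have hp := mx_pos x hx
  have key : ∀ i, |x i| = mx x → |uc x i| = 1 := by
    intro i hi
    simp only [uc]
    rw [abs_div, hi, abs_of_pos hp, div_self hp.ne']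
  rcases max_choice |x 0| (max |x 1| |x 2|) with h | h
  · exact Or.inl (key 0 h.symm)
  · rcases max_choice |x 1| |x 2| with h' | h'
    · exact Or.inr (Or.inl (key 1 (by rw [mx, h, h'])))
    · exact Or.inr (Or.inr (key 2 (by rw [mx, h, h'])))

theorem uc_one (x : EuclideanSpace ℝ (Fin 3)) (hx : ‖x‖ = 1) (i : Fin 3)
    (h : ∀ j, |x j| ≤ x i) : uc x i = 1 := by
  have hp := mx_pos x hx
  have h0 : 0 ≤ x i := (abs_nonneg _).trans (h i)
  have : mx x = x i := by
    apply le_antisymm
    · simp only [mx]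
      exact max_le (h 0) (max_le (h 1) (h 2))
    · have := le_mx x i
      rwa [abs_of_nonneg h0] at this
  simp only [uc]
  rw [this]
  exact div_self (by rw [← this]; exact hp.ne')

theorem uc_neg_one (x : EuclideanSpace ℝ (Fin 3)) (hx : ‖x‖ = 1) (i : Fin 3)
    (h : ∀ j, |x j| ≤ - x i) : uc x i = -1 := by
  have hp := mx_pos x hx
  have h0 : 0 ≤ - x i := (abs_nonneg _).trans (h i)
  have : mx x = - x i := by
    apply le_antisymm
    · simp only [mx]
      exact max_le (h 0) (max_le (h 1) (h 2))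
    · have := le_mx x i
      rwa [abs_of_nonpos (by linarith)] at this
  simp only [uc]
  rw [this, div_neg, div_self]
  intro h1
  rw [this, h1] at hp
  simp at hp

/-- Coordinate along the square. -/
noncomputable def sq (a b : ℤ) (x : EuclideanSpace ℝ (Fin 3)) (i : Fin 3) : ℝ :=
  ((a : ℝ) + b) / 2 + ((b : ℝ) - a) / 2 * uc x i

theorem sq_mem (a b : ℤ) (hab : a ≤ b) (x : EuclideanSpace ℝ (Fin 3)) (hx : ‖x‖ = 1)
    (i : Fin 3) : (a : ℝ) ≤ sq a b x i ∧ sq a b x i ≤ b := by
  have h := abs_le.1 (uc_abs x hx i)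
  have hab' : (a : ℝ) ≤ b := by exact_mod_cast hab
  simp only [sq]
  constructor <;> nlinarith [h.1, h.2]

/-- Coefficients of the map of the sphere. -/
noncomputable def coef (a b : ℤ) (x : EuclideanSpace ℝ (Fin 3)) (p : ℤ × ℤ × Bool) : ℝ :=
  tent (sq a b x 0 - p.1) * tent (sq a b x 1 - p.2.1) *
    (if p.2.2 then (1 + uc x 2) / 2 else (1 - uc x 2) / 2)

/-- Index set of the hubs involved. -/
noncomputable def idx (a b : ℤ) : Finset (ℤ × ℤ × Bool) := Finset.Icc a b ×ˢ Finset.Icc a b ×ˢ Finset.univ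

theorem coef_nonneg (a b : ℤ) (x : EuclideanSpace ℝ (Fin 3)) (hx : ‖x‖ = 1)
    (p : ℤ × ℤ × Bool) : 0 ≤ coef a b x p := by
  have h := abs_le.1 (uc_abs x hx 2)
  simp only [coef]
  apply mul_nonneg (mul_nonneg (tent_nonneg _) (tent_nonneg _))
  split_ifs <;> linarith [h.1, h.2]

theorem coef_sum (a b : ℤ) (hab : a ≤ b) (x : EuclideanSpace ℝ (Fin 3)) (hx : ‖x‖ = 1) :
    ∑ p ∈ idx a b, coef a b x p = 1 := by
  have h0 := tent_sum a b _ (sq_mem a b hab x hx 0).1 (sq_mem a b hab x hx 0).2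
  have h1 := tent_sum a b _ (sq_mem a b hab x hx 1).1 (sq_mem a b hab x hx 1).2
  simp only [idx, coef]
  rw [Finset.sum_product]
  have h2 : ∀ i ∈ Finset.Icc a b, ∑ q ∈ Finset.Icc a b ×ˢ (Finset.univ : Finset Bool),
      tent (sq a b x 0 - i) * tent (sq a b x 1 - q.1) *
        (if q.2 then (1 + uc x 2) / 2 else (1 - uc x 2) / 2) = tent (sq a b x 0 - i) := by
    intro i _
    rw [Finset.sum_product]
    have h3 : ∀ j ∈ Finset.Icc a b, ∑ e ∈ (Finset.univ : Finset Bool),
        tent (sq a b x 0 - i) * tent (sq a b x 1 - j) *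
        (if e then (1 + uc x 2) / 2 else (1 - uc x 2) / 2) =
        tent (sq a b x 0 - i) * tent (sq a b x 1 - j) := by
      intro j _
      rw [Fintype.sum_bool]
      simp only [if_true, Bool.false_eq_true, if_false]
      ring
    rw [Finset.sum_congr rfl h3, ← Finset.mul_sum, h1, mul_one]
  rw [Finset.sum_congr rfl h2, h0]

/-- The map of the sphere. -/
noncomputable def gam (a b : ℤ) (x : EuclideanSpace ℝ (Fin 3)) : lp (fun _ : Y.verts => ℝ) 1 := by
  classical
  exact comb (idx a b) hub (coef a b x)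

theorem gam_cont (a b : ℤ) :
    ContinuousOn (gam a b) (Metric.sphere (0 : EuclideanSpace ℝ (Fin 3)) 1) := by
  classical
  unfold gam comb
  apply continuousOn_finsetSum
  intro p _
  have hsq : ∀ i, ContinuousOn (fun x => sq a b x i)
      (Metric.sphere (0 : EuclideanSpace ℝ (Fin 3)) 1) := by
    intro i
    unfold sq
    exact continuousOn_const.add (continuousOn_const.mul (uc_cont i))
  have hcoef : ContinuousOn (fun x => coef a b x p)
      (Metric.sphere (0 : EuclideanSpace ℝ (Fin 3)) 1) := by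
    unfold coef
    apply ContinuousOn.mul
    · apply ContinuousOn.mul
      · exact tent_cont.comp_continuousOn ((hsq 0).sub continuousOn_const)
      · exact tent_cont.comp_continuousOn ((hsq 1).sub continuousOn_const)
    · split_ifs
      · exact (continuousOn_const.add (uc_cont 2)).div_const _
      · exact (continuousOn_const.sub (uc_cont 2)).div_const _
  exact hcoef.smul continuousOn_const

theorem near_of_coef (s : ℝ) (i i' : ℤ) (h : |s - i| < 1) (h' : |s - i'| < 1) : |i - i'| ≤ 1 := by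
  rw [abs_lt] at h h'
  have h1 : (i : ℝ) < ((i' + 2 : ℤ) : ℝ) := by push_cast; linarith [h.1, h.2, h'.1, h'.2]
  have h2 : (i' : ℝ) < ((i + 2 : ℤ) : ℝ) := by push_cast; linarith [h.1, h.2, h'.1, h'.2]
  have h3 : i < i' + 2 := by exact_mod_cast h1
  have h4 : i' < i + 2 := by exact_mod_cast h2
  rw [abs_le]
  omega

theorem eq_of_coef (s : ℝ) (i a : ℤ) (h : |s - i| < 1) (hs : s = a) : i = a := by
  subst hs
  have h1 : |a - i| < 1 := by exact_mod_cast h
  rw [abs_lt] at h1
  omega

theorem gam_rips (k : ℤ) (hk : 0 ≤ k) (x : EuclideanSpace ℝ (Fin 3)) (hx : ‖x‖ = 1) :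
    (∀ a, 0 ≤ gam (k ^ 2) ((k + 1) ^ 2) x a) ∧
      ∃ s : Finset Y.verts, (∀ a, a ∉ s → gam (k ^ 2) ((k + 1) ^ 2) x a = 0) ∧
        ∑ a ∈ s, gam (k ^ 2) ((k + 1) ^ 2) x a = 1 ∧
        ∀ a ∈ s, ∀ b ∈ s, (Y.coe.dist a b : ℝ) ≤ 4 := by
  classical
  have hab : k ^ 2 ≤ (k + 1) ^ 2 := by nlinarith
  unfold gam
  apply comb_supp (idx (k ^ 2) ((k + 1) ^ 2)) hub (coef (k ^ 2) ((k + 1) ^ 2) x)
    (coef_nonneg _ _ x hx) (coef_sum _ _ hab x hx) (fun a b => (Y.coe.dist a b : ℝ) ≤ 4)
  rintro ⟨i, j, e⟩ _ ⟨i', j', e'⟩ _ hp hq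
  simp only [coef, ne_eq, mul_eq_zero, not_or] at hp hq
  obtain ⟨⟨hp0, hp1⟩, hp2⟩ := hp
  obtain ⟨⟨hq0, hq1⟩, hq2⟩ := hq
  have hi := near_of_coef _ _ _ (tent_ne _ hp0) (tent_ne _ hq0)
  have hj := near_of_coef _ _ _ (tent_ne _ hp1) (tent_ne _ hq1)
  have t1 := Yc.dist_triangle (u := hub (i, j, e)) (v := hub (i', j, e)) (w := hub (i', j', e))
  have t2 := dist_hub_i i i' j e hi
  have t3 := dist_hub_j i' j j' e hj
  suffices h : Y.coe.dist (hub (i, j, e)) (hub (i', j', e')) ≤ 4 by exact_mod_cast h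
  by_cases hee : e = e'
  · subst hee; omega
  · -- both sheets occur: we are over the boundary of the square
    have hu : |uc x 2| ≠ 1 := by
      intro hu
      rcases (abs_eq (by norm_num)).1 hu with hu | hu
      · cases e <;> cases e' <;> simp_all
      · cases e <;> cases e' <;> simp_all
    have hu2 := uc_max x hx
    have hval : ∀ c, |uc x c| = 1 → sq (k ^ 2) ((k + 1) ^ 2) x c = ((k ^ 2 : ℤ) : ℝ) ∨
        sq (k ^ 2) ((k + 1) ^ 2) x c = (((k + 1) ^ 2 : ℤ) : ℝ) := by
      intro c hc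
      simp only [sq]
      rcases (abs_eq (by norm_num)).1 hc with hc | hc
      · right; rw [hc]; ring
      · left; rw [hc]; ring
    have issq1 : IsSquare (k ^ 2) := ⟨k, by ring⟩
    have issq2 : IsSquare ((k + 1) ^ 2) := ⟨k + 1, by ring⟩
    rcases hu2 with h | h | h
    · have hii : i = i' ∧ IsSquare i := by
        rcases hval 0 h with hv | hv
        · have e1 := eq_of_coef _ _ _ (tent_ne _ hp0) hv
          have e2 := eq_of_coef _ _ _ (tent_ne _ hq0) hv
          exact ⟨e1.trans e2.symm, e1 ▸ issq1⟩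
        · have e1 := eq_of_coef _ _ _ (tent_ne _ hp0) hv
          have e2 := eq_of_coef _ _ _ (tent_ne _ hq0) hv
          exact ⟨e1.trans e2.symm, e1 ▸ issq2⟩
      obtain ⟨rfl, hsq⟩ := hii
      have t4 := dist_hub_e i j' e e' (Or.inl hsq)
      have t5 := dist_hub_j i j j' e hj
      have t6 := Yc.dist_triangle (u := hub (i, j, e)) (v := hub (i, j', e))
        (w := hub (i, j', e'))
      omega
    · have hjj : j = j' ∧ IsSquare j := by
        rcases hval 1 h with hv | hv
        · have e1 := eq_of_coef _ _ _ (tent_ne _ hp1) hv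
          have e2 := eq_of_coef _ _ _ (tent_ne _ hq1) hv
          exact ⟨e1.trans e2.symm, e1 ▸ issq1⟩
        · have e1 := eq_of_coef _ _ _ (tent_ne _ hp1) hv
          have e2 := eq_of_coef _ _ _ (tent_ne _ hq1) hv
          exact ⟨e1.trans e2.symm, e1 ▸ issq2⟩
      obtain ⟨rfl, hsq⟩ := hjj
      have t4 := dist_hub_e i' j e e' (Or.inr hsq)
      have t6 := Yc.dist_triangle (u := hub (i, j, e)) (v := hub (i', j, e))
        (w := hub (i', j, e'))
      omega
    · exact absurd h hu

/-- The large spheres cannot be filled in the Rips complex of scale less than their size. -/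
theorem no_fill (k r : ℤ) (hr : 0 ≤ r) (hk : r ≤ k) (R' : ℝ) (hR' : R' ≤ r)
    (Γ : EuclideanSpace ℝ (Fin 3) → lp (fun _ : Y.verts => ℝ) 1)
    (h1 : ContinuousOn Γ (Metric.closedBall (0 : EuclideanSpace ℝ (Fin 3)) 1))
    (h2 : Set.MapsTo Γ (Metric.closedBall (0 : EuclideanSpace ℝ (Fin 3)) 1)
      {f : lp (fun _ : Y.verts => ℝ) 1 | (∀ a, 0 ≤ f a) ∧
        ∃ s : Finset Y.verts, (∀ a, a ∉ s → f a = 0) ∧ ∑ a ∈ s, f a = 1 ∧
          ∀ a ∈ s, ∀ b ∈ s, (Y.coe.dist a b : ℝ) ≤ R'})
    (h3 : Set.EqOn Γ (gam (k ^ 2) ((k + 1) ^ 2))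
      (Metric.sphere (0 : EuclideanSpace ℝ (Fin 3)) 1)) : False := by
  classical
  have hk0 : 0 ≤ k := hr.trans hk
  have hab : k ^ 2 ≤ (k + 1) ^ 2 := by nlinarith
  have hgap : 2 * r < (k + 1) ^ 2 - k ^ 2 := by nlinarith
  set a := k ^ 2 with ha
  set b := (k + 1) ^ 2 with hb
  have hfun : ∀ c : Fin 3, ∃ L : lp (fun _ : Y.verts => ℝ) 1 →L[ℝ] ℝ,
      ∀ (f : lp (fun _ : Y.verts => ℝ) 1) (s : Finset Y.verts),
        (∀ v, v ∉ s → f v = 0) → L f = ∑ v ∈ s, f v * ((pos a b v c : ℤ) : ℝ) := by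
    intro c
    apply exists_functional (fun v : Y.verts => ((pos a b v c : ℤ) : ℝ)) ((2 * (b - a) : ℤ) : ℝ)
    intro v
    have := pos_bdd a b hab v c
    exact_mod_cast this
  choose L hL using hfun
  have hval : ∀ (x : EuclideanSpace ℝ (Fin 3)), ‖x‖ = 1 → ∀ c,
      L c (Γ x) = ∑ p ∈ idx a b, coef a b x p * ((pos a b (hub p) c : ℤ) : ℝ) := by
    intro x hx c
    rw [h3 (by simpa using hx)]
    unfold gam
    exact functional_comb (L c) (fun v : Y.verts => ((pos a b v c : ℤ) : ℝ)) (hL c) _ _ _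
  have hsh : ∀ i j : ℤ, ∀ e : Bool, sh (hub (i, j, e)).1 = if e then 1 else 0 := by
    intro i j e
    cases e
    · change (2 * i + 0) % 2 = 0; omega
    · change (2 * i + 1) % 2 = 1; omega
  have hpos0 : ∀ i j : ℤ, ∀ e : Bool, a ≤ i → i ≤ b → pos a b (hub (i, j, e)) 0 = 2 * i - (a + b) := by
    intro i j e hi1 hi2
    have e1 : ((hub (i, j, e)).1).1 = 2 * i + (if e then 1 else 0) := rfl
    simp only [pos, Matrix.cons_val_zero]
    rw [hsh, e1]
    have : 2 * i + (if e = true then (1 : ℤ) else 0) - (if e = true then (1 : ℤ) else 0) = 2 * i := by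
      ring
    rw [this]
    omega
  have hpos1 : ∀ i j : ℤ, ∀ e : Bool, a ≤ j → j ≤ b → pos a b (hub (i, j, e)) 1 = 2 * j - (a + b) := by
    intro i j e hi1 hi2
    have e1 : ((hub (i, j, e)).1).2.1 = 2 * j + (if e then 1 else 0) := rfl
    simp only [pos, Matrix.cons_val_one, Matrix.cons_val_zero]
    rw [hsh, e1]
    have : 2 * j + (if e = true then (1 : ℤ) else 0) - (if e = true then (1 : ℤ) else 0) = 2 * j := by
      ring
    rw [this]
    omega
  have hht : ∀ q0 q1, 0 ≤ ht a b q0 q1 := fun q0 q1 => le_max_left _ _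
  have hpos2 : ∀ i j : ℤ, 0 ≤ pos a b (hub (i, j, true)) 2 ∧ pos a b (hub (i, j, false)) 2 ≤ 0 := by
    intro i j
    constructor
    · simp only [pos, Matrix.cons_val]
      rw [hsh]
      simp only [if_true, one_ne_zero, if_false]
      exact hht _ _
    · simp only [pos, Matrix.cons_val]
      rw [hsh]
      simp only [Bool.false_eq_true, if_false, if_true]
      have := hht ((hub (i, j, false)).1.1 - 0) ((hub (i, j, false)).1.2.1 - 0)
      linarith
  have habR : (a : ℝ) ≤ b := by exact_mod_cast hab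
  obtain ⟨x, hx, hx0⟩ := Miranda.ball_zero 3 (fun x c => L c (Γ x))
    (by
      rw [continuousOn_pi]
      intro c
      exact (L c).continuous.comp_continuousOn h1)
    (by
      intro x hx c hc
      have hu := uc_one x hx c hc
      change 0 ≤ L c (Γ x)
      rw [hval x hx c]
      apply Finset.sum_nonneg
      rintro ⟨i, j, e⟩ hp
      simp only [idx, Finset.mem_product, Finset.mem_Icc] at hp
      obtain ⟨⟨hp1, hp2⟩, ⟨hp3, hp4⟩, -⟩ := hp
      have hc0 := coef_nonneg a b x hx (i, j, e)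
      by_cases hz : coef a b x (i, j, e) = 0
      · rw [hz, zero_mul]
      apply mul_nonneg hc0
      simp only [coef, mul_eq_zero, not_or] at hz
      obtain ⟨⟨z0, z1⟩, z2⟩ := hz
      have hcase : c = 0 ∨ c = 1 ∨ c = 2 := by
        fin_cases c <;> simp
      rcases hcase with rfl | rfl | rfl
      · have hs : sq a b x 0 = (b : ℝ) := by simp only [sq, hu]; ring
        have hib := eq_of_coef _ _ _ (tent_ne _ z0) hs
        rw [hpos0 i j e hp1 hp2]
        have : 0 ≤ 2 * i - (a + b) := by omega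
        exact_mod_cast this
      · have hs : sq a b x 1 = (b : ℝ) := by simp only [sq, hu]; ring
        have hib := eq_of_coef _ _ _ (tent_ne _ z1) hs
        rw [hpos1 i j e hp3 hp4]
        have : 0 ≤ 2 * j - (a + b) := by omega
        exact_mod_cast this
      · cases e
        · exfalso
          apply z2
          simp [hu]
        · have := (hpos2 i j).1
          exact_mod_cast this)
    (by
      intro x hx c hc
      have hu := uc_neg_one x hx c hc
      change L c (Γ x) ≤ 0
      rw [hval x hx c]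
      apply Finset.sum_nonpos
      rintro ⟨i, j, e⟩ hp
      simp only [idx, Finset.mem_product, Finset.mem_Icc] at hp
      obtain ⟨⟨hp1, hp2⟩, ⟨hp3, hp4⟩, -⟩ := hp
      have hc0 := coef_nonneg a b x hx (i, j, e)
      by_cases hz : coef a b x (i, j, e) = 0
      · rw [hz, zero_mul]
      apply mul_nonpos_of_nonneg_of_nonpos hc0
      simp only [coef, mul_eq_zero, not_or] at hz
      obtain ⟨⟨z0, z1⟩, z2⟩ := hz
      have hcase : c = 0 ∨ c = 1 ∨ c = 2 := by
        fin_cases c <;> simp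
      rcases hcase with rfl | rfl | rfl
      · have hs : sq a b x 0 = (a : ℝ) := by simp only [sq, hu]; ring
        have hib := eq_of_coef _ _ _ (tent_ne _ z0) hs
        rw [hpos0 i j e hp1 hp2]
        have : 2 * i - (a + b) ≤ 0 := by omega
        exact_mod_cast this
      · have hs : sq a b x 1 = (a : ℝ) := by simp only [sq, hu]; ring
        have hib := eq_of_coef _ _ _ (tent_ne _ z1) hs
        rw [hpos1 i j e hp3 hp4]
        have : 2 * j - (a + b) ≤ 0 := by omega
        exact_mod_cast this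
      · cases e
        · have := (hpos2 i j).2
          exact_mod_cast this
        · exfalso
          apply z2
          simp [hu])
  -- at the zero we get a contradiction
  obtain ⟨hnn, s, hs1, hs2, hs3⟩ := h2 hx
  have hne : s.Nonempty := by
    rw [Finset.nonempty_iff_ne_empty]
    rintro rfl
    simp at hs2
  obtain ⟨v, hv⟩ := hne
  obtain ⟨c, hc⟩ := pos_far a b r hgap v
  have hLc : L c (Γ x) = 0 := congrFun hx0 c
  rw [hL c (Γ x) s hs1] at hLc
  have hdiff : |∑ w ∈ s, (Γ x) w * ((pos a b w c : ℤ) : ℝ) - ((pos a b v c : ℤ) : ℝ)| ≤ r := by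
    have e1 : ∑ w ∈ s, (Γ x) w * ((pos a b w c : ℤ) : ℝ) - ((pos a b v c : ℤ) : ℝ) =
        ∑ w ∈ s, (Γ x) w * (((pos a b w c : ℤ) : ℝ) - ((pos a b v c : ℤ) : ℝ)) := by
      simp only [mul_sub]
      rw [Finset.sum_sub_distrib, ← Finset.sum_mul, hs2, one_mul]
    rw [e1]
    calc |∑ w ∈ s, (Γ x) w * (((pos a b w c : ℤ) : ℝ) - ((pos a b v c : ℤ) : ℝ))|
        ≤ ∑ w ∈ s, |(Γ x) w * (((pos a b w c : ℤ) : ℝ) - ((pos a b v c : ℤ) : ℝ))| :=
          Finset.abs_sum_le_sum_abs _ _
      _ ≤ ∑ w ∈ s, (Γ x) w * r := by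
          apply Finset.sum_le_sum
          intro w hw
          rw [abs_mul, abs_of_nonneg (hnn w)]
          apply mul_le_mul_of_nonneg_left _ (hnn w)
          have h5 := pos_lip k hk0 w v c
          have h6 : |((pos a b w c : ℤ) : ℝ) - ((pos a b v c : ℤ) : ℝ)| ≤ (Y.coe.dist w v : ℝ) := by
            exact_mod_cast h5
          exact h6.trans ((hs3 w hw v hv).trans hR')
      _ = r := by rw [← Finset.sum_mul, hs2, one_mul]
  rw [hLc, zero_sub, abs_neg] at hdiff
  have : |pos a b v c| ≤ r := by exact_mod_cast hdiff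
  omega

end Pool.Agent.Helper475.Flap
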