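import Mathlib

set_option autoImplicit false

namespace Pool.Agent.Helper475.Geod

section aux

variable {T : Type} [Group T] (S : Finset T)

def gr : SimpleGraph T := SimpleGraph.fromRel (fun g h : T => g⁻¹ * h ∈ S)

theorem gr_adj (a b : T) : (gr S).Adj a b ↔ a ≠ b ∧ (a⁻¹ * b ∈ S ∨ b⁻¹ * a ∈ S) := by
  simp [gr, SimpleGraph.fromRel_adj]

/-- Left multiplication is a graph homomorphism. -/
def lmul (h : T) : gr S →g gr S where
  toFun := fun a => h * a
  map_rel' := by
    intro a b hab
    rw [gr_adj] at hab ⊢
    refine ⟨fun e => hab.1 (mul_left_cancel e), ?_⟩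
    rcases hab.2 with e | e
    · left
      have : (h * a)⁻¹ * (h * b) = a⁻¹ * b := by group
      rwa [this]
    · right
      have : (h * b)⁻¹ * (h * a) = b⁻¹ * a := by group
      rwa [this]

theorem gr_reachable (hS : Subgroup.closure (S : Set T) = ⊤) (a g : T) :
    (gr S).Reachable a (a * g) := by
  have hg : g ∈ Subgroup.closure (S : Set T) := by rw [hS]; trivial
  have key : ∀ g ∈ Subgroup.closure (S : Set T), ∀ a : T, (gr S).Reachable a (a * g) := by
    intro g hg
    induction hg using Subgroup.closure_induction with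
    | mem x hx =>
      intro a
      by_cases e : a = a * x
      · rw [← e]
      · exact SimpleGraph.Adj.reachable ((gr_adj S _ _).2 ⟨e, Or.inl (by
          rw [inv_mul_cancel_left]; exact hx)⟩)
    | one => intro a; rw [mul_one]
    | mul x y _ _ hx hy =>
      intro a
      rw [← mul_assoc]
      exact (hx a).trans (hy (a * x))
    | inv x _ hx =>
      intro a
      have := hx (a * x⁻¹)
      rw [inv_mul_cancel_right] at this
      exact this.symm
  exact key g hg a

theorem gr_connected (hS : Subgroup.closure (S : Set T) = ⊤) : (gr S).Connected := by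
  have : Nonempty T := ⟨1⟩
  refine SimpleGraph.Connected.mk ?_
  intro a b
  have := gr_reachable S hS a (a⁻¹ * b)
  rwa [mul_inv_cancel_left] at this

theorem dist_left_le (hS : Subgroup.closure (S : Set T) = ⊤) (h a b : T) :
    (gr S).dist (h * a) (h * b) ≤ (gr S).dist a b := by
  obtain ⟨p, hp⟩ := (gr_connected S hS).exists_walk_length_eq_dist a b
  rw [← hp, ← SimpleGraph.Walk.length_map (lmul S h) p]
  exact SimpleGraph.dist_le _

theorem dist_left (hS : Subgroup.closure (S : Set T) = ⊤) (h a b : T) :
    (gr S).dist (h * a) (h * b) = (gr S).dist a b := by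
  apply le_antisymm (dist_left_le S hS h a b)
  have := dist_left_le S hS h⁻¹ (h * a) (h * b)
  rwa [inv_mul_cancel_left, inv_mul_cancel_left] at this

theorem ball_finite (hS : Subgroup.closure (S : Set T) = ⊤) (K : ℕ) :
    {g : T | (gr S).dist 1 g ≤ K}.Finite := by
  classical
  induction K with
  | zero =>
    apply Set.Finite.subset (Set.finite_singleton (1 : T))
    intro g hg
    simp only [Set.mem_ofPred_eq, Nat.le_zero] at hg
    have := ((gr_connected S hS).dist_eq_zero_iff).1 hg
    exact this.symm
  | succ K ih =>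
    have hfin : (⋃ h ∈ {g : T | (gr S).dist 1 g ≤ K},
        ((fun s => h * s) '' (S : Set T) ∪ (fun s => h * s⁻¹) '' (S : Set T)) ∪ {h}).Finite := by
      apply Set.Finite.biUnion ih
      intro h _
      exact ((S.finite_toSet.image _).union (S.finite_toSet.image _)).union
        (Set.finite_singleton _)
    apply hfin.subset
    intro g hg
    simp only [Set.mem_ofPred_eq] at hg
    simp only [Set.mem_iUnion, Set.mem_ofPred_eq, exists_prop]
    by_cases hg' : (gr S).dist 1 g ≤ K
    · exact ⟨g, hg', Or.inr rfl⟩
    · have hd : (gr S).dist 1 g = K + 1 := by omega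
      obtain ⟨p, hp⟩ := (gr_connected S hS).exists_walk_length_eq_dist 1 g
      rw [hd] at hp
      refine ⟨p.getVert K, ?_, Or.inl ?_⟩
      · have h1 : (p.take K).length ≤ K := by
          rw [SimpleGraph.Walk.take_length]
          exact Nat.min_le_left _ _
        exact (SimpleGraph.dist_le (p.take K)).trans h1
      · have hadj : (gr S).Adj (p.getVert K) (p.getVert (K + 1)) :=
          p.adj_getVert_succ (by omega)
        have hend : p.getVert (K + 1) = g := by
          rw [← hp]; exact p.getVert_length
        rw [hend, gr_adj] at hadj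
        rcases hadj.2 with h1 | h1
        · left
          exact ⟨_, h1, by simp⟩
        · right
          exact ⟨_, h1, by simp⟩

theorem geo_upper (hS : Subgroup.closure (S : Set T) = ⊤) {a b : T} (p : (gr S).Walk a b)
    (i m : ℕ) (h : i + m ≤ p.length) :
    (gr S).dist (p.getVert i) (p.getVert (i + m)) ≤ m := by
  induction m with
  | zero => simp
  | succ m ih =>
    have h1 := ih (by omega)
    have h2 : (gr S).Adj (p.getVert (i + m)) (p.getVert (i + m + 1)) :=
      p.adj_getVert_succ (by omega)
    have h3 := (SimpleGraph.dist_eq_one_iff_adj.2 h2).le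
    have h4 := (gr_connected S hS).dist_triangle (u := p.getVert i) (v := p.getVert (i + m))
      (w := p.getVert (i + m + 1))
    rw [← Nat.add_assoc]
    omega

theorem geo_dist (hS : Subgroup.closure (S : Set T) = ⊤) {a b : T} (p : (gr S).Walk a b)
    (hp : p.length = (gr S).dist a b) (i m : ℕ) (h : i + m ≤ p.length) :
    (gr S).dist (p.getVert i) (p.getVert (i + m)) = m := by
  apply le_antisymm (geo_upper S hS p i m h)
  have h1 := geo_upper S hS p 0 i (by omega)
  have h2 := geo_upper S hS p (i + m) (p.length - (i + m)) (by omega)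
  rw [Nat.zero_add, SimpleGraph.Walk.getVert_zero] at h1
  have e : i + m + (p.length - (i + m)) = p.length := by omega
  rw [e, SimpleGraph.Walk.getVert_length] at h2
  have h3 := (gr_connected S hS).dist_triangle (u := a) (v := p.getVert i) (w := b)
  have h4 := (gr_connected S hS).dist_triangle (u := p.getVert i) (v := p.getVert (i + m)) (w := b)
  omega

theorem geo_seg (hS : Subgroup.closure (S : Set T) = ⊤) [Infinite T] (N : ℕ) :
    ∃ γ : ℤ → T, γ 0 = 1 ∧ ∀ i j : ℤ, i.natAbs ≤ N → j.natAbs ≤ N →
      (gr S).dist (γ i) (γ j) = (i - j).natAbs := by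
  obtain ⟨g, hg⟩ := (ball_finite S hS (2 * N)).infinite_compl.nonempty
  simp only [Set.mem_compl_iff, Set.mem_ofPred_eq, not_le] at hg
  obtain ⟨p, hp⟩ := (gr_connected S hS).exists_walk_length_eq_dist 1 g
  refine ⟨fun i => (p.getVert N)⁻¹ * p.getVert ((N : ℤ) + i).toNat, ?_, ?_⟩
  · simp
  · intro i j hi hj
    rw [dist_left S hS]
    rcases le_total i j with hij | hij
    · have h1 := geo_dist S hS p hp ((N : ℤ) + i).toNat (j - i).toNat (by omega)
      have e : ((N : ℤ) + i).toNat + (j - i).toNat = ((N : ℤ) + j).toNat := by omega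
      rw [e] at h1
      rw [h1]
      omega
    · have h1 := geo_dist S hS p hp ((N : ℤ) + j).toNat (i - j).toNat (by omega)
      have e : ((N : ℤ) + j).toNat + (i - j).toNat = ((N : ℤ) + i).toNat := by omega
      rw [e] at h1
      rw [SimpleGraph.dist_comm, h1]
      omega

end aux

/-- An infinite finitely generated group has a bi-infinite geodesic in its Cayley graph. -/
theorem exists_geodesic_line (T : Type) [Group T] [Infinite T] (S : Finset T)
    (hS : Subgroup.closure (S : Set T) = ⊤) :
    ∃ γ : ℤ → T, ∀ i j : ℤ,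
      (SimpleGraph.fromRel (fun g h : T => g⁻¹ * h ∈ S)).dist (γ i) (γ j) = (i - j).natAbs := by
  change ∃ γ : ℤ → T, ∀ i j : ℤ, (gr S).dist (γ i) (γ j) = (i - j).natAbs
  choose γ h0 hγ using fun N => geo_seg S hS N
  let U : Ultrafilter ℕ := Filter.hyperfilter ℕ
  have hlarge : ∀ k : ℕ, ∀ᶠ N in (U : Filter ℕ), k ≤ N := by
    intro k
    have h1 : ∀ᶠ N in Filter.cofinite, k ≤ N := by
      rw [Nat.cofinite_eq_atTop]
      exact Filter.eventually_ge_atTop k
    exact Filter.hyperfilter_le_cofinite h1
  have hex : ∀ i : ℤ, ∃ g : T, ∀ᶠ N in (U : Filter ℕ), γ N i = g := by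
    intro i
    have hfin := ball_finite S hS i.natAbs
    have hmem : (⋃ g ∈ {g : T | (gr S).dist 1 g ≤ i.natAbs}, {N : ℕ | γ N i = g}) ∈ U := by
      apply Filter.mem_of_superset (hlarge i.natAbs)
      intro N hN
      simp only [Set.mem_ofPred_eq] at hN
      simp only [Set.mem_iUnion, Set.mem_ofPred_eq, exists_prop, exists_eq_right']
      have := hγ N 0 i (by simp) hN
      rw [h0] at this
      rw [this]
      omega
    rw [Ultrafilter.finite_biUnion_mem_iff hfin] at hmem
    obtain ⟨g, _, hg⟩ := hmem
    exact ⟨g, hg⟩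
  choose δ hδ using hex
  refine ⟨δ, fun i j => ?_⟩
  obtain ⟨N, h1, h2, h3, h4⟩ := ((hδ i).and ((hδ j).and ((hlarge i.natAbs).and
    (hlarge j.natAbs)))).exists
  rw [← h1, ← h2]
  exact hγ N i j h3 h4

end Pool.Agent.Helper475.Geod
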