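import Mathlib
import Pool.Agent.Helper475.Geod

set_option autoImplicit false

/-!
The group `FreeGroup A ⋊ A` with `A = T^4`, its word metric and a separating copy of `ℤ^2`.
-/

namespace Pool.Agent.Helper475.FreeSep

/-- The action of `A` on the free group on the set `A` by left translation of the generators. -/
def act (A : Type) [Group A] : A →* MulAut (FreeGroup A) where
  toFun a := FreeGroup.freeGroupCongr (Equiv.mulLeft a)
  map_one' := by
    apply MulEquiv.toMonoidHom_injective
    apply FreeGroup.ext_hom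
    intro a
    simp
  map_mul' a b := by
    apply MulEquiv.toMonoidHom_injective
    apply FreeGroup.ext_hom
    intro c
    simp [mul_assoc]

theorem act_of (A : Type) [Group A] (a b : A) :
    act A a (FreeGroup.of b) = FreeGroup.of (a * b) := by
  simp [act]

variable (T : Type) [Group T]

/-- The torsion factor. -/
abbrev A4 : Type := Fin 4 → T

/-- The group. -/
abbrev GG : Type := SemidirectProduct (FreeGroup (A4 T)) (A4 T) (act (A4 T))

variable {T}

open SemidirectProduct

/-- The stable letter. -/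
def tt : GG T := inl (FreeGroup.of 1)

/-- Generators. -/
noncomputable def gens (S : Finset T) : Finset (GG T) := by
  classical
  exact insert tt ((Finset.univ ×ˢ S).image (fun p : Fin 4 × T => inr (Pi.mulSingle p.1 p.2)))

theorem mem_gens (S : Finset T) (g : GG T) :
    g ∈ gens S ↔ g = tt ∨ ∃ i : Fin 4, ∃ s ∈ S, g = inr (Pi.mulSingle i s) := by
  classical
  simp only [gens, Finset.mem_insert, Finset.mem_image, Finset.mem_product, Finset.mem_univ,
    true_and]
  constructor
  · rintro (h | ⟨⟨i, s⟩, h1, h2⟩)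
    · exact Or.inl h
    · exact Or.inr ⟨i, s, h1, h2.symm⟩
  · rintro (h | ⟨i, s, h1, h2⟩)
    · exact Or.inl h
    · exact Or.inr ⟨(i, s), h1, h2.symm⟩

theorem gens_closure (S : Finset T) (hS : Subgroup.closure (S : Set T) = ⊤) :
    Subgroup.closure (gens S : Set (GG T)) = ⊤ := by
  classical
  set C := Subgroup.closure (gens S : Set (GG T)) with hC
  -- coordinate subgroups
  have h1 : ∀ (i : Fin 4) (t : T), (inr (Pi.mulSingle i t) : GG T) ∈ C := by
    intro i t
    have ht : t ∈ Subgroup.closure (S : Set T) := by rw [hS]; trivial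
    induction ht using Subgroup.closure_induction with
    | mem x hx =>
      exact Subgroup.subset_closure ((mem_gens S _).2 (Or.inr ⟨i, x, hx, rfl⟩))
    | one => rw [Pi.mulSingle_one, map_one]; exact C.one_mem
    | mul x y _ _ hx hy => rw [Pi.mulSingle_mul, map_mul]; exact C.mul_mem hx hy
    | inv x _ hx => rw [Pi.mulSingle_inv, map_inv]; exact C.inv_mem hx
  have h2 : ∀ a : A4 T, (inr a : GG T) ∈ C := by
    intro a
    have : a = Pi.mulSingle 0 (a 0) * Pi.mulSingle 1 (a 1) * Pi.mulSingle 2 (a 2) *
        Pi.mulSingle 3 (a 3) := by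
      funext i
      fin_cases i <;> simp [Pi.mulSingle_apply]
    rw [this, map_mul, map_mul, map_mul]
    exact C.mul_mem (C.mul_mem (C.mul_mem (h1 _ _) (h1 _ _)) (h1 _ _)) (h1 _ _)
  have h3 : ∀ a : A4 T, (inl (FreeGroup.of a) : GG T) ∈ C := by
    intro a
    have e : (inl (FreeGroup.of a) : GG T) = inr a * tt * (inr a)⁻¹ := by
      have := inl_aut (φ := act (A4 T)) a (FreeGroup.of (1 : A4 T))
      rw [act_of, mul_one] at this
      rw [this, map_inv]
      rfl
    rw [e]
    refine C.mul_mem (C.mul_mem (h2 a) ?_) (C.inv_mem (h2 a))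
    exact Subgroup.subset_closure ((mem_gens S _).2 (Or.inl rfl))
  have h4 : ∀ w : FreeGroup (A4 T), (inl w : GG T) ∈ C := by
    intro w
    induction w using FreeGroup.induction_on with
    | C1 => rw [map_one]; exact C.one_mem
    | of x => exact h3 x
    | inv_of x _ => rw [map_inv]; exact C.inv_mem (h3 x)
    | mul x y hx hy => rw [map_mul]; exact C.mul_mem hx hy
  rw [eq_top_iff]
  intro g _
  rw [← inl_left_mul_inr_right g]
  exact C.mul_mem (h4 _) (h2 _)

/-- The Cayley graph. -/
abbrev gr (S : Finset T) : SimpleGraph (GG T) :=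
  SimpleGraph.fromRel (fun g h : GG T => g⁻¹ * h ∈ gens S)

/-- Steps of the Cayley graph. -/
theorem step (S : Finset T) (g h : GG T) (hgh : (gr S).Adj g h) :
    (∃ e : Bool, h.right = g.right ∧
      h.left = g.left * FreeGroup.mk [(g.right, e)]) ∨
    (h.left = g.left ∧ ∃ i : Fin 4, ∃ s ∈ S, h.right = g.right * Pi.mulSingle i s ∨
      g.right = h.right * Pi.mulSingle i s) := by
  rw [SimpleGraph.fromRel_adj] at hgh
  obtain ⟨-, hgh⟩ := hgh
  have base : ∀ g h : GG T, g⁻¹ * h ∈ gens S →
      (h.right = g.right ∧ h.left = g.left * FreeGroup.of g.right) ∨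
      (h.left = g.left ∧ ∃ i : Fin 4, ∃ s ∈ S, h.right = g.right * Pi.mulSingle i s) := by
    intro g h hgh
    rw [mem_gens] at hgh
    rcases hgh with h1 | ⟨i, s, hs, h1⟩
    · have h2 : h = g * tt := by rw [← h1, mul_inv_cancel_left]
      left
      rw [h2]
      constructor
      · rw [mul_right]; simp [tt]
      · rw [mul_left]; simp [tt, act_of]
    · have h2 : h = g * inr (Pi.mulSingle i s) := by rw [← h1, mul_inv_cancel_left]
      right
      rw [h2]
      constructor
      · rw [mul_left]; simp
      · exact ⟨i, s, hs, by rw [mul_right]; simp⟩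
  rcases hgh with hgh | hgh
  · rcases base g h hgh with ⟨h1, h2⟩ | ⟨h1, i, s, hs, h2⟩
    · left
      exact ⟨true, h1, h2⟩
    · right
      exact ⟨h1, i, s, hs, Or.inl h2⟩
  · rcases base h g hgh with ⟨h1, h2⟩ | ⟨h1, i, s, hs, h2⟩
    · left
      refine ⟨false, h1.symm, ?_⟩
      rw [h2, ← h1]
      have : (FreeGroup.mk [(g.right, false)] : FreeGroup (A4 T)) = (FreeGroup.of g.right)⁻¹ := rfl
      rw [this, mul_inv_cancel_right]
    · right
      exact ⟨h1.symm, i, s, hs, Or.inr h2⟩

theorem gr_connected (S : Finset T) (hS : Subgroup.closure (S : Set T) = ⊤) :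
    (gr S).Connected := Geod.gr_connected (gens S) (gens_closure S hS)

/-- A function changing by at most one along edges is Lipschitz. -/
theorem lip_of_edges {V : Type} (Γ : SimpleGraph V) (hΓ : Γ.Connected) (F : V → V → ℕ)
    (h0 : ∀ a, F a a = 0) (htri : ∀ a b c, F a c ≤ F a b + F b c)
    (h : ∀ a b, Γ.Adj a b → F a b ≤ 1) (a b : V) : F a b ≤ Γ.dist a b := by
  obtain ⟨p, hp⟩ := hΓ.exists_walk_length_eq_dist a b
  rw [← hp]
  clear hp
  induction p with
  | nil => rw [h0]; exact Nat.zero_le _
  | @cons a b c hab q ih =>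
    have h1 := h a b hab
    have h2 := htri a b c
    rw [SimpleGraph.Walk.length_cons]
    omega

/-- The coordinate projections to `T` are Lipschitz. -/
theorem proj_lip (S : Finset T) (hS : Subgroup.closure (S : Set T) = ⊤) (i : Fin 4)
    (g h : GG T) :
    (SimpleGraph.fromRel (fun g h : T => g⁻¹ * h ∈ S)).dist (g.right i) (h.right i) ≤
      (gr S).dist g h := by
  classical
  have hconn : (SimpleGraph.fromRel (fun g h : T => g⁻¹ * h ∈ S)).Connected :=
    Geod.gr_connected S hS
  refine lip_of_edges (gr S) (gr_connected S hS)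
    (fun g h => (SimpleGraph.fromRel (fun g h : T => g⁻¹ * h ∈ S)).dist (g.right i) (h.right i))
    (fun a => SimpleGraph.dist_self) (fun a b c => hconn.dist_triangle) ?_ g h
  intro a b hab
  have key : ∀ x y : A4 T, ∀ j : Fin 4, ∀ s ∈ S, y = x * Pi.mulSingle j s →
      (SimpleGraph.fromRel (fun g h : T => g⁻¹ * h ∈ S)).dist (x i) (y i) ≤ 1 := by
    intro x y j s hs hxy
    by_cases hxy' : x i = y i
    · rw [hxy', SimpleGraph.dist_self]; omega
    · refine (SimpleGraph.dist_eq_one_iff_adj.2 ?_).le
      rw [SimpleGraph.fromRel_adj]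
      refine ⟨hxy', Or.inl ?_⟩
      have hij : i = j := by
        by_contra hne
        apply hxy'
        rw [hxy, Pi.mul_apply, Pi.mulSingle_eq_of_ne hne, mul_one]
      subst hij
      rw [hxy, Pi.mul_apply, Pi.mulSingle_eq_same, inv_mul_cancel_left]
      exact hs
  rcases step S a b hab with ⟨e, h1, h2⟩ | ⟨h1, j, s, hs, h2 | h2⟩
  · simp only [h1, SimpleGraph.dist_self]; omega
  · exact key _ _ j s hs h2
  · change (SimpleGraph.fromRel (fun g h : T => g⁻¹ * h ∈ S)).dist (a.right i) (b.right i) ≤ 1
    rw [SimpleGraph.dist_comm]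
    exact key _ _ j s hs h2

/-- The exponent sum. -/
def esum : FreeGroup (A4 T) →* Multiplicative ℤ := FreeGroup.lift (fun _ => Multiplicative.ofAdd 1)

theorem esum_lip (S : Finset T) (hS : Subgroup.closure (S : Set T) = ⊤) (g h : GG T) :
    (Multiplicative.toAdd (esum g.left) - Multiplicative.toAdd (esum h.left)).natAbs ≤
      (gr S).dist g h := by
  refine lip_of_edges (gr S) (gr_connected S hS)
    (fun g h => (Multiplicative.toAdd (esum g.left) - Multiplicative.toAdd (esum h.left)).natAbs)
    (fun a => by simp) (fun a b c => by omega) ?_ g h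
  intro a b hab
  rcases step S a b hab with ⟨e, h1, h2⟩ | ⟨h1, -⟩
  · simp only [h2, map_mul, toAdd_mul]
    have : (Multiplicative.toAdd (esum (FreeGroup.mk [(a.right, e)]))).natAbs ≤ 1 := by
      cases e
      · have : (FreeGroup.mk [(a.right, false)] : FreeGroup (A4 T)) = (FreeGroup.of a.right)⁻¹ := rfl
        rw [this, map_inv]
        simp [esum]
      · have : (FreeGroup.mk [(a.right, true)] : FreeGroup (A4 T)) = FreeGroup.of a.right := rfl
        rw [this]
        simp [esum]
    omega
  · simp only [h1]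
    simp

/-- Last letter of the inverse of the free part: it tells the branch. -/
noncomputable def last (w : FreeGroup (A4 T)) : Option (A4 T × Bool) := by
  classical
  exact (w⁻¹).toWord.getLast?

/-- Multiplication by a letter does not change the branch unless it starts or ends at the
trivial word. -/
theorem last_step (w : FreeGroup (A4 T)) (a : A4 T) (e : Bool) (hw : w ≠ 1)
    (hw' : w * FreeGroup.mk [(a, e)] ≠ 1) :
    last (w * FreeGroup.mk [(a, e)]) = last w := by
  classical
  have h1 : (w * FreeGroup.mk [(a, e)])⁻¹ = FreeGroup.mk [(a, !e)] * w⁻¹ := by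
    rw [mul_inv_rev]
    congr 1
  have hw1 : w⁻¹ ≠ 1 := fun h => hw (inv_eq_one.1 h)
  have h2 : FreeGroup.mk [(a, !e)] * w⁻¹ ≠ 1 := by
    rw [← h1]
    exact fun h => hw' (inv_eq_one.1 h)
  simp only [last]
  rw [h1]
  set v := w⁻¹ with hv
  have h3 : (FreeGroup.mk [(a, !e)] * v).toWord = FreeGroup.reduce ((a, !e) :: v.toWord) := by
    conv_lhs => rw [← FreeGroup.mk_toWord (x := v)]
    rw [FreeGroup.mul_mk, FreeGroup.toWord_mk]
    rfl
  have h4 : v.toWord ≠ [] := fun h => hw1 (FreeGroup.toWord_eq_nil_iff.1 h)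
  have h5 : (FreeGroup.mk [(a, !e)] * v).toWord ≠ [] := fun h => h2 (FreeGroup.toWord_eq_nil_iff.1 h)
  rw [h3] at h5 ⊢
  rw [FreeGroup.reduce.cons, FreeGroup.reduce_toWord] at h5 ⊢
  rcases hL : v.toWord with _ | ⟨hd, tl⟩
  · exact absurd hL h4
  · rw [hL] at h5
    simp only at h5 ⊢
    split_ifs at h5 ⊢ with hc
    · rcases tl with _ | ⟨y, ys⟩
      · exact absurd rfl h5
      · simp
    · simp

end Pool.Agent.Helper475.FreeSep
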