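import Mathlib

set_option autoImplicit false

namespace Pool.Agent.Helper475.NoZ2

/-- in a free group on a type with two different elements the generators do not commute -/
theorem subsingleton_of_comm {ι : Type} (h : ∀ a b : FreeGroup ι, a * b = b * a) :
    Subsingleton ι := by
  classical
  refine ⟨fun i j => ?_⟩
  by_contra hij
  let f : ι → Equiv.Perm (Fin 3) := fun x => if x = i then Equiv.swap 0 1 else Equiv.swap 1 2
  have h1 := congrArg (FreeGroup.lift f) (h (FreeGroup.of i) (FreeGroup.of j))
  simp only [map_mul, FreeGroup.lift_apply_of, f, if_true, if_neg (Ne.symm hij)] at h1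
  exact absurd h1 (by decide)

/-- commuting elements of a free group are powers of one element -/
theorem comm_powers {X : Type} (x y : FreeGroup X) (h : x * y = y * x) :
    ∃ (w : FreeGroup X) (s t : ℤ), x = w ^ s ∧ y = w ^ t := by
  have hcomm : ∀ a ∈ ({x, y} : Set (FreeGroup X)), ∀ b ∈ ({x, y} : Set (FreeGroup X)),
      a * b = b * a := by
    intro a ha b hb
    rcases ha with rfl | rfl <;> rcases hb with rfl | rfl
    · rfl
    · exact h
    · exact h.symm
    · rfl
  let H := Subgroup.closure ({x, y} : Set (FreeGroup X))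
  have hH : ∀ a b : H, a * b = b * a := (Subgroup.isMulCommutative_closure hcomm).is_comm.comm
  obtain ⟨ι, ⟨B⟩⟩ := (inferInstance : IsFreeGroup H).nonempty_basis
  have hι : Subsingleton ι := by
    apply subsingleton_of_comm
    intro a b
    have := hH (B.repr.symm a) (B.repr.symm b)
    rw [← map_mul, ← map_mul] at this
    exact B.repr.symm.injective this
  have hx : x ∈ H := Subgroup.subset_closure (by simp)
  have hy : y ∈ H := Subgroup.subset_closure (by simp)
  rcases isEmpty_or_nonempty ι with hE | ⟨⟨i⟩⟩
  · have hsub : ∀ a b : H, a = b := by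
      intro a b
      apply B.repr.injective
      exact Subsingleton.elim _ _
    refine ⟨1, 0, 0, ?_, ?_⟩
    · have := congrArg Subtype.val (hsub ⟨x, hx⟩ 1)
      simpa using this
    · have := congrArg Subtype.val (hsub ⟨y, hy⟩ 1)
      simpa using this
  · let _ : Unique ι := ⟨⟨i⟩, fun j => Subsingleton.elim _ _⟩
    let e : H ≃* Multiplicative ℤ := B.repr.trans FreeGroup.mulEquivIntOfUnique
    have key : ∀ a : H, ∃ n : ℤ, a = (e.symm (Multiplicative.ofAdd 1)) ^ n := by
      intro a
      refine ⟨Multiplicative.toAdd (e a), ?_⟩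
      apply e.injective
      rw [map_zpow, MulEquiv.apply_symm_apply, ← ofAdd_zsmul]
      simp
    obtain ⟨s, hs⟩ := key ⟨x, hx⟩
    obtain ⟨t, ht⟩ := key ⟨y, hy⟩
    refine ⟨(e.symm (Multiplicative.ofAdd 1) : H), s, t, ?_, ?_⟩
    · have := congrArg Subtype.val hs
      simpa using this
    · have := congrArg Subtype.val ht
      simpa using this

/-- If every element of `A` has finite order then a semidirect product of a free group by `A`
contains no copy of `ℤ^k` with `k ≥ 2`. -/
theorem no_free_abelian (X A : Type) [Group A] (hA : ∀ a : A, IsOfFinOrder a)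
    (φ : A →* MulAut (FreeGroup X)) (k : ℕ) (hk : 2 ≤ k)
    (K : Subgroup (SemidirectProduct (FreeGroup X) A φ)) :
    ¬ Nonempty (K ≃* Multiplicative (Fin k → ℤ)) := by
  rintro ⟨e⟩
  let i0 : Fin k := ⟨0, by omega⟩
  let i1 : Fin k := ⟨1, by omega⟩
  have hne : i0 ≠ i1 := by
    intro h
    have := congrArg Fin.val h
    simp [i0, i1] at this
  let u : K := e.symm (Multiplicative.ofAdd (Pi.single i0 1))
  let v : K := e.symm (Multiplicative.ofAdd (Pi.single i1 1))
  have hlift : ∀ z : K, ∃ (p : ℕ) (x : FreeGroup X), 0 < p ∧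
      (SemidirectProduct.inl x : SemidirectProduct (FreeGroup X) A φ) = (z : _) ^ p := by
    intro z
    have hz := hA (SemidirectProduct.rightHom (z : SemidirectProduct (FreeGroup X) A φ))
    refine ⟨orderOf (SemidirectProduct.rightHom (z : SemidirectProduct (FreeGroup X) A φ)), ?_⟩
    have hmem : (z : SemidirectProduct (FreeGroup X) A φ) ^
        orderOf (SemidirectProduct.rightHom (z : SemidirectProduct (FreeGroup X) A φ)) ∈
        (SemidirectProduct.rightHom : SemidirectProduct (FreeGroup X) A φ →* A).ker := by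
      rw [MonoidHom.mem_ker, map_pow, pow_orderOf_eq_one]
    rw [← SemidirectProduct.range_inl_eq_ker_rightHom] at hmem
    obtain ⟨x, hx⟩ := hmem
    exact ⟨x, hz.orderOf_pos, hx⟩
  obtain ⟨p, x, hp, hx⟩ := hlift u
  obtain ⟨q, y, hq, hy⟩ := hlift v
  have huv : u ^ p * v ^ q = v ^ q * u ^ p := by
    apply e.injective
    rw [map_mul, map_mul, mul_comm]
  have hxy : x * y = y * x := by
    apply SemidirectProduct.inl_injective (φ := φ)
    rw [map_mul, map_mul, hx, hy]
    exact congrArg Subtype.val huv
  obtain ⟨w, s, t, hs, ht⟩ := comm_powers x y hxy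
  have h1 : x ^ t = y ^ s := by
    rw [hs, ht, ← zpow_mul, ← zpow_mul, mul_comm]
  have h2 : (u ^ p) ^ t = (v ^ q) ^ s := by
    apply Subtype.ext
    have := congrArg (SemidirectProduct.inl : FreeGroup X →* SemidirectProduct (FreeGroup X) A φ) h1
    rw [map_zpow, map_zpow, hx, hy] at this
    exact_mod_cast this
  have h3 := congrArg (fun z => Multiplicative.toAdd (e z)) h2
  have e1 : Multiplicative.toAdd (e ((u ^ p) ^ t)) = t • (p • (Pi.single i0 1 : Fin k → ℤ)) := by
    rw [map_zpow, map_pow]
    simp [u]
  have e2 : Multiplicative.toAdd (e ((v ^ q) ^ s)) = s • (q • (Pi.single i1 1 : Fin k → ℤ)) := by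
    rw [map_zpow, map_pow]
    simp [v]
  simp only [e1, e2] at h3
  have c0 := congrFun h3 i0
  have c1 := congrFun h3 i1
  simp [Pi.single_eq_of_ne hne, Pi.single_eq_of_ne hne.symm] at c0 c1
  have ht0 : t = 0 := by
    rcases c0 with h | h
    · exact h
    · omega
  have hs0 : s = 0 := by
    rcases c1 with h | h
    · exact h
    · omega
  rw [hs0, zpow_zero] at hs
  rw [hs, map_one] at hx
  have h5 : u ^ p = 1 := by
    apply Subtype.ext
    exact_mod_cast hx.symm
  have h6 := congrArg (fun z => Multiplicative.toAdd (e z)) h5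
  have e3 : Multiplicative.toAdd (e (u ^ p)) = (p • (Pi.single i0 1 : Fin k → ℤ)) := by
    rw [map_pow]
    simp [u]
  simp only [e3, map_one] at h6
  have c2 := congrFun h6 i0
  simp at c2
  omega

end Pool.Agent.Helper475.NoZ2
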