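import Mathlib

set_option autoImplicit false

namespace Pool.Agent.Helper475.OC

open Set Topology

/-- the circle, written additively -/
abbrev T : Type := UnitAddCircle

/-- The pull back of the real line under a circle valued map. -/
def Zc {Y : Type} (φ : Y → T) : Set (Y × ℝ) := {z | φ z.1 = ((z.2 : ℝ) : T)}

/-- `C` is circle-like, additive version. -/
def CL (X : Type) [MetricSpace X] : Prop :=
  ∀ ε : ℝ, 0 < ε → ∃ p : X → T, Continuous p ∧ Function.Surjective p ∧
    ∀ x x', p x = p x' → dist x x' < ε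

/-- a circle valued map lifts to the real line -/
def Lifts {X : Type} [TopologicalSpace X] (p : X → T) : Prop :=
  ∃ q : X → ℝ, Continuous q ∧ ∀ x, p x = ((q x : ℝ) : T)

/-- `v` is a value of the part of the fibre over `z` -/
def IsA {X Y : Type} (π : X → Y) (p : X → T) (k : ℕ) (κ : X → ℝ) (z : Y × ℝ) (v : ℝ) : Prop :=
  ∃ x, π x = z.1 ∧ p x = ((v : ℝ) : T) ∧ (k : ℝ) * v + κ x = z.2

/-- the links of the circular chain given by a circle valued map -/
def Ulink {X : Type} (p : X → T) (N : ℕ) (k : ZMod N) : Set X :=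
  {x | ∃ v : ℝ, p x = ((v : ℝ) : T) ∧ ∃ m : ℤ, (m : ZMod N) = k ∧ |(N : ℝ) * v - m| < 1}

/-- classes of a partition of `ZMod N` and the sets of the corresponding cover of `Y` -/
def Wset {X Y : Type} {N : ℕ} (π : X → Y) (U : ZMod N → Set X) (κ : ZMod N → ZMod N)
    (a : ZMod N) : Set Y := {y | ∃ k, κ k = a ∧ y ∈ π '' (U k)}

/-- no three different members of the family meet -/
def NoTriple {Y ι : Type} (W : ι → Set Y) : Prop :=
  ∀ a b c : ι, a ≠ b → b ≠ c → a ≠ c → ∀ y, y ∈ W a → y ∈ W b → y ∈ W c → False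

/-- the nerve graph of a family of sets -/
def nerve {Y ι : Type} (W : ι → Set Y) : SimpleGraph ι where
  Adj a b := a ≠ b ∧ (W a ∩ W b).Nonempty
  symm := ⟨fun a b h => ⟨h.1.symm, by rw [Set.inter_comm]; exact h.2⟩⟩
  loopless := ⟨fun a h => h.1 rfl⟩

/-- integer valued locally constant functions on the links of a circular chain that differ by
constants on consecutive links are constant on each link -/
def ChainProp {X : Type} [TopologicalSpace X] {N : ℕ} (U : ZMod N → Set X) : Prop :=
  ∀ (n : ZMod N → X → ℤ) (c : ZMod N → ℤ), (∀ k, ContinuousOn (n k) (U k)) →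
    (∀ k, ∀ x, x ∈ U k → x ∈ U (k + 1) → n (k + 1) x = n k x + c k) →
    ∃ C : ZMod N → ℤ, ∀ k, ∀ x ∈ U k, n k x = C k


end Pool.Agent.Helper475.OC
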