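import Pool.Agent.Helper475.OCBase

set_option autoImplicit false

namespace Pool.Agent.Helper475.OC.M1

open Pool.Agent.Helper475.OC
open Set Topology


/-- fibrewise minimum of a function, continuous on a closed set of the base -/
theorem fiberMinOn {X Y : Type} [MetricSpace X] [CompactSpace X] [MetricSpace Y] [CompactSpace Y]
    (π : X → Y) (hc : Continuous π) (hs : Function.Surjective π) (ho : IsOpenMap π)
    (E : Set Y) (hE : IsClosed E) (w : X → ℝ) (hw : ContinuousOn w (π ⁻¹' E)) :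
    ∃ m : Y → ℝ, ContinuousOn m E ∧
      ∀ y ∈ E, (∃ x, π x = y ∧ m y = w x) ∧ ∀ x, π x = y → m y ≤ w x := by
  have hex : ∀ y ∈ E, ∃ x, π x = y ∧ ∀ x', π x' = y → w x ≤ w x' := by
    intro y hy
    have h1 : IsCompact (π ⁻¹' {y}) := (isClosed_singleton.preimage hc).isCompact
    have h2 : (π ⁻¹' {y}).Nonempty := by
      obtain ⟨x, hx⟩ := hs y
      exact ⟨x, hx⟩
    have h3 : π ⁻¹' {y} ⊆ π ⁻¹' E := Set.preimage_mono (Set.singleton_subset_iff.mpr hy)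
    obtain ⟨x, hx, hmin⟩ := h1.exists_isMinOn h2 (hw.mono h3)
    exact ⟨x, hx, fun x' hx' => hmin hx'⟩
  have hex' : ∀ y, ∃ x, y ∈ E → π x = y ∧ ∀ x', π x' = y → w x ≤ w x' := by
    intro y
    by_cases hy : y ∈ E
    · obtain ⟨x, hx⟩ := hex y hy
      exact ⟨x, fun _ => hx⟩
    · obtain ⟨x, hx⟩ := hs y
      exact ⟨x, fun h => absurd h hy⟩
  choose x0 hx using hex'
  have hx0 : ∀ y ∈ E, π (x0 y) = y := fun y hy => (hx y hy).1
  have hmin : ∀ y ∈ E, ∀ x', π x' = y → w (x0 y) ≤ w x' := fun y hy => (hx y hy).2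
  refine ⟨fun y => w (x0 y), ?_, fun y hy => ⟨⟨x0 y, hx0 y hy, rfl⟩, hmin y hy⟩⟩
  intro y0 hy0
  rw [ContinuousWithinAt, tendsto_order]
  constructor
  · intro a ha
    have hC : IsClosed (π ⁻¹' E ∩ w ⁻¹' (Set.Iic a)) :=
      hw.preimage_isClosed_of_isClosed (hE.preimage hc) isClosed_Iic
    have hC' : IsClosed (π '' (π ⁻¹' E ∩ w ⁻¹' (Set.Iic a))) := (hC.isCompact.image hc).isClosed
    have hy : y0 ∈ (π '' (π ⁻¹' E ∩ w ⁻¹' (Set.Iic a)))ᶜ := by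
      rintro ⟨x, ⟨_, hx2⟩, hx3⟩
      have h1 := hmin y0 hy0 x hx3
      have h2 : w x ≤ a := hx2
      linarith
    filter_upwards [mem_nhdsWithin_of_mem_nhds (hC'.isOpen_compl.mem_nhds hy),
      self_mem_nhdsWithin] with y h1 h2
    by_contra h3
    apply h1
    refine ⟨x0 y, ⟨?_, ?_⟩, hx0 y h2⟩
    · show π (x0 y) ∈ E
      rw [hx0 y h2]; exact h2
    · exact not_lt.mp h3
  · intro a ha
    have h1 : x0 y0 ∈ π ⁻¹' E := by
      show π (x0 y0) ∈ E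
      rw [hx0 y0 hy0]; exact hy0
    have h2 : ∀ᶠ x in 𝓝[π ⁻¹' E] (x0 y0), w x < a := (hw _ h1).eventually (gt_mem_nhds ha)
    obtain ⟨O, hO, hxO, hOw⟩ := mem_nhdsWithin.mp h2
    have h3 : π '' O ∈ 𝓝 y0 := (ho O hO).mem_nhds ⟨x0 y0, hxO, hx0 y0 hy0⟩
    filter_upwards [mem_nhdsWithin_of_mem_nhds h3, self_mem_nhdsWithin] with y h4 h5
    obtain ⟨x, hx, rfl⟩ := h4
    exact (hmin (π x) h5 x rfl).trans_lt (hOw ⟨hx, h5⟩)


end Pool.Agent.Helper475.OC.M1
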