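import Pool.Agent.Helper475.OCBase

set_option autoImplicit false

namespace Pool.Agent.Helper475.OC.M10

open Pool.Agent.Helper475.OC
open Set Topology


theorem uc_mem {Y : Type} (φ : Y → T) {z : Y × ℝ} (hz : z ∈ Zc φ) (m : ℤ) :
    ((z.1, z.2 + m) : Y × ℝ) ∈ Zc φ := by
  have h1 : φ z.1 = ((z.2 : ℝ) : T) := hz
  show φ z.1 = ((z.2 + m : ℝ) : T)
  rw [h1, AddCircle.coe_add]
  have h2 : (((m : ℤ) : ℝ) : T) = 0 := by
    rw [AddCircle.coe_eq_zero_iff]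
    exact ⟨m, by simp⟩
  rw [h2, add_zero]

theorem uc_shift {Y : Type} (φ : Y → T) (A : Y × ℝ → ℝ) (K : ℕ)
    (hAK : ∀ z ∈ Zc φ, A (z.1, z.2 + K) = A z + 1) (n : ℤ) :
    ∀ z ∈ Zc φ, A (z.1, z.2 + n * K) = A z + n := by
  induction n using Int.induction_on with
  | zero => intro z hz; simp
  | succ k ih =>
    intro z hz
    have hm : ((z.1, z.2 + (((k : ℤ) * K : ℤ) : ℝ)) : Y × ℝ) ∈ Zc φ := uc_mem φ hz _
    have h1 := hAK _ hm
    have h2 := ih z hz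
    push_cast at h1 h2 ⊢
    have e : z.2 + ((k:ℝ) + 1) * K = z.2 + (k:ℝ) * K + K := by ring
    rw [e, h1, h2]; ring
  | pred k ih =>
    intro z hz
    have hm : ((z.1, z.2 + (((-(k : ℤ) - 1) * K : ℤ) : ℝ)) : Y × ℝ) ∈ Zc φ := uc_mem φ hz _
    have h1 := hAK _ hm
    have h2 := ih z hz
    push_cast at h1 h2 ⊢
    have e : z.2 + (-(k:ℝ) - 1) * K + K = z.2 + -(k:ℝ) * K := by ring
    rw [e, h2] at h1
    linarith

/-- uniform continuity of a quasiperiodic function -/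
theorem unifCont {Y : Type} [MetricSpace Y] [CompactSpace Y] (φ : Y → T) (hφ : Continuous φ)
    (A : Y × ℝ → ℝ) (hA : ContinuousOn A (Zc φ)) (K : ℕ) (hK : 0 < K)
    (hAK : ∀ z ∈ Zc φ, A (z.1, z.2 + K) = A z + 1) (η : ℝ) (hη : 0 < η) :
    ∃ r : ℝ, 0 < r ∧ ∀ z ∈ Zc φ, ∀ z' ∈ Zc φ, dist z.1 z'.1 < r → |z.2 - z'.2| < r →
      |A z - A z'| < η := by
  have hKR : (0:ℝ) < K := by exact_mod_cast hK
  have hclosed : IsClosed (Zc φ) := by
    have h2 : Continuous (fun z : Y × ℝ => ((z.2 : ℝ) : T)) :=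
      (AddCircle.continuous_mk' (1:ℝ)).comp continuous_snd
    exact isClosed_eq (hφ.comp continuous_fst) h2
  have hcomp : IsCompact (Zc φ ∩ (univ ×ˢ Icc (-1:ℝ) (K + 1))) :=
    (isCompact_univ.prod isCompact_Icc).inter_left hclosed
  have huc := hcomp.uniformContinuousOn_of_continuous (hA.mono inter_subset_left)
  rw [Metric.uniformContinuousOn_iff] at huc
  obtain ⟨δ, hδ, huc⟩ := huc η hη
  refine ⟨min δ 1, lt_min hδ one_pos, ?_⟩
  intro z hz z' hz' h1 h2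
  have h1δ := lt_of_lt_of_le h1 (min_le_left _ _)
  have h2δ := lt_of_lt_of_le h2 (min_le_left _ _)
  have h21 := lt_of_lt_of_le h2 (min_le_right _ _)
  set n : ℤ := ⌊z.2 / K⌋ with hn
  have hn1 : (n:ℝ) ≤ z.2 / K := Int.floor_le _
  have hn2 : z.2 / K < n + 1 := Int.lt_floor_add_one _
  rw [le_div_iff₀ hKR] at hn1
  rw [div_lt_iff₀ hKR] at hn2
  have hm : ((z.1, z.2 + (((-n) * K : ℤ) : ℝ)) : Y × ℝ) ∈ Zc φ := uc_mem φ hz _
  have hm' : ((z'.1, z'.2 + (((-n) * K : ℤ) : ℝ)) : Y × ℝ) ∈ Zc φ := uc_mem φ hz' _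
  have hs := uc_shift φ A K hAK (-n) z hz
  have hs' := uc_shift φ A K hAK (-n) z' hz'
  push_cast at hm hm' hs hs'
  rw [abs_lt] at h21
  have key := huc (z.1, z.2 + -(n:ℝ) * K) ⟨hm, mem_univ _, by show -1 ≤ z.2 + -(n:ℝ) * K; linarith,
      by show z.2 + -(n:ℝ) * K ≤ K + 1; linarith⟩
    (z'.1, z'.2 + -(n:ℝ) * K) ⟨hm', mem_univ _, by show -1 ≤ z'.2 + -(n:ℝ) * K; linarith [h21.2],
      by show z'.2 + -(n:ℝ) * K ≤ K + 1; linarith [h21.1]⟩ ?_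
  · rw [hs, hs', Real.dist_eq] at key
    have e : A z + -(n:ℝ) - (A z' + -(n:ℝ)) = A z - A z' := by ring
    rw [e] at key
    exact key
  · rw [Prod.dist_eq]
    apply max_lt
    · exact h1δ
    · show dist (z.2 + -(n:ℝ) * K) (z'.2 + -(n:ℝ) * K) < δ
      rw [Real.dist_eq]
      have e : z.2 + -(n:ℝ) * K - (z'.2 + -(n:ℝ) * K) = z.2 - z'.2 := by ring
      rw [e]; exact h2δ


end Pool.Agent.Helper475.OC.M10
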