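import Pool.Agent.Helper475.OCBase

set_option autoImplicit false

namespace Pool.Agent.Helper475.OC.M11

open Pool.Agent.Helper475.OC
open Set Topology


theorem j10598_shift {Y : Type} (φ : Y → T) (z : Y × ℝ) (hz : z ∈ Zc φ) (n : ℤ) :
    (z.1, z.2 + n) ∈ Zc φ := by
  show φ z.1 = ((z.2 + (n:ℝ) : ℝ) : T)
  have h1 : φ z.1 = ((z.2 : ℝ) : T) := hz
  have h2 : ((n : ℝ) : T) = 0 := by
    have h3 : ((1 : ℝ) : T) = 0 := AddCircle.coe_period 1
    have h4 : (n : ℝ) = n • (1:ℝ) := by simp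
    rw [h4, AddCircle.coe_zsmul, h3, smul_zero]
  rw [h1, AddCircle.coe_add, h2, add_zero]

theorem j10598_iter {Y : Type} (φ : Y → T) (A : Y × ℝ → ℝ) (K : ℕ) (d : ℝ)
    (hAK : ∀ z ∈ Zc φ, A (z.1, z.2 + K) = A z + d) (z : Y × ℝ) (hz : z ∈ Zc φ) (n : ℕ) :
    A (z.1, z.2 + n * K) = A z + n * d := by
  induction n with
  | zero => simp
  | succ n ih =>
    have hz' : (z.1, z.2 + (n:ℝ) * K) ∈ Zc φ := by
      have := j10598_shift φ z hz ((n * K : ℕ) : ℤ)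
      simpa using this
    have h1 := hAK _ hz'
    simp only at h1
    have h2 : z.2 + ((n + 1 : ℕ) : ℝ) * K = z.2 + (n:ℝ) * K + K := by push_cast; ring
    rw [h2, h1, ih]
    push_cast
    ring

/-- existence of the two record points -/
theorem records {Y : Type} [MetricSpace Y] [CompactSpace Y] [Nonempty Y]
    (φ : Y → T) (hφ : Continuous φ)
    (A B : Y × ℝ → ℝ) (hA : ContinuousOn A (Zc φ)) (hB : ContinuousOn B (Zc φ))
    (K : ℕ) (hK : 0 < K) (d : ℝ) (hd : 0 < d)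
    (hAK : ∀ z ∈ Zc φ, A (z.1, z.2 + K) = A z + 1)
    (hBK : ∀ z ∈ Zc φ, B (z.1, z.2 + K) = B z + d)
    (hcomp : ∀ a b : ℝ, IsCompact {z | z ∈ Zc φ ∧ a ≤ A z ∧ A z ≤ b}) :
    ∃ zs ∈ Zc φ, (∀ z ∈ Zc φ, A z ≤ A zs → B (z.1, z.2 + 1) ≤ B (zs.1, zs.2 + 1)) ∧
      ∃ z1 ∈ Zc φ, A zs ≤ A z1 ∧ ∀ z ∈ Zc φ, A zs ≤ A z → B z1 ≤ B z := by
  obtain ⟨y⟩ := ‹Nonempty Y›
  obtain ⟨x, hx⟩ := QuotientAddGroup.mk_surjective (φ y)
  have hz0 : (y, x) ∈ Zc φ := hx.symm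
  set z0 : Y × ℝ := (y, x) with hz0def
  set t1 := A z0 with ht1
  have hS1 : ∀ z ∈ Zc φ, (z.1, z.2 + 1) ∈ Zc φ := by
    intro z hz
    have := j10598_shift φ z hz 1
    simpa using this
  have hmap : Continuous (fun z : Y × ℝ => ((z.1, z.2 + 1) : Y × ℝ)) := by fun_prop
  have hg : ContinuousOn (fun z : Y × ℝ => B (z.1, z.2 + 1)) (Zc φ) :=
    hB.comp hmap.continuousOn hS1
  have hC := hcomp (t1 - 1) t1
  obtain ⟨zs, hzs, hmax⟩ := hC.exists_isMaxOn ⟨z0, hz0, by linarith, le_rfl⟩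
    (hg.mono (fun z hz => hz.1))
  refine ⟨zs, hzs.1, ?_, ?_⟩
  · intro z hz hzA
    have h0 : 0 ≤ t1 - A z := by linarith [hzs.2.2]
    set n := ⌊t1 - A z⌋₊ with hn
    have hn1 : (n:ℝ) ≤ t1 - A z := Nat.floor_le h0
    have hn2 : t1 - A z < n + 1 := Nat.lt_floor_add_one _
    have hz' : (z.1, z.2 + (n:ℝ) * K) ∈ Zc φ := by
      have := j10598_shift φ z hz ((n * K : ℕ) : ℤ)
      simpa using this
    have hA' : A (z.1, z.2 + (n:ℝ) * K) = A z + n * 1 := j10598_iter φ A K 1 hAK z hz n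
    have hmem : (z.1, z.2 + (n:ℝ) * K) ∈ {z | z ∈ Zc φ ∧ t1 - 1 ≤ A z ∧ A z ≤ t1} := by
      refine ⟨hz', ?_, ?_⟩
      · rw [hA']; linarith
      · rw [hA']; linarith
    have h1 := hmax hmem
    simp only [Set.mem_setOf_eq] at h1
    have h2 := j10598_iter φ B K d hBK (z.1, z.2 + 1) (hS1 z hz) n
    simp only at h2
    have h3 : z.2 + (n:ℝ) * K + 1 = z.2 + 1 + n * K := by ring
    rw [h3, h2] at h1
    have h4 : 0 ≤ (n:ℝ) * d := by positivity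
    linarith
  · have hC2 := hcomp (A zs) (A zs + 1)
    obtain ⟨z1, hz1, hmin⟩ := hC2.exists_isMinOn ⟨zs, hzs.1, le_rfl, by linarith⟩
      (hB.mono (fun z hz => hz.1))
    refine ⟨z1, hz1.1, hz1.2.1, ?_⟩
    intro z hz hzA
    have h0 : 0 ≤ A z - A zs := by linarith
    set n := ⌊A z - A zs⌋₊ with hn
    have hn1 : (n:ℝ) ≤ A z - A zs := Nat.floor_le h0
    have hn2 : A z - A zs < n + 1 := Nat.lt_floor_add_one _
    have hz' : (z.1, z.2 - (n:ℝ) * K) ∈ Zc φ := by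
      have := j10598_shift φ z hz (-((n * K : ℕ) : ℤ))
      simpa [sub_eq_add_neg] using this
    have hA' := j10598_iter φ A K 1 hAK _ hz' n
    have hB' := j10598_iter φ B K d hBK _ hz' n
    simp only [sub_add_cancel] at hA' hB'
    have hzz : (z.1, z.2) = z := rfl
    rw [hzz] at hA' hB'
    have hmem : (z.1, z.2 - (n:ℝ) * K) ∈ {z | z ∈ Zc φ ∧ A zs ≤ A z ∧ A z ≤ A zs + 1} := by
      refine ⟨hz', ?_, ?_⟩
      · linarith
      · linarith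
    have h1 := hmin hmem
    simp only [Set.mem_setOf_eq] at h1
    have h4 : 0 ≤ (n:ℝ) * d := by positivity
    linarith


end Pool.Agent.Helper475.OC.M11
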