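import Pool.Agent.Helper475.OCBase

set_option autoImplicit false

namespace Pool.Agent.Helper475.OC.M2

open Pool.Agent.Helper475.OC
open Set Topology


theorem rep01 (t : T) : ∃ s : ℝ, 0 ≤ s ∧ s < 1 ∧ ((s : ℝ) : T) = t := by
  obtain ⟨y, rfl⟩ := QuotientAddGroup.mk_surjective t
  refine ⟨Int.fract y, Int.fract_nonneg y, Int.fract_lt_one y, ?_⟩
  have h : ((y - Int.fract y : ℝ) : T) = 0 := by
    rw [AddCircle.coe_eq_zero_iff]
    exact ⟨⌊y⌋, by rw [Int.self_sub_fract]; simp⟩
  rw [AddCircle.coe_sub, sub_eq_zero] at h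
  exact h.symm

theorem rep_small (t : T) : ∃ r : ℝ, ((r : ℝ) : T) = t ∧ |r| = ‖t‖ := by
  obtain ⟨y, rfl⟩ := QuotientAddGroup.mk_surjective t
  refine ⟨y - round y, ?_, ?_⟩
  · have h : ((y - (y - round y) : ℝ) : T) = 0 := by
      rw [AddCircle.coe_eq_zero_iff]
      exact ⟨round y, by simp⟩
    rw [AddCircle.coe_sub, sub_eq_zero] at h
    exact h.symm
  · exact (UnitAddCircle.norm_eq (x := y)).symm

theorem norm_coe_le' (x : ℝ) : ‖((x : ℝ) : T)‖ ≤ |x| := by
  rw [UnitAddCircle.norm_eq]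
  have := round_le x 0
  simpa using this

theorem norm_coe_small {x : ℝ} (hx : |x| ≤ 1 / 2) : ‖((x : ℝ) : T)‖ = |x| :=
  (AddCircle.norm_coe_eq_abs_iff 1 one_ne_zero).2 (by simpa using hx)

/-- clamp to the unit interval -/
noncomputable def clp (t : ℝ) : ℝ := max 0 (min 1 t)

theorem clp_cont : Continuous clp := by
  unfold clp
  fun_prop

theorem clp_ge {t : ℝ} (h : 1 ≤ t) : clp t = 1 := by
  unfold clp
  rw [min_eq_left h, max_eq_right zero_le_one]

theorem clp_le {t : ℝ} (h : t ≤ 0) : clp t = 0 := by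
  unfold clp
  rw [min_eq_right (h.trans zero_le_one), max_eq_left h]

theorem clp_mid {t : ℝ} (h0 : 0 ≤ t) (h1 : t ≤ 1) : clp t = t := by
  unfold clp
  rw [min_eq_right h1, max_eq_right h0]

theorem interp (δ : ℕ → ℝ) (N k : ℕ) (hk : k < N) (s : ℝ) (h0 : (k : ℝ) ≤ s) (h1 : s ≤ k + 1) :
    ∑ j ∈ Finset.range N, δ j * clp (s - j) = ∑ j ∈ Finset.range k, δ j + δ k * (s - k) := by
  obtain ⟨m, rfl⟩ : ∃ m, N = k + 1 + m := ⟨N - (k + 1), by omega⟩
  rw [Finset.sum_range_add, Finset.sum_range_succ]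
  have e1 : ∑ j ∈ Finset.range k, δ j * clp (s - j) = ∑ j ∈ Finset.range k, δ j := by
    apply Finset.sum_congr rfl
    intro j hj
    have hj' : (j : ℝ) + 1 ≤ k := by exact_mod_cast Finset.mem_range.1 hj
    rw [clp_ge (by linarith), mul_one]
  have e2 : ∑ j ∈ Finset.range m, δ (k + 1 + j) * clp (s - ((k + 1 + j : ℕ) : ℝ)) = 0 := by
    apply Finset.sum_eq_zero
    intro j _
    rw [clp_le, mul_zero]
    push_cast
    have : (0 : ℝ) ≤ j := Nat.cast_nonneg j
    linarith
  rw [e1, e2, clp_mid (by linarith) (by linarith), add_zero]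


/-- a circle valued map factors approximately through a map with small fibres -/
theorem factor {X : Type} [MetricSpace X] [CompactSpace X] (χ : X → T) (hχ : Continuous χ)
    (η : ℝ) (hη : 0 < η) :
    ∃ ρ : ℝ, 0 < ρ ∧ ∀ p : X → T, Continuous p → Function.Surjective p →
      (∀ x x', p x = p x' → dist x x' < ρ) →
      ∃ (d : ℤ) (β : X → ℝ), Continuous β ∧ (∀ x, χ x = d • p x + ((β x : ℝ) : T)) ∧
        ∀ x x', p x = p x' → |β x - β x'| < η := by
  classical
  set e : ℝ := min η (1 / 4) with he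
  have he0 : 0 < e := lt_min hη (by norm_num)
  have he1 : e ≤ 1 / 4 := min_le_right _ _
  have heη : e ≤ η := min_le_left _ _
  obtain ⟨ρ, hρ, hρχ⟩ := Metric.uniformContinuous_iff.1
    (CompactSpace.uniformContinuous_of_continuous hχ) (e / 4) (by positivity)
  refine ⟨ρ, hρ, ?_⟩
  intro p hp hsurj hfib
  -- modulus
  obtain ⟨a, ha0, ha⟩ := IsCompact.exists_forall_le'
    (s := {z : X × X | ρ ≤ dist z.1 z.2}) (f := fun z : X × X => ‖p z.1 - p z.2‖)
    (isClosed_le continuous_const (continuous_fst.dist continuous_snd)).isCompact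
    (((hp.comp continuous_fst).sub (hp.comp continuous_snd)).norm.continuousOn) (a := 0)
    (by
      rintro ⟨x, x'⟩ hx
      rw [norm_pos_iff]
      intro h
      have h1 := hfib x x' (sub_eq_zero.1 h)
      have h2 : ρ ≤ dist x x' := hx
      linarith)
  have hmod : ∀ x x' : X, ‖p x - p x'‖ < a → ‖χ x - χ x'‖ < e / 4 := by
    intro x x' h
    have h1 : dist x x' < ρ := by
      by_contra hcon
      rw [not_lt] at hcon
      have := ha (x, x') hcon
      linarith
    have h2 := hρχ h1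
    rwa [dist_eq_norm] at h2
  obtain ⟨n, hn⟩ := exists_nat_one_div_lt ha0
  set N : ℕ := n + 1 with hN
  have hN0 : (0 : ℝ) < N := by rw [hN]; positivity
  have hN1 : (1 : ℝ) / N < a := by rw [hN]; push_cast; exact hn
  -- section
  set σ := Function.surjInv hsurj with hσ
  have hpσ : ∀ t, p (σ t) = t := Function.surjInv_eq hsurj
  let x : ℕ → X := fun k => σ (((k : ℝ) / N : ℝ) : T)
  have hpx : ∀ k, p (x k) = (((k : ℝ) / N : ℝ) : T) := fun k => hpσ _
  have hxN : x N = x 0 := by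
    show σ _ = σ _
    congr 1
    rw [div_self hN0.ne']
    have h : (((1 : ℝ) - ((0 : ℕ) : ℝ) / N : ℝ) : T) = 0 := by
      rw [AddCircle.coe_eq_zero_iff]
      exact ⟨1, by simp⟩
    rw [AddCircle.coe_sub, sub_eq_zero] at h
    exact h
  have hstep : ∀ k, ‖χ (x (k + 1)) - χ (x k)‖ < e / 4 := by
    intro k
    apply hmod
    rw [hpx, hpx, ← AddCircle.coe_sub]
    refine lt_of_le_of_lt (norm_coe_le' _) ?_
    have h1 : (((k + 1 : ℕ) : ℝ) / N - (k : ℝ) / N) = 1 / N := by
      push_cast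
      field_simp
      ring
    rw [h1, abs_of_pos (by positivity)]
    exact hN1
  choose sr hsr1 hsr2 using rep_small
  let δ : ℕ → ℝ := fun k => sr (χ (x (k + 1)) - χ (x k))
  have hδ1 : ∀ k, ((δ k : ℝ) : T) = χ (x (k + 1)) - χ (x k) := fun k => hsr1 _
  have hδ2 : ∀ k, |δ k| < e / 4 := fun k => by
    show |sr _| < _
    rw [hsr2]
    exact hstep k
  set c0 : ℝ := sr (χ (x 0)) with hc0
  have hck : ∀ k : ℕ, ((c0 + ∑ j ∈ Finset.range k, δ j : ℝ) : T) = χ (x k) := by
    intro k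
    induction k with
    | zero => simp [hc0, hsr1]
    | succ k ih =>
      rw [Finset.sum_range_succ, ← add_assoc, AddCircle.coe_add, ih, hδ1]
      abel
  obtain ⟨d, hd⟩ : ∃ d : ℤ, ∑ j ∈ Finset.range N, δ j = d := by
    have h1 := hck N
    have h0 := hck 0
    rw [hxN, ← h0, Finset.sum_range_zero, add_zero, AddCircle.coe_add] at h1
    have h2 : ((∑ j ∈ Finset.range N, δ j : ℝ) : T) = 0 := by
      have := congrArg (fun t => t - ((c0 : ℝ) : T)) h1
      simpa using this
    rw [AddCircle.coe_eq_zero_iff] at h2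
    obtain ⟨d, hd⟩ := h2
    exact ⟨d, by rw [← hd]; simp⟩
  set Ef : ℝ → ℝ := fun s => c0 + ∑ j ∈ Finset.range N, δ j * clp (N * s - j) with hEf
  have hEc : Continuous Ef := by
    rw [hEf]
    refine continuous_const.add (continuous_finsetSum _ (fun j _ => ?_))
    exact continuous_const.mul (clp_cont.comp (by fun_prop))
  have hEk : ∀ (s : ℝ) (k : ℕ), k < N → (k : ℝ) ≤ N * s → N * s ≤ k + 1 →
      Ef s = c0 + ∑ j ∈ Finset.range k, δ j + δ k * (N * s - k) := by
    intro s k hk h0 h1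
    show c0 + ∑ j ∈ Finset.range N, δ j * clp (N * s - j) = _
    rw [interp δ N k hk _ h0 h1, add_assoc]
  have hE0 : Ef 0 = c0 := by
    rw [hEk 0 0 (by omega) (by simp) (by simp)]
    simp
  have hE1 : Ef 1 = c0 + d := by
    rw [hEk 1 n (by omega) (by rw [hN]; push_cast; linarith) (by rw [hN]; push_cast; linarith)]
    rw [← hd, hN, Finset.sum_range_succ]
    push_cast
    ring
  set g : ℝ → ℝ := fun s => Ef s - d * s with hg
  set gt : T → ℝ := AddCircle.liftIco 1 0 g with hgt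
  have hgc : Continuous gt := by
    apply AddCircle.liftIco_continuous
    · show Ef 0 - d * 0 = Ef (0 + 1) - d * (0 + 1)
      rw [zero_add, hE0, hE1]
      ring
    · exact (hEc.sub (continuous_const.mul continuous_id)).continuousOn
  have hgs : ∀ s : ℝ, 0 ≤ s → s < 1 → gt ((s : ℝ) : T) = g s := by
    intro s h0 h1
    exact AddCircle.liftIco_coe_apply ⟨h0, by linarith⟩
  have hG : ∀ s : ℝ, 0 ≤ s → s < 1 →
      d • ((s : ℝ) : T) + ((gt ((s : ℝ) : T) : ℝ) : T) = ((Ef s : ℝ) : T) := by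
    intro s h0 h1
    rw [hgs s h0 h1, ← AddCircle.coe_zsmul, ← AddCircle.coe_add]
    congr 1
    rw [zsmul_eq_mul]
    show d * s + (Ef s - d * s) = Ef s
    ring
  set D : X → T := fun y => χ y - (d • p y + ((gt (p y) : ℝ) : T)) with hD
  have hcoe : Continuous (fun r : ℝ => ((r : ℝ) : T)) := AddCircle.continuous_mk' 1
  have hDc : Continuous D := by
    rw [hD]
    exact hχ.sub ((hp.zsmul d).add (hcoe.comp (hgc.comp hp)))
  have hDn : ∀ y, ‖D y‖ < e / 2 := by
    intro y
    obtain ⟨s, hs0, hs1, hs⟩ := rep01 (p y)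
    have e1 : D y = χ y - ((Ef s : ℝ) : T) := by
      show χ y - (d • p y + ((gt (p y) : ℝ) : T)) = _
      rw [← hs, hG s hs0 hs1]
    set k := ⌊N * s⌋₊ with hk
    have hNs : 0 ≤ N * s := by positivity
    have hk0 : (k : ℝ) ≤ N * s := Nat.floor_le hNs
    have hk1 : N * s < k + 1 := Nat.lt_floor_add_one _
    have hkN : k < N := by
      have : (k : ℝ) < N := by nlinarith
      exact_mod_cast this
    have h1 : ‖χ y - χ (x k)‖ < e / 4 := by
      apply hmod
      rw [hpx, ← hs, ← AddCircle.coe_sub]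
      refine lt_of_le_of_lt (norm_coe_le' _) (lt_of_le_of_lt ?_ hN1)
      have h2 : s - (k : ℝ) / N = (N * s - k) / N := by field_simp
      rw [h2, abs_of_nonneg (div_nonneg (by linarith) hN0.le)]
      gcongr
      linarith
    have h2 : ‖χ (x k) - ((Ef s : ℝ) : T)‖ ≤ e / 4 := by
      rw [← hck k, hEk s k hkN hk0 hk1.le, ← AddCircle.coe_sub]
      refine (norm_coe_le' _).trans ?_
      have h3 : c0 + ∑ j ∈ Finset.range k, δ j - (c0 + ∑ j ∈ Finset.range k, δ j + δ k * (N * s - k))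
          = -(δ k * (N * s - k)) := by ring
      rw [h3, abs_neg, abs_mul, abs_of_nonneg (by linarith : 0 ≤ N * s - k)]
      have h4 := hδ2 k
      have h5 := abs_nonneg (δ k)
      nlinarith
    calc ‖D y‖ = ‖(χ y - χ (x k)) + (χ (x k) - ((Ef s : ℝ) : T))‖ := by
          rw [e1]
          congr 1
          abel
      _ ≤ ‖χ y - χ (x k)‖ + ‖χ (x k) - ((Ef s : ℝ) : T)‖ := norm_add_le _ _
      _ < e / 2 := by linarith
  have hr : ∀ y, |sr (D y)| < e / 2 := fun y => by rw [hsr2]; exact hDn y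
  have hrd : ∀ y y', |sr (D y) - sr (D y')| = ‖D y - D y'‖ := by
    intro y y'
    have h1 : |sr (D y) - sr (D y')| ≤ 1 / 2 := by
      have := abs_sub (sr (D y)) (sr (D y'))
      linarith [hr y, hr y']
    rw [← norm_coe_small h1, AddCircle.coe_sub, hsr1, hsr1]
  have hrc : Continuous (fun y => sr (D y)) := by
    rw [continuous_iff_continuousAt]
    intro y
    have h1 : ContinuousAt D y := hDc.continuousAt
    rw [ContinuousAt, tendsto_iff_dist_tendsto_zero] at h1 ⊢
    refine h1.congr (fun y' => ?_)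
    rw [Real.dist_eq, hrd, dist_eq_norm]
  refine ⟨d, fun y => gt (p y) + sr (D y), (hgc.comp hp).add hrc, ?_, ?_⟩
  · intro y
    rw [AddCircle.coe_add, hsr1]
    show χ y = d • p y + (((gt (p y) : ℝ) : T) + (χ y - (d • p y + ((gt (p y) : ℝ) : T))))
    abel
  · intro y y' h
    have h1 : gt (p y) + sr (D y) - (gt (p y') + sr (D y')) = sr (D y) - sr (D y') := by
      rw [h]
      ring
    show |gt (p y) + sr (D y) - (gt (p y') + sr (D y'))| < η
    rw [h1]
    have := abs_sub (sr (D y)) (sr (D y'))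
    linarith [hr y, hr y']


end Pool.Agent.Helper475.OC.M2
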