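import Pool.Agent.Helper475.OCBase

set_option autoImplicit false

namespace Pool.Agent.Helper475.OC.M24

open Pool.Agent.Helper475.OC
open Set Topology


/-- comparison of the minimal classes on two levels -/
theorem relation {X Y : Type} [TopologicalSpace X] [ConnectedSpace X] [TopologicalSpace Y]
    (π : X → Y) (hc : Continuous π) (hs : Function.Surjective π)
    (hmin : ∀ w : X → ℝ, Continuous w → ∃ m : Y → ℝ, Continuous m ∧ ∀ y, ∃ x, π x = y ∧ m y = w x)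
    (p : X → T) (k : ℕ) (hk : 0 < k) (φ : Y → T) (hφ : Continuous φ) (κ : X → ℝ)
    (hκ : Continuous κ) (hrel : ∀ x, φ (π x) = (k : ℤ) • p x + ((κ x : ℝ) : T))
    (hdiv : ∀ (K' : ℤ) (φ' : Y → T) (κ' : X → ℝ), Continuous φ' → Continuous κ' →
      (∀ x, φ' (π x) = K' • p x + ((κ' x : ℝ) : T)) → (k : ℤ) ∣ K')
    (K : ℤ) (φ₀ : Y → T) (hφ₀ : Continuous φ₀) (κ₀ : X → ℝ) (hκ₀ : Continuous κ₀)
    (h₀ : ∀ x, φ₀ (π x) = K • p x + ((κ₀ x : ℝ) : T)) :
    ∃ (c : ℤ) (lam : Y → ℝ), K = c * k ∧ Continuous lam ∧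
      ∀ x, κ₀ x = c * κ x + lam (π x) := by
  obtain ⟨c, hc'⟩ := hdiv K φ₀ κ₀ hφ₀ hκ₀ h₀
  have hw : Continuous (fun x => κ₀ x - c * κ x) := hκ₀.sub (continuous_const.mul hκ)
  have key : ∀ x, φ₀ (π x) - c • φ (π x) = ((κ₀ x - c * κ x : ℝ) : T) := by
    intro x
    have e1 : ((κ₀ x - c * κ x : ℝ) : T) = ((κ₀ x : ℝ) : T) - c • ((κ x : ℝ) : T) := by
      rw [AddCircle.coe_sub, ← AddCircle.coe_zsmul, zsmul_eq_mul]
    rw [e1, h₀, hrel, hc', smul_add, smul_smul, mul_comm (k : ℤ) c]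
    abel
  obtain ⟨m, hm, hmx⟩ := hmin _ hw
  have hint : ∀ x, ∃ n : ℤ, ((n : ℤ) : ℝ) = (κ₀ x - c * κ x) - m (π x) := by
    intro x
    obtain ⟨x', hx', hmx'⟩ := hmx (π x)
    have h1 : ((m (π x) : ℝ) : T) = ((κ₀ x - c * κ x : ℝ) : T) := by
      rw [hmx', ← key x', hx', key x]
    have h2 : (((κ₀ x - c * κ x) - m (π x) : ℝ) : T) = 0 := by
      rw [AddCircle.coe_sub, h1, sub_self]
    rw [AddCircle.coe_eq_zero_iff] at h2
    obtain ⟨n, hn⟩ := h2
    refine ⟨n, ?_⟩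
    rw [zsmul_eq_mul, mul_one] at hn
    exact hn
  choose n hn using hint
  have hnc : Continuous n := by
    rw [Int.isClosedEmbedding_coe_real.isInducing.continuous_iff]
    have h1 : ((fun j : ℤ => (j : ℝ)) ∘ n) = fun x => (κ₀ x - c * κ x) - m (π x) := by
      funext x
      exact hn x
    rw [h1]
    exact hw.sub (hm.comp hc)
  obtain ⟨x0⟩ := (inferInstance : Nonempty X)
  have hconst : ∀ x, n x = n x0 := fun x =>
    PreconnectedSpace.constant inferInstance hnc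
  refine ⟨c, fun y => m y + n x0, ?_, hm.add continuous_const, ?_⟩
  · rw [hc', mul_comm]
  · intro x
    have h1 := hn x
    rw [hconst x] at h1
    linarith


end Pool.Agent.Helper475.OC.M24
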