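import Pool.Agent.Helper475.OCBase

set_option autoImplicit false

namespace Pool.Agent.Helper475.OC.M3

open Pool.Agent.Helper475.OC
open Set Topology


theorem exists_rep (t : T) : ∃ r : ℝ, ((r : ℝ) : T) = t ∧ |r| = ‖t‖ := by
  obtain ⟨x, rfl⟩ := QuotientAddGroup.mk_surjective t
  refine ⟨x - round x, ?_, ?_⟩
  · have h : (((x - round x : ℝ)) : T) = ((x : ℝ) : T) - (((round x : ℤ) : ℝ) : T) :=
      AddCircle.coe_sub 1 x _
    rw [h]
    have h2 : (((round x : ℤ) : ℝ) : T) = 0 := by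
      rw [AddCircle.coe_eq_zero_iff]
      exact ⟨round x, by simp⟩
    rw [h2, sub_zero]
  · exact UnitAddCircle.norm_eq.symm

/-- the set of points of `X` whose fibre contains a point with difference `a` is clopen -/
theorem clopenXa {X Y : Type} [MetricSpace X] [CompactSpace X] [MetricSpace Y] [CompactSpace Y]
    (π : X → Y) (hc : Continuous π) (hs : Function.Surjective π) (ho : IsOpenMap π)
    (p : X → T) (hp : Continuous p) (k : ℕ) (hk : 0 < k) (φ : Y → T) (hφ : Continuous φ)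
    (κ : X → ℝ) (hκ : Continuous κ)
    (hrel : ∀ x, φ (π x) = (k : ℤ) • p x + ((κ x : ℝ) : T)) (a : ℤ) :
    IsClopen {x : X | ∃ x' : X, ∃ v v' : ℝ, π x' = π x ∧ p x = ((v : ℝ) : T) ∧
      p x' = ((v' : ℝ) : T) ∧ (k : ℝ) * v + κ x - ((k : ℝ) * v' + κ x') = a} := by
  have hk0 : (0:ℝ) < k := by exact_mod_cast hk
  have hrelv : ∀ (x : X) (v : ℝ), p x = ((v : ℝ) : T) →
      φ (π x) = (((k : ℝ) * v + κ x : ℝ) : T) := by
    intro x v h
    rw [hrel, h, AddCircle.coe_add, ← AddCircle.coe_zsmul]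
    congr 2
    rw [zsmul_eq_mul]
    push_cast
    ring
  constructor
  · -- closed
    let K : Set (X × X × ℝ) := {q | q.2.2 ∈ Icc (0:ℝ) 1 ∧ π q.2.1 = π q.1 ∧
      p q.1 = ((q.2.2 : ℝ) : T) ∧
      p q.2.1 = (((q.2.2 + (κ q.1 - κ q.2.1 - a) / k : ℝ)) : T)}
    have hKc : IsClosed K := by
      apply IsClosed.inter
      · exact isClosed_Icc.preimage (continuous_snd.comp continuous_snd)
      · apply IsClosed.inter
        · exact isClosed_eq (hc.comp (continuous_fst.comp continuous_snd)) (hc.comp continuous_fst)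
        · apply IsClosed.inter
          · exact isClosed_eq (hp.comp continuous_fst)
              ((AddCircle.continuous_mk' 1).comp (continuous_snd.comp continuous_snd))
          · refine isClosed_eq (hp.comp (continuous_fst.comp continuous_snd))
              ((AddCircle.continuous_mk' 1).comp ?_)
            fun_prop
    have hKcomp : IsCompact K := by
      have h1 : IsCompact ((univ : Set X) ×ˢ ((univ : Set X) ×ˢ Icc (0:ℝ) 1)) :=
        isCompact_univ.prod (isCompact_univ.prod isCompact_Icc)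
      refine h1.of_isClosed_subset hKc ?_
      rintro ⟨x, x', v⟩ hq
      exact ⟨mem_univ _, mem_univ _, hq.1⟩
    have himg : {x : X | ∃ x' : X, ∃ v v' : ℝ, π x' = π x ∧ p x = ((v : ℝ) : T) ∧
      p x' = ((v' : ℝ) : T) ∧ (k : ℝ) * v + κ x - ((k : ℝ) * v' + κ x') = a} =
      Prod.fst '' K := by
      ext x
      constructor
      · rintro ⟨x', v, v', h1, h2, h3, h4⟩
        have hfl : ∀ w : ℝ, (((w - ⌊v⌋ : ℝ)) : T) = ((w : ℝ) : T) := by
          intro w
          rw [AddCircle.coe_sub]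
          have h2 : (((⌊v⌋ : ℤ) : ℝ) : T) = 0 := by
            rw [AddCircle.coe_eq_zero_iff]
            exact ⟨⌊v⌋, by simp⟩
          rw [h2, sub_zero]
        refine ⟨(x, x', v - ⌊v⌋), ⟨⟨?_, ?_⟩, h1, ?_, ?_⟩, rfl⟩
        · show 0 ≤ v - ⌊v⌋
          linarith [Int.floor_le v]
        · show v - ⌊v⌋ ≤ 1
          linarith [Int.lt_floor_add_one v]
        · show p x = _
          rw [hfl, h2]
        · show p x' = (((v - ⌊v⌋ + (κ x - κ x' - a) / k : ℝ)) : T)
          have h5 : v - ⌊v⌋ + (κ x - κ x' - a) / k = v' - ⌊v⌋ := by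
            field_simp
            linarith
          rw [h5, hfl, h3]
      · rintro ⟨⟨x1, x', v⟩, ⟨_, h1, h2, h3⟩, rfl⟩
        refine ⟨x', v, v + (κ x1 - κ x' - a) / k, h1, h2, h3, ?_⟩
        show (k : ℝ) * v + κ x1 - ((k : ℝ) * (v + (κ x1 - κ x' - a) / k) + κ x') = a
        field_simp
        ring
    rw [himg]
    exact (hKcomp.image continuous_fst).isClosed
  · -- open
    rw [isOpen_iff_forall_mem_open]
    rintro x ⟨x', v, v', h1, h2, h3, h4⟩
    have hU : ∀ z : X, IsOpen {y : X | (k : ℝ) * ‖p y - p z‖ < 1/4 ∧ |κ y - κ z| < 1/4} := by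
      intro z
      apply IsOpen.inter
      · exact isOpen_lt (continuous_const.mul (hp.sub continuous_const).norm) continuous_const
      · exact isOpen_lt (hκ.sub continuous_const).abs continuous_const
    have hself : ∀ z : X, z ∈ {y : X | (k : ℝ) * ‖p y - p z‖ < 1/4 ∧ |κ y - κ z| < 1/4} := by
      intro z
      constructor
      · rw [sub_self, norm_zero]; norm_num
      · rw [sub_self, abs_zero]; norm_num
    refine ⟨{y : X | (k : ℝ) * ‖p y - p x‖ < 1/4 ∧ |κ y - κ x| < 1/4} ∩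
      π ⁻¹' (π '' {y : X | (k : ℝ) * ‖p y - p x'‖ < 1/4 ∧ |κ y - κ x'| < 1/4}), ?_, ?_, ?_⟩
    · rintro x1 ⟨⟨g1, g2⟩, ⟨x1', ⟨g3, g4⟩, g5⟩⟩
      obtain ⟨r, hr, hrn⟩ := exists_rep (p x1 - p x)
      obtain ⟨r', hr', hrn'⟩ := exists_rep (p x1' - p x')
      have e1 : p x1 = (((v + r : ℝ)) : T) := by
        rw [AddCircle.coe_add, hr, ← h2]
        abel
      have e2 : p x1' = (((v' + r' : ℝ)) : T) := by
        rw [AddCircle.coe_add, hr', ← h3]
        abel
      have e3 : ((((k : ℝ) * (v + r) + κ x1 - ((k : ℝ) * (v' + r') + κ x1') : ℝ)) : T) = 0 := by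
        rw [AddCircle.coe_sub, ← hrelv x1 _ e1, ← hrelv x1' _ e2, g5, sub_self]
      rw [AddCircle.coe_eq_zero_iff] at e3
      obtain ⟨n, hn⟩ := e3
      rw [zsmul_eq_mul, mul_one] at hn
      refine ⟨x1', v + r, v' + r', g5, e1, e2, ?_⟩
      rw [← hn]
      have e4 : |((n - a : ℤ) : ℝ)| < 1 := by
        push_cast
        rw [hn, ← h4]
        have e5 : (k : ℝ) * (v + r) + κ x1 - ((k : ℝ) * (v' + r') + κ x1') -
            ((k : ℝ) * v + κ x - ((k : ℝ) * v' + κ x')) =
            (k : ℝ) * r + (κ x1 - κ x) - ((k : ℝ) * r' + (κ x1' - κ x')) := by ring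
        rw [e5]
        have e6 : |(k : ℝ) * r| < 1/4 := by
          rw [abs_mul, abs_of_pos hk0, hrn]
          exact g1
        have e7 : |(k : ℝ) * r'| < 1/4 := by
          rw [abs_mul, abs_of_pos hk0, hrn']
          exact g3
        rw [abs_lt] at e6 e7 g2 g4 ⊢
        constructor <;> linarith [e6.1, e6.2, e7.1, e7.2, g2.1, g2.2, g4.1, g4.2]
      have e8 : |n - a| < 1 := by exact_mod_cast e4
      have e9 : n = a := by
        rw [Int.abs_lt_one_iff] at e8
        omega
      rw [e9]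
    · exact (hU x).inter ((ho _ (hU x')).preimage hc)
    · exact ⟨hself x, ⟨x', hself x', h1⟩⟩


end Pool.Agent.Helper475.OC.M3
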