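import Pool.Agent.Helper475.OCBase

set_option autoImplicit false

namespace Pool.Agent.Helper475.OC.M4

open Pool.Agent.Helper475.OC
open Set Topology


theorem surjData_coe (a b : ℝ) : ((a : ℝ) : T) = ((b : ℝ) : T) ↔ ∃ n : ℤ, a - b = n := by
  rw [← sub_eq_zero, ← AddCircle.coe_sub, AddCircle.coe_eq_zero_iff]
  constructor
  · rintro ⟨n, hn⟩
    exact ⟨n, by rw [← hn]; simp⟩
  · rintro ⟨n, hn⟩
    exact ⟨n, by rw [hn]; simp⟩

/-- a minimal class: every part of the fibre is nonempty -/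
theorem surjData {X Y : Type} [MetricSpace X] [CompactSpace X] [ConnectedSpace X]
    [MetricSpace Y] [CompactSpace Y]
    (π : X → Y) (hc : Continuous π) (hs : Function.Surjective π) (ho : IsOpenMap π)
    (p : X → T) (hp : Continuous p) (k : ℕ) (hk : 0 < k) (φ : Y → T) (hφ : Continuous φ)
    (κ : X → ℝ) (hκ : Continuous κ)
    (hrel : ∀ x, φ (π x) = (k : ℤ) • p x + ((κ x : ℝ) : T))
    (hdiv : ∀ (K' : ℤ) (φ' : Y → T) (κ' : X → ℝ), Continuous φ' → Continuous κ' →
      (∀ x, φ' (π x) = K' • p x + ((κ' x : ℝ) : T)) → (k : ℤ) ∣ K')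
    (hclopen : ∀ a : ℤ, IsClopen {x : X | ∃ x' : X, ∃ v v' : ℝ, π x' = π x ∧
      p x = ((v : ℝ) : T) ∧ p x' = ((v' : ℝ) : T) ∧
      (k : ℝ) * v + κ x - ((k : ℝ) * v' + κ x') = a}) :
    ∀ z ∈ Zc φ, ∃ v, IsA π p k κ z v := by
  classical
  have hlift : ∀ x, ∃ v : ℝ, p x = ((v : ℝ) : T) := by
    intro x
    obtain ⟨v, hv⟩ := QuotientAddGroup.mk_surjective (p x)
    exact ⟨v, hv.symm⟩
  let P : ℤ → X → Prop := fun a x => ∃ x' : X, ∃ v v' : ℝ, π x' = π x ∧
      p x = ((v : ℝ) : T) ∧ p x' = ((v' : ℝ) : T) ∧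
      (k : ℝ) * v + κ x - ((k : ℝ) * v' + κ x') = a
  have hall : ∀ a x, P a x → ∀ y, P a y := by
    intro a x hx y
    have h1 := isClopen_iff.1 (hclopen a)
    rcases h1 with h1 | h1
    · have h2 : x ∈ {x : X | ∃ x' : X, ∃ v v' : ℝ, π x' = π x ∧
        p x = ((v : ℝ) : T) ∧ p x' = ((v' : ℝ) : T) ∧
        (k : ℝ) * v + κ x - ((k : ℝ) * v' + κ x') = a} := hx
      rw [h1] at h2
      exact absurd h2 (Set.notMem_empty _)
    · have h2 : y ∈ (Set.univ : Set X) := Set.mem_univ _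
      rw [← h1] at h2
      exact h2
  obtain ⟨x₀⟩ : Nonempty X := inferInstance
  let J : AddSubgroup ℤ :=
    { carrier := {a | ∀ x, P a x}
      zero_mem' := by
        intro x
        obtain ⟨v, hv⟩ := hlift x
        exact ⟨x, v, v, rfl, hv, hv, by simp⟩
      add_mem' := by
        intro a b ha hb x
        obtain ⟨x', v, v', h1, h2, h3, h4⟩ := ha x
        obtain ⟨x'', w, w', h5, h6, h7, h8⟩ := hb x'
        have h9 : ((w : ℝ) : T) = ((v' : ℝ) : T) := by rw [← h6, ← h3]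
        obtain ⟨n, hn⟩ := (surjData_coe _ _).1 h9
        refine ⟨x'', v, w' - n, h5.trans h1, h2, ?_, ?_⟩
        · rw [h7]
          exact (surjData_coe _ _).2 ⟨n, by ring⟩
        · have h10 : w = v' + n := by linarith
          rw [h10] at h8
          push_cast
          rw [← h4, ← h8]
          ring
      neg_mem' := by
        intro a ha
        obtain ⟨x', v, v', h1, h2, h3, h4⟩ := ha x₀
        apply hall (-a) x'
        refine ⟨x₀, v', v, h1.symm, h3, h2, ?_⟩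
        push_cast
        rw [← h4]
        ring }
  have hJ : ∀ a, a ∈ J ↔ ∀ x, P a x := fun a => Iff.rfl
  have hkJ : (k : ℤ) ∈ J := by
    rw [hJ]
    intro x
    obtain ⟨v, hv⟩ := hlift x
    refine ⟨x, v + 1, v, rfl, ?_, hv, ?_⟩
    · rw [hv]
      exact (surjData_coe _ _).2 ⟨-1, by push_cast; ring⟩
    · push_cast
      ring
  obtain ⟨e, he⟩ := Int.subgroup_cyclic J
  have hmem : ∀ a, a ∈ J ↔ e ∣ a := by
    intro a
    rw [he, AddSubgroup.mem_closure_singleton]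
    constructor
    · rintro ⟨n, rfl⟩
      exact ⟨n, by rw [smul_eq_mul, mul_comm]⟩
    · rintro ⟨n, rfl⟩
      exact ⟨n, by rw [smul_eq_mul, mul_comm]⟩
  obtain ⟨q, hq⟩ := (hmem _).1 hkJ
  have hk' : (k : ℤ) ≠ 0 := by positivity
  have he0 : e ≠ 0 := by
    rintro rfl
    rw [zero_mul] at hq
    exact hk' hq
  have he0' : (e : ℝ) ≠ 0 := by exact_mod_cast he0
  have hqr : (k : ℝ) = e * q := by exact_mod_cast hq
  let h : X → T := fun x => q • p x + ((κ x / e : ℝ) : T)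
  have hh : Continuous h := by
    refine (hp.zsmul q).add ?_
    exact (AddCircle.continuous_mk' 1).comp (hκ.div_const _)
  have hφv : ∀ x (v : ℝ), p x = ((v : ℝ) : T) → φ (π x) = (((k : ℝ) * v + κ x : ℝ) : T) := by
    intro x v hv
    rw [hrel, hv, AddCircle.coe_add, ← AddCircle.coe_zsmul, zsmul_eq_mul]
    push_cast
    rfl
  have hconst : ∀ x x', π x = π x' → h x = h x' := by
    intro x x' hxx
    obtain ⟨v, hv⟩ := hlift x
    obtain ⟨v', hv'⟩ := hlift x'
    have h1 : (((k : ℝ) * v + κ x : ℝ) : T) = (((k : ℝ) * v' + κ x' : ℝ) : T) := by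
      rw [← hφv x v hv, ← hφv x' v' hv', hxx]
    obtain ⟨a, ha⟩ := (surjData_coe _ _).1 h1
    have h2 : a ∈ J := (hJ a).2 (hall a x ⟨x', v, v', hxx.symm, hv, hv', ha⟩)
    obtain ⟨b, hb⟩ := (hmem a).1 h2
    show q • p x + ((κ x / e : ℝ) : T) = q • p x' + ((κ x' / e : ℝ) : T)
    rw [hv, hv', ← AddCircle.coe_zsmul, ← AddCircle.coe_zsmul, ← AddCircle.coe_add,
      ← AddCircle.coe_add]
    apply (surjData_coe _ _).2
    refine ⟨b, ?_⟩
    rw [zsmul_eq_mul, zsmul_eq_mul]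
    have h3 : (a : ℝ) = e * b := by exact_mod_cast hb
    rw [h3, hqr] at ha
    field_simp
    linarith
  have hqm : IsQuotientMap π := ho.isQuotientMap hc hs
  let φ' : Y → T := fun y => h (Function.surjInv hs y)
  have hφ'π : ∀ x, φ' (π x) = h x := fun x => hconst _ _ (Function.surjInv_eq hs (π x))
  have hφ'c : Continuous φ' := by
    rw [hqm.continuous_iff]
    have : φ' ∘ π = h := funext hφ'π
    rw [this]
    exact hh
  have hdvd : (k : ℤ) ∣ q := hdiv q φ' (fun x => κ x / e) hφ'c (hκ.div_const _) (fun x => hφ'π x)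
  have heu : ∀ a, a ∈ J := by
    intro a
    rw [hmem]
    have hq0 : q ≠ 0 := by
      rintro rfl
      rw [mul_zero] at hq
      exact hk' hq
    obtain ⟨c, hc'⟩ := hdvd
    have h1 : q * (e * c - 1) = 0 := by
      have : q = e * q * c := by rw [← hq]; exact hc'
      linear_combination -this
    have h2 : e * c = 1 := by
      rcases mul_eq_zero.1 h1 with h | h
      · exact absurd h hq0
      · linarith
    exact ⟨c * a, by rw [← mul_assoc, h2, one_mul]⟩
  rintro ⟨y, t⟩ hz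
  have hz' : φ y = ((t : ℝ) : T) := hz
  obtain ⟨x, hx⟩ := hs y
  obtain ⟨v, hv⟩ := hlift x
  have h1 : (((k : ℝ) * v + κ x : ℝ) : T) = ((t : ℝ) : T) := by
    rw [← hφv x v hv, hx, hz']
  obtain ⟨a, ha⟩ := (surjData_coe _ _).1 h1
  obtain ⟨x', v1, v1', h2, h3, h4, h5⟩ := (hJ a).1 (heu a) x
  have h6 : ((v1 : ℝ) : T) = ((v : ℝ) : T) := by rw [← h3, ← hv]
  obtain ⟨n, hn⟩ := (surjData_coe _ _).1 h6
  refine ⟨v1' - n, x', ?_, ?_, ?_⟩
  · rw [h2, hx]
  · rw [h4]
    exact (surjData_coe _ _).2 ⟨n, by ring⟩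
  · show (k : ℝ) * (v1' - n) + κ x' = t
    have h7 : v1 = v + n := by linarith
    rw [h7] at h5
    linarith


end Pool.Agent.Helper475.OC.M4
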