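import Pool.Agent.Helper475.OCBase

set_option autoImplicit false

namespace Pool.Agent.Helper475.OC.M5

open Pool.Agent.Helper475.OC
open Set Topology


/-- there is a minimal positive multiple of `p` that comes from `Y` -/
theorem minimalClass {X Y : Type} [TopologicalSpace X] [TopologicalSpace Y]
    (π : X → Y) (p : X → T) (hp : Continuous p)
    (K : ℤ) (hK : K ≠ 0) (φ₀ : Y → T) (hφ₀ : Continuous φ₀) (κ₀ : X → ℝ) (hκ₀ : Continuous κ₀)
    (h₀ : ∀ x, φ₀ (π x) = K • p x + ((κ₀ x : ℝ) : T)) :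
    ∃ (k : ℕ) (φ : Y → T) (κ : X → ℝ), 0 < k ∧ Continuous φ ∧ Continuous κ ∧
      (∀ x, φ (π x) = (k : ℤ) • p x + ((κ x : ℝ) : T)) ∧
      ∀ (K' : ℤ) (φ' : Y → T) (κ' : X → ℝ), Continuous φ' → Continuous κ' →
        (∀ x, φ' (π x) = K' • p x + ((κ' x : ℝ) : T)) → (k : ℤ) ∣ K' := by
  let H : AddSubgroup ℤ :=
    { carrier := {K' | ∃ (φ' : Y → T) (κ' : X → ℝ), Continuous φ' ∧ Continuous κ' ∧
        ∀ x, φ' (π x) = K' • p x + ((κ' x : ℝ) : T)}
      zero_mem' := ⟨fun _ => 0, fun _ => 0, continuous_const, continuous_const, fun x => by simp⟩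
      add_mem' := by
        rintro a b ⟨φa, κa, h1, h2, h3⟩ ⟨φb, κb, h4, h5, h6⟩
        refine ⟨fun y => φa y + φb y, fun x => κa x + κb x, h1.add h4, h2.add h5, fun x => ?_⟩
        simp only [h3, h6, add_smul, AddCircle.coe_add]
        abel
      neg_mem' := by
        rintro a ⟨φa, κa, h1, h2, h3⟩
        refine ⟨fun y => - φa y, fun x => - κa x, h1.neg, h2.neg, fun x => ?_⟩
        simp only [h3, neg_smul, AddCircle.coe_neg, neg_add] }
  have hKH : K ∈ H := ⟨φ₀, κ₀, hφ₀, hκ₀, h₀⟩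
  obtain ⟨g, hg⟩ := Int.subgroup_cyclic H
  have hdvd : ∀ K' ∈ H, g ∣ K' := by
    intro K' hK'
    rw [hg, AddSubgroup.mem_closure_singleton] at hK'
    obtain ⟨m, hm⟩ := hK'
    exact ⟨m, by rw [← hm, smul_eq_mul, mul_comm]⟩
  have hg0 : g ≠ 0 := by
    rintro rfl
    exact hK (zero_dvd_iff.1 (hdvd K hKH))
  have hgH : g ∈ H := by
    rw [hg]; exact AddSubgroup.mem_closure_singleton_self g
  have habs : ((g.natAbs : ℕ) : ℤ) ∈ H := by
    rcases Int.natAbs_eq g with h | h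
    · rw [← h]; exact hgH
    · have : ((g.natAbs : ℕ) : ℤ) = - g := by omega
      rw [this]; exact H.neg_mem hgH
  obtain ⟨φ, κ, h1, h2, h3⟩ := habs
  refine ⟨g.natAbs, φ, κ, Int.natAbs_pos.2 hg0, h1, h2, h3, ?_⟩
  intro K' φ' κ' hφ' hκ' h'
  exact Int.natAbs_dvd.2 (hdvd K' ⟨φ', κ', hφ', hκ', h'⟩)


end Pool.Agent.Helper475.OC.M5
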