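import Pool.Agent.Helper475.OCBase

set_option autoImplicit false

namespace Pool.Agent.Helper475.OC.M6

open Pool.Agent.Helper475.OC
open Set Topology


theorem coe_eq_int {a b : ℝ} (h : ((a : ℝ) : T) = ((b : ℝ) : T)) (hlt : |a - b| < 1) : a = b := by
  have h1 : (((a - b : ℝ)) : T) = 0 := by
    rw [AddCircle.coe_sub, h, sub_self]
  obtain ⟨n, hn⟩ := (AddCircle.coe_eq_zero_iff (1 : ℝ)).1 h1
  rw [zsmul_eq_mul, mul_one] at hn
  rw [← hn] at hlt
  have h2 : |n| < 1 := by exact_mod_cast hlt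
  have h3 : n = 0 := Int.abs_lt_one_iff.1 h2
  rw [h3, Int.cast_zero] at hn
  linarith

/-- the least value over the part of the fibre is continuous -/
theorem Aleast {X Y : Type} [MetricSpace X] [CompactSpace X] [MetricSpace Y] [CompactSpace Y]
    (π : X → Y) (hc : Continuous π) (hs : Function.Surjective π) (ho : IsOpenMap π)
    (p : X → T) (hp : Continuous p) (k : ℕ) (hk : 0 < k) (φ : Y → T) (hφ : Continuous φ)
    (κ : X → ℝ) (hκ : Continuous κ)
    (hrel : ∀ x, φ (π x) = (k : ℤ) • p x + ((κ x : ℝ) : T))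
    (hsurj : ∀ z ∈ Zc φ, ∃ v, IsA π p k κ z v) :
    ∃ A : Y × ℝ → ℝ, ContinuousOn A (Zc φ) ∧
      ∀ z ∈ Zc φ, IsA π p k κ z (A z) ∧ ∀ v, IsA π p k κ z v → A z ≤ v := by
  classical
  have hkR : (0 : ℝ) < k := by exact_mod_cast hk
  let g : X × ℝ → ℝ := fun q => (q.2 - κ q.1) / k
  have hg : Continuous g := by
    simp only [g]
    fun_prop
  have hcoe : Continuous (fun r : ℝ => ((r : ℝ) : T)) := AddCircle.continuous_mk' 1
  let C : Set (X × ℝ) := {q | p q.1 = ((g q : ℝ) : T)}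
  have hC : IsClosed C := isClosed_eq (hp.comp continuous_fst) (hcoe.comp hg)
  have hIs : ∀ z v, IsA π p k κ z v ↔ ∃ x, π x = z.1 ∧ (x, z.2) ∈ C ∧ g (x, z.2) = v := by
    intro z v
    constructor
    · rintro ⟨x, h1, h2, h3⟩
      have h4 : g (x, z.2) = v := by
        simp only [g]
        rw [← h3]
        field_simp
        ring
      refine ⟨x, h1, ?_, h4⟩
      show p x = ((g (x, z.2) : ℝ) : T)
      rw [h4]; exact h2
    · rintro ⟨x, h1, h2, h3⟩
      refine ⟨x, h1, ?_, ?_⟩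
      · rw [← h3]; exact h2
      · rw [← h3]
        simp only [g]
        field_simp
        ring
  let S : Y × ℝ → Set ℝ := fun z => {v | IsA π p k κ z v}
  have hScomp : ∀ z, IsCompact (S z) := by
    intro z
    have h1 : S z = (fun x => g (x, z.2)) '' {x | π x = z.1 ∧ (x, z.2) ∈ C} := by
      ext v
      simp only [S]
      constructor
      · intro hv
        obtain ⟨x, h1, h2, h3⟩ := (hIs z v).1 hv
        exact ⟨x, ⟨h1, h2⟩, h3⟩
      · rintro ⟨x, ⟨h1, h2⟩, h3⟩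
        exact (hIs z v).2 ⟨x, h1, h2, h3⟩
    rw [h1]
    apply IsCompact.image
    · apply IsClosed.isCompact
      apply IsClosed.inter
      · exact isClosed_eq hc continuous_const
      · exact hC.preimage (by fun_prop)
    · exact hg.comp (by fun_prop)
  have hSne : ∀ z ∈ Zc φ, (S z).Nonempty := fun z hz => hsurj z hz
  let A : Y × ℝ → ℝ := fun z => sInf (S z)
  have hAmem : ∀ z ∈ Zc φ, IsA π p k κ z (A z) := fun z hz => (hScomp z).sInf_mem (hSne z hz)
  have hAle : ∀ z v, IsA π p k κ z v → A z ≤ v := fun z v hv => csInf_le (hScomp z).bddBelow hv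
  refine ⟨A, ?_, fun z hz => ⟨hAmem z hz, hAle z⟩⟩
  intro z0 hz0
  show Filter.Tendsto A (𝓝[Zc φ] z0) (𝓝 (A z0))
  rw [tendsto_order]
  constructor
  · intro a ha
    let K : Set (X × ℝ) := {q | q ∈ C ∧ g q ≤ a} ∩ (univ ×ˢ Metric.closedBall z0.2 1)
    have hK : IsCompact K := by
      apply IsCompact.of_isClosed_subset (isCompact_univ.prod (isCompact_closedBall z0.2 1))
      · apply IsClosed.inter
        · exact hC.inter (isClosed_le hg continuous_const)
        · exact isClosed_univ.prod Metric.isClosed_closedBall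
      · exact inter_subset_right
    have hKi : IsCompact ((fun q : X × ℝ => (π q.1, q.2)) '' K) := hK.image (by fun_prop)
    have hz0K : z0 ∉ (fun q : X × ℝ => (π q.1, q.2)) '' K := by
      rintro ⟨⟨x, t⟩, ⟨⟨h1, h2⟩, -⟩, h3⟩
      have h4 : IsA π p k κ z0 (g (x, t)) := by
        rw [← h3]
        exact (hIs _ _).2 ⟨x, rfl, h1, rfl⟩
      exact absurd (hAle z0 _ h4) (not_le.2 (lt_of_le_of_lt h2 ha))
    have hev1 : ∀ᶠ z in 𝓝[Zc φ] z0, z ∉ (fun q : X × ℝ => (π q.1, q.2)) '' K :=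
      mem_nhdsWithin_of_mem_nhds (hKi.isClosed.isOpen_compl.mem_nhds hz0K)
    have hev2 : ∀ᶠ z : Y × ℝ in 𝓝[Zc φ] z0, z.2 ∈ Metric.closedBall z0.2 1 := by
      apply mem_nhdsWithin_of_mem_nhds
      exact continuous_snd.continuousAt.preimage_mem_nhds (Metric.closedBall_mem_nhds _ one_pos)
    filter_upwards [hev1, hev2, self_mem_nhdsWithin] with z h1 h2 hz
    by_contra hcon
    push Not at hcon
    obtain ⟨x, hx1, hx2, hx3⟩ := (hIs z _).1 (hAmem z hz)
    apply h1
    refine ⟨(x, z.2), ⟨⟨hx2, ?_⟩, ⟨mem_univ _, h2⟩⟩, ?_⟩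
    · rw [hx3]; exact hcon
    · show (π x, z.2) = z
      rw [hx1]
  · intro b hb
    obtain ⟨x0, hx1, hx2, hx3⟩ := hAmem z0 hz0
    set v0 := A z0 with hv0
    obtain ⟨ε, hε, hε1, hε2⟩ : ∃ ε : ℝ, 0 < ε ∧ ε ≤ b - v0 ∧ (k + 2) * ε ≤ 1 := by
      refine ⟨min (b - v0) (1 / (k + 2)), lt_min (sub_pos.2 hb) (by positivity), min_le_left _ _, ?_⟩
      have := mul_le_mul_of_nonneg_left (min_le_right (b - v0) (1 / (k + 2 : ℝ)))
        (show (0 : ℝ) ≤ k + 2 by positivity)
      rwa [mul_one_div_cancel (by positivity)] at this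
    have hopenT : IsOpen ((fun r : ℝ => ((r : ℝ) : T)) '' Metric.ball v0 ε) :=
      QuotientAddGroup.isOpenMap_coe _ Metric.isOpen_ball
    let U : Set X := p ⁻¹' ((fun r : ℝ => ((r : ℝ) : T)) '' Metric.ball v0 ε) ∩
      κ ⁻¹' (Metric.ball (κ x0) ε)
    have hU : IsOpen U := (hopenT.preimage hp).inter (Metric.isOpen_ball.preimage hκ)
    have hx0U : x0 ∈ U := by
      refine ⟨⟨v0, Metric.mem_ball_self hε, hx2.symm⟩, Metric.mem_ball_self hε⟩
    have hev1 : ∀ᶠ z : Y × ℝ in 𝓝[Zc φ] z0, z.1 ∈ π '' U := by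
      apply mem_nhdsWithin_of_mem_nhds
      apply continuous_fst.continuousAt.preimage_mem_nhds
      exact (ho U hU).mem_nhds ⟨x0, hx0U, hx1⟩
    have hev2 : ∀ᶠ z : Y × ℝ in 𝓝[Zc φ] z0, z.2 ∈ Metric.ball z0.2 ε := by
      apply mem_nhdsWithin_of_mem_nhds
      exact continuous_snd.continuousAt.preimage_mem_nhds (Metric.ball_mem_nhds _ hε)
    filter_upwards [hev1, hev2, self_mem_nhdsWithin] with z h1 h2 hz
    obtain ⟨x, ⟨⟨v, hv, hpx⟩, hκx⟩, hπ⟩ := h1
    have hpx' : p x = ((v : ℝ) : T) := hpx.symm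
    have hv' : |v - v0| < ε := by rwa [Metric.mem_ball, Real.dist_eq] at hv
    have hκ' : |κ x - κ x0| < ε := by rwa [mem_preimage, Metric.mem_ball, Real.dist_eq] at hκx
    have ht' : |z.2 - z0.2| < ε := by rwa [Metric.mem_ball, Real.dist_eq] at h2
    have hz' : φ z.1 = ((z.2 : ℝ) : T) := hz
    have h3 : ((k * v + κ x : ℝ) : T) = ((z.2 : ℝ) : T) := by
      rw [← hz', ← hπ, hrel, hpx', AddCircle.coe_add, natCast_zsmul, ← AddCircle.coe_nsmul,
        nsmul_eq_mul]
    have h4 : |(k * v + κ x) - z.2| < 1 := by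
      have e : (k * v + κ x) - z.2 = k * (v - v0) + (κ x - κ x0) - (z.2 - z0.2) := by
        rw [← hx3]; ring
      rw [e]
      rw [abs_lt] at hv' hκ' ht' ⊢
      have h5 := mul_lt_mul_of_pos_left hv'.1 hkR
      have h6 := mul_lt_mul_of_pos_left hv'.2 hkR
      constructor
      · linarith [hκ'.1, ht'.2]
      · linarith [hκ'.2, ht'.1]
    have h7 := coe_eq_int h3 h4
    have h8 : A z ≤ v := hAle z v ⟨x, hπ, hpx', h7⟩
    have h9 := (abs_lt.1 hv').2
    linarith


end Pool.Agent.Helper475.OC.M6
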