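import Pool.Agent.Helper475.OCBase

set_option autoImplicit false

namespace Pool.Agent.Helper475.OC.M7

open Pool.Agent.Helper475.OC
open Set Topology


/-- the least value increases along the deck transformation -/
theorem Aorder {X Y : Type} [MetricSpace X] [CompactSpace X] [ConnectedSpace X]
    [MetricSpace Y] [CompactSpace Y]
    (π : X → Y) (hc : Continuous π) (hs : Function.Surjective π) (ho : IsOpenMap π)
    (p : X → T) (hp : Continuous p) (k : ℕ) (hk : 0 < k) (φ : Y → T) (hφ : Continuous φ)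
    (κ : X → ℝ) (hκ : Continuous κ)
    (hrel : ∀ x, φ (π x) = (k : ℤ) • p x + ((κ x : ℝ) : T))
    (hsurj : ∀ z ∈ Zc φ, ∃ v, IsA π p k κ z v)
    (hord : ∀ x x', π x = π x' → p x = p x' → κ x = κ x')
    (A : Y × ℝ → ℝ) (hA : ContinuousOn A (Zc φ))
    (hAl : ∀ z ∈ Zc φ, IsA π p k κ z (A z) ∧ ∀ v, IsA π p k κ z v → A z ≤ v) :
    (∀ z ∈ Zc φ, A (z.1, z.2 + k) = A z + 1) ∧ ∀ z ∈ Zc φ, A z < A (z.1, z.2 + 1) := by
  have hint : ∀ (n : ℤ), (((n : ℝ)) : T) = 0 := by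
    intro n
    rw [AddCircle.coe_eq_zero_iff]
    exact ⟨n, by simp⟩
  have hshift : ∀ (t : ℝ) (n : ℤ), ((t + n : ℝ) : T) = (t : T) := by
    intro t n
    rw [AddCircle.coe_add, hint, add_zero]
  have hshiftn : ∀ (t : ℝ) (n : ℕ), ((t + n : ℝ) : T) = (t : T) := by
    intro t n
    have := hshift t n
    simpa using this
  have hZn : ∀ z ∈ Zc φ, ∀ n : ℕ, (z.1, z.2 + n) ∈ Zc φ := by
    intro z hz n
    show φ z.1 = ((z.2 + n : ℝ) : T)
    rw [hshiftn]
    exact hz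
  have hZ1 : ∀ z ∈ Zc φ, (z.1, z.2 + 1) ∈ Zc φ := by
    intro z hz
    have := hZn z hz 1
    simpa using this
  have hS1 : ∀ z v, IsA π p k κ z v → IsA π p k κ (z.1, z.2 + k) (v + 1) := by
    rintro z v ⟨x, h1, h2, h3⟩
    refine ⟨x, h1, ?_, ?_⟩
    · have := hshiftn v 1
      rw [Nat.cast_one] at this
      rw [this]; exact h2
    · simp only
      rw [← h3]; ring
  have hS2 : ∀ z v, IsA π p k κ (z.1, z.2 + k) v → IsA π p k κ z (v - 1) := by
    rintro z v ⟨x, h1, h2, h3⟩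
    refine ⟨x, h1, ?_, ?_⟩
    · have := hshiftn (v - 1) 1
      rw [Nat.cast_one, sub_add_cancel] at this
      rw [← this]; exact h2
    · simp only at h3
      linarith
  have hfirst : ∀ z ∈ Zc φ, A (z.1, z.2 + k) = A z + 1 := by
    intro z hz
    obtain ⟨h1, h2⟩ := hAl z hz
    obtain ⟨h3, h4⟩ := hAl _ (hZn z hz k)
    have h5 := h4 _ (hS1 z _ h1)
    have h6 := h2 _ (hS2 z _ h3)
    linarith
  refine ⟨hfirst, ?_⟩
  have hne : ∀ z ∈ Zc φ, A z ≠ A (z.1, z.2 + 1) := by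
    intro z hz he
    obtain ⟨⟨x, h1, h2, h3⟩, -⟩ := hAl z hz
    obtain ⟨⟨x', h1', h2', h3'⟩, -⟩ := hAl _ (hZ1 z hz)
    have h4 : π x = π x' := by rw [h1]; exact h1'.symm
    have h5 : p x = p x' := by rw [h2, he]; exact h2'.symm
    have h6 := hord x x' h4 h5
    simp only at h3'
    rw [← he] at h3'
    linarith
  -- the pull back of the real line
  set F : X × ℝ → Y × ℝ := fun w => (π w.1, (k : ℝ) * w.2 + κ w.1) with hF
  have hFc : Continuous F := by
    rw [hF]; fun_prop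
  set Xt : Set (X × ℝ) := {w | p w.1 = ((w.2 : ℝ) : T)} with hXt
  have hXtc : IsClosed Xt := by
    refine isClosed_eq (hp.comp continuous_fst) ?_
    exact (AddCircle.continuous_mk' (p := (1:ℝ))).comp continuous_snd
  have hmap : MapsTo F Xt (Zc φ) := by
    intro w hw
    show φ (π w.1) = (((k : ℝ) * w.2 + κ w.1 : ℝ) : T)
    rw [hrel, AddCircle.coe_add]
    congr 1
    have hw' : p w.1 = ((w.2 : ℝ) : T) := hw
    rw [hw', ← AddCircle.coe_zsmul]
    congr 1
    simp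
  have hcov : ∀ z ∈ Zc φ, ∃ w ∈ Xt, F w = z := by
    intro z hz
    obtain ⟨v, x, h1, h2, h3⟩ := hsurj z hz
    exact ⟨(x, v), h2, Prod.ext h1 h3⟩
  set f : X × ℝ → ℝ := fun w => A ((F w).1, (F w).2 + 1) - A (F w) with hf
  have hfc : ContinuousOn f Xt := by
    refine ContinuousOn.sub ?_ (hA.comp hFc.continuousOn hmap)
    refine hA.comp (f := fun w : X × ℝ => ((F w).1, (F w).2 + 1)) ?_ ?_
    · apply Continuous.continuousOn
      fun_prop
    · intro w hw
      exact hZ1 _ (hmap hw)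
  have hper1 : ∀ x v, (x, v) ∈ Xt → (x, v + 1) ∈ Xt ∧ f (x, v + 1) = f (x, v) := by
    intro x v hxv
    constructor
    · show p x = ((v + 1 : ℝ) : T)
      have := hshiftn v 1
      rw [Nat.cast_one] at this
      rw [this]; exact hxv
    · have e1 : F (x, v + 1) = ((F (x, v)).1, (F (x, v)).2 + k) := by
        simp only [hF]
        refine Prod.ext rfl ?_
        simp only
        ring
      have e2 : ((F (x, v + 1)).1, (F (x, v + 1)).2 + 1) =
          (((F (x, v)).1, (F (x, v)).2 + 1).1, ((F (x, v)).1, (F (x, v)).2 + 1).2 + (k : ℝ)) := by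
        rw [e1]
        refine Prod.ext rfl ?_
        simp only
        ring
      simp only [hf]
      rw [e2, e1, hfirst _ (hZ1 _ (hmap hxv)), hfirst _ (hmap hxv)]
      ring
  have hpern : ∀ x v, (x, v) ∈ Xt → ∀ n : ℕ, (x, v + n) ∈ Xt ∧ f (x, v + n) = f (x, v) := by
    intro x v hxv n
    induction n with
    | zero => simpa using hxv
    | succ n ih =>
      obtain ⟨h1, h2⟩ := hper1 x (v + n) ih.1
      have e : v + ((n + 1 : ℕ) : ℝ) = v + n + 1 := by push_cast; ring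
      rw [e]
      exact ⟨h1, h2.trans ih.2⟩
  have hper : ∀ x v v', (x, v) ∈ Xt → (x, v') ∈ Xt → f (x, v) = f (x, v') := by
    have key : ∀ x v v', (x, v) ∈ Xt → (x, v') ∈ Xt → v ≤ v' → f (x, v) = f (x, v') := by
      intro x v v' h1 h2 hle
      have h1' : p x = ((v : ℝ) : T) := h1
      have h2' : p x = ((v' : ℝ) : T) := h2
      have h3 : ((v' - v : ℝ) : T) = 0 := by
        rw [AddCircle.coe_sub, ← h1', ← h2', sub_self]
      rw [AddCircle.coe_eq_zero_iff] at h3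
      obtain ⟨n, hn⟩ := h3
      have hn' : (n : ℝ) = v' - v := by simpa using hn
      have hn0 : 0 ≤ n := by
        have : (0 : ℝ) ≤ n := by linarith
        exact_mod_cast this
      obtain ⟨m, rfl⟩ := Int.eq_ofNat_of_zero_le hn0
      have := (hpern x v h1 m).2
      have e : v + (m : ℝ) = v' := by
        push_cast at hn'
        linarith
      rw [e] at this
      exact this.symm
    intro x v v' h1 h2
    rcases le_total v v' with h | h
    · exact key x v v' h1 h2 h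
    · exact (key x v' v h2 h1 h).symm
  have hlift : ∀ x, ∃ v ∈ Icc (0 : ℝ) 1, (x, v) ∈ Xt := by
    intro x
    obtain ⟨v0, hv0⟩ := QuotientAddGroup.mk_surjective (p x)
    refine ⟨Int.fract v0, ⟨Int.fract_nonneg _, (Int.fract_lt_one _).le⟩, ?_⟩
    show p x = ((Int.fract v0 : ℝ) : T)
    have h1 := hshift (Int.fract v0) ⌊v0⌋
    rw [Int.fract_add_floor] at h1
    rw [← h1]
    exact hv0.symm
  have hclosed : ∀ t : Set ℝ, IsClosed t → IsClosed {x | ∃ v ∈ Icc (0:ℝ) 1, (x, v) ∈ Xt ∧ f (x, v) ∈ t} := by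
    intro t ht
    have h1 : IsClosed (Xt ∩ f ⁻¹' t) := hfc.preimage_isClosed_of_isClosed hXtc ht
    have h2 : IsCompact ((univ : Set X) ×ˢ Icc (0:ℝ) 1) := isCompact_univ.prod isCompact_Icc
    have h3 : IsCompact (Prod.fst '' (((univ : Set X) ×ˢ Icc (0:ℝ) 1) ∩ (Xt ∩ f ⁻¹' t))) :=
      (h2.inter_right h1).image continuous_fst
    have e : {x | ∃ v ∈ Icc (0:ℝ) 1, (x, v) ∈ Xt ∧ f (x, v) ∈ t} =
        Prod.fst '' (((univ : Set X) ×ˢ Icc (0:ℝ) 1) ∩ (Xt ∩ f ⁻¹' t)) := by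
      ext x
      constructor
      · rintro ⟨v, hv, h4, h5⟩
        exact ⟨(x, v), ⟨⟨mem_univ _, hv⟩, h4, h5⟩, rfl⟩
      · rintro ⟨⟨x', v⟩, ⟨⟨-, hv⟩, h4, h5⟩, rfl⟩
        exact ⟨v, hv, h4, h5⟩
    rw [e]
    exact h3.isClosed
  have hf0 : ∀ w ∈ Xt, f w ≠ 0 := by
    intro w hw h0
    exact hne _ (hmap hw) (sub_eq_zero.1 h0).symm
  have hclopen : IsClopen {x | ∃ v ∈ Icc (0:ℝ) 1, (x, v) ∈ Xt ∧ f (x, v) ∈ Ici (0:ℝ)} := by
    refine ⟨hclosed _ isClosed_Ici, ?_⟩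
    rw [← isClosed_compl_iff]
    have e : {x | ∃ v ∈ Icc (0:ℝ) 1, (x, v) ∈ Xt ∧ f (x, v) ∈ Ici (0:ℝ)}ᶜ =
        {x | ∃ v ∈ Icc (0:ℝ) 1, (x, v) ∈ Xt ∧ f (x, v) ∈ Iic (0:ℝ)} := by
      ext x
      constructor
      · intro hx
        obtain ⟨v, hv, h1⟩ := hlift x
        refine ⟨v, hv, h1, ?_⟩
        by_contra h2
        have h3 : ¬ (f (x, v) ≤ 0) := h2
        exact hx ⟨v, hv, h1, (show (0:ℝ) ≤ f (x, v) from (not_le.1 h3).le)⟩
      · rintro ⟨v, hv, h1, h2⟩ ⟨v', hv', h1', h2'⟩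
        rw [hper x v' v h1' h1] at h2'
        exact hf0 _ h1 (le_antisymm h2 h2')
    rw [e]
    exact hclosed _ isClosed_Iic
  rcases isClopen_iff.1 hclopen with h | h
  · -- impossible
    exfalso
    have hlt : ∀ z ∈ Zc φ, A (z.1, z.2 + 1) ≤ A z := by
      intro z hz
      obtain ⟨⟨x, v⟩, hw, rfl⟩ := hcov z hz
      obtain ⟨v', hv', h1⟩ := hlift x
      have h2 : x ∉ {x | ∃ v ∈ Icc (0:ℝ) 1, (x, v) ∈ Xt ∧ f (x, v) ∈ Ici (0:ℝ)} := by
        rw [h]; exact notMem_empty x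
      have h3 : ¬ (0 ≤ f (x, v')) := fun h4 => h2 ⟨v', hv', h1, h4⟩
      rw [← hper x v v' hw h1] at h3
      have h5 := (not_le.1 h3).le
      simp only [hf] at h5
      linarith
    have hltn : ∀ z ∈ Zc φ, ∀ n : ℕ, A (z.1, z.2 + n) ≤ A z := by
      intro z hz n
      induction n with
      | zero => simp
      | succ n ih =>
        have h1 := hlt _ (hZn z hz n)
        simp only at h1
        have e : z.2 + ((n + 1 : ℕ) : ℝ) = z.2 + n + 1 := by push_cast; ring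
        rw [e]
        exact h1.trans ih
    obtain ⟨x0⟩ : Nonempty X := inferInstance
    obtain ⟨v, hv, h1⟩ := hlift x0
    have h2 := hltn _ (hmap h1) k
    rw [hfirst _ (hmap h1)] at h2
    linarith
  · intro z hz
    obtain ⟨⟨x, v⟩, hw, rfl⟩ := hcov z hz
    have h2 : x ∈ {x | ∃ v ∈ Icc (0:ℝ) 1, (x, v) ∈ Xt ∧ f (x, v) ∈ Ici (0:ℝ)} := by
      rw [h]; exact mem_univ x
    obtain ⟨v', hv', h1, h3⟩ := h2
    rw [hper x v' v h1 hw] at h3
    have h4 : 0 ≤ f (x, v) := h3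
    have h5 := hf0 _ hw
    have h6 : 0 < f (x, v) := lt_of_le_of_ne h4 (Ne.symm h5)
    simp only [hf] at h6
    linarith


end Pool.Agent.Helper475.OC.M7
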