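import Pool.Agent.Helper475.OCBase

set_option autoImplicit false

namespace Pool.Agent.Helper475.OC.M8

open Pool.Agent.Helper475.OC
open Set Topology


/-- slabs of the pulled back line are compact -/
theorem slabCompact {Y : Type} [MetricSpace Y] [CompactSpace Y] (φ : Y → T) (hφ : Continuous φ)
    (A : Y × ℝ → ℝ) (hA : ContinuousOn A (Zc φ)) (K : ℕ) (hK : 0 < K)
    (hAK : ∀ z ∈ Zc φ, A (z.1, z.2 + K) = A z + 1) (a b : ℝ) :
    IsCompact {z | z ∈ Zc φ ∧ a ≤ A z ∧ A z ≤ b} := by
  have hK0 : (0 : ℝ) < K := Nat.cast_pos.2 hK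
  have hclZ : IsClosed (Zc φ) := by
    unfold Zc
    exact isClosed_eq (hφ.comp continuous_fst) ((AddCircle.continuous_mk' 1).comp continuous_snd)
  -- translation invariance of the line
  have hcoe : ∀ n : ℤ, (((n : ℝ) * K : ℝ) : T) = 0 := by
    intro n
    have h1 : ((n : ℝ) * K : ℝ) = (n * (K : ℤ)) • (1 : ℝ) := by
      rw [zsmul_eq_mul]
      push_cast
      ring
    rw [h1, AddCircle.coe_zsmul, AddCircle.coe_period, smul_zero]
  have hmem : ∀ (n : ℤ) (z : Y × ℝ), z ∈ Zc φ → (z.1, z.2 + n * K) ∈ Zc φ := by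
    intro n z hz
    change φ z.1 = ((z.2 + n * K : ℝ) : T)
    rw [AddCircle.coe_add, hcoe n, add_zero]
    exact hz
  have hshift : ∀ (n : ℤ) (z : Y × ℝ), z ∈ Zc φ → A (z.1, z.2 + n * K) = A z + n := by
    intro n
    induction n using Int.induction_on with
    | zero =>
      intro z _
      simp
    | succ i ih =>
      intro z hz
      have h1 := hAK _ (hmem i z hz)
      have h2 := ih z hz
      push_cast at h1 h2 ⊢
      have e : z.2 + ((i : ℝ) + 1) * K = z.2 + i * K + K := by ring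
      rw [e, h1, h2]
      ring
    | pred i ih =>
      intro z hz
      have h1 := hAK _ (hmem (-(i : ℤ) - 1) z hz)
      have h2 := ih z hz
      push_cast at h1 h2 ⊢
      have e : z.2 + (-(i : ℝ) - 1) * K + K = z.2 + -(i : ℝ) * K := by ring
      rw [e, h2] at h1
      linarith
  -- bound on the fundamental domain
  have hC0 : IsCompact (Zc φ ∩ (univ ×ˢ Icc (0 : ℝ) K)) :=
    (isCompact_univ.prod isCompact_Icc).inter_left hclZ
  obtain ⟨M, hM⟩ := hC0.exists_bound_of_continuousOn (hA.mono inter_subset_left)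
  have hclosed : IsClosed {z | z ∈ Zc φ ∧ a ≤ A z ∧ A z ≤ b} := by
    have h1 := hA.preimage_isClosed_of_isClosed hclZ (isClosed_Icc (a := a) (b := b))
    exact h1
  have hsub : {z | z ∈ Zc φ ∧ a ≤ A z ∧ A z ≤ b} ⊆
      (univ : Set Y) ×ˢ Icc ((a - M) * K) ((b + M) * K + K) := by
    rintro z ⟨hz, ha, hb⟩
    set n : ℤ := ⌊z.2 / K⌋ with hn
    have hn1 : (n : ℝ) ≤ z.2 / K := Int.floor_le _
    have hn2 : z.2 / K < n + 1 := Int.lt_floor_add_one _
    rw [le_div_iff₀ hK0] at hn1
    rw [div_lt_iff₀ hK0] at hn2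
    have h0 : (z.1, z.2 + (-n : ℤ) * K) ∈ Zc φ ∩ (univ ×ˢ Icc (0 : ℝ) K) := by
      refine ⟨hmem (-n) z hz, mem_univ _, ?_, ?_⟩
      · push_cast
        linarith
      · push_cast
        change z.2 + -(n : ℝ) * K ≤ K
        linarith
    have h1 := hM _ h0
    rw [hshift (-n) z hz, Real.norm_eq_abs, abs_le] at h1
    push_cast at h1
    have h2 : a - M ≤ n := by linarith [h1.2]
    have h3 : (n : ℝ) ≤ b + M := by linarith [h1.1]
    refine ⟨mem_univ _, ?_, ?_⟩
    · calc (a - M) * K ≤ n * K := by gcongr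
        _ ≤ z.2 := hn1
    · calc z.2 ≤ (n + 1) * K := hn2.le
        _ = n * K + K := by ring
        _ ≤ (b + M) * K + K := by gcongr
  exact (isCompact_univ.prod isCompact_Icc).of_isClosed_subset hclosed hsub


end Pool.Agent.Helper475.OC.M8
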