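import Pool.Agent.Helper475.OCBase

set_option autoImplicit false

namespace Pool.Agent.Helper475.OC.M9

open Pool.Agent.Helper475.OC
open Set Topology


theorem isClosed_Zc {Y : Type} [MetricSpace Y] (φ : Y → T) (hφ : Continuous φ) :
    IsClosed (Zc φ) := by
  apply isClosed_eq
  · exact hφ.comp continuous_fst
  · exact (AddCircle.continuous_mk' 1).comp continuous_snd

theorem Zc_shift {Y : Type} {φ : Y → T} {y : Y} {t : ℝ} (n : ℤ) (h : (y, t) ∈ Zc φ) :
    (y, t + n) ∈ Zc φ := by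
  have h1 : φ y = ((t : ℝ) : T) := h
  show φ y = ((t + n : ℝ) : T)
  rw [h1]
  have h2 : ((n : ℝ) : T) = 0 := by
    have h3 := (AddCircle.coe_eq_zero_iff (1 : ℝ) (x := (n : ℝ))).2 ⟨n, by simp⟩
    exact h3
  rw [AddCircle.coe_add, h2, add_zero]

theorem A_shift {Y : Type} {φ : Y → T} {A : Y × ℝ → ℝ} {K : ℕ}
    (hAK : ∀ z ∈ Zc φ, A (z.1, z.2 + K) = A z + 1) (n : ℕ) {y : Y} {t : ℝ}
    (h : (y, t) ∈ Zc φ) : A (y, t + n * K) = A (y, t) + n := by
  induction n with
  | zero => simp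
  | succ n ih =>
    have h1 : (y, t + n * K) ∈ Zc φ := by
      have h2 := Zc_shift (n * K : ℤ) h
      push_cast at h2
      exact h2
    have h3 := hAK _ h1
    simp only at h3
    have h4 : t + ((n + 1 : ℕ) : ℝ) * K = t + n * K + K := by push_cast; ring
    rw [h4, h3, ih]
    push_cast; ring

/-- uniform lower bound for the increase -/
theorem deltaPos {Y : Type} [MetricSpace Y] [CompactSpace Y] (φ : Y → T) (hφ : Continuous φ)
    (A : Y × ℝ → ℝ) (hA : ContinuousOn A (Zc φ)) (K : ℕ) (hK : 0 < K)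
    (hAK : ∀ z ∈ Zc φ, A (z.1, z.2 + K) = A z + 1)
    (hA1 : ∀ z ∈ Zc φ, A z < A (z.1, z.2 + 1)) :
    ∃ δ : ℝ, 0 < δ ∧ ∀ z ∈ Zc φ, A z + δ ≤ A (z.1, z.2 + 1) := by
  have hK' : (0 : ℝ) < K := by exact_mod_cast hK
  set C0 : Set (Y × ℝ) := (univ ×ˢ Icc (0 : ℝ) K) ∩ Zc φ with hC0
  have hcomp : IsCompact C0 :=
    (isCompact_univ.prod isCompact_Icc).inter_right (isClosed_Zc φ hφ)
  have hsub : C0 ⊆ Zc φ := inter_subset_right
  have hstep : ∀ z ∈ Zc φ, (z.1, z.2 + 1) ∈ Zc φ := by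
    intro z hz
    have h := Zc_shift 1 (y := z.1) (t := z.2) hz
    push_cast at h
    exact h
  have hcont : ContinuousOn (fun z : Y × ℝ => A (z.1, z.2 + 1) - A z) (Zc φ) := by
    apply ContinuousOn.sub _ hA
    exact hA.comp (by fun_prop) hstep
  -- reduction to `C0`
  have hred : ∀ z ∈ Zc φ, ∃ z' ∈ C0, A (z'.1, z'.2 + 1) - A z' = A (z.1, z.2 + 1) - A z := by
    rintro ⟨y, t⟩ hz
    set n : ℤ := ⌊t / K⌋ with hn
    have h1 : (n : ℝ) ≤ t / K := Int.floor_le _
    have h2 : t / K < n + 1 := Int.lt_floor_add_one _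
    rw [le_div_iff₀ hK'] at h1
    rw [div_lt_iff₀ hK'] at h2
    have hz' : (y, t - n * K) ∈ Zc φ := by
      have h := Zc_shift (-(n * K) : ℤ) hz
      push_cast at h
      rw [← sub_eq_add_neg] at h
      exact h
    refine ⟨(y, t - n * K), ⟨⟨mem_univ _, ?_, ?_⟩, hz'⟩, ?_⟩
    · show 0 ≤ t - n * K
      linarith
    · show t - n * K ≤ K
      linarith
    · show A (y, t - n * K + 1) - A (y, t - n * K) = A (y, t + 1) - A (y, t)
      obtain ⟨m, hm | hm⟩ := n.eq_nat_or_neg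
      · have h3 := A_shift hAK m hz'
        have h4 := A_shift hAK m (hstep _ hz')
        rw [hm] at h3 h4 ⊢
        simp only [Int.cast_natCast] at h3 h4 ⊢
        rw [show t - (m : ℝ) * K + m * K = t by ring] at h3
        rw [show t - (m : ℝ) * K + 1 + m * K = t + 1 by ring] at h4
        rw [h3, h4]; ring
      · have h3 := A_shift hAK m hz
        have h4 := A_shift hAK m (hstep _ hz)
        rw [hm]
        simp only [Int.cast_neg, Int.cast_natCast] at h3 h4 ⊢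
        rw [show t - -(m : ℝ) * K = t + m * K by ring,
          show t + (m : ℝ) * K + 1 = t + 1 + m * K by ring, h3, h4]
        ring
  rcases C0.eq_empty_or_nonempty with he | hne
  · refine ⟨1, one_pos, fun z hz => ?_⟩
    obtain ⟨z', hz', -⟩ := hred z hz
    rw [he] at hz'
    exact absurd hz' (notMem_empty _)
  · obtain ⟨z0, hz0, hmin⟩ := hcomp.exists_isMinOn hne (hcont.mono hsub)
    refine ⟨A (z0.1, z0.2 + 1) - A z0, sub_pos.2 (hA1 _ (hsub hz0)), fun z hz => ?_⟩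
    obtain ⟨z', hz', h5⟩ := hred z hz
    have h6 : A (z0.1, z0.2 + 1) - A z0 ≤ A (z'.1, z'.2 + 1) - A z' := hmin hz'
    linarith


end Pool.Agent.Helper475.OC.M9
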