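import Pool.Agent.Helper475.OCBase
import Pool.Agent.Helper475.OCJ1
import Pool.Agent.Helper475.OCJ2
import Pool.Agent.Helper475.OCJ3
import Pool.Agent.Helper475.OCJ4
import Pool.Agent.Helper475.OCJ5
import Pool.Agent.Helper475.OCJ6
import Pool.Agent.Helper475.OCJ7
import Pool.Agent.Helper475.OCJ8
import Pool.Agent.Helper475.OCJ9
import Pool.Agent.Helper475.OCJ10
import Pool.Agent.Helper475.OCJ11
import Pool.Agent.Helper475.OCJ24

set_option autoImplicit false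

namespace Pool.Agent.Helper475.OC

open Set Topology

theorem coe_eq {a b : ℝ} (h : ((a : ℝ) : T) = ((b : ℝ) : T)) : ∃ n : ℤ, a = b + n := by
  have h1 : ((a - b : ℝ) : T) = 0 := by
    rw [AddCircle.coe_sub, h, sub_self]
  obtain ⟨n, hn⟩ := AddCircle.coe_eq_zero_iff (p := (1 : ℝ)) |>.mp h1
  refine ⟨n, ?_⟩
  have : (n : ℝ) = a - b := by simpa using hn
  linarith

section

variable {X Y : Type} [MetricSpace X] [CompactSpace X] [MetricSpace Y] [CompactSpace Y]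

theorem fiberMin (π : X → Y) (hc : Continuous π) (hs : Function.Surjective π) (ho : IsOpenMap π)
    (w : X → ℝ) (hw : Continuous w) :
    ∃ m : Y → ℝ, Continuous m ∧ ∀ y, ∃ x, π x = y ∧ m y = w x := by
  obtain ⟨m, hm, hm2⟩ := M1.fiberMinOn π hc hs ho univ isClosed_univ w hw.continuousOn
  exact ⟨m, continuousOn_univ.mp hm, fun y => (hm2 y (mem_univ y)).1⟩

/-- a lift of the composition gives a lift -/
theorem lifts_of_comp (π : X → Y) (hc : Continuous π) (hs : Function.Surjective π)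
    (ho : IsOpenMap π) (φ : Y → T) (θ : X → ℝ) (hθ : Continuous θ)
    (h : ∀ x, φ (π x) = ((θ x : ℝ) : T)) : Lifts φ := by
  obtain ⟨m, hm, hm2⟩ := fiberMin π hc hs ho θ hθ
  refine ⟨m, hm, fun y => ?_⟩
  obtain ⟨x, hx, hx2⟩ := hm2 y
  rw [← hx, h x, hx, hx2]

/-- The data on one level. -/
structure LD (π : X → Y) (p : X → T) where
  k : ℕ
  φ : Y → T
  κ : X → ℝ
  A : Y × ℝ → ℝ
  hk : 0 < k
  hφ : Continuous φ
  hκ : Continuous κ
  hrel : ∀ x, φ (π x) = (k : ℤ) • p x + ((κ x : ℝ) : T)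
  hdiv : ∀ (K' : ℤ) (φ' : Y → T) (κ' : X → ℝ), Continuous φ' → Continuous κ' →
      (∀ x, φ' (π x) = K' • p x + ((κ' x : ℝ) : T)) → (k : ℤ) ∣ K'
  hA : ContinuousOn A (Zc φ)
  hAI : ∀ z ∈ Zc φ, IsA π p k κ z (A z)
  hAK : ∀ z ∈ Zc φ, A (z.1, z.2 + k) = A z + 1
  hA1 : ∀ z ∈ Zc φ, A z < A (z.1, z.2 + 1)

/-- existence of the data for fine maps -/
theorem levelData [ConnectedSpace X] (π : X → Y) (hc : Continuous π)
    (hs : Function.Surjective π) (ho : IsOpenMap π) (φ₀ : Y → T) (hφ₀ : Continuous φ₀)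
    (hnl : ¬ Lifts φ₀) :
    ∃ ρ : ℝ, 0 < ρ ∧ ∀ p : X → T, Continuous p → Function.Surjective p →
      (∀ x x', p x = p x' → dist x x' < ρ) → Nonempty (LD π p) := by
  obtain ⟨ρ, hρ, hfac⟩ := M2.factor (fun x => φ₀ (π x)) (hφ₀.comp hc) 1 one_pos
  refine ⟨ρ, hρ, fun p hp hps hpf => ?_⟩
  obtain ⟨K, κ₀, hκ₀, h₀, hosc⟩ := hfac p hp hps hpf
  have hK : K ≠ 0 := by
    rintro rfl
    apply hnl
    apply lifts_of_comp π hc hs ho φ₀ κ₀ hκ₀
    intro x
    have := h₀ x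
    simpa using this
  obtain ⟨k, φ, κ, hk, hφ, hκ, hrel, hdiv⟩ := M5.minimalClass π p hp K hK φ₀ hφ₀ κ₀ hκ₀ h₀
  have hcl := fun a => M3.clopenXa π hc hs ho p hp k hk φ hφ κ hκ hrel a
  have hsurj := M4.surjData π hc hs ho p hp k hk φ hφ κ hκ hrel hdiv hcl
  obtain ⟨c, lam, hKc, hlam, hl⟩ := M24.relation π hc hs (fun w hw => fiberMin π hc hs ho w hw)
    p k hk φ hφ κ hκ hrel hdiv K φ₀ hφ₀ κ₀ hκ₀ h₀
  have hc0 : c ≠ 0 := by
    rintro rfl
    apply hK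
    rw [hKc]; ring
  have hord : ∀ x x', π x = π x' → p x = p x' → κ x = κ x' := by
    intro x x' h1 h2
    have h3 := hosc x x' h2
    rw [hl x, hl x', h1] at h3
    have h4 : ((κ x : ℝ) : T) = ((κ x' : ℝ) : T) := by
      have e1 := hrel x
      have e2 := hrel x'
      rw [h1, h2] at e1
      rw [e1] at e2
      exact add_left_cancel e2
    obtain ⟨n, hn⟩ := coe_eq h4
    have h5 : (c : ℝ) * κ x + lam (π x') - (c * κ x' + lam (π x')) = ((c * n : ℤ) : ℝ) := by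
      rw [hn]; push_cast; ring
    rw [h5, ← Int.cast_abs] at h3
    have h6 : |c * n| < 1 := by exact_mod_cast h3
    have h7 : c * n = 0 := Int.abs_lt_one_iff.mp h6
    rcases mul_eq_zero.mp h7 with h8 | h8
    · exact absurd h8 hc0
    · rw [hn, h8]; simp
  obtain ⟨A, hA, hAl⟩ := M6.Aleast π hc hs ho p hp k hk φ hφ κ hκ hrel hsurj
  obtain ⟨hAK, hA1⟩ := M7.Aorder π hc hs ho p hp k hk φ hφ κ hκ hrel hsurj hord A hA hAl
  exact ⟨⟨k, φ, κ, A, hk, hφ, hκ, hrel, hdiv, hA, fun z hz => (hAl z hz).1, hAK, hA1⟩⟩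

end

end Pool.Agent.Helper475.OC
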