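import Pool.Agent.Helper475.OCBase

set_option autoImplicit false

namespace Pool.Agent.Helper475.OC.M12

open Pool.Agent.Helper475.OC
open Set Topology


theorem fold_shift {Y : Type} {φ : Y → T} {z : Y × ℝ} (hz : z ∈ Zc φ) (n : ℤ) :
    (z.1, z.2 + (n : ℝ)) ∈ Zc φ := by
  change φ z.1 = ((z.2 + (n : ℝ) : ℝ) : T)
  have h : ((n : ℝ) : T) = 0 := by
    rw [AddCircle.coe_eq_zero_iff]
    exact ⟨n, by simp⟩
  rw [AddCircle.coe_add, h, add_zero]
  exact hz

theorem fold_S {Y : Type} {φ : Y → T} {z : Y × ℝ} (hz : z ∈ Zc φ) :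
    (z.1, z.2 + 1) ∈ Zc φ := by
  have := fold_shift hz 1
  rwa [Int.cast_one] at this

theorem fold_coe_eq {a b : ℝ} (h : (a : T) = (b : T)) : ∃ n : ℤ, b = a + n := by
  have h1 : ((b - a : ℝ) : T) = 0 := by
    rw [AddCircle.coe_sub, h, sub_self]
  obtain ⟨n, hn⟩ := (AddCircle.coe_eq_zero_iff (1 : ℝ)).1 h1
  refine ⟨n, ?_⟩
  rw [zsmul_eq_mul, mul_one] at hn
  linarith

theorem fold_clamp {c h η b b' : ℝ} (hη : 0 < η) (hch : c + η < h - η) (h1 : c ≤ b) (h2 : b ≤ h)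
    (h1' : c ≤ b') (h2' : b' ≤ h)
    (he : max (c + η) (min b (h - η)) = max (c + η) (min b' (h - η))) : |b - b'| ≤ η := by
  rw [abs_le]
  simp only [max_def, min_def] at he
  split_ifs at he <;> constructor <;> linarith

theorem fold_unit {r r' : ℝ} (h0 : 0 ≤ r) (h1 : r ≤ 1) (h0' : 0 ≤ r') (h1' : r' ≤ 1)
    (h : (r : T) = (r' : T)) : r = r' ∨ (r = 0 ∧ r' = 1) ∨ (r = 1 ∧ r' = 0) := by
  obtain ⟨n, hn⟩ := fold_coe_eq h
  have h2 : (n : ℝ) ≤ 1 := by linarith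
  have h3 : (-1 : ℝ) ≤ n := by linarith
  have h2' : n ≤ 1 := by exact_mod_cast h2
  have h3' : -1 ≤ n := by exact_mod_cast h3
  obtain h4 | h4 | h4 : n = -1 ∨ n = 0 ∨ n = 1 := by omega
  · subst h4
    right; right
    push_cast at hn
    constructor <;> linarith
  · subst h4
    left
    push_cast at hn
    linarith
  · subst h4
    right; left
    push_cast at hn
    constructor <;> linarith

theorem fold_addZ {Y : Type} {φ : Y → T} (A : Y × ℝ → ℝ)
    (K : ℕ) (hAK : ∀ z ∈ Zc φ, A (z.1, z.2 + K) = A z + 1) (y : Y) (t : ℝ) (ht : (y, t) ∈ Zc φ)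
    (m : ℤ) : A (y, t + ((K * m : ℤ) : ℝ)) = A (y, t) + m := by
  induction m using Int.induction_on with
  | zero => simp
  | succ i ih =>
    have h := hAK _ (fold_shift ht ((K : ℤ) * (i : ℤ)))
    have e1 : t + (((K : ℤ) * ((i : ℤ) + 1) : ℤ) : ℝ) = t + (((K : ℤ) * (i : ℤ) : ℤ) : ℝ) + K := by
      push_cast; ring
    rw [e1]
    refine h.trans ?_
    change A (y, t + (((K : ℤ) * (i : ℤ) : ℤ) : ℝ)) + 1 = _
    rw [ih]
    push_cast; ring
  | pred i ih =>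
    have h := hAK _ (fold_shift ht ((K : ℤ) * (-(i : ℤ) - 1)))
    have e1 : t + (((K : ℤ) * (-(i : ℤ) - 1) : ℤ) : ℝ) + K = t + (((K : ℤ) * (-(i : ℤ)) : ℤ) : ℝ) := by
      push_cast; ring
    have h' : A (y, t + (((K : ℤ) * (-(i : ℤ) - 1) : ℤ) : ℝ) + K) =
        A (y, t + (((K : ℤ) * (-(i : ℤ) - 1) : ℤ) : ℝ)) + 1 := h
    rw [e1, ih] at h'
    push_cast at h' ⊢
    linarith

theorem fold_mono {Y : Type} {φ : Y → T} (A : Y × ℝ → ℝ)
    (hA1 : ∀ z ∈ Zc φ, A z < A (z.1, z.2 + 1)) (y : Y) (t : ℝ) (ht : (y, t) ∈ Zc φ) :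
    StrictMono (fun n : ℤ => A (y, t + (n : ℝ))) := by
  refine strictMono_int_of_lt_succ fun n => ?_
  have h := hA1 _ (fold_shift ht n)
  have e1 : t + ((n + 1 : ℤ) : ℝ) = t + (n : ℝ) + 1 := by push_cast; ring
  simp only [e1]
  exact h

/-- the two-scale fold: construction of the circle valued map -/
theorem fold {Y : Type} [MetricSpace Y] [CompactSpace Y] [Nonempty Y]
    (φ : Y → T) (hφ : Continuous φ)
    (A B : Y × ℝ → ℝ) (hA : ContinuousOn A (Zc φ)) (hB : ContinuousOn B (Zc φ))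
    (K : ℕ) (hK : 0 < K) (hAK : ∀ z ∈ Zc φ, A (z.1, z.2 + K) = A z + 1)
    (hA1 : ∀ z ∈ Zc φ, A z < A (z.1, z.2 + 1)) (δ η ε : ℝ) (hη : 0 < η) (hηδ : 2 * η < δ)
    (hB1 : ∀ z ∈ Zc φ, B z + δ ≤ B (z.1, z.2 + 1))
    (h3 : ∀ z ∈ Zc φ, ∀ z' ∈ Zc φ, A z = A z' →
      |B z - B z'| ≤ η ∧ |B (z.1, z.2 + 1) - B (z'.1, z'.2 + 1)| ≤ η)
    (h4 : ∀ z ∈ Zc φ, ∀ z' ∈ Zc φ, |B z - B z'| ≤ η → dist z.1 z'.1 ≤ ε)
    (hcomp : ∀ a b : ℝ, IsCompact {z | z ∈ Zc φ ∧ a ≤ A z ∧ A z ≤ b})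
    (zs : Y × ℝ) (hzs : zs ∈ Zc φ)
    (hrec : ∀ z ∈ Zc φ, A z ≤ A zs → B (z.1, z.2 + 1) ≤ B (zs.1, zs.2 + 1))
    (z1 : Y × ℝ) (hz1 : z1 ∈ Zc φ) (hz1s : A zs ≤ A z1)
    (hmin : ∀ z ∈ Zc φ, A zs ≤ A z → B z1 ≤ B z) :
    ∃ Ψ : Y → T, Continuous Ψ ∧ ∀ y y', Ψ y = Ψ y' → dist y y' ≤ 2 * ε := by
  have hSmem : ∀ z ∈ Zc φ, (z.1, z.2 + 1) ∈ Zc φ := fun z hz => fold_S hz
  have hcl : IsClosed (Zc φ) :=
    isClosed_eq (hφ.comp continuous_fst) (((AddCircle.continuous_mk' (1 : ℝ))).comp continuous_snd)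
  have hSc : ContinuousOn (fun z : Y × ℝ => A (z.1, z.2 + 1)) (Zc φ) :=
    hA.comp (by fun_prop) (fun z hz => hSmem z hz)
  have hSB : ContinuousOn (fun z : Y × ℝ => B (z.1, z.2 + 1)) (Zc φ) :=
    hB.comp (by fun_prop) (fun z hz => hSmem z hz)
  have hc1 : B z1 ≤ B zs := hmin zs hzs le_rfl
  have hch : B zs + δ ≤ B (zs.1, zs.2 + 1) := hB1 zs hzs
  have hlt : B z1 + η < B (zs.1, zs.2 + 1) - η := by linarith
  -- the fundamental domain
  let D : Set (Y × ℝ) := {z | z ∈ Zc φ ∧ A z ≤ A z1 ∧ A z1 ≤ A (z.1, z.2 + 1)}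
  have hDlow : ∀ z ∈ D, A z1 - 1 ≤ A z := by
    rintro ⟨y, t⟩ ⟨hz, h1, h2⟩
    have hm := fold_mono A hA1 y t hz
    have h3 : A (y, t + ((1 : ℤ) : ℝ)) ≤ A (y, t + ((K : ℤ) : ℝ)) :=
      hm.monotone (by exact_mod_cast hK)
    have h4 := hAK _ hz
    simp only [Int.cast_one, Int.cast_natCast] at h3
    change A (y, t + (K : ℝ)) = A (y, t) + 1 at h4
    change A z1 ≤ A (y, t + 1) at h2
    linarith
  have hDc : IsCompact D := by
    refine IsCompact.of_isClosed_subset (hcomp (A z1 - 1) (A z1)) ?_ ?_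
    · have h1 : IsClosed (Zc φ ∩ A ⁻¹' Iic (A z1)) := hA.preimage_isClosed_of_isClosed hcl isClosed_Iic
      have h2 : IsClosed (Zc φ ∩ (fun z : Y × ℝ => A (z.1, z.2 + 1)) ⁻¹' Ici (A z1)) :=
        hSc.preimage_isClosed_of_isClosed hcl isClosed_Ici
      convert h1.inter h2 using 1
      ext z
      constructor
      · rintro ⟨a1, a2, a3⟩
        exact ⟨⟨a1, a2⟩, ⟨a1, a3⟩⟩
      · rintro ⟨⟨a1, a2⟩, ⟨-, a3⟩⟩
        exact ⟨a1, a2, a3⟩
    · exact fun z hz => ⟨hz.1, hDlow z hz, hz.2.1⟩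
  have : CompactSpace D := isCompact_iff_compactSpace.1 hDc
  have hagree : ∀ z ∈ Zc φ, A z = A zs → B (zs.1, zs.2 + 1) - η ≤ B (z.1, z.2 + 1) := by
    intro z hz h
    have := abs_le.1 (h3 z hz zs hzs h).2
    linarith [this.1]
  let ψ : D → ℝ := fun z => if A z.1 ≤ A zs then
    max (B z1 + η) (min (B (z.1.1, z.1.2 + 1)) (B (zs.1, zs.2 + 1) - η))
    else B (zs.1, zs.2 + 1) - η + (A z.1 - A zs)
  have cA : Continuous (fun z : D => A z.1) :=
    (hA.mono (fun z hz => hz.1)).domRestrict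
  have cB : Continuous (fun z : D => B (z.1.1, z.1.2 + 1)) :=
    (hSB.mono (fun z hz => hz.1)).domRestrict
  have cψ : Continuous ψ := by
    refine Continuous.if_le (continuous_const.max (cB.min continuous_const))
      (continuous_const.add (cA.sub continuous_const)) cA continuous_const ?_
    intro z hz
    have h1 := hagree z.1 z.2.1 hz
    rw [min_eq_right h1, max_eq_right hlt.le, hz]
    ring
  have ψle : ∀ z : D, A z.1 ≤ A zs → ψ z =
      max (B z1 + η) (min (B (z.1.1, z.1.2 + 1)) (B (zs.1, zs.2 + 1) - η)) := by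
    intro z hz
    simp only [ψ, if_pos hz]
  have ψgt : ∀ z : D, A zs < A z.1 → ψ z = B (zs.1, zs.2 + 1) - η + (A z.1 - A zs) := by
    intro z hz
    simp only [ψ, if_neg (not_le.2 hz)]
  set M0 : ℝ := B z1 + η with hM0
  set M1 : ℝ := B (zs.1, zs.2 + 1) - η + (A z1 - A zs) with hM1
  have hM01 : M0 < M1 := by linarith
  have hrange : ∀ z : D, M0 ≤ ψ z ∧ ψ z ≤ M1 := by
    intro z
    rcases le_or_gt (A z.1) (A zs) with h | h
    · rw [ψle z h]
      exact ⟨le_max_left _ _, max_le (by linarith) ((min_le_right _ _).trans (by linarith))⟩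
    · rw [ψgt z h]
      have := z.2.2.1
      constructor <;> linarith
  -- values at the ends
  have P1 : ∀ z : D, A (z.1.1, z.1.2 + 1) = A z1 → ψ z = M0 := by
    intro z hz
    have h1 := abs_le.1 (h3 _ (hSmem _ z.2.1) z1 hz1 hz).1
    have h2 := hB1 _ z.2.1
    have h5 : A z.1 ≤ A zs := by
      by_contra hcon
      have h6 := hmin z.1 z.2.1 (not_le.1 hcon).le
      linarith [h1.2]
    rw [ψle z h5]
    exact max_eq_left ((min_le_left _ _).trans (by linarith [h1.2]))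
  have P2 : ∀ z : D, A z.1 = A z1 → ψ z = M1 := by
    intro z hz
    rcases hz1s.lt_or_eq with h | h
    · rw [ψgt z (by rw [hz]; exact h), hz]
    · have h1 := hagree z.1 z.2.1 (by rw [hz, h])
      rw [ψle z (by rw [hz, h]), min_eq_right h1, max_eq_right hlt.le, hM1, ← h]
      ring
  -- equal values
  have Q : ∀ z z' : D, ψ z = ψ z' → dist z.1.1 z'.1.1 ≤ ε := by
    intro z z' he
    have key : ∀ w : D, A w.1 ≤ A zs → B z1 ≤ B (w.1.1, w.1.2 + 1) ∧
        B (w.1.1, w.1.2 + 1) ≤ B (zs.1, zs.2 + 1) := fun w hw =>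
      ⟨hmin _ (hSmem _ w.2.1) (hz1s.trans w.2.2.2), hrec _ w.2.1 hw⟩
    have up : ∀ w : D, A w.1 ≤ A zs → ψ w ≤ B (zs.1, zs.2 + 1) - η := by
      intro w hw
      rw [ψle w hw]
      exact max_le hlt.le (min_le_right _ _)
    have lo : ∀ w : D, A zs < A w.1 → B (zs.1, zs.2 + 1) - η < ψ w := by
      intro w hw
      rw [ψgt w hw]
      linarith
    rcases le_or_gt (A z.1) (A zs) with h | h <;> rcases le_or_gt (A z'.1) (A zs) with h' | h'
    · have he' := he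
      rw [ψle z h, ψle z' h'] at he'
      exact h4 (z.1.1, z.1.2 + 1) (hSmem _ z.2.1) (z'.1.1, z'.1.2 + 1) (hSmem _ z'.2.1)
        (fold_clamp hη hlt (key z h).1 (key z h).2 (key z' h').1 (key z' h').2 he')
    · have g1 := up z h
      have g2 := lo z' h'
      linarith
    · have g1 := up z' h'
      have g2 := lo z h
      linarith
    · have he' := he
      rw [ψgt z h, ψgt z' h'] at he'
      exact h4 _ z.2.1 _ z'.2.1 (h3 _ z.2.1 _ z'.2.1 (by linarith)).1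
  have Q' : ∀ z z' : D, ψ z = M0 → ψ z' = M1 → dist z.1.1 z'.1.1 ≤ 2 * ε := by
    intro z z' h h'
    have hw : (z1.1, z1.2 + ((-1 : ℤ) : ℝ)) ∈ Zc φ := fold_shift hz1 (-1)
    have e1 : ((z1.1, z1.2 + ((-1 : ℤ) : ℝ) + 1) : Y × ℝ) = z1 := by
      refine Prod.ext rfl ?_
      push_cast
      ring
    have hwA := hA1 _ hw
    have hwD : (z1.1, z1.2 + ((-1 : ℤ) : ℝ)) ∈ D := by
      refine ⟨hw, ?_, ?_⟩
      · change A (z1.1, z1.2 + ((-1 : ℤ) : ℝ)) < A (z1.1, z1.2 + ((-1 : ℤ) : ℝ) + 1) at hwA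
        rw [e1] at hwA
        exact hwA.le
      · change A z1 ≤ A (z1.1, z1.2 + ((-1 : ℤ) : ℝ) + 1)
        rw [e1]
    have hz1D : z1 ∈ D := ⟨hz1, le_rfl, (hA1 z1 hz1).le⟩
    have g1 : ψ ⟨_, hwD⟩ = M0 := P1 ⟨_, hwD⟩ (by
      change A (z1.1, z1.2 + ((-1 : ℤ) : ℝ) + 1) = A z1
      rw [e1])
    have g2 : ψ ⟨_, hz1D⟩ = M1 := P2 ⟨_, hz1D⟩ rfl
    have k1 : dist z.1.1 z1.1 ≤ ε := Q z ⟨_, hwD⟩ (h.trans g1.symm)
    have k2 : dist z'.1.1 z1.1 ≤ ε := Q z' ⟨_, hz1D⟩ (h'.trans g2.symm)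
    calc dist z.1.1 z'.1.1 ≤ dist z.1.1 z1.1 + dist z'.1.1 z1.1 := dist_triangle_right _ _ _
      _ ≤ 2 * ε := by linarith
  -- surjectivity of the projection
  have hsurj : ∀ y : Y, ∃ z : D, z.1.1 = y := by
    intro y
    obtain ⟨t, ht⟩ := QuotientAddGroup.mk_surjective (φ y)
    have hz : (y, t) ∈ Zc φ := ht.symm
    have hm := fold_mono A hA1 y t hz
    have hadd := fold_addZ A K hAK y t hz
    obtain ⟨n, hn1, hn2⟩ := Int.exists_greatest_of_bdd (P := fun n : ℤ => A (y, t + (n : ℝ)) ≤ A z1)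
      (by
        refine ⟨K * (⌈A z1 - A (y, t)⌉ + 1), fun n hn => ?_⟩
        by_contra hcon
        have g1 : A (y, t + (((K : ℤ) * (⌈A z1 - A (y, t)⌉ + 1) : ℤ) : ℝ)) < A (y, t + (n : ℝ)) :=
          hm (not_le.1 hcon)
        rw [hadd] at g1
        have g2 := Int.le_ceil (A z1 - A (y, t))
        push_cast at g1
        linarith)
      (by
        refine ⟨K * ⌊A z1 - A (y, t)⌋, ?_⟩
        rw [hadd]
        have g2 := Int.floor_le (A z1 - A (y, t))
        linarith)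
    refine ⟨⟨(y, t + (n : ℝ)), fold_shift hz n, hn1, ?_⟩, rfl⟩
    by_contra hcon
    have g1 : A (y, t + ((n + 1 : ℤ) : ℝ)) ≤ A z1 := by
      have e1 : t + ((n + 1 : ℤ) : ℝ) = t + (n : ℝ) + 1 := by push_cast; ring
      rw [e1]
      exact (not_le.1 hcon).le
    have := hn2 (n + 1) g1
    omega
  -- the circle valued map on `D`
  let e : D → T := fun z => (((ψ z - M0) / (M1 - M0) : ℝ) : T)
  have ce : Continuous e :=
    (AddCircle.continuous_mk' (1 : ℝ)).comp ((cψ.sub continuous_const).div_const _)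
  have hd : 0 < M1 - M0 := sub_pos.2 hM01
  have e0 : ∀ z, ψ z = M0 → e z = 0 := by
    intro z h
    change (((ψ z - M0) / (M1 - M0) : ℝ) : T) = 0
    rw [h, sub_self, zero_div, AddCircle.coe_zero]
  have e1 : ∀ z, ψ z = M1 → e z = 0 := by
    intro z h
    change (((ψ z - M0) / (M1 - M0) : ℝ) : T) = 0
    rw [h, div_self hd.ne']
    exact AddCircle.coe_period (1 : ℝ)
  have step : ∀ (z z' : D) (n : ℤ), z'.1 = (z.1.1, z.1.2 + (n : ℝ)) → 0 < n → e z = e z' := by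
    intro z z' n hzz hn
    obtain ⟨⟨y, t⟩, hz⟩ := z
    obtain ⟨w, hw⟩ := z'
    obtain rfl : w = (y, t + (n : ℝ)) := hzz
    have hm := fold_mono A hA1 y t hz.1
    have g1 : A z1 ≤ A (y, t + 1) := hz.2.2
    have g2 : A (y, t + (n : ℝ)) ≤ A z1 := hw.2.1
    have g3 : n = 1 := by
      by_contra hcon
      have g4 : A (y, t + ((1 : ℤ) : ℝ)) < A (y, t + (n : ℝ)) := hm (by omega)
      rw [Int.cast_one] at g4
      linarith
    subst g3
    rw [Int.cast_one] at g2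
    have g5 : A (y, t + 1) = A z1 := le_antisymm g2 g1
    rw [e0 _ (P1 ⟨(y, t), hz⟩ g5), e1 _ (P2 _ (by rw [← g5]; simp))]
  have hfib : ∀ z z' : D, z.1.1 = z'.1.1 → e z = e z' := by
    intro z z' h
    have g1 : ((z.1.2 : ℝ) : T) = ((z'.1.2 : ℝ) : T) := by
      rw [← z.2.1, ← z'.2.1, h]
    obtain ⟨n, hn⟩ := fold_coe_eq g1
    have g2 : z'.1 = (z.1.1, z.1.2 + (n : ℝ)) := Prod.ext h.symm hn
    rcases lt_trichotomy n 0 with g | g | g
    · refine (step z' z (-n) (Prod.ext h ?_) (by omega)).symm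
      push_cast
      linarith
    · subst g
      have : z = z' := Subtype.ext (by rw [g2]; simp)
      rw [this]
    · exact step z z' n g2 g
  choose s hs using hsurj
  have hq : IsQuotientMap (fun z : D => z.1.1) :=
    IsQuotientMap.of_surjective_continuous (fun y => ⟨s y, hs y⟩)
      (continuous_fst.comp continuous_subtype_val)
  refine ⟨fun y => e (s y), ?_, ?_⟩
  · rw [hq.continuous_iff]
    have : (fun y => e (s y)) ∘ (fun z : D => z.1.1) = e := by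
      funext z
      exact hfib _ _ (hs _)
    rw [this]
    exact ce
  · intro y y' hyy
    have hr := hrange (s y)
    have hr' := hrange (s y')
    have g := fold_unit (r := (ψ (s y) - M0) / (M1 - M0)) (r' := (ψ (s y') - M0) / (M1 - M0))
      (div_nonneg (by linarith [hr.1]) hd.le) ((div_le_one hd).2 (by linarith [hr.2]))
      (div_nonneg (by linarith [hr'.1]) hd.le) ((div_le_one hd).2 (by linarith [hr'.2])) hyy
    have f0 : ∀ z, (ψ z - M0) / (M1 - M0) = 0 → ψ z = M0 := by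
      intro z hz
      rcases div_eq_zero_iff.1 hz with h | h
      · linarith
      · exact absurd h hd.ne'
    have f1 : ∀ z, (ψ z - M0) / (M1 - M0) = 1 → ψ z = M1 := by
      intro z hz
      have := (div_eq_one_iff_eq hd.ne').1 hz
      linarith
    have hd1 : dist y y' = dist (s y).1.1 (s y').1.1 := by rw [hs, hs]
    rw [hd1]
    rcases g with g | ⟨g, g'⟩ | ⟨g, g'⟩
    · have g1 : ψ (s y) = ψ (s y') := by
        have := (div_left_inj' hd.ne').1 g
        linarith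
      have g2 := Q _ _ g1
      have g3 : 0 ≤ dist (s y).1.1 (s y').1.1 := dist_nonneg
      linarith
    · exact Q' _ _ (f0 _ g) (f1 _ g')
    · rw [dist_comm]
      exact Q' _ _ (f0 _ g') (f1 _ g)


end Pool.Agent.Helper475.OC.M12
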