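import Pool.Agent.Helper475.OCBase

set_option autoImplicit false

namespace Pool.Agent.Helper475.OC.M22

open Pool.Agent.Helper475.OC
open Set Topology


/-- moduli: uniform openness, and small fibres give small preimages of small arcs -/
theorem openModulus {X Y : Type} [MetricSpace X] [CompactSpace X] [MetricSpace Y] [CompactSpace Y]
    (π : X → Y) (hc : Continuous π) (ho : IsOpenMap π) (δ : ℝ) (hδ : 0 < δ) :
    ∃ δ' : ℝ, 0 < δ' ∧ ∀ x : X, ∀ y' : Y, dist (π x) y' < δ' → ∃ x', π x' = y' ∧ dist x x' < δ := by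
  have main : ∃ δ' : ℝ, 0 < δ' ∧ ∀ x ∈ (univ : Set X), ∀ y' : Y, dist (π x) y' < δ' →
      ∃ x', π x' = y' ∧ dist x x' < δ := by
    refine IsCompact.induction_on (p := fun s : Set X => ∃ δ' : ℝ, 0 < δ' ∧ ∀ x ∈ s, ∀ y' : Y,
      dist (π x) y' < δ' → ∃ x', π x' = y' ∧ dist x x' < δ) isCompact_univ ?_ ?_ ?_ ?_
    · exact ⟨1, one_pos, fun x hx => absurd hx (notMem_empty x)⟩
    · rintro s t hst ⟨δ', h1, h2⟩
      exact ⟨δ', h1, fun x hx => h2 x (hst hx)⟩
    · rintro s t ⟨δ1, h1, h2⟩ ⟨δ2, h3, h4⟩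
      refine ⟨min δ1 δ2, lt_min h1 h3, ?_⟩
      rintro x (hx | hx) y' hy'
      · exact h2 x hx y' (hy'.trans_le (min_le_left _ _))
      · exact h4 x hx y' (hy'.trans_le (min_le_right _ _))
    · intro x _
      have h1 : π '' (Metric.ball x (δ / 2)) ∈ 𝓝 (π x) :=
        (ho _ Metric.isOpen_ball).mem_nhds ⟨x, Metric.mem_ball_self (by linarith), rfl⟩
      obtain ⟨r, hr, hr2⟩ := Metric.mem_nhds_iff.1 h1
      have h2 : π ⁻¹' (Metric.ball (π x) (r / 2)) ∩ Metric.ball x (δ / 2) ∈ 𝓝 x :=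
        Filter.inter_mem (hc.continuousAt.preimage_mem_nhds (Metric.ball_mem_nhds _ (by linarith)))
          (Metric.ball_mem_nhds _ (by linarith))
      refine ⟨π ⁻¹' (Metric.ball (π x) (r / 2)) ∩ Metric.ball x (δ / 2),
        mem_nhdsWithin_of_mem_nhds h2, ?_⟩
      have hr2' : 0 < r / 2 := by linarith
      refine ⟨r / 2, hr2', ?_⟩
      rintro z ⟨hz1, hz2⟩ y' hy'
      have h3 : y' ∈ Metric.ball (π x) r := by
        rw [Metric.mem_ball]
        have h4 : dist (π z) (π x) < r / 2 := hz1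
        have h5 := dist_triangle y' (π z) (π x)
        rw [dist_comm y' (π z)] at h5
        linarith
      obtain ⟨x', hx', hx2⟩ := hr2 h3
      refine ⟨x', hx2, ?_⟩
      have h6 : dist z x < δ / 2 := hz2
      have h7 : dist x' x < δ / 2 := hx'
      have h8 := dist_triangle z x x'
      rw [dist_comm x x'] at h8
      linarith
  obtain ⟨δ', h1, h2⟩ := main
  exact ⟨δ', h1, fun x => h2 x (mem_univ x)⟩

/-- small fibres give small preimages of short arcs -/
theorem arcModulus {X : Type} [MetricSpace X] [CompactSpace X] (p : X → T) (hp : Continuous p)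
    (δ : ℝ) (h : ∀ x x', p x = p x' → dist x x' < δ) :
    ∃ η : ℝ, 0 < η ∧ ∀ x x' : X, ∀ v v' : ℝ, p x = ((v : ℝ) : T) → p x' = ((v' : ℝ) : T) →
      |v - v'| ≤ η → dist x x' < δ := by
  let K : Set (X × X) := {q | δ ≤ dist q.1 q.2}
  have hK : IsCompact K := (isClosed_le continuous_const continuous_dist).isCompact
  have hle : ∀ x x' : X, ∀ v v' : ℝ, p x = ((v : ℝ) : T) → p x' = ((v' : ℝ) : T) →
      ‖p x - p x'‖ ≤ |v - v'| := by
    intro x x' v v' h1 h2
    rw [h1, h2, ← AddCircle.coe_sub, ← Real.norm_eq_abs]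
    exact QuotientAddGroup.norm_mk_le_norm
  rcases K.eq_empty_or_nonempty with hKe | hKne
  · have h01 : (0 : ℝ) < 1 := zero_lt_one
    refine ⟨(1 : ℝ), h01, ?_⟩
    intro x x' v v' _ _ _
    by_contra hcon
    push Not at hcon
    have : (x, x') ∈ K := hcon
    rw [hKe] at this
    exact this
  · obtain ⟨q, hq, hmin⟩ := hK.exists_isMinOn hKne
      (f := fun q : X × X => ‖p q.1 - p q.2‖)
      (((hp.comp continuous_fst).sub (hp.comp continuous_snd)).norm.continuousOn)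
    have hpos : 0 < ‖p q.1 - p q.2‖ := by
      rw [norm_pos_iff, sub_ne_zero]
      intro heq
      exact absurd (h _ _ heq) (not_lt.2 hq)
    obtain ⟨m, hm⟩ : ∃ m : ℝ, m = ‖p q.1 - p q.2‖ := ⟨_, rfl⟩
    have hm0 : 0 < m / 2 := by linarith
    refine ⟨m / 2, hm0, ?_⟩
    intro x x' v v' h1 h2 h3
    by_contra hcon
    push Not at hcon
    have h4 : ‖p q.1 - p q.2‖ ≤ ‖p x - p x'‖ := isMinOn_iff.1 hmin (x, x') hcon
    have h5 := hle x x' v v' h1 h2
    linarith

/-- uniform continuity with real lifts -/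
theorem liftNear {X : Type} [MetricSpace X] [CompactSpace X] (p : X → T) (hp : Continuous p)
    (η : ℝ) (hη : 0 < η) :
    ∃ δ : ℝ, 0 < δ ∧ ∀ x x' : X, dist x x' < δ → ∀ v : ℝ, p x = ((v : ℝ) : T) →
      ∃ v' : ℝ, p x' = ((v' : ℝ) : T) ∧ |v - v'| < η := by
  have huc := CompactSpace.uniformContinuous_of_continuous hp
  obtain ⟨δ, hδ, h⟩ := Metric.uniformContinuous_iff.1 huc η hη
  refine ⟨δ, hδ, fun x x' hx v hv => ?_⟩
  have h1 := h (show dist x' x < δ by rwa [dist_comm])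
  rw [dist_eq_norm] at h1
  obtain ⟨r, hr1, hr2⟩ := QuotientAddGroup.norm_lt_iff.1 h1
  refine ⟨v + r, ?_, ?_⟩
  · rw [AddCircle.coe_add, ← hv]
    have : ((r : ℝ) : T) = p x' - p x := hr1
    rw [this, add_sub_cancel]
  · rw [sub_add_cancel_left, abs_neg]
    exact hr2


end Pool.Agent.Helper475.OC.M22
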