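import Pool.Agent.Helper475.OCBase

set_option autoImplicit false

namespace Pool.Agent.Helper475.OC.M23

open Pool.Agent.Helper475.OC
open Set Topology


theorem j10797_nat {Y : Type} (φ : Y → T) {z : Y × ℝ} (hz : z ∈ Zc φ) (n : ℕ) :
    (z.1, z.2 + n) ∈ Zc φ := by
  induction n with
  | zero => simpa using hz
  | succ n ih =>
    have h1 : φ z.1 = ((z.2 + n : ℝ) : T) := ih
    show φ z.1 = ((z.2 + (n + 1 : ℕ) : ℝ) : T)
    rw [h1]
    have h2 := AddCircle.coe_add_period (1 : ℝ) (z.2 + n)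
    push_cast
    rw [← add_assoc]
    exact h2.symm

theorem j10797_smul (n : ℤ) (x : ℝ) : (((n : ℝ) * x : ℝ) : T) = n • (x : T) := by
  rw [← zsmul_eq_mul, AddCircle.coe_zsmul]

/-- the coarse function on the cover belonging to the fine map -/
theorem twoLevel {X Y : Type} [MetricSpace X] [CompactSpace X]
    [MetricSpace Y] [CompactSpace Y] (π : X → Y) (hs : Function.Surjective π)
    (pm pl : X → T) (km kl : ℕ) (hkm : 0 < km) (hkl : 0 < kl)
    (φm φl : Y → T) (hφm : Continuous φm) (hφl : Continuous φl) (κm κl : X → ℝ)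
    (hrelm : ∀ x, φm (π x) = (km : ℤ) • pm x + ((κm x : ℝ) : T))
    (hrell : ∀ x, φl (π x) = (kl : ℤ) • pl x + ((κl x : ℝ) : T))
    (Am Al : Y × ℝ → ℝ) (hAm : ContinuousOn Am (Zc φm))
    (hAmI : ∀ z ∈ Zc φm, IsA π pm km κm z (Am z))
    (hAlI : ∀ z ∈ Zc φl, IsA π pl kl κl z (Al z))
    (hAmK : ∀ z ∈ Zc φm, Am (z.1, z.2 + km) = Am z + 1)
    (δ : ℝ) (hδ0 : 0 < δ) (hδ : ∀ z ∈ Zc φm, Am z + δ ≤ Am (z.1, z.2 + 1))
    (η r ε : ℝ) (hr : 0 < r)
    (hAmr : ∀ z ∈ Zc φm, ∀ z' ∈ Zc φm, dist z.1 z'.1 < r → |z.2 - z'.2| < r →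
      |Am z - Am z'| < η)
    (hclose : ∀ x x' : X, ∀ v v' : ℝ, pm x = ((v : ℝ) : T) → pm x' = ((v' : ℝ) : T) →
      |v - v'| ≤ η → dist (π x) (π x') ≤ ε)
    (d : ℕ) (hd : 0 < d) (β : X → ℝ) (hpd : ∀ x, pm x = (d : ℤ) • pl x + ((β x : ℝ) : T))
    (hβs : ∀ x x', pl x = pl x' → (km : ℝ) * |β x - β x'| < r / 2)
    (hκs : ∀ x x', pl x = pl x' → |κm x - κm x'| < r / 2)
    (hπs : ∀ x x', pl x = pl x' → dist (π x) (π x') < r)
    (c : ℕ) (hc0 : 0 < c) (hcd : km * d = c * kl) (lam : Y → ℝ) (hlam : Continuous lam)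
    (hrel : ∀ x, (km : ℝ) * β x + κm x = (c : ℝ) * κl x + lam (π x)) :
    ∃ B : Y × ℝ → ℝ, ContinuousOn B (Zc φl) ∧
      (∀ z ∈ Zc φl, B (z.1, z.2 + kl) = B z + d) ∧
      (∀ z ∈ Zc φl, B z + δ ≤ B (z.1, z.2 + 1)) ∧
      (∀ z ∈ Zc φl, ∀ z' ∈ Zc φl, Al z = Al z' →
        |B z - B z'| ≤ η ∧ |B (z.1, z.2 + 1) - B (z'.1, z'.2 + 1)| ≤ η) ∧
      (∀ z ∈ Zc φl, ∀ z' ∈ Zc φl, |B z - B z'| ≤ η → dist z.1 z'.1 ≤ ε) := by
  have hcdR : (km : ℝ) * d = c * kl := by exact_mod_cast hcd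
  have hmem : ∀ z ∈ Zc φl, (z.1, (c : ℝ) * z.2 + lam z.1) ∈ Zc φm := by
    intro z hz
    obtain ⟨x, hx⟩ := hs z.1
    have hz' : φl z.1 = ((z.2 : ℝ) : T) := hz
    show φm z.1 = (((c : ℝ) * z.2 + lam z.1 : ℝ) : T)
    have h1 : ((km : ℤ) * (d : ℤ)) = (c : ℤ) * (kl : ℤ) := by exact_mod_cast hcd
    have h2 : (((km : ℝ) * β x + κm x : ℝ) : T) = (km : ℤ) • ((β x : ℝ) : T) + ((κm x : ℝ) : T) := by
      rw [AddCircle.coe_add, ← j10797_smul]
      norm_num
    have h3 : (((c : ℝ) * κl x + lam (π x) : ℝ) : T) =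
        (c : ℤ) • ((κl x : ℝ) : T) + ((lam (π x) : ℝ) : T) := by
      rw [AddCircle.coe_add, ← j10797_smul]
      norm_num
    have h4 : (((c : ℝ) * z.2 + lam z.1 : ℝ) : T) =
        (c : ℤ) • ((z.2 : ℝ) : T) + ((lam z.1 : ℝ) : T) := by
      rw [AddCircle.coe_add, ← j10797_smul]
      norm_num
    rw [h4, ← hz', ← hx, hrelm, hpd, hrell, smul_add, smul_smul, h1, add_assoc, ← h2, hrel x, h3,
      smul_add, smul_smul, add_assoc]
  have hK : ∀ j : ℕ, ∀ z ∈ Zc φm, Am (z.1, z.2 + j * km) = Am z + j := by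
    intro j
    induction j with
    | zero => intro z _; simp
    | succ j ih =>
      intro z hz
      have h1 := j10797_nat φm hz (j * km)
      have h2 := hAmK _ h1
      push_cast at h2 ⊢
      rw [ih z hz] at h2
      rw [show z.2 + ((j : ℝ) + 1) * km = z.2 + j * km + km by ring, h2]
      ring
  have hD : ∀ j : ℕ, ∀ z ∈ Zc φm, Am z + j * δ ≤ Am (z.1, z.2 + j) := by
    intro j
    induction j with
    | zero => intro z _; simp
    | succ j ih =>
      intro z hz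
      have h1 := j10797_nat φm hz j
      have h2 := hδ _ h1
      have h3 := ih z hz
      push_cast
      rw [show z.2 + ((j : ℝ) + 1) = z.2 + j + 1 by ring]
      linarith
  refine ⟨fun z => Am (z.1, (c : ℝ) * z.2 + lam z.1), ?_, ?_, ?_, ?_, ?_⟩
  · refine hAm.comp ?_ hmem
    exact (continuous_fst.prodMk ((continuous_const.mul continuous_snd).add
      (hlam.comp continuous_fst))).continuousOn
  · intro z hz
    have h1 := hK d _ (hmem z hz)
    simp only at h1 ⊢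
    rw [← h1]
    congr 2
    linarith
  · intro z hz
    have h1 := hD c _ (hmem z hz)
    simp only at h1 ⊢
    have h2 : (1 : ℝ) ≤ c := by exact_mod_cast hc0
    have h3 : δ ≤ c * δ := by nlinarith
    rw [show (c : ℝ) * (z.2 + 1) + lam z.1 = c * z.2 + lam z.1 + c by ring]
    linarith
  · intro z hz z' hz' hA
    obtain ⟨x, hx1, hx2, hx3⟩ := hAlI z hz
    obtain ⟨x', hx1', hx2', hx3'⟩ := hAlI z' hz'
    have hp : pl x = pl x' := by rw [hx2, hx2', hA]
    have h1 := hβs x x' hp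
    have h2 := hκs x x' hp
    have h3 : dist z.1 z'.1 < r := by
      rw [← hx1, ← hx1']
      exact hπs x x' hp
    have e1 : (c : ℝ) * z.2 + lam z.1 = km * d * Al z + (km * β x + κm x) := by
      rw [← hx3, hrel x, hx1, hcdR]
      ring
    have e2 : (c : ℝ) * z'.2 + lam z'.1 = km * d * Al z + (km * β x' + κm x') := by
      rw [← hx3', hrel x', hx1', hcdR, hA]
      ring
    have h4 : |((c : ℝ) * z.2 + lam z.1) - (c * z'.2 + lam z'.1)| < r := by
      rw [e1, e2]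
      have h5 : km * d * Al z + (km * β x + κm x) - (km * d * Al z + (km * β x' + κm x')) =
          km * (β x - β x') + (κm x - κm x') := by ring
      rw [h5]
      refine (abs_add_le _ _).trans_lt ?_
      rw [abs_mul, abs_of_nonneg (Nat.cast_nonneg km)]
      linarith
    have hz1 : (z.1, z.2 + 1) ∈ Zc φl := by simpa using j10797_nat φl hz 1
    have hz1' : (z'.1, z'.2 + 1) ∈ Zc φl := by simpa using j10797_nat φl hz' 1
    constructor
    · exact (hAmr _ (hmem z hz) _ (hmem z' hz') h3 h4).le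
    · refine (hAmr _ (hmem _ hz1) _ (hmem _ hz1') h3 ?_).le
      simp only
      have h6 : ((c : ℝ) * (z.2 + 1) + lam z.1) - (c * (z'.2 + 1) + lam z'.1) =
          ((c : ℝ) * z.2 + lam z.1) - (c * z'.2 + lam z'.1) := by ring
      rw [h6]
      exact h4
  · intro z hz z' hz' hA
    obtain ⟨x, hx1, hx2, hx3⟩ := hAmI _ (hmem z hz)
    obtain ⟨x', hx1', hx2', hx3'⟩ := hAmI _ (hmem z' hz')
    have := hclose x x' _ _ hx2 hx2' hA
    rw [hx1, hx1'] at this
    exact this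


end Pool.Agent.Helper475.OC.M23
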