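import Pool.Agent.Helper475.OCCaseI
import Pool.Agent.Helper475.OCJ12
import Pool.Agent.Helper475.OCJ22
import Pool.Agent.Helper475.OCJ23

set_option autoImplicit false

namespace Pool.Agent.Helper475.OC

open Set Topology

section

variable {X Y : Type} [MetricSpace X] [CompactSpace X] [MetricSpace Y] [CompactSpace Y]

/-- the fold with two levels of data -/
theorem foldLevels [ConnectedSpace X] [Nonempty Y] (π : X → Y) (hc : Continuous π)
    (hs : Function.Surjective π) (ho : IsOpenMap π)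
    (pm pl : X → T) (hpm : Continuous pm) (hpl : Continuous pl) (M : LD π pm) (L : LD π pl)
    (δ : ℝ) (hδ0 : 0 < δ) (hδ : ∀ z ∈ Zc M.φ, M.A z + δ ≤ M.A (z.1, z.2 + 1))
    (η r ε : ℝ) (hη : 0 < η) (hηδ : 2 * η < δ) (hr : 0 < r)
    (hAmr : ∀ z ∈ Zc M.φ, ∀ z' ∈ Zc M.φ, dist z.1 z'.1 < r → |z.2 - z'.2| < r →
      |M.A z - M.A z'| < η)
    (hclose : ∀ x x' : X, ∀ v v' : ℝ, pm x = ((v : ℝ) : T) → pm x' = ((v' : ℝ) : T) →
      |v - v'| ≤ η → dist (π x) (π x') ≤ ε)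
    (d : ℕ) (hd : 0 < d) (β : X → ℝ) (hβ : Continuous β)
    (hpd : ∀ x, pm x = (d : ℤ) • pl x + ((β x : ℝ) : T))
    (hβs : ∀ x x', pl x = pl x' → (M.k : ℝ) * |β x - β x'| < r / 2)
    (hκs : ∀ x x', pl x = pl x' → |M.κ x - M.κ x'| < r / 2)
    (hπs : ∀ x x', pl x = pl x' → dist (π x) (π x') < r) :
    ∃ Ψ : Y → T, Continuous Ψ ∧ ∀ y y', Ψ y = Ψ y' → dist y y' ≤ 2 * ε := by
  have h₀ : ∀ x, M.φ (π x) = ((M.k : ℤ) * (d : ℤ)) • pl x +
      (((M.k : ℝ) * β x + M.κ x : ℝ) : T) := by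
    intro x
    rw [M.hrel x, hpd x, smul_add, smul_smul, AddCircle.coe_add, add_assoc]
    congr 2
    rw [← AddCircle.coe_zsmul]
    simp
  obtain ⟨c, lam, hKc, hlam, hl⟩ := M24.relation π hc hs (fun w hw => fiberMin π hc hs ho w hw)
    pl L.k L.hk L.φ L.hφ L.κ L.hκ L.hrel L.hdiv ((M.k : ℤ) * (d : ℤ)) M.φ M.hφ
    (fun x => (M.k : ℝ) * β x + M.κ x) ((continuous_const.mul hβ).add M.hκ) h₀
  have hc0 : 0 < c := by
    have h1 : (0 : ℤ) < (M.k : ℤ) * (d : ℤ) := by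
      have := M.hk
      positivity
    rw [hKc] at h1
    have h2 : (0 : ℤ) < (L.k : ℤ) := by exact_mod_cast L.hk
    by_contra hcon
    push Not at hcon
    have h3 : c * (L.k : ℤ) ≤ 0 := mul_nonpos_of_nonpos_of_nonneg hcon h2.le
    omega
  obtain ⟨c', rfl⟩ : ∃ c' : ℕ, c = (c' : ℤ) := ⟨c.toNat, by omega⟩
  have hc1 : 0 < c' := by exact_mod_cast hc0
  have hcd : M.k * d = c' * L.k := by exact_mod_cast hKc
  obtain ⟨B, hB, hBK, hB1, hB3, hB4⟩ := M23.twoLevel π hs pm pl M.k L.k M.hk L.hk M.φ L.φ M.hφ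
    L.hφ M.κ L.κ M.hrel L.hrel M.A L.A M.hA M.hAI L.hAI M.hAK δ hδ0 hδ η r ε hr hAmr hclose d hd
    β hpd hβs hκs hπs c' hc1 hcd lam hlam (fun x => by simpa using hl x)
  have hcomp := M8.slabCompact L.φ L.hφ L.A L.hA L.k L.hk L.hAK
  obtain ⟨zs, hzs, hrec, z1, hz1, hz1s, hmin⟩ := M11.records L.φ L.hφ L.A B L.hA hB L.k L.hk
    (d : ℝ) (by exact_mod_cast hd) L.hAK hBK hcomp
  exact M12.fold L.φ L.hφ L.A B L.hA hB L.k L.hk L.hAK L.hA1 δ η ε hη hηδ hB1 hB3 hB4 hcomp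
    zs hzs hrec z1 hz1 hz1s hmin

/-- the case when `Y` has an essential map to the circle -/
theorem caseI [ConnectedSpace X] [Nonempty Y] (π : X → Y) (hc : Continuous π)
    (hs : Function.Surjective π) (ho : IsOpenMap π) (hX : CL X)
    (ε₀ : ℝ) (hε₀ : 0 < ε₀)
    (hNL : ∀ p : X → T, Continuous p → Function.Surjective p →
      (∀ x x', p x = p x' → dist x x' < ε₀) → ¬ Lifts p)
    (φ₀ : Y → T) (hφ₀ : Continuous φ₀) (hnl : ¬ Lifts φ₀) (ε : ℝ) (hε : 0 < ε) :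
    ∃ Ψ : Y → T, Continuous Ψ ∧ ∀ y y', Ψ y = Ψ y' → dist y y' < ε := by
  obtain ⟨ρ, hρ, hlev⟩ := levelData π hc hs ho φ₀ hφ₀ hnl
  have huc : UniformContinuous π := CompactSpace.uniformContinuous_of_continuous hc
  obtain ⟨δε, hδε, hπε⟩ := Metric.uniformContinuous_iff.mp huc (ε / 3) (by positivity)
  obtain ⟨pm, hpm, hpms, hpmf⟩ := hX (min ρ (min δε ε₀)) (by positivity)
  obtain ⟨M⟩ := hlev pm hpm hpms (fun x x' h => (hpmf x x' h).trans_le (min_le_left _ _))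
  have hpm1 : ∀ x x', pm x = pm x' → dist x x' < δε := fun x x' h =>
    (hpmf x x' h).trans_le ((min_le_right _ _).trans (min_le_left _ _))
  have hpm2 : ¬ Lifts pm := hNL pm hpm hpms fun x x' h =>
    (hpmf x x' h).trans_le ((min_le_right _ _).trans (min_le_right _ _))
  obtain ⟨δ, hδ0, hδ⟩ := M9.deltaPos M.φ M.hφ M.A M.hA M.k M.hk M.hAK M.hA1
  obtain ⟨η1, hη1, hη2⟩ := M22.arcModulus pm hpm δε hpm1
  set η := min η1 (δ / 3) with hηd
  have hη : 0 < η := by positivity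
  obtain ⟨r, hr, hAmr⟩ := M10.unifCont M.φ M.hφ M.A M.hA M.k M.hk M.hAK η hη
  have hMk : (0 : ℝ) < M.k := by exact_mod_cast M.hk
  obtain ⟨ρ1, hρ1, hfac⟩ := M2.factor pm hpm (r / (4 * M.k)) (by positivity)
  have hκu : UniformContinuous M.κ := CompactSpace.uniformContinuous_of_continuous M.hκ
  obtain ⟨ρ2, hρ2, hκ2⟩ := Metric.uniformContinuous_iff.mp hκu (r / 2) (by positivity)
  obtain ⟨ρ3, hρ3, hπ3⟩ := Metric.uniformContinuous_iff.mp huc r hr
  -- the fine map, with positive degree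
  obtain ⟨pl, hpl, hpls, hplf, d, hd, β, hβ, hpd, hβs⟩ : ∃ pl : X → T, Continuous pl ∧
      Function.Surjective pl ∧ (∀ x x', pl x = pl x' → dist x x' < min ρ (min ρ2 ρ3)) ∧
      ∃ d : ℕ, 0 < d ∧ ∃ β : X → ℝ, Continuous β ∧
        (∀ x, pm x = (d : ℤ) • pl x + ((β x : ℝ) : T)) ∧
        ∀ x x', pl x = pl x' → |β x - β x'| < r / (4 * M.k) := by
    obtain ⟨pl, hpl, hpls, hplf⟩ := hX (min ρ1 (min ρ (min ρ2 ρ3))) (by positivity)
    obtain ⟨d, β, hβ, hpd, hβs⟩ := hfac pl hpl hpls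
      (fun x x' h => (hplf x x' h).trans_le (min_le_left _ _))
    have hd0 : d ≠ 0 := by
      rintro rfl
      apply hpm2
      refine ⟨β, hβ, fun x => ?_⟩
      simpa using hpd x
    rcases lt_or_gt_of_ne hd0 with hd | hd
    · refine ⟨fun x => - pl x, hpl.neg, ?_, ?_, (-d).toNat, by omega, β, hβ, ?_, ?_⟩
      · intro t
        obtain ⟨x, hx⟩ := hpls (-t)
        exact ⟨x, by simp [hx]⟩
      · intro x x' h
        exact (hplf x x' (neg_injective h)).trans_le (min_le_right _ _)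
      · intro x
        have e : (((-d).toNat : ℕ) : ℤ) = -d := by omega
        rw [e, hpd x]
        simp
      · intro x x' h
        exact hβs x x' (neg_injective h)
    · refine ⟨pl, hpl, hpls, ?_, d.toNat, by omega, β, hβ, ?_, hβs⟩
      · intro x x' h
        exact (hplf x x' h).trans_le (min_le_right _ _)
      · intro x
        have e : ((d.toNat : ℕ) : ℤ) = d := by omega
        rw [e, hpd x]
  obtain ⟨L⟩ := hlev pl hpl hpls (fun x x' h => (hplf x x' h).trans_le (min_le_left _ _))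
  obtain ⟨Ψ, hΨ, hΨ2⟩ := foldLevels π hc hs ho pm pl hpm hpl M L δ hδ0 hδ η r (ε / 3) hη
    (by
      have := min_le_right η1 (δ / 3)
      rw [← hηd] at this
      linarith) hr hAmr
    (fun x x' v v' h1 h2 h3 => (hπε (hη2 x x' v v' h1 h2 (h3.trans (min_le_left _ _)))).le)
    d hd β hβ hpd
    (fun x x' h => by
      have h1 := hβs x x' h
      have h2 : (M.k : ℝ) * |β x - β x'| < M.k * (r / (4 * M.k)) :=
        mul_lt_mul_of_pos_left h1 hMk
      have h3 : (M.k : ℝ) * (r / (4 * M.k)) = r / 4 := by field_simp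
      linarith)
    (fun x x' h => by
      have h1 := hκ2 ((hplf x x' h).trans_le ((min_le_right _ _).trans (min_le_left _ _)))
      rwa [Real.dist_eq] at h1)
    (fun x x' h =>
      hπ3 ((hplf x x' h).trans_le ((min_le_right _ _).trans (min_le_right _ _))))
  exact ⟨Ψ, hΨ, fun y y' h => (hΨ2 y y' h).trans_lt (by linarith)⟩

end

end Pool.Agent.Helper475.OC
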