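import Pool.Agent.Helper475.OCBase

set_option autoImplicit false

namespace Pool.Agent.Helper475.OC.M13

open Pool.Agent.Helper475.OC
open Set Topology


/-- the complement of a ball has a real valued map with small fibres -/
theorem psiE {X Y : Type} [MetricSpace X] [CompactSpace X] [MetricSpace Y] [CompactSpace Y]
    (π : X → Y) (hc : Continuous π) (hs : Function.Surjective π) (ho : IsOpenMap π)
    (hX : CL X)
    (hmin : ∀ (E : Set Y), IsClosed E → ∀ w : X → ℝ, ContinuousOn w (π ⁻¹' E) →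
      ∃ m : Y → ℝ, ContinuousOn m E ∧
        ∀ y ∈ E, (∃ x, π x = y ∧ m y = w x) ∧ ∀ x, π x = y → m y ≤ w x)
    (y0 : Y) (ρ ε : ℝ) (hρ : 0 < ρ) (hε : 0 < ε) :
    ∃ ψ : Y → ℝ, ContinuousOn ψ (Metric.ball y0 ρ)ᶜ ∧
      (∀ y ∈ (Metric.ball y0 ρ)ᶜ, 0 < ψ y ∧ ψ y < 1) ∧
      ∀ y ∈ (Metric.ball y0 ρ)ᶜ, ∀ y' ∈ (Metric.ball y0 ρ)ᶜ, ψ y = ψ y' → dist y y' < ε := by
  obtain ⟨x0, hx0⟩ := hs y0
  have huc : UniformContinuous π := CompactSpace.uniformContinuous_of_continuous hc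
  obtain ⟨r', hr', huc⟩ := Metric.uniformContinuous_iff.1 huc ε hε
  obtain ⟨r, hr, hcx⟩ := Metric.continuous_iff.1 hc x0 ρ hρ
  obtain ⟨p, hpc, hps, hpf⟩ := hX (min r r') (lt_min hr hr')
  haveI : Fact ((0:ℝ) < 1) := ⟨one_pos⟩
  have hne : ∀ x, π x ∈ (Metric.ball y0 ρ)ᶜ → p x - p x0 ≠ 0 := by
    intro x hx h0
    have h1 : dist x x0 < r := lt_of_lt_of_le (hpf x x0 (sub_eq_zero.1 h0)) (min_le_left _ _)
    have h2 := hcx x h1
    rw [hx0] at h2
    exact hx h2
  set w : X → ℝ := fun x => (AddCircle.equivIco (1:ℝ) 0 (p x - p x0) : ℝ) with hw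
  have hwe : ∀ x, ((w x : ℝ) : T) = p x - p x0 := fun x =>
    (AddCircle.equivIco (1:ℝ) 0).symm_apply_apply (p x - p x0)
  have hwc : ContinuousOn w (π ⁻¹' (Metric.ball y0 ρ)ᶜ) := by
    intro x hx
    have h1 : ContinuousAt (AddCircle.equivIco (1:ℝ) 0) (p x - p x0) :=
      AddCircle.continuousAt_equivIco (1:ℝ) 0 (by
        have := hne x hx
        simpa using this)
    have h2 : ContinuousAt (fun x => p x - p x0) x := (hpc.sub continuous_const).continuousAt
    have h3 : ContinuousAt (fun x => AddCircle.equivIco (1:ℝ) 0 (p x - p x0)) x :=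
      ContinuousAt.comp (f := fun x => p x - p x0) h1 h2
    exact (continuous_subtype_val.continuousAt.comp h3).continuousWithinAt
  have hw01 : ∀ x, π x ∈ (Metric.ball y0 ρ)ᶜ → 0 < w x ∧ w x < 1 := by
    intro x hx
    have h1 := (AddCircle.equivIco (1:ℝ) 0 (p x - p x0)).2
    refine ⟨lt_of_le_of_ne h1.1 ?_, by simpa using h1.2⟩
    intro h0
    have h2 := hwe x
    have h3 : w x = 0 := h0.symm
    rw [h3] at h2
    exact hne x hx (by rw [← h2]; simp)
  obtain ⟨m, hm, hmw⟩ := hmin _ Metric.isOpen_ball.isClosed_compl w hwc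
  refine ⟨m, hm, ?_, ?_⟩
  · intro y hy
    obtain ⟨⟨x, hx, hmx⟩, -⟩ := hmw y hy
    rw [hmx]
    exact hw01 x (by rw [hx]; exact hy)
  · intro y hy y' hy' hyy
    obtain ⟨⟨x, hx, hmx⟩, -⟩ := hmw y hy
    obtain ⟨⟨x', hx', hmx'⟩, -⟩ := hmw y' hy'
    have h1 : w x = w x' := by rw [← hmx, ← hmx', hyy]
    have h2 : p x = p x' := by
      have := congrArg (fun t : ℝ => (t : T)) h1
      simp only [hwe] at this
      exact sub_left_injective this
    have h3 : dist x x' < r' := lt_of_lt_of_le (hpf x x' h2) (min_le_right _ _)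
    have h4 := huc h3
    rwa [hx, hx'] at h4


end Pool.Agent.Helper475.OC.M13
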