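import Pool.Agent.Helper475.OCBase

set_option autoImplicit false

namespace Pool.Agent.Helper475.OC.M14

open Pool.Agent.Helper475.OC
open Set Topology


theorem exists_scale {Y : Type} [MetricSpace Y] (E : Set Y) (hE : IsCompact E) (ρ : ℝ)
    (ψ : Y → ℝ) (hψ : ContinuousOn ψ E)
    (hsm : ∀ y ∈ E, ∀ y' ∈ E, ψ y = ψ y' → dist y y' < ρ) :
    ∃ M : ℕ, 0 < M ∧ ∀ y ∈ E, ∀ y' ∈ E, |ψ y - ψ y'| ≤ 1 / (M : ℝ) → dist y y' < ρ := by
  have hK : IsCompact ((E ×ˢ E) ∩ {q : Y × Y | ρ ≤ dist q.1 q.2}) :=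
    (hE.prod hE).inter_right (isClosed_le continuous_const (continuous_fst.dist continuous_snd))
  have hf : ContinuousOn (fun q : Y × Y => |ψ q.1 - ψ q.2|) ((E ×ˢ E) ∩ {q : Y × Y | ρ ≤ dist q.1 q.2}) := by
    apply ContinuousOn.abs
    apply ContinuousOn.sub
    · exact hψ.comp continuousOn_fst (fun q hq => hq.1.1)
    · exact hψ.comp continuousOn_snd (fun q hq => hq.1.2)
  rcases Set.eq_empty_or_nonempty ((E ×ˢ E) ∩ {q : Y × Y | ρ ≤ dist q.1 q.2}) with hem | hne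
  · refine ⟨1, one_pos, fun y hy y' hy' _ => ?_⟩
    by_contra hcon
    push Not at hcon
    have : (y, y') ∈ (E ×ˢ E) ∩ {q : Y × Y | ρ ≤ dist q.1 q.2} := ⟨⟨hy, hy'⟩, hcon⟩
    rw [hem] at this
    exact this
  · obtain ⟨q, hq, hmin⟩ := hK.exists_isMinOn hne hf
    have hpos : 0 < |ψ q.1 - ψ q.2| := by
      rw [abs_pos, sub_ne_zero]
      intro h
      have h1 := hsm q.1 hq.1.1 q.2 hq.1.2 h
      have h2 : ρ ≤ dist q.1 q.2 := hq.2
      linarith
    obtain ⟨M, hM⟩ := exists_nat_one_div_lt hpos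
    refine ⟨M + 1, Nat.succ_pos M, fun y hy y' hy' h => ?_⟩
    by_contra hcon
    push Not at hcon
    have h3 : (fun q : Y × Y => |ψ q.1 - ψ q.2|) q ≤ (fun q : Y × Y => |ψ q.1 - ψ q.2|) (y, y') :=
      hmin (show (y, y') ∈ (E ×ˢ E) ∩ {q : Y × Y | ρ ≤ dist q.1 q.2} from ⟨⟨hy, hy'⟩, hcon⟩)
    simp only at h3
    push_cast at h
    linarith

/-- a closed brick decomposition of small mesh without triple intersections -/
theorem bricks {Y : Type} [MetricSpace Y] [CompactSpace Y] (y0 : Y) (ρ ε : ℝ) (hρ : 0 < ρ)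
    (hρε : 8 * ρ < ε) (ψ : Y → ℝ) (hψ : ContinuousOn ψ (Metric.ball y0 ρ)ᶜ)
    (h01 : ∀ y ∈ (Metric.ball y0 ρ)ᶜ, 0 < ψ y ∧ ψ y < 1)
    (hsm : ∀ y ∈ (Metric.ball y0 ρ)ᶜ, ∀ y' ∈ (Metric.ball y0 ρ)ᶜ, ψ y = ψ y' → dist y y' < ρ) :
    ∃ (n : ℕ) (F : Fin n → Set Y), (∀ i, IsClosed (F i)) ∧ (∀ y, ∃ i, y ∈ F i) ∧
      (∀ i, ∀ y ∈ F i, ∀ y' ∈ F i, dist y y' < ε) ∧ NoTriple F := by
  classical
  set E : Set Y := (Metric.ball y0 ρ)ᶜ with hE
  have hEc : IsClosed E := Metric.isOpen_ball.isClosed_compl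
  obtain ⟨M, hM, hsc⟩ := exists_scale E hEc.isCompact ρ ψ hψ hsm
  have hMr : (0:ℝ) < M := by exact_mod_cast hM
  set B : ℕ → Set Y := fun i => E ∩ ψ ⁻¹' Icc ((i : ℝ) / M) (((i : ℝ) + 1) / M) with hB
  have hBc : ∀ i, IsClosed (B i) := fun i => hψ.preimage_isClosed_of_isClosed hEc isClosed_Icc
  have hBd : ∀ i, ∀ y ∈ B i, ∀ y' ∈ B i, dist y y' < ρ := by
    intro i y hy y' hy'
    apply hsc y hy.1 y' hy'.1
    have h1 : (i : ℝ) / M ≤ ψ y ∧ ψ y ≤ ((i : ℝ) + 1) / M := hy.2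
    have h2 : (i : ℝ) / M ≤ ψ y' ∧ ψ y' ≤ ((i : ℝ) + 1) / M := hy'.2
    rw [add_div] at h1 h2
    rw [abs_le]
    constructor <;> linarith [h1.1, h1.2, h2.1, h2.2]
  have hBcov : ∀ y ∈ E, ∃ i < M, y ∈ B i := by
    intro y hy
    obtain ⟨h1, h2⟩ := h01 y hy
    refine ⟨⌊(M : ℝ) * ψ y⌋₊, ?_, hy, ?_⟩
    · rw [Nat.floor_lt (by positivity)]
      nlinarith
    · have h3 := Nat.floor_le (show 0 ≤ (M : ℝ) * ψ y by positivity)
      have h4 := Nat.lt_floor_add_one ((M : ℝ) * ψ y)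
      constructor
      · rw [div_le_iff₀ hMr]; linarith
      · rw [le_div_iff₀ hMr]; linarith
  have hB2 : ∀ i j y, y ∈ B i → y ∈ B j → j ≤ i + 1 := by
    intro i j y hi hj
    have h1 : ψ y ≤ ((i : ℝ) + 1) / M := hi.2.2
    have h2 : (j : ℝ) / M ≤ ψ y := hj.2.1
    have h3 : (j : ℝ) / M ≤ ((i : ℝ) + 1) / M := h2.trans h1
    rw [div_le_div_iff_of_pos_right hMr] at h3
    exact_mod_cast h3
  have hB3 : ∀ i j l y, i ≠ j → j ≠ l → i ≠ l → y ∈ B i → y ∈ B j → y ∈ B l → False := by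
    intro i j l y hij hjl hil hi hj hl
    have a1 := hB2 i j y hi hj
    have a2 := hB2 j i y hj hi
    have a3 := hB2 i l y hi hl
    have a4 := hB2 l i y hl hi
    have a5 := hB2 j l y hj hl
    have a6 := hB2 l j y hl hj
    omega
  set con : ℕ → Prop := fun i => (B i ∩ Metric.closedBall y0 ρ).Nonempty with hcon
  set F' : ℕ → Set Y := fun n => match n with
    | 0 => Metric.closedBall y0 ρ ∪ ⋃ i ∈ (Finset.range M).filter con, B i
    | (i + 1) => if con i then ∅ else B i with hF'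
  have hF0 : ∀ y, y ∈ F' 0 ↔ y ∈ Metric.closedBall y0 ρ ∨ ∃ i, i < M ∧ con i ∧ y ∈ B i := by
    intro y
    show y ∈ Metric.closedBall y0 ρ ∪ ⋃ i ∈ (Finset.range M).filter con, B i ↔ _
    rw [Set.mem_union]
    simp only [Set.mem_iUnion, Finset.mem_filter, Finset.mem_range, exists_prop, and_assoc]
  have hFs : ∀ i y, y ∈ F' (i + 1) ↔ ¬ con i ∧ y ∈ B i := by
    intro i y
    show y ∈ (if con i then (∅ : Set Y) else B i) ↔ _
    by_cases h : con i
    · rw [if_pos h]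
      simp [h]
    · rw [if_neg h]
      simp [h]
  have hkey : ∀ i j y, i ≠ j → y ∈ F' (i + 1) → y ∈ F' (j + 1) → y ∈ F' 0 → False := by
    intro i j y hij hi hj h0
    rw [hFs] at hi hj
    rw [hF0] at h0
    rcases h0 with h0 | ⟨l, hlM, hcl, hl⟩
    · exact hi.1 ⟨y, hi.2, h0⟩
    · have hli : l ≠ i := fun h => hi.1 (h ▸ hcl)
      have hlj : l ≠ j := fun h => hj.1 (h ▸ hcl)
      exact hB3 i j l y hij hlj.symm hli.symm hi.2 hj.2 hl
  refine ⟨M + 1, fun i => F' i.val, ?_, ?_, ?_, ?_⟩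
  · intro i
    rcases i with ⟨_ | i, hi⟩
    · exact Metric.isClosed_closedBall.union (isClosed_biUnion_finset fun i _ => hBc i)
    · show IsClosed (if con i then (∅ : Set Y) else B i)
      split_ifs
      · exact isClosed_empty
      · exact hBc i
  · intro y
    by_cases hy : y ∈ Metric.closedBall y0 ρ
    · exact ⟨⟨0, Nat.succ_pos M⟩, (hF0 y).2 (Or.inl hy)⟩
    · have hyE : y ∈ E := fun h => hy (Metric.ball_subset_closedBall h)
      obtain ⟨i, hiM, hi⟩ := hBcov y hyE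
      by_cases hc : con i
      · exact ⟨⟨0, Nat.succ_pos M⟩, (hF0 y).2 (Or.inr ⟨i, hiM, hc, hi⟩)⟩
      · exact ⟨⟨i + 1, by omega⟩, (hFs i y).2 ⟨hc, hi⟩⟩
  · have h0d : ∀ y ∈ F' 0, dist y y0 < 2 * ρ := by
      intro y hy
      rw [hF0] at hy
      rcases hy with hy | ⟨l, hlM, ⟨z, hz1, hz2⟩, hl⟩
      · rw [Metric.mem_closedBall] at hy
        linarith
      · have h1 := hBd l y hl z hz1
        rw [Metric.mem_closedBall] at hz2
        calc dist y y0 ≤ dist y z + dist z y0 := dist_triangle _ _ _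
          _ < 2 * ρ := by linarith
    intro i
    rcases i with ⟨_ | i, hi⟩
    · intro y hy y' hy'
      have h1 := h0d y hy
      have h2 := h0d y' hy'
      calc dist y y' ≤ dist y y0 + dist y' y0 := dist_triangle_right _ _ _
        _ < ε := by linarith
    · intro y hy y' hy'
      have h1 := ((hFs i y).1 hy).2
      have h2 := ((hFs i y').1 hy').2
      have := hBd i y h1 y' h2
      linarith
  · intro a b c hab hbc hac y ha hb hc
    rcases a with ⟨_ | a, ha'⟩ <;> rcases b with ⟨_ | b, hb'⟩ <;> rcases c with ⟨_ | c, hc'⟩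
    · exact hab rfl
    · exact hab rfl
    · exact hac rfl
    · exact hkey b c y (fun h => hbc (by subst h; rfl)) hb hc ha
    · exact hbc rfl
    · exact hkey a c y (fun h => hac (by subst h; rfl)) ha hc hb
    · exact hkey a b y (fun h => hab (by subst h; rfl)) ha hb hc
    · exact hB3 a b c y (fun h => hab (by subst h; rfl)) (fun h => hbc (by subst h; rfl))
        (fun h => hac (by subst h; rfl)) ((hFs a y).1 ha).2 ((hFs b y).1 hb).2 ((hFs c y).1 hc).2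


end Pool.Agent.Helper475.OC.M14
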