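import Pool.Agent.Helper475.OCBase

set_option autoImplicit false

namespace Pool.Agent.Helper475.OC.M15

open Pool.Agent.Helper475.OC
open Set Topology


theorem j15_S (f : ℤ → ℤ) : ∃ S : ℤ → ℤ, ∀ m, S (m + 1) = S m + f m := by
  refine ⟨fun m => match m with
    | Int.ofNat k => ∑ i ∈ Finset.range k, f i
    | Int.negSucc k => - ∑ i ∈ Finset.range (k + 1), f (-((i : ℤ) + 1)), ?_⟩
  intro m
  match m with
  | Int.ofNat k =>
    show ∑ i ∈ Finset.range (k + 1), f i = ∑ i ∈ Finset.range k, f i + f (k : ℤ)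
    rw [Finset.sum_range_succ]
  | Int.negSucc 0 =>
    show ∑ i ∈ Finset.range 0, f i = - ∑ i ∈ Finset.range 1, f (-((i : ℤ) + 1)) + f (Int.negSucc 0)
    simp [Int.negSucc_eq]
  | Int.negSucc (k + 1) =>
    show - ∑ i ∈ Finset.range (k + 1), f (-((i : ℤ) + 1)) =
      - ∑ i ∈ Finset.range (k + 1 + 1), f (-((i : ℤ) + 1)) + f (Int.negSucc (k + 1))
    rw [Finset.sum_range_succ _ (k + 1), Int.negSucc_eq]
    push_cast
    ring

theorem j15_lift {X : Type} [TopologicalSpace X] (p : X → T) (hp : Continuous p) (x0 : X)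
    (v0 : ℝ) (h0 : p x0 = ((v0 : ℝ) : T)) :
    ∃ v : X → ℝ, ContinuousAt v x0 ∧ v x0 = v0 ∧ ∀ᶠ x in 𝓝 x0, p x = ((v x : ℝ) : T) := by
  let e := AddCircle.openPartialHomeomorphCoe (1 : ℝ) (v0 - 1 / 2)
  have hsrc : v0 ∈ e.source := by
    show v0 ∈ Ioo (v0 - 1 / 2) (v0 - 1 / 2 + 1)
    constructor <;> linarith
  have he : e v0 = p x0 := h0.symm
  have ht : p x0 ∈ e.target := by rw [← he]; exact e.map_source hsrc
  refine ⟨fun x => e.symm (p x), ?_, ?_, ?_⟩
  · exact (e.continuousAt_symm ht).comp hp.continuousAt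
  · show e.symm (p x0) = v0
    rw [← he]; exact e.left_inv hsrc
  · filter_upwards [hp.continuousAt.eventually (e.open_target.mem_nhds ht)] with x hx
    exact (e.right_inv hx).symm

theorem j15_coe_eq {u v : ℝ} (h : ((u : ℝ) : T) = ((v : ℝ) : T)) : ∃ j : ℤ, u = v + j := by
  have h1 : ((u - v : ℝ) : T) = 0 := by
    rw [AddCircle.coe_sub, h, sub_self]
  obtain ⟨j, hj⟩ := (AddCircle.coe_eq_zero_iff 1).1 h1
  refine ⟨j, ?_⟩
  rw [zsmul_eq_mul, mul_one] at hj
  linarith

/-- the links of a map to the circle that does not lift have the chain property -/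
theorem chainProp_of_not_lifts {X : Type} [TopologicalSpace X] [ConnectedSpace X]
    (p : X → T) (hp : Continuous p) (hnl : ¬ Lifts p) (N : ℕ) (hN : 0 < N) :
    ChainProp (Ulink p N) := by
  intro n c hn hc
  have hNZ : NeZero N := ⟨hN.ne'⟩
  have hNr : (0 : ℝ) < N := by exact_mod_cast hN
  obtain ⟨S, hS⟩ := j15_S (fun m => c (m : ZMod N))
  -- period of `S`
  set Ct : ℤ := S N - S 0 with hCt
  have hS1 : ∀ m : ℤ, S (m + N) - S m = Ct := by
    have hstep : ∀ m : ℤ, S (m + 1 + N) - S (m + 1) = S (m + N) - S m := by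
      intro m
      have e1 := hS m
      have e2 := hS (m + N)
      have e3 : (((m + N : ℤ)) : ZMod N) = (m : ZMod N) := by push_cast; simp
      simp only [e3] at e2
      have e4 : m + 1 + (N : ℤ) = m + N + 1 := by ring
      rw [e4, e2, e1]; ring
    intro m
    induction m using Int.induction_on with
    | zero => rw [zero_add]
    | succ i ih => rw [hstep, ih]
    | pred i ih =>
      have := hstep (-(i : ℤ) - 1)
      rw [sub_add_cancel] at this
      rw [← this, ih]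
  have hS2 : ∀ (j m : ℤ), S (m + N * j) = S m + j * Ct := by
    intro j
    induction j using Int.induction_on with
    | zero => intro m; simp
    | succ i ih =>
      intro m
      have e1 := ih (m + N)
      have e2 := hS1 m
      rw [show m + (N : ℤ) * ((i : ℤ) + 1) = m + N + N * i by ring, e1]
      linarith
    | pred i ih =>
      intro m
      have e1 := ih (m - N)
      have e2 := hS1 (m - N)
      rw [sub_add_cancel] at e2
      rw [show m + (N : ℤ) * (-(i : ℤ) - 1) = m - N + N * (-i) by ring, e1]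
      linarith
  -- the function `M`
  let M : X → ℝ → ℤ := fun x v => n ((⌊(N : ℝ) * v⌋ : ℤ) : ZMod N) x - S ⌊(N : ℝ) * v⌋
  have hMj : ∀ (x : X) (v : ℝ) (j : ℤ), M x (v + j) = M x v - j * Ct := by
    intro x v j
    have e1 : ⌊(N : ℝ) * (v + j)⌋ = ⌊(N : ℝ) * v⌋ + N * j := by
      rw [show (N : ℝ) * (v + j) = N * v + ((N * j : ℤ) : ℝ) by push_cast; ring, Int.floor_add_intCast]
    have e2 : (((⌊(N : ℝ) * v⌋ + N * j : ℤ)) : ZMod N) = ((⌊(N : ℝ) * v⌋ : ℤ) : ZMod N) := by
      push_cast; simp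
    show n ((⌊(N : ℝ) * (v + j)⌋ : ℤ) : ZMod N) x - S ⌊(N : ℝ) * (v + j)⌋ = _
    rw [e1, e2, hS2]
    show _ = n ((⌊(N : ℝ) * v⌋ : ℤ) : ZMod N) x - S ⌊(N : ℝ) * v⌋ - j * Ct
    ring
  have hM1 : ∀ (x : X) (v : ℝ) (m : ℤ), p x = ((v : ℝ) : T) → |(N : ℝ) * v - m| < 1 →
      n (m : ZMod N) x = M x v + S m := by
    intro x v m hv hm
    set m' := ⌊(N : ℝ) * v⌋ with hm'
    have f1 : (m' : ℝ) ≤ N * v := Int.floor_le _
    have f2 : (N : ℝ) * v < m' + 1 := Int.lt_floor_add_one _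
    rw [abs_lt] at hm
    have g1 : m' ≤ m := by
      have : (m' : ℝ) < m + 1 := by linarith
      have : m' < m + 1 := by exact_mod_cast this
      omega
    have g2 : m ≤ m' + 1 := by
      have : (m : ℝ) < m' + 2 := by linarith
      have : m < m' + 2 := by exact_mod_cast this
      omega
    show n (m : ZMod N) x = n ((m' : ℤ) : ZMod N) x - S m' + S m
    rcases (by omega : m = m' ∨ m = m' + 1) with rfl | hmm
    · ring
    · have hx1 : x ∈ Ulink p N (m' : ZMod N) := ⟨v, hv, m', rfl, by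
        rw [abs_of_nonneg (by linarith)]; linarith⟩
      have hx2 : x ∈ Ulink p N ((m' : ZMod N) + 1) := ⟨v, hv, m, by rw [hmm]; push_cast; rfl, by
        rw [abs_lt]; exact hm⟩
      have e1 := hc _ x hx1 hx2
      have e2 := hS m'
      rw [hmm]
      push_cast
      rw [e1, e2]
      ring
  -- local constancy
  have hloc : ∀ (x0 : X) (v0 : ℝ), p x0 = ((v0 : ℝ) : T) → ∃ v : X → ℝ, ContinuousAt v x0 ∧
      v x0 = v0 ∧ ∀ᶠ x in 𝓝 x0, p x = ((v x : ℝ) : T) ∧ M x (v x) = M x0 v0 := by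
    intro x0 v0 h0
    obtain ⟨v, hv1, hv2, hv3⟩ := j15_lift p hp x0 v0 h0
    refine ⟨v, hv1, hv2, ?_⟩
    set m0 := ⌊(N : ℝ) * v0⌋ with hm0
    have f0 : |(N : ℝ) * v x0 - m0| < 1 := by
      rw [hv2, abs_of_nonneg (by linarith [Int.floor_le ((N : ℝ) * v0)])]
      linarith [Int.lt_floor_add_one ((N : ℝ) * v0)]
    have f1 : ContinuousAt (fun x => |(N : ℝ) * v x - m0|) x0 :=
      ((continuousAt_const.mul hv1).sub continuousAt_const).abs
    have f2 : ∀ᶠ x in 𝓝 x0, |(N : ℝ) * v x - m0| < 1 := f1.eventually_lt continuousAt_const f0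
    have f3 : Ulink p N (m0 : ZMod N) ∈ 𝓝 x0 := by
      filter_upwards [f2, hv3] with x h1 h2
      exact ⟨v x, h2, m0, rfl, h1⟩
    have f4 : ContinuousAt (n (m0 : ZMod N)) x0 := (hn _).continuousAt f3
    have f5 : ∀ᶠ x in 𝓝 x0, n (m0 : ZMod N) x = n (m0 : ZMod N) x0 :=
      f4.eventually ((isOpen_discrete {n (m0 : ZMod N) x0}).mem_nhds rfl)
    filter_upwards [f2, hv3, f5] with x h1 h2 h3
    refine ⟨h2, ?_⟩
    have e1 := hM1 x (v x) m0 h2 h1
    show M x (v x) = n (m0 : ZMod N) x0 - S m0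
    linarith
  -- a section
  have hsec : ∀ x, ∃ v : ℝ, p x = ((v : ℝ) : T) := by
    intro x
    obtain ⟨v, hv⟩ := QuotientAddGroup.mk_surjective (p x)
    exact ⟨v, hv.symm⟩
  choose r hr using hsec
  by_cases hC0 : Ct = 0
  · have hF : IsLocallyConstant (fun x => M x (r x)) := by
      rw [IsLocallyConstant.iff_eventually_eq]
      intro x0
      obtain ⟨v, hv1, hv2, hv3⟩ := hloc x0 (r x0) (hr x0)
      filter_upwards [hv3] with x hx
      obtain ⟨j, hj⟩ := j15_coe_eq ((hr x).symm.trans hx.1)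
      rw [hj, hMj, hC0, mul_zero, sub_zero]
      exact hx.2
    obtain ⟨x1⟩ : Nonempty X := inferInstance
    refine ⟨fun k => M x1 (r x1) + S ((ZMod.val k : ℕ) : ℤ), ?_⟩
    rintro k x ⟨v, hv, m, hm, hmv⟩
    have e1 := hM1 x v m hv hmv
    obtain ⟨j, hj⟩ := j15_coe_eq (hv.symm.trans (hr x))
    have e2 : M x v = M x (r x) := by
      rw [hj, hMj, hC0, mul_zero, sub_zero]
    have e3 : M x (r x) = M x1 (r x1) := hF.apply_eq_of_preconnectedSpace x x1
    have e4 : S m = S ((ZMod.val k : ℕ) : ℤ) := by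
      have h5 : ((m : ℤ) : ZMod N) = (((ZMod.val k : ℕ) : ℤ) : ZMod N) := by
        rw [hm]; simp
      obtain ⟨d, hd⟩ := (ZMod.intCast_eq_intCast_iff_dvd_sub _ _ _).1 h5
      have h6 : ((ZMod.val k : ℕ) : ℤ) = m + N * d := by linarith
      rw [h6, hS2, hC0, mul_zero, add_zero]
    rw [← hm, e1, e2, e3, e4, hm]
  · exfalso
    apply hnl
    have hCr : (Ct : ℝ) ≠ 0 := by exact_mod_cast hC0
    -- the continuous real function
    let q0 : X → ℝ := fun x => (M x (r x) : ℝ) / Ct + r x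
    have hq0 : ∀ (x : X) (v : ℝ), p x = ((v : ℝ) : T) → q0 x = (M x v : ℝ) / Ct + v := by
      intro x v hv
      obtain ⟨j, hj⟩ := j15_coe_eq (hv.symm.trans (hr x))
      show (M x (r x) : ℝ) / Ct + r x = _
      rw [hj, hMj]
      push_cast
      field_simp
      ring
    have hq0c : Continuous q0 := by
      rw [continuous_iff_continuousAt]
      intro x0
      obtain ⟨v, hv1, hv2, hv3⟩ := hloc x0 (r x0) (hr x0)
      have h1 : (fun x => (M x0 (r x0) : ℝ) / Ct + v x) =ᶠ[𝓝 x0] q0 := by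
        filter_upwards [hv3] with x hx
        rw [hq0 x (v x) hx.1, hx.2]
      exact (continuousAt_const.add hv1).congr h1
    have hh : IsLocallyConstant (fun x => ((q0 x : ℝ) : T) - p x) := by
      rw [IsLocallyConstant.iff_eventually_eq]
      intro x0
      obtain ⟨v, hv1, hv2, hv3⟩ := hloc x0 (r x0) (hr x0)
      filter_upwards [hv3] with x hx
      have e1 := hq0 x (v x) hx.1
      rw [e1, hx.2]
      rw [hx.1, AddCircle.coe_add, add_sub_cancel_right, hq0 x0 (r x0) (hr x0), hr x0,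
        AddCircle.coe_add, add_sub_cancel_right]
    obtain ⟨x1⟩ : Nonempty X := inferInstance
    obtain ⟨r0, hr0⟩ : ∃ r0 : ℝ, ((r0 : ℝ) : T) = ((q0 x1 : ℝ) : T) - p x1 :=
      QuotientAddGroup.mk_surjective _
    refine ⟨fun x => q0 x - r0, hq0c.sub continuous_const, fun x => ?_⟩
    have e1 : ((q0 x : ℝ) : T) - p x = ((q0 x1 : ℝ) : T) - p x1 :=
      hh.apply_eq_of_preconnectedSpace x x1
    rw [AddCircle.coe_sub, hr0, ← e1]
    abel


end Pool.Agent.Helper475.OC.M15
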