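import Pool.Agent.Helper475.OCBase

set_option autoImplicit false

namespace Pool.Agent.Helper475.OC.M16

open Pool.Agent.Helper475.OC
open Set Topology


theorem T_add_one10790 (x : ℝ) : ((x + 1 : ℝ) : T) = (x : T) := by
  rw [AddCircle.coe_add, AddCircle.coe_period, add_zero]

/-- the circle valued map belonging to an edge of the nerve -/
theorem edgeClass {Y ι : Type} [MetricSpace Y] (W : ι → Set Y) (hWo : ∀ a, IsOpen (W a))
    (hcov : ∀ y, ∃ a, y ∈ W a) (hne : ∀ a, W a ≠ univ) (hnt : NoTriple W) (a1 a2 : ι)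
    (h12 : a1 ≠ a2) :
    ∃ (φ : Y → T) (l : ι → Y → ℝ), Continuous φ ∧ (∀ a, ContinuousOn (l a) (W a)) ∧
      (∀ a, ∀ y ∈ W a, φ y = ((l a y : ℝ) : T)) ∧
      (∀ y ∈ W a1, y ∈ W a2 → l a1 y - l a2 y = 1) ∧
      (∀ a b, ∀ y, y ∈ W a → y ∈ W b → ¬ (a = a1 ∧ b = a2) → ¬ (a = a2 ∧ b = a1) →
        l a y = l b y) := by
  classical
  have hnc : ∀ a, (W a)ᶜ.Nonempty := fun a => by
    rw [Set.nonempty_compl]
    exact hne a
  let g : ι → Y → ℝ := fun a y => Metric.infDist y (W a)ᶜ
  have hgc : ∀ a, Continuous (g a) := fun a => Metric.continuous_infDist_pt _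
  have hg0 : ∀ a y, 0 ≤ g a y := fun a y => Metric.infDist_nonneg
  have hgp : ∀ a y, y ∈ W a → 0 < g a y := by
    intro a y hy
    apply ((hWo a).isClosed_compl.notMem_iff_infDist_pos (hnc a)).1
    simpa using hy
  have hgz : ∀ a y, y ∉ W a → g a y = 0 := by
    intro a y hy
    exact Metric.infDist_zero_of_mem hy
  let l : ι → Y → ℝ := fun a y => if a = a1 then g a2 y / (g a1 y + g a2 y) else
    if a = a2 then -(g a1 y / (g a1 y + g a2 y)) else 0
  have hl1 : ∀ y, l a1 y = g a2 y / (g a1 y + g a2 y) := fun y => by simp [l]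
  have hl2 : ∀ y, l a2 y = -(g a1 y / (g a1 y + g a2 y)) := fun y => by simp [l, h12.symm]
  have hl3 : ∀ a, a ≠ a1 → a ≠ a2 → ∀ y, l a y = 0 := fun a h h' y => by simp [l, h, h']
  have hlc : ∀ a, ContinuousOn (l a) (W a) := by
    intro a
    by_cases h1 : a = a1
    · subst h1
      have e : l a = fun y => g a2 y / (g a y + g a2 y) := funext hl1
      rw [e]
      apply (hgc a2).continuousOn.div ((hgc a).add (hgc a2)).continuousOn
      intro y hy
      exact (add_pos_of_pos_of_nonneg (hgp a y hy) (hg0 a2 y)).ne'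
    · by_cases h2 : a = a2
      · subst h2
        have e : l a = fun y => -(g a1 y / (g a1 y + g a y)) := funext hl2
        rw [e]
        apply ((hgc a1).continuousOn.div ((hgc a1).add (hgc a)).continuousOn _).neg
        intro y hy
        exact (add_pos_of_nonneg_of_pos (hg0 a1 y) (hgp a y hy)).ne'
      · have e : l a = fun _ => 0 := funext (hl3 a h1 h2)
        rw [e]
        exact continuousOn_const
  have hone : ∀ y ∈ W a1, y ∈ W a2 → l a1 y - l a2 y = 1 := by
    intro y h1 h2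
    rw [hl1, hl2]
    have := hgp a1 y h1
    have := hgp a2 y h2
    field_simp
    ring
  have hz1 : ∀ b y, b ≠ a1 → b ≠ a2 → y ∈ W a1 → y ∈ W b → l a1 y = 0 := by
    intro b y hb1 hb2 h1 hb
    have : y ∉ W a2 := fun h2 => hnt a1 a2 b h12 hb2.symm hb1.symm y h1 h2 hb
    rw [hl1, hgz a2 y this, zero_div]
  have hz2 : ∀ b y, b ≠ a1 → b ≠ a2 → y ∈ W a2 → y ∈ W b → l a2 y = 0 := by
    intro b y hb1 hb2 h2 hb
    have : y ∉ W a1 := fun h1 => hnt a1 a2 b h12 hb2.symm hb1.symm y h1 h2 hb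
    rw [hl2, hgz a1 y this, zero_div, neg_zero]
  have hcompat : ∀ a b, ∀ y, y ∈ W a → y ∈ W b → ¬ (a = a1 ∧ b = a2) → ¬ (a = a2 ∧ b = a1) →
        l a y = l b y := by
    intro a b y ha hb hn1 hn2
    by_cases hab : a = b
    · rw [hab]
    by_cases h1 : a = a1
    · subst h1
      have hb2 : b ≠ a2 := fun h => hn1 ⟨rfl, h⟩
      rw [hz1 b y (Ne.symm hab) hb2 ha hb, hl3 b (Ne.symm hab) hb2]
    · by_cases h2 : a = a2
      · subst h2
        have hb1 : b ≠ a1 := fun h => hn2 ⟨rfl, h⟩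
        rw [hz2 b y hb1 (Ne.symm hab) ha hb, hl3 b hb1 (Ne.symm hab)]
      · rw [hl3 a h1 h2]
        by_cases h3 : b = a1
        · subst h3
          rw [hz1 a y h1 h2 hb ha]
        · by_cases h4 : b = a2
          · subst h4
            rw [hz2 a y h1 h2 hb ha]
          · rw [hl3 b h3 h4]
  choose c hc using hcov
  have hφ : ∀ a, ∀ y ∈ W a, ((l (c y) y : ℝ) : T) = ((l a y : ℝ) : T) := by
    intro a y hy
    by_cases h1 : c y = a1 ∧ a = a2
    · obtain ⟨e1, e2⟩ := h1
      have h1' : y ∈ W a1 := by rw [← e1]; exact hc y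
      rw [e2] at hy
      rw [e1, e2]
      have := hone y h1' hy
      have e3 : l a1 y = l a2 y + 1 := by linarith
      rw [e3, T_add_one10790]
    · by_cases h2 : c y = a2 ∧ a = a1
      · obtain ⟨e1, e2⟩ := h2
        have h2' : y ∈ W a2 := by rw [← e1]; exact hc y
        rw [e2] at hy
        rw [e1, e2]
        have := hone y hy h2'
        have e3 : l a1 y = l a2 y + 1 := by linarith
        rw [e3, T_add_one10790]
      · rw [hcompat (c y) a y (hc y) hy h1 h2]
  refine ⟨fun y => ((l (c y) y : ℝ) : T), l, ?_, hlc, hφ, hone, hcompat⟩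
  rw [continuous_iff_continuousAt]
  intro y
  have hW := (hWo (c y)).mem_nhds (hc y)
  have h1 : ContinuousAt (fun w => ((l (c y) w : ℝ) : T)) y :=
    ((AddCircle.continuous_mk' (1 : ℝ)).continuousAt).comp ((hlc (c y)).continuousAt hW)
  refine h1.congr ?_
  filter_upwards [hW] with w hw
  exact (hφ (c y) w hw).symm


end Pool.Agent.Helper475.OC.M16
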