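import Pool.Agent.Helper475.OCBase

set_option autoImplicit false

namespace Pool.Agent.Helper475.OC.M17

open Pool.Agent.Helper475.OC
open Set Topology


/-- unwrapping a cycle of the nerve -/
theorem refineStep {X Y : Type} [TopologicalSpace X] [TopologicalSpace Y] (π : X → Y)
    (hc : Continuous π) {N : ℕ} [NeZero N] (U : ZMod N → Set X)
    (hUn : ∀ k, (U k).Nonempty) (hch : ChainProp U)
    (hH : ∀ φ : Y → T, Continuous φ → Lifts φ) (κ : ZMod N → ZMod N)
    (hnt : NoTriple (Wset π U κ)) (hcyc : ¬ (nerve (Wset π U κ)).IsAcyclic)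
    (hedge : ∀ a1 a2 : ZMod N, a1 ≠ a2 → ∃ (φ : Y → T) (l : ZMod N → Y → ℝ), Continuous φ ∧
      (∀ a, ContinuousOn (l a) (Wset π U κ a)) ∧
      (∀ a, ∀ y ∈ Wset π U κ a, φ y = ((l a y : ℝ) : T)) ∧
      (∀ y ∈ Wset π U κ a1, y ∈ Wset π U κ a2 → l a1 y - l a2 y = 1) ∧
      (∀ a b, ∀ y, y ∈ Wset π U κ a → y ∈ Wset π U κ b → ¬ (a = a1 ∧ b = a2) →
        ¬ (a = a2 ∧ b = a1) → l a y = l b y)) :
    ∃ κ' : ZMod N → ZMod N, (∀ j k, κ' j = κ' k → κ j = κ k) ∧
      (∃ j k, κ j = κ k ∧ κ' j ≠ κ' k) ∧ NoTriple (Wset π U κ') := by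
  classical
  set W := Wset π U κ with hW
  -- a non-bridge edge
  obtain ⟨a1, a2, hadj, hreach⟩ : ∃ a1 a2, (nerve W).Adj a1 a2 ∧
      ((nerve W).deleteEdges {s(a1, a2)}).Reachable a1 a2 := by
    rw [SimpleGraph.isAcyclic_iff_forall_adj_isBridge] at hcyc
    push Not at hcyc
    obtain ⟨a1, a2, h1, h2⟩ := hcyc
    rw [SimpleGraph.isBridge_iff, not_not] at h2
    exact ⟨a1, a2, h1, h2⟩
  obtain ⟨φ, l, hφ, hl, hφl, hl1, hl0⟩ := hedge a1 a2 hadj.1
  obtain ⟨θ, hθ, hφθ⟩ := hH φ hφ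
  have hint : ∀ a, ∀ y ∈ W a, ∃ m : ℤ, θ y - l a y = m := by
    intro a y hy
    have h1 : ((θ y - l a y : ℝ) : T) = 0 := by
      rw [AddCircle.coe_sub, ← hφθ y, ← hφl a y hy, sub_self]
    rw [AddCircle.coe_eq_zero_iff] at h1
    obtain ⟨m, hm⟩ := h1
    refine ⟨m, ?_⟩
    rw [← hm]
    simp
  have hmem : ∀ k x, x ∈ U k → π x ∈ W (κ k) := fun k x hx => ⟨k, rfl, x, hx, rfl⟩
  let n : ZMod N → X → ℤ := fun k x => round (θ (π x) - l (κ k) (π x))
  have hn : ∀ k x, x ∈ U k → ((n k x : ℤ) : ℝ) = θ (π x) - l (κ k) (π x) := by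
    intro k x hx
    obtain ⟨m, hm⟩ := hint (κ k) (π x) (hmem k x hx)
    show ((round (θ (π x) - l (κ k) (π x)) : ℤ) : ℝ) = _
    rw [hm, round_intCast]
  have hncont : ∀ k, ContinuousOn (n k) (U k) := by
    intro k
    rw [Int.isClosedEmbedding_coe_real.isInducing.continuousOn_iff]
    have h1 : ContinuousOn (fun x => θ (π x) - l (κ k) (π x)) (U k) :=
      (hθ.comp hc).continuousOn.sub ((hl (κ k)).comp hc.continuousOn (hmem k))
    exact h1.congr (fun x hx => hn k x hx)
  let c : ZMod N → ℤ := fun k => if κ k = a1 ∧ κ (k + 1) = a2 then 1 else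
    if κ k = a2 ∧ κ (k + 1) = a1 then -1 else 0
  have hstep : ∀ k, ∀ x, x ∈ U k → x ∈ U (k + 1) → n (k + 1) x = n k x + c k := by
    intro k x hx hx1
    have h1 := hn k x hx
    have h2 := hn (k + 1) x hx1
    have hm1 := hmem k x hx
    have hm2 := hmem (k + 1) x hx1
    have key : l (κ k) (π x) - l (κ (k + 1)) (π x) = (c k : ℤ) := by
      by_cases hA : κ k = a1 ∧ κ (k + 1) = a2
      · have hc1 : c k = 1 := by simp only [c, hA, and_self, if_true]
        rw [hc1, hA.1, hA.2]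
        rw [hA.1] at hm1
        rw [hA.2] at hm2
        rw [hl1 (π x) hm1 hm2]
        norm_num
      · by_cases hB : κ k = a2 ∧ κ (k + 1) = a1
        · have hc1 : c k = -1 := by
            simp only [c]
            rw [if_neg hA, if_pos hB]
          rw [hc1, hB.1, hB.2]
          rw [hB.1] at hm1
          rw [hB.2] at hm2
          have := hl1 (π x) hm2 hm1
          push_cast
          linarith
        · have hc1 : c k = 0 := by
            simp only [c]
            rw [if_neg hA, if_neg hB]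
          rw [hc1, hl0 _ _ (π x) hm1 hm2 hA hB]
          simp
    have h3 : ((n (k + 1) x : ℤ) : ℝ) = ((n k x + c k : ℤ) : ℝ) := by
      push_cast
      rw [h1, h2, ← key]
      ring
    exact_mod_cast h3
  obtain ⟨C, hC⟩ := hch n c hncont hstep
  have hCy : ∀ k, ∀ y ∈ π '' (U k), θ y - l (κ k) y = (C k : ℤ) := by
    rintro k _ ⟨x, hx, rfl⟩
    rw [← hn k x hx, hC k x hx]
  let P : ZMod N → ZMod N × ℤ := fun k => (κ k, C k)
  let κ' : ZMod N → ZMod N := fun k => Function.invFun P (P k)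
  have hPκ : ∀ k, P (κ' k) = P k := fun k => Function.invFun_eq ⟨k, rfl⟩
  have hκ' : ∀ j k, κ' j = κ' k ↔ P j = P k := by
    intro j k
    constructor
    · intro h
      rw [← hPκ j, ← hPκ k, h]
    · intro h
      show Function.invFun P (P j) = Function.invFun P (P k)
      rw [h]
  refine ⟨κ', ?_, ?_, ?_⟩
  · intro j k h
    exact (Prod.ext_iff.mp ((hκ' j k).mp h)).1
  · by_contra hcon
    push Not at hcon
    have hCeq : ∀ j k, κ j = κ k → C j = C k := fun j k h =>
      (Prod.ext_iff.mp ((hκ' j k).mp (hcon j k h))).2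
    let ν : ZMod N → ℤ := fun a => if h : ∃ j, κ j = a then C h.choose else 0
    have hν : ∀ j, ν (κ j) = C j := by
      intro j
      have h : ∃ i, κ i = κ j := ⟨j, rfl⟩
      show (if h : ∃ i, κ i = κ j then C h.choose else 0) = C j
      rw [dif_pos h]
      exact hCeq _ _ h.choose_spec
    have hνy : ∀ a, ∀ y ∈ W a, θ y - l a y = (ν a : ℤ) := by
      rintro a y ⟨j, rfl, hy⟩
      rw [hν j]
      exact hCy j y hy
    have hconst : ∀ a b, ((nerve W).deleteEdges {s(a1, a2)}).Reachable a b → ν a = ν b := by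
      intro a b hab
      obtain ⟨w⟩ := hab
      induction w with
      | nil => rfl
      | cons hadj' w ih =>
        rename_i u v b
        rw [← ih]
        rw [SimpleGraph.deleteEdges_adj] at hadj'
        obtain ⟨⟨hne, y, hyu, hyv⟩, hnot⟩ := hadj'
        have h1 := hνy u y hyu
        have h2 := hνy v y hyv
        have h3 : l u y = l v y := by
          apply hl0 u v y hyu hyv
          · rintro ⟨rfl, rfl⟩
            exact hnot rfl
          · rintro ⟨rfl, rfl⟩
            exact hnot (Sym2.eq_swap)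
        rw [h3] at h1
        have h4 : ((ν u : ℤ) : ℝ) = ((ν v : ℤ) : ℝ) := by rw [← h1, ← h2]
        exact_mod_cast h4
    have heq := hconst a1 a2 hreach
    obtain ⟨-, y, hy1, hy2⟩ := hadj
    have h1 := hνy a1 y hy1
    have h2 := hνy a2 y hy2
    have h3 := hl1 y hy1 hy2
    rw [heq] at h1
    linarith
  · intro a b c hab hbc hac y hya hyb hyc
    obtain ⟨ja, hja, hya'⟩ := hya
    obtain ⟨jb, hjb, hyb'⟩ := hyb
    obtain ⟨jc, hjc, hyc'⟩ := hyc
    have hdist : ∀ j k, y ∈ π '' (U j) → y ∈ π '' (U k) → κ' j ≠ κ' k → κ j ≠ κ k := by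
      intro j k hj hk hne h
      apply hne
      rw [hκ']
      have h1 := hCy j y hj
      have h2 := hCy k y hk
      rw [h, h2] at h1
      have h3 : C j = C k := by exact_mod_cast h1.symm
      exact Prod.ext h h3
    exact hnt (κ ja) (κ jb) (κ jc)
      (hdist ja jb hya' hyb' (by rw [hja, hjb]; exact hab))
      (hdist jb jc hyb' hyc' (by rw [hjb, hjc]; exact hbc))
      (hdist ja jc hya' hyc' (by rw [hja, hjc]; exact hac)) y
      ⟨ja, rfl, hya'⟩ ⟨jb, rfl, hyb'⟩ ⟨jc, rfl, hyc'⟩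


end Pool.Agent.Helper475.OC.M17
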