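import Pool.Agent.Helper475.OCBase

set_option autoImplicit false

namespace Pool.Agent.Helper475.OC.M18

open Pool.Agent.Helper475.OC
open Set Topology


theorem refineAcyclic_card {N : ℕ} [NeZero N] (κ κ' : ZMod N → ZMod N)
    (h : ∀ j k, κ' j = κ' k → κ j = κ k) (hs : ∃ j k, κ j = κ k ∧ κ' j ≠ κ' k) :
    (Finset.univ.image κ).card < (Finset.univ.image κ').card := by
  classical
  obtain ⟨g, hg⟩ : ∃ g : ZMod N → ZMod N, ∀ j, g (κ' j) = κ j := by
    refine ⟨fun a => if ha : ∃ j, κ' j = a then κ ha.choose else 0, fun j => ?_⟩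
    have ha : ∃ j', κ' j' = κ' j := ⟨j, rfl⟩
    show (if ha : ∃ j', κ' j' = κ' j then κ ha.choose else 0) = κ j
    rw [dif_pos ha]
    exact h _ _ ha.choose_spec
  have h1 : Finset.univ.image κ = (Finset.univ.image κ').image g := by
    rw [Finset.image_image]
    exact Finset.image_congr (fun j _ => (hg j).symm)
  refine lt_of_le_of_ne (by rw [h1]; exact Finset.card_image_le) fun he => ?_
  rw [h1] at he
  have h2 := Finset.card_image_iff.1 he
  obtain ⟨j, k, hjk, hne⟩ := hs
  refine hne (h2 ?_ ?_ ?_)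
  · exact Finset.mem_coe.2 (Finset.mem_image_of_mem _ (Finset.mem_univ j))
  · exact Finset.mem_coe.2 (Finset.mem_image_of_mem _ (Finset.mem_univ k))
  · rw [hg, hg, hjk]

/-- iterating the unwrapping -/
theorem refineAcyclic {X Y : Type} [Nonempty Y] (π : X → Y) {N : ℕ} [NeZero N]
    (U : ZMod N → Set X)
    (hstep : ∀ κ : ZMod N → ZMod N, NoTriple (Wset π U κ) → (∀ a, Wset π U κ a ≠ univ) →
      ¬ (nerve (Wset π U κ)).IsAcyclic →
      ∃ κ' : ZMod N → ZMod N, (∀ j k, κ' j = κ' k → κ j = κ k) ∧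
        (∃ j k, κ j = κ k ∧ κ' j ≠ κ' k) ∧ NoTriple (Wset π U κ'))
    (κ₀ : ZMod N → ZMod N) (h₀ : NoTriple (Wset π U κ₀)) (hu : ∀ a, Wset π U κ₀ a ≠ univ) :
    ∃ κ : ZMod N → ZMod N, (∀ j k, κ j = κ k → κ₀ j = κ₀ k) ∧ NoTriple (Wset π U κ) ∧
      (nerve (Wset π U κ)).IsAcyclic := by
  classical
  have key : ∀ (d : ℕ) (κ : ZMod N → ZMod N), Fintype.card (ZMod N) - (Finset.univ.image κ).card = d →
      (∀ j k, κ j = κ k → κ₀ j = κ₀ k) → NoTriple (Wset π U κ) →
      ∃ κ : ZMod N → ZMod N, (∀ j k, κ j = κ k → κ₀ j = κ₀ k) ∧ NoTriple (Wset π U κ) ∧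
        (nerve (Wset π U κ)).IsAcyclic := by
    intro d
    induction d using Nat.strong_induction_on with
    | _ d ih =>
      intro κ hd href hno
      by_cases hac : (nerve (Wset π U κ)).IsAcyclic
      · exact ⟨κ, href, hno, hac⟩
      · have hu' : ∀ a, Wset π U κ a ≠ univ := by
          intro a ha
          by_cases haj : ∃ j, κ j = a
          · obtain ⟨j, hj⟩ := haj
            apply hu (κ₀ j)
            rw [Set.eq_univ_iff_forall] at ha ⊢
            intro y
            obtain ⟨k, hk, hy⟩ := ha y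
            exact ⟨k, href k j (hk.trans hj.symm), hy⟩
          · obtain ⟨y⟩ := (inferInstance : Nonempty Y)
            have : y ∈ Wset π U κ a := by rw [ha]; exact mem_univ y
            obtain ⟨k, hk, _⟩ := this
            exact haj ⟨k, hk⟩
        obtain ⟨κ', h1, h2, h3⟩ := hstep κ hno hu' hac
        have hlt := refineAcyclic_card κ κ' h1 h2
        have hle : (Finset.univ.image κ').card ≤ Fintype.card (ZMod N) := Finset.card_le_univ _
        exact ih _ (by omega) κ' rfl (fun j k hjk => href j k (h1 j k hjk)) h3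
  exact key _ κ₀ rfl (fun _ _ h => h) h₀


end Pool.Agent.Helper475.OC.M18
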