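import Pool.Agent.Helper475.OCBase

set_option autoImplicit false

namespace Pool.Agent.Helper475.OC.M19

open Pool.Agent.Helper475.OC
open Set Topology


theorem forestInd_10793 {V F : Type} [Finite V] (mem : V → F → Prop) (R : F → F → Prop)
    (hR : ∀ x y, R x y → R y x) (hne : ∀ v, ∃ x, mem v x) (n : ℕ) :
    ∀ (G : SimpleGraph V), G.IsAcyclic → G.edgeSet.ncard = n →
    (∀ a b, G.Adj a b → ∀ x, mem a x → ∃ x', mem b x' ∧ R x x') →
    ∀ v0 x0, mem v0 x0 → ∃ s : V → F, (∀ v, mem v (s v)) ∧
      (∀ a b, G.Adj a b → R (s a) (s b)) ∧ s v0 = x0 := by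
  classical
  induction n using Nat.strong_induction_on with
  | _ n ih =>
    intro G hG hn hlift v0 x0 hx0
    by_cases hedge : ∃ a b, G.Adj a b
    · obtain ⟨a', b', hab'⟩ := hedge
      have key : ∀ a b, G.Adj a b → ¬ (G.deleteEdges {s(a, b)}).Reachable b v0 →
          ∃ s : V → F, (∀ v, mem v (s v)) ∧ (∀ a b, G.Adj a b → R (s a) (s b)) ∧ s v0 = x0 := by
        intro a b hab hnr
        obtain ⟨G', hG'⟩ : ∃ G', G' = G.deleteEdges {s(a, b)} := ⟨_, rfl⟩
        rw [← hG'] at hnr
        have hle : G' ≤ G := by rw [hG']; exact SimpleGraph.deleteEdges_le _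
        have hac : G'.IsAcyclic := hG.anti hle
        have hbr : ¬ G'.Reachable a b := by
          have := SimpleGraph.isAcyclic_iff_forall_adj_isBridge.mp hG hab
          rw [SimpleGraph.isBridge_iff] at this
          rw [hG']; exact this
        have hcard : G'.edgeSet.ncard < n := by
          rw [← hn]
          apply Set.ncard_lt_ncard _ (Set.toFinite _)
          refine ⟨SimpleGraph.edgeSet_mono hle, fun hcon => ?_⟩
          have h1 : s(a, b) ∈ G'.edgeSet := hcon hab
          rw [hG', SimpleGraph.edgeSet_deleteEdges] at h1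
          exact h1.2 rfl
        have hlift' : ∀ a b, G'.Adj a b → ∀ x, mem a x → ∃ x', mem b x' ∧ R x x' :=
          fun a b h => hlift a b (hle h)
        obtain ⟨s1, h11, h12, h13⟩ := ih _ hcard G' hac rfl hlift' v0 x0 hx0
        obtain ⟨xb, hxb, hRb⟩ := hlift a b hab (s1 a) (h11 a)
        obtain ⟨s2, h21, h22, h23⟩ := ih _ hcard G' hac rfl hlift' b xb hxb
        have hbb : G'.Reachable b b := SimpleGraph.Reachable.refl b
        have hba : ¬ G'.Reachable b a := fun h => hbr h.symm
        refine ⟨fun v => if G'.Reachable b v then s2 v else s1 v, ?_, ?_, ?_⟩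
        · intro v
          beta_reduce
          split_ifs
          · exact h21 v
          · exact h11 v
        · intro u v huv
          beta_reduce
          by_cases he : s(u, v) = s(a, b)
          · rw [Sym2.eq_iff] at he
            rcases he with ⟨rfl, rfl⟩ | ⟨rfl, rfl⟩
            · rw [if_neg hba, if_pos hbb, h23]
              exact hRb
            · rw [if_pos hbb, if_neg hba, h23]
              exact hR _ _ hRb
          · have hadj : G'.Adj u v := by
              rw [hG', SimpleGraph.deleteEdges_adj]
              exact ⟨huv, he⟩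
            have hiff : G'.Reachable b u ↔ G'.Reachable b v :=
              ⟨fun h => h.trans hadj.reachable, fun h => h.trans hadj.symm.reachable⟩
            by_cases hu : G'.Reachable b u
            · rw [if_pos hu, if_pos (hiff.mp hu)]
              exact h22 u v hadj
            · rw [if_neg hu, if_neg (fun h => hu (hiff.mpr h))]
              exact h12 u v hadj
        · beta_reduce
          rw [if_neg hnr]
          exact h13
      by_cases h1 : (G.deleteEdges {s(a', b')}).Reachable b' v0
      · apply key b' a' hab'.symm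
        rw [Sym2.eq_swap]
        intro h2
        have := SimpleGraph.isAcyclic_iff_forall_adj_isBridge.mp hG hab'
        rw [SimpleGraph.isBridge_iff] at this
        exact this (h2.trans h1.symm)
      · exact key a' b' hab' h1
    · choose s hs using hne
      refine ⟨Function.update s v0 x0, ?_, fun a b hab => absurd ⟨a, b, hab⟩ hedge, ?_⟩
      · intro v
        by_cases hv : v = v0
        · subst hv; rw [Function.update_self]; exact hx0
        · rw [Function.update_of_ne hv]; exact hs v
      · rw [Function.update_self]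

/-- sections over a forest -/
theorem forestSection {V F : Type} [Finite V] (G : SimpleGraph V) (hG : G.IsAcyclic)
    (mem : V → F → Prop) (R : F → F → Prop) (hR : ∀ x y, R x y → R y x)
    (hne : ∀ v, ∃ x, mem v x)
    (hlift : ∀ a b, G.Adj a b → ∀ x, mem a x → ∃ x', mem b x' ∧ R x x') :
    ∃ s : V → F, (∀ v, mem v (s v)) ∧ ∀ a b, G.Adj a b → R (s a) (s b) := by
  by_cases hV : Nonempty V
  · obtain ⟨v0⟩ := hV
    obtain ⟨x0, hx0⟩ := hne v0
    obtain ⟨s, h1, h2, -⟩ := forestInd_10793 mem R hR hne _ G hG rfl hlift v0 x0 hx0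
    exact ⟨s, h1, h2⟩
  · exact ⟨fun v => absurd ⟨v⟩ hV, fun v => absurd ⟨v⟩ hV, fun a => absurd ⟨a⟩ hV⟩


end Pool.Agent.Helper475.OC.M19
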