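import Pool.Agent.Helper475.OCBase

set_option autoImplicit false

namespace Pool.Agent.Helper475.OC.M20

open Pool.Agent.Helper475.OC
open Set Topology


/-- the real valued map given by an approximate section over the nerve -/
theorem nerveMap {X Y V : Type} [MetricSpace Y] [CompactSpace Y] [Finite V]
    (π : X → Y) (p : X → T) (η : ℝ) (hη : 0 < η) (W : V → Set Y) (hWo : ∀ a, IsOpen (W a))
    (hcov : ∀ y, ∃ a, y ∈ W a) (hne : ∀ a, W a ≠ univ) (ε1 ε2 : ℝ)
    (hsmall : ∀ a, ∀ y ∈ W a, ∀ y' ∈ W a, dist y y' < ε2)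
    (y0 : V → Y) (x0 : V → X) (g : V → ℝ)
    (hx : ∀ v, (W v).Nonempty → y0 v ∈ W v ∧ π (x0 v) = y0 v ∧ p (x0 v) = ((g v : ℝ) : T))
    (hg : ∀ a b, (nerve W).Adj a b → |g a - g b| < η)
    (hclose : ∀ x x' : X, ∀ v v' : ℝ, p x = ((v : ℝ) : T) → p x' = ((v' : ℝ) : T) →
      |v - v'| < 2 * η → dist (π x) (π x') < ε1) :
    ∃ ψ : Y → ℝ, Continuous ψ ∧ ∀ y y', ψ y = ψ y' → dist y y' < ε1 + 2 * ε2 := by
  classical
  have : Fintype V := Fintype.ofFinite V
  have hf0 : ∀ a y, 0 ≤ Metric.infDist y (W a)ᶜ := fun a y => Metric.infDist_nonneg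
  have hfpos : ∀ a y, y ∈ W a ↔ 0 < Metric.infDist y (W a)ᶜ := by
    intro a y
    have hne' : ((W a)ᶜ).Nonempty := Set.nonempty_compl.2 (hne a)
    rw [← (hWo a).isClosed_compl.notMem_iff_infDist_pos hne']
    simp
  have hS : ∀ y, 0 < ∑ a, Metric.infDist y (W a)ᶜ := by
    intro y
    obtain ⟨a, ha⟩ := hcov y
    exact Finset.sum_pos' (fun b _ => hf0 b y) ⟨a, Finset.mem_univ _, (hfpos a y).1 ha⟩
  have hcont : ∀ a, Continuous fun y => Metric.infDist y (W a)ᶜ := fun a =>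
    Metric.continuous_infDist_pt _
  let ψ : Y → ℝ := fun y => (∑ a, Metric.infDist y (W a)ᶜ * g a) / ∑ a, Metric.infDist y (W a)ᶜ
  have hψ : Continuous ψ := by
    apply Continuous.div
    · exact continuous_finset_sum _ fun a _ => (hcont a).mul continuous_const
    · exact continuous_finset_sum _ fun a _ => hcont a
    · intro y; exact (hS y).ne'
  have hclose2 : ∀ a y, y ∈ W a → |ψ y - g a| < η := by
    intro a y ha
    have h1 : ψ y - g a = (∑ b, Metric.infDist y (W b)ᶜ * (g b - g a)) /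
        ∑ b, Metric.infDist y (W b)ᶜ := by
      simp only [ψ, mul_sub, Finset.sum_sub_distrib]
      rw [← Finset.sum_mul, sub_div, mul_div_cancel_left₀ _ (hS y).ne']
    rw [h1, abs_div, abs_of_pos (hS y), div_lt_iff₀ (hS y)]
    have h2 : ∀ b, |Metric.infDist y (W b)ᶜ * (g b - g a)| ≤ η * Metric.infDist y (W b)ᶜ := by
      intro b
      rw [abs_mul, abs_of_nonneg (hf0 b y), mul_comm η]
      rcases (hf0 b y).eq_or_lt with h | h
      · rw [← h]; simp
      · have hb : y ∈ W b := (hfpos b y).2 h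
        apply mul_le_mul_of_nonneg_left _ h.le
        by_cases hba : b = a
        · subst hba; simpa using hη.le
        · exact (hg b a ⟨hba, ⟨y, hb, ha⟩⟩).le
    calc |∑ b, Metric.infDist y (W b)ᶜ * (g b - g a)|
        ≤ ∑ b, |Metric.infDist y (W b)ᶜ * (g b - g a)| := Finset.abs_sum_le_sum_abs _ _
      _ < ∑ b, η * Metric.infDist y (W b)ᶜ := by
          apply Finset.sum_lt_sum (fun b _ => h2 b)
          refine ⟨a, Finset.mem_univ _, ?_⟩
          simp only [sub_self, mul_zero, abs_zero]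
          exact mul_pos hη ((hfpos a y).1 ha)
      _ = η * ∑ b, Metric.infDist y (W b)ᶜ := by rw [Finset.mul_sum]
  refine ⟨ψ, hψ, ?_⟩
  intro y y' hyy
  obtain ⟨a, ha⟩ := hcov y
  obtain ⟨b, hb⟩ := hcov y'
  have e1 := hclose2 a y ha
  have e2 := hclose2 b y' hb
  obtain ⟨ha1, ha2, ha3⟩ := hx a ⟨y, ha⟩
  obtain ⟨hb1, hb2, hb3⟩ := hx b ⟨y', hb⟩
  have h3 : |g a - g b| < 2 * η := by
    rw [hyy] at e1
    rw [abs_lt] at e1 e2 ⊢
    constructor <;> linarith [e1.1, e1.2, e2.1, e2.2]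
  have h4 := hclose (x0 a) (x0 b) (g a) (g b) ha3 hb3 h3
  rw [ha2, hb2] at h4
  have h5 := hsmall a y ha (y0 a) ha1
  have h6 := hsmall b (y0 b) hb1 y' hb
  calc dist y y' ≤ dist y (y0 a) + dist (y0 a) (y0 b) + dist (y0 b) y' := dist_triangle4 _ _ _ _
    _ < ε1 + 2 * ε2 := by linarith


end Pool.Agent.Helper475.OC.M20
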