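import Pool.Agent.Helper475.OCBase

set_option autoImplicit false

namespace Pool.Agent.Helper475.OC.M21

open Pool.Agent.Helper475.OC
open Set Topology


/-- properties of the links -/
theorem Ulink_props {X : Type} [MetricSpace X] [CompactSpace X] (p : X → T) (hp : Continuous p)
    (hs : Function.Surjective p) :
    (∀ N : ℕ, 0 < N → ∀ k, IsOpen (Ulink p N k)) ∧
    (∀ N : ℕ, 0 < N → ∀ k, (Ulink p N k).Nonempty) ∧
    (∀ N : ℕ, 0 < N → ∀ x, ∃ k, x ∈ Ulink p N k) ∧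
    ∀ δ : ℝ, (∀ x x', p x = p x' → dist x x' < δ) →
      ∃ N₀ : ℕ, 0 < N₀ ∧ ∀ N ≥ N₀, ∀ k, ∀ x ∈ Ulink p N k, ∀ x' ∈ Ulink p N k, dist x x' < δ := by
  refine ⟨?_, ?_, ?_, ?_⟩
  · intro N hN k
    have h1 : Ulink p N k = p ⁻¹' ((fun v : ℝ => (v : T)) ''
        (⋃ m : ℤ, ⋃ _ : (m : ZMod N) = k, {v : ℝ | |(N : ℝ) * v - m| < 1})) := by
      ext x
      constructor
      · rintro ⟨v, hv, m, hm, hvm⟩
        exact ⟨v, mem_iUnion.mpr ⟨m, mem_iUnion.mpr ⟨hm, hvm⟩⟩, hv.symm⟩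
      · rintro ⟨v, hv, hvx⟩
        obtain ⟨m, hm⟩ := mem_iUnion.mp hv
        obtain ⟨hm1, hm2⟩ := mem_iUnion.mp hm
        exact ⟨v, hvx.symm, m, hm1, hm2⟩
    rw [h1]
    refine IsOpen.preimage hp (QuotientAddGroup.isOpenMap_coe _ ?_)
    refine isOpen_iUnion (fun m => isOpen_iUnion (fun _ => ?_))
    exact isOpen_lt (by fun_prop) continuous_const
  · intro N hN k
    haveI : NeZero N := ⟨hN.ne'⟩
    obtain ⟨x, hx⟩ := hs (((k.val : ℝ) / N : ℝ) : T)
    refine ⟨x, (k.val : ℝ) / N, hx, (k.val : ℤ), ?_, ?_⟩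
    · rw [Int.cast_natCast, ZMod.natCast_zmod_val]
    · have hN0 : (N : ℝ) ≠ 0 := by exact_mod_cast hN.ne'
      have : (N : ℝ) * ((k.val : ℝ) / N) - ((k.val : ℤ) : ℝ) = 0 := by
        push_cast
        field_simp
        ring
      rw [this, abs_zero]
      exact one_pos
  · intro N hN x
    obtain ⟨v, hv⟩ := QuotientAddGroup.mk_surjective (p x)
    refine ⟨((⌊(N : ℝ) * v⌋ : ℤ) : ZMod N), v, hv.symm, ⌊(N : ℝ) * v⌋, rfl, ?_⟩
    have h1 := Int.floor_le ((N : ℝ) * v)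
    have h2 := Int.lt_floor_add_one ((N : ℝ) * v)
    rw [abs_lt]
    constructor <;> linarith
  · intro δ hδ
    obtain ⟨η, hη, hηK⟩ : ∃ η, 0 < η ∧ ∀ x x', dist (p x) (p x') < η → dist x x' < δ := by
      have hK : IsCompact {z : X × X | δ ≤ dist z.1 z.2} :=
        (isClosed_le continuous_const continuous_dist).isCompact
      obtain ⟨η, hη, h⟩ := hK.exists_forall_le' (f := fun z : X × X => dist (p z.1) (p z.2))
        (a := 0) (by fun_prop) (by
          intro z hz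
          apply dist_pos.mpr
          intro hpz
          exact absurd (hδ _ _ hpz) (not_lt.mpr hz))
      refine ⟨η, hη, fun x x' hxx => ?_⟩
      by_contra hcon
      push Not at hcon
      exact absurd hxx (not_lt.mpr (h (x, x') hcon))
    obtain ⟨N₀, hN₀⟩ := exists_nat_gt (2 / η)
    have hN₀pos : 0 < N₀ := by
      have h1 : (0 : ℝ) < N₀ := lt_trans (by positivity) hN₀
      exact_mod_cast h1
    refine ⟨N₀, hN₀pos, ?_⟩
    rintro N hN k x ⟨v, hv, m, hm, hvm⟩ x' ⟨v', hv', m', hm', hvm'⟩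
    apply hηK
    have hNpos : (0 : ℝ) < N := by
      have h1 : 0 < N := lt_of_lt_of_le hN₀pos hN
      exact_mod_cast h1
    have h3 : ((m - m' : ℤ) : ZMod N) = 0 := by
      push_cast
      rw [hm, hm', sub_self]
    rw [ZMod.intCast_zmod_eq_zero_iff_dvd] at h3
    obtain ⟨j, hj⟩ := h3
    have hjR : (m : ℝ) - m' = N * j := by exact_mod_cast hj
    rw [dist_eq_norm, hv, hv', ← AddCircle.coe_sub, UnitAddCircle.norm_eq]
    refine lt_of_le_of_lt (round_le (v - v') j) ?_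
    have h4 : |(N : ℝ) * (v - v' - j)| < 2 := by
      have h5 := abs_lt.mp hvm
      have h6 := abs_lt.mp hvm'
      rw [abs_lt]
      constructor <;> nlinarith
    rw [abs_mul, abs_of_pos hNpos] at h4
    have h7 : 2 / η < N := lt_of_lt_of_le hN₀ (by exact_mod_cast hN)
    rw [div_lt_iff₀ hη] at h7
    by_contra hcon
    push Not at hcon
    have := mul_le_mul_of_nonneg_left hcon hNpos.le
    linarith


end Pool.Agent.Helper475.OC.M21
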