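import Pool.Agent.Helper475.OCBase

set_option autoImplicit false

namespace Pool.Agent.Helper475.OC.M26

open Pool.Agent.Helper475.OC
open Set Topology


theorem thicken_one {Y : Type} [MetricSpace Y] [CompactSpace Y] (A B C : Set Y)
    (hA : IsClosed A) (hB : IsClosed B) (hC : IsClosed C)
    (hnt : ∀ y, y ∈ A → y ∈ B → y ∈ C → False) :
    ∃ δ : ℝ, 0 < δ ∧ ∀ y y1 y2 y3 : Y,
      y1 ∈ A → y2 ∈ B → y3 ∈ C → dist y y1 < δ → dist y y2 < δ → dist y y3 < δ → False := by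
  by_cases hne : A.Nonempty ∧ B.Nonempty ∧ C.Nonempty
  · obtain ⟨hAn, hBn, hCn⟩ := hne
    have hcont : Continuous (fun y : Y => Metric.infDist y A + Metric.infDist y B +
        Metric.infDist y C) :=
      ((Metric.continuous_infDist_pt A).add (Metric.continuous_infDist_pt B)).add
        (Metric.continuous_infDist_pt C)
    obtain ⟨y0, -, hy0⟩ := isCompact_univ.exists_isMinOn (⟨hAn.some, Set.mem_univ _⟩ :
      (Set.univ : Set Y).Nonempty) hcont.continuousOn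
    have hpos : 0 < Metric.infDist y0 A + Metric.infDist y0 B + Metric.infDist y0 C := by
      have h1 : 0 ≤ Metric.infDist y0 A := Metric.infDist_nonneg
      have h2 : 0 ≤ Metric.infDist y0 B := Metric.infDist_nonneg
      have h3 : 0 ≤ Metric.infDist y0 C := Metric.infDist_nonneg
      by_contra hcon
      push Not at hcon
      have e1 : Metric.infDist y0 A = 0 := by linarith
      have e2 : Metric.infDist y0 B = 0 := by linarith
      have e3 : Metric.infDist y0 C = 0 := by linarith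
      exact hnt y0 ((hA.mem_iff_infDist_zero hAn).2 e1) ((hB.mem_iff_infDist_zero hBn).2 e2)
        ((hC.mem_iff_infDist_zero hCn).2 e3)
    refine ⟨(Metric.infDist y0 A + Metric.infDist y0 B + Metric.infDist y0 C) / 3,
      by positivity, ?_⟩
    intro y y1 y2 y3 h1 h2 h3 d1 d2 d3
    have g1 := Metric.infDist_le_dist_of_mem (x := y) h1
    have g2 := Metric.infDist_le_dist_of_mem (x := y) h2
    have g3 := Metric.infDist_le_dist_of_mem (x := y) h3
    have hm := hy0 (Set.mem_univ y)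
    simp only [Set.mem_setOf_eq] at hm
    linarith
  · refine ⟨1, one_pos, ?_⟩
    intro y y1 y2 y3 h1 h2 h3 _ _ _
    exact hne ⟨⟨y1, h1⟩, ⟨y2, h2⟩, ⟨y3, h3⟩⟩

theorem exists_pos_le {ι : Type} [Finite ι] (f : ι → ℝ) (hf : ∀ i, 0 < f i) :
    ∃ δ : ℝ, 0 < δ ∧ ∀ i, δ ≤ f i := by
  rcases isEmpty_or_nonempty ι with h | h
  · exact ⟨1, one_pos, fun i => (h.false i).elim⟩
  · obtain ⟨i0, hi0⟩ := Finite.exists_min f
    exact ⟨f i0, hf i0, hi0⟩

/-- thickening a closed family without triple intersections -/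
theorem thicken {Y : Type} [MetricSpace Y] [CompactSpace Y] (n : ℕ) (F : Fin n → Set Y)
    (hF : ∀ i, IsClosed (F i)) (hnt : NoTriple F) :
    ∃ δ : ℝ, 0 < δ ∧ ∀ i j k : Fin n, i ≠ j → j ≠ k → i ≠ k → ∀ y y1 y2 y3 : Y,
      y1 ∈ F i → y2 ∈ F j → y3 ∈ F k → dist y y1 < δ → dist y y2 < δ → dist y y3 < δ → False := by
  have h : ∀ t : Fin n × Fin n × Fin n, ∃ δ : ℝ, 0 < δ ∧
      (t.1 ≠ t.2.1 → t.2.1 ≠ t.2.2 → t.1 ≠ t.2.2 → ∀ y y1 y2 y3 : Y,
        y1 ∈ F t.1 → y2 ∈ F t.2.1 → y3 ∈ F t.2.2 → dist y y1 < δ → dist y y2 < δ →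
          dist y y3 < δ → False) := by
    rintro ⟨i, j, k⟩
    by_cases hd : i ≠ j ∧ j ≠ k ∧ i ≠ k
    · obtain ⟨δ, h0, h1⟩ := thicken_one (F i) (F j) (F k) (hF i) (hF j) (hF k)
        (fun y a b c => hnt i j k hd.1 hd.2.1 hd.2.2 y a b c)
      exact ⟨δ, h0, fun _ _ _ => h1⟩
    · exact ⟨1, one_pos, fun a b c => (hd ⟨a, b, c⟩).elim⟩
  choose δ h0 h1 using h
  obtain ⟨ε, hε, hle⟩ := exists_pos_le δ h0
  refine ⟨ε, hε, ?_⟩
  intro i j k hij hjk hik y y1 y2 y3 m1 m2 m3 d1 d2 d3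
  exact h1 (i, j, k) hij hjk hik y y1 y2 y3 m1 m2 m3 (d1.trans_le (hle _)) (d2.trans_le (hle _))
    (d3.trans_le (hle _))


end Pool.Agent.Helper475.OC.M26
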