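import Pool.Agent.Helper475.OCCaseI
import Pool.Agent.Helper475.OCJ13
import Pool.Agent.Helper475.OCJ14
import Pool.Agent.Helper475.OCJ15
import Pool.Agent.Helper475.OCJ16
import Pool.Agent.Helper475.OCJ17
import Pool.Agent.Helper475.OCJ18
import Pool.Agent.Helper475.OCJ19
import Pool.Agent.Helper475.OCJ20
import Pool.Agent.Helper475.OCJ21
import Pool.Agent.Helper475.OCJ22
import Pool.Agent.Helper475.OCJ26

set_option autoImplicit false

namespace Pool.Agent.Helper475.OC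

open Set Topology

section

variable {X Y : Type} [MetricSpace X] [CompactSpace X] [MetricSpace Y] [CompactSpace Y]

/-- small closed bricks -/
theorem oneDim [Nontrivial Y] (π : X → Y) (hc : Continuous π)
    (hs : Function.Surjective π) (ho : IsOpenMap π) (hX : CL X) (ε : ℝ) (hε : 0 < ε) :
    ∃ (n : ℕ) (F : Fin n → Set Y), (∀ i, IsClosed (F i)) ∧ (∀ y, ∃ i, y ∈ F i) ∧
      (∀ i, ∀ y ∈ F i, ∀ y' ∈ F i, dist y y' < ε) ∧ NoTriple F := by
  obtain ⟨y0⟩ : Nonempty Y := inferInstance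
  have hρ : (0 : ℝ) < ε / 9 := by positivity
  obtain ⟨ψ, hψ, h01, hsm⟩ := M13.psiE π hc hs ho hX
    (fun E hE w hw => M1.fiberMinOn π hc hs ho E hE w hw) y0 (ε / 9) (ε / 9) hρ hρ
  exact M14.bricks y0 (ε / 9) ε hρ (by linarith) ψ hψ h01 hsm

/-- the case when `Y` has no essential map to the circle -/
theorem caseII [ConnectedSpace X] [Nontrivial Y] (π : X → Y) (hc : Continuous π)
    (hs : Function.Surjective π) (ho : IsOpenMap π) (hX : CL X)
    (ε₀ : ℝ) (hε₀ : 0 < ε₀)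
    (hNL : ∀ p : X → T, Continuous p → Function.Surjective p →
      (∀ x x', p x = p x' → dist x x' < ε₀) → ¬ Lifts p)
    (hH : ∀ φ : Y → T, Continuous φ → Lifts φ) (ε : ℝ) (hε : 0 < ε) :
    ∃ ψ : Y → ℝ, Continuous ψ ∧ ∀ y y', ψ y = ψ y' → dist y y' < ε := by
  classical
  have huc : UniformContinuous π := CompactSpace.uniformContinuous_of_continuous hc
  obtain ⟨δπ, hδπ, hπε⟩ := Metric.uniformContinuous_iff.mp huc (ε / 3) (by positivity)
  obtain ⟨p, hp, hps, hpf⟩ := hX δπ hδπ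
  obtain ⟨η1, hη1, hη2⟩ := M22.arcModulus p hp δπ hpf
  have hη : (0 : ℝ) < η1 / 2 := by positivity
  obtain ⟨δ, hδ, hlift⟩ := M22.liftNear p hp (η1 / 2) hη
  obtain ⟨δ', hδ', hopen⟩ := M22.openModulus π hc ho δ hδ
  obtain ⟨ya, yb, hab⟩ := exists_pair_ne Y
  have hdab : 0 < dist ya yb := dist_pos.mpr hab
  set ε2 := min (min (δ' / 2) (ε / 3)) (dist ya yb / 2) with hε2d
  have hε2 : 0 < ε2 := by positivity
  have hε2a : ε2 ≤ δ' / 2 := (min_le_left _ _).trans (min_le_left _ _)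
  have hε2b : ε2 ≤ ε / 3 := (min_le_left _ _).trans (min_le_right _ _)
  have hε2c : ε2 ≤ dist ya yb / 2 := min_le_right _ _
  obtain ⟨n, F, hFc, hFcov, hFsm, hFnt⟩ := oneDim π hc hs ho hX (ε2 / 3) (by positivity)
  obtain ⟨δ3, hδ3, hthick⟩ := M26.thicken n F hFc hFnt
  set δ4 := min δ3 (ε2 / 3) with hδ4d
  have hδ4 : 0 < δ4 := by positivity
  obtain ⟨δ5, hδ5, hπ5⟩ := Metric.uniformContinuous_iff.mp huc δ4 hδ4
  obtain ⟨q, hq, hqs, hqf⟩ := hX (min δ5 ε₀) (by positivity)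
  have hqnl : ¬ Lifts q := hNL q hq hqs fun x x' h => (hqf x x' h).trans_le (min_le_right _ _)
  obtain ⟨hUo, hUn, hUc, hUs⟩ := M21.Ulink_props q hq hqs
  obtain ⟨N, hN0, hNs⟩ := hUs δ5 fun x x' h => (hqf x x' h).trans_le (min_le_left _ _)
  haveI : NeZero N := ⟨hN0.ne'⟩
  set U : ZMod N → Set X := Ulink q N with hUd
  have hch : ChainProp U := M15.chainProp_of_not_lifts q hq hqnl N hN0
  -- the first partition
  have hpick : ∀ k : ZMod N, ∃ i : Fin n, ∃ x ∈ U k, π x ∈ F i := by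
    intro k
    obtain ⟨x, hx⟩ := hUn N hN0 k
    obtain ⟨i, hi⟩ := hFcov (π x)
    exact ⟨i, x, hx, hi⟩
  choose f xf hxf hxfF using hpick
  let κ₀ : ZMod N → ZMod N := fun k => Function.invFun f (f k)
  have hfκ : ∀ k, f (κ₀ k) = f k := fun k => Function.invFun_eq ⟨k, rfl⟩
  have hκf : ∀ j k, κ₀ j = κ₀ k → f j = f k := by
    intro j k h
    rw [← hfκ j, h, hfκ k]
  -- points of the classes are close to the brick
  have hnear : ∀ k, ∀ x ∈ U k, dist (π x) (π (xf k)) < δ4 := by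
    intro k x hx
    exact hπ5 (hNs N le_rfl k x hx (xf k) (hxf k))
  have hWsm : ∀ a, ∀ y ∈ Wset π U κ₀ a, ∀ y' ∈ Wset π U κ₀ a, dist y y' < ε2 := by
    rintro a y ⟨k, hk, x, hx, rfl⟩ y' ⟨k', hk', x', hx', rfl⟩
    have h1 := hnear k x hx
    have h2 := hnear k' x' hx'
    have h3 : f k = f k' := hκf k k' (hk.trans hk'.symm)
    have h4 : dist (π (xf k)) (π (xf k')) < ε2 / 3 :=
      hFsm (f k) _ (hxfF k) _ (by rw [h3]; exact hxfF k')
    have h5 : dist (π x) (π x') ≤ dist (π x) (π (xf k)) + dist (π (xf k)) (π (xf k')) +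
        dist (π (xf k')) (π x') := dist_triangle4 _ _ _ _
    rw [dist_comm (π (xf k')) (π x')] at h5
    have h6 : δ4 ≤ ε2 / 3 := min_le_right _ _
    linarith
  have hnt₀ : NoTriple (Wset π U κ₀) := by
    rintro a b c hab' hbc hac y ⟨k1, hk1, x1, hx1, hy1⟩ ⟨k2, hk2, x2, hx2, hy2⟩
      ⟨k3, hk3, x3, hx3, hy3⟩
    have hd : ∀ j k, κ₀ j ≠ κ₀ k → f j ≠ f k := by
      intro j k h h'
      apply h
      show Function.invFun f (f j) = Function.invFun f (f k)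
      rw [h']
    have h6 : δ4 ≤ δ3 := min_le_left _ _
    apply hthick (f k1) (f k2) (f k3) (hd _ _ (by rw [hk1, hk2]; exact hab'))
      (hd _ _ (by rw [hk2, hk3]; exact hbc)) (hd _ _ (by rw [hk1, hk3]; exact hac)) y
      (π (xf k1)) (π (xf k2)) (π (xf k3)) (hxfF k1) (hxfF k2) (hxfF k3)
    · rw [← hy1]; exact (hnear k1 x1 hx1).trans_le h6
    · rw [← hy2]; exact (hnear k2 x2 hx2).trans_le h6
    · rw [← hy3]; exact (hnear k3 x3 hx3).trans_le h6
  have hne_of_small : ∀ S : Set Y, (∀ y ∈ S, ∀ y' ∈ S, dist y y' < ε2) → S ≠ univ := by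
    rintro S hS rfl
    have := hS ya (mem_univ _) yb (mem_univ _)
    linarith
  have hu₀ : ∀ a, Wset π U κ₀ a ≠ univ := fun a => hne_of_small _ (hWsm a)
  have hWopen : ∀ κ : ZMod N → ZMod N, ∀ a, IsOpen (Wset π U κ a) := by
    intro κ a
    have : Wset π U κ a = ⋃ k ∈ {k | κ k = a}, π '' (U k) := by
      ext y
      simp [Wset]
    rw [this]
    exact isOpen_biUnion fun k _ => ho _ (hUo N hN0 k)
  have hWcov : ∀ κ : ZMod N → ZMod N, ∀ y, ∃ a, y ∈ Wset π U κ a := by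
    intro κ y
    obtain ⟨x, rfl⟩ := hs y
    obtain ⟨k, hk⟩ := hUc N hN0 x
    exact ⟨κ k, k, rfl, x, hk, rfl⟩
  obtain ⟨κ, hκ, hnt, hac⟩ := M18.refineAcyclic π U (fun κ hnt hu hcyc =>
    M17.refineStep π hc U (hUn N hN0) hch hH κ hnt hcyc
      (fun a1 a2 h12 => M16.edgeClass (Wset π U κ) (hWopen κ) (hWcov κ) hu hnt a1 a2 h12))
    κ₀ hnt₀ hu₀
  have hWsm' : ∀ a, ∀ y ∈ Wset π U κ a, ∀ y' ∈ Wset π U κ a, dist y y' < ε2 := by
    rintro a y ⟨k, hk, hy⟩ y' ⟨k', hk', hy'⟩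
    exact hWsm (κ₀ k) y ⟨k, rfl, hy⟩ y' ⟨k', (hκ k k' (hk.trans hk'.symm)).symm, hy'⟩
  -- sections
  have hpt : ∀ a : ZMod N, ∃ y : Y, (Wset π U κ a).Nonempty → y ∈ Wset π U κ a := by
    intro a
    by_cases h : (Wset π U κ a).Nonempty
    · exact ⟨h.some, fun _ => h.some_mem⟩
    · exact ⟨ya, fun h' => absurd h' h⟩
  choose y0 hy0 using hpt
  obtain ⟨s, hs1, hs2⟩ := M19.forestSection (nerve (Wset π U κ)) hac
    (fun a (z : X × ℝ) => π z.1 = y0 a ∧ p z.1 = ((z.2 : ℝ) : T))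
    (fun z z' => |z.2 - z'.2| < η1 / 2) (fun z z' h => by rwa [abs_sub_comm])
    (fun a => by
      obtain ⟨x, hx⟩ := hs (y0 a)
      obtain ⟨v, hv⟩ := QuotientAddGroup.mk_surjective (p x)
      exact ⟨(x, v), hx, hv.symm⟩)
    (by
      rintro a b hadj ⟨x, v⟩ ⟨hx, hv⟩
      obtain ⟨hne, w, hwa, hwb⟩ := hadj
      have h1 : dist (y0 a) w < ε2 := hWsm' a _ (hy0 a ⟨w, hwa⟩) _ hwa
      have h2 : dist w (y0 b) < ε2 := hWsm' b _ hwb _ (hy0 b ⟨w, hwb⟩)
      have h3 : dist (π x) (y0 b) < δ' := by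
        have h3' : π x = y0 a := hx
        rw [h3']
        have := dist_triangle (y0 a) w (y0 b)
        linarith
      obtain ⟨x', hx', hxx⟩ := hopen x (y0 b) h3
      obtain ⟨v', hv', hvv⟩ := hlift x x' hxx v hv
      exact ⟨(x', v'), ⟨hx', hv'⟩, hvv⟩)
  obtain ⟨ψ, hψ, hψ2⟩ := M20.nerveMap π p (η1 / 2) hη (Wset π U κ) (hWopen κ) (hWcov κ)
    (fun a => hne_of_small _ (hWsm' a)) (ε / 3) ε2 hWsm' y0 (fun a => (s a).1)
    (fun a => (s a).2) (fun a h => ⟨hy0 a h, (hs1 a).1, (hs1 a).2⟩)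
    (fun a b h => hs2 a b h)
    (fun x x' v v' h1 h2 h3 => hπε (hη2 x x' v v' h1 h2 (by linarith)))
  exact ⟨ψ, hψ, fun y y' h => (hψ2 y y' h).trans_le (by linarith)⟩

end

end Pool.Agent.Helper475.OC
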