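import Pool.Agent.Helper475.OCBase

set_option autoImplicit false

namespace Pool.Agent.Helper475.OC.M25

open Pool.Agent.Helper475.OC
open Set Topology


/-- the conclusion of the problem from circle valued maps with small fibres -/
theorem conclude {Y : Type} [MetricSpace Y] [CompactSpace Y] [ConnectedSpace Y] [Nontrivial Y]
    (h : ∀ ε : ℝ, 0 < ε → ∃ Ψ : Y → T, Continuous Ψ ∧ ∀ y y', Ψ y = Ψ y' → dist y y' < ε) :
    (∀ ε : ℝ, 0 < ε → ∃ f : Y → Circle, Continuous f ∧ Function.Surjective f ∧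
        ∀ z : Circle, Metric.diam (f ⁻¹' {z}) < ε) ∨
    (∀ ε : ℝ, 0 < ε → ∃ f : Y → unitInterval, Continuous f ∧ Function.Surjective f ∧
        ∀ t : unitInterval, Metric.diam (f ⁻¹' {t}) < ε) := by
  by_cases hC : ∀ ε : ℝ, 0 < ε → ∃ f : Y → Circle, Continuous f ∧ Function.Surjective f ∧
        ∀ z : Circle, Metric.diam (f ⁻¹' {z}) < ε
  · exact Or.inl hC
  right
  push Not at hC
  obtain ⟨ε0, hε0, hno⟩ := hC
  intro ε hε
  obtain ⟨a, b, hab⟩ := exists_pair_ne Y
  have hdab : 0 < dist a b := dist_pos.2 hab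
  obtain ⟨δ, hδ, hδε, hδε0, hδab⟩ : ∃ δ : ℝ, 0 < δ ∧ δ < ε ∧ δ < ε0 ∧ δ < dist a b := by
    refine ⟨min (min ε ε0) (dist a b) / 2, by positivity, ?_, ?_, ?_⟩
    · have h1 : min (min ε ε0) (dist a b) ≤ ε := (min_le_left _ _).trans (min_le_left _ _)
      linarith [lt_min (lt_min hε hε0) hdab]
    · have h1 : min (min ε ε0) (dist a b) ≤ ε0 := (min_le_left _ _).trans (min_le_right _ _)
      linarith [lt_min (lt_min hε hε0) hdab]
    · have h1 : min (min ε ε0) (dist a b) ≤ dist a b := min_le_right _ _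
      linarith [lt_min (lt_min hε hε0) hdab]
  obtain ⟨Ψ, hΨc, hΨ⟩ := h δ hδ
  -- `Ψ` is not surjective
  have hns : ∃ t0 : T, ∀ y, Ψ y ≠ t0 := by
    by_contra hs
    push Not at hs
    let c : T ≃ₜ Circle := AddCircle.homeomorphCircle (one_ne_zero)
    obtain ⟨z, hz⟩ := hno (fun y => c (Ψ y)) (c.continuous.comp hΨc) (by
      intro z
      obtain ⟨y, hy⟩ := hs (c.symm z)
      exact ⟨y, by simp only [hy, Homeomorph.apply_symm_apply]⟩)
    have h1 : Metric.diam ((fun y => c (Ψ y)) ⁻¹' {z}) ≤ δ := by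
      refine Metric.diam_le_of_forall_dist_le hδ.le ?_
      intro y hy y' hy'
      have e1 : c (Ψ y) = z := hy
      have e2 : c (Ψ y') = z := hy'
      exact (hΨ y y' (c.injective (e1.trans e2.symm))).le
    linarith
  obtain ⟨t0, ht0⟩ := hns
  let g : Y → ℝ := fun y => (AddCircle.equivIco (1 : ℝ) 0 (Ψ y - t0) : ℝ)
  have hgc : Continuous g := by
    rw [continuous_iff_continuousAt]
    intro y
    have hne : Ψ y - t0 ≠ ((0 : ℝ) : T) := by
      intro h0
      apply ht0 y
      have h1 : Ψ y - t0 = 0 := h0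
      exact sub_eq_zero.1 h1
    have h1 : ContinuousAt (AddCircle.equivIco (1 : ℝ) 0) (Ψ y - t0) :=
      AddCircle.continuousAt_equivIco (1 : ℝ) 0 hne
    have h2 : ContinuousAt (fun y => Ψ y - t0) y := (hΨc.sub continuous_const).continuousAt
    have h3 : ContinuousAt (fun y => AddCircle.equivIco (1 : ℝ) 0 (Ψ y - t0)) y :=
      ContinuousAt.comp (f := fun y => Ψ y - t0) h1 h2
    exact continuous_subtype_val.continuousAt.comp h3
  have hgi : ∀ y y', g y = g y' → Ψ y = Ψ y' := by
    intro y y' hyy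
    have h1 := (AddCircle.equivIco (1 : ℝ) 0).injective (Subtype.ext hyy)
    exact sub_left_injective h1
  obtain ⟨y0, _, hy0⟩ := isCompact_univ.exists_isMinOn (univ_nonempty (α := Y)) hgc.continuousOn
  obtain ⟨y1, _, hy1⟩ := isCompact_univ.exists_isMaxOn (univ_nonempty (α := Y)) hgc.continuousOn
  have hmin : ∀ y, g y0 ≤ g y := fun y => hy0 (mem_univ y)
  have hmax : ∀ y, g y ≤ g y1 := fun y => hy1 (mem_univ y)
  have hlt : g y0 < g y1 := by
    by_contra hle
    have h1 : g a = g b := by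
      have := hmin a
      have := hmin b
      have := hmax a
      have := hmax b
      linarith
    have := hΨ a b (hgi a b h1)
    linarith
  have hpos : 0 < g y1 - g y0 := by linarith
  refine ⟨fun y => ⟨(g y - g y0) / (g y1 - g y0), ?_, ?_⟩, ?_, ?_, ?_⟩
  · exact div_nonneg (by linarith [hmin y]) hpos.le
  · rw [div_le_one hpos]
    linarith [hmax y]
  · exact Continuous.subtype_mk ((hgc.sub continuous_const).div_const _) _
  · rintro ⟨t, ht0', ht1'⟩
    have hmem : g y0 + t * (g y1 - g y0) ∈ Icc (g y0) (g y1) := by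
      constructor
      · have := mul_nonneg ht0' hpos.le
        linarith
      · have := mul_le_mul_of_nonneg_right ht1' hpos.le
        linarith
    obtain ⟨y, hy⟩ := intermediate_value_univ y0 y1 hgc hmem
    refine ⟨y, Subtype.ext ?_⟩
    show (g y - g y0) / (g y1 - g y0) = t
    rw [hy, add_sub_cancel_left, mul_div_cancel_right₀ _ hpos.ne']
  · intro t
    refine lt_of_le_of_lt (Metric.diam_le_of_forall_dist_le hδ.le ?_) hδε
    intro y hy y' hy'
    have e1 : (⟨(g y - g y0) / (g y1 - g y0), _⟩ : unitInterval) = t := hy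
    have e2 : (⟨(g y' - g y0) / (g y1 - g y0), _⟩ : unitInterval) = t := hy'
    have e3 := congrArg Subtype.val (e1.trans e2.symm)
    have e4 : (g y - g y0) / (g y1 - g y0) = (g y' - g y0) / (g y1 - g y0) := e3
    rw [div_left_inj' hpos.ne'] at e4
    exact (hΨ y y' (hgi y y' (by linarith))).le

/-- translation of the hypothesis -/
theorem CL_of_circle {X : Type} [MetricSpace X] [CompactSpace X]
    (h : ∀ ε : ℝ, 0 < ε → ∃ f : X → Circle, Continuous f ∧ Function.Surjective f ∧
        ∀ z : Circle, Metric.diam (f ⁻¹' {z}) < ε) : CL X := by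
  intro ε hε
  obtain ⟨f, hf, hs, hd⟩ := h ε hε
  let c : T ≃ₜ Circle := AddCircle.homeomorphCircle (one_ne_zero)
  refine ⟨fun x => c.symm (f x), c.symm.continuous.comp hf, ?_, ?_⟩
  · intro t
    obtain ⟨x, hx⟩ := hs (c t)
    exact ⟨x, by simp only [hx, Homeomorph.symm_apply_apply]⟩
  · intro x x' hxx
    have e1 : f x = f x' := c.symm.injective hxx
    have hb : Bornology.IsBounded (f ⁻¹' {f x}) := isCompact_univ.isBounded.subset (subset_univ _)
    exact lt_of_le_of_lt (Metric.dist_le_diam_of_mem hb (by simp) (by simp [e1])) (hd (f x))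


end Pool.Agent.Helper475.OC.M25
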