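import Pool.Agent.Helper475.OCCaseI2
import Pool.Agent.Helper475.OCCaseII
import Pool.Agent.Helper475.OCJ25

set_option autoImplicit false

namespace Pool.Agent.Helper475.OC

open Set Topology

/-- a real valued map with small fibres gives a circle valued map with small fibres -/
theorem toCircle {Y : Type} [MetricSpace Y] [CompactSpace Y] (ψ : Y → ℝ) (hψ : Continuous ψ)
    (ε : ℝ) (h : ∀ y y', ψ y = ψ y' → dist y y' < ε) :
    ∃ Ψ : Y → T, Continuous Ψ ∧ ∀ y y', Ψ y = Ψ y' → dist y y' < ε := by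
  obtain ⟨M, hM⟩ := (isCompact_range hψ).isBounded.exists_norm_le
  have hM' : ∀ y, |ψ y| ≤ max M 0 := fun y => (hM _ ⟨y, rfl⟩).trans (le_max_left _ _)
  set C := 4 * (max M 0 + 1) with hC
  have hCp : 0 < C := by positivity
  refine ⟨fun y => ((ψ y / C : ℝ) : T), (AddCircle.continuous_mk' 1).comp (hψ.div_const C), ?_⟩
  intro y y' hyy
  obtain ⟨n, hn⟩ := coe_eq hyy
  have h1 : |ψ y / C| < 1 / 2 := by
    rw [abs_div, abs_of_pos hCp, div_lt_iff₀ hCp]
    have := hM' y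
    rw [hC]
    linarith
  have h2 : |ψ y' / C| < 1 / 2 := by
    rw [abs_div, abs_of_pos hCp, div_lt_iff₀ hCp]
    have := hM' y'
    rw [hC]
    linarith
  have h3 : |(n : ℝ)| < 1 := by
    have e : (n : ℝ) = ψ y / C - ψ y' / C := by rw [hn]; ring
    rw [e]
    rw [abs_lt] at h1 h2 ⊢
    constructor <;> linarith [h1.1, h1.2, h2.1, h2.2]
  have h4 : n = 0 := by
    have : |n| < 1 := by exact_mod_cast h3
    exact Int.abs_lt_one_iff.mp this
  rw [h4] at hn
  apply h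
  field_simp at hn
  simpa using hn

/-- the main theorem -/
theorem main {X Y : Type} [MetricSpace X] [CompactSpace X] [ConnectedSpace X] [MetricSpace Y]
    [CompactSpace Y] [Nontrivial Y] (π : X → Y) (hc : Continuous π)
    (hs : Function.Surjective π) (ho : IsOpenMap π) (hX : CL X) (ε : ℝ) (hε : 0 < ε) :
    ∃ Ψ : Y → T, Continuous Ψ ∧ ∀ y y', Ψ y = Ψ y' → dist y y' < ε := by
  by_cases h0 : ∃ ε₀ : ℝ, 0 < ε₀ ∧ ∀ p : X → T, Continuous p → Function.Surjective p →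
      (∀ x x', p x = p x' → dist x x' < ε₀) → ¬ Lifts p
  · obtain ⟨ε₀, hε₀, hNL⟩ := h0
    by_cases h1 : ∀ φ : Y → T, Continuous φ → Lifts φ
    · obtain ⟨ψ, hψ, hψ2⟩ := caseII π hc hs ho hX ε₀ hε₀ hNL h1 ε hε
      exact toCircle ψ hψ ε hψ2
    · push Not at h1
      obtain ⟨φ₀, hφ₀, hnl⟩ := h1
      exact caseI π hc hs ho hX ε₀ hε₀ hNL φ₀ hφ₀ hnl ε hε
  · push Not at h0
    have huc : UniformContinuous π := CompactSpace.uniformContinuous_of_continuous hc
    obtain ⟨δ, hδ, hπ⟩ := Metric.uniformContinuous_iff.mp huc ε hε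
    obtain ⟨p, hp, hps, hpf, q, hq, hpq⟩ := h0 δ hδ
    obtain ⟨m, hm, hm2⟩ := fiberMin π hc hs ho q hq
    apply toCircle m hm ε
    intro y y' hyy
    obtain ⟨x, hx, hmx⟩ := hm2 y
    obtain ⟨x', hx', hmx'⟩ := hm2 y'
    rw [← hx, ← hx']
    apply hπ
    apply hpf
    rw [hpq x, hpq x', ← hmx, ← hmx', hyy]

end Pool.Agent.Helper475.OC
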