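import Mathlib

set_option autoImplicit false

namespace Pool.Agent.Helper475.RSA1

/-- In a tree a vertex has at most one neighbour closer to `q`. -/
theorem toward_unique {X : Type} {Γ : SimpleGraph X} (hT : Γ.IsTree) (v a b q : X)
    (ha : Γ.Adj v a) (hb : Γ.Adj v b) (hda : Γ.dist v q = Γ.dist a q + 1)
    (hdb : Γ.dist v q = Γ.dist b q + 1) : a = b := by
  obtain ⟨pa, hpa, hla⟩ := hT.1.exists_path_of_dist a q
  obtain ⟨pb, hpb, hlb⟩ := hT.1.exists_path_of_dist b q
  have h1 : (SimpleGraph.Walk.cons ha pa).IsPath := by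
    apply SimpleGraph.Walk.isPath_of_length_eq_dist
    rw [SimpleGraph.Walk.length_cons, hla, hda]
  have h2 : (SimpleGraph.Walk.cons hb pb).IsPath := by
    apply SimpleGraph.Walk.isPath_of_length_eq_dist
    rw [SimpleGraph.Walk.length_cons, hlb, hdb]
  have h3 := hT.2.path_unique ⟨_, h1⟩ ⟨_, h2⟩
  have h4 : (SimpleGraph.Walk.cons ha pa) = (SimpleGraph.Walk.cons hb pb) :=
    congrArg Subtype.val h3
  have h5 := congrArg SimpleGraph.Walk.snd h4
  simpa using h5

/-- No backtracking at `v` (the neighbour `w` of `v` is away from `u` and toward `q`)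
implies that `v` lies between `u` and `q`. -/
theorem concat {X : Type} {Γ : SimpleGraph X} (hT : Γ.IsTree) (u v w q : X)
    (hvw : Γ.Adj v w) (huw : Γ.dist u w = Γ.dist u v + 1)
    (hwq : Γ.dist v q = Γ.dist w q + 1) :
    Γ.dist u q = Γ.dist u v + Γ.dist v q := by
  have key : ∀ n : ℕ, ∀ v w : X, Γ.dist u v = n → Γ.Adj v w → Γ.dist u w = Γ.dist u v + 1 →
      Γ.dist v q = Γ.dist w q + 1 → Γ.dist u q = Γ.dist u v + Γ.dist v q := by
    intro n
    induction n with
    | zero =>
      intro v w h0 _ _ _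
      have huv : u = v := hT.1.dist_eq_zero_iff.1 h0
      subst huv
      simp
    | succ n ih =>
      intro v w hn hvw huw hwq
      obtain ⟨p, hp, hlp⟩ := hT.1.exists_path_of_dist v u
      rw [SimpleGraph.dist_comm] at hlp
      cases p with
      | nil => simp at hn
      | @cons _ v2 _ h p' =>
        rw [SimpleGraph.Walk.length_cons] at hlp
        have h1 : Γ.dist v2 u ≤ p'.length := SimpleGraph.dist_le p'
        have h2 : Γ.dist v u ≤ Γ.dist v v2 + Γ.dist v2 u := hT.1.dist_triangle
        have h3 : Γ.dist v v2 = 1 := SimpleGraph.dist_eq_one_iff_adj.2 h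
        have c1 : Γ.dist v u = Γ.dist u v := SimpleGraph.dist_comm
        have c2 : Γ.dist v2 u = Γ.dist u v2 := SimpleGraph.dist_comm
        have huv2 : Γ.dist u v = Γ.dist u v2 + 1 := by omega
        have hne : v2 ≠ w := by
          rintro rfl
          omega
        have t1 : Γ.dist v q ≤ Γ.dist v v2 + Γ.dist v2 q := hT.1.dist_triangle
        have t2 : Γ.dist v2 q ≤ Γ.dist v2 v + Γ.dist v q := hT.1.dist_triangle
        have c3 : Γ.dist v2 v = Γ.dist v v2 := SimpleGraph.dist_comm
        have hd : Γ.dist q v ≠ Γ.dist q v2 := hT.dist_ne_of_adj q h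
        have c4 : Γ.dist q v = Γ.dist v q := SimpleGraph.dist_comm
        have c5 : Γ.dist q v2 = Γ.dist v2 q := SimpleGraph.dist_comm
        have hv2q : Γ.dist v2 q = Γ.dist v q + 1 := by
          by_contra hcon
          have h6 : Γ.dist v q = Γ.dist v2 q + 1 := by omega
          exact hne (toward_unique hT v v2 w q h hvw h6 hwq)
        have := ih v2 v (by omega) h.symm huv2 hv2q
        omega
  exact key _ v w rfl hvw huw hwq

end Pool.Agent.Helper475.RSA1
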