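import Mathlib

set_option autoImplicit false

namespace Pool.Agent.Helper475.RSA2

/-- distance is preserved by an automorphism -/
theorem midpoint_dist_map {X : Type} {Γ : SimpleGraph X} (hT : Γ.IsTree) (g : Equiv.Perm X)
    (hadj : ∀ u v, Γ.Adj u v ↔ Γ.Adj (g u) (g v)) (u v : X) :
    Γ.dist (g u) (g v) = Γ.dist u v := by
  have key : ∀ (h : Equiv.Perm X), (∀ u v, Γ.Adj u v ↔ Γ.Adj (h u) (h v)) →
      ∀ u v, Γ.dist (h u) (h v) ≤ Γ.dist u v := by
    intro h hh u v
    obtain ⟨p, hp⟩ := hT.connected.exists_walk_length_eq_dist u v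
    let f : Γ →g Γ := ⟨h, fun {a b} hab => (hh a b).mp hab⟩
    have := Γ.dist_le (p.map f)
    rw [SimpleGraph.Walk.length_map, hp] at this
    exact this
  apply le_antisymm (key g hadj u v)
  have h2 := key g⁻¹ (fun u v => by
    rw [hadj (g⁻¹ u) (g⁻¹ v)]; simp) (g u) (g v)
  simpa using h2

theorem midpoint_step {X : Type} {Γ : SimpleGraph X} (hT : Γ.IsTree) (x z : X) (h : Γ.dist x z ≠ 0) :
    ∃ y, Γ.Adj x y ∧ Γ.dist x z = Γ.dist y z + 1 := by
  obtain ⟨p, hp⟩ := hT.connected.exists_walk_length_eq_dist x z
  cases p with
  | nil => simp at h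
  | cons hxy q =>
    rename_i y
    refine ⟨y, hxy, ?_⟩
    rw [SimpleGraph.Walk.length_cons] at hp
    have h1 := Γ.dist_le q
    have h2 := hT.connected.dist_triangle (u := x) (v := y) (w := z)
    have h3 : Γ.dist x y = 1 := SimpleGraph.dist_eq_one_iff_adj.mpr hxy
    omega

/-- A torsion element acting on a tree without inversion fixes a vertex on the geodesic from `x` to
its image. The first two hypotheses are facts about trees, proved elsewhere. -/
theorem midpoint
    (concat : ∀ (X : Type) (Γ : SimpleGraph X), Γ.IsTree → ∀ (u v w q : X),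
      Γ.Adj v w → Γ.dist u w = Γ.dist u v + 1 → Γ.dist v q = Γ.dist w q + 1 →
      Γ.dist u q = Γ.dist u v + Γ.dist v q)
    (toward_unique : ∀ (X : Type) (Γ : SimpleGraph X), Γ.IsTree → ∀ (v a b q : X),
      Γ.Adj v a → Γ.Adj v b → Γ.dist v q = Γ.dist a q + 1 → Γ.dist v q = Γ.dist b q + 1 → a = b)
    (X : Type) (Γ : SimpleGraph X) (hT : Γ.IsTree) (g : Equiv.Perm X)
    (hadj : ∀ u v, Γ.Adj u v ↔ Γ.Adj (g u) (g v))
    (hinv : ∀ u v, Γ.Adj u v → ¬ (g u = v ∧ g v = u))
    (hfin : IsOfFinOrder g) (x : X) :
    ∃ m, g m = m ∧ Γ.dist x m + Γ.dist m (g x) = Γ.dist x (g x) := by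
  have tri : ∀ u v w, Γ.dist u w ≤ Γ.dist u v + Γ.dist v w := fun u v w => hT.connected.dist_triangle
  have hcomm : ∀ u v, Γ.dist u v = Γ.dist v u := fun u v => SimpleGraph.dist_comm
  have hone : ∀ u v, Γ.Adj u v → Γ.dist u v = 1 := fun u v h => SimpleGraph.dist_eq_one_iff_adj.mpr h
  have hg := midpoint_dist_map hT g hadj
  have hgn : ∀ (n : ℕ) u v, Γ.dist ((g^n) u) ((g^n) v) = Γ.dist u v := by
    intro n
    induction n with
    | zero => intro u v; simp
    | succ n ih =>
      intro u v
      rw [pow_succ', Equiv.Perm.mul_apply, Equiv.Perm.mul_apply, hg, ih]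
  have hzero : ∀ u v, Γ.dist u v = 0 → u = v := fun u v h => hT.connected.dist_eq_zero_iff.mp h
  induction hd : Γ.dist x (g x) using Nat.strong_induction_on generalizing x with
  | _ d ih =>
    by_cases hd0 : d = 0
    · subst hd0
      have := hzero _ _ hd
      refine ⟨x, this.symm, ?_⟩
      rw [← this]; simp
    · obtain ⟨y, hxy, hy⟩ := midpoint_step hT x (g x) (by omega)
      have hgxy : Γ.Adj (g x) (g y) := (hadj x y).mp hxy
      have hcase : Γ.dist x (g x) = Γ.dist x (g y) + 1 ∨ Γ.dist x (g y) = Γ.dist x (g x) + 1 := by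
        have h1 := hT.dist_ne_of_adj x hgxy
        have h2 := tri x (g x) (g y)
        have h3 := tri x (g y) (g x)
        have h4 := hone _ _ hgxy
        have h5 := hcomm (g y) (g x)
        omega
      rcases hcase with hA | hB
      · by_cases hd1 : d = 1
        · exfalso
          have h1 : y = g x := hzero _ _ (by omega)
          have h2 : x = g y := hzero _ _ (by omega)
          exact hinv x y hxy ⟨h1.symm, h2.symm⟩
        · obtain ⟨z, hz1, hz2⟩ := midpoint_step hT (g x) y (by rw [hcomm]; omega)
          have h1 : g y = z := by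
            apply toward_unique X Γ hT (g x) (g y) z x hgxy hz1
            · rw [hcomm (g x) x, hcomm (g y) x]; exact hA
            · have e1 := tri z y x
              have e2 := tri (g x) z x
              have e3 := hone _ _ hz1
              have e4 := hone _ _ hxy
              have e5 := hcomm x y
              have e6 := hcomm (g x) x
              have e7 := hcomm (g x) y
              omega
          have h2 : Γ.dist y (g y) = d - 2 := by
            rw [h1, hcomm y z]
            have e7 := hcomm (g x) y
            omega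
          obtain ⟨m, hm1, hm2⟩ := ih (d-2) (by omega) y h2
          refine ⟨m, hm1, ?_⟩
          have e1 := tri x y m
          have e2 := tri m (g y) (g x)
          have e3 := hone _ _ hxy
          have e4 := hone _ _ hgxy
          have e5 := hcomm (g y) (g x)
          have e6 := tri x m (g x)
          omega
      · exfalso
        have hyg : Γ.dist y (g y) = d := by
          have e1 := tri y (g x) (g y)
          have e2 := tri x y (g y)
          have e3 := hone _ _ hxy
          have e4 := hone _ _ hgxy
          omega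
        have hn : ∀ n : ℕ, 1 ≤ n → Γ.dist x ((g^n) x) = n * d ∧ Γ.dist x ((g^n) y) = n * d + 1 := by
          intro n hn
          induction n, hn using Nat.le_induction with
          | base => simp only [pow_one, one_mul]; exact ⟨hd, by omega⟩
          | succ n hn ihn =>
            obtain ⟨i1, i2⟩ := ihn
            have a1 : Γ.Adj ((g^n) x) ((g^n) y) := by
              rw [← SimpleGraph.dist_eq_one_iff_adj, hgn, hone _ _ hxy]
            have a2 : ∀ u v, Γ.dist ((g^n) u) ((g^(n+1)) v) = Γ.dist u (g v) := by
              intro u v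
              rw [pow_succ, Equiv.Perm.mul_apply, hgn]
            constructor
            · have := concat X Γ hT x ((g^n) x) ((g^n) y) ((g^(n+1)) x) a1 (by omega)
                (by rw [a2, a2]; omega)
              rw [this, a2, i1, hd]; ring
            · have := concat X Γ hT x ((g^n) x) ((g^n) y) ((g^(n+1)) y) a1 (by omega)
                (by rw [a2, a2]; omega)
              rw [this, a2, i1, hB, hd]; ring
        obtain ⟨n, hnpos, hn1⟩ := isOfFinOrder_iff_pow_eq_one.mp hfin
        have := (hn n hnpos).1
        rw [hn1] at this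
        simp at this
        omega

end Pool.Agent.Helper475.RSA2
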