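import Mathlib

set_option autoImplicit false

namespace Pool.Agent.Helper475.RSA3

theorem j32557_dist_le {X : Type} (Γ : SimpleGraph X) (hC : Γ.Connected) (f : X → X)
    (hf : ∀ u v, Γ.Adj u v → Γ.Adj (f u) (f v)) (u v : X) :
    Γ.dist (f u) (f v) ≤ Γ.dist u v := by
  obtain ⟨p, hp⟩ := hC.exists_walk_length_eq_dist u v
  let F : Γ →g Γ := ⟨f, fun {a b} h => hf a b h⟩
  have h1 := SimpleGraph.dist_le (p.map F)
  rw [SimpleGraph.Walk.length_map, hp] at h1
  exact h1

theorem j32557_dist {H : Type} [Group H] (X : Type) (Γ : SimpleGraph X) (hC : Γ.Connected)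
    (ρ : H →* Equiv.Perm X) (hadj : ∀ g u v, Γ.Adj u v → Γ.Adj (ρ g u) (ρ g v))
    (g : H) (u v : X) : Γ.dist (ρ g u) (ρ g v) = Γ.dist u v := by
  apply le_antisymm (j32557_dist_le Γ hC (ρ g) (hadj g) u v)
  have h := j32557_dist_le Γ hC (ρ g⁻¹) (hadj g⁻¹) (ρ g u) (ρ g v)
  simpa using h

/-- A finitely generated torsion group acting on a tree without inversions fixes a vertex.
The hypotheses `midpoint` and `mid_unique` are proved elsewhere. -/
theorem fixed_vertex
    (midpoint : ∀ (X : Type) (Γ : SimpleGraph X), Γ.IsTree → ∀ (g : Equiv.Perm X),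
      (∀ u v, Γ.Adj u v ↔ Γ.Adj (g u) (g v)) → (∀ u v, Γ.Adj u v → ¬ (g u = v ∧ g v = u)) →
      IsOfFinOrder g → ∀ x : X,
      ∃ m, g m = m ∧ Γ.dist x m + Γ.dist m (g x) = Γ.dist x (g x))
    (mid_unique : ∀ (X : Type) (Γ : SimpleGraph X), Γ.IsTree → ∀ (x y m m' : X),
      Γ.dist x m + Γ.dist m y = Γ.dist x y → Γ.dist x m' + Γ.dist m' y = Γ.dist x y →
      Γ.dist x m = Γ.dist x m' → m = m')
    {H : Type} [Group H] (X : Type) (Γ : SimpleGraph X) (hT : Γ.IsTree) (ρ : H →* Equiv.Perm X)
    (hadj : ∀ g u v, Γ.Adj u v → Γ.Adj (ρ g u) (ρ g v))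
    (hinv : ∀ g u v, Γ.Adj u v → ¬ (ρ g u = v ∧ ρ g v = u))
    (htor : ∀ g : H, IsOfFinOrder g) (S : Finset H) (hS : Subgroup.closure (S : Set H) = ⊤) :
    ∃ v, ∀ g, ρ g v = v := by
  classical
  have hC : Γ.Connected := hT.1
  have hd := j32557_dist X Γ hC ρ hadj
  have hiff : ∀ g u v, Γ.Adj u v ↔ Γ.Adj (ρ g u) (ρ g v) := by
    intro g u v
    refine ⟨hadj g u v, fun h => ?_⟩
    have h2 := hadj g⁻¹ _ _ h
    simpa using h2
  have hmid : ∀ (g : H) (x : X), ∃ m, ρ g m = m ∧
      Γ.dist x m + Γ.dist m (ρ g x) = Γ.dist x (ρ g x) := fun g x =>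
    midpoint X Γ hT (ρ g) (hiff g) (hinv g) (ρ.isOfFinOrder (htor g)) x
  have key : ∀ F : Finset H, ∃ x, ∀ g ∈ Subgroup.closure (F : Set H), ρ g x = x := by
    intro F
    induction F using Finset.induction_on with
    | empty =>
      obtain ⟨x⟩ := hC.nonempty
      refine ⟨x, fun g hg => ?_⟩
      have h1 : g = 1 := by simpa using hg
      subst h1
      simp
    | insert b F hb ih =>
      obtain ⟨x, hx⟩ := ih
      obtain ⟨y, hy, hxy⟩ := hmid b x
      have hya : ∀ a ∈ Subgroup.closure (F : Set H), ρ a y = y := by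
        intro a ha
        obtain ⟨m, hm, hxm⟩ := hmid (a * b) x
        have hax := hx a ha
        have e1 : ρ (a * b) x = ρ a (ρ b x) := by simp
        have e2 : Γ.dist x (ρ (a * b) x) = Γ.dist x (ρ b x) := by
          rw [e1]
          have := hd a x (ρ b x)
          rwa [hax] at this
        have e3 : Γ.dist x (ρ a y) = Γ.dist x y := by
          have := hd a x y
          rwa [hax] at this
        have e4 : Γ.dist (ρ a y) (ρ (a * b) x) = Γ.dist y (ρ b x) := by
          rw [e1]
          exact hd a y (ρ b x)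
        have e5 : Γ.dist m (ρ (a * b) x) = Γ.dist x m := by
          have := hd (a * b) x m
          rw [hm, SimpleGraph.dist_comm] at this
          exact this
        have e6 : Γ.dist y (ρ b x) = Γ.dist x y := by
          have := hd b x y
          rw [hy, SimpleGraph.dist_comm] at this
          exact this
        have e7 : m = ρ a y := by
          refine mid_unique X Γ hT x (ρ (a * b) x) m (ρ a y) hxm ?_ ?_
          · rw [e3, e4, e2, hxy]
          · omega
        have e8 : ρ a (ρ b (ρ a y)) = ρ a y := by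
          rw [e7] at hm
          simpa using hm
        have e9 : ρ b (ρ a y) = y := (ρ a).injective e8
        rw [← hy] at e9
        have e10 := (ρ b).injective (e9.trans (by rw [hy]) : ρ b (ρ a (ρ b y)) = ρ b y)
        rwa [hy] at e10
      refine ⟨y, fun g hg => ?_⟩
      induction hg using Subgroup.closure_induction with
      | mem z hz =>
        rw [Finset.coe_insert, Set.mem_insert_iff] at hz
        rcases hz with hz | hz
        · rw [hz]
          exact hy
        · exact hya z (Subgroup.subset_closure hz)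
      | one => simp
      | mul u v _ _ hu hv =>
        rw [map_mul, Equiv.Perm.mul_apply, hv, hu]
      | inv u _ hu =>
        have h3 : ρ u⁻¹ (ρ u y) = y := by simp
        rwa [hu] at h3
  obtain ⟨x, hx⟩ := key S
  exact ⟨x, fun g => hx g (by rw [hS]; exact Subgroup.mem_top g)⟩

end Pool.Agent.Helper475.RSA3
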