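import Mathlib

set_option autoImplicit false

namespace Pool.Agent.Helper475.RSA4

/-- In a tree two points of a geodesic at the same distance from its start are equal. -/
theorem mid_unique {X : Type} {Γ : SimpleGraph X} (hT : Γ.IsTree) (x y m m' : X)
    (h1 : Γ.dist x m + Γ.dist m y = Γ.dist x y) (h2 : Γ.dist x m' + Γ.dist m' y = Γ.dist x y)
    (h3 : Γ.dist x m = Γ.dist x m') : m = m' := by
  obtain ⟨p, hp⟩ := hT.1.exists_walk_length_eq_dist x m
  obtain ⟨q, hq⟩ := hT.1.exists_walk_length_eq_dist m y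
  obtain ⟨p', hp'⟩ := hT.1.exists_walk_length_eq_dist x m'
  obtain ⟨q', hq'⟩ := hT.1.exists_walk_length_eq_dist m' y
  have e1 : (p.append q).length = Γ.dist x y := by
    rw [SimpleGraph.Walk.length_append, hp, hq, h1]
  have e2 : (p'.append q').length = Γ.dist x y := by
    rw [SimpleGraph.Walk.length_append, hp', hq', h2]
  have i1 := (p.append q).isPath_of_length_eq_dist e1
  have i2 := (p'.append q').isPath_of_length_eq_dist e2
  have huniq := (hT.2.subsingleton_path x y).elim ⟨p.append q, i1⟩ ⟨p'.append q', i2⟩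
  have heq : p.append q = p'.append q' := congrArg Subtype.val huniq
  have g1 : (p.append q).getVert p.length = m := by
    rw [SimpleGraph.Walk.getVert_append]
    simp
  have g2 : (p'.append q').getVert p'.length = m' := by
    rw [SimpleGraph.Walk.getVert_append]
    simp
  rw [← g1, ← g2, heq, hp, hp', h3]

/-- If all elements of a subset `C` of a group acting on a tree fix two different vertices `v`, `w` then
they all fix a neighbour of `v`. -/
theorem fixed_neighbor {H : Type} [Group H] (X : Type) (Γ : SimpleGraph X) (hT : Γ.IsTree)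
    (ρ : H →* Equiv.Perm X)
    (hadj : ∀ g u v, Γ.Adj u v → Γ.Adj (ρ g u) (ρ g v)) (C : Set H) (v w : X)
    (hv : ∀ c ∈ C, ρ c v = v) (hw : ∀ c ∈ C, ρ c w = w) (hne : v ≠ w) :
    ∃ u, Γ.Adj v u ∧ ∀ c ∈ C, ρ c u = u := by
  have hle : ∀ (g : H) (a b : X), Γ.dist (ρ g a) (ρ g b) ≤ Γ.dist a b := by
    intro g a b
    obtain ⟨p, hp⟩ := hT.1.exists_walk_length_eq_dist a b
    obtain ⟨f, hf⟩ : ∃ f : Γ →g Γ, ∀ x, f x = ρ g x :=
      ⟨⟨fun x => ρ g x, fun h => hadj g _ _ h⟩, fun _ => rfl⟩
    have h := SimpleGraph.dist_le (p.map f)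
    rw [SimpleGraph.Walk.length_map, hp, hf, hf] at h
    exact h
  have hdist : ∀ (g : H) (a b : X), Γ.dist (ρ g a) (ρ g b) = Γ.dist a b := by
    intro g a b
    refine le_antisymm (hle g a b) ?_
    have h := hle g⁻¹ (ρ g a) (ρ g b)
    have e : ∀ x, ρ g⁻¹ (ρ g x) = x := by
      intro x
      rw [map_inv]
      exact Equiv.symm_apply_apply (ρ g) x
    rw [e, e] at h
    exact h
  obtain ⟨p, hp⟩ := hT.1.exists_walk_length_eq_dist v w
  cases p with
  | nil => exact absurd rfl hne
  | @cons _ u _ hvu p =>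
    have h1 : Γ.dist v u = 1 := SimpleGraph.dist_eq_one_iff_adj.mpr hvu
    have h2 : Γ.dist u w ≤ p.length := SimpleGraph.dist_le p
    rw [SimpleGraph.Walk.length_cons] at hp
    have h3 : Γ.dist v w ≤ Γ.dist v u + Γ.dist u w := hT.1.dist_triangle
    refine ⟨u, hvu, fun c hc => ?_⟩
    refine mid_unique hT v w (ρ c u) u ?_ (by omega) ?_
    · have e1 : Γ.dist v (ρ c u) = Γ.dist v u := by
        conv_lhs => rw [← hv c hc]
        exact hdist c v u
      have e2 : Γ.dist (ρ c u) w = Γ.dist u w := by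
        conv_lhs => rw [← hw c hc]
        exact hdist c u w
      omega
    · conv_lhs => rw [← hv c hc]
      exact hdist c v u

end Pool.Agent.Helper475.RSA4
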