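import Mathlib

set_option autoImplicit false

namespace Pool.Agent.Helper475.RSB

/-- translation action on supports -/
noncomputable def lampAct (T : Type) [Group T] : T →* MulAut (Multiplicative (T →₀ ZMod 2)) where
  toFun t := AddEquiv.toMultiplicative (Finsupp.domCongr (Equiv.mulLeft t))
  map_one' := by
    apply MulEquiv.ext
    intro x
    apply Multiplicative.toAdd.injective
    apply Finsupp.ext
    intro s
    change (Finsupp.equivMapDomain (Equiv.mulLeft (1 : T)) (Multiplicative.toAdd x)) s = _
    rw [Finsupp.equivMapDomain_apply]
    change (Multiplicative.toAdd x) ((1 : T)⁻¹ * s) = (Multiplicative.toAdd x) s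
    rw [inv_one, one_mul]
  map_mul' a b := by
    apply MulEquiv.ext
    intro x
    apply Multiplicative.toAdd.injective
    apply Finsupp.ext
    intro s
    change (Finsupp.equivMapDomain (Equiv.mulLeft (a * b)) (Multiplicative.toAdd x)) s =
      (Finsupp.equivMapDomain (Equiv.mulLeft a)
        (Finsupp.equivMapDomain (Equiv.mulLeft b) (Multiplicative.toAdd x))) s
    rw [Finsupp.equivMapDomain_apply, Finsupp.equivMapDomain_apply, Finsupp.equivMapDomain_apply]
    congr 1
    change (a * b)⁻¹ * s = b⁻¹ * (a⁻¹ * s)
    rw [mul_inv_rev, mul_assoc]

theorem lampAct_single (T : Type) [Group T] (t s : T) (a : ZMod 2) :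
    lampAct T t (Multiplicative.ofAdd (Finsupp.single s a)) =
      Multiplicative.ofAdd (Finsupp.single (t * s) a) := by
  apply Multiplicative.toAdd.injective
  change Finsupp.equivMapDomain (Equiv.mulLeft t) (Finsupp.single s a) = Finsupp.single (t * s) a
  rw [Finsupp.equivMapDomain_single]
  rfl

/-- If `T` is an infinite finitely generated torsion group then the lamplighter group
`(⊕_T ZMod 2) ⋊ T` is finitely generated, infinite, torsion and contains an infinite direct sum of
groups of order two. -/
theorem exists_lamp (T : Type) [Group T] (S : Finset T)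
    (hS : Subgroup.closure (S : Set T) = ⊤) (hinf : Infinite T) (htor : ∀ g : T, IsOfFinOrder g) :
    ∃ (W : Type) (_ : Group W) (S' : Finset W),
      Subgroup.closure (S' : Set W) = ⊤ ∧ Infinite W ∧ (∀ g : W, IsOfFinOrder g) ∧
      ∃ φ : Multiplicative (ℕ →₀ ZMod 2) →* W, Function.Injective φ := by
  classical
  let W := (Multiplicative (T →₀ ZMod 2)) ⋊[lampAct T] T
  let x0 : W := SemidirectProduct.inl (Multiplicative.ofAdd (Finsupp.single 1 1))
  let S' : Finset W := insert x0 (S.image (fun s => (SemidirectProduct.inr s : W)))
  refine ⟨W, inferInstance, S', ?_, ?_, ?_, ?_⟩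
  · -- generation
    rw [eq_top_iff]
    have h1 : ∀ t : T, (SemidirectProduct.inr t : W) ∈ Subgroup.closure (S' : Set W) := by
      intro t
      have hle : Subgroup.closure (S : Set T) ≤
          (Subgroup.closure (S' : Set W)).comap (SemidirectProduct.inr : T →* W) := by
        rw [Subgroup.closure_le]
        intro s hs
        refine Subgroup.subset_closure ?_
        simp only [S', Finset.coe_insert, Finset.coe_image]
        exact Or.inr ⟨s, hs, rfl⟩
      have : t ∈ Subgroup.closure (S : Set T) := by rw [hS]; trivial
      exact hle this
    have hx0 : x0 ∈ Subgroup.closure (S' : Set W) := by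
      refine Subgroup.subset_closure ?_
      simp only [S', Finset.coe_insert, Finset.coe_image]
      exact Or.inl rfl
    have h2 : ∀ t : T, (SemidirectProduct.inl (Multiplicative.ofAdd (Finsupp.single t 1)) : W) ∈
        Subgroup.closure (S' : Set W) := by
      intro t
      have e := SemidirectProduct.inl_aut (φ := lampAct T) t
        (Multiplicative.ofAdd (Finsupp.single (1 : T) (1 : ZMod 2)))
      rw [lampAct_single, mul_one] at e
      rw [e]
      exact mul_mem (mul_mem (h1 t) hx0) (h1 _)
    have h3 : ∀ f : T →₀ ZMod 2, (SemidirectProduct.inl (Multiplicative.ofAdd f) : W) ∈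
        Subgroup.closure (S' : Set W) := by
      intro f
      induction f using Finsupp.induction_linear with
      | zero =>
        have : (SemidirectProduct.inl (Multiplicative.ofAdd (0 : T →₀ ZMod 2)) : W) = 1 := by
          rw [ofAdd_zero, map_one]
        rw [this]
        exact one_mem _
      | add f g hf hg =>
        rw [ofAdd_add, map_mul]
        exact mul_mem hf hg
      | single t a =>
        have ha : a = 0 ∨ a = 1 := by
          revert a; decide
        rcases ha with rfl | rfl
        · rw [Finsupp.single_zero, ofAdd_zero, map_one]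
          exact one_mem _
        · exact h2 t
    intro w _
    rw [← SemidirectProduct.inl_left_mul_inr_right w]
    exact mul_mem (h3 (Multiplicative.toAdd w.left)) (h1 _)
  · exact Infinite.of_injective (SemidirectProduct.inr : T →* W) SemidirectProduct.inr_injective
  · intro g
    rw [isOfFinOrder_iff_pow_eq_one]
    obtain ⟨n, hn, hgn⟩ := (isOfFinOrder_iff_pow_eq_one.mp (htor g.right))
    refine ⟨n * 2, by omega, ?_⟩
    have hr : (g ^ n).right = 1 := by
      have : SemidirectProduct.rightHom (g ^ n) = (SemidirectProduct.rightHom g) ^ n := map_pow _ _ _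
      change SemidirectProduct.rightHom (g ^ n) = 1
      rw [this]
      exact hgn
    have hg : g ^ n = SemidirectProduct.inl (g ^ n).left := by
      conv_lhs => rw [← SemidirectProduct.inl_left_mul_inr_right (g ^ n)]
      rw [hr, map_one, mul_one]
    rw [pow_mul, hg, ← map_pow]
    have hz : ∀ x : Multiplicative (T →₀ ZMod 2), x ^ 2 = 1 := by
      intro x
      apply Multiplicative.toAdd.injective
      rw [toAdd_pow, toAdd_one]
      apply Finsupp.ext
      intro s
      rw [Finsupp.smul_apply, Finsupp.zero_apply]
      generalize (Multiplicative.toAdd x) s = a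
      revert a; decide
    rw [hz, map_one]
  · refine ⟨(SemidirectProduct.inl : _ →* W).comp (AddMonoidHom.toMultiplicative
      (Finsupp.mapDomain.addMonoidHom (Infinite.natEmbedding T))), ?_⟩
    intro a b hab
    have h1 := SemidirectProduct.inl_injective hab
    have h2 : Finsupp.mapDomain (Infinite.natEmbedding T) (Multiplicative.toAdd a) =
      Finsupp.mapDomain (Infinite.natEmbedding T) (Multiplicative.toAdd b) := h1
    exact Multiplicative.toAdd.injective
      (Finsupp.mapDomain_injective (Infinite.natEmbedding T).injective h2)

end Pool.Agent.Helper475.RSB
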