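import Mathlib
import Pool.Agent.Helper475.Geod

set_option autoImplicit false

namespace Pool.Agent.Helper475.RSC1

open Pool.Agent.Helper475

theorem sparse_abs (D : (ℕ →₀ ZMod 2) → ℕ) (hD : ∀ K, {x | D x ≤ K}.Finite) :
    ∃ (j M : ℕ → ℕ), StrictMono j ∧ 1 ≤ M 0 ∧ (∀ k, M k + (k + 1) ≤ M (k + 1)) ∧
      (∀ k, D (∑ i ∈ Finset.range (k + 1), Finsupp.single (j i) (1 : ZMod 2)) ≤ M k) ∧
      (∀ k, ∀ x : ℕ →₀ ZMod 2, x ≠ 0 → (∀ i, x i ≠ 0 → j (k + 1) ≤ i) →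
        2 * M k + k < D x) := by
  classical
  have hm : ∀ K, ∃ m : ℕ, ∀ x, D x ≤ K → ∀ i, x i ≠ 0 → i < m := by
    intro K
    have hfin : (⋃ x ∈ {x | D x ≤ K}, ((x.support : Finset ℕ) : Set ℕ)).Finite :=
      (hD K).biUnion fun x _ => x.support.finite_toSet
    obtain ⟨b, hb⟩ := hfin.bddAbove
    refine ⟨b + 1, fun x hx i hi => Nat.lt_succ_of_le (hb ?_)⟩
    exact Set.mem_biUnion (show x ∈ {x | D x ≤ K} from hx) (by simpa using hi)
  choose m hm using hm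
  let F : ℕ → (ℕ × ℕ × (ℕ →₀ ZMod 2)) → (ℕ × ℕ × (ℕ →₀ ZMod 2)) := fun k p =>
    (max (p.1 + 1) (m (2 * p.2.1 + k)),
      max (p.2.1 + k + 1) (D (p.2.2 + Finsupp.single (max (p.1 + 1) (m (2 * p.2.1 + k))) 1)),
      p.2.2 + Finsupp.single (max (p.1 + 1) (m (2 * p.2.1 + k))) 1)
  obtain ⟨st, h0, hs⟩ : ∃ st : ℕ → (ℕ × ℕ × (ℕ →₀ ZMod 2)),
      st 0 = (0, max 1 (D (Finsupp.single 0 1)), Finsupp.single 0 1) ∧
      ∀ k, st (k + 1) = F k (st k) :=
    ⟨fun k => Nat.rec (0, max 1 (D (Finsupp.single 0 1)), Finsupp.single 0 1) F k,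
      rfl, fun k => rfl⟩
  have e1 : ∀ k, (st (k + 1)).1 = max ((st k).1 + 1) (m (2 * (st k).2.1 + k)) := fun k => by
    rw [hs]
  have e2 : ∀ k, (st (k + 1)).2.2 = (st k).2.2 + Finsupp.single ((st (k + 1)).1) 1 := fun k => by
    rw [hs]
  have e3 : ∀ k, (st (k + 1)).2.1 = max ((st k).2.1 + k + 1) (D (st (k + 1)).2.2) := fun k => by
    rw [hs]
  have hsum : ∀ k, ∑ i ∈ Finset.range (k + 1), Finsupp.single ((st i).1) (1 : ZMod 2) =
      (st k).2.2 := by
    intro k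
    induction k with
    | zero => simp [h0]
    | succ k ih => rw [Finset.sum_range_succ, ih, e2]
  refine ⟨fun k => (st k).1, fun k => (st k).2.1, ?_, ?_, ?_, ?_, ?_⟩
  · refine strictMono_nat_of_lt_succ fun k => ?_
    rw [e1]
    exact lt_of_lt_of_le (Nat.lt_succ_self _) (le_max_left _ _)
  · show 1 ≤ (st 0).2.1
    rw [h0]
    exact le_max_left _ _
  · intro k
    show (st k).2.1 + (k + 1) ≤ (st (k + 1)).2.1
    rw [e3]
    exact le_max_left _ _
  · intro k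
    show D (∑ i ∈ Finset.range (k + 1), Finsupp.single ((st i).1) (1 : ZMod 2)) ≤ (st k).2.1
    rw [hsum k]
    cases k with
    | zero =>
      rw [h0]
      exact le_max_right _ _
    | succ k =>
      rw [e3]
      exact le_max_right _ _
  · intro k x hx0 hx
    show 2 * (st k).2.1 + k < D x
    by_contra hle
    rw [not_lt] at hle
    obtain ⟨i, hi⟩ : ∃ i, x i ≠ 0 := by
      by_contra hno
      push Not at hno
      exact hx0 (Finsupp.ext hno)
    have h1 := hm _ x hle i hi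
    have h2 : (st (k + 1)).1 ≤ i := hx i hi
    rw [e1] at h2
    have h3 := (le_max_right ((st k).1 + 1) (m (2 * (st k).2.1 + k))).trans h2
    omega

/-- Choice of a sparse sequence of basis elements and of the constants `M k`. Balls are finite by
`Geod.ball_finite`; `Geod.gr S` is the Cayley graph. -/
theorem sparse {W : Type} [Group W] (S : Finset W) (hS : Subgroup.closure (S : Set W) = ⊤)
    (φ : Multiplicative (ℕ →₀ ZMod 2) →* W) (hφ : Function.Injective φ) :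
    ∃ (j M : ℕ → ℕ), StrictMono j ∧ 1 ≤ M 0 ∧ (∀ k, M k + (k + 1) ≤ M (k + 1)) ∧
      (∀ k, (Geod.gr S).dist 1 (φ (Multiplicative.ofAdd
        (∑ i ∈ Finset.range (k + 1), Finsupp.single (j i) (1 : ZMod 2)))) ≤ M k) ∧
      (∀ k, ∀ x : ℕ →₀ ZMod 2, x ≠ 0 → (∀ i, x i ≠ 0 → j (k + 1) ≤ i) →
        2 * M k + k < (Geod.gr S).dist 1 (φ (Multiplicative.ofAdd x))) := by
  refine sparse_abs (fun x => (Geod.gr S).dist 1 (φ (Multiplicative.ofAdd x))) fun K => ?_
  have h1 : (fun x : ℕ →₀ ZMod 2 => φ (Multiplicative.ofAdd x)) ⁻¹'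
      {g : W | (Geod.gr S).dist 1 g ≤ K} = {x | (Geod.gr S).dist 1 (φ (Multiplicative.ofAdd x)) ≤ K} :=
    rfl
  rw [← h1]
  refine (Geod.ball_finite S hS K).preimage ?_
  intro a _ b _ hab
  exact Multiplicative.ofAdd.injective (hφ hab)

end Pool.Agent.Helper475.RSC1
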