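import Mathlib

set_option autoImplicit false

namespace Pool.Agent.Helper475.RSC2

/-- The element with coordinates `j i`, `i` a binary digit of `N`. -/
noncomputable def chi (j : ℕ → ℕ) (N : ℕ) : ℕ →₀ ZMod 2 :=
  ∑ i ∈ Finset.range N, if N.testBit i then Finsupp.single (j i) (1 : ZMod 2) else 0

theorem testBit_of_le {N i : ℕ} (h : N ≤ i) : N.testBit i = false :=
  Nat.testBit_lt_two_pow (lt_of_le_of_lt h Nat.lt_two_pow_self)

theorem chi_ext (j : ℕ → ℕ) (N K : ℕ) (h : N ≤ K) : chi j N =
    ∑ i ∈ Finset.range K, if N.testBit i then Finsupp.single (j i) (1 : ZMod 2) else 0 := by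
  unfold chi
  apply Finset.sum_subset (Finset.range_mono h)
  intro i _ hi
  have : N ≤ i := by simpa using hi
  rw [testBit_of_le this]
  simp

theorem chi_xor (j : ℕ → ℕ) (N N' : ℕ) : chi j (N ^^^ N') = chi j N + chi j N' := by
  have h2 : ∀ a : ℕ, Finsupp.single a (1 : ZMod 2) + Finsupp.single a (1 : ZMod 2) = 0 := by
    intro a
    rw [← Finsupp.single_add]
    have : (1 : ZMod 2) + 1 = 0 := by decide
    rw [this, Finsupp.single_zero]
  rw [chi_ext j (N ^^^ N') (max (N ^^^ N') (max N N')) (le_max_left _ _),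
    chi_ext j N (max (N ^^^ N') (max N N')) (le_trans (le_max_left _ _) (le_max_right _ _)),
    chi_ext j N' (max (N ^^^ N') (max N N')) (le_trans (le_max_right _ _) (le_max_right _ _)),
    ← Finset.sum_add_distrib]
  apply Finset.sum_congr rfl
  intro i _
  rw [Nat.testBit_xor]
  cases N.testBit i <;> cases N'.testBit i <;> simp [h2]

theorem chi_apply (j : ℕ → ℕ) (hj : StrictMono j) (N i : ℕ) :
    chi j N (j i) = if N.testBit i then 1 else 0 := by
  rw [chi_ext j N (max N (i + 1)) (le_max_left _ _), Finsupp.finset_sum_apply]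
  rw [Finset.sum_eq_single i]
  · split_ifs <;> simp
  · intro l _ hl
    split_ifs
    · rw [Finsupp.single_apply, if_neg]
      intro h
      exact hl (hj.injective h)
    · simp
  · intro h
    exact absurd (Finset.mem_range.2 (lt_of_lt_of_le (Nat.lt_succ_self i) (le_max_right _ _))) h

theorem chi_injective (j : ℕ → ℕ) (hj : StrictMono j) : Function.Injective (chi j) := by
  intro N N' h
  apply Nat.eq_of_testBit_eq
  intro i
  have h1 := chi_apply j hj N i
  have h2 := chi_apply j hj N' i
  rw [h, h2] at h1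
  cases hN : N.testBit i <;> cases hN' : N'.testBit i <;> simp_all

theorem chi_ones (j : ℕ → ℕ) (k : ℕ) :
    chi j (2 ^ (k + 1) - 1) = ∑ i ∈ Finset.range (k + 1), Finsupp.single (j i) (1 : ZMod 2) := by
  unfold chi
  have hle : k + 1 ≤ 2 ^ (k + 1) - 1 := Nat.le_sub_one_of_lt Nat.lt_two_pow_self
  symm
  rw [← Finset.sum_subset (Finset.range_mono hle)]
  · apply Finset.sum_congr rfl
    intro i hi
    rw [Nat.testBit_two_pow_sub_one, if_pos]
    simpa using hi
  · intro i _ hi
    rw [Nat.testBit_two_pow_sub_one, if_neg]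
    simpa using hi

theorem chi_high (j : ℕ → ℕ) (hj : StrictMono j) (k N : ℕ) (hN : 2 ^ (k + 1) ∣ N) (i : ℕ)
    (hi : chi j N i ≠ 0) : j (k + 1) ≤ i := by
  unfold chi at hi
  rw [Finsupp.finset_sum_apply] at hi
  obtain ⟨l, _, hl⟩ := Finset.exists_ne_zero_of_sum_ne_zero hi
  split_ifs at hl with hb
  · rw [Finsupp.single_apply] at hl
    split_ifs at hl with hji
    · rw [← hji]
      apply hj.monotone
      obtain ⟨m, rfl⟩ := hN
      rw [Nat.testBit_two_pow_mul] at hb
      simp only [Bool.and_eq_true, decide_eq_true_eq] at hb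
      exact hb.1
    · exact absurd rfl hl
  · simp at hl

end Pool.Agent.Helper475.RSC2
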