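import Mathlib
import Pool.Agent.Helper475.Geod

set_option autoImplicit false

namespace Pool.Agent.Helper475.RSC3

open Pool.Agent.Helper475

private theorem xor_succ (N : ℕ) : N ^^^ (N + 1) = 2 ^ (padicValNat 2 (N + 1) + 1) - 1 := by
  induction N using Nat.strong_induction_on with
  | _ N ih =>
    rcases Nat.even_or_odd' N with ⟨m, hm | hm⟩
    · subst hm
      have h0 : padicValNat 2 (2 * m + 1) = 0 := by
        apply padicValNat.eq_zero_of_not_dvd
        omega
      rw [h0]
      have h1 : (2 * m ^^^ (2 * m + 1)) / 2 = (2 * m) / 2 ^^^ (2 * m + 1) / 2 := Nat.xor_div_two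
      have h2 : (2 * m ^^^ (2 * m + 1)) % 2 = (2 * m + (2 * m + 1)) % 2 := Nat.xor_mod_two_eq
      have h3 : (2 * m) / 2 = m := by omega
      have h4 : (2 * m + 1) / 2 = m := by omega
      rw [h3, h4, Nat.xor_self] at h1
      omega
    · subst hm
      have h0 : padicValNat 2 (2 * m + 1 + 1) = padicValNat 2 (m + 1) + 1 := by
        have : 2 * m + 1 + 1 = 2 * (m + 1) := by ring
        rw [this, padicValNat.mul (by norm_num) (by omega), padicValNat.self (by norm_num)]
        omega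
      rw [h0]
      have h1 : ((2 * m + 1) ^^^ (2 * m + 1 + 1)) / 2 = (2 * m + 1) / 2 ^^^ (2 * m + 1 + 1) / 2 :=
        Nat.xor_div_two
      have h2 : ((2 * m + 1) ^^^ (2 * m + 1 + 1)) % 2 = (2 * m + 1 + (2 * m + 1 + 1)) % 2 :=
        Nat.xor_mod_two_eq
      have h3 : (2 * m + 1) / 2 = m := by omega
      have h4 : (2 * m + 1 + 1) / 2 = m + 1 := by omega
      rw [h3, h4, ih m (by omega)] at h1
      have h5 : 2 ^ (padicValNat 2 (m + 1) + 1 + 1) = 2 * 2 ^ (padicValNat 2 (m + 1) + 1) := by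
        rw [pow_succ]; ring
      have h6 : 1 ≤ 2 ^ (padicValNat 2 (m + 1) + 1) := Nat.one_le_two_pow
      rw [h5]
      omega

private theorem mod_of_val (N : ℕ) :
    N % 2 ^ (padicValNat 2 (N + 1) + 1) = 2 ^ (padicValNat 2 (N + 1)) - 1 := by
  set k := padicValNat 2 (N + 1) with hk
  obtain ⟨t, ht⟩ : 2 ^ k ∣ N + 1 := pow_padicValNat_dvd
  have hodd : t % 2 = 1 := by
    by_contra hcon
    have h2 : 2 ∣ t := by omega
    obtain ⟨u, hu⟩ := h2
    have hd : 2 ^ (k + 1) ∣ N + 1 := ⟨u, by rw [ht, hu, pow_succ]; ring⟩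
    have := (padicValNat_dvd_iff_le (p := 2) (a := N + 1) (n := k + 1) (by omega)).1 hd
    omega
  obtain ⟨u, hu⟩ : ∃ u, t = 2 * u + 1 := ⟨t / 2, by omega⟩
  have h1 : 1 ≤ 2 ^ k := Nat.one_le_two_pow
  have hN : N = (2 ^ k - 1) + 2 ^ (k + 1) * u := by
    have : N + 1 = 2 ^ k + 2 ^ (k + 1) * u := by
      rw [ht, hu, pow_succ]; ring
    omega
  have h2 : 2 ^ k - 1 < 2 ^ (k + 1) := by
    rw [pow_succ]; omega
  rw [hN, Nat.add_mul_mod_self_left, Nat.mod_eq_of_lt h2]

/-- The gap data from the elements `c N`. `Geod.gr S` is the Cayley graph; use `Geod.gr_connected`,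
`Geod.dist_left`, `Geod.ball_finite`. Take `μ N = M (padicValNat 2 (N+1))`,
`q N s = c N * (walk from 1 to c (2^(k+1)-1)).getVert s` with `k = padicValNat 2 (N+1)`,
`a N = ∑ i ∈ range N, 3 * μ i`. -/
theorem data {W : Type} [Group W] (S : Finset W) (hS : Subgroup.closure (S : Set W) = ⊤)
    (c : ℕ → W) (M : ℕ → ℕ) (hinj : Function.Injective c)
    (hxor : ∀ N N', (c N)⁻¹ * c N' = c (N ^^^ N'))
    (hM0 : 1 ≤ M 0) (hM : ∀ k, M k + (k + 1) ≤ M (k + 1))
    (hup : ∀ k, (Geod.gr S).dist 1 (c (2 ^ (k + 1) - 1)) ≤ M k)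
    (hlow : ∀ k N, N ≠ 0 → 2 ^ (k + 1) ∣ N → 2 * M k + k < (Geod.gr S).dist 1 (c N)) :
    ∃ (μ : ℕ → ℕ) (q : ℕ → ℕ → W) (a : ℕ → ℕ),
      (∀ N, q N 0 = c N) ∧ (∀ N, 1 ≤ μ N) ∧ (∀ N, q N (μ N) = q (N + 1) 0) ∧
      (∀ N s, (Geod.gr S).dist (q N s) (q N (s + 1)) ≤ 1) ∧
      a 0 = 0 ∧ (∀ N, a (N + 1) = a N + 3 * μ N) ∧
      (∀ R : ℕ, ∃ B : ℕ, ∀ N N', (Geod.gr S).dist (q N 0) (q N' 0) ≤ R →
        ((a N : ℤ) - a N').natAbs ≤ B) ∧
      (∀ R : ℕ, ∃ B : ℕ, ∀ N N' s s', s ≤ μ N → s' ≤ μ N' → ((s : ℤ) - s').natAbs ≤ R →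
        ((μ N : ℤ) - μ N').natAbs ≤ R → (Geod.gr S).dist (q N s) (q N' s') ≤ R →
        N = N' ∨ (μ N ≤ B ∧ μ N' ≤ B)) := by
  classical
  have hconn := Geod.gr_connected S hS
  choose w hw using fun k => hconn.exists_walk_length_eq_dist (1 : W) (c (2 ^ (k + 1) - 1))
  have hlen : ∀ k, (w k).length ≤ M k := fun k => (hw k).trans_le (hup k)
  have hMmono : Monotone M := monotone_nat_of_le_succ (fun k => by have := hM k; omega)
  have hMgap : ∀ k l, l < k → M l + k ≤ M k := by
    intro k l hlk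
    obtain ⟨j, rfl⟩ : ∃ j, k = j + 1 := ⟨k - 1, by omega⟩
    have h1 : M l ≤ M j := hMmono (by omega)
    have h2 := hM j
    omega
  let ν : ℕ → ℕ := fun N => padicValNat 2 (N + 1)
  let μ : ℕ → ℕ := fun N => M (ν N)
  let q : ℕ → ℕ → W := fun N s => c N * (w (ν N)).getVert s
  let a : ℕ → ℕ := fun N => ∑ i ∈ Finset.range N, 3 * μ i
  have hq0 : ∀ N, q N 0 = c N := by
    intro N
    simp [q]
  have hasucc : ∀ N, a (N + 1) = a N + 3 * μ N := by
    intro N
    simp only [a]
    rw [Finset.sum_range_succ]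
  have hdist : ∀ N N', (Geod.gr S).dist (c N) (c N') = (Geod.gr S).dist 1 (c (N ^^^ N')) := by
    intro N N'
    rw [← hxor, ← Geod.dist_left S hS (c N)⁻¹ (c N) (c N'), inv_mul_cancel]
  have hqd : ∀ N s, (Geod.gr S).dist (c N) (q N s) ≤ μ N := by
    intro N s
    have h1 : (Geod.gr S).dist (c N) (q N s) = (Geod.gr S).dist 1 ((w (ν N)).getVert s) := by
      have := Geod.dist_left S hS (c N) 1 ((w (ν N)).getVert s)
      rw [mul_one] at this
      exact this
    rw [h1]
    have h2 : ((w (ν N)).take s).length ≤ (w (ν N)).length := by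
      rw [SimpleGraph.Walk.take_length]
      exact Nat.min_le_right _ _
    exact (SimpleGraph.dist_le ((w (ν N)).take s)).trans (h2.trans (hlen _))
  refine ⟨μ, q, a, hq0, ?_, ?_, ?_, ?_, hasucc, ?_, ?_⟩
  · intro N
    exact hM0.trans (hMmono (Nat.zero_le _))
  · intro N
    rw [hq0]
    have h1 : (w (ν N)).getVert (μ N) = c (2 ^ (ν N + 1) - 1) :=
      SimpleGraph.Walk.getVert_of_length_le _ (hlen _)
    change c N * (w (ν N)).getVert (μ N) = c (N + 1)
    rw [h1]
    have h2 : N ^^^ (N + 1) = 2 ^ (ν N + 1) - 1 := xor_succ N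
    rw [← h2, ← hxor, mul_inv_cancel_left]
  · intro N s
    change (Geod.gr S).dist (c N * (w (ν N)).getVert s) (c N * (w (ν N)).getVert (s + 1)) ≤ 1
    rw [Geod.dist_left S hS]
    by_cases hs : s < (w (ν N)).length
    · have := (w (ν N)).adj_getVert_succ hs
      exact (SimpleGraph.dist_eq_one_iff_adj.2 this).le
    · rw [SimpleGraph.Walk.getVert_of_length_le _ (by omega),
        SimpleGraph.Walk.getVert_of_length_le _ (by omega)]
      simp
  · simp [a]
  · intro R
    have hfin : {X : ℕ | (Geod.gr S).dist 1 (c X) ≤ R}.Finite := by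
      have := (Geod.ball_finite S hS R).preimage (f := c) (hinj.injOn)
      exact this
    obtain ⟨K, hK⟩ := hfin.bddAbove
    have hK' : ∀ X, (Geod.gr S).dist 1 (c X) ≤ R → X < 2 ^ K := by
      intro X hX
      exact (hK hX).trans_lt Nat.lt_two_pow_self
    have key : ∀ N N', N ≤ N' → (Geod.gr S).dist (c N) (c N') ≤ R →
        ((a N : ℤ) - a N').natAbs ≤ 2 ^ K * (3 * M K) := by
      intro N N' hNN hd
      rw [hdist] at hd
      have hX := hK' _ hd
      have hdiv : N / 2 ^ K = N' / 2 ^ K := by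
        have h1 : (N ^^^ N') / 2 ^ K = N / 2 ^ K ^^^ N' / 2 ^ K := Nat.xor_div_two_pow
        rw [Nat.div_eq_of_lt hX] at h1
        exact Nat.xor_eq_zero_iff.1 h1.symm
      have hpos : 0 < 2 ^ K := by positivity
      have hstep : ∀ i, N ≤ i → i < N' → ν i < K := by
        intro i h1 h2
        by_contra hcon
        push Not at hcon
        have hd2 : 2 ^ K ∣ i + 1 := (pow_dvd_pow 2 hcon).trans pow_padicValNat_dvd
        obtain ⟨t, ht⟩ := hd2
        have h3 : N / 2 ^ K < t := by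
          rw [Nat.div_lt_iff_lt_mul hpos]
          rw [mul_comm]
          omega
        have h4 : t ≤ N' / 2 ^ K := by
          rw [Nat.le_div_iff_mul_le hpos, mul_comm]
          omega
        omega
      have hsum : ∀ j, N + j ≤ N' → a N ≤ a (N + j) ∧ a (N + j) ≤ a N + j * (3 * M K) := by
        intro j
        induction j with
        | zero => intro _; simp
        | succ j ih =>
          intro hj
          obtain ⟨h1, h2⟩ := ih (by omega)
          have h3 := hasucc (N + j)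
          have h4 : μ (N + j) ≤ M K := hMmono (hstep (N + j) (by omega) (by omega)).le
          have h5 : N + (j + 1) = N + j + 1 := by omega
          rw [h5, h3]
          constructor
          · omega
          · have : (j + 1) * (3 * M K) = j * (3 * M K) + 3 * M K := by ring
            rw [this]
            omega
      obtain ⟨h1, h2⟩ := hsum (N' - N) (by omega)
      have h3 : N + (N' - N) = N' := by omega
      rw [h3] at h1 h2
      have h4 : N' - N ≤ 2 ^ K := by
        have e1 := Nat.div_add_mod N (2 ^ K)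
        have e2 := Nat.div_add_mod N' (2 ^ K)
        have e3 := Nat.mod_lt N' hpos
        rw [hdiv] at e1
        omega
      have h5 : (N' - N) * (3 * M K) ≤ 2 ^ K * (3 * M K) := Nat.mul_le_mul_right _ h4
      omega
    refine ⟨2 ^ K * (3 * M K), ?_⟩
    intro N N' hd
    rw [hq0, hq0] at hd
    rcases le_total N N' with h | h
    · exact key N N' h hd
    · rw [SimpleGraph.dist_comm] at hd
      have := key N' N h hd
      omega
  · intro R
    refine ⟨M R, ?_⟩
    intro N N' s s' _ _ _ hμ hd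
    by_cases hNN : N = N'
    · exact Or.inl hNN
    right
    rcases lt_trichotomy (ν N) (ν N') with h | h | h
    · have h1 : M (ν N) + ν N' ≤ M (ν N') := hMgap _ _ h
      have h2 : ((M (ν N) : ℤ) - M (ν N')).natAbs ≤ R := hμ
      have h3 : ν N' ≤ R := by omega
      exact ⟨hMmono (by omega), hMmono h3⟩
    · have hX0 : N ^^^ N' ≠ 0 := by
        intro h0
        exact hNN (Nat.xor_eq_zero_iff.1 h0)
      have hdvd : 2 ^ (ν N + 1) ∣ N ^^^ N' := by
        apply Nat.dvd_of_mod_eq_zero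
        have h1 : (N ^^^ N') % 2 ^ (ν N + 1) = N % 2 ^ (ν N + 1) ^^^ N' % 2 ^ (ν N + 1) :=
          Nat.xor_mod_two_pow
        have h2 : N % 2 ^ (ν N + 1) = 2 ^ (ν N) - 1 := mod_of_val N
        have h3 : N' % 2 ^ (ν N' + 1) = 2 ^ (ν N') - 1 := mod_of_val N'
        rw [← h] at h3
        rw [h1, h2, h3, Nat.xor_self]
      have h1 := hlow (ν N) (N ^^^ N') hX0 hdvd
      rw [← hdist] at h1
      have h2 := hqd N s
      have h3 := hqd N' s'
      rw [SimpleGraph.dist_comm] at h3
      have h4 := hconn.dist_triangle (u := c N) (v := q N s) (w := c N')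
      have h5 := hconn.dist_triangle (u := q N s) (v := q N' s') (w := c N')
      have h6 : μ N' = μ N := by
        change M (ν N') = M (ν N)
        rw [h]
      have h7 : μ N = M (ν N) := rfl
      have h8 : ν N ≤ R := by omega
      have h9 : μ N ≤ M R := hMmono h8
      exact ⟨h9, h6.trans_le h9⟩
    · have h1 : M (ν N') + ν N ≤ M (ν N) := hMgap _ _ h
      have h2 : ((M (ν N) : ℤ) - M (ν N')).natAbs ≤ R := hμ
      have h3 : ν N ≤ R := by omega
      exact ⟨hMmono h3, hMmono (by omega)⟩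

end Pool.Agent.Helper475.RSC3
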