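import Mathlib

set_option autoImplicit false

namespace Pool.Agent.Helper475.RSD

theorem aux_state (μ a : ℕ → ℕ) (hμ : ∀ N, 1 ≤ μ N) (ha0 : a 0 = 0)
    (ha : ∀ N, a (N + 1) = a N + 3 * μ N) :
    ∃ X Y : ℕ → ℕ, X 0 = 0 ∧ Y 0 = 0 ∧ (∀ n, n = a (X n) + Y n ∧ Y n < 3 * μ (X n)) ∧
      (∀ n, (X (n+1) = X n ∧ Y (n+1) = Y n + 1) ∨
        (Y n + 1 = 3 * μ (X n) ∧ X (n+1) = X n + 1 ∧ Y (n+1) = 0)) := by
  obtain ⟨nx, hnx⟩ : ∃ nx : ℕ × ℕ → ℕ × ℕ,
    nx = fun x => if x.2 + 1 < 3 * μ x.1 then (x.1, x.2 + 1) else (x.1 + 1, 0) := ⟨_, rfl⟩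
  obtain ⟨st, hst⟩ : ∃ st : ℕ → ℕ × ℕ, st = fun n => nx^[n] (0, 0) := ⟨_, rfl⟩
  have st0 : st 0 = (0,0) := by rw [hst]; rfl
  have stS : ∀ n, st (n+1) = nx (st n) := by
    intro n
    rw [hst]
    exact Function.iterate_succ_apply' _ _ _
  have hpos : ∀ x : ℕ × ℕ, x.2 + 1 < 3 * μ x.1 → nx x = (x.1, x.2 + 1) := by
    intro x hx
    rw [hnx]
    exact if_pos hx
  have hneg : ∀ x : ℕ × ℕ, ¬ (x.2 + 1 < 3 * μ x.1) → nx x = (x.1 + 1, 0) := by
    intro x hx
    rw [hnx]
    exact if_neg hx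
  have inv : ∀ n, n = a (st n).1 + (st n).2 ∧ (st n).2 < 3 * μ (st n).1 := by
    intro n
    induction n with
    | zero =>
      rw [st0]
      have := hμ 0
      constructor
      · simp [ha0]
      · show 0 < 3 * μ 0
        omega
    | succ n ih =>
      rw [stS]
      obtain ⟨h1, h2⟩ := ih
      by_cases h : (st n).2 + 1 < 3 * μ (st n).1
      · rw [hpos _ h]
        refine ⟨?_, h⟩
        show n + 1 = a (st n).1 + ((st n).2 + 1)
        omega
      · rw [hneg _ h]
        have e1 := ha (st n).1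
        have e2 := hμ ((st n).1 + 1)
        constructor
        · show n + 1 = a ((st n).1 + 1) + 0
          omega
        · show 0 < 3 * μ ((st n).1 + 1)
          omega
  refine ⟨fun n => (st n).1, fun n => (st n).2, by show (st 0).1 = 0; rw [st0],
    by show (st 0).2 = 0; rw [st0], inv, ?_⟩
  intro n
  have h2 := (inv n).2
  by_cases h : (st n).2 + 1 < 3 * μ (st n).1
  · left
    simp only [stS n, hpos _ h]
    exact ⟨trivial, trivial⟩
  · right
    simp only [stS n, hneg _ h]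
    exact ⟨by omega, trivial, trivial⟩

/-- Anchor path lemma. `μ N` is a third of the length of the `N`-th gap, `q N` a path of length `μ N` in
the graph `Γ` from the anchor `q N 0` to the anchor `q (N+1) 0`, and `a N` the time of the `N`-th anchor. -/
theorem anchor_path {W : Type} (Γ : SimpleGraph W) (hΓ : Γ.Connected) (μ : ℕ → ℕ)
    (q : ℕ → ℕ → W) (a : ℕ → ℕ)
    (hμ : ∀ N, 1 ≤ μ N) (hq : ∀ N, q N (μ N) = q (N + 1) 0)
    (hlip : ∀ N s, Γ.dist (q N s) (q N (s + 1)) ≤ 1)
    (ha0 : a 0 = 0) (ha : ∀ N, a (N + 1) = a N + 3 * μ N)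
    (h2 : ∀ R : ℕ, ∃ B : ℕ, ∀ N N', Γ.dist (q N 0) (q N' 0) ≤ R →
      ((a N : ℤ) - a N').natAbs ≤ B)
    (h4 : ∀ R : ℕ, ∃ B : ℕ, ∀ N N' s s', s ≤ μ N → s' ≤ μ N' → ((s : ℤ) - s').natAbs ≤ R →
      ((μ N : ℤ) - μ N').natAbs ≤ R → Γ.dist (q N s) (q N' s') ≤ R →
      N = N' ∨ (μ N ≤ B ∧ μ N' ≤ B)) :
    ∃ (p : ℤ → W) (u v : ℤ → ℤ),
      (∀ z, Γ.dist (p z) (p (z + 1)) ≤ 1) ∧
      (∀ z, (u z - u (z + 1)).natAbs ≤ 1) ∧ (∀ z, (v z - v (z + 1)).natAbs ≤ 1) ∧
      (∀ R : ℕ, ∃ B : ℕ, ∀ z z', Γ.dist (p z) (p z') ≤ R → (u z - u z').natAbs ≤ R →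
        (v z - v z').natAbs ≤ R → (z - z').natAbs ≤ B) ∧
      (∀ N, ∃ z, p z = q N 0 ∧ u z = 0 ∧ v z = 0) := by
  classical
  obtain ⟨X, Y, hX0, hY0, hinv, hstep⟩ := aux_state μ a hμ ha0 ha
  have hmono : Monotone a := monotone_nat_of_le_succ (fun N => by rw [ha N]; omega)
  -- distances along a path
  have hd1 : ∀ N s, Γ.dist (q N s) (q N 0) ≤ s := by
    intro N s
    induction s with
    | zero => simp
    | succ s ih =>
      have h1 := hΓ.dist_triangle (u := q N (s+1)) (v := q N s) (w := q N 0)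
      have h2 := hlip N s
      rw [SimpleGraph.dist_comm] at h2
      omega
  have hd2 : ∀ N k s, Γ.dist (q N s) (q N (s + k)) ≤ k := by
    intro N k s
    induction k with
    | zero => simp
    | succ k ih =>
      have h1 := hΓ.dist_triangle (u := q N s) (v := q N (s+k)) (w := q N (s + (k+1)))
      have h2 := hlip N (s + k)
      rw [show s + k + 1 = s + (k + 1) by ring] at h2
      omega
  have hd3 : ∀ N s, s ≤ μ N → Γ.dist (q N s) (q (N+1) 0) ≤ μ N - s := by
    intro N s hs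
    have := hd2 N (μ N - s) s
    rw [show s + (μ N - s) = μ N by omega, hq N] at this
    exact this
  -- the functions
  obtain ⟨P, hP⟩ : ∃ P : ℕ → ℕ → W, P = fun N t => if t ≤ μ N then q N 0 else
    if t ≤ 2 * μ N then q N (t - μ N) else q (N+1) 0 := ⟨_, rfl⟩
  obtain ⟨U, hU⟩ : ∃ U : ℕ → ℕ → ℤ, U = fun N t => if t ≤ μ N then (t : ℤ) else
    if t ≤ 2 * μ N then 2 * (μ N : ℤ) - t else 0 := ⟨_, rfl⟩
  obtain ⟨V, hV⟩ : ∃ V : ℕ → ℕ → ℤ, V = fun N t => if t ≤ μ N then (0 : ℤ) else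
    if t ≤ 2 * μ N then (t : ℤ) - μ N else 3 * (μ N : ℤ) - t := ⟨_, rfl⟩
  have hPn : ∀ N, P N (3 * μ N) = P (N+1) 0 := by
    intro N
    have := hμ N
    rw [hP]
    simp only
    rw [if_neg (by omega), if_neg (by omega), if_pos (by omega)]
  have hUn : ∀ N, U N (3 * μ N) = U (N+1) 0 := by
    intro N
    have := hμ N
    rw [hU]
    simp only
    rw [if_neg (by omega), if_neg (by omega), if_pos (by omega)]
    simp
  have hVn : ∀ N, V N (3 * μ N) = V (N+1) 0 := by
    intro N
    have := hμ N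
    rw [hV]
    simp only
    rw [if_neg (by omega), if_neg (by omega), if_pos (by omega)]
    push_cast
    ring
  have hPs : ∀ N t, Γ.dist (P N t) (P N (t+1)) ≤ 1 := by
    intro N t
    have hm := hμ N
    rw [hP]
    simp only
    by_cases h1 : t + 1 ≤ μ N
    · rw [if_pos (by omega), if_pos h1]; simp
    · by_cases h2 : t ≤ μ N
      · rw [if_pos h2, if_neg h1, if_pos (by omega)]
        have : t + 1 - μ N = 0 + 1 := by omega
        rw [this]
        exact hlip N 0
      · rw [if_neg h2, if_neg h1]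
        by_cases h3 : t + 1 ≤ 2 * μ N
        · rw [if_pos (by omega), if_pos h3]
          have : t + 1 - μ N = (t - μ N) + 1 := by omega
          rw [this]
          exact hlip N _
        · rw [if_neg h3]
          by_cases h4 : t ≤ 2 * μ N
          · rw [if_pos h4]
            have : t - μ N = μ N := by omega
            rw [this, hq N]; simp
          · rw [if_neg h4]; simp
  have hUs : ∀ N t, (U N t - U N (t+1)).natAbs ≤ 1 := by
    intro N t
    have hm := hμ N
    rw [hU]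
    simp only
    split_ifs <;> push_cast <;> omega
  have hVs : ∀ N t, t < 3 * μ N → (V N t - V N (t+1)).natAbs ≤ 1 := by
    intro N t ht
    have hm := hμ N
    rw [hV]
    simp only
    split_ifs <;> push_cast <;> omega
  obtain ⟨p, hp⟩ : ∃ p : ℤ → W, p = fun z => if z < 0 then q 0 0 else
    P (X z.toNat) (Y z.toNat) := ⟨_, rfl⟩
  obtain ⟨u, hu⟩ : ∃ u : ℤ → ℤ, u = fun z => if z < 0 then z else
    U (X z.toNat) (Y z.toNat) := ⟨_, rfl⟩
  obtain ⟨v, hv⟩ : ∃ v : ℤ → ℤ, v = fun z => if z < 0 then 0 else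
    V (X z.toNat) (Y z.toNat) := ⟨_, rfl⟩
  have hpneg : ∀ z, z < 0 → p z = q 0 0 := fun z hz => by rw [hp]; exact if_pos hz
  have huneg : ∀ z, z < 0 → u z = z := fun z hz => by rw [hu]; exact if_pos hz
  have hvneg : ∀ z, z < 0 → v z = 0 := fun z hz => by rw [hv]; exact if_pos hz
  have hpn : ∀ n : ℕ, p n = P (X n) (Y n) := fun n => by
    rw [hp]; simp only; rw [if_neg (by omega), Int.toNat_natCast]
  have hun : ∀ n : ℕ, u n = U (X n) (Y n) := fun n => by
    rw [hu]; simp only; rw [if_neg (by omega), Int.toNat_natCast]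
  have hvn : ∀ n : ℕ, v n = V (X n) (Y n) := fun n => by
    rw [hv]; simp only; rw [if_neg (by omega), Int.toNat_natCast]
  have hP00 : ∀ N, P N 0 = q N 0 := by
    intro N; rw [hP]; simp
  have hU00 : ∀ N, U N 0 = 0 := by
    intro N; rw [hU]; simp
  have hV00 : ∀ N, V N 0 = 0 := by
    intro N; rw [hV]; simp
  have hcast : ∀ n : ℕ, (n : ℤ) + 1 = ((n + 1 : ℕ) : ℤ) := fun n => by push_cast; ring
  have hcases : ∀ z : ℤ, z < -1 ∨ z = -1 ∨ ∃ n : ℕ, z = n := by
    intro z
    by_cases h : z < 0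
    · rcases lt_or_ge z (-1) with h1 | h1
      · left; exact h1
      · right; left; omega
    · right; right; exact ⟨z.toNat, by omega⟩
  -- two types of points
  have hAB : ∀ z : ℤ, (∃ M, p z = q M 0 ∧ z = a M + u z - v z ∧ (u z = 0 ∨ v z = 0)) ∨
      (∃ N s, s ≤ μ N ∧ p z = q N s ∧ z = a N + μ N + s ∧ u z = μ N - s ∧ v z = s) := by
    intro z
    by_cases hz : z < 0
    · left
      refine ⟨0, hpneg z hz, ?_, Or.inr (hvneg z hz)⟩
      rw [huneg z hz, hvneg z hz, ha0]; simp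
    · obtain ⟨n, rfl⟩ : ∃ n : ℕ, z = n := ⟨z.toNat, by omega⟩
      rw [hpn, hun, hvn, hP, hU, hV]
      simp only
      obtain ⟨e1, e2⟩ := hinv n
      have e3 := ha (X n)
      by_cases h1 : Y n ≤ μ (X n)
      · left
        refine ⟨X n, ?_, ?_, ?_⟩
        · rw [if_pos h1]
        · rw [if_pos h1, if_pos h1]; omega
        · right; rw [if_pos h1]
      · by_cases h2 : Y n ≤ 2 * μ (X n)
        · right
          refine ⟨X n, Y n - μ (X n), by omega, ?_, ?_, ?_, ?_⟩
          · rw [if_neg h1, if_pos h2]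
          · omega
          · rw [if_neg h1, if_pos h2]; omega
          · rw [if_neg h1, if_pos h2]; omega
        · left
          refine ⟨X n + 1, ?_, ?_, ?_⟩
          · rw [if_neg h1, if_neg h2]
          · rw [if_neg h1, if_neg h2, if_neg h1, if_neg h2]; omega
          · left; rw [if_neg h1, if_neg h2]
  refine ⟨p, u, v, ?_, ?_, ?_, ?_, ?_⟩
  · intro z
    rcases hcases z with h | h | ⟨n, rfl⟩
    · rw [hpneg z (by omega), hpneg (z+1) (by omega)]; simp
    · subst h
      rw [hpneg (-1) (by omega), show (-1 : ℤ) + 1 = ((0 : ℕ) : ℤ) by norm_num, hpn, hX0, hY0, hP00]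
      simp
    · rw [hcast, hpn, hpn]
      rcases hstep n with ⟨h1, h2⟩ | ⟨h1, h2, h3⟩
      · rw [h1, h2]; exact hPs _ _
      · rw [h2, h3, ← hPn, ← h1]; exact hPs _ _
  · intro z
    rcases hcases z with h | h | ⟨n, rfl⟩
    · rw [huneg z (by omega), huneg (z+1) (by omega)]; omega
    · subst h
      rw [huneg (-1) (by omega), show (-1 : ℤ) + 1 = ((0 : ℕ) : ℤ) by norm_num, hun, hX0, hY0, hU00]
      simp
    · rw [hcast, hun, hun]
      rcases hstep n with ⟨h1, h2⟩ | ⟨h1, h2, h3⟩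
      · rw [h1, h2]; exact hUs _ _
      · rw [h2, h3, ← hUn, ← h1]; exact hUs _ _
  · intro z
    rcases hcases z with h | h | ⟨n, rfl⟩
    · rw [hvneg z (by omega), hvneg (z+1) (by omega)]; omega
    · subst h
      rw [hvneg (-1) (by omega), show (-1 : ℤ) + 1 = ((0 : ℕ) : ℤ) by norm_num, hvn, hX0, hY0, hV00]
      simp
    · rw [hcast, hvn, hvn]
      rcases hstep n with ⟨h1, h2⟩ | ⟨h1, h2, h3⟩
      · rw [h1, h2]; exact hVs _ _ (hinv n).2
      · rw [h2, h3, ← hVn, ← h1]; exact hVs _ _ (hinv n).2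
  · intro R
    obtain ⟨B1, hB1⟩ := h2 R
    obtain ⟨B2, hB2⟩ := h2 (2 * R)
    obtain ⟨B4, hB4⟩ := h4 (2 * R)
    obtain ⟨B5, hB5⟩ := h2 (R + 2 * B4)
    -- mixed case
    have mixed : ∀ z z' : ℤ,
        (∃ M, p z = q M 0 ∧ z = a M + u z - v z ∧ (u z = 0 ∨ v z = 0)) →
        (∃ N s, s ≤ μ N ∧ p z' = q N s ∧ z' = a N + μ N + s ∧ u z' = μ N - s ∧ v z' = s) →
        Γ.dist (p z) (p z') ≤ R → (u z - u z').natAbs ≤ R →
        (v z - v z').natAbs ≤ R → (z - z').natAbs ≤ B2 + 6 * R := by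
      rintro z z' ⟨M, m1, m2, m3⟩ ⟨N, s, n0, n1, n2, n3, n4⟩ hdd huu hvv
      rcases m3 with m3 | m3
      · -- u z = 0 : μ N - s ≤ R
        have hs : μ N - s ≤ R := by omega
        have hdist : Γ.dist (q M 0) (q (N+1) 0) ≤ 2 * R := by
          have t1 := hΓ.dist_triangle (u := q M 0) (v := q N s) (w := q (N+1) 0)
          have t2 := hd3 N s n0
          rw [m1, n1] at hdd
          omega
        have := hB2 _ _ hdist
        have e3 := ha N
        omega
      · have hs : s ≤ R := by omega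
        have hdist : Γ.dist (q M 0) (q N 0) ≤ 2 * R := by
          have t1 := hΓ.dist_triangle (u := q M 0) (v := q N s) (w := q N 0)
          have t2 := hd1 N s
          rw [m1, n1] at hdd
          omega
        have := hB2 _ _ hdist
        omega
    refine ⟨B1 + B2 + B5 + 6 * R, ?_⟩
    intro z z' hdd huu hvv
    rcases hAB z with hz | hz
    · rcases hAB z' with hz' | hz'
      · obtain ⟨M, m1, m2, m3⟩ := hz
        obtain ⟨M', m1', m2', m3'⟩ := hz'
        rw [m1, m1'] at hdd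
        have := hB1 _ _ hdd
        omega
      · have := mixed z z' hz hz' hdd huu hvv
        omega
    · rcases hAB z' with hz' | hz'
      · have := mixed z' z hz' hz (by rw [SimpleGraph.dist_comm]; exact hdd) (by omega) (by omega)
        omega
      · obtain ⟨N, s, n0, n1, n2, n3, n4⟩ := hz
        obtain ⟨N', s', n0', n1', n2', n3', n4'⟩ := hz'
        rw [n1, n1'] at hdd
        rcases hB4 N N' s s' n0 n0' (by omega) (by omega) (by omega) with h | ⟨h, h'⟩
        · subst h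
          omega
        · have hdist : Γ.dist (q N 0) (q N' 0) ≤ R + 2 * B4 := by
            have t1 := hΓ.dist_triangle (u := q N 0) (v := q N s) (w := q N' 0)
            have t2 := hΓ.dist_triangle (u := q N s) (v := q N' s') (w := q N' 0)
            have t3 := hd1 N s
            rw [SimpleGraph.dist_comm] at t3
            have t4 := hd1 N' s'
            omega
          have := hB5 _ _ hdist
          omega
  · intro N
    refine ⟨(a N : ℤ), ?_⟩
    have key : X (a N) = N ∧ Y (a N) = 0 := by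
      obtain ⟨e1, e2⟩ := hinv (a N)
      have hXN : X (a N) = N := by
        rcases lt_trichotomy (X (a N)) N with h | h | h
        · exfalso
          have h1 : a (X (a N) + 1) ≤ a N := hmono h
          have h2 := ha (X (a N))
          omega
        · exact h
        · exfalso
          have h1 : a (N + 1) ≤ a (X (a N)) := hmono h
          have h2 := ha N
          have h3 := hμ N
          omega
      refine ⟨hXN, ?_⟩
      rw [hXN] at e1
      omega
    rw [hpn, hun, hvn, key.1, key.2]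
    exact ⟨hP00 N, hU00 N, hV00 N⟩

end Pool.Agent.Helper475.RSD
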