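import Mathlib
import Pool.Agent.Helper475.Geod

set_option autoImplicit false

/-!
The group `FreeGroup (A / C) ⋊ A` with `A = W^m` and `C` a subgroup, its word metric.
-/

namespace Pool.Agent.Helper475.RSE

/-- The action of `A` on the free group on the set `A / C` by left translation of the generators. -/
def act {A : Type} [Group A] (C : Subgroup A) : A →* MulAut (FreeGroup (A ⧸ C)) where
  toFun a := FreeGroup.freeGroupCongr (MulAction.toPerm a)
  map_one' := by
    apply MulEquiv.toMonoidHom_injective
    apply FreeGroup.ext_hom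
    intro a
    simp
  map_mul' a b := by
    apply MulEquiv.toMonoidHom_injective
    apply FreeGroup.ext_hom
    intro c
    simp [mul_smul]

theorem act_of {A : Type} [Group A] (C : Subgroup A) (a : A) (b : A ⧸ C) :
    act C a (FreeGroup.of b) = FreeGroup.of (a • b) := by
  simp [act]

variable {W : Type} [Group W] {m : ℕ}

/-- The torsion factor. -/
abbrev AA (m : ℕ) (W : Type) : Type := Fin m → W

/-- The group. -/
abbrev GG (C : Subgroup (AA m W)) : Type :=
  SemidirectProduct (FreeGroup (AA m W ⧸ C)) (AA m W) (act C)

variable (C : Subgroup (AA m W))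

open SemidirectProduct

/-- The base coset. -/
def base : AA m W ⧸ C := ((1 : AA m W) : AA m W ⧸ C)

/-- The stable letter. -/
def tt : GG C := inl (FreeGroup.of (base C))

/-- Generators. -/
noncomputable def gens (S : Finset W) : Finset (GG C) := by
  classical
  exact insert (tt C) ((Finset.univ ×ˢ S).image (fun p : Fin m × W => inr (Pi.mulSingle p.1 p.2)))

theorem mem_gens (S : Finset W) (g : GG C) :
    g ∈ gens C S ↔ g = tt C ∨ ∃ i : Fin m, ∃ s ∈ S, g = inr (Pi.mulSingle i s) := by
  classical
  simp only [gens, Finset.mem_insert, Finset.mem_image, Finset.mem_product, Finset.mem_univ,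
    true_and]
  constructor
  · rintro (h | ⟨⟨i, s⟩, h1, h2⟩)
    · exact Or.inl h
    · exact Or.inr ⟨i, s, h1, h2.symm⟩
  · rintro (h | ⟨i, s, h1, h2⟩)
    · exact Or.inl h
    · exact Or.inr ⟨(i, s), h1, h2.symm⟩

theorem piece (a : AA m W) (s : Finset (Fin m)) (j : Fin m) (hj : j ∉ s) :
    (fun i => if i ∈ insert j s then a i else 1 : AA m W) =
      Pi.mulSingle j (a j) * (fun i => if i ∈ s then a i else 1 : AA m W) := by
  classical
  funext i
  by_cases hi : i = j
  · subst hi
    simp [hj]
  · simp [hi, Pi.mulSingle_eq_of_ne hi]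

theorem inr_mem (S : Finset W) (hS : Subgroup.closure (S : Set W) = ⊤) (K : Subgroup (GG C))
    (hK : ∀ i : Fin m, ∀ s ∈ S, (inr (Pi.mulSingle i s) : GG C) ∈ K) (a : AA m W) :
    (inr a : GG C) ∈ K := by
  classical
  have h1 : ∀ (i : Fin m) (t : W), (inr (Pi.mulSingle i t) : GG C) ∈ K := by
    intro i t
    have ht : t ∈ Subgroup.closure (S : Set W) := by rw [hS]; trivial
    induction ht using Subgroup.closure_induction with
    | mem x hx => exact hK i x hx
    | one => rw [Pi.mulSingle_one, map_one]; exact K.one_mem
    | mul x y _ _ hx hy => rw [Pi.mulSingle_mul, map_mul]; exact K.mul_mem hx hy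
    | inv x _ hx => rw [Pi.mulSingle_inv, map_inv]; exact K.inv_mem hx
  have h2 : ∀ s : Finset (Fin m), (inr (fun i => if i ∈ s then a i else 1 : AA m W) : GG C) ∈ K := by
    intro s
    induction s using Finset.induction_on with
    | empty =>
      have : (fun i => if i ∈ (∅ : Finset (Fin m)) then a i else 1 : AA m W) = 1 := by
        funext i; simp
      rw [this, map_one]
      exact K.one_mem
    | insert j s hj ih =>
      rw [piece a s j hj, map_mul]
      exact K.mul_mem (h1 _ _) ih
  have h3 := h2 Finset.univ
  simpa using h3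

theorem gens_closure (S : Finset W) (hS : Subgroup.closure (S : Set W) = ⊤) :
    Subgroup.closure (gens C S : Set (GG C)) = ⊤ := by
  classical
  set K := Subgroup.closure (gens C S : Set (GG C)) with hK
  have h2 : ∀ a : AA m W, (inr a : GG C) ∈ K := by
    intro a
    apply inr_mem C S hS K
    intro i s hs
    exact Subgroup.subset_closure ((mem_gens C S _).2 (Or.inr ⟨i, s, hs, rfl⟩))
  have h3 : ∀ x : AA m W ⧸ C, (inl (FreeGroup.of x) : GG C) ∈ K := by
    intro x
    obtain ⟨a, rfl⟩ := QuotientGroup.mk_surjective x
    have e : (inl (FreeGroup.of ((a : AA m W) : AA m W ⧸ C)) : GG C) =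
        inr a * tt C * (inr a)⁻¹ := by
      have := inl_aut (φ := act C) a (FreeGroup.of (base C))
      rw [act_of] at this
      have e2 : a • base C = ((a : AA m W) : AA m W ⧸ C) := by
        change (((a * 1 : AA m W)) : AA m W ⧸ C) = _
        rw [mul_one]
      rw [e2] at this
      rw [this, map_inv]
      rfl
    rw [e]
    refine K.mul_mem (K.mul_mem (h2 a) ?_) (K.inv_mem (h2 a))
    exact Subgroup.subset_closure ((mem_gens C S _).2 (Or.inl rfl))
  have h4 : ∀ w : FreeGroup (AA m W ⧸ C), (inl w : GG C) ∈ K := by
    intro w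
    induction w using FreeGroup.induction_on with
    | C1 => rw [map_one]; exact K.one_mem
    | of x => exact h3 x
    | inv_of x _ => rw [map_inv]; exact K.inv_mem (h3 x)
    | mul x y hx hy => rw [map_mul]; exact K.mul_mem hx hy
  rw [eq_top_iff]
  intro g _
  rw [← inl_left_mul_inr_right g]
  exact K.mul_mem (h4 _) (h2 _)

/-- The Cayley graph. -/
abbrev gr (S : Finset W) : SimpleGraph (GG C) :=
  SimpleGraph.fromRel (fun g h : GG C => g⁻¹ * h ∈ gens C S)

theorem smul_base (a : AA m W) : a • base C = ((a : AA m W) : AA m W ⧸ C) := by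
  change (((a * 1 : AA m W)) : AA m W ⧸ C) = _
  rw [mul_one]

/-- Steps of the Cayley graph. -/
theorem step (S : Finset W) (g h : GG C) (hgh : (gr C S).Adj g h) :
    (∃ e : Bool, h.right = g.right ∧
      h.left = g.left * FreeGroup.mk [(((g.right : AA m W) : AA m W ⧸ C), e)]) ∨
    (h.left = g.left ∧ ∃ i : Fin m, ∃ s ∈ S, h.right = g.right * Pi.mulSingle i s ∨
      g.right = h.right * Pi.mulSingle i s) := by
  rw [SimpleGraph.fromRel_adj] at hgh
  obtain ⟨-, hgh⟩ := hgh
  have base : ∀ g h : GG C, g⁻¹ * h ∈ gens C S →
      (h.right = g.right ∧ h.left = g.left * FreeGroup.of ((g.right : AA m W) : AA m W ⧸ C)) ∨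
      (h.left = g.left ∧ ∃ i : Fin m, ∃ s ∈ S, h.right = g.right * Pi.mulSingle i s) := by
    intro g h hgh
    rw [mem_gens] at hgh
    rcases hgh with h1 | ⟨i, s, hs, h1⟩
    · have h2 : h = g * tt C := by rw [← h1, mul_inv_cancel_left]
      left
      rw [h2]
      constructor
      · rw [mul_right]; simp [tt]
      · rw [mul_left, tt, left_inl, act_of, smul_base]
    · have h2 : h = g * inr (Pi.mulSingle i s) := by rw [← h1, mul_inv_cancel_left]
      right
      rw [h2]
      constructor
      · rw [mul_left]; simp
      · exact ⟨i, s, hs, by rw [mul_right]; simp⟩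
  rcases hgh with hgh | hgh
  · rcases base g h hgh with ⟨h1, h2⟩ | ⟨h1, i, s, hs, h2⟩
    · left
      exact ⟨true, h1, h2⟩
    · right
      exact ⟨h1, i, s, hs, Or.inl h2⟩
  · rcases base h g hgh with ⟨h1, h2⟩ | ⟨h1, i, s, hs, h2⟩
    · left
      refine ⟨false, h1.symm, ?_⟩
      rw [h2, ← h1]
      have : (FreeGroup.mk [(((g.right : AA m W) : AA m W ⧸ C), false)] :
          FreeGroup (AA m W ⧸ C)) = (FreeGroup.of ((g.right : AA m W) : AA m W ⧸ C))⁻¹ := rfl
      rw [this, mul_inv_cancel_right]
    · right
      exact ⟨h1.symm, i, s, hs, Or.inr h2⟩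

theorem gr_connected (S : Finset W) (hS : Subgroup.closure (S : Set W) = ⊤) :
    (gr C S).Connected := Geod.gr_connected (gens C S) (gens_closure C S hS)

/-- A function changing by at most one along edges is Lipschitz. -/
theorem lip_of_edges {V : Type} (Γ : SimpleGraph V) (hΓ : Γ.Connected) (F : V → V → ℕ)
    (h0 : ∀ a, F a a = 0) (htri : ∀ a b c, F a c ≤ F a b + F b c)
    (h : ∀ a b, Γ.Adj a b → F a b ≤ 1) (a b : V) : F a b ≤ Γ.dist a b := by
  obtain ⟨p, hp⟩ := hΓ.exists_walk_length_eq_dist a b
  rw [← hp]
  clear hp
  induction p with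
  | nil => rw [h0]; exact Nat.zero_le _
  | @cons a b c hab q ih =>
    have h1 := h a b hab
    have h2 := htri a b c
    rw [SimpleGraph.Walk.length_cons]
    omega

/-- The coordinate projections to `W` are Lipschitz. -/
theorem proj_lip (S : Finset W) (hS : Subgroup.closure (S : Set W) = ⊤) (i : Fin m)
    (g h : GG C) :
    (Geod.gr S).dist (g.right i) (h.right i) ≤ (gr C S).dist g h := by
  classical
  have hconn : (Geod.gr S).Connected := Geod.gr_connected S hS
  refine lip_of_edges (gr C S) (gr_connected C S hS)
    (fun g h => (Geod.gr S).dist (g.right i) (h.right i))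
    (fun a => SimpleGraph.dist_self) (fun a b c => hconn.dist_triangle) ?_ g h
  intro a b hab
  have key : ∀ x y : AA m W, ∀ j : Fin m, ∀ s ∈ S, y = x * Pi.mulSingle j s →
      (Geod.gr S).dist (x i) (y i) ≤ 1 := by
    intro x y j s hs hxy
    by_cases hxy' : x i = y i
    · rw [hxy', SimpleGraph.dist_self]; omega
    · refine (SimpleGraph.dist_eq_one_iff_adj.2 ?_).le
      rw [Geod.gr_adj]
      refine ⟨hxy', Or.inl ?_⟩
      have hij : i = j := by
        by_contra hne
        apply hxy'
        rw [hxy, Pi.mul_apply, Pi.mulSingle_eq_of_ne hne, mul_one]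
      subst hij
      rw [hxy, Pi.mul_apply, Pi.mulSingle_eq_same, inv_mul_cancel_left]
      exact hs
  rcases step C S a b hab with ⟨e, h1, h2⟩ | ⟨h1, j, s, hs, h2 | h2⟩
  · simp only [h1, SimpleGraph.dist_self]; omega
  · exact key _ _ j s hs h2
  · change (Geod.gr S).dist (a.right i) (b.right i) ≤ 1
    rw [SimpleGraph.dist_comm]
    exact key _ _ j s hs h2

/-- Upper bound of distances in the factor. -/
theorem inr_step (S : Finset W) (hS : Subgroup.closure (S : Set W) = ⊤) (x : AA m W) (i : Fin m)
    (w : W) :
    (gr C S).dist (inr x) (inr (Function.update x i w)) ≤ (Geod.gr S).dist (x i) w := by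
  classical
  have key : ∀ (b c : W) (p : (Geod.gr S).Walk b c) (y : AA m W), y i = b →
      (gr C S).dist (inr y) (inr (Function.update y i c)) ≤ p.length := by
    intro b c p
    induction p with
    | nil =>
      intro y hy
      rw [← hy, Function.update_eq_self, SimpleGraph.dist_self]
      exact Nat.zero_le _
    | @cons b c d hbc q ih =>
      intro y hy
      have h1 := ih (Function.update y i c) (Function.update_self _ _ _)
      rw [Function.update_idem] at h1
      have h2 : (gr C S).dist (inr y) (inr (Function.update y i c)) ≤ 1 := by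
        refine (SimpleGraph.dist_eq_one_iff_adj.2 ?_).le
        rw [SimpleGraph.fromRel_adj]
        rw [Geod.gr_adj] at hbc
        constructor
        · intro h
          have h1 := congrArg (fun g : GG C => g.right i) h
          simp only [right_inr, Function.update_self] at h1
          rw [hy] at h1
          exact hbc.1 h1
        · rcases hbc.2 with h | h
          · left
            rw [mem_gens]
            right
            refine ⟨i, _, h, ?_⟩
            rw [← map_inv, ← map_mul]
            congr 1
            funext j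
            by_cases hj : j = i
            · subst hj; simp [hy]
            · simp [Function.update_of_ne hj, Pi.mulSingle_eq_of_ne hj]
          · right
            rw [mem_gens]
            right
            refine ⟨i, _, h, ?_⟩
            rw [← map_inv, ← map_mul]
            congr 1
            funext j
            by_cases hj : j = i
            · subst hj; simp [hy]
            · simp [Function.update_of_ne hj, Pi.mulSingle_eq_of_ne hj]
      have h3 := (gr_connected C S hS).dist_triangle (u := inr y)
        (v := inr (Function.update y i c)) (w := inr (Function.update y i d))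
      rw [SimpleGraph.Walk.length_cons]
      omega
  obtain ⟨p, hp⟩ := (Geod.gr_connected S hS).exists_walk_length_eq_dist (x i) w
  rw [← hp]
  exact key _ _ p x rfl

theorem inr_up_aux (S : Finset W) (hS : Subgroup.closure (S : Set W) = ⊤) (x y : AA m W)
    (s : Finset (Fin m)) :
    (gr C S).dist (inr x) (inr (fun i => if i ∈ s then y i else x i)) ≤
      ∑ i ∈ s, (Geod.gr S).dist (x i) (y i) := by
  classical
  induction s using Finset.induction_on with
  | empty => simp
  | insert a s ha ih =>
    have e : (fun i => if i ∈ insert a s then y i else x i) =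
        Function.update (fun i => if i ∈ s then y i else x i) a (y a) := by
      funext i
      by_cases hi : i = a
      · subst hi; simp
      · rw [Function.update_of_ne hi]
        simp [Finset.mem_insert, hi]
    rw [e, Finset.sum_insert ha]
    have h1 := inr_step C S hS (fun i => if i ∈ s then y i else x i) a (y a)
    simp only [if_neg ha] at h1
    have h2 := (gr_connected C S hS).dist_triangle (u := inr x)
      (v := inr (fun i => if i ∈ s then y i else x i))
      (w := inr (Function.update (fun i => if i ∈ s then y i else x i) a (y a)))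
    omega

theorem inr_up (S : Finset W) (hS : Subgroup.closure (S : Set W) = ⊤) (x y : AA m W) :
    (gr C S).dist (inr x) (inr y) ≤ ∑ i, (Geod.gr S).dist (x i) (y i) := by
  classical
  have := inr_up_aux C S hS x y Finset.univ
  simpa using this

/-- The exponent sum. -/
def esum : FreeGroup (AA m W ⧸ C) →* Multiplicative ℤ :=
  FreeGroup.lift (fun _ => Multiplicative.ofAdd 1)

theorem esum_lip (S : Finset W) (hS : Subgroup.closure (S : Set W) = ⊤) (g h : GG C) :
    (Multiplicative.toAdd (esum C g.left) - Multiplicative.toAdd (esum C h.left)).natAbs ≤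
      (gr C S).dist g h := by
  refine lip_of_edges (gr C S) (gr_connected C S hS)
    (fun g h => (Multiplicative.toAdd (esum C g.left) -
      Multiplicative.toAdd (esum C h.left)).natAbs)
    (fun a => by simp) (fun a b c => by omega) ?_ g h
  intro a b hab
  rcases step C S a b hab with ⟨e, h1, h2⟩ | ⟨h1, -⟩
  · simp only [h2, map_mul, toAdd_mul]
    have : (Multiplicative.toAdd (esum C (FreeGroup.mk
        [(((a.right : AA m W) : AA m W ⧸ C), e)]))).natAbs ≤ 1 := by
      cases e
      · have : (FreeGroup.mk [(((a.right : AA m W) : AA m W ⧸ C), false)] :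
            FreeGroup (AA m W ⧸ C)) = (FreeGroup.of ((a.right : AA m W) : AA m W ⧸ C))⁻¹ := rfl
        rw [this, map_inv]
        simp [esum]
      · have : (FreeGroup.mk [(((a.right : AA m W) : AA m W ⧸ C), true)] :
            FreeGroup (AA m W ⧸ C)) = FreeGroup.of ((a.right : AA m W) : AA m W ⧸ C) := rfl
        rw [this]
        simp [esum]
    omega
  · simp only [h1]
    simp

/-- Last letter of the inverse of the free part: it tells the branch. -/
noncomputable def last {X : Type} (w : FreeGroup X) : Option (X × Bool) := by
  classical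
  exact (w⁻¹).toWord.getLast?

/-- Multiplication by a letter does not change the branch unless it starts or ends at the
trivial word. -/
theorem last_step {X : Type} (w : FreeGroup X) (a : X) (e : Bool) (hw : w ≠ 1)
    (hw' : w * FreeGroup.mk [(a, e)] ≠ 1) :
    last (w * FreeGroup.mk [(a, e)]) = last w := by
  classical
  have h1 : (w * FreeGroup.mk [(a, e)])⁻¹ = FreeGroup.mk [(a, !e)] * w⁻¹ := by
    rw [mul_inv_rev]
    congr 1
  have hw1 : w⁻¹ ≠ 1 := fun h => hw (inv_eq_one.1 h)
  have h2 : FreeGroup.mk [(a, !e)] * w⁻¹ ≠ 1 := by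
    rw [← h1]
    exact fun h => hw' (inv_eq_one.1 h)
  simp only [last]
  rw [h1]
  set v := w⁻¹ with hv
  have h3 : (FreeGroup.mk [(a, !e)] * v).toWord = FreeGroup.reduce ((a, !e) :: v.toWord) := by
    conv_lhs => rw [← FreeGroup.mk_toWord (x := v)]
    rw [FreeGroup.mul_mk, FreeGroup.toWord_mk]
    rfl
  have h4 : v.toWord ≠ [] := fun h => hw1 (FreeGroup.toWord_eq_nil_iff.1 h)
  have h5 : (FreeGroup.mk [(a, !e)] * v).toWord ≠ [] := fun h => h2 (FreeGroup.toWord_eq_nil_iff.1 h)
  rw [h3] at h5 ⊢
  rw [FreeGroup.reduce.cons, FreeGroup.reduce_toWord] at h5 ⊢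
  rcases hL : v.toWord with _ | ⟨hd, tl⟩
  · exact absurd hL h4
  · rw [hL] at h5
    simp only at h5 ⊢
    split_ifs at h5 ⊢ with hc
    · rcases tl with _ | ⟨y, ys⟩
      · exact absurd rfl h5
      · simp
    · simp

theorem last_single {X : Type} (w : FreeGroup X) (a : X) (e : Bool)
    (h : w⁻¹ = FreeGroup.mk [(a, e)]) : last w = some (a, e) := by
  classical
  simp only [last]
  rw [h, FreeGroup.toWord_mk, FreeGroup.reduce_singleton]
  rfl

theorem last_pow {X : Type} (a : X) (k : ℕ) (hk : 0 < k) :
    last (FreeGroup.of a ^ k) = some (a, false) := by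
  classical
  simp only [last]
  rw [FreeGroup.toWord_inv, FreeGroup.toWord_of_pow]
  obtain ⟨l, rfl⟩ : ∃ l, k = l + 1 := ⟨k - 1, by omega⟩
  simp [FreeGroup.invRev, List.getLast?_replicate]

theorem last_pow_inv {X : Type} (a : X) (k : ℕ) (hk : 0 < k) :
    last ((FreeGroup.of a ^ k)⁻¹) = some (a, true) := by
  classical
  simp only [last, inv_inv]
  rw [FreeGroup.toWord_of_pow]
  obtain ⟨l, rfl⟩ : ∃ l, k = l + 1 := ⟨k - 1, by omega⟩
  simp [List.getLast?_replicate]

theorem last_one {X : Type} : last (1 : FreeGroup X) = none := by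
  classical
  simp [last]

theorem walk_branch (S : Finset W) {u v : GG C} (p : (gr C S).Walk u v)
    (hp : ∀ a : AA m W, a ∈ C → (inr a : GG C) ∉ p.support)
    (hu : last u.left = some (base C, false)) :
    last v.left = some (base C, false) := by
  classical
  induction p with
  | nil => exact hu
  | @cons u b v hub q ih =>
    rw [SimpleGraph.Walk.support_cons] at hp
    apply ih (fun a ha hw => hp a ha (List.mem_cons_of_mem _ hw))
    rcases step C S u b hub with ⟨e, h1, h2⟩ | ⟨h1, -⟩
    · have hu1 : u.left ≠ 1 := by
        intro h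
        rw [h, last_one] at hu
        exact absurd hu (by simp)
      by_cases hb1 : b.left = 1
      · exfalso
        rw [hb1] at h2
        have h3 : (u.left)⁻¹ = FreeGroup.mk [(((u.right : AA m W) : AA m W ⧸ C), e)] :=
          (eq_inv_of_mul_eq_one_right h2.symm).symm ▸ rfl
        rw [last_single _ _ _ h3] at hu
        simp only [Option.some.injEq, Prod.mk.injEq] at hu
        have hmem : b.right ∈ C := by
          rw [h1]
          have h5 := hu.1
          rw [base, eq_comm, QuotientGroup.eq] at h5
          simpa using h5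
        refine hp b.right hmem (List.mem_cons_of_mem _ ?_)
        have e : (inr b.right : GG C) = b := by
          apply SemidirectProduct.ext
          · rw [hb1, left_inr]
          · rw [right_inr]
        rw [e]
        exact q.start_mem_support
      · rw [h2] at hb1 ⊢
        rw [last_step _ _ _ hu1 hb1]
        exact hu
    · rw [h1]; exact hu

end Pool.Agent.Helper475.RSE
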