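import Mathlib

set_option autoImplicit false

namespace Pool.Agent.Helper475.RSK

open Filter

/-- From a modulus of properness to a lower control function. -/
theorem lower_control {Z : Type} (s : Z → Z → ℕ) (d : Z → Z → ℕ)
    (h : ∀ R : ℕ, ∃ B : ℕ, ∀ a b, d a b ≤ R → s a b ≤ B) :
    ∃ ρ : ℕ → ℕ, Tendsto ρ atTop atTop ∧ ∀ a b, ρ (s a b) ≤ d a b := by
  classical
  choose B hB using h
  refine ⟨fun t => Nat.findGreatest (fun R => ∀ R2 ≤ R, B R2 < t) t, ?_, ?_⟩
  · rw [tendsto_atTop]
    intro K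
    filter_upwards [eventually_ge_atTop (K + ∑ i ∈ Finset.range (K + 1), B i + 1)] with t ht
    refine Nat.le_findGreatest (by omega) ?_
    intro R2 hR2
    have h1 : B R2 ≤ ∑ i ∈ Finset.range (K + 1), B i :=
      Finset.single_le_sum (f := B) (fun i _ => Nat.zero_le _) (Finset.mem_range.mpr (by omega))
    omega
  · intro a b
    by_contra hcon
    push Not at hcon
    have h1 : ∀ R2 ≤ Nat.findGreatest (fun R => ∀ R2 ≤ R, B R2 < s a b) (s a b), B R2 < s a b :=
      Nat.findGreatest_of_ne_zero (P := fun R => ∀ R2 ≤ R, B R2 < s a b) rfl (by omega)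
    have h2 := h1 (d a b) hcon.le
    have h3 := hB (d a b) a b le_rfl
    omega

end Pool.Agent.Helper475.RSK
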