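import Mathlib
import Pool.Agent.Helper475.RSE
import Pool.Agent.Helper475.RSA1
import Pool.Agent.Helper475.RSA2
import Pool.Agent.Helper475.RSA3
import Pool.Agent.Helper475.RSA4

set_option autoImplicit false

namespace Pool.Agent.Helper475.RSTree

open Pool.Agent.Helper475
open Pool.Agent.Helper475.RSE
open SemidirectProduct

/-- Serre: a finitely generated torsion group acting on a tree without inversions fixes a vertex. -/
theorem serre {H : Type} [Group H] (X : Type) (Γ : SimpleGraph X) (hT : Γ.IsTree)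
    (ρ : H →* Equiv.Perm X)
    (hadj : ∀ g u v, Γ.Adj u v → Γ.Adj (ρ g u) (ρ g v))
    (hinv : ∀ g u v, Γ.Adj u v → ¬ (ρ g u = v ∧ ρ g v = u))
    (htor : ∀ g : H, IsOfFinOrder g) (S : Finset H) (hS : Subgroup.closure (S : Set H) = ⊤) :
    ∃ v, ∀ g, ρ g v = v := by
  refine RSA3.fixed_vertex ?_ ?_ X Γ hT ρ hadj hinv htor S hS
  · intro X Γ hT g h1 h2 h3 x
    exact RSA2.midpoint
      (fun X Γ hT u v w q a b c => RSA1.concat hT u v w q a b c)
      (fun X Γ hT v a b q h1 h2 h3 h4 => RSA1.toward_unique hT v a b q h1 h2 h3 h4)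
      X Γ hT g h1 h2 h3 x
  · intro X Γ hT x y m m' h1 h2 h3
    exact RSA4.mid_unique hT x y m m' h1 h2 h3

variable {W : Type} [Group W] {m : ℕ}

theorem comm_tt (C : Subgroup (AA m W)) (c : AA m W) (hc : c ∈ C) :
    (inr c : GG C) * tt C = tt C * inr c := by
  have h := inl_aut (φ := act C) c (FreeGroup.of (base C))
  rw [act_of, smul_base] at h
  have e : ((c : AA m W) : AA m W ⧸ C) = base C := by
    rw [base, eq_comm, QuotientGroup.eq]
    simpa using hc
  rw [e] at h
  change tt C = inr c * tt C * inr c⁻¹ at h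
  rw [map_inv, eq_mul_inv_iff_mul_eq] at h
  exact h.symm

theorem fg_AA (S : Finset W) (hS : Subgroup.closure (S : Set W) = ⊤) :
    ∃ S' : Finset (AA m W), Subgroup.closure (S' : Set (AA m W)) = ⊤ := by
  classical
  refine ⟨(Finset.univ ×ˢ S).image (fun p : Fin m × W => Pi.mulSingle p.1 p.2), ?_⟩
  rw [eq_top_iff]
  intro a _
  set K := Subgroup.closure (((Finset.univ ×ˢ S).image
    (fun p : Fin m × W => (Pi.mulSingle p.1 p.2 : AA m W)) : Finset (AA m W)) : Set (AA m W))
    with hK
  have h := inr_mem (⊤ : Subgroup (AA m W)) S hS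
    (K.map (inr : AA m W →* GG (⊤ : Subgroup (AA m W)))) (by
      intro i s hs
      refine ⟨Pi.mulSingle i s, ?_, rfl⟩
      apply Subgroup.subset_closure
      simp only [Finset.coe_image, Set.mem_image, Finset.mem_coe, Finset.mem_product,
        Finset.mem_univ, true_and]
      exact ⟨(i, s), hs, rfl⟩) a
  obtain ⟨b, hb, hab⟩ := h
  have : b = a := SemidirectProduct.inr_injective hab
  rw [← this]
  exact hb

/-- The group has no action on a tree without fixed vertex whose edge stabilizers are virtually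
torsion-free. -/
theorem no_action (S : Finset W) (hS : Subgroup.closure (S : Set W) = ⊤)
    (htor : ∀ g : W, IsOfFinOrder g) (C : Subgroup (AA m W)) (hC : Infinite C)
    (X : Type) (Γ : SimpleGraph X) (ρ : GG C →* Equiv.Perm X) (hT : Γ.IsTree)
    (hadj : ∀ g u v, Γ.Adj u v → Γ.Adj (ρ g u) (ρ g v))
    (hinv : ∀ g u v, Γ.Adj u v → ¬ (ρ g u = v ∧ ρ g v = u))
    (hst : ∀ u v, Γ.Adj u v → ∀ H : Subgroup (GG C), (∀ g, g ∈ H ↔ (ρ g u = u ∧ ρ g v = v)) →
      ∃ K : Subgroup (GG C), K ≤ H ∧ (K.subgroupOf H).index ≠ 0 ∧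
        ∀ g ∈ K, IsOfFinOrder g → g = 1) :
    ∃ v, ∀ g, ρ g v = v := by
  classical
  have htorA : ∀ a : AA m W, IsOfFinOrder a := fun a => IsOfFinOrder.pi (fun i => htor (a i))
  obtain ⟨S', hS'⟩ := fg_AA (m := m) S hS
  obtain ⟨v, hv⟩ := serre X Γ hT (ρ.comp (inr : AA m W →* GG C))
    (fun g u w h => hadj _ u w h) (fun g u w h => hinv _ u w h) htorA S' hS'
  have hv' : ∀ a : AA m W, ρ (inr a) v = v := hv
  have htt : ρ (tt C) v = v := by
    by_contra hne
    obtain ⟨u, hu, hfix⟩ := RSA4.fixed_neighbor X Γ hT (ρ.comp (inr : AA m W →* GG C))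
      (fun g u w h => hadj _ u w h) (C : Set (AA m W)) v (ρ (tt C) v)
      (fun c _ => hv c) (by
        intro c hc
        change ρ (inr c) (ρ (tt C) v) = ρ (tt C) v
        rw [← Equiv.Perm.mul_apply, ← map_mul, comm_tt C c hc, map_mul, Equiv.Perm.mul_apply,
          hv' c]) (Ne.symm hne)
    let St : Subgroup (GG C) :=
      { carrier := {g | ρ g v = v ∧ ρ g u = u}
        one_mem' := by simp
        mul_mem' := by
          rintro a b ⟨ha1, ha2⟩ ⟨hb1, hb2⟩
          exact ⟨by rw [map_mul, Equiv.Perm.mul_apply, hb1, ha1],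
            by rw [map_mul, Equiv.Perm.mul_apply, hb2, ha2]⟩
        inv_mem' := by
          rintro a ⟨ha1, ha2⟩
          exact ⟨by rw [map_inv, Equiv.Perm.inv_eq_iff_eq, ha1],
            by rw [map_inv, Equiv.Perm.inv_eq_iff_eq, ha2]⟩ }
    obtain ⟨K, hKle, hKi, hKt⟩ := hst v u hu St (fun g => Iff.rfl)
    have hFI : (K.subgroupOf St).FiniteIndex := ⟨hKi⟩
    have hfin : Finite (St ⧸ K.subgroupOf St) := Subgroup.finite_quotient_of_finiteIndex
    have hmem : ∀ c : C, (inr (c : AA m W) : GG C) ∈ St := fun c => ⟨hv' _, hfix _ c.2⟩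
    obtain ⟨c, c', hcc, heq⟩ := Finite.exists_ne_map_eq_of_infinite
      (fun c : C => (QuotientGroup.mk (⟨inr (c : AA m W), hmem c⟩ : St) : St ⧸ K.subgroupOf St))
    rw [QuotientGroup.eq, Subgroup.mem_subgroupOf] at heq
    have h1 : (inr ((c : AA m W)⁻¹ * (c' : AA m W)) : GG C) ∈ K := by
      rw [map_mul, map_inv]
      exact heq
    have h2 := hKt _ h1 (by
      have := htorA ((c : AA m W)⁻¹ * (c' : AA m W))
      exact MonoidHom.isOfFinOrder (inr : AA m W →* GG C) this)
    rw [← map_one (inr : AA m W →* GG C)] at h2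
    have h3 := SemidirectProduct.inr_injective h2
    apply hcc
    apply Subtype.ext
    rw [inv_mul_eq_one] at h3
    exact h3
  refine ⟨v, ?_⟩
  let K : Subgroup (GG C) :=
    { carrier := {g | ρ g v = v}
      one_mem' := by simp
      mul_mem' := by
        intro a b ha hb
        change ρ (a * b) v = v
        rw [map_mul, Equiv.Perm.mul_apply, hb, ha]
      inv_mem' := by
        intro a ha
        change ρ a⁻¹ v = v
        rw [map_inv, Equiv.Perm.inv_eq_iff_eq, ha] }
  have hle : Subgroup.closure (gens C S : Set (GG C)) ≤ K := by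
    rw [Subgroup.closure_le]
    intro g hg
    rw [Finset.mem_coe, mem_gens] at hg
    rcases hg with rfl | ⟨i, s, hs, rfl⟩
    · exact htt
    · exact hv' _
  intro g
  have : g ∈ Subgroup.closure (gens C S : Set (GG C)) := by rw [gens_closure C S hS]; trivial
  exact hle this

end Pool.Agent.Helper475.RSTree
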