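import Mathlib

namespace Pool.Agent.Helper475.TW

open Classical in
/-- the point with parameter `t` on the edge `x` of the theta graph with edge set `F` -/
noncomputable def th {F : Type} (x : F) (t : ℝ) : ℝ × (F → ℝ) :=
  (t, fun y => if y = x then t * (1 - t) else 0)

/-- the theta graph with edge set `F`, in `ℝ × ℝ^F` -/
def Theta (F : Type) : Set (ℝ × (F → ℝ)) :=
  {z | ∃ x : F, ∃ t : ℝ, 0 ≤ t ∧ t ≤ 1 ∧ z = th x t}

/-- clamp to the unit interval -/
noncomputable def cl (y : ℝ) : ℝ := max 0 (min 1 y)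

open Classical in
/-- The path through the theta graph spelled by the word `w`: the letter `w j` is traversed during
`[j, j+1]`, forwards for even `j` and backwards for odd `j`. -/
noncomputable def PW {F : Type} {k : ℕ} (w : Fin k → F) (y : ℝ) : ℝ × (F → ℝ) :=
  (∑ j : Fin k, (-1 : ℝ) ^ (j : ℕ) * cl (y - (j : ℕ)),
   fun x => ∑ j : Fin k, if x = w j then cl (y - (j : ℕ)) * (1 - cl (y - (j : ℕ))) else 0)

/-- swap the two poles -/
def flp {F : Type} (z : ℝ × (F → ℝ)) : ℝ × (F → ℝ) := (1 - z.1, z.2)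

/-- there is a walk with exactly `N` steps from `x` to `y` in the digraph `D` -/
def Walk {F : Type} (D : F → F → Prop) (N : ℕ) (x y : F) : Prop :=
  ∃ p : ℕ → F, p 0 = x ∧ p N = y ∧ ∀ i < N, D (p i) (p (i + 1))

/-- `D` is primitive -/
def Prim {F : Type} (D : F → F → Prop) : Prop := ∃ N0 : ℕ, ∀ N ≥ N0, ∀ x y : F, Walk D N x y

/-- the inverse limit of a sequence of maps -/
def Lim (G : ℕ → Type) (g : ∀ n, G (n + 1) → G n) : Set (∀ n, G n) :=
  {x | ∀ n, g n (x (n + 1)) = x n}

end Pool.Agent.Helper475.TW
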