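import Pool.Agent.Helper475.TWBase

set_option autoImplicit false

namespace Pool.Agent.Helper475.TW.MC1

open Pool.Agent.Helper475.TW
/-- the products `K_{L-1} ... K_0` -/
def pcT {G : Type} [Group G] (K : Subgroup G) (ρ : G) : ℕ → Set G
  | 0 => {1}
  | L + 1 => {y | ∃ κ ∈ K, ∃ t ∈ pcT K ρ L, y = ((ρ ^ L)⁻¹ * κ * ρ ^ L) * t}

theorem pcT_succ {G : Type} [Group G] (K : Subgroup G) (ρ : G) (L : ℕ) :
    pcT K ρ L ⊆ pcT K ρ (L + 1) := by
  intro t ht
  refine ⟨1, K.one_mem, t, ht, ?_⟩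
  group

theorem pcT_path {G : Type} [Group G] (K : Subgroup G) (ρ : G) (L : ℕ) :
    ∀ t ∈ pcT K ρ L, ∃ s : ℕ → G, s 0 = 1 ∧ s L = ρ ^ L * t ∧
      ∀ i < L, ∃ κ ∈ K, s (i + 1) = ρ * κ * s i := by
  induction L with
  | zero =>
    intro t ht
    have ht1 : t = 1 := ht
    refine ⟨fun _ => 1, rfl, ?_, fun i hi => absurd hi (Nat.not_lt_zero i)⟩
    rw [ht1, pow_zero, mul_one]
  | succ L ih =>
    rintro t ⟨κ, hκ, t', ht', rfl⟩
    obtain ⟨s', h0, hL, hs⟩ := ih t' ht'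
    refine ⟨fun i => if i ≤ L then s' i else ρ ^ (L + 1) * (((ρ ^ L)⁻¹ * κ * ρ ^ L) * t'),
      ?_, ?_, ?_⟩
    · simp only [Nat.zero_le, if_true, h0]
    · simp only [show ¬ (L + 1 ≤ L) by omega, if_false]
    · intro i hi
      rcases Nat.lt_succ_iff_lt_or_eq.1 hi with h | h
      · obtain ⟨κ', hκ', he⟩ := hs i h
        refine ⟨κ', hκ', ?_⟩
        simp only [show i + 1 ≤ L by omega, show i ≤ L by omega, if_true]
        exact he
      · subst h
        refine ⟨κ, hκ, ?_⟩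
        simp only [show ¬ (i + 1 ≤ i) by omega, le_refl, if_false, if_true]
        rw [hL, pow_succ']
        group

/-- In a finite group, products of conjugates of a subgroup that together generate the group fill the
whole group (the products `T_L = K_{L-1} ... K_1 K_0`, `K_i = ρ^{-i} K ρ^i`, increase, hence stabilise). -/
theorem prod_conj {G : Type} [Group G] [Finite G] (K : Subgroup G) (ρ : G)
    (hgen : Subgroup.closure {g : G | ∃ i : ℕ, ∃ κ ∈ K, g = (ρ ^ i)⁻¹ * κ * ρ ^ i} = ⊤) :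
    ∃ L0 : ℕ, ∀ L ≥ L0, ∀ g : G, ∃ s : ℕ → G, s 0 = 1 ∧ s L = g ∧
      ∀ i < L, ∃ κ ∈ K, s (i + 1) = ρ * κ * s i := by
  have hmono : Monotone (pcT K ρ) := monotone_nat_of_le_succ (pcT_succ K ρ)
  obtain ⟨L1, hL1⟩ := WellFoundedGT.monotone_chain_condition (⟨pcT K ρ, hmono⟩ : ℕ →o Set G)
  have hL1' : ∀ m, L1 ≤ m → pcT K ρ L1 = pcT K ρ m := fun m hm => hL1 m hm
  have h1mem : (1 : G) ∈ pcT K ρ L1 := hmono (Nat.zero_le L1) rfl
  have hgenmem : ∀ i : ℕ, ∀ κ ∈ K, ∀ t ∈ pcT K ρ L1,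
      ((ρ ^ i)⁻¹ * κ * ρ ^ i) * t ∈ pcT K ρ L1 := by
    intro i κ hκ t ht
    have hord : ρ ^ (i + L1 * orderOf ρ) = ρ ^ i := by
      rw [pow_add, mul_comm L1, pow_mul, pow_orderOf_eq_one, one_pow, mul_one]
    have hge : L1 ≤ i + L1 * orderOf ρ := by
      have : L1 * 1 ≤ L1 * orderOf ρ := Nat.mul_le_mul_left _ (orderOf_pos ρ)
      omega
    have h2 : ((ρ ^ i)⁻¹ * κ * ρ ^ i) * t ∈ pcT K ρ (i + L1 * orderOf ρ + 1) := by
      refine ⟨κ, hκ, t, ?_, ?_⟩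
      · rw [← hL1' _ hge]; exact ht
      · rw [hord]
    rw [← hL1' _ (by omega)] at h2
    exact h2
  have hall : ∀ g : G, ∀ t ∈ pcT K ρ L1, g * t ∈ pcT K ρ L1 := by
    intro g
    have hg : g ∈ Subgroup.closure {g : G | ∃ i : ℕ, ∃ κ ∈ K, g = (ρ ^ i)⁻¹ * κ * ρ ^ i} := by
      rw [hgen]; exact Subgroup.mem_top g
    induction hg using Subgroup.closure_induction with
    | mem x hx =>
      obtain ⟨i, κ, hκ, rfl⟩ := hx
      exact hgenmem i κ hκ
    | one => intro t ht; rwa [one_mul]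
    | mul x y _ _ hx hy =>
      intro t ht
      rw [mul_assoc]
      exact hx _ (hy _ ht)
    | inv x _ hx =>
      have hpow : ∀ k : ℕ, ∀ t ∈ pcT K ρ L1, x ^ k * t ∈ pcT K ρ L1 := by
        intro k
        induction k with
        | zero => intro t ht; rwa [pow_zero, one_mul]
        | succ k ih =>
          intro t ht
          rw [pow_succ, mul_assoc]
          exact ih _ (hx _ ht)
      have hinv : x⁻¹ = x ^ (orderOf x - 1) := by
        rw [inv_eq_iff_mul_eq_one, ← pow_succ', Nat.sub_add_cancel (orderOf_pos x),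
          pow_orderOf_eq_one]
      rw [hinv]
      exact hpow _
  refine ⟨L1, fun L hL g => ?_⟩
  have hmem : (ρ ^ L)⁻¹ * g ∈ pcT K ρ L := by
    rw [← hL1' L hL]
    have := hall ((ρ ^ L)⁻¹ * g) 1 h1mem
    rwa [mul_one] at this
  obtain ⟨s, h0, h1, h2⟩ := pcT_path K ρ L _ hmem
  refine ⟨s, h0, ?_, h2⟩
  rw [h1]
  group

end Pool.Agent.Helper475.TW.MC1
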