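import Pool.Agent.Helper475.TWBase

set_option autoImplicit false

namespace Pool.Agent.Helper475.TW.MC2

open Pool.Agent.Helper475.TW
/-- Walkers riding on the slots of a closed walk; walkers at the same vertex may be exchanged. -/
theorem arr_prim {F : Type} {D : F → F → Prop} {r : ℕ} [NeZero r] (C : ZMod r → F)
    (hC : ∀ i, D (C i) (C (i + 1))) (s : ℕ)
    (h1 : ∃ i : ZMod r, C i = C (i + (s : ℕ))) (h2 : ∃ i : ZMod r, C i = C (i + ((s + 1 : ℕ) : ZMod r)))
    (hgrp : ∀ {G : Type} [Group G] [Finite G] (K : Subgroup G) (ρ : G),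
      Subgroup.closure {g : G | ∃ i : ℕ, ∃ κ ∈ K, g = (ρ ^ i)⁻¹ * κ * ρ ^ i} = ⊤ →
      ∃ L0 : ℕ, ∀ L ≥ L0, ∀ g : G, ∃ s : ℕ → G, s 0 = 1 ∧ s L = g ∧
        ∀ i < L, ∃ κ ∈ K, s (i + 1) = ρ * κ * s i) :
    ∃ L0 : ℕ, ∀ L ≥ L0, ∀ β β' : Fin r ≃ ZMod r, ∃ b : ℕ → (Fin r ≃ ZMod r), b 0 = β ∧
      (∀ p, C (b L p) = C (β' p)) ∧ ∀ i < L, ∀ p, D (C (b i p)) (C (b (i + 1) p)) := by
  classical
  -- the stabiliser of the labelling
  let K : Subgroup (Equiv.Perm (ZMod r)) :=
    { carrier := {κ | ∀ p, C (κ p) = C p}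
      one_mem' := fun p => rfl
      mul_mem' := by
        intro x y hx hy p
        rw [Equiv.Perm.mul_apply, hx, hy]
      inv_mem' := by
        intro x hx p
        have h3 := hx (x⁻¹ p)
        have h4 : x (x⁻¹ p) = p := x.apply_symm_apply p
        rw [h4] at h3
        exact h3.symm }
  have hKmem : ∀ κ : Equiv.Perm (ZMod r), κ ∈ K ↔ ∀ p, C (κ p) = C p := fun κ => Iff.rfl
  let ρ : Equiv.Perm (ZMod r) := Equiv.addRight 1
  have hρ : ∀ x, ρ x = x + 1 := fun x => rfl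
  have hρn : ∀ (n : ℕ) (x : ZMod r), (ρ ^ n) x = x + n := by
    intro n
    induction n with
    | zero => intro x; simp
    | succ n ih =>
      intro x
      rw [pow_succ, Equiv.Perm.mul_apply, hρ, ih]
      push_cast
      ring
  set H := Subgroup.closure {g : Equiv.Perm (ZMod r) | ∃ i : ℕ, ∃ κ ∈ K, g = (ρ ^ i)⁻¹ * κ * ρ ^ i} with hH
  have key : ∀ t : ZMod r, (∃ i : ZMod r, C i = C (i + t)) → ∀ l : ZMod r, Equiv.swap l (l + t) ∈ H := by
    rintro t ⟨i0, hi0⟩ l
    apply Subgroup.subset_closure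
    refine ⟨(i0 - l).val, Equiv.swap i0 (i0 + t), ?_, ?_⟩
    · rw [hKmem]
      intro p
      rcases eq_or_ne p i0 with rfl | h1
      · rw [Equiv.swap_apply_left]; exact hi0.symm
      · rcases eq_or_ne p (i0 + t) with rfl | h2
        · rw [Equiv.swap_apply_right]; exact hi0
        · rw [Equiv.swap_apply_of_ne_of_ne h1 h2]
    · have hv : (((i0 - l).val : ℕ) : ZMod r) = i0 - l := ZMod.natCast_zmod_val _
      have e1 : (ρ ^ (i0 - l).val) l = i0 := by rw [hρn, hv]; ring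
      have e2 : (ρ ^ (i0 - l).val) (l + t) = i0 + t := by rw [hρn, hv]; ring
      have e3 := Equiv.swap_apply_apply (ρ ^ (i0 - l).val) l (l + t)
      rw [e1, e2] at e3
      rw [e3]
      group
  have hs1 := key ((s : ℕ) : ZMod r) h1
  have hs2 := key (((s + 1 : ℕ)) : ZMod r) h2
  have hadj : ∀ l : ZMod r, Equiv.swap l (l + 1) ∈ H := by
    intro l
    have a1 := hs2 l
    have a2 := hs1 (l + 1)
    have e : l + 1 + ((s : ℕ) : ZMod r) = l + (((s + 1 : ℕ)) : ZMod r) := by push_cast; ring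
    rw [e, Equiv.swap_comm] at a2
    exact SubmonoidClass.swap_mem_trans H a1 a2
  have hall : ∀ (n : ℕ) (l : ZMod r), Equiv.swap l (l + n) ∈ H := by
    intro n
    induction n with
    | zero =>
      intro l
      rw [Nat.cast_zero, add_zero, Equiv.swap_self]
      exact H.one_mem
    | succ n ih =>
      intro l
      have a1 := ih l
      have a2 := hadj (l + n)
      have e : l + (n : ZMod r) + 1 = l + ((n + 1 : ℕ) : ZMod r) := by push_cast; ring
      rw [e] at a2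
      exact SubmonoidClass.swap_mem_trans H a1 a2
  have htop : H = ⊤ := by
    rw [eq_top_iff, ← Equiv.Perm.closure_isSwap, Subgroup.closure_le]
    rintro σ ⟨x, y, -, rfl⟩
    have := hall (y - x).val x
    rw [ZMod.natCast_zmod_val, add_sub_cancel] at this
    exact this
  obtain ⟨L0, hL0⟩ := hgrp K ρ htop
  refine ⟨L0, ?_⟩
  intro L hL β β'
  obtain ⟨σ, hσ0, hσL, hσ⟩ := hL0 L hL (β.symm.trans β')
  refine ⟨fun i => β.trans (σ i), ?_, ?_, ?_⟩
  · simp only [hσ0]; rfl
  · intro p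
    simp only [hσL, Equiv.trans_apply, Equiv.symm_apply_apply]
  · intro i hi p
    obtain ⟨κ, hκ, e⟩ := hσ i hi
    simp only [Equiv.trans_apply]
    rw [e, Equiv.Perm.mul_apply, Equiv.Perm.mul_apply, hρ]
    have h3 := (hKmem κ).mp hκ (σ i (β p))
    rw [← h3]
    exact hC _

end Pool.Agent.Helper475.TW.MC2
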