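import Pool.Agent.Helper475.TWBase

set_option autoImplicit false

namespace Pool.Agent.Helper475.TW.MC3

open Pool.Agent.Helper475.TW
/-- walk with explicit vertex sequence -/
def wkk {F : Type} (D : F → F → Prop) (x y : F) (q : ℕ) (p : ℕ → F) : Prop :=
  p 0 = x ∧ p q = y ∧ ∀ i < q, D (p i) (p (i + 1))

/-- concatenation -/
def wglue {F : Type} (a : ℕ) (p q : ℕ → F) : ℕ → F := fun i => if i < a then p i else q (i - a)

theorem wglue_right {F : Type} (a : ℕ) (p q : ℕ → F) (i : ℕ) : wglue a p q (a + i) = q i := by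
  unfold wglue
  rw [if_neg (by omega), Nat.add_sub_cancel_left]

theorem wglue_left {F : Type} (a : ℕ) (p q : ℕ → F) (h : p a = q 0) {i : ℕ} (hi : i ≤ a) :
    wglue a p q i = p i := by
  unfold wglue
  by_cases h1 : i < a
  · rw [if_pos h1]
  · have : i = a := by omega
    subst this
    rw [if_neg h1, Nat.sub_self, h]

theorem wkk_glue {F : Type} {D : F → F → Prop} {x y z : F} {a b : ℕ} {p q : ℕ → F}
    (hp : wkk D x y a p) (hq : wkk D y z b q) : wkk D x z (a + b) (wglue a p q) := by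
  have h : p a = q 0 := hp.2.1.trans hq.1.symm
  refine ⟨?_, ?_, ?_⟩
  · rw [wglue_left a p q h (Nat.zero_le a)]
    exact hp.1
  · rw [wglue_right]
    exact hq.2.1
  · intro i hi
    by_cases h1 : i < a
    · rw [wglue_left a p q h h1.le, wglue_left a p q h h1]
      exact hp.2.2 i h1
    · obtain ⟨j, rfl⟩ : ∃ j, i = a + j := ⟨i - a, by omega⟩
      rw [wglue_right, add_assoc, wglue_right]
      exact hq.2.2 j (by omega)

theorem wkk_cover {F : Type} {D : F → F → Prop} (s : ℕ) (hs : ∀ x y : F, Walk D s x y) (z : F) :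
    ∀ l : List F, ∃ (ℓ : ℕ) (p : ℕ → F), wkk D z z ℓ p ∧ ∀ x ∈ l, ∃ i ≤ ℓ, p i = x := by
  intro l
  induction l with
  | nil =>
    refine ⟨0, fun _ => z, ⟨rfl, rfl, fun i hi => absurd hi (Nat.not_lt_zero i)⟩, ?_⟩
    intro x hx
    exact absurd hx List.not_mem_nil
  | cons x l ih =>
    obtain ⟨ℓ, p, hp, hl⟩ := ih
    obtain ⟨p1, hp1⟩ := hs z x
    obtain ⟨p2, hp2⟩ := hs x z
    have h12 : wkk D z z (s + s) (wglue s p1 p2) := wkk_glue hp1 hp2
    refine ⟨ℓ + (s + s), wglue ℓ p (wglue s p1 p2), wkk_glue hp h12, ?_⟩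
    intro y hy
    rw [List.mem_cons] at hy
    rcases hy with rfl | hy
    · refine ⟨ℓ + s, by omega, ?_⟩
      rw [wglue_right, wglue_left s p1 p2 (hp1.2.1.trans hp2.1.symm) (le_refl _)]
      exact hp1.2.1
    · obtain ⟨i, hi, hpi⟩ := hl y hy
      refine ⟨i, by omega, ?_⟩
      rw [wglue_left ℓ p _ (hp.2.1.trans h12.1.symm) hi]
      exact hpi

/-- A primitive digraph has closed walks of lengths `r` and `r + 1` through all vertices, both containing
an `s`-loop and an `(s+1)`-loop. -/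
theorem closed_walks {F : Type} [Finite F] [Nonempty F] (D : F → F → Prop) (hP : Prim D) :
    ∃ r s : ℕ, 1 ≤ r ∧ ∀ q : ℕ, (q = r ∨ q = r + 1) → ∃ C : ZMod q → F,
      (∀ i, D (C i) (C (i + 1))) ∧ Function.Surjective C ∧
      (∃ i : ZMod q, C i = C (i + (s : ℕ))) ∧ (∃ i : ZMod q, C i = C (i + ((s + 1 : ℕ) : ZMod q))) := by
  classical
  obtain ⟨s, hs⟩ := hP
  obtain ⟨z⟩ := (inferInstance : Nonempty F)
  have : Fintype F := Fintype.ofFinite F
  obtain ⟨ℓ, p, hp, hl⟩ := wkk_cover s (hs s le_rfl) z (Finset.univ : Finset F).toList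
  obtain ⟨p1, hp1⟩ := hs s le_rfl z z
  obtain ⟨p2, hp2⟩ := hs (s + 1) (by omega) z z
  have key : ∀ e : ℕ, s ≤ e → ∃ P : ℕ → F, wkk D z z (ℓ + (s + ((s + 1) + e))) P ∧
      (∀ x : F, ∃ i ≤ ℓ, P i = x) ∧ P ℓ = z ∧ P (ℓ + s) = z ∧ P (ℓ + s + (s + 1)) = z := by
    intro e he
    obtain ⟨p3, hp3⟩ := hs e he z z
    have h23 : wkk D z z ((s + 1) + e) (wglue (s + 1) p2 p3) := wkk_glue hp2 hp3
    have h123 : wkk D z z (s + ((s + 1) + e)) (wglue s p1 (wglue (s + 1) p2 p3)) :=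
      wkk_glue hp1 h23
    have hall := wkk_glue hp h123
    have hpz : p ℓ = (wglue s p1 (wglue (s + 1) p2 p3)) 0 := hp.2.1.trans h123.1.symm
    refine ⟨_, hall, ?_, ?_, ?_, ?_⟩
    · intro x
      obtain ⟨i, hi, hpi⟩ := hl x (by simp)
      refine ⟨i, hi, ?_⟩
      rw [wglue_left ℓ p _ hpz hi]
      exact hpi
    · rw [wglue_left ℓ p _ hpz le_rfl]
      exact hp.2.1
    · rw [wglue_right, wglue_left s p1 _ (hp1.2.1.trans h23.1.symm) le_rfl]
      exact hp1.2.1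
    · rw [add_assoc, wglue_right, wglue_right,
        wglue_left (s + 1) p2 _ (hp2.2.1.trans hp3.1.symm) le_rfl]
      exact hp2.2.1
  refine ⟨ℓ + (s + ((s + 1) + s)), s, by omega, ?_⟩
  intro q hq
  obtain ⟨e, he, hqe⟩ : ∃ e, s ≤ e ∧ q = ℓ + (s + ((s + 1) + e)) := by
    rcases hq with rfl | rfl
    · exact ⟨s, le_rfl, rfl⟩
    · exact ⟨s + 1, by omega, by omega⟩
  obtain ⟨P, hP1, hP2, hP3, hP4, hP5⟩ := key e he
  rw [← hqe] at hP1
  have hq0 : 0 < q := by omega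
  have : NeZero q := ⟨hq0.ne'⟩
  have hC : ∀ m : ℕ, m ≤ q → P ((m : ZMod q)).val = P m := by
    intro m hm
    rw [ZMod.val_natCast]
    rcases hm.lt_or_eq with h | h
    · rw [Nat.mod_eq_of_lt h]
    · rw [h, Nat.mod_self, hP1.1, hP1.2.1]
  refine ⟨fun i => P i.val, ?_, ?_, ⟨(ℓ : ZMod q), ?_⟩, ⟨((ℓ + s : ℕ) : ZMod q), ?_⟩⟩
  · intro i
    show D (P i.val) (P (i + 1).val)
    have hi : i.val < q := ZMod.val_lt i
    have e1 : i + 1 = ((i.val + 1 : ℕ) : ZMod q) := by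
      push_cast
      rw [ZMod.natCast_zmod_val]
    rw [e1, hC _ hi]
    exact hP1.2.2 _ hi
  · intro x
    obtain ⟨i, hi, hx⟩ := hP2 x
    exact ⟨(i : ZMod q), by
      show P ((i : ZMod q)).val = x
      rw [hC i (by omega)]; exact hx⟩
  · show P ((ℓ : ZMod q)).val = P ((ℓ : ZMod q) + (s : ZMod q)).val
    rw [← Nat.cast_add, hC ℓ (by omega), hC (ℓ + s) (by omega), hP3, hP4]
  · show P (((ℓ + s : ℕ) : ZMod q)).val = P (((ℓ + s : ℕ) : ZMod q) + ((s + 1 : ℕ) : ZMod q)).val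
    rw [← Nat.cast_add (ℓ + s) (s + 1), hC (ℓ + s) (by omega), hC (ℓ + s + (s + 1)) (by omega),
      hP4, hP5]

end Pool.Agent.Helper475.TW.MC3
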