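import Pool.Agent.Helper475.TWBase

set_option autoImplicit false

namespace Pool.Agent.Helper475.TW.MC4

open Pool.Agent.Helper475.TW
/-- word with prescribed even and odd letters -/
def wd {F : Type} {r : ℕ} (C1 : ZMod r → F) (C2 : ZMod (r + 1) → F) (β1 : Fin r → ZMod r)
    (β2 : Fin (r + 1) → ZMod (r + 1)) (j : Fin (2 * r + 1)) : F :=
  if h : (j : ℕ) % 2 = 0 then C2 (β2 ⟨(j : ℕ) / 2, by omega⟩)
  else C1 (β1 ⟨(j : ℕ) / 2, by omega⟩)

theorem wd_rev {F : Type} {r : ℕ} (C1 : ZMod r → F) (C2 : ZMod (r + 1) → F)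
    (β1 : Fin r → ZMod r) (β2 : Fin (r + 1) → ZMod (r + 1)) (j : Fin (2 * r + 1)) :
    wd C1 C2 β1 β2 (Fin.rev j) =
      wd C1 C2 (fun p => β1 (Fin.rev p)) (fun p => β2 (Fin.rev p)) j := by
  have hj := j.2
  unfold wd
  by_cases h : (j : ℕ) % 2 = 0
  · have h' : ((Fin.rev j : Fin (2 * r + 1)) : ℕ) % 2 = 0 := by
      rw [Fin.val_rev]; omega
    rw [dif_pos h, dif_pos h']
    congr 2
    apply Fin.ext
    simp only [Fin.val_rev]
    omega
  · have h' : ¬ ((Fin.rev j : Fin (2 * r + 1)) : ℕ) % 2 = 0 := by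
      rw [Fin.val_rev]; omega
    rw [dif_neg h, dif_neg h']
    congr 2
    apply Fin.ext
    simp only [Fin.val_rev]
    omega

/-- iterated reversal -/
def rvE (n i : ℕ) : Fin n ≃ Fin n := if Even i then Equiv.refl _ else Fin.revPerm

theorem wd_rv {F : Type} {r : ℕ} (C1 : ZMod r → F) (C2 : ZMod (r + 1) → F)
    (β1 : Fin r ≃ ZMod r) (β2 : Fin (r + 1) ≃ ZMod (r + 1)) (i : ℕ) (j : Fin (2 * r + 1)) :
    wd C1 C2 β1 β2 (rvE _ i j) =
      wd C1 C2 ((rvE _ i).trans β1) ((rvE _ i).trans β2) j := by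
  unfold rvE
  by_cases h : Even i
  · simp only [if_pos h]
    rfl
  · simp only [if_neg h]
    exact wd_rev C1 C2 β1 β2 j

theorem rvE_succ (n i : ℕ) (j : Fin n) : rvE n (i + 1) (Fin.rev j) = rvE n i j := by
  unfold rvE
  by_cases h : Even i
  · rw [if_pos h, if_neg (by rwa [Nat.even_add_one, not_not])]
    simp
  · rw [if_neg h, if_pos (by rwa [Nat.even_add_one])]
    simp

theorem rvE_rvE (n i : ℕ) (j : Fin n) : rvE n i (rvE n i j) = j := by
  unfold rvE
  by_cases h : Even i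
  · rw [if_pos h]
    simp
  · rw [if_neg h]
    simp

/-- splitting the positions into even and odd ones -/
theorem sum_split {r : ℕ} (g : Fin (2 * r + 1) → ℤ) :
    ∑ j, g j = ∑ i : Fin (r + 1), g ⟨2 * (i : ℕ), by omega⟩ +
      ∑ i : Fin r, g ⟨2 * (i : ℕ) + 1, by omega⟩ := by
  let e : Fin (r + 1) ⊕ Fin r → Fin (2 * r + 1) := Sum.elim
    (fun i => ⟨2 * (i : ℕ), by omega⟩) (fun i => ⟨2 * (i : ℕ) + 1, by omega⟩)
  have he : Function.Bijective e := by
    rw [Fintype.bijective_iff_injective_and_card]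
    constructor
    · rintro (a | a) (b | b) hab
      · have := congrArg Fin.val hab
        simp only [e, Sum.elim_inl] at this
        congr 1
        apply Fin.ext
        omega
      · have := congrArg Fin.val hab
        simp only [e, Sum.elim_inl, Sum.elim_inr] at this
        omega
      · have := congrArg Fin.val hab
        simp only [e, Sum.elim_inl, Sum.elim_inr] at this
        omega
      · have := congrArg Fin.val hab
        simp only [e, Sum.elim_inr] at this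
        congr 1
        apply Fin.ext
        omega
    · simp only [Fintype.card_sum, Fintype.card_fin]
      omega
  rw [← (Equiv.ofBijective e he).sum_comp, Fintype.sum_sum_type]
  rfl

/-- Construction of the set `U` of words from the two closed walks. -/
theorem words_U {F : Type} [Finite F] (D : F → F → Prop) (r : ℕ) (hr : 1 ≤ r)
    (C1 : ZMod r → F) (C2 : ZMod (r + 1) → F) (hC1 : Function.Surjective C1)
    (hp1 : ∃ L0 : ℕ, ∀ L ≥ L0, ∀ β β' : Fin r ≃ ZMod r, ∃ b : ℕ → (Fin r ≃ ZMod r), b 0 = β ∧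
      (∀ p, C1 (b L p) = C1 (β' p)) ∧ ∀ i < L, ∀ p, D (C1 (b i p)) (C1 (b (i + 1) p)))
    (hp2 : ∃ L0 : ℕ, ∀ L ≥ L0, ∀ β β' : Fin (r + 1) ≃ ZMod (r + 1),
      ∃ b : ℕ → (Fin (r + 1) ≃ ZMod (r + 1)), b 0 = β ∧
      (∀ p, C2 (b L p) = C2 (β' p)) ∧ ∀ i < L, ∀ p, D (C2 (b i p)) (C2 (b (i + 1) p))) :
    ∃ U : Set (Fin (2 * r + 1) → F), U.Nonempty ∧ (∀ w ∈ U, (fun j => w (Fin.rev j)) ∈ U) ∧
      (∀ w ∈ U, Function.Surjective w) ∧
      (∀ m : F → ℤ, ∃ W : ℤ, ∀ w ∈ U, ∑ j : Fin (2 * r + 1), (-1 : ℤ) ^ (j : ℕ) * m (w j) = W) ∧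
      (∃ L0 : ℕ, ∀ L ≥ L0, ∀ w ∈ U, ∀ w' ∈ U, ∃ q : ℕ → Fin (2 * r + 1) → F, q 0 = w ∧ q L = w' ∧
        (∀ i, i ≤ L → q i ∈ U) ∧ ∀ i < L, ∀ j, D (q i j) (q (i + 1) (Fin.rev j))) := by
  have : NeZero r := ⟨by omega⟩
  have : NeZero (r + 1) := ⟨by omega⟩
  refine ⟨{w | ∃ b1 : Fin r ≃ ZMod r, ∃ b2 : Fin (r + 1) ≃ ZMod (r + 1), w = wd C1 C2 b1 b2},
    ?_, ?_, ?_, ?_, ?_⟩
  · have e1 : Fin r ≃ ZMod r := Fintype.equivOfCardEq (by simp [ZMod.card])
    have e2 : Fin (r + 1) ≃ ZMod (r + 1) := Fintype.equivOfCardEq (by simp [ZMod.card])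
    exact ⟨_, e1, e2, rfl⟩
  · rintro w ⟨b1, b2, rfl⟩
    refine ⟨Fin.revPerm.trans b1, Fin.revPerm.trans b2, ?_⟩
    funext j
    exact wd_rev C1 C2 b1 b2 j
  · rintro w ⟨b1, b2, rfl⟩ x
    obtain ⟨z, hz⟩ := hC1 x
    have hi := (b1.symm z).2
    refine ⟨⟨2 * ((b1.symm z : Fin r) : ℕ) + 1, by omega⟩, ?_⟩
    unfold wd
    rw [dif_neg (by simp only; omega)]
    have : (⟨(2 * ((b1.symm z : Fin r) : ℕ) + 1) / 2, by omega⟩ : Fin r) = b1.symm z := by
      apply Fin.ext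
      simp only
      omega
    rw [this, Equiv.apply_symm_apply, hz]
  · intro m
    refine ⟨∑ z : ZMod (r + 1), m (C2 z) - ∑ z : ZMod r, m (C1 z), ?_⟩
    rintro w ⟨b1, b2, rfl⟩
    rw [sum_split, sub_eq_add_neg]
    congr 1
    · rw [← b2.sum_comp]
      refine Finset.sum_congr rfl fun i _ => ?_
      have h1 : ((-1 : ℤ)) ^ (2 * (i : ℕ)) = 1 := by rw [pow_mul]; simp
      have h2 : wd C1 C2 b1 b2 ⟨2 * (i : ℕ), by omega⟩ = C2 (b2 i) := by
        unfold wd
        rw [dif_pos (by simp only; omega)]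
        congr 2
        apply Fin.ext
        simp only
        omega
      rw [h2, h1, one_mul]
    · rw [← b1.sum_comp, ← Finset.sum_neg_distrib]
      refine Finset.sum_congr rfl fun i _ => ?_
      have h1 : ((-1 : ℤ)) ^ (2 * (i : ℕ) + 1) = -1 := by rw [pow_succ, pow_mul]; simp
      have h2 : wd C1 C2 b1 b2 ⟨2 * (i : ℕ) + 1, by omega⟩ = C1 (b1 i) := by
        unfold wd
        rw [dif_neg (by simp only; omega)]
        congr 2
        apply Fin.ext
        simp only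
        omega
      rw [h2, h1, neg_one_mul]
  · obtain ⟨L1, h1⟩ := hp1
    obtain ⟨L2, h2⟩ := hp2
    refine ⟨max L1 L2, fun L hL => ?_⟩
    rintro w ⟨β1, β2, rfl⟩ w' ⟨β1', β2', rfl⟩
    obtain ⟨c1, c10, c1L, c1s⟩ := h1 L (le_trans (le_max_left _ _) hL) β1 ((rvE _ L).trans β1')
    obtain ⟨c2, c20, c2L, c2s⟩ := h2 L (le_trans (le_max_right _ _) hL) β2 ((rvE _ L).trans β2')
    refine ⟨fun i j => wd C1 C2 (c1 i) (c2 i) (rvE _ i j), ?_, ?_, ?_, ?_⟩
    · funext j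
      simp only [c10, c20]
      simp [rvE]
    · funext j
      simp only
      rw [← rvE_rvE _ L j, wd_rv C1 C2 β1' β2' L]
      rw [rvE_rvE _ L j]
      unfold wd
      by_cases h : ((rvE (2 * r + 1) L j : Fin (2 * r + 1)) : ℕ) % 2 = 0
      · rw [dif_pos h, dif_pos h]
        exact c2L _
      · rw [dif_neg h, dif_neg h]
        exact c1L _
    · intro i _
      refine ⟨(rvE _ i).trans (c1 i), (rvE _ i).trans (c2 i), ?_⟩
      funext j
      exact wd_rv C1 C2 (c1 i) (c2 i) i j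
    · intro i hi j
      simp only
      rw [rvE_succ]
      unfold wd
      by_cases h : ((rvE (2 * r + 1) i j : Fin (2 * r + 1)) : ℕ) % 2 = 0
      · rw [dif_pos h, dif_pos h]
        exact c2s i hi _
      · rw [dif_neg h, dif_neg h]
        exact c1s i hi _

end Pool.Agent.Helper475.TW.MC4
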