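import Pool.Agent.Helper475.TWBase

set_option autoImplicit false

namespace Pool.Agent.Helper475.TW.MC5

open Pool.Agent.Helper475.TW
/-- The next system from the set `U` of words. -/
theorem next_of_U {F : Type} [Finite F] (D : F → F → Prop) (hD : ∀ x, ¬ D x x) (r : ℕ) (hr : 1 ≤ r)
    (U : Set (Fin (2 * r + 1) → F)) (hne : U.Nonempty)
    (hrev : ∀ w ∈ U, (fun j => w (Fin.rev j)) ∈ U)
    (hsurj : ∀ w ∈ U, Function.Surjective w)
    (hsum : ∀ m : F → ℤ, ∃ W : ℤ, ∀ w ∈ U, ∑ j : Fin (2 * r + 1), (-1 : ℤ) ^ (j : ℕ) * m (w j) = W)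
    (hprim : ∃ L0 : ℕ, ∀ L ≥ L0, ∀ w ∈ U, ∀ w' ∈ U, ∃ q : ℕ → Fin (2 * r + 1) → F, q 0 = w ∧ q L = w' ∧
        (∀ i, i ≤ L → q i ∈ U) ∧ ∀ i < L, ∀ j, D (q i j) (q (i + 1) (Fin.rev j))) :
    ∃ (F' : Type) (D' : F' → F' → Prop) (u v : F' → Fin (2 * r + 1) → F), Finite F' ∧ Nonempty F' ∧
      (∀ e, ¬ D' e e) ∧ Prim D' ∧ (∀ e, Function.Surjective (u e)) ∧
      (∀ m : F → ℤ, ∃ W : ℤ, ∀ e, ∑ j : Fin (2 * r + 1), (-1 : ℤ) ^ (j : ℕ) * m (u e j) = W) ∧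
      (∀ e j, D (u e j) (v e j)) ∧ (∀ e e', D' e e' → ∀ j, u e' j = v e (Fin.rev j)) := by
  classical
  obtain ⟨w0, hw0⟩ := hne
  obtain ⟨L0, hL0⟩ := hprim
  refine ⟨{e : (Fin (2 * r + 1) → F) × (Fin (2 * r + 1) → F) //
      e.1 ∈ U ∧ e.2 ∈ U ∧ ∀ j, D (e.1 j) (e.2 j)},
    fun e e' => ∀ j, e'.1.1 j = e.1.2 (Fin.rev j), fun e => e.1.1, fun e => e.1.2,
    inferInstance, ?_, ?_, ?_, ?_, ?_, ?_, ?_⟩
  · obtain ⟨q, h0, -, hU, hstep⟩ := hL0 (L0 + 1) (by omega) w0 hw0 w0 hw0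
    exact ⟨⟨(q 0, fun j => q 1 (Fin.rev j)), hU 0 (by omega), hrev _ (hU 1 (by omega)),
      fun j => hstep 0 (by omega) j⟩⟩
  · intro e he
    have hc : Fin.rev (⟨r, by omega⟩ : Fin (2 * r + 1)) = ⟨r, by omega⟩ := by
      ext
      simp [Fin.rev]
      omega
    have h1 := he ⟨r, by omega⟩
    rw [hc] at h1
    have h2 := e.2.2.2 ⟨r, by omega⟩
    rw [h1] at h2
    exact hD _ h2
  · refine ⟨L0 + 2, ?_⟩
    intro N hN e e'
    obtain ⟨q, h0, hL, hU, hstep⟩ := hL0 (N - 1) (by omega) (fun j => e.1.2 (Fin.rev j))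
      (hrev _ e.2.2.1) e'.1.1 e'.2.1
    have hmid : ∀ i, 1 ≤ i → i < N → (q (i - 1) ∈ U ∧ (fun j => q i (Fin.rev j)) ∈ U ∧
        ∀ j, D (q (i - 1) j) ((fun j => q i (Fin.rev j)) j)) := by
      intro i hi1 hi2
      refine ⟨hU _ (by omega), hrev _ (hU _ (by omega)), fun j => ?_⟩
      have := hstep (i - 1) (by omega) j
      rwa [Nat.sub_add_cancel hi1] at this
    refine ⟨fun i => if h : 1 ≤ i ∧ i < N then
      ⟨(q (i - 1), fun j => q i (Fin.rev j)), hmid i h.1 h.2⟩ else if i = 0 then e else e', ?_, ?_, ?_⟩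
    · simp
    · have : ¬ (1 ≤ N ∧ N < N) := by omega
      simp only [dif_neg this]
      rw [if_neg (by omega)]
    · intro i hi j
      by_cases hi0 : i = 0
      · subst hi0
        have h1 : ¬ (1 ≤ 0 ∧ 0 < N) := by omega
        have h2 : 1 ≤ 0 + 1 ∧ 0 + 1 < N := by omega
        simp only [dif_neg h1, dif_pos h2, if_true]
        show q (0 + 1 - 1) j = e.1.2 (Fin.rev j)
        rw [Nat.add_sub_cancel, h0]
      · have h1 : 1 ≤ i ∧ i < N := by omega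
        by_cases hi2 : i + 1 < N
        · have h2 : 1 ≤ i + 1 ∧ i + 1 < N := by omega
          simp only [dif_pos h1, dif_pos h2]
          show q (i + 1 - 1) j = q i (Fin.rev (Fin.rev j))
          rw [Nat.add_sub_cancel, Fin.rev_rev]
        · have h2 : ¬ (1 ≤ i + 1 ∧ i + 1 < N) := by omega
          have h3 : ¬ (i + 1 = 0) := by omega
          simp only [dif_pos h1, dif_neg h2, if_neg h3]
          show e'.1.1 j = q i (Fin.rev (Fin.rev j))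
          have h4 : i = N - 1 := by omega
          rw [Fin.rev_rev, h4, hL]
  · intro e
    exact hsurj _ e.2.1
  · intro m
    obtain ⟨W, hW⟩ := hsum m
    exact ⟨W, fun e => hW _ e.2.1⟩
  · intro e j
    exact e.2.2.2 j
  · intro e e' h j
    exact h j

end Pool.Agent.Helper475.TW.MC5
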