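import Pool.Agent.Helper475.TWBase

set_option autoImplicit false

namespace Pool.Agent.Helper475.TW.MI1

open Pool.Agent.Helper475.TW
theorem lim_surj (G : ℕ → Type) (g : ∀ n, G (n + 1) → G n) (hs : ∀ n, Function.Surjective (g n))
    (n : ℕ) (z : G n) : ∃ x ∈ Lim G g, x n = z := by
  induction n generalizing G with
  | zero =>
    refine ⟨fun n => Nat.rec (motive := fun n => G n) z
      (fun k y => Classical.choose (hs k y)) n, ?_, rfl⟩
    intro k
    exact Classical.choose_spec (hs k _)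
  | succ n ih =>
    obtain ⟨x', hx', hz⟩ := ih (fun k => G (k + 1)) (fun k => g (k + 1)) (fun k => hs (k + 1)) z
    refine ⟨fun k => Nat.casesOn (motive := fun k => G k) k (g 0 (x' 0)) (fun k => x' k), ?_, hz⟩
    intro k
    cases k with
    | zero => rfl
    | succ k => exact hx' k

theorem lim_compact (G : ℕ → Type) [∀ n, TopologicalSpace (G n)] [∀ n, CompactSpace (G n)]
    [∀ n, T2Space (G n)] (g : ∀ n, G (n + 1) → G n) (hg : ∀ n, Continuous (g n)) :
    IsCompact (Lim G g) := by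
  apply IsClosed.isCompact
  have h : Lim G g = ⋂ n, {x | g n (x (n + 1)) = x n} := by
    ext x
    simp [Lim]
  rw [h]
  exact isClosed_iInter fun n =>
    isClosed_eq ((hg n).comp (continuous_apply (n + 1))) (continuous_apply n)

/-- a compact set of pairs of distinct points of the limit is separated at a finite level -/
theorem lim_sep (G : ℕ → Type) [∀ n, TopologicalSpace (G n)] [∀ n, CompactSpace (G n)]
    [∀ n, T2Space (G n)] (g : ∀ n, G (n + 1) → G n) (hg : ∀ n, Continuous (g n))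
    (Q : Set ((∀ n, G n) × (∀ n, G n))) (hQ : IsCompact Q)
    (hL : ∀ q ∈ Q, q.1 ∈ Lim G g ∧ q.2 ∈ Lim G g) (hne : ∀ q ∈ Q, q.1 ≠ q.2) :
    ∃ n, ∀ q ∈ Q, q.1 n ≠ q.2 n := by
  by_contra hcon
  push Not at hcon
  have hclo : ∀ n : ℕ, IsClosed {q : (∀ n, G n) × (∀ n, G n) | q.1 n = q.2 n} := fun n =>
    isClosed_eq ((continuous_apply n).comp continuous_fst)
      ((continuous_apply n).comp continuous_snd)
  have hne2 : (⋂ n : ℕ, (Q ∩ {q : (∀ n, G n) × (∀ n, G n) | q.1 n = q.2 n})).Nonempty := by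
    apply IsCompact.nonempty_iInter_of_sequence_nonempty_isCompact_isClosed
    · intro n q hq
      refine ⟨hq.1, ?_⟩
      have h1 := (hL q hq.1).1 n
      have h2 := (hL q hq.1).2 n
      have h3 : q.1 (n + 1) = q.2 (n + 1) := hq.2
      show q.1 n = q.2 n
      rw [← h1, ← h2, h3]
    · intro n
      obtain ⟨q, hq, hq2⟩ := hcon n
      exact ⟨q, hq, hq2⟩
    · exact hQ.inter_right (hclo 0)
    · intro n
      exact hQ.isClosed.inter (hclo n)
  obtain ⟨q, hq⟩ := hne2
  rw [Set.mem_iInter] at hq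
  exact hne q (hq 0).1 (funext fun n => (hq n).2)

theorem lim_connected (G : ℕ → Type) [∀ n, TopologicalSpace (G n)] [∀ n, CompactSpace (G n)]
    [∀ n, T2Space (G n)] [∀ n, ConnectedSpace (G n)] (g : ∀ n, G (n + 1) → G n)
    (hg : ∀ n, Continuous (g n)) (hs : ∀ n, Function.Surjective (g n)) :
    IsConnected (Lim G g) := by
  have hcomp := lim_compact G g hg
  refine ⟨?_, ?_⟩
  · obtain ⟨z⟩ : Nonempty (G 0) := inferInstance
    obtain ⟨x, hx, -⟩ := lim_surj G g hs 0 z
    exact ⟨x, hx⟩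
  · rw [isPreconnected_closed_iff]
    intro u v hu hv hsub hun hvn
    by_contra hcon
    have hA : IsCompact (Lim G g ∩ u) := hcomp.inter_right hu
    have hB : IsCompact (Lim G g ∩ v) := hcomp.inter_right hv
    obtain ⟨n, hn⟩ := lim_sep G g hg ((Lim G g ∩ u) ×ˢ (Lim G g ∩ v)) (hA.prod hB)
      (fun q hq => ⟨hq.1.1, hq.2.1⟩) (fun q hq hqq => hcon ⟨q.1, hq.1.1, hq.1.2, by
        rw [hqq]; exact hq.2.2⟩)
    have hcA : IsClosed ((fun x : (∀ n, G n) => x n) '' (Lim G g ∩ u)) :=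
      (hA.image (continuous_apply n)).isClosed
    have hcB : IsClosed ((fun x : (∀ n, G n) => x n) '' (Lim G g ∩ v)) :=
      (hB.image (continuous_apply n)).isClosed
    have huniv : (Set.univ : Set (G n)) ⊆ ((fun x : (∀ n, G n) => x n) '' (Lim G g ∩ u)) ∪
        ((fun x : (∀ n, G n) => x n) '' (Lim G g ∩ v)) := by
      intro z _
      obtain ⟨x, hx, hxz⟩ := lim_surj G g hs n z
      rcases hsub hx with h | h
      · exact Or.inl ⟨x, ⟨hx, h⟩, hxz⟩
      · exact Or.inr ⟨x, ⟨hx, h⟩, hxz⟩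
    have hpre : IsPreconnected (Set.univ : Set (G n)) := isPreconnected_univ
    rw [isPreconnected_closed_iff] at hpre
    obtain ⟨a, ha⟩ := hun
    obtain ⟨b, hb⟩ := hvn
    obtain ⟨z, -, ⟨p, hp, hpz⟩, ⟨q, hq, hqz⟩⟩ := hpre _ _ hcA hcB huniv
      ⟨a n, trivial, ⟨a, ha, rfl⟩⟩ ⟨b n, trivial, ⟨b, hb, rfl⟩⟩
    exact hn (p, q) ⟨hp, hq⟩ (by
      show p n = q n
      exact hpz.trans hqz.symm)

end Pool.Agent.Helper475.TW.MI1
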