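import Pool.Agent.Helper475.TWBase

set_option autoImplicit false

namespace Pool.Agent.Helper475.TW.MI2

open Pool.Agent.Helper475.TW
theorem re_pos480 (u w : ℂ) (hu : ‖u‖ = 1) (h : ‖w - u‖ < 3 / 4) (hw : w ≠ 0) :
    0 < ((w / (‖w‖ : ℂ))⁻¹ * u).re := by
  have hwn : 0 < ‖w‖ := norm_pos_iff.2 hw
  have h1 : ‖w - u‖ ^ 2 < 9 / 16 := by nlinarith [norm_nonneg (w - u)]
  have h2 : ‖w - u‖ ^ 2 = ‖w‖ ^ 2 - 2 * (w.re * u.re + w.im * u.im) + ‖u‖ ^ 2 := by
    rw [← Complex.normSq_eq_norm_sq, ← Complex.normSq_eq_norm_sq, ← Complex.normSq_eq_norm_sq]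
    simp only [Complex.normSq_apply, Complex.sub_re, Complex.sub_im]
    ring
  rw [hu] at h2
  have h3 : 0 < w.re * u.re + w.im * u.im := by nlinarith [sq_nonneg ‖w‖]
  have h4 : (w / (‖w‖ : ℂ))⁻¹ * u = ((1 / ‖w‖ : ℝ) : ℂ) * ((starRingEnd ℂ) w * u) := by
    rw [inv_div]
    have h5 : (starRingEnd ℂ) w * w = ((‖w‖ : ℂ)) ^ 2 := by
      rw [Complex.conj_mul']
    have h6 : ((‖w‖ : ℝ) : ℂ) ≠ 0 := by
      exact_mod_cast hwn.ne'
    push_cast
    field_simp
    linear_combination (-u) * h5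
  rw [h4, Complex.re_ofReal_mul]
  apply mul_pos (by positivity)
  simp only [Complex.mul_re, Complex.conj_re, Complex.conj_im]
  linarith

/-- A map from the limit to the circle is, up to a small (hence liftable) factor, a map of one level. -/
theorem lim_factor (G : ℕ → Type) [∀ n, TopologicalSpace (G n)] [∀ n, CompactSpace (G n)]
    [∀ n, T2Space (G n)] (g : ∀ n, G (n + 1) → G n) (hg : ∀ n, Continuous (g n))
    (hs : ∀ n, Function.Surjective (g n))
    (hsurj : ∀ (n : ℕ) (z : G n), ∃ x ∈ Lim G g, x n = z)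
    (hcpt : IsCompact (Lim G g))
    (hsep : ∀ (Q : Set ((∀ n, G n) × (∀ n, G n))), IsCompact Q →
      (∀ q ∈ Q, q.1 ∈ Lim G g ∧ q.2 ∈ Lim G g) → (∀ q ∈ Q, q.1 ≠ q.2) → ∃ n, ∀ q ∈ Q, q.1 n ≠ q.2 n)
    (h : C(Lim G g, Circle)) :
    ∃ (n : ℕ) (h' : C(G n, Circle)) (E : C(Lim G g, ℝ)),
      ∀ x : Lim G g, h x = h' ((x : ∀ n, G n) n) * Circle.exp (E x) := by
  have : CompactSpace (Lim G g) := isCompact_iff_compactSpace.1 hcpt
  have hc : Continuous fun x : Lim G g => (h x : ℂ) := continuous_subtype_val.comp h.continuous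
  -- the level
  obtain ⟨n, hn⟩ : ∃ n, ∀ x y : Lim G g, (x : ∀ n, G n) n = (y : ∀ n, G n) n →
      ‖(h x : ℂ) - h y‖ < 1 / 2 := by
    set P : Set (Lim G g × Lim G g) := {p | 1 / 2 ≤ ‖(h p.1 : ℂ) - h p.2‖} with hP
    have hPc : IsCompact P := by
      apply IsClosed.isCompact
      exact isClosed_le continuous_const ((hc.comp continuous_fst).sub (hc.comp continuous_snd)).norm
    obtain ⟨n, hn⟩ := hsep ((fun p : Lim G g × Lim G g => ((p.1 : ∀ n, G n), (p.2 : ∀ n, G n))) '' P)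
      (hPc.image (by fun_prop)) (by
        rintro _ ⟨p, hp, rfl⟩
        exact ⟨p.1.2, p.2.2⟩) (by
        rintro _ ⟨p, hp, rfl⟩
        intro heq
        have h1 : p.1 = p.2 := Subtype.ext heq
        have h2 : 1 / 2 ≤ ‖(h p.1 : ℂ) - h p.2‖ := hp
        rw [h1, sub_self, norm_zero] at h2
        norm_num at h2)
    refine ⟨n, fun x y hxy => ?_⟩
    by_contra hcon
    push Not at hcon
    exact hn _ ⟨(x, y), hcon, rfl⟩ hxy
  have hpi : Continuous fun x : Lim G g => (x : ∀ n, G n) n :=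
    (continuous_apply n).comp continuous_subtype_val
  -- partition of unity
  obtain ⟨H, hH⟩ := exists_continuous_forall_mem_convex_of_local_const (X := G n) (E := ℂ)
    (t := fun z => {c : ℂ | ∀ x : Lim G g, (x : ∀ n, G n) n = z → c ∈ Metric.ball (h x : ℂ) (3 / 4)})
    (by
      intro z
      have : {c : ℂ | ∀ x : Lim G g, (x : ∀ n, G n) n = z → c ∈ Metric.ball (h x : ℂ) (3 / 4)} =
        ⋂ x : Lim G g, ⋂ _ : (x : ∀ n, G n) n = z, Metric.ball (h x : ℂ) (3 / 4) := by
        ext c; simp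
      rw [this]
      exact convex_iInter fun x => convex_iInter fun _ => convex_ball _ _)
    (by
      intro z
      obtain ⟨xz, hxz, hxz'⟩ := hsurj n z
      refine ⟨(h ⟨xz, hxz⟩ : ℂ), ?_⟩
      set C : Set (Lim G g) := {x | 3 / 4 ≤ ‖(h ⟨xz, hxz⟩ : ℂ) - h x‖} with hC
      have hCc : IsCompact C := by
        apply IsClosed.isCompact
        exact isClosed_le continuous_const (continuous_const.sub hc).norm
      have hCi : IsClosed ((fun x : Lim G g => (x : ∀ n, G n) n) '' C) := (hCc.image hpi).isClosed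
      have hz : z ∉ (fun x : Lim G g => (x : ∀ n, G n) n) '' C := by
        rintro ⟨x, hx, hxz2⟩
        have h1 := hn ⟨xz, hxz⟩ x (hxz'.trans hxz2.symm)
        have h2 : 3 / 4 ≤ ‖(h ⟨xz, hxz⟩ : ℂ) - h x‖ := hx
        linarith
      filter_upwards [hCi.isOpen_compl.mem_nhds hz] with z' hz'
      intro x hx
      rw [Metric.mem_ball, dist_eq_norm]
      by_contra hcon
      push Not at hcon
      exact hz' ⟨x, hcon, hx⟩)
  have hH' : ∀ x : Lim G g, ‖H ((x : ∀ n, G n) n) - h x‖ < 3 / 4 := by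
    intro x
    have := hH ((x : ∀ n, G n) n) x rfl
    rwa [Metric.mem_ball, dist_eq_norm] at this
  have hne : ∀ z, H z ≠ 0 := by
    intro z hz
    obtain ⟨xz, hxz, hxz'⟩ := hsurj n z
    have h1 := hH' ⟨xz, hxz⟩
    simp only [hxz', hz, zero_sub, norm_neg, Circle.norm_coe] at h1
    norm_num at h1
  have hnn : ∀ z, ((‖H z‖ : ℝ) : ℂ) ≠ 0 := by
    intro z
    exact_mod_cast (norm_pos_iff.2 (hne z)).ne'
  let h' : C(G n, Circle) :=
    ⟨fun z => ⟨H z / (‖H z‖ : ℂ), by
      apply mem_sphere_zero_iff_norm.2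
      rw [norm_div, Complex.norm_real, norm_norm, div_self (norm_pos_iff.2 (hne z)).ne']⟩, by
      apply Continuous.subtype_mk
      exact H.continuous.div (Complex.continuous_ofReal.comp H.continuous.norm) hnn⟩
  have hre : ∀ x : Lim G g, 0 < (((h' ((x : ∀ n, G n) n))⁻¹ * h x : Circle) : ℂ).re := by
    intro x
    exact re_pos480 (h x) (H ((x : ∀ n, G n) n)) (Circle.norm_coe _) (hH' x) (hne _)
  let E : C(Lim G g, ℝ) :=
    ⟨fun x => Complex.arg (((h' ((x : ∀ n, G n) n))⁻¹ * h x : Circle) : ℂ), by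
      rw [continuous_iff_continuousAt]
      intro x
      apply ContinuousAt.comp (g := Complex.arg)
        (f := fun x : Lim G g => (((h' ((x : ∀ n, G n) n))⁻¹ * h x : Circle) : ℂ))
      · exact Complex.continuousAt_arg (Or.inl (hre x))
      · apply Continuous.continuousAt
        apply continuous_subtype_val.comp
        exact ((h'.continuous.comp hpi).inv).mul h.continuous⟩
  refine ⟨n, h', E, fun x => ?_⟩
  have h1 : Circle.exp (E x) = (h' ((x : ∀ n, G n) n))⁻¹ * h x := Circle.exp_arg _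
  rw [h1, mul_inv_cancel_left]

end Pool.Agent.Helper475.TW.MI2
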