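import Pool.Agent.Helper475.TWBase

set_option autoImplicit false

namespace Pool.Agent.Helper475.TW.MT1

open Pool.Agent.Helper475.TW
theorem continuous_th {F : Type} (x : F) : Continuous (th x) := by
  unfold th
  refine Continuous.prodMk continuous_id ?_
  refine continuous_pi fun y => ?_
  by_cases h : y = x
  · simp only [h, if_true]; fun_prop
  · simp only [h, if_false]; exact continuous_const

theorem theta_eq_iUnion {F : Type} : Theta F = ⋃ x : F, th x '' Set.Icc (0:ℝ) 1 := by
  ext z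
  simp only [Theta, Set.mem_setOf_eq, Set.mem_iUnion, Set.mem_image, Set.mem_Icc]
  constructor
  · rintro ⟨x, t, h0, h1, rfl⟩; exact ⟨x, t, ⟨h0, h1⟩, rfl⟩
  · rintro ⟨x, t, ⟨h0, h1⟩, rfl⟩; exact ⟨x, t, h0, h1, rfl⟩

theorem isCompact_Theta {F : Type} [Finite F] : IsCompact (Theta F) := by
  rw [theta_eq_iUnion]
  exact isCompact_iUnion fun x => isCompact_Icc.image (continuous_th x)

theorem th_zero_eq {F : Type} (x y : F) : th x 0 = th y 0 := by
  simp [th]

theorem isConnected_Theta {F : Type} [Nonempty F] : IsConnected (Theta F) := by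
  classical
  obtain ⟨x0⟩ := ‹Nonempty F›
  refine ⟨⟨th x0 0, x0, 0, le_rfl, zero_le_one, rfl⟩, ?_⟩
  rw [theta_eq_iUnion]
  refine isPreconnected_iUnion (s := fun x : F => th x '' Set.Icc (0:ℝ) 1)
    ⟨th x0 0, Set.mem_iInter.2 fun x => ?_⟩ fun x => ?_
  · exact ⟨0, ⟨le_rfl, zero_le_one⟩, th_zero_eq x x0⟩
  · exact isPreconnected_Icc.image _ (continuous_th x).continuousOn

/-- Gluing: compatible continuous maps on the edges give a continuous map on the theta graph. -/
theorem theta_glue {F : Type} [Finite F] {Z : Type} [TopologicalSpace Z] (φ : F → ℝ → Z)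
    (hφ : ∀ x, Continuous (φ x)) (h0 : ∀ x y, φ x 0 = φ y 0) (h1 : ∀ x y, φ x 1 = φ y 1) :
    ∃ Φ : C(Theta F, Z), ∀ (z : Theta F) (x : F) (t : ℝ), 0 ≤ t → t ≤ 1 →
      (z : ℝ × (F → ℝ)) = th x t → Φ z = φ x t := by
  classical
  letI : TopologicalSpace F := ⊥
  haveI : DiscreteTopology F := ⟨rfl⟩
  let q : F × Set.Icc (0:ℝ) 1 → Theta F := fun p => ⟨th p.1 p.2, p.1, p.2, p.2.2.1, p.2.2.2, rfl⟩
  have hqc : Continuous q := by
    refine Continuous.subtype_mk ?_ _
    have : Continuous fun p : F × ℝ => th p.1 p.2 := by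
      rw [continuous_prod_of_discrete_left]
      intro a
      exact continuous_th a
    exact this.comp (continuous_fst.prodMk (continuous_subtype_val.comp continuous_snd))
  have hqs : Function.Surjective q := by
    rintro ⟨z, x, t, ht0, ht1, rfl⟩
    exact ⟨(x, ⟨t, ht0, ht1⟩), rfl⟩
  have hq0 : Topology.IsQuotientMap q := hqc.isClosedMap.isQuotientMap hqc hqs
  let qc : C(F × Set.Icc (0:ℝ) 1, Theta F) := ⟨q, hqc⟩
  have hq : Topology.IsQuotientMap qc := hq0
  let f : C(F × Set.Icc (0:ℝ) 1, Z) := ⟨fun p => φ p.1 p.2, by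
    have : Continuous fun p : F × ℝ => φ p.1 p.2 := by
      rw [continuous_prod_of_discrete_left]
      intro a
      exact hφ a
    exact this.comp (continuous_fst.prodMk (continuous_subtype_val.comp continuous_snd))⟩
  have key : ∀ (x y : F) (s t : ℝ), 0 ≤ s → s ≤ 1 → 0 ≤ t → t ≤ 1 → th x s = th y t → φ x s = φ y t := by
    intro x y s t hs0 hs1 ht0 ht1 h
    have e1 : s = t := congrArg Prod.fst h
    subst e1
    by_cases hxy : x = y
    · subst hxy; rfl
    · have e2 := congrFun (congrArg Prod.snd h) x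
      simp only [th, if_true, if_neg hxy] at e2
      rcases mul_eq_zero.1 e2 with h' | h'
      · rw [h']; exact h0 x y
      · have : s = 1 := by linarith
        rw [this]; exact h1 x y
  have hf : Function.FactorsThrough f qc := by
    rintro ⟨x, s, hs⟩ ⟨y, t, ht⟩ h
    exact key x y s t hs.1 hs.2 ht.1 ht.2 (congrArg Subtype.val h)
  refine ⟨hq.lift f hf, ?_⟩
  intro z x t ht0 ht1 hz
  have hz' : z = q (x, ⟨t, ht0, ht1⟩) := Subtype.ext hz
  rw [hz']
  exact congrFun (congrArg DFunLike.coe (hq.lift_comp f hf)) (x, ⟨t, ht0, ht1⟩)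

end Pool.Agent.Helper475.TW.MT1
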