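import Pool.Agent.Helper475.TWBase

set_option autoImplicit false

namespace Pool.Agent.Helper475.TW.MT2

open Pool.Agent.Helper475.TW

theorem cl_low {y : ℝ} (h : y ≤ 0) : cl y = 0 := by
  unfold cl
  rw [min_eq_right (by linarith), max_eq_left h]

theorem cl_high {y : ℝ} (h : 1 ≤ y) : cl y = 1 := by
  unfold cl
  rw [min_eq_left h, max_eq_right zero_le_one]

theorem cl_mid {y : ℝ} (h0 : 0 ≤ y) (h1 : y ≤ 1) : cl y = y := by
  unfold cl
  rw [min_eq_right h1, max_eq_right h0]

theorem cl_cont : Continuous cl := by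
  unfold cl
  fun_prop

theorem PW_continuous {F : Type} {k : ℕ} (w : Fin k → F) : Continuous (PW w) := by
  classical
  have h : ∀ c : ℝ, Continuous fun y : ℝ => cl (y - c) := fun c =>
    cl_cont.comp (continuous_id.sub continuous_const)
  unfold PW
  refine Continuous.prodMk ?_ ?_
  · exact continuous_finset_sum _ fun j _ => continuous_const.mul (h _)
  · refine continuous_pi fun x => continuous_finset_sum _ fun j _ => ?_
    by_cases hx : x = w j
    · simp only [if_pos hx]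
      exact (h _).mul (continuous_const.sub (h _))
    · simp only [if_neg hx]
      exact continuous_const

theorem alt_sum_low (y : ℝ) (j : ℕ) (h1 : (j : ℝ) ≤ y) (n : ℕ) (hn : n ≤ j) :
    ∑ i ∈ Finset.range n, (-1 : ℝ) ^ i * cl (y - i) = if Even n then 0 else 1 := by
  induction n with
  | zero => simp
  | succ n ih =>
    rw [Finset.sum_range_succ, ih (by omega)]
    have hc : cl (y - n) = 1 := by
      apply cl_high
      have : ((n + 1 : ℕ) : ℝ) ≤ (j : ℝ) := by exact_mod_cast hn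
      push_cast at this
      linarith
    rw [hc]
    by_cases he : Even n
    · rw [if_pos he, if_neg (by simpa [Nat.even_add_one] using he), he.neg_one_pow]; norm_num
    · rw [if_neg he, if_pos (by simpa [Nat.even_add_one] using he),
        (Nat.not_even_iff_odd.1 he).neg_one_pow]
      norm_num

theorem alt_sum_high (y : ℝ) (j : ℕ) (h1 : (j : ℝ) ≤ y) (h2 : y ≤ j + 1) (n : ℕ) (hn : j + 1 ≤ n) :
    ∑ i ∈ Finset.range n, (-1 : ℝ) ^ i * cl (y - i) = if Even j then y - j else 1 - (y - j) := by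
  induction n, hn using Nat.le_induction with
  | base =>
    rw [Finset.sum_range_succ, alt_sum_low y j h1 j le_rfl, cl_mid (by linarith) (by linarith)]
    by_cases he : Even j
    · rw [if_pos he, if_pos he, he.neg_one_pow]; ring
    · rw [if_neg he, if_neg he, (Nat.not_even_iff_odd.1 he).neg_one_pow]; ring
  | succ n hn ih =>
    rw [Finset.sum_range_succ, ih]
    have hc : cl (y - n) = 0 := by
      apply cl_low
      have : ((j + 1 : ℕ) : ℝ) ≤ (n : ℝ) := by exact_mod_cast hn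
      push_cast at this
      linarith
    rw [hc]; ring

theorem PW_eq {F : Type} {r : ℕ} (w : Fin (2 * r + 1) → F) (j : Fin (2 * r + 1)) (y : ℝ)
    (h1 : ((j : ℕ) : ℝ) ≤ y) (h2 : y ≤ (j : ℕ) + 1) :
    PW w y = if Even (j : ℕ) then th (w j) (y - (j : ℕ)) else th (w j) (1 - (y - (j : ℕ))) := by
  classical
  have hfst : (PW w y).1 = if Even (j : ℕ) then y - (j : ℕ) else 1 - (y - (j : ℕ)) := by
    show ∑ i : Fin (2 * r + 1), (-1 : ℝ) ^ (i : ℕ) * cl (y - (i : ℕ)) = _
    rw [Fin.sum_univ_eq_sum_range (fun i : ℕ => (-1 : ℝ) ^ i * cl (y - i)) (2 * r + 1)]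
    exact alt_sum_high y j h1 h2 _ j.2
  have hsnd : ∀ x, (PW w y).2 x = if x = w j then (y - (j : ℕ)) * (1 - (y - (j : ℕ))) else 0 := by
    intro x
    show (∑ i : Fin (2 * r + 1), if x = w i then cl (y - (i : ℕ)) * (1 - cl (y - (i : ℕ))) else 0) = _
    rw [Finset.sum_eq_single j]
    · rw [cl_mid (by linarith) (by linarith)]
    · intro i _ hij
      have hij' : (i : ℕ) ≠ (j : ℕ) := fun h => hij (Fin.ext h)
      have : cl (y - (i : ℕ)) * (1 - cl (y - (i : ℕ))) = 0 := by
        rcases lt_or_gt_of_ne hij' with h | h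
        · rw [cl_high]
          · ring
          · have : (((i : ℕ) + 1 : ℕ) : ℝ) ≤ ((j : ℕ) : ℝ) := by exact_mod_cast h
            push_cast at this
            linarith
        · rw [cl_low]
          · ring
          · have : (((j : ℕ) + 1 : ℕ) : ℝ) ≤ ((i : ℕ) : ℝ) := by exact_mod_cast h
            push_cast at this
            linarith
      rw [this]; simp
    · intro h; exact absurd (Finset.mem_univ j) h
  by_cases he : Even (j : ℕ)
  · rw [if_pos he]
    refine Prod.ext ?_ (funext fun x => ?_)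
    · rw [hfst, if_pos he]; rfl
    · rw [hsnd]; rfl
  · rw [if_neg he]
    refine Prod.ext ?_ (funext fun x => ?_)
    · rw [hfst, if_neg he]; rfl
    · rw [hsnd]
      show _ = if x = w j then (1 - (y - ((j : ℕ) : ℝ))) * (1 - (1 - (y - ((j : ℕ) : ℝ)))) else 0
      split_ifs <;> ring

theorem PW_letter (r : ℕ) (y : ℝ) (h0 : 0 ≤ y) (h1 : y ≤ 2 * r + 1) :
    ∃ j : Fin (2 * r + 1), ((j : ℕ) : ℝ) ≤ y ∧ y ≤ (j : ℕ) + 1 := by
  by_cases h : y < 2 * r + 1
  · have hf := Nat.floor_le h0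
    have hf2 := Nat.lt_floor_add_one y
    have hlt : ⌊y⌋₊ < 2 * r + 1 := by
      have : ((⌊y⌋₊ : ℕ) : ℝ) < ((2 * r + 1 : ℕ) : ℝ) := by push_cast; linarith
      exact_mod_cast this
    exact ⟨⟨⌊y⌋₊, hlt⟩, hf, hf2.le⟩
  · have : y = 2 * r + 1 := le_antisymm h1 (not_lt.1 h)
    refine ⟨⟨2 * r, by omega⟩, ?_, ?_⟩
    · push_cast; linarith
    · push_cast; linarith

theorem PW_mem {F : Type} {r : ℕ} (w : Fin (2 * r + 1) → F) (y : ℝ) (h1 : 0 ≤ y)
    (h2 : y ≤ 2 * r + 1) : PW w y ∈ Theta F := by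
  obtain ⟨j, hj1, hj2⟩ := PW_letter r y h1 h2
  rw [PW_eq w j y hj1 hj2]
  split_ifs
  · exact ⟨w j, _, by linarith, by linarith, rfl⟩
  · exact ⟨w j, _, by linarith, by linarith, rfl⟩

theorem th_zero_eq {F : Type} (x y : F) : th x 0 = th y 0 := by
  unfold th
  simp

theorem th_one_eq {F : Type} (x y : F) : th x 1 = th y 1 := by
  unfold th
  simp

theorem PW_zero {F : Type} {r : ℕ} (w : Fin (2 * r + 1) → F) (x : F) : PW w 0 = th x 0 := by
  have h : (((0 : Fin (2 * r + 1)) : ℕ) : ℝ) = 0 := by simp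
  rw [PW_eq w 0 0 (by rw [h]) (by rw [h]; norm_num), if_pos (by simp)]
  rw [h, sub_zero]
  exact th_zero_eq _ _

theorem PW_end {F : Type} {r : ℕ} (w : Fin (2 * r + 1) → F) (x : F) :
    PW w (2 * r + 1) = th x 1 := by
  have h : (((Fin.last (2 * r)) : ℕ) : ℝ) = 2 * r := by simp
  rw [PW_eq w (Fin.last (2 * r)) (2 * r + 1) (by rw [h]; linarith) (by rw [h]), if_pos (by simp)]
  rw [h]
  have : (2 * (r : ℝ) + 1 - 2 * r) = 1 := by ring
  rw [this]
  exact th_one_eq _ _

theorem PW_rev {F : Type} {r : ℕ} (w : Fin (2 * r + 1) → F) (y : ℝ) (h1 : 0 ≤ y)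
    (h2 : y ≤ 2 * r + 1) :
    PW (fun j => w (Fin.rev j)) ((2 * r + 1) - y) = flp (PW w y) := by
  classical
  have hflp : ∀ (x : F) (t : ℝ), flp (th x t) = th x (1 - t) := by
    intro x t
    unfold flp th
    refine Prod.ext rfl ?_
    funext y
    simp only
    split_ifs <;> ring
  obtain ⟨j, hj1, hj2⟩ := PW_letter r y h1 h2
  have hrev : (((Fin.rev j : Fin (2 * r + 1)) : ℕ) : ℝ) = 2 * r - (j : ℕ) := by
    rw [Fin.val_rev]
    have : (j : ℕ) + 1 ≤ 2 * r + 1 := j.2
    rw [Nat.cast_sub this]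
    push_cast; ring
  have hev : Even ((Fin.rev j : Fin (2 * r + 1)) : ℕ) ↔ Even (j : ℕ) := by
    rw [Fin.val_rev]
    have hj : (j : ℕ) < 2 * r + 1 := j.2
    constructor
    · rintro ⟨a, ha⟩; exact ⟨r - a, by omega⟩
    · rintro ⟨a, ha⟩; exact ⟨r - a, by omega⟩
  rw [PW_eq w j y hj1 hj2, PW_eq (fun j => w (Fin.rev j)) (Fin.rev j) ((2 * r + 1) - y)
    (by rw [hrev]; linarith) (by rw [hrev]; linarith)]
  simp only [Fin.rev_rev, hrev]
  by_cases he : Even (j : ℕ)
  · rw [if_pos he, if_pos (hev.2 he), hflp]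
    congr 1; ring
  · rw [if_neg he, if_neg (fun h => he (hev.1 h)), hflp]
    congr 1; ring

end Pool.Agent.Helper475.TW.MT2
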