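import Pool.Agent.Helper475.TWBase

set_option autoImplicit false

namespace Pool.Agent.Helper475.TW.MT4

open Pool.Agent.Helper475.TW
theorem th_eq {F : Type} {c d : F} {t s : ℝ} (h : th c t = th d s) :
    t = s ∧ (c = d ∨ t * (1 - t) = 0) := by
  classical
  have h1 : t = s := congrArg Prod.fst h
  refine ⟨h1, ?_⟩
  by_cases hcd : c = d
  · exact Or.inl hcd
  · right
    have h2 := congrFun (congrArg Prod.snd h) c
    simp only [th, hcd, if_true, if_false] at h2
    exact h2

theorem th_cont {F : Type} (c : F) : Continuous (fun t : ℝ => th c t) := by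
  classical
  unfold th
  refine Continuous.prodMk continuous_id (continuous_pi fun y => ?_)
  by_cases h : y = c
  · simp only [h, if_true]
    fun_prop
  · simp only [h, if_false]
    fun_prop

/-- the part of the theta graph with parameters between `l` and `u` -/
def Seg {F : Type} (l u : F → ℝ) : Set (Theta F) :=
  {z | ∃ c : F, ∃ t : ℝ, l c ≤ t ∧ t ≤ u c ∧ (z : ℝ × (F → ℝ)) = th c t}

theorem seg_closed {F : Type} [Finite F] (l u : F → ℝ) : IsClosed (Seg l u) := by
  have h : Seg l u = ⋃ c : F, (fun z : Theta F => (z : ℝ × (F → ℝ))) ⁻¹'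
      ((fun t : ℝ => th c t) '' Set.Icc (l c) (u c)) := by
    ext z
    simp only [Seg, Set.mem_setOf_eq, Set.mem_iUnion, Set.mem_preimage, Set.mem_image, Set.mem_Icc]
    constructor
    · rintro ⟨c, t, h1, h2, h3⟩
      exact ⟨c, t, ⟨h1, h2⟩, h3.symm⟩
    · rintro ⟨c, t, ⟨h1, h2⟩, h3⟩
      exact ⟨c, t, h1, h2, h3.symm⟩
  rw [h]
  refine isClosed_iUnion_of_finite (fun c => ?_)
  exact (isCompact_Icc.image (th_cont c)).isClosed.preimage continuous_subtype_val

theorem dich {F : Type} [Finite F] (K : Set (Theta F)) (hc : IsPreconnected K)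
    (γ : F → ℝ) (hγ0 : ∀ c, 0 ≤ γ c) (hγ1 : ∀ c, γ c ≤ 1)
    (hγ : ∀ c, ∀ z : Theta F, (z : ℝ × (F → ℝ)) = th c (γ c) → z ∉ K) :
    K ⊆ Seg (fun _ => 0) γ ∨ K ⊆ Seg γ (fun _ => 1) := by
  have hcov : K ⊆ Seg (fun _ => 0) γ ∪ Seg γ (fun _ => 1) := by
    intro z _
    obtain ⟨c, t, h0, h1, hz⟩ := z.2
    rcases le_total t (γ c) with h | h
    · exact Or.inl ⟨c, t, h0, h, hz⟩
    · exact Or.inr ⟨c, t, h, h1, hz⟩
  by_contra hcon
  rw [not_or] at hcon
  obtain ⟨x, hxK, hx⟩ := Set.not_subset.mp hcon.1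
  obtain ⟨y, hyK, hy⟩ := Set.not_subset.mp hcon.2
  have hx' : x ∈ Seg γ (fun _ => 1) := (hcov hxK).resolve_left hx
  have hy' : y ∈ Seg (fun _ => 0) γ := (hcov hyK).resolve_right hy
  obtain ⟨z, hzK, hzA, hzB⟩ := (isPreconnected_closed_iff.mp hc) _ _ (seg_closed _ _)
    (seg_closed _ _) hcov ⟨y, hyK, hy'⟩ ⟨x, hxK, hx'⟩
  obtain ⟨c, t, ht0, ht1, hz1⟩ := hzA
  obtain ⟨d, s, hs0, hs1, hz2⟩ := hzB
  simp only at ht0 hs1
  obtain ⟨hts, hor⟩ := th_eq (hz1.symm.trans hz2)
  subst hts
  rcases hor with h | h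
  · subst h
    have : t = γ c := le_antisymm ht1 hs0
    rw [this] at hz1
    exact hγ c z hz1 hzK
  · rcases mul_eq_zero.mp h with h | h
    · have : t = γ d := le_antisymm (by rw [h]; exact hγ0 d) hs0
      rw [this] at hz2
      exact hγ d z hz2 hzK
    · have ht : t = 1 := by linarith
      have : t = γ c := le_antisymm ht1 (by rw [ht]; exact hγ1 c)
      rw [this] at hz1
      exact hγ c z hz1 hzK

/-- A connected closed set containing antipodal points on two different edges contains half an edge. -/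
theorem half_edge {F : Type} [Finite F] (K : Set (Theta F)) (hK : IsClosed K) (hc : IsPreconnected K)
    (a b : F) (hab : a ≠ b) (τ : ℝ) (h0 : 0 ≤ τ) (h1 : τ ≤ 1) (za zb : Theta F)
    (ha : (za : ℝ × (F → ℝ)) = th a τ) (hb : (zb : ℝ × (F → ℝ)) = th b (1 - τ))
    (hza : za ∈ K) (hzb : zb ∈ K) :
    ∃ c : F, (∀ (z : Theta F) (t : ℝ), 0 ≤ t → t ≤ 1 / 2 → (z : ℝ × (F → ℝ)) = th c t → z ∈ K) ∨
      (∀ (z : Theta F) (t : ℝ), 1 / 2 ≤ t → t ≤ 1 → (z : ℝ × (F → ℝ)) = th c t → z ∈ K) := by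
  classical
  by_contra hcon
  push Not at hcon
  have hα : ∀ c : F, ∃ t : ℝ, 0 ≤ t ∧ t ≤ 1 / 2 ∧
      ∀ z : Theta F, (z : ℝ × (F → ℝ)) = th c t → z ∉ K := by
    intro c
    obtain ⟨⟨z, t, ht0, ht1, hz, hzK⟩, -⟩ := hcon c
    refine ⟨t, ht0, ht1, fun z' hz' hz'K => hzK ?_⟩
    have : z = z' := Subtype.ext (hz.trans hz'.symm)
    rw [this]
    exact hz'K
  have hβ : ∀ c : F, ∃ t : ℝ, 1 / 2 ≤ t ∧ t ≤ 1 ∧
      ∀ z : Theta F, (z : ℝ × (F → ℝ)) = th c t → z ∉ K := by
    intro c
    obtain ⟨-, ⟨z, t, ht0, ht1, hz, hzK⟩⟩ := hcon c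
    refine ⟨t, ht0, ht1, fun z' hz' hz'K => hzK ?_⟩
    have : z = z' := Subtype.ext (hz.trans hz'.symm)
    rw [this]
    exact hz'K
  choose α hα0 hα1 hα2 using hα
  choose β hβ0 hβ1 hβ2 using hβ
  -- first dichotomy
  have hB : K ⊆ Seg α (fun _ => 1) := by
    rcases dich K hc α hα0 (fun c => by linarith [hα1 c]) hα2 with h | h
    · exfalso
      have key : ∀ (z : Theta F) (e : F) (σ : ℝ), z ∈ K → (z : ℝ × (F → ℝ)) = th e σ → σ < 1 / 2 := by
        intro z e σ hzK hze
        obtain ⟨c, t, ht0, ht1, hz1⟩ := h hzK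
        obtain ⟨hts, hor⟩ := th_eq (hze.symm.trans hz1)
        subst hts
        have hle : σ ≤ 1 / 2 := ht1.trans (hα1 c)
        rcases lt_or_eq_of_le hle with h' | h'
        · exact h'
        · exfalso
          rcases hor with h'' | h''
          · subst h''
            have : σ = α e := le_antisymm ht1 (by rw [h']; exact hα1 e)
            rw [this] at hze
            exact hα2 e z hze hzK
          · rw [h'] at h''
            norm_num at h''
      have k1 := key za a τ hza ha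
      have k2 := key zb b (1 - τ) hzb hb
      linarith
    · exact h
  have hA : K ⊆ Seg (fun _ => 0) β := by
    rcases dich K hc β (fun c => by linarith [hβ0 c]) hβ1 hβ2 with h | h
    · exact h
    · exfalso
      have key : ∀ (z : Theta F) (e : F) (σ : ℝ), z ∈ K → (z : ℝ × (F → ℝ)) = th e σ → 1 / 2 < σ := by
        intro z e σ hzK hze
        obtain ⟨c, t, ht0, ht1, hz1⟩ := h hzK
        obtain ⟨hts, hor⟩ := th_eq (hze.symm.trans hz1)
        subst hts
        have hle : 1 / 2 ≤ σ := (hβ0 c).trans ht0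
        rcases lt_or_eq_of_le hle with h' | h'
        · exact h'
        · exfalso
          rcases hor with h'' | h''
          · subst h''
            have : σ = β e := le_antisymm (by rw [← h']; exact hβ0 e) ht0
            rw [this] at hze
            exact hβ2 e z hze hzK
          · rw [← h'] at h''
            norm_num at h''
      have k1 := key za a τ hza ha
      have k2 := key zb b (1 - τ) hzb hb
      linarith
  -- the poles are not in `K`
  have hpole : ∀ (z : Theta F) (e : F) (σ : ℝ), z ∈ K → (z : ℝ × (F → ℝ)) = th e σ →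
      σ * (1 - σ) ≠ 0 := by
    intro z e σ hzK hze h0'
    rcases mul_eq_zero.mp h0' with h' | h'
    · obtain ⟨c, t, ht0, ht1, hz1⟩ := hB hzK
      obtain ⟨hts, -⟩ := th_eq (hze.symm.trans hz1)
      subst hts
      have : σ = α c := le_antisymm (by rw [h']; exact hα0 c) ht0
      rw [this] at hz1
      exact hα2 c z hz1 hzK
    · obtain ⟨c, t, ht0, ht1, hz1⟩ := hA hzK
      obtain ⟨hts, -⟩ := th_eq (hze.symm.trans hz1)
      subst hts
      have h1' : σ = 1 := by linarith
      have : σ = β c := le_antisymm ht1 (by rw [h1']; exact hβ1 c)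
      rw [this] at hz1
      exact hβ2 c z hz1 hzK
  -- separate the edge `a` from the other edges
  have hcov : K ⊆ Seg (fun _ => 0) (fun c => if c = a then 1 else -1) ∪
      Seg (fun _ => 0) (fun c => if c = a then -1 else 1) := by
    intro z _
    obtain ⟨c, t, ht0, ht1, hz⟩ := z.2
    by_cases hca : c = a
    · exact Or.inl ⟨c, t, ht0, by simp only [hca, if_true]; exact ht1, hz⟩
    · exact Or.inr ⟨c, t, ht0, by simp only [hca, if_false]; exact ht1, hz⟩
  obtain ⟨z, hzK, hzA, hzB⟩ := (isPreconnected_closed_iff.mp hc) _ _ (seg_closed _ _)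
    (seg_closed _ _) hcov
    ⟨za, hza, a, τ, h0, by simp only [if_true]; exact h1, ha⟩
    ⟨zb, hzb, b, 1 - τ, by simp only; linarith, by simp only [hab.symm, if_false]; linarith, hb⟩
  obtain ⟨c, t, ht0, ht1, hz1⟩ := hzA
  obtain ⟨d, s, hs0, hs1, hz2⟩ := hzB
  simp only at ht0 ht1 hs0 hs1
  obtain ⟨hts, hor⟩ := th_eq (hz1.symm.trans hz2)
  have hca : c = a := by
    by_contra hne
    rw [if_neg hne] at ht1
    linarith
  have hda : d ≠ a := by
    intro he
    rw [if_pos he] at hs1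
    linarith
  rcases hor with h | h
  · exact hda (h ▸ hca)
  · exact hpole z c t hzK hz1 h

end Pool.Agent.Helper475.TW.MT4
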