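import Pool.Agent.Helper475.TWBase

set_option autoImplicit false

namespace Pool.Agent.Helper475.TW.MT5a

open Pool.Agent.Helper475.TW

theorem th_fst {F : Type} (x : F) (t : ℝ) : (th x t).1 = t := rfl

theorem th_snd {F : Type} (x : F) (t : ℝ) (y : F) [Decidable (y = x)] :
    (th x t).2 y = if y = x then t * (1 - t) else 0 := by
  unfold th
  split_ifs with h
  · simp [h]
  · simp [h]

theorem th_cont {F : Type} (x : F) : Continuous (th x) := by
  classical
  unfold th
  refine continuous_id.prodMk (continuous_pi fun y => ?_)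
  by_cases hy : y = x
  · simp only [hy, if_true]
    fun_prop
  · simp only [hy, if_false]
    exact continuous_const

theorem th_end {F : Type} (x y : F) {t : ℝ} (h : t * (1 - t) = 0) : th x t = th y t := by
  classical
  refine Prod.ext rfl (funext fun z => ?_)
  rw [th_snd, th_snd, h]
  simp

theorem th_inj {F : Type} {x y : F} {t s : ℝ} (h : th x t = th y s) :
    t = s ∧ (x = y ∨ t * (1 - t) = 0) := by
  classical
  have h1 : t = s := congrArg Prod.fst h
  subst h1
  refine ⟨rfl, ?_⟩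
  by_contra hne
  rw [not_or] at hne
  have h2 := congrFun (congrArg Prod.snd h) x
  rw [th_snd, th_snd, if_pos rfl, if_neg hne.1] at h2
  exact hne.2 h2

/-- every map of the theta graph to the circle is `exp(i Ψ) * exp(2 π i m_x t)` -/
theorem circle_form {F : Type} [Finite F] [Nonempty F] (h : C(Theta F, Circle)) :
    ∃ (m : F → ℤ) (Ψ : C(Theta F, ℝ)), ∀ (z : Theta F) (x : F) (t : ℝ), 0 ≤ t → t ≤ 1 →
      (z : ℝ × (F → ℝ)) = th x t →
      h z = Circle.exp (Ψ z) * Circle.exp (2 * Real.pi * (m x : ℝ) * t) := by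
  classical
  obtain ⟨x0⟩ := (inferInstance : Nonempty F)
  -- the paths
  let P : F → unitInterval → Theta F := fun x t => ⟨th x t, x, t, t.2.1, t.2.2, rfl⟩
  have hP : ∀ x, Continuous (P x) := fun x =>
    Continuous.subtype_mk ((th_cont x).comp continuous_subtype_val) _
  let γ : F → C(unitInterval, Circle) := fun x => h.comp ⟨P x, hP x⟩
  have hγ : ∀ x t, γ x t = h (P x t) := fun x t => rfl
  have hP0 : ∀ x, P x 0 = P x0 0 := fun x => Subtype.ext (th_end x x0 (by simp))
  have hP1 : ∀ x, P x 1 = P x0 1 := fun x => Subtype.ext (th_end x x0 (by simp))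
  obtain ⟨e, he⟩ : ∃ e : ℝ, Circle.exp e = h (P x0 0) := ⟨Complex.arg (h (P x0 0) : ℂ), Circle.exp_arg _⟩
  have hl : ∀ x, ∃ Γ : C(unitInterval, ℝ), (Circle.exp : ℝ → Circle) ∘ Γ = γ x ∧ Γ 0 = e := by
    intro x
    refine Circle.isCoveringMap_exp.exists_path_lifts (γ x) e ?_
    rw [hγ, hP0, he]
  choose ψ hψ hψ0 using hl
  have hψ' : ∀ x t, Circle.exp (ψ x t) = h (P x t) := fun x t => congrFun (hψ x) t
  have hm : ∀ x, ∃ n : ℤ, ψ x 1 = ψ x0 1 + n * (2 * Real.pi) := by
    intro x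
    refine Circle.exp_eq_exp.1 ?_
    rw [hψ', hψ', hP1]
  choose m hm using hm
  let f : F → ℝ → ℝ := fun x t => ψ x (Set.projIcc 0 1 zero_le_one t) - 2 * Real.pi * (m x : ℝ) * t
  have hf : ∀ x, Continuous (f x) := by
    intro x
    refine ((ψ x).continuous.comp continuous_projIcc).sub ?_
    fun_prop
  have hf0 : ∀ x, f x 0 = e := by
    intro x
    show ψ x (Set.projIcc 0 1 zero_le_one 0) - 2 * Real.pi * (m x : ℝ) * 0 = e
    rw [Set.projIcc_left, mul_zero, sub_zero]
    exact hψ0 x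
  have hf1 : ∀ x, f x 1 = ψ x0 1 := by
    intro x
    show ψ x (Set.projIcc 0 1 zero_le_one 1) - 2 * Real.pi * (m x : ℝ) * 1 = ψ x0 1
    rw [Set.projIcc_right]
    have := hm x
    have h1 : ψ x ⟨1, Set.right_mem_Icc.2 zero_le_one⟩ = ψ x0 1 + m x * (2 * Real.pi) := this
    rw [h1]
    ring
  have hsp : ∀ z : Theta F, ∃ x : F, ∃ t : ℝ, 0 ≤ t ∧ t ≤ 1 ∧ (z : ℝ × (F → ℝ)) = th x t := fun z => z.2
  choose X T hT0 hT1 hXT using hsp
  let Ψ : Theta F → ℝ := fun z => f (X z) (T z)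
  have hΨ : ∀ (z : Theta F) (x : F) (t : ℝ), 0 ≤ t → t ≤ 1 → (z : ℝ × (F → ℝ)) = th x t →
      Ψ z = f x t := by
    intro z x t h0 h1 hz
    show f (X z) (T z) = f x t
    obtain ⟨h2, h3⟩ := th_inj ((hXT z).symm.trans hz)
    rw [← h2]
    rcases h3 with h3 | h3
    · rw [h3]
    · rcases mul_eq_zero.1 h3 with h4 | h4
      · rw [h4, hf0, hf0]
      · have h5 : T z = 1 := by linarith
        rw [h5, hf1, hf1]
  have hcont : Continuous Ψ := by
    let E : F → Set (Theta F) := fun x => {z | (z : ℝ × (F → ℝ)) ∈ th x '' Set.Icc 0 1}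
    have hE : ∀ x, IsClosed (E x) := by
      intro x
      have : IsClosed (th x '' Set.Icc (0 : ℝ) 1) := (isCompact_Icc.image (th_cont x)).isClosed
      exact this.preimage continuous_subtype_val
    have hcov : ⋃ x, E x = Set.univ := by
      refine Set.eq_univ_of_forall fun z => Set.mem_iUnion.2 ⟨X z, T z, ⟨hT0 z, hT1 z⟩, (hXT z).symm⟩
    refine LocallyFinite.continuous (locallyFinite_of_finite E) hcov hE fun x => ?_
    have h1 : ContinuousOn (fun z : Theta F => f x (z : ℝ × (F → ℝ)).1) (E x) :=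
      ((hf x).comp (continuous_fst.comp continuous_subtype_val)).continuousOn
    refine h1.congr ?_
    rintro z ⟨t, ht, hz⟩
    rw [hΨ z x t ht.1 ht.2 hz.symm]
    show f x t = f x (z : ℝ × (F → ℝ)).1
    rw [← hz, th_fst]
  refine ⟨m, ⟨Ψ, hcont⟩, fun z x t h0 h1 hz => ?_⟩
  show h z = Circle.exp (Ψ z) * Circle.exp (2 * Real.pi * (m x : ℝ) * t)
  rw [hΨ z x t h0 h1 hz, ← Circle.exp_add]
  have h2 : f x t + 2 * Real.pi * (m x : ℝ) * t = ψ x (Set.projIcc 0 1 zero_le_one t) := by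
    show ψ x (Set.projIcc 0 1 zero_le_one t) - 2 * Real.pi * (m x : ℝ) * t + 2 * Real.pi * (m x : ℝ) * t = _
    ring
  rw [h2, hψ']
  congr 1
  refine Subtype.ext ?_
  show (z : ℝ × (F → ℝ)) = th x ((Set.projIcc 0 1 zero_le_one t : Set.Icc (0 : ℝ) 1) : ℝ)
  rw [Set.projIcc_of_mem zero_le_one ⟨h0, h1⟩]
  exact hz

end Pool.Agent.Helper475.TW.MT5a
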