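import Pool.Agent.Helper475.TWBase

set_option autoImplicit false

namespace Pool.Agent.Helper475.TW.MT5b

open Pool.Agent.Helper475.TW
theorem cl_cont : Continuous cl := by
  unfold cl
  fun_prop

theorem cl_of_nonpos {y : ℝ} (h : y ≤ 0) : cl y = 0 := by
  unfold cl
  rw [max_eq_left]
  exact (min_le_right _ _).trans h

theorem cl_of_ge_one {y : ℝ} (h : 1 ≤ y) : cl y = 1 := by
  unfold cl
  rw [min_eq_left h, max_eq_right zero_le_one]

theorem cl_of_mem {y : ℝ} (h : 0 ≤ y) (h1 : y ≤ 1) : cl y = y := by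
  unfold cl
  rw [min_eq_right h1, max_eq_right h]

/-- the composite of a standard map with a null-homologous word map lifts to `ℝ` -/
theorem word_lift {F F' : Type} [Finite F] [Finite F'] (r : ℕ)
    (u : F' → Fin (2 * r + 1) → F) (m : F → ℤ) (W : ℤ)
    (hW : ∀ e, ∑ j : Fin (2 * r + 1), (-1 : ℤ) ^ (j : ℕ) * m (u e j) = W)
    (hglue : ∀ (φ : F' → ℝ → ℝ), (∀ x, Continuous (φ x)) → (∀ x y, φ x 0 = φ y 0) →
      (∀ x y, φ x 1 = φ y 1) → ∃ Φ : C(Theta F', ℝ), ∀ (z : Theta F') (x : F') (t : ℝ), 0 ≤ t → t ≤ 1 →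
      (z : ℝ × (F' → ℝ)) = th x t → Φ z = φ x t) :
    ∃ L : C(Theta F', ℝ), ∀ (z : Theta F') (e : F') (t : ℝ) (j : Fin (2 * r + 1)) (σ : ℝ),
      0 ≤ t → t ≤ 1 → (z : ℝ × (F' → ℝ)) = th e t →
      ((j : ℕ) : ℝ) ≤ (2 * r + 1) * t → (2 * r + 1) * t ≤ (j : ℕ) + 1 →
      σ = (if Even (j : ℕ) then (2 * r + 1) * t - (j : ℕ) else 1 - ((2 * r + 1) * t - (j : ℕ))) →
      Circle.exp (2 * Real.pi * (m (u e j) : ℝ) * σ) = Circle.exp (L z) := by
  classical
  set φ : F' → ℝ → ℝ := fun e t => 2 * Real.pi * ∑ j : Fin (2 * r + 1),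
    (-1 : ℝ) ^ (j : ℕ) * (m (u e j) : ℝ) * cl ((2 * r + 1) * t - (j : ℕ)) with hφ
  have hcont : ∀ x, Continuous (φ x) := by
    intro x
    refine continuous_const.mul (continuous_finsetSum _ fun j _ => continuous_const.mul ?_)
    exact cl_cont.comp (by fun_prop)
  have h0 : ∀ x, φ x 0 = 0 := by
    intro x
    simp only [hφ]
    rw [Finset.sum_eq_zero, mul_zero]
    intro j _
    rw [cl_of_nonpos (by simp), mul_zero]
  have h1 : ∀ x, φ x 1 = 2 * Real.pi * W := by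
    intro x
    simp only [hφ]
    rw [← hW x]
    push_cast
    congr 1
    refine Finset.sum_congr rfl fun j _ => ?_
    have hj : ((j : ℕ) : ℝ) ≤ 2 * r := by
      have := j.2
      have : (j : ℕ) ≤ 2 * r := by omega
      exact_mod_cast this
    rw [cl_of_ge_one (by linarith), mul_one]
  obtain ⟨Φ, hΦ⟩ := hglue φ hcont (fun x y => by rw [h0, h0]) (fun x y => by rw [h1, h1])
  refine ⟨Φ, fun z e t j σ ht0 ht1 hz hj1 hj2 hσ => ?_⟩
  rw [hΦ z e t ht0 ht1 hz]
  set s : ℝ := (2 * r + 1) * t with hs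
  have hval : φ e t = 2 * Real.pi * (∑ i : Fin (2 * r + 1),
      (if (i : ℕ) < (j : ℕ) then (-1 : ℝ) ^ (i : ℕ) * (m (u e i) : ℝ) else 0) +
        (-1 : ℝ) ^ (j : ℕ) * (m (u e j) : ℝ) * (s - (j : ℕ))) := by
    simp only [hφ]
    congr 1
    rw [← hs]
    have h2 : ∀ i : Fin (2 * r + 1), (-1 : ℝ) ^ (i : ℕ) * (m (u e i) : ℝ) * cl (s - (i : ℕ)) =
        (if (i : ℕ) < (j : ℕ) then (-1 : ℝ) ^ (i : ℕ) * (m (u e i) : ℝ) else 0) +
        (if i = j then (-1 : ℝ) ^ (j : ℕ) * (m (u e j) : ℝ) * (s - (j : ℕ)) else 0) := by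
      intro i
      rcases lt_trichotomy (i : ℕ) (j : ℕ) with h | h | h
      · have hne : i ≠ j := fun h' => by rw [h'] at h; exact lt_irrefl _ h
        have h3 : ((i : ℕ) : ℝ) + 1 ≤ (j : ℕ) := by exact_mod_cast h
        rw [if_pos h, if_neg hne, cl_of_ge_one (by linarith), mul_one, add_zero]
      · have he : i = j := Fin.ext h
        subst he
        rw [if_neg (lt_irrefl _), if_pos rfl, cl_of_mem (by linarith) (by linarith), zero_add]
      · have hne : i ≠ j := fun h' => by rw [h'] at h; exact lt_irrefl _ h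
        have h3 : ((j : ℕ) : ℝ) + 1 ≤ (i : ℕ) := by exact_mod_cast h
        rw [if_neg (by omega), if_neg hne, cl_of_nonpos (by linarith), mul_zero, add_zero]
    rw [Finset.sum_congr rfl fun i _ => h2 i, Finset.sum_add_distrib]
    congr 1
    rw [Finset.sum_ite_eq' Finset.univ j]
    simp
  obtain ⟨n, hn⟩ : ∃ n : ℤ, (∑ i : Fin (2 * r + 1),
      (if (i : ℕ) < (j : ℕ) then (-1 : ℝ) ^ (i : ℕ) * (m (u e i) : ℝ) else 0)) = n := by
    refine ⟨∑ i : Fin (2 * r + 1), (if (i : ℕ) < (j : ℕ) then (-1 : ℤ) ^ (i : ℕ) * m (u e i) else 0), ?_⟩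
    push_cast
    rfl
  rw [hval, hn]
  have key : ∀ (a b : ℝ) (k : ℤ), a = b + k * (2 * Real.pi) → Circle.exp b = Circle.exp a := by
    intro a b k h
    rw [h]
    exact (Circle.periodic_exp.int_mul k b).symm
  by_cases hev : Even (j : ℕ)
  · rw [if_pos hev] at hσ
    rw [hσ, hev.neg_one_pow]
    refine key _ _ n ?_
    ring
  · rw [if_neg hev] at hσ
    rw [Nat.not_even_iff_odd] at hev
    rw [hσ, hev.neg_one_pow]
    refine key _ _ (n - m (u e j)) ?_
    push_cast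
    ring

end Pool.Agent.Helper475.TW.MT5b
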