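import Pool.Agent.Helper475.TWC1
import Pool.Agent.Helper475.TWC2
import Pool.Agent.Helper475.TWC3
import Pool.Agent.Helper475.TWC4
import Pool.Agent.Helper475.TWC5
import Pool.Agent.Helper475.TWT1
import Pool.Agent.Helper475.TWT2
import Pool.Agent.Helper475.TWT4
import Pool.Agent.Helper475.TWT5a
import Pool.Agent.Helper475.TWT5b
import Pool.Agent.Helper475.TWI1
import Pool.Agent.Helper475.TWI2

set_option autoImplicit false

namespace Pool.Agent.Helper475.TW

open MC1 MC2 MC3 MC4 MC5 MT1 MT2 MT4 MT5a MT5b MI1 MI2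

/-- The abstract inverse limit theorem. -/
theorem invlim_main (G : ℕ → Type) [∀ n, TopologicalSpace (G n)] [∀ n, CompactSpace (G n)]
    [∀ n, T2Space (G n)] [∀ n, SecondCountableTopology (G n)] [∀ n, ConnectedSpace (G n)]
    [Nontrivial (G 0)]
    (g f : ∀ n, G (n + 1) → G n) (hg : ∀ n, Continuous (g n)) (hf : ∀ n, Continuous (f n))
    (hcomm : ∀ n z, f n (g (n + 1) z) = g n (f (n + 1) z))
    (hs : ∀ n, Function.Surjective (g n))
    (hirr : ∀ n (K : Set (G (n + 2))), IsClosed K → IsConnected K → ∀ z : G (n + 3),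
      g (n + 2) z ∈ K → f (n + 2) z ∈ K → ∀ y : G n, ∃ z' ∈ K, g n (g (n + 1) z') = y)
    (hlift : ∀ n (h : C(G n, Circle)), ∃ L : C(G (n + 1), ℝ), ∀ z, h (g n z) = Circle.exp (L z)) :
    ¬ (∀ (M : Type) [MetricSpace M] [CompactSpace M] [ConnectedSpace M] [Nontrivial M]
      (f : C(M, M)),
      Function.Surjective f →
      (∀ x : M, ∀ K : Set M, IsClosed K → IsConnected K → x ∈ K → f x ∈ K → K = Set.univ) →
      ∃ g : C(M, Circle), Function.Surjective g ∧
        ∀ c : Circle, ¬ ContinuousMap.Homotopic g (ContinuousMap.const M c)) := by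
  intro H
  have hcpt : IsCompact (Lim G g) := lim_compact G g hg
  have hconn : IsConnected (Lim G g) := lim_connected G g hg hs
  have hsurj := lim_surj G g hs
  have : CompactSpace (Lim G g) := isCompact_iff_compactSpace.1 hcpt
  have : ConnectedSpace (Lim G g) := isConnected_iff_connectedSpace.1 hconn
  have : Nontrivial (Lim G g) := by
    obtain ⟨a, b, hab⟩ := exists_pair_ne (G 0)
    obtain ⟨x, hx, hxa⟩ := hsurj 0 a
    obtain ⟨y, hy, hyb⟩ := hsurj 0 b
    refine ⟨⟨⟨x, hx⟩, ⟨y, hy⟩, fun h => hab ?_⟩⟩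
    rw [← hxa, ← hyb]
    have := congrArg (fun q : Lim G g => (q : ∀ n, G n) 0) h
    simpa using this
  have : TopologicalSpace.MetrizableSpace (Lim G g) :=
    TopologicalSpace.metrizableSpace_of_t3_secondCountable _
  letI : MetricSpace (Lim G g) := TopologicalSpace.metrizableSpaceMetric (Lim G g)
  let F : C(Lim G g, Lim G g) :=
    ⟨fun x => ⟨fun n => f n ((x : ∀ n, G n) (n + 1)), fun n => by
      show g n (f (n + 1) ((x : ∀ n, G n) (n + 1 + 1))) = f n ((x : ∀ n, G n) (n + 1))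
      rw [← hcomm, x.2 (n + 1)]⟩, by
      refine Continuous.subtype_mk (continuous_pi fun n => ?_) _
      exact (hf n).comp ((continuous_apply (n + 1)).comp continuous_subtype_val)⟩
  have hF : ∀ (x : Lim G g) (n : ℕ), (F x : ∀ n, G n) n = f n ((x : ∀ n, G n) (n + 1)) :=
    fun x n => rfl
  have hirr' : ∀ x : Lim G g, ∀ K : Set (Lim G g), IsClosed K → IsConnected K → x ∈ K → F x ∈ K →
      K = Set.univ := by
    intro x K hK hKc hx hFx
    refine Set.eq_univ_of_forall fun y => ?_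
    by_contra hy
    have hKcpt : IsCompact K := hK.isCompact
    let Q : Set ((∀ n, G n) × (∀ n, G n)) := (fun k : Lim G g => ((y : ∀ n, G n), (k : ∀ n, G n))) '' K
    have hQ : IsCompact Q := hKcpt.image (by fun_prop)
    obtain ⟨n, hn⟩ := lim_sep G g hg Q hQ (by
      rintro q ⟨k, hk, rfl⟩
      exact ⟨y.2, k.2⟩) (by
      rintro q ⟨k, hk, rfl⟩ h
      have : y = k := Subtype.ext h
      exact hy (this ▸ hk))
    let K' : Set (G (n + 2)) := (fun k : Lim G g => (k : ∀ n, G n) (n + 2)) '' K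
    have hcont : Continuous (fun k : Lim G g => (k : ∀ n, G n) (n + 2)) :=
      (continuous_apply (n + 2)).comp continuous_subtype_val
    obtain ⟨z', ⟨k, hk, hkz⟩, hz'⟩ := hirr n K' (hKcpt.image hcont).isClosed
      (hKc.image _ hcont.continuousOn) ((x : ∀ n, G n) (n + 3)) ⟨x, hx, (x.2 (n + 2)).symm⟩
      ⟨F x, hFx, hF x (n + 2)⟩ ((y : ∀ n, G n) n)
    refine hn _ ⟨k, hk, rfl⟩ ?_
    show (y : ∀ n, G n) n = (k : ∀ n, G n) n
    rw [← hz', ← hkz, ← k.2 n, ← k.2 (n + 1)]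
  have hFs : Function.Surjective F := by
    obtain ⟨x⟩ := (inferInstance : Nonempty (Lim G g))
    have := hirr' (F x) (Set.range F) (isCompact_range F.continuous).isClosed
      (isConnected_range F.continuous) ⟨x, rfl⟩ ⟨F x, rfl⟩
    exact Set.range_eq_univ.1 this
  obtain ⟨h, -, hh⟩ := H (Lim G g) F hFs hirr'
  obtain ⟨n, h', E, hE⟩ := lim_factor G g hg hs hsurj hcpt (lim_sep G g hg) h
  obtain ⟨L, hL⟩ := hlift n h'
  let Ξ : C(Lim G g, ℝ) := ⟨fun x => L ((x : ∀ n, G n) (n + 1)) + E x, by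
    refine Continuous.add (L.continuous.comp ?_) E.continuous
    exact (continuous_apply (n + 1)).comp continuous_subtype_val⟩
  have hΞ : ∀ x, h x = Circle.exp (Ξ x) := by
    intro x
    show h x = Circle.exp (L ((x : ∀ n, G n) (n + 1)) + E x)
    rw [Circle.exp_add, hE x, ← hL, x.2 n]
  refine hh 1 ⟨⟨⟨fun p => Circle.exp ((1 - (p.1 : ℝ)) * Ξ p.2), ?_⟩, ?_, ?_⟩⟩
  · have : Continuous fun p : unitInterval × (Lim G g) => ((1 - (p.1 : ℝ)) * Ξ p.2) :=
      (continuous_const.sub (continuous_subtype_val.comp continuous_fst)).mul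
        (Ξ.continuous.comp continuous_snd)
    exact Circle.exp.continuous.comp this
  · intro x
    simp [hΞ]
  · intro x
    simp

/-- the next system -/
theorem next_system {F : Type} [Finite F] [Nonempty F] (D : F → F → Prop) (hD : ∀ x, ¬ D x x)
    (hP : Prim D) :
    ∃ (r : ℕ) (F' : Type) (D' : F' → F' → Prop) (u v : F' → Fin (2 * r + 1) → F),
      1 ≤ r ∧ Finite F' ∧ Nonempty F' ∧ (∀ e, ¬ D' e e) ∧ Prim D' ∧
      (∀ e, Function.Surjective (u e)) ∧
      (∀ m : F → ℤ, ∃ W : ℤ, ∀ e, ∑ j : Fin (2 * r + 1), (-1 : ℤ) ^ (j : ℕ) * m (u e j) = W) ∧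
      (∀ e j, D (u e j) (v e j)) ∧ (∀ e e', D' e e' → ∀ j, u e' j = v e (Fin.rev j)) := by
  obtain ⟨r, s, hr, h⟩ := closed_walks D hP
  obtain ⟨C1, h11, h12, h13, h14⟩ := h r (Or.inl rfl)
  obtain ⟨C2, h21, h22, h23, h24⟩ := h (r + 1) (Or.inr rfl)
  have : NeZero r := ⟨by omega⟩
  have p1 := arr_prim C1 h11 s h13 h14 (fun K ρ h => prod_conj K ρ h)
  have p2 := arr_prim C2 h21 s h23 h24 (fun K ρ h => prod_conj K ρ h)
  obtain ⟨U, hU1, hU2, hU3, hU4, hU5⟩ := words_U D r hr C1 C2 h12 p1 p2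
  obtain ⟨F', D', u, v, h1, h2, h3, h4, h5, h6, h7, h8⟩ := next_of_U D hD r hr U hU1 hU2 hU3 hU4 hU5
  exact ⟨r, F', D', u, v, hr, h1, h2, h3, h4, h5, h6, h7, h8⟩

/-- a primitive finite digraph without loops -/
structure Sys where
  F : Type
  fin : Finite F
  ne : Nonempty F
  D : F → F → Prop
  nl : ∀ x, ¬ D x x
  pr : Prim D

theorem next_sys (S : Sys) : ∃ (S' : Sys) (r : ℕ) (u v : S'.F → Fin (2 * r + 1) → S.F),
      1 ≤ r ∧ (∀ e, Function.Surjective (u e)) ∧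
      (∀ m : S.F → ℤ, ∃ W : ℤ, ∀ e, ∑ j : Fin (2 * r + 1), (-1 : ℤ) ^ (j : ℕ) * m (u e j) = W) ∧
      (∀ e j, S.D (u e j) (v e j)) ∧ (∀ e e', S'.D e e' → ∀ j, u e' j = v e (Fin.rev j)) := by
  have := S.fin
  have := S.ne
  obtain ⟨r, F', D', u, v, hr, h1, h2, h3, h4, h5, h6, h7, h8⟩ := next_system S.D S.nl S.pr
  exact ⟨⟨F', h1, h2, D', h3, h4⟩, r, u, v, hr, h5, h6, h7, h8⟩

theorem prim_ne3 : Prim (fun x y : Fin 3 => x ≠ y) := by
  refine ⟨2, fun N hN x y => ?_⟩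
  -- induction on `N`
  have key : ∀ N : ℕ, ∀ x y : Fin 3, Walk (fun x y : Fin 3 => x ≠ y) (N + 2) x y := by
    intro N
    induction N with
    | zero =>
      intro x y
      have : ∃ z : Fin 3, x ≠ z ∧ z ≠ y := by
        revert x y; decide
      obtain ⟨z, hz1, hz2⟩ := this
      refine ⟨fun i => if i = 0 then x else if i = 1 then z else y, by simp, by simp, ?_⟩
      intro i hi
      have : i = 0 ∨ i = 1 := by omega
      rcases this with rfl | rfl
      · simpa using hz1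
      · simpa using hz2
    | succ N ih =>
      intro x y
      have : ∃ z : Fin 3, x ≠ z := by
        revert x; decide
      obtain ⟨z, hz⟩ := this
      obtain ⟨p, hp0, hpN, hp⟩ := ih z y
      refine ⟨fun i => if i = 0 then x else p (i - 1), by simp, ?_, ?_⟩
      · show (if N + 1 + 2 = 0 then x else p (N + 1 + 2 - 1)) = y
        rw [if_neg (by omega)]
        have : N + 1 + 2 - 1 = N + 2 := by omega
        rw [this, hpN]
      · intro i hi
        show (if i = 0 then x else p (i - 1)) ≠ (if i + 1 = 0 then x else p (i + 1 - 1))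
        rw [if_neg (by omega : ¬ i + 1 = 0)]
        have e : i + 1 - 1 = i := by omega
        rw [e]
        by_cases h0 : i = 0
        · subst h0
          rw [if_pos rfl, hp0]; exact hz
        · rw [if_neg h0]
          have := hp (i - 1) (by omega)
          have e2 : i - 1 + 1 = i := by omega
          rw [e2] at this
          exact this
  obtain ⟨M, rfl⟩ : ∃ M, N = M + 2 := ⟨N - 2, by omega⟩
  exact key M x y

/-- the first system: three letters -/
def S0 : Sys where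
  F := Fin 3
  fin := inferInstance
  ne := inferInstance
  D := fun x y => x ≠ y
  nl := fun x h => h rfl
  pr := prim_ne3

/-- the tower of systems -/
noncomputable def tow : ℕ → Sys
  | 0 => S0
  | n + 1 => (next_sys (tow n)).choose

theorem exists_tower : ∃ (F : ℕ → Type) (D : ∀ n, F n → F n → Prop) (r : ℕ → ℕ)
    (u v : ∀ n, F (n + 1) → Fin (2 * r n + 1) → F n),
    (∀ n, Finite (F n)) ∧ (∀ n, Nonempty (F n)) ∧ Nontrivial (F 0) ∧ (∀ n, 1 ≤ r n) ∧
    (∀ n x, ¬ D n x x) ∧ (∀ n e, Function.Surjective (u n e)) ∧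
    (∀ n (m : F n → ℤ), ∃ W : ℤ, ∀ e, ∑ j : Fin (2 * r n + 1), (-1 : ℤ) ^ (j : ℕ) * m (u n e j) = W) ∧
    (∀ n e j, D n (u n e j) (v n e j)) ∧
    (∀ n e e', D (n + 1) e e' → ∀ j, u n e' j = v n e (Fin.rev j)) := by
  have hch : ∀ n, ∃ (r : ℕ) (u v : (tow (n + 1)).F → Fin (2 * r + 1) → (tow n).F),
      1 ≤ r ∧ (∀ e, Function.Surjective (u e)) ∧
      (∀ m : (tow n).F → ℤ, ∃ W : ℤ, ∀ e, ∑ j : Fin (2 * r + 1), (-1 : ℤ) ^ (j : ℕ) * m (u e j) = W) ∧
      (∀ e j, (tow n).D (u e j) (v e j)) ∧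
      (∀ e e', (tow (n + 1)).D e e' → ∀ j, u e' j = v e (Fin.rev j)) :=
    fun n => (next_sys (tow n)).choose_spec
  choose r u v h1 h2 h3 h4 h5 using hch
  refine ⟨fun n => (tow n).F, fun n => (tow n).D, r, u, v, fun n => (tow n).fin,
    fun n => (tow n).ne, ?_, h1, fun n => (tow n).nl, h2, h3, h4, h5⟩
  show Nontrivial (Fin 3)
  infer_instance

theorem th_inj_of {F : Type} {x y : F} {t t' : ℝ} (h : th x t = th y t') : t = t' :=
  congrArg Prod.fst h

theorem flp_th {F : Type} (x : F) (t : ℝ) : flp (th x t) = th x (1 - t) := by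
  unfold flp th
  refine Prod.ext rfl ?_
  funext y
  simp only
  split_ifs <;> ring

theorem flp_mem {F : Type} {z : ℝ × (F → ℝ)} (hz : z ∈ Theta F) : flp z ∈ Theta F := by
  obtain ⟨x, t, h0, h1, rfl⟩ := hz
  exact ⟨x, 1 - t, by linarith, by linarith, flp_th x t⟩

theorem th_mem {F : Type} (x : F) {t : ℝ} (h0 : 0 ≤ t) (h1 : t ≤ 1) : th x t ∈ Theta F :=
  ⟨x, t, h0, h1, rfl⟩

theorem continuous_flp {F : Type} : Continuous (flp (F := F)) := by
  unfold flp
  fun_prop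

/-- the word map -/
theorem exists_word_map {F F' : Type} [Finite F] [Finite F'] {r : ℕ}
    (u : F' → Fin (2 * r + 1) → F) :
    ∃ g : C(Theta F', Theta F), ∀ (z : Theta F') (e : F') (t : ℝ), 0 ≤ t → t ≤ 1 →
      (z : ℝ × (F' → ℝ)) = th e t → ((g z : Theta F) : ℝ × (F → ℝ)) = PW (u e) ((2 * r + 1) * t) := by
  have hr : (0 : ℝ) ≤ 2 * r + 1 := by positivity
  have hb : ∀ t : ℝ, 0 ≤ (2 * r + 1 : ℝ) * (Set.projIcc (0:ℝ) 1 zero_le_one t : ℝ) ∧
      (2 * r + 1 : ℝ) * (Set.projIcc (0:ℝ) 1 zero_le_one t : ℝ) ≤ 2 * r + 1 := by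
    intro t
    have h := (Set.projIcc (0:ℝ) 1 zero_le_one t).2
    exact ⟨mul_nonneg hr h.1, by nlinarith [h.2, h.1]⟩
  let φ : F' → ℝ → Theta F := fun e t =>
    ⟨PW (u e) ((2 * r + 1) * (Set.projIcc (0:ℝ) 1 zero_le_one t : ℝ)),
      PW_mem (u e) _ (hb t).1 (hb t).2⟩
  have k1 : ∀ e, Continuous (φ e) := by
    intro e
    refine Continuous.subtype_mk ?_ _
    exact (PW_continuous (u e)).comp (continuous_const.mul
      (continuous_subtype_val.comp continuous_projIcc))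
  have k2 : ∀ x y, φ x 0 = φ y 0 := by
    intro x y
    apply Subtype.ext
    show PW (u x) _ = PW (u y) _
    rw [Set.projIcc_left]
    simp only [mul_zero]
    rw [PW_zero (u x) (u x 0), PW_zero (u y) (u x 0)]
  have k3 : ∀ x y, φ x 1 = φ y 1 := by
    intro x y
    apply Subtype.ext
    show PW (u x) _ = PW (u y) _
    rw [Set.projIcc_right]
    simp only [mul_one]
    rw [PW_end (u x) (u x 0), PW_end (u y) (u x 0)]
  obtain ⟨Φ, hΦ⟩ := theta_glue φ k1 k2 k3
  refine ⟨Φ, fun z e t h0 h1 hz => ?_⟩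
  rw [hΦ z e t h0 h1 hz]
  show PW (u e) ((2 * r + 1) * (Set.projIcc (0:ℝ) 1 zero_le_one t : ℝ)) = _
  rw [Set.projIcc_of_mem zero_le_one (⟨h0, h1⟩ : t ∈ Set.Icc (0:ℝ) 1)]

/-- evaluation of the word path at a point of the `j`-th letter -/
theorem PW_at {F : Type} {r : ℕ} (w : Fin (2 * r + 1) → F) (j : Fin (2 * r + 1)) (t : ℝ)
    (h0 : 0 ≤ t) (h1 : t ≤ 1) :
    PW w ((j : ℕ) + if Even (j : ℕ) then t else 1 - t) = th (w j) t := by
  by_cases hj : Even (j : ℕ)
  · rw [if_pos hj, PW_eq w j _ (by linarith) (by linarith), if_pos hj]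
    congr 1; ring
  · rw [if_neg hj, PW_eq w j _ (by linarith) (by linarith), if_neg hj]
    congr 1; ring

/-- every parameter lies in some letter -/
theorem exists_letter (r : ℕ) (y : ℝ) (h0 : 0 ≤ y) (h1 : y ≤ 2 * r + 1) :
    ∃ j : Fin (2 * r + 1), ((j : ℕ) : ℝ) ≤ y ∧ y ≤ (j : ℕ) + 1 := by
  by_cases h : y < 2 * r + 1
  · have hf := Nat.floor_le h0
    have hf2 := Nat.lt_floor_add_one y
    have hlt : ⌊y⌋₊ < 2 * r + 1 := by
      have : ((⌊y⌋₊ : ℕ) : ℝ) < ((2 * r + 1 : ℕ) : ℝ) := by push_cast; linarith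
      exact_mod_cast this
    exact ⟨⟨⌊y⌋₊, hlt⟩, hf, hf2.le⟩
  · have : y = 2 * r + 1 := le_antisymm h1 (not_lt.1 h)
    refine ⟨⟨2 * r, by omega⟩, ?_, ?_⟩
    · push_cast; linarith
    · push_cast; linarith

theorem theta_tower_main : ¬ (∀ (M : Type) [MetricSpace M] [CompactSpace M] [ConnectedSpace M]
      [Nontrivial M] (f : C(M, M)),
      Function.Surjective f →
      (∀ x : M, ∀ K : Set M, IsClosed K → IsConnected K → x ∈ K → f x ∈ K → K = Set.univ) →
      ∃ g : C(M, Circle), Function.Surjective g ∧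
        ∀ c : Circle, ¬ ContinuousMap.Homotopic g (ContinuousMap.const M c)) := by
  obtain ⟨F, D, r, u, v, hfin, hne, hnt, hr, hD, hus, hsum, hDuv, hrev⟩ := exists_tower
  have := hfin
  have := hne
  have := hnt
  have hc1 : ∀ n, CompactSpace (Theta (F n)) := fun n => isCompact_iff_compactSpace.1 isCompact_Theta
  have hc2 : ∀ n, ConnectedSpace (Theta (F n)) := fun n =>
    isConnected_iff_connectedSpace.1 isConnected_Theta
  have hk : ∀ n, (0 : ℝ) < 2 * (r n : ℝ) + 1 := fun n => by positivity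
  have hk3 : ∀ n, (3 : ℝ) ≤ 2 * (r n : ℝ) + 1 := fun n => by
    have : (1 : ℝ) ≤ (r n : ℝ) := by exact_mod_cast hr n
    linarith
  choose g hg using fun n => exists_word_map (u n)
  choose g' hg' using fun n => exists_word_map (v n)
  let f : ∀ n, C(Theta (F (n + 1)), Theta (F n)) := fun n =>
    ⟨fun z => ⟨flp (g' n z : ℝ × (F n → ℝ)), flp_mem (g' n z).2⟩,
      Continuous.subtype_mk (continuous_flp.comp (continuous_subtype_val.comp (g' n).continuous)) _⟩
  have hf : ∀ n (z : Theta (F (n + 1))) (e : F (n + 1)) (t : ℝ), 0 ≤ t → t ≤ 1 →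
      (z : ℝ × (F (n + 1) → ℝ)) = th e t →
      ((f n z : Theta (F n)) : ℝ × (F n → ℝ)) = flp (PW (v n e) ((2 * r n + 1) * t)) := by
    intro n z e t h0 h1 hz
    show flp (g' n z : ℝ × (F n → ℝ)) = _
    rw [hg' n z e t h0 h1 hz]
  -- coordinates of `g z` and `f z`
  have hcoord : ∀ n (z : Theta (F (n + 1))), ∃ (e : F (n + 1)) (j : Fin (2 * r n + 1)) (σ : ℝ),
      0 ≤ σ ∧ σ ≤ 1 ∧ (g n z : ℝ × (F n → ℝ)) = th (u n e j) σ ∧
      (f n z : ℝ × (F n → ℝ)) = th (v n e j) (1 - σ) := by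
    intro n z
    obtain ⟨e, t, h0, h1, hz⟩ := z.2
    obtain ⟨j, hj1, hj2⟩ := exists_letter (r n) ((2 * r n + 1) * t) (mul_nonneg (hk n).le h0)
      (by nlinarith [hk n])
    refine ⟨e, j, if Even (j : ℕ) then (2 * r n + 1) * t - (j : ℕ) else
      1 - ((2 * r n + 1) * t - (j : ℕ)), ?_, ?_, ?_, ?_⟩
    · split_ifs <;> linarith
    · split_ifs <;> linarith
    · rw [hg n z e t h0 h1 hz, PW_eq _ j _ hj1 hj2]
      split_ifs <;> rfl
    · rw [hf n z e t h0 h1 hz, PW_eq _ j _ hj1 hj2]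
      split_ifs <;> rw [flp_th]
  -- a full edge is mapped onto everything
  have hfull : ∀ n (K : Set (Theta (F (n + 1)))) (c : F (n + 1)),
      (∀ (t : ℝ), 0 ≤ t → t ≤ 1 → ∃ z ∈ K, (z : ℝ × (F (n + 1) → ℝ)) = th c t) →
      ∀ y : Theta (F n), ∃ z ∈ K, g n z = y := by
    intro n K c hK y
    obtain ⟨x, t, h0, h1, hy⟩ := y.2
    obtain ⟨j, hj⟩ := hus n c x
    have hjlt : ((j : ℕ) : ℝ) + 1 ≤ 2 * r n + 1 := by
      have := j.2
      have h : ((j : ℕ) + 1 : ℝ) ≤ ((2 * r n + 1 : ℕ) : ℝ) := by exact_mod_cast this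
      push_cast at h
      linarith
    have hj0 : (0 : ℝ) ≤ ((j : ℕ) : ℝ) := by positivity
    set σ : ℝ := if Even (j : ℕ) then t else 1 - t with hσ
    have hσ0 : 0 ≤ σ := by rw [hσ]; split_ifs <;> linarith
    have hσ1 : σ ≤ 1 := by rw [hσ]; split_ifs <;> linarith
    obtain ⟨z, hz, hzc⟩ := hK (((j : ℕ) + σ) / (2 * r n + 1))
      (div_nonneg (by linarith) (hk n).le) ((div_le_one (hk n)).2 (by linarith))
    refine ⟨z, hz, Subtype.ext ?_⟩
    rw [hg n z c _ (div_nonneg (by linarith) (hk n).le) ((div_le_one (hk n)).2 (by linarith)) hzc,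
      mul_div_cancel₀ _ (hk n).ne', hσ, PW_at _ j t h0 h1, hj, hy]
  have hnt0 : Nontrivial (Theta (F 0)) := by
    obtain ⟨x⟩ := hne 0
    refine ⟨⟨⟨th x 0, th_mem x le_rfl zero_le_one⟩, ⟨th x 1, th_mem x zero_le_one le_rfl⟩, fun h => ?_⟩⟩
    have h2 : th x 0 = th x 1 := congrArg Subtype.val h
    have h3 : (0 : ℝ) = 1 := congrArg Prod.fst h2
    exact zero_ne_one h3
  refine invlim_main (fun n => Theta (F n)) (fun n => g n) (fun n => f n)
    (fun n => (g n).continuous) (fun n => (f n).continuous) ?_ ?_ ?_ ?_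
  · -- commutation
    intro n z
    obtain ⟨E, t, h0, h1, hz⟩ := z.2
    obtain ⟨j, hj1, hj2⟩ := exists_letter (r (n + 1)) ((2 * r (n + 1) + 1) * t)
      (mul_nonneg (hk (n + 1)).le h0) (by nlinarith [hk (n + 1)])
    set σ : ℝ := if Even (j : ℕ) then (2 * r (n + 1) + 1) * t - (j : ℕ) else
      1 - ((2 * r (n + 1) + 1) * t - (j : ℕ)) with hσ
    have hσ0 : 0 ≤ σ := by rw [hσ]; split_ifs <;> linarith
    have hσ1 : σ ≤ 1 := by rw [hσ]; split_ifs <;> linarith
    have e1 : (g (n + 1) z : ℝ × (F (n + 1) → ℝ)) = th (u (n + 1) E j) σ := by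
      rw [hg (n + 1) z E t h0 h1 hz, PW_eq _ j _ hj1 hj2, hσ]
      split_ifs <;> rfl
    have e2 : (f (n + 1) z : ℝ × (F (n + 1) → ℝ)) = th (v (n + 1) E j) (1 - σ) := by
      rw [hf (n + 1) z E t h0 h1 hz, PW_eq _ j _ hj1 hj2, hσ]
      split_ifs <;> rw [flp_th]
    apply Subtype.ext
    show (f n (g (n + 1) z) : ℝ × (F n → ℝ)) = (g n (f (n + 1) z) : ℝ × (F n → ℝ))
    rw [hf n _ _ σ hσ0 hσ1 e1, hg n _ _ (1 - σ) (by linarith) (by linarith) e2]
    have hw : u n (v (n + 1) E j) = fun i => v n (u (n + 1) E j) (Fin.rev i) := by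
      funext i
      exact hrev n _ _ (hDuv (n + 1) E j) i
    rw [hw, ← PW_rev _ _ (mul_nonneg (hk n).le hσ0) (by nlinarith [hk n])]
    congr 1
    ring
  · -- surjectivity
    intro n y
    obtain ⟨c⟩ := hne (n + 1)
    obtain ⟨z, -, hz⟩ := hfull n Set.univ c (fun t h0 h1 => ⟨⟨th c t, th_mem c h0 h1⟩, trivial, rfl⟩) y
    exact ⟨z, hz⟩
  · -- irreducibility
    intro n K hK hKc z hgz hfz y
    obtain ⟨E, j, σ, hσ0, hσ1, e1, e2⟩ := hcoord (n + 2) z
    have hab : u (n + 2) E j ≠ v (n + 2) E j := by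
      intro h
      have := hDuv (n + 2) E j
      rw [← h] at this
      exact hD _ _ this
    obtain ⟨c, hc⟩ := half_edge K hK hKc.isPreconnected _ _ hab σ hσ0 hσ1 _ _ e1 e2 hgz hfz
    -- a full edge one level down
    have hx : ∃ x : F (n + 1), ∀ (t : ℝ), 0 ≤ t → t ≤ 1 →
        ∃ w ∈ (g (n + 1)) '' K, (w : ℝ × (F (n + 1) → ℝ)) = th x t := by
      rcases hc with hc | hc
      · refine ⟨u (n + 1) c 0, fun t h0 h1 => ?_⟩
        have a0 : 0 ≤ t / (2 * r (n + 1) + 1) := div_nonneg h0 (hk (n + 1)).le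
        have a1 : t / (2 * r (n + 1) + 1) ≤ 1 / 2 := by
          rw [div_le_iff₀ (hk (n + 1))]
          nlinarith [hk3 (n + 1)]
        have hmem := hc ⟨th c (t / (2 * r (n + 1) + 1)), th_mem c a0 (by linarith)⟩ _ a0 a1 rfl
        refine ⟨_, ⟨_, hmem, rfl⟩, ?_⟩
        rw [hg (n + 1) _ c _ a0 (by linarith) rfl, mul_div_cancel₀ _ (hk (n + 1)).ne']
        have := PW_at (u (n + 1) c) 0 t h0 h1
        simpa using this
      · refine ⟨u (n + 1) c (Fin.last _), fun t h0 h1 => ?_⟩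
        have a1 : (2 * r (n + 1) + t) / (2 * r (n + 1) + 1) ≤ 1 := by
          rw [div_le_one (hk (n + 1))]
          linarith
        have a0 : 1 / 2 ≤ (2 * r (n + 1) + t) / (2 * r (n + 1) + 1) := by
          rw [le_div_iff₀ (hk (n + 1))]
          nlinarith [hk3 (n + 1)]
        have hmem := hc ⟨th c ((2 * r (n + 1) + t) / (2 * r (n + 1) + 1)),
          th_mem c (by linarith) a1⟩ _ a0 a1 rfl
        refine ⟨_, ⟨_, hmem, rfl⟩, ?_⟩
        rw [hg (n + 1) _ c _ (by linarith) a1 rfl, mul_div_cancel₀ _ (hk (n + 1)).ne']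
        have := PW_at (u (n + 1) c) (Fin.last _) t h0 h1
        simpa using this
    obtain ⟨x, hx⟩ := hx
    obtain ⟨w, ⟨z', hz', hzw⟩, hw⟩ := hfull n ((g (n + 1)) '' K) x hx y
    exact ⟨z', hz', by rw [← hw, ← hzw]⟩
  · -- lifting
    intro n h
    obtain ⟨m, Ψ, hΨ⟩ := circle_form h
    obtain ⟨W, hW⟩ := hsum n m
    obtain ⟨L, hL⟩ := word_lift (r n) (u n) m W hW (fun φ a b c => theta_glue φ a b c)
    refine ⟨⟨fun z => Ψ (g n z) + L z, (Ψ.continuous.comp (g n).continuous).add L.continuous⟩, ?_⟩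
    intro z
    show h (g n z) = Circle.exp (Ψ (g n z) + L z)
    obtain ⟨e, t, h0, h1, hz⟩ := z.2
    obtain ⟨j, hj1, hj2⟩ := exists_letter (r n) ((2 * r n + 1) * t)
      (mul_nonneg (hk n).le h0) (by nlinarith [hk n])
    set σ : ℝ := if Even (j : ℕ) then (2 * r n + 1) * t - (j : ℕ) else
      1 - ((2 * r n + 1) * t - (j : ℕ)) with hσ
    have hσ0 : 0 ≤ σ := by rw [hσ]; split_ifs <;> linarith
    have hσ1 : σ ≤ 1 := by rw [hσ]; split_ifs <;> linarith
    have e1 : (g n z : ℝ × (F n → ℝ)) = th (u n e j) σ := by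
      rw [hg n z e t h0 h1 hz, PW_eq _ j _ hj1 hj2, hσ]
      split_ifs <;> rfl
    rw [hΨ _ _ σ hσ0 hσ1 e1, Circle.exp_add, hL z e t j σ h0 h1 hz hj1 hj2 hσ]


end Pool.Agent.Helper475.TW
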