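import Mathlib

set_option autoImplicit false

namespace Pool.Agent.Helper475.Torsion

abbrev W : Type := List (ZMod 3)
abbrev P : Type := Equiv.Perm W

/-- level-one stabiliser element with given sections -/
def psiFun (h : ZMod 3 → P) : W → W
  | [] => []
  | x :: w => x :: h x w

/-- sections to permutation -/
def psi : (ZMod 3 → P) →* P where
  toFun h :=
    { toFun := psiFun h
      invFun := psiFun (fun x => (h x)⁻¹)
      left_inv := by
        intro w
        cases w with
        | nil => rfl
        | cons x w => simp [psiFun]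
      right_inv := by
        intro w
        cases w with
        | nil => rfl
        | cons x w => simp [psiFun] }
  map_one' := by
    ext w : 1
    cases w with
    | nil => rfl
    | cons x w => rfl
  map_mul' := by
    intro h h'
    ext w : 1
    cases w with
    | nil => rfl
    | cons x w => rfl

@[simp] lemma psi_nil (h : ZMod 3 → P) : psi h [] = [] := rfl
@[simp] lemma psi_cons (h : ZMod 3 → P) (x : ZMod 3) (w : W) : psi h (x :: w) = x :: h x w := rfl

lemma psi_injective : Function.Injective psi := by
  intro h h' hh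
  funext x
  ext w : 1
  have := congrArg (fun p : P => p (x :: w)) hh
  simpa using this

def rotFun (i : ZMod 3) : W → W
  | [] => []
  | x :: w => (x + i) :: w

/-- rotation of the first letter -/
def rot (i : ZMod 3) : P where
  toFun := rotFun i
  invFun := rotFun (-i)
  left_inv := by
    intro w
    cases w with
    | nil => rfl
    | cons x w => simp [rotFun]
  right_inv := by
    intro w
    cases w with
    | nil => rfl
    | cons x w => simp [rotFun]

@[simp] lemma rot_nil (i : ZMod 3) : rot i [] = [] := rfl
@[simp] lemma rot_cons (i x : ZMod 3) (w : W) : rot i (x :: w) = (x + i) :: w := rfl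

lemma rot_add (i j : ZMod 3) : rot (i + j) = rot i * rot j := by
  ext w : 1
  cases w with
  | nil => rfl
  | cons x w =>
    simp only [rot_cons, Equiv.Perm.mul_apply, List.cons.injEq, and_true]
    ring

lemma rot_zero : rot 0 = 1 := by
  ext w : 1
  cases w with
  | nil => rfl
  | cons x w => simp

lemma rot_neg (i : ZMod 3) : rot (-i) = (rot i)⁻¹ := by
  rw [eq_inv_iff_mul_eq_one, ← rot_add, neg_add_cancel, rot_zero]

lemma rot_psi (i : ZMod 3) (h : ZMod 3 → P) :
    rot i * psi h * (rot i)⁻¹ = psi (fun x => h (x - i)) := by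
  rw [← rot_neg]
  ext w : 1
  cases w with
  | nil => rfl
  | cons x w => simp [sub_eq_add_neg]

def bFun : W → W
  | [] => []
  | x :: w => if x = 0 then x :: rotFun 1 w else if x = 1 then x :: rotFun (-1) w else x :: bFun w

def bInvFun : W → W
  | [] => []
  | x :: w => if x = 0 then x :: rotFun (-1) w else if x = 1 then x :: rotFun 1 w
      else x :: bInvFun w

lemma rotFun_rotFun (i j : ZMod 3) (w : W) : rotFun i (rotFun j w) = rotFun (j + i) w := by
  cases w with
  | nil => rfl
  | cons x w => simp [rotFun, add_assoc]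

lemma rotFun_zero (w : W) : rotFun 0 w = w := by
  cases w with
  | nil => rfl
  | cons x w => simp [rotFun]

def b : P where
  toFun := bFun
  invFun := bInvFun
  left_inv := by
    intro w
    induction w with
    | nil => rfl
    | cons x w ih =>
      simp only [bFun]
      split_ifs with h0 h1
      · simp [bInvFun, h0, rotFun_rotFun, rotFun_zero]
      · simp [bInvFun, h1, rotFun_rotFun, rotFun_zero]
      · simp [bInvFun, h0, h1, ih]
  right_inv := by
    intro w
    induction w with
    | nil => rfl
    | cons x w ih =>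
      simp only [bInvFun]
      split_ifs with h0 h1
      · simp [bFun, h0, rotFun_rotFun, rotFun_zero]
      · simp [bFun, h1, rotFun_rotFun, rotFun_zero]
      · simp [bFun, h0, h1, ih]

/-- sections of `b` -/
def beta (x : ZMod 3) : P := if x = 0 then rot 1 else if x = 1 then rot (-1) else b

lemma b_eq : b = psi beta := by
  ext w : 1
  cases w with
  | nil => rfl
  | cons x w =>
    show bFun (x :: w) = x :: beta x w
    simp only [bFun, beta]
    split_ifs with h0 h1 <;> rfl

lemma rot_pow_three (i : ZMod 3) : rot i ^ 3 = 1 := by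
  rw [pow_succ, pow_succ, pow_one, ← rot_add, ← rot_add]
  have : i + i + i = 0 := by
    revert i; decide
  rw [this, rot_zero]

lemma b_pow_three : b ^ 3 = 1 := by
  ext w : 1
  induction w with
  | nil => rfl
  | cons x w ih =>
    rw [b_eq, ← map_pow]
    simp only [psi_cons, Pi.pow_apply, Equiv.Perm.one_apply, List.cons.injEq, true_and]
    simp only [beta]
    split_ifs with h0 h1
    · rw [rot_pow_three]; rfl
    · rw [rot_pow_three]; rfl
    · simpa using ih

/-- syllable `a^i b^e a^{-i}` -/
def syl (p : ZMod 3 × ℤ) : P := rot p.1 * b ^ p.2 * (rot p.1)⁻¹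

def prodL (l : List (ZMod 3 × ℤ)) : P := (l.map syl).prod

lemma prodL_nil : prodL [] = 1 := rfl
lemma prodL_cons (p : ZMod 3 × ℤ) (l : List (ZMod 3 × ℤ)) : prodL (p :: l) = syl p * prodL l := by
  simp [prodL]
lemma prodL_append (l l' : List (ZMod 3 × ℤ)) : prodL (l ++ l') = prodL l * prodL l' := by
  simp [prodL]

def shift (s : ZMod 3) (l : List (ZMod 3 × ℤ)) : List (ZMod 3 × ℤ) := l.map (fun p => (s + p.1, p.2))

lemma shift_length (s : ZMod 3) (l : List (ZMod 3 × ℤ)) : (shift s l).length = l.length := by
  simp [shift]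

lemma prodL_shift (s : ZMod 3) (l : List (ZMod 3 × ℤ)) :
    rot s * prodL l = prodL (shift s l) * rot s := by
  induction l with
  | nil => simp [prodL, shift]
  | cons p l ih =>
    have : shift s (p :: l) = (s + p.1, p.2) :: shift s l := rfl
    rw [this, prodL_cons, prodL_cons, mul_assoc, ← ih, ← mul_assoc, ← mul_assoc]
    congr 1
    simp only [syl, rot_add]
    group

lemma syl_eq (p : ZMod 3 × ℤ) : syl p = psi (fun x => beta (x - p.1) ^ p.2) := by
  unfold syl
  have : b ^ p.2 = psi (fun x => beta x ^ p.2) := by
    have h1 : (fun x => beta x ^ p.2) = beta ^ p.2 := rfl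
    rw [h1, map_zpow, ← b_eq]
  rw [this, rot_psi]

/-- sections of a product -/
def sect (l : List (ZMod 3 × ℤ)) (x : ZMod 3) : P := (l.map (fun p => beta (x - p.1) ^ p.2)).prod

lemma prodL_eq (l : List (ZMod 3 × ℤ)) : prodL l = psi (sect l) := by
  induction l with
  | nil => simp [prodL]; exact (map_one psi).symm
  | cons p l ih =>
    rw [prodL_cons, syl_eq, ih, ← map_mul]
    rfl

def cnt (x : ZMod 3) (l : List (ZMod 3 × ℤ)) : ℕ := l.countP (fun p => decide (x - p.1 = 2))

def cexp (x : ZMod 3) (p : ZMod 3 × ℤ) : ZMod 3 :=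
  if x - p.1 = 0 then (p.2 : ZMod 3) else if x - p.1 = 1 then -(p.2 : ZMod 3) else 0

lemma rot_zpow (i : ZMod 3) (n : ℤ) : rot i ^ n = rot (i * n) := by
  have hnat : ∀ m : ℕ, rot i ^ m = rot (i * m) := by
    intro m
    induction m with
    | zero => simp [rot_zero]
    | succ m ih => rw [pow_succ, ih, ← rot_add]; congr 1; push_cast; ring
  cases n with
  | ofNat m => simpa using hnat m
  | negSucc m =>
    rw [zpow_negSucc, hnat, ← rot_neg]
    congr 1
    push_cast
    ring

lemma sect_form (l : List (ZMod 3 × ℤ)) (x : ZMod 3) :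
    ∃ l' : List (ZMod 3 × ℤ), l'.length = cnt x l ∧
      sect l x = prodL l' * rot ((l.map (cexp x)).sum) := by
  induction l with
  | nil => exact ⟨[], rfl, by simp [sect, prodL, rot_zero]⟩
  | cons p l ih =>
    obtain ⟨l', hl', hs⟩ := ih
    have hsect : sect (p :: l) x = beta (x - p.1) ^ p.2 * sect l x := by simp [sect]
    have hall : ∀ z : ZMod 3, z = 0 ∨ z = 1 ∨ z = 2 := by decide
    rcases hall (x - p.1) with h | h | h
    · refine ⟨shift (p.2 : ZMod 3) l', ?_, ?_⟩
      · rw [shift_length, hl']
        have h02 : (0 : ZMod 3) ≠ 2 := by decide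
        simp [cnt, h, h02]
      · have h1 : beta (x - p.1) = rot 1 := by simp [beta, h]
        rw [hsect, hs, h1, rot_zpow, one_mul, ← mul_assoc, prodL_shift, mul_assoc, ← rot_add]
        simp [cexp, h]
    · refine ⟨shift (-(p.2 : ZMod 3)) l', ?_, ?_⟩
      · rw [shift_length, hl']
        have h12 : (1 : ZMod 3) ≠ 2 := by decide
        simp [cnt, h, h12]
      · have h1 : beta (x - p.1) = rot (-1) := by simp [beta, h]
        rw [hsect, hs, h1, rot_zpow, neg_one_mul, ← mul_assoc, prodL_shift, mul_assoc, ← rot_add]
        simp [cexp, h]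
    · refine ⟨(0, p.2) :: l', ?_, ?_⟩
      · rw [List.length_cons, hl']
        simp [cnt, h]
      · have h20 : (2 : ZMod 3) ≠ 0 := by decide
        have h21 : (2 : ZMod 3) ≠ 1 := by decide
        have h1 : beta (x - p.1) = b := by simp [beta, h, h20, h21]
        rw [hsect, hs, h1, prodL_cons]
        simp [cexp, h, h20, h21, syl, rot_zero, mul_assoc]

lemma cexp_sum (l : List (ZMod 3 × ℤ)) :
    (l.map (cexp 0)).sum + (l.map (cexp 1)).sum + (l.map (cexp 2)).sum = 0 := by
  induction l with
  | nil => simp
  | cons p l ih =>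
    simp only [List.map_cons, List.sum_cons]
    have key : ∀ (i e : ZMod 3),
        (if (0 : ZMod 3) - i = 0 then e else if (0 : ZMod 3) - i = 1 then -e else 0) +
        (if (1 : ZMod 3) - i = 0 then e else if (1 : ZMod 3) - i = 1 then -e else 0) +
        (if (2 : ZMod 3) - i = 0 then e else if (2 : ZMod 3) - i = 1 then -e else 0) = 0 := by
      decide
    have := key p.1 (p.2 : ZMod 3)
    simp only [cexp]
    linear_combination this + ih

lemma cnt_sum (l : List (ZMod 3 × ℤ)) : cnt 0 l + cnt 1 l + cnt 2 l = l.length := by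
  induction l with
  | nil => rfl
  | cons p l ih =>
    have key : ∀ i : ZMod 3, (if (0 : ZMod 3) - i = 2 then 1 else 0) +
        (if (1 : ZMod 3) - i = 2 then 1 else 0) + (if (2 : ZMod 3) - i = 2 then 1 else 0) = 1 := by
      decide
    have := key p.1
    simp only [cnt, List.countP_cons, decide_eq_true_eq, List.length_cons] at *
    omega

lemma isOfFinOrder_psi (h : ZMod 3 → P) (hh : ∀ x, IsOfFinOrder (h x)) : IsOfFinOrder (psi h) := by
  rw [isOfFinOrder_iff_pow_eq_one]
  refine ⟨∏ x, orderOf (h x), Finset.prod_pos (fun x _ => (hh x).orderOf_pos), ?_⟩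
  rw [← map_pow]
  have : h ^ (∏ x, orderOf (h x)) = 1 := by
    funext x
    rw [Pi.pow_apply, Pi.one_apply]
    exact orderOf_dvd_iff_pow_eq_one.mp (Finset.dvd_prod_of_mem _ (Finset.mem_univ x))
  rw [this, map_one]

lemma cnt_le (x : ZMod 3) (l : List (ZMod 3 × ℤ)) : cnt x l ≤ l.length := List.countP_le_length

lemma prodL_const (i : ZMod 3) (l : List (ZMod 3 × ℤ)) (hl : ∀ p ∈ l, p.1 = i) :
    prodL l = rot i * b ^ ((l.map Prod.snd).sum) * (rot i)⁻¹ := by
  induction l with
  | nil => simp [prodL]
  | cons p l ih =>
    rw [prodL_cons, ih (fun q hq => hl q (List.mem_cons_of_mem _ hq))]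
    have : p.1 = i := hl p (by simp)
    simp only [syl, this, List.map_cons, List.sum_cons, zpow_add]
    group

lemma b_zpow_fin (n : ℤ) : IsOfFinOrder (b ^ n) := by
  rw [isOfFinOrder_iff_pow_eq_one]
  refine ⟨3, by norm_num, ?_⟩
  rw [← zpow_natCast, ← zpow_mul, mul_comm, zpow_mul, zpow_natCast, b_pow_three, one_zpow]

lemma torsion_aux : ∀ n : ℕ, ∀ l : List (ZMod 3 × ℤ), l.length = n → ∀ k : ZMod 3,
    IsOfFinOrder (prodL l * rot k) := by
  intro n
  induction n using Nat.strong_induction_on with
  | _ n ih =>
    have P0 : ∀ l : List (ZMod 3 × ℤ), l.length = n → IsOfFinOrder (prodL l) := by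
      intro l hl
      by_cases hx : ∃ x, cnt x l = n
      · obtain ⟨x, hx⟩ := hx
        have hall : ∀ p ∈ l, p.1 = x - 2 := by
          intro p hp
          have h1 : l.countP (fun p => decide (x - p.1 = 2)) = l.length := by
            rw [hl]; exact hx
          rw [List.countP_eq_length] at h1
          have h2 := h1 p hp
          simp only [decide_eq_true_eq] at h2
          rw [← h2]; ring
        rw [prodL_const (x - 2) l hall]
        have := b_zpow_fin ((l.map Prod.snd).sum)
        rw [isOfFinOrder_iff_pow_eq_one] at this ⊢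
        obtain ⟨m, hm, hb⟩ := this
        exact ⟨m, hm, by rw [conj_pow, hb]; group⟩
      · push Not at hx
        rw [prodL_eq]
        apply isOfFinOrder_psi
        intro x
        obtain ⟨l', hl', hs⟩ := sect_form l x
        rw [hs]
        apply ih (cnt x l) _ l' hl'
        have := cnt_le x l
        have := hx x
        omega
    intro l hl k
    by_cases hk : k = 0
    · rw [hk, rot_zero, mul_one]
      exact P0 l hl
    · -- the cube
      have hcube : (prodL l * rot k) ^ 3 =
          psi (fun x => sect l x * sect l (x - k) * sect l (x - (k + k))) := by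
        have e1 : (prodL l * rot k) ^ 3 = prodL l * (rot k * prodL l * (rot k)⁻¹) *
            (rot (k + k) * prodL l * (rot (k + k))⁻¹) * (rot k) ^ 3 := by
          rw [rot_add]
          simp only [pow_succ, pow_zero, one_mul]
          group
        rw [e1, rot_pow_three, mul_one, prodL_eq, rot_psi, rot_psi, ← map_mul, ← map_mul]
        rfl
      have hfin : IsOfFinOrder ((prodL l * rot k) ^ 3) := by
        rw [hcube]
        apply isOfFinOrder_psi
        intro x
        obtain ⟨l1, hl1, hs1⟩ := sect_form l x
        obtain ⟨l2, hl2, hs2⟩ := sect_form l (x - k)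
        obtain ⟨l3, hl3, hs3⟩ := sect_form l (x - (k + k))
        have hform : sect l x * sect l (x - k) * sect l (x - (k + k)) =
            prodL (l1 ++ shift ((l.map (cexp x)).sum) l2 ++
              shift ((l.map (cexp x)).sum + (l.map (cexp (x - k))).sum) l3) *
            rot ((l.map (cexp x)).sum + (l.map (cexp (x - k))).sum +
              (l.map (cexp (x - (k + k)))).sum) := by
          rw [hs1, hs2, hs3, prodL_append, prodL_append]
          set s1 := (l.map (cexp x)).sum
          set s2 := (l.map (cexp (x - k))).sum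
          set s3 := (l.map (cexp (x - (k + k)))).sum
          rw [rot_add (s1 + s2) s3]
          have h2 := prodL_shift s1 l2
          have h3 := prodL_shift (s1 + s2) l3
          calc prodL l1 * rot s1 * (prodL l2 * rot s2) * (prodL l3 * rot s3)
              = prodL l1 * (rot s1 * prodL l2) * rot s2 * (prodL l3 * rot s3) := by group
            _ = prodL l1 * (prodL (shift s1 l2) * rot s1) * rot s2 * (prodL l3 * rot s3) := by
                rw [h2]
            _ = prodL l1 * prodL (shift s1 l2) * (rot (s1 + s2) * prodL l3) * rot s3 := by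
                rw [rot_add]; group
            _ = prodL l1 * prodL (shift s1 l2) * (prodL (shift (s1 + s2) l3) * rot (s1 + s2)) *
                rot s3 := by rw [h3]
            _ = _ := by group
        have hsum0 : (l.map (cexp x)).sum + (l.map (cexp (x - k))).sum +
              (l.map (cexp (x - (k + k)))).sum = 0 := by
          have h0 := cexp_sum l
          have key : ∀ (f : ZMod 3 → ZMod 3) (x k : ZMod 3), k ≠ 0 →
              f x + f (x - k) + f (x - (k + k)) = f 0 + f 1 + f 2 := by
            decide
          exact (key (fun x => (l.map (cexp x)).sum) x k hk).trans h0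
        have hlen : (l1 ++ shift ((l.map (cexp x)).sum) l2 ++
              shift ((l.map (cexp x)).sum + (l.map (cexp (x - k))).sum) l3).length = n := by
          rw [List.length_append, List.length_append, shift_length, shift_length, hl1, hl2, hl3]
          have h0 := cnt_sum l
          rw [hl] at h0
          rw [← h0]
          have hall : ∀ x k : ZMod 3, k ≠ 0 → (x = 0 ∧ x - k = 1 ∧ x - (k + k) = 2) ∨
            (x = 0 ∧ x - k = 2 ∧ x - (k + k) = 1) ∨ (x = 1 ∧ x - k = 0 ∧ x - (k + k) = 2) ∨
            (x = 1 ∧ x - k = 2 ∧ x - (k + k) = 0) ∨ (x = 2 ∧ x - k = 0 ∧ x - (k + k) = 1) ∨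
            (x = 2 ∧ x - k = 1 ∧ x - (k + k) = 0) := by decide
          rcases hall x k hk with h | h | h | h | h | h <;> rw [h.2.2, h.2.1, h.1] <;> omega
        rw [hform, hsum0, rot_zero, mul_one]
        exact P0 _ hlen
      rw [isOfFinOrder_iff_pow_eq_one] at hfin ⊢
      obtain ⟨m, hm, h1⟩ := hfin
      exact ⟨3 * m, by omega, by rw [pow_mul]; exact h1⟩

/-- the Gupta-Sidki group -/
def GS : Subgroup P := Subgroup.closure {rot 1, b}

lemma form_of_mem (g : P) (hg : g ∈ GS) : ∃ (l : List (ZMod 3 × ℤ)) (k : ZMod 3),
    g = prodL l * rot k := by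
  unfold GS at hg
  induction hg using Subgroup.closure_induction with
  | mem x hx =>
    rcases hx with rfl | hx
    · exact ⟨[], 1, by simp [prodL]⟩
    · rw [Set.mem_singleton_iff] at hx
      exact ⟨[(0, 1)], 0, by simp [prodL, syl, rot_zero, hx]⟩
  | one => exact ⟨[], 0, by simp [prodL, rot_zero]⟩
  | mul x y _ _ hx hy =>
    obtain ⟨l, k, rfl⟩ := hx
    obtain ⟨l', k', rfl⟩ := hy
    refine ⟨l ++ shift k l', k + k', ?_⟩
    rw [prodL_append, rot_add]
    have := prodL_shift k l'
    calc prodL l * rot k * (prodL l' * rot k') = prodL l * (rot k * prodL l') * rot k' := by group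
      _ = _ := by rw [this]; group
  | inv x _ hx =>
    obtain ⟨l, k, rfl⟩ := hx
    have hinv : ∀ l : List (ZMod 3 × ℤ), ∃ l' : List (ZMod 3 × ℤ), (prodL l)⁻¹ = prodL l' := by
      intro l
      induction l with
      | nil => exact ⟨[], by simp [prodL]⟩
      | cons p l ih =>
        obtain ⟨l', hl'⟩ := ih
        refine ⟨l' ++ [(p.1, -p.2)], ?_⟩
        rw [prodL_cons, mul_inv_rev, hl', prodL_append]
        congr 1
        simp [prodL, syl, mul_assoc]
    obtain ⟨l', hl'⟩ := hinv l
    refine ⟨shift (-k) l', -k, ?_⟩
    rw [mul_inv_rev, hl', ← rot_neg, prodL_shift]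

lemma torsion (g : P) (hg : g ∈ GS) : IsOfFinOrder g := by
  obtain ⟨l, k, rfl⟩ := form_of_mem g hg
  exact torsion_aux l.length l rfl k

lemma infinite_GS : Infinite GS := by
  by_contra hfin
  rw [not_infinite_iff_finite] at hfin
  let H : Subgroup (ZMod 3 → P) := GS.comap psi
  let f : H → GS := fun h => ⟨psi h.1, h.2⟩
  have hf : Function.Injective f := by
    intro h h' hh
    apply Subtype.ext
    apply psi_injective
    exact congrArg Subtype.val hh
  have hHfin : Finite H := Finite.of_injective f hf
  -- `rot 1` is not in the image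
  have ha : rot 1 ∈ GS := Subgroup.subset_closure (by simp)
  have hb : b ∈ GS := Subgroup.subset_closure (by simp)
  have hnot : ¬ Function.Surjective f := by
    intro hsurj
    obtain ⟨h, hh⟩ := hsurj ⟨rot 1, ha⟩
    have h1 := congrArg (fun g : GS => (g : P) [0]) hh
    simp only [f] at h1
    have h3 : (psi h.1) ((0 : ZMod 3) :: []) = 0 :: (h.1 0) [] := rfl
    have h4 : rot 1 ((0 : ZMod 3) :: []) = (0 + 1) :: [] := rfl
    rw [h3, h4] at h1
    have h5 : (0 : ZMod 3) = 0 + 1 := (List.cons.injEq _ _ _ _ ▸ h1).1
    exact absurd h5 (by decide)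
  have hlt : Nat.card H < Nat.card GS := by
    refine lt_of_le_of_ne (Nat.card_le_card_of_injective f hf) ?_
    intro heq
    apply hnot
    exact ((Nat.bijective_iff_injective_and_card f).mpr ⟨hf, heq⟩).2
  have hle : Nat.card GS ≤ Nat.card H := by
    let K : Subgroup P := H.map (Pi.evalMonoidHom (fun _ : ZMod 3 => P) 0)
    have hK : GS ≤ K := by
      unfold GS
      rw [Subgroup.closure_le]
      intro g hg
      rcases hg with rfl | hg
      · refine ⟨beta, ?_, ?_⟩
        · show psi beta ∈ GS
          rw [← b_eq]; exact hb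
        · simp [beta]
      · rw [Set.mem_singleton_iff] at hg
        refine ⟨fun x => beta (x - 1), ?_, ?_⟩
        · show psi (fun x => beta (x - 1)) ∈ GS
          rw [← rot_psi, ← b_eq]
          exact GS.mul_mem (GS.mul_mem ha hb) (GS.inv_mem ha)
        · have h1 : (0 : ZMod 3) - 1 ≠ 0 := by decide
          have h2 : (0 : ZMod 3) - 1 ≠ 1 := by decide
          simp only [Pi.evalMonoidHom_apply, beta, hg, h1, h2, if_false]
    let g := (Pi.evalMonoidHom (fun _ : ZMod 3 => P) 0).subgroupMap H
    have hg : Function.Surjective g := MonoidHom.subgroupMap_surjective _ _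
    have hKfin : Finite K := Finite.of_surjective g hg
    calc Nat.card GS ≤ Nat.card K := Subgroup.card_le_of_le hK
      _ ≤ Nat.card H := Nat.card_le_card_of_surjective g hg
  omega

/-- There is an infinite finitely generated torsion group (Gupta-Sidki 3-group, or Grigorchuk). -/
theorem exists_inf_torsion : ∃ (T : Type) (_ : Group T) (S : Finset T),
    Subgroup.closure (S : Set T) = ⊤ ∧ Infinite T ∧ ∀ g : T, IsOfFinOrder g := by
  classical
  have ha : rot 1 ∈ GS := Subgroup.subset_closure (by simp)
  have hb : b ∈ GS := Subgroup.subset_closure (by simp)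
  refine ⟨GS, inferInstance, {⟨rot 1, ha⟩, ⟨b, hb⟩}, ?_, infinite_GS, ?_⟩
  · have h1 : ((({⟨rot 1, ha⟩, ⟨b, hb⟩} : Finset GS) : Set GS)) =
        (Subtype.val : GS → P) ⁻¹' {rot 1, b} := by
      ext x
      simp [Subtype.ext_iff]
    rw [h1]
    exact Subgroup.closure_closure_coe_preimage
  · intro g
    have := torsion g.1 g.2
    rw [isOfFinOrder_iff_pow_eq_one] at this ⊢
    obtain ⟨m, hm, h1⟩ := this
    exact ⟨m, hm, Subtype.ext h1⟩

end Pool.Agent.Helper475.Torsion
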